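import Pool.Agent.N748.GC.Stm

set_option autoImplicit false

/-!
# The random Euler product on the infinite and on the finite torus (GC/RZ)
-/

namespace Pool.Agent.N748.GC.RZ

open Finset Filter MeasureTheory MonoidAlgebra Topology Complex

/-! ### the law of the restriction -/

theorem restr_mp (P : Finset ℕ) :
    MeasurePreserving (fun (w : Om) (p : P) => w p) PO (HP P) := by
  refine ⟨by fun_prop, ?_⟩
  exact Measure.infinitePi_map_restrict
    (μ := fun _ : ℕ => (AddCircle.haarAddCircle (T := (1:ℝ)))) (I := P)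

instance PO_prob : IsProbabilityMeasure PO := by
  unfold PO; infer_instance

instance HP_left (P : Finset ℕ) : (HP P).IsAddLeftInvariant := by
  unfold HP; infer_instance

instance HP_right (P : Finset ℕ) : (HP P).IsAddRightInvariant := by
  unfold HP; infer_instance

/-- integral of a continuous function of finitely many coordinates -/
theorem int_restr (P : Finset ℕ) (F : UnitAddTorus P → ℝ) (hF : Continuous F) :
    ∫ w, F (fun p : P => w p) ∂PO = ∫ x, F x ∂(HP P) := by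
  rw [← (restr_mp P).map_eq, integral_map (restr_mp P).measurable.aemeasurable
    hF.measurable.aestronglyMeasurable]

theorem int_trans (P : Finset ℕ) (F : UnitAddTorus P → ℝ) (y : UnitAddTorus P) :
    ∫ x, F (x + y) ∂(HP P) = ∫ x, F x ∂(HP P) :=
  integral_add_right_eq_self F y

theorem int_restr_add (P : Finset ℕ) (F : UnitAddTorus P → ℝ) (hF : Continuous F)
    (y : UnitAddTorus P) :
    ∫ w, F ((fun p : P => w p) + y) ∂PO = ∫ x, F x ∂(HP P) := by
  rw [int_restr P (fun x => F (x + y)) (by fun_prop), int_trans]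

/-! ### the factors -/

theorem norm_pos' {p : ℕ} (hp : p.Prime) (y : UnitAddCircle) :
    0 < ‖1 - (fourier 1 y : ℂ) * (((p:ℝ) ^ (-(1 / 2 : ℝ)) : ℝ) : ℂ)‖ := by
  rw [norm_pos_iff]
  intro h
  have h1 : (fourier 1 y : ℂ) * (((p:ℝ) ^ (-(1 / 2 : ℝ)) : ℝ) : ℂ) = 1 := by
    linear_combination -h
  have h2 : ‖(fourier 1 y : ℂ) * (((p:ℝ) ^ (-(1 / 2 : ℝ)) : ℝ) : ℂ)‖ = 1 := by rw [h1]; simp
  have h3 : ‖(fourier 1 y : ℂ)‖ = 1 := by
    rw [fourier_one]; exact Circle.norm_coe _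
  rw [norm_mul, h3, one_mul, Complex.norm_real, Real.norm_eq_abs,
    abs_of_nonneg (Real.rpow_nonneg (Nat.cast_nonneg p) _)] at h2
  have h4 : (p:ℝ) ^ (-(1 / 2 : ℝ)) < 1 :=
    Real.rpow_lt_one_of_one_lt_of_neg (by exact_mod_cast hp.one_lt) (by norm_num)
  linarith

theorem lw_cont (α : ℝ) {p : ℕ} (hp : p.Prime) : Continuous (lw α p) := by
  unfold lw
  refine Continuous.mul continuous_const ?_
  refine Continuous.log ?_ (fun y => (norm_pos' hp y).ne')
  fun_prop

/-- continuity of the density -/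
theorem M0_cont (α : ℝ) (P : Finset ℕ) (hP : ∀ p ∈ P, p.Prime) : Continuous (M0 α P) := by
  unfold M0
  refine Continuous.div_const ?_ _
  refine Real.continuous_exp.comp ?_
  refine continuous_finsetSum _ fun p _ => ?_
  exact (lw_cont α (hP p p.2)).comp (continuous_apply p)

theorem expint_pos (α : ℝ) {p : ℕ} (hp : p.Prime) :
    0 < ∫ y, Real.exp (lw α p y) ∂(AddCircle.haarAddCircle (T := (1:ℝ))) := by
  have hc : Continuous fun y => Real.exp (lw α p y) := Real.continuous_exp.comp (lw_cont α hp)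
  refine integral_exp_pos (f := lw α p) ?_
  exact hc.integrable_of_hasCompactSupport (HasCompactSupport.of_compactSpace _)

theorem E0_pos (α : ℝ) (P : Finset ℕ) (hP : ∀ p ∈ P, p.Prime) : 0 < E0 α P := by
  unfold E0
  exact Finset.prod_pos fun p _ => expint_pos α (hP p p.2)

theorem M0_pos (α : ℝ) (P : Finset ℕ) (hP : ∀ p ∈ P, p.Prime) (x : UnitAddTorus P) :
    0 < M0 α P x := by
  unfold M0
  exact div_pos (Real.exp_pos _) (E0_pos α P hP)

theorem int_exp_eq (α : ℝ) (P : Finset ℕ) :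
    ∫ x, Real.exp (∑ p : P, lw α p (x p)) ∂(HP P) = E0 α P := by
  unfold E0 HP
  simp_rw [Real.exp_sum]
  exact integral_fintype_prod_eq_prod
    (μ := fun _ : P => (AddCircle.haarAddCircle (T := (1:ℝ))))
    (fun p : P => fun y => Real.exp (lw α p y))

/-- the density has integral one -/
theorem M0_int (α : ℝ) (P : Finset ℕ) (hP : ∀ p ∈ P, p.Prime) :
    ∫ x, M0 α P x ∂(HP P) = 1 := by
  unfold M0
  rw [integral_div, int_exp_eq, div_self (E0_pos α P hP).ne']

/-! ### the Euler product -/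

theorem fourier_add_arg (x y : UnitAddCircle) :
    (fourier 1 (x + y) : ℂ) = (fourier 1 x : ℂ) * (fourier 1 y : ℂ) := by
  simp only [fourier_one, AddCircle.toCircle_add, Circle.coe_mul]

theorem fourier_pt (P : Finset ℕ) (u : ℝ) (p : P) :
    (fourier 1 (pt P u p) : ℂ) = Complex.exp (-(u * I * Real.log (p:ℕ))) := by
  unfold pt
  rw [fourier_coe_apply]
  congr 1
  have hpi : (Real.pi : ℂ) ≠ 0 := by exact_mod_cast Real.pi_ne_zero
  push_cast
  field_simp

theorem cpow_eq {p : ℕ} (hp : p.Prime) (u : ℝ) :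
    ((p:ℕ):ℂ) ^ (-(1 / 2 + u * I) : ℂ) =
      Complex.exp (-(u * I * Real.log (p:ℕ))) * (((p:ℝ) ^ (-(1 / 2 : ℝ)) : ℝ) : ℂ) := by
  have hp0 : (p:ℂ) ≠ 0 := by exact_mod_cast hp.ne_zero
  have h1 : (((p:ℝ) ^ (-(1 / 2 : ℝ)) : ℝ) : ℂ) = (p:ℂ) ^ (-(1/2) : ℂ) := by
    rw [Complex.ofReal_cpow (Nat.cast_nonneg p)]
    push_cast
    rfl
  rw [h1, Complex.cpow_def_of_ne_zero hp0, Complex.cpow_def_of_ne_zero hp0, ← Complex.exp_add,
    ← Complex.natCast_log]
  congr 1
  ring

theorem mem_Sm {z p : ℕ} : p ∈ Sm z ↔ p < z ∧ p.Prime := by simp [Sm]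

theorem Sm_prime (z : ℕ) : ∀ p ∈ Sm z, p.Prime := fun _ hp => (mem_Sm.1 hp).2

theorem EO_norm (α : ℝ) (z : ℕ) (w : Om) (u : ℝ) :
    ‖EO z w u‖ ^ (2 * α) =
      Real.exp (∑ p : Sm z, lw α p (((fun p : Sm z => w p) + pt (Sm z) u) p)) := by
  unfold EO
  rw [norm_prod, ← Real.finsetProd_rpow _ _ (fun p _ => norm_nonneg _), Real.exp_sum,
    ← Finset.prod_coe_sort (Sm z)]
  refine Finset.prod_congr rfl fun p _ => ?_
  have hp : (p:ℕ).Prime := Sm_prime z p p.2
  have h1 : (fourier 1 (w p) : ℂ) * ((p:ℕ):ℂ) ^ (-(1 / 2 + u * I)) =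
      (fourier 1 (((fun p : Sm z => w p) + pt (Sm z) u) p) : ℂ) *
        (((p:ℝ) ^ (-(1 / 2 : ℝ)) : ℝ) : ℂ) := by
    rw [Pi.add_apply, fourier_add_arg, fourier_pt, cpow_eq hp]
    ring
  have hpos := norm_pos' hp (((fun p : Sm z => w p) + pt (Sm z) u) p)
  rw [norm_inv, h1, Real.rpow_def_of_pos (inv_pos.2 hpos), Real.log_inv]
  unfold lw
  congr 1
  ring

/-- (RZ) -/
theorem main : Pool.Agent.N748.GC.S_RZ := by
  intro α _ z w u
  unfold rz
  rw [EO_norm]
  simp_rw [EO_norm]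
  have hc : Continuous fun x : UnitAddTorus (Sm z) => Real.exp (∑ p : Sm z, lw α p (x p)) := by
    refine Real.continuous_exp.comp ?_
    refine continuous_finsetSum _ fun p _ => ?_
    exact (lw_cont α (Sm_prime z p p.2)).comp (continuous_apply p)
  have h := int_restr_add (Sm z) _ hc (pt (Sm z) 0)
  rw [int_exp_eq] at h
  rw [h]
  rfl

end Pool.Agent.N748.GC.RZ
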