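import Pool.Agent.N748.GC.L3
import Pool.Agent.N748.GC.RZ

set_option autoImplicit false

/-!
# Almost sure weak convergence of the random measures (GC/AS)
-/

namespace Pool.Agent.N748.GC.AS

open Finset Filter MeasureTheory Topology Complex ProbabilityTheory

/-! ### products of independent random densities -/

/-- nonnegative continuous densities with mean one -/
structure Ker (k : ℕ → UnitAddCircle → ℝ → ℝ) : Prop where
  cont : ∀ n, Continuous fun q : UnitAddCircle × ℝ => k n q.1 q.2
  nonneg : ∀ n y x, 0 ≤ k n y x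
  int : ∀ n x, ∫ y, k n y x ∂(AddCircle.haarAddCircle (T := (1:ℝ))) = 1

variable {k : ℕ → UnitAddCircle → ℝ → ℝ}

/-- the product of the first `n` densities -/
noncomputable def RR (k : ℕ → UnitAddCircle → ℝ → ℝ) (n : ℕ) (w : Om) (x : ℝ) : ℝ :=
  ∏ i ∈ range n, k i (w i) x

/-- the integrals -/
noncomputable def YY (k : ℕ → UnitAddCircle → ℝ → ℝ) (f : C(unitInterval, ℝ)) (n : ℕ) (w : Om) : ℝ :=
  ∫ x : unitInterval, f x * RR k n w x

theorem RR_cont (hk : Ker k) (n : ℕ) : Continuous fun q : Om × ℝ => RR k n q.1 q.2 := by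
  unfold RR
  refine continuous_finsetProd _ fun i _ => ?_
  exact (hk.cont i).comp (by fun_prop : Continuous fun q : Om × ℝ => (q.1 i, q.2))

theorem RR_nonneg (hk : Ker k) (n : ℕ) (w : Om) (x : ℝ) : 0 ≤ RR k n w x :=
  Finset.prod_nonneg fun i _ => hk.nonneg i _ _

theorem int_cont (hk : Ker k) (f : C(unitInterval, ℝ)) (n : ℕ) :
    Continuous fun q : Om × unitInterval => f q.2 * RR k n q.1 q.2 := by
  refine Continuous.mul (by fun_prop) ?_
  exact (RR_cont hk n).comp (by fun_prop : Continuous fun q : Om × unitInterval => (q.1, (q.2 : ℝ)))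

theorem YY_cont (hk : Ker k) (f : C(unitInterval, ℝ)) (n : ℕ) : Continuous (YY k f n) := by
  have h := continuous_parametric_integral_of_continuous (μ := (volume : Measure unitInterval))
    (f := fun (w : Om) (x : unitInterval) => f x * RR k n w x) (int_cont hk f n) isCompact_univ
  show Continuous fun w => ∫ x : unitInterval, f x * RR k n w x
  simpa using h

theorem int_of_cont {X : Type*} [TopologicalSpace X] [CompactSpace X] [MeasurableSpace X] [BorelSpace X]
    [SecondCountableTopology X]
    (μ : Measure X) [IsFiniteMeasure μ] {g : X → ℝ} (hg : Continuous g) : Integrable g μ :=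
  hg.integrable_of_hasCompactSupport (HasCompactSupport.of_compactSpace _)

theorem YY_int (hk : Ker k) (f : C(unitInterval, ℝ)) (n : ℕ) : Integrable (YY k f n) PO :=
  int_of_cont PO (YY_cont hk f n)

/-- the filtration -/
def FF : Filtration ℕ (MeasurableSpace.pi : MeasurableSpace Om) where
  seq n := Filtration.piFinset (X := fun _ : ℕ => UnitAddCircle) (range n)
  mono' := fun _ _ h => Filtration.piFinset.mono (by simpa using h)
  le' := fun n => Filtration.piFinset.le (range n)

theorem YY_adapted (hk : Ker k) (f : C(unitInterval, ℝ)) : StronglyAdapted FF (YY k f) := by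
  intro n
  have h1 : YY k f n = (fun y : (i : range n) → UnitAddCircle =>
      ∫ x : unitInterval, f x * ∏ i : range n, k i (y i) x) ∘ (range n).restrict := by
    funext w
    simp only [YY, Function.comp, RR]
    refine integral_congr_ae (ae_of_all _ fun x => ?_)
    simp only
    congr 1
    rw [← Finset.prod_coe_sort (range n)]
    rfl
  have hc : Continuous fun q : ((i : range n) → UnitAddCircle) × unitInterval =>
      f q.2 * ∏ i : range n, k i (q.1 i) q.2 := by
    refine Continuous.mul (by fun_prop) (continuous_finsetProd _ fun i _ => ?_)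
    exact (hk.cont i).comp (by fun_prop : Continuous
      fun q : ((i : range n) → UnitAddCircle) × unitInterval => (q.1 i, (q.2 : ℝ)))
  have h2 : Continuous (fun y : (i : range n) → UnitAddCircle =>
      ∫ x : unitInterval, f x * ∏ i : range n, k i (y i) x) := by
    have h := continuous_parametric_integral_of_continuous (μ := (volume : Measure unitInterval))
      (f := fun (y : (i : range n) → UnitAddCircle) (x : unitInterval) =>
        f x * ∏ i : range n, k i (y i) x) hc isCompact_univ
    simpa using h
  rw [h1]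
  exact (h2.measurable.comp (comap_measurable _)).stronglyMeasurable

theorem indep (n : ℕ) : IndepFun (fun w : Om => (range n).restrict w) (fun w : Om => w n) PO := by
  have h0 : iIndepFun (fun (i : ℕ) (w : Om) => w i) PO := by
    have := iIndepFun_infinitePi (P := fun _ : ℕ => (AddCircle.haarAddCircle (T := (1:ℝ))))
      (X := fun _ y => y) (fun _ => measurable_id)
    exact this
  have h1 := h0.indepFun_finset (range n) {n} (by simp) (fun i => measurable_pi_apply i)
  have h2 := h1.comp (φ := fun y => y) (ψ := fun y : (({n} : Finset ℕ) → UnitAddCircle) => y ⟨n, by simp⟩)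
    measurable_id (measurable_pi_apply (X := fun _ : (({n} : Finset ℕ)) => UnitAddCircle) ⟨n, by simp⟩)
  exact h2

theorem eval_mp (n : ℕ) : MeasurePreserving (fun w : Om => w n) PO (AddCircle.haarAddCircle (T := (1:ℝ))) := by
  refine ⟨measurable_pi_apply n, ?_⟩
  exact Measure.infinitePi_map_eval (fun _ : ℕ => (AddCircle.haarAddCircle (T := (1:ℝ)))) n

theorem k_int (hk : Ker k) (n : ℕ) (x : ℝ) : ∫ w, k n ((w : Om) n) x ∂PO = 1 := by
  have hc : Continuous fun y => k n y x := (hk.cont n).comp (by fun_prop : Continuous fun y => (y, x))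
  have h := hk.int n x
  rw [← (eval_mp n).map_eq, integral_map (eval_mp n).measurable.aemeasurable
    hc.measurable.aestronglyMeasurable] at h
  exact h

theorem step_pt (hk : Ker k) (n : ℕ) (x : ℝ) (s : Set Om) (hs : MeasurableSet[FF n] s) :
    ∫ w in s, RR k (n + 1) w x ∂PO = ∫ w in s, RR k n w x ∂PO := by
  obtain ⟨B, hB, rfl⟩ := hs
  have hsm : MeasurableSet ((range n).restrict ⁻¹' B : Set Om) :=
    (measurable_restrict (range n)) hB
  rw [← integral_indicator hsm, ← integral_indicator hsm]
  set H : ((i : range n) → UnitAddCircle) → ℝ := B.indicator fun y => ∏ i : range n, k i (y i) x with hH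
  have hHm : Measurable H := by
    refine Measurable.indicator ?_ hB
    have : Continuous fun y : (i : range n) → UnitAddCircle => ∏ i : range n, k i (y i) x := by
      refine continuous_finsetProd _ fun i _ => ?_
      exact (hk.cont i).comp (by fun_prop : Continuous
        fun q : ((i : range n) → UnitAddCircle) => (q i, x))
    exact this.measurable
  have h1 : ∀ w : Om, ((range n).restrict ⁻¹' B).indicator (fun w => RR k n w x) w =
      H ((range n).restrict w) := by
    intro w
    by_cases hw : (range n).restrict w ∈ B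
    · rw [Set.indicator_of_mem (by exact hw), hH, Set.indicator_of_mem hw, RR,
        ← Finset.prod_coe_sort (range n)]
      rfl
    · rw [Set.indicator_of_notMem (by exact hw), hH, Set.indicator_of_notMem hw]
  have h2 : ∀ w : Om, ((range n).restrict ⁻¹' B).indicator (fun w => RR k (n + 1) w x) w =
      H ((range n).restrict w) * k n (w n) x := by
    intro w
    rw [← h1]
    by_cases hw : (range n).restrict w ∈ B
    · rw [Set.indicator_of_mem (by exact hw), Set.indicator_of_mem (by exact hw), RR, prod_range_succ, RR]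
    · rw [Set.indicator_of_notMem (by exact hw), Set.indicator_of_notMem (by exact hw), zero_mul]
  simp_rw [h1, h2]
  have hkm : Measurable fun y => k n y x := by
    have : Continuous fun y => k n y x := (hk.cont n).comp (by fun_prop : Continuous fun y => (y, x))
    exact this.measurable
  have h3 := ((indep n).comp hHm hkm).integral_fun_mul_eq_mul_integral
    (hHm.comp (measurable_restrict (range n))).aestronglyMeasurable
    (hkm.comp (measurable_pi_apply n)).aestronglyMeasurable
  simp only [Function.comp] at h3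
  rw [h3, k_int hk, mul_one]

theorem swap (hk : Ker k) (f : C(unitInterval, ℝ)) (n : ℕ) (s : Set Om) :
    ∫ w in s, (∫ x : unitInterval, f x * RR k n w x) ∂PO =
      ∫ x : unitInterval, ∫ w in s, f x * RR k n w x ∂PO := by
  refine integral_integral_swap ?_
  exact int_of_cont _ (int_cont hk f n)

theorem step (hk : Ker k) (f : C(unitInterval, ℝ)) (n : ℕ) (s : Set Om) (hs : MeasurableSet[FF n] s) :
    ∫ w in s, YY k f n w ∂PO = ∫ w in s, YY k f (n + 1) w ∂PO := by
  unfold YY
  rw [swap hk f n s, swap hk f (n + 1) s]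
  refine integral_congr_ae (ae_of_all _ fun x => ?_)
  simp only
  rw [integral_const_mul, integral_const_mul, step_pt hk n x s hs]

theorem mart (hk : Ker k) (f : C(unitInterval, ℝ)) : Martingale (YY k f) FF PO :=
  martingale_of_setIntegral_eq_succ (YY_adapted hk f) (YY_int hk f) (step hk f)

theorem int_one (hk : Ker k) (n : ℕ) : ∫ w, YY k 1 n w ∂PO = 1 := by
  induction n with
  | zero => simp [YY, RR]
  | succ n ih =>
    have h := step hk 1 n Set.univ (MeasurableSet.univ)
    rw [setIntegral_univ, setIntegral_univ] at h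
    rw [← h, ih]

theorem YY_bound (hk : Ker k) (f : C(unitInterval, ℝ)) (n : ℕ) (w : Om) :
    |YY k f n w| ≤ ‖f‖ * YY k 1 n w := by
  unfold YY
  rw [← integral_const_mul, ← Real.norm_eq_abs]
  refine norm_integral_le_of_norm_le ?_ (ae_of_all _ fun x => ?_)
  · refine int_of_cont _ ?_
    refine Continuous.mul continuous_const (Continuous.mul (by fun_prop) ?_)
    exact (RR_cont hk n).comp (by fun_prop : Continuous fun x : unitInterval => (w, (x : ℝ)))
  · rw [norm_mul, Real.norm_eq_abs (RR k n w x), abs_of_nonneg (RR_nonneg hk n w x)]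
    simp only [ContinuousMap.one_apply, one_mul]
    exact mul_le_mul_of_nonneg_right (f.norm_coe_le_norm x) (RR_nonneg hk n w x)

theorem conv_f (hk : Ker k) (f : C(unitInterval, ℝ)) :
    ∀ᵐ w ∂PO, ∃ c, Tendsto (fun n => YY k f n w) atTop (𝓝 c) := by
  refine (mart hk f).submartingale.exists_ae_tendsto_of_bdd (R := ‖f‖₊) fun n => ?_
  rw [eLpNorm_one_eq_lintegral_enorm]
  have h1 : ∫⁻ w, ‖YY k f n w‖ₑ ∂PO ≤ ∫⁻ w, ENNReal.ofReal (‖f‖ * YY k 1 n w) ∂PO := by
    refine lintegral_mono fun w => ?_
    rw [Real.enorm_eq_ofReal_abs]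
    exact ENNReal.ofReal_le_ofReal (YY_bound hk f n w)
  refine h1.trans ?_
  rw [← ofReal_integral_eq_lintegral_ofReal ((YY_int hk 1 n).const_mul _), integral_const_mul,
    int_one hk, mul_one]
  · rw [← ENNReal.ofReal_coe_nnreal, coe_nnnorm]
  · refine ae_of_all _ fun w => ?_
    exact (abs_nonneg _).trans (YY_bound hk f n w)

theorem YY_sub (hk : Ker k) (f g : C(unitInterval, ℝ)) (n : ℕ) (w : Om) :
    YY k (f - g) n w = YY k f n w - YY k g n w := by
  have hi : ∀ f : C(unitInterval, ℝ), Integrable (fun x : unitInterval => f x * RR k n w x) volume := by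
    intro f
    refine int_of_cont _ ?_
    exact (int_cont hk f n).comp (by fun_prop : Continuous fun x : unitInterval => (w, x))
  unfold YY
  rw [← integral_sub (hi f) (hi g)]
  refine integral_congr_ae (ae_of_all _ fun x => ?_)
  simp only [ContinuousMap.sub_apply]
  ring

/-- almost surely all integrals converge -/
theorem conv_all (hk : Ker k) :
    ∀ᵐ w ∂PO, ∀ f : C(unitInterval, ℝ), ∃ c, Tendsto (fun n => YY k f n w) atTop (𝓝 c) := by
  have h1 : ∀ᵐ w ∂PO, ∀ i : ℕ, ∃ c, Tendsto (fun n =>
      YY k (TopologicalSpace.denseSeq C(unitInterval, ℝ) i) n w) atTop (𝓝 c) :=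
    ae_all_iff.2 fun i => conv_f hk _
  filter_upwards [h1, conv_f hk 1] with w hw hw1 f
  obtain ⟨c1, hc1⟩ := hw1
  obtain ⟨C, hC⟩ := hc1.bddAbove_range
  have hC' : ∀ n, YY k 1 n w ≤ max C 1 := fun n => (hC ⟨n, rfl⟩).trans (le_max_left _ _)
  have hCp : 0 < max C 1 := lt_max_of_lt_right one_pos
  refine cauchySeq_tendsto_of_complete ?_
  rw [Metric.cauchySeq_iff']
  intro ε hε
  have hd := (TopologicalSpace.denseRange_denseSeq C(unitInterval, ℝ)).exists_dist_lt f
    (ε := ε / (4 * max C 1)) (by positivity)
  obtain ⟨i, hi⟩ := hd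
  set g := TopologicalSpace.denseSeq C(unitInterval, ℝ) i with hg
  obtain ⟨c, hc⟩ := hw i
  obtain ⟨N, hN⟩ := Metric.cauchySeq_iff'.1 hc.cauchySeq (ε / 4) (by positivity)
  refine ⟨N, fun n hn => ?_⟩
  have h2 : ∀ m, |YY k f m w - YY k g m w| ≤ ε / 4 := by
    intro m
    rw [← YY_sub hk]
    refine (YY_bound hk _ m w).trans ?_
    rw [dist_eq_norm] at hi
    calc ‖f - g‖ * YY k 1 m w ≤ (ε / (4 * max C 1)) * max C 1 :=
          mul_le_mul hi.le (hC' m) (by
            have := YY_bound hk 1 m w
            have h0 : 0 ≤ |YY k 1 m w| := abs_nonneg _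
            unfold YY
            refine integral_nonneg fun x => ?_
            simp only [ContinuousMap.one_apply, one_mul]
            exact RR_nonneg hk m w x) (by positivity)
      _ = ε / 4 := by field_simp
  have h3 := hN n hn
  rw [Real.dist_eq] at h3 ⊢
  have h4 := h2 n
  have h5 := h2 N
  rw [abs_le] at h4 h5
  rw [abs_lt] at h3 ⊢
  constructor <;> linarith [h3.1, h3.2, h4.1, h4.2, h5.1, h5.2]

/-! ### the measures -/

theorem fm_eq {g : ℝ → ℝ} (hg : Continuous g) (h0 : ∀ x, 0 ≤ g x) (f : unitInterval → ℝ) :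
    ∫ x, f x ∂(fm g : Measure unitInterval) = ∫ x : unitInterval, f x * g x := by
  have hi : Integrable (fun x : unitInterval => g x) volume := int_of_cont _ (by fun_prop)
  have hf : IsFiniteMeasure ((volume : Measure unitInterval).withDensity fun x => ENNReal.ofReal (g x)) :=
    isFiniteMeasure_withDensity_ofReal hi.hasFiniteIntegral
  have h1 : (fm g : Measure unitInterval) =
      (volume : Measure unitInterval).withDensity fun x => ENNReal.ofReal (g x) := by
    have h2 : fm g = (⟨_, hf⟩ : FiniteMeasure unitInterval) := dif_pos hf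
    rw [h2]
    rfl
  rw [h1, integral_withDensity_eq_integral_toReal_smul]
  · refine integral_congr_ae (ae_of_all _ fun x => ?_)
    simp only [smul_eq_mul]
    rw [ENNReal.toReal_ofReal (h0 x), mul_comm]
  · exact (ENNReal.continuous_ofReal.comp (hg.comp continuous_subtype_val)).measurable
  · exact ae_of_all _ fun x => ENNReal.ofReal_lt_top

/-- from the convergence of all integrals to the weak convergence -/
theorem weak {u : ℕ → FiniteMeasure unitInterval}
    (h : ∀ f : C(unitInterval, ℝ), ∃ c, Tendsto (fun n => ∫ x, f x ∂(u n : Measure unitInterval)) atTop (𝓝 c)) :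
    ∃ M : FiniteMeasure unitInterval, Tendsto u atTop (𝓝 M) := by
  obtain ⟨c1, hc1⟩ := h 1
  obtain ⟨C, hC⟩ := hc1.bddAbove_range
  have hmass : ∀ n, (u n).mass ≤ C.toNNReal := by
    intro n
    have h1 := hC ⟨n, rfl⟩
    simp only [ContinuousMap.one_apply, integral_const, smul_eq_mul, mul_one] at h1
    rw [← NNReal.coe_le_coe]
    have h2 : ((u n).mass : ℝ) = ((u n : Measure unitInterval) Set.univ).toReal := rfl
    rw [h2]
    exact le_trans h1 (Real.le_coe_toNNReal C)
  obtain ⟨M, -, hM⟩ := (isCompact_setOfPred_finiteMeasure_le_of_compactSpace unitInterval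
    C.toNNReal).exists_mapClusterPt (f := atTop) (u := u) (tendsto_principal.2 (Eventually.of_forall hmass))
  refine ⟨M, ?_⟩
  rw [FiniteMeasure.tendsto_iff_forall_integral_tendsto]
  intro f
  obtain ⟨c, hc⟩ := h f.toContinuousMap
  have hcont : Continuous fun μ : FiniteMeasure unitInterval => ∫ x, f x ∂(μ : Measure unitInterval) := by
    rw [continuous_iff_continuousAt]
    intro μ
    exact FiniteMeasure.tendsto_iff_forall_integral_tendsto.1 tendsto_id f
  have h2 : MapClusterPt (∫ x, f x ∂(M : Measure unitInterval)) atTop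
      ((fun μ : FiniteMeasure unitInterval => ∫ x, f x ∂(μ : Measure unitInterval)) ∘ u) :=
    hM.continuousAt_comp hcont.continuousAt
  have h3 : ClusterPt (∫ x, f x ∂(M : Measure unitInterval)) (𝓝 c) := ClusterPt.mono h2 hc
  have h4 : ∫ x, f x ∂(M : Measure unitInterval) = c := by
    have : (𝓝 (∫ x, f x ∂(M : Measure unitInterval)) ⊓ 𝓝 c).NeBot := h3
    exact eq_of_nhds_neBot this
  rw [h4]
  exact hc

/-! ### the densities of the random Euler product -/

/-- the phase of `p^(-iu)` -/
noncomputable def ph (n : ℕ) (u : ℝ) : UnitAddCircle := ((-(u * Real.log n / (2 * Real.pi)) : ℝ) : UnitAddCircle)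

/-- the density of the prime `n` -/
noncomputable def kk (α : ℝ) (n : ℕ) (y : UnitAddCircle) (u : ℝ) : ℝ :=
  if n.Prime then Real.exp (lw α n (y + ph n u)) /
    ∫ y, Real.exp (lw α n y) ∂(AddCircle.haarAddCircle (T := (1:ℝ))) else 1

theorem ph_cont (n : ℕ) : Continuous (ph n) := by
  unfold ph
  exact (AddCircle.continuous_mk' 1).comp (by fun_prop)

theorem kk_ker (α : ℝ) : Ker (kk α) := by
  refine ⟨fun n => ?_, fun n y x => ?_, fun n x => ?_⟩
  · by_cases hn : n.Prime
    · simp only [kk, if_pos hn]
      refine Continuous.div_const (Real.continuous_exp.comp ((RZ.lw_cont α hn).comp ?_)) _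
      exact continuous_fst.add ((ph_cont n).comp continuous_snd)
    · simp only [kk, if_neg hn]
      exact continuous_const
  · by_cases hn : n.Prime
    · simp only [kk, if_pos hn]
      exact div_nonneg (Real.exp_pos _).le (RZ.expint_pos α hn).le
    · simp only [kk, if_neg hn]
      exact zero_le_one
  · by_cases hn : n.Prime
    · simp only [kk, if_pos hn]
      rw [integral_div, integral_add_right_eq_self (fun y => Real.exp (lw α n y)) (ph n x),
        div_self (RZ.expint_pos α hn).ne']
    · simp only [kk, if_neg hn]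
      simp

theorem rz_eq {α : ℝ} (hα : 0 < α) (z : ℕ) (w : Om) (u : ℝ) : rz α z w u = RR (kk α) z w u := by
  rw [RZ.main α hα]
  unfold M0 E0 RR
  rw [Real.exp_sum, ← Finset.prod_div_distrib]
  have h1 : ∏ i ∈ range z, kk α i (w i) u = ∏ i ∈ Sm z, Real.exp (lw α i (w i + ph i u)) /
    ∫ y, Real.exp (lw α i y) ∂(AddCircle.haarAddCircle (T := (1:ℝ))) := by
    rw [Sm, Finset.prod_filter]
    rfl
  rw [h1, ← Finset.prod_coe_sort (Sm z)]
  rfl

theorem main : S_AS := by
  intro α hα
  have h : ∀ᵐ w ∂PO, ∃ M : FiniteMeasure unitInterval,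
      Tendsto (fun z : ℕ => fm (rz α z w)) atTop (𝓝 M) := by
    filter_upwards [conv_all (kk_ker α)] with w hw
    refine weak fun f => ?_
    obtain ⟨c, hc⟩ := hw f
    refine ⟨c, ?_⟩
    have key : ∀ z : ℕ, ∫ x, f x ∂(fm (rz α z w) : Measure unitInterval) = YY (kk α) f z w := by
      intro z
      have hr : rz α z w = RR (kk α) z w := funext fun u => rz_eq hα z w u
      rw [hr]
      exact fm_eq ((RR_cont (kk_ker α) z).comp (by fun_prop : Continuous fun x : ℝ => (w, x)))
        (fun x => RR_nonneg (kk_ker α) z w x) f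
    simp_rw [key]
    exact hc
  classical
  refine ⟨fun w => if hw : ∃ M : FiniteMeasure unitInterval,
    Tendsto (fun z : ℕ => fm (rz α z w)) atTop (𝓝 M) then hw.choose else 0, ?_⟩
  filter_upwards [h] with w hw
  rw [dif_pos hw]
  exact hw.choose_spec

end Pool.Agent.N748.GC.AS
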