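import Mathlib

/-!
# Second moment argument on windows: the abstract part of GC/ASM
-/

set_option autoImplicit false

namespace Pool.Agent.N748.GC.ASM

open Filter MeasureTheory Topology

/-- measurable and locally bounded -/
structure LB (u : ℝ → ℝ) : Prop where
  m : Measurable u
  b : ∀ R : ℝ, ∃ B : ℝ, 0 ≤ B ∧ ∀ s, |s| ≤ R → |u s| ≤ B

theorem LB.cont {u : ℝ → ℝ} (h : Continuous u) : LB u := by
  refine ⟨h.measurable, fun R => ?_⟩
  obtain ⟨B, hB⟩ := (isCompact_Icc (a := -R) (b := R)).exists_bound_of_continuousOn h.continuousOn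
  refine ⟨|B|, abs_nonneg _, fun s hs => ?_⟩
  have := hB s (abs_le.mp hs)
  rw [Real.norm_eq_abs] at this
  exact this.trans (le_abs_self B)

theorem LB.bdd {u : ℝ → ℝ} (h : Measurable u) {B : ℝ} (hB : ∀ s, |u s| ≤ B) : LB u :=
  ⟨h, fun _ => ⟨|B|, abs_nonneg _, fun s _ => (hB s).trans (le_abs_self B)⟩⟩

theorem LB.const (c : ℝ) : LB (fun _ => c) := LB.cont continuous_const

theorem LB.mul {u v : ℝ → ℝ} (hu : LB u) (hv : LB v) : LB (fun s => u s * v s) := by
  refine ⟨hu.m.mul hv.m, fun R => ?_⟩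
  obtain ⟨B1, h01, h1⟩ := hu.b R
  obtain ⟨B2, h02, h2⟩ := hv.b R
  refine ⟨B1 * B2, by positivity, fun s hs => ?_⟩
  rw [abs_mul]
  exact mul_le_mul (h1 s hs) (h2 s hs) (abs_nonneg _) h01

theorem LB.add {u v : ℝ → ℝ} (hu : LB u) (hv : LB v) : LB (fun s => u s + v s) := by
  refine ⟨hu.m.add hv.m, fun R => ?_⟩
  obtain ⟨B1, h01, h1⟩ := hu.b R
  obtain ⟨B2, h02, h2⟩ := hv.b R
  refine ⟨B1 + B2, by positivity, fun s hs => ?_⟩
  exact (abs_add_le _ _).trans (add_le_add (h1 s hs) (h2 s hs))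

theorem LB.neg {u : ℝ → ℝ} (hu : LB u) : LB (fun s => - u s) := by
  refine ⟨hu.m.neg, fun R => ?_⟩
  obtain ⟨B1, h01, h1⟩ := hu.b R
  refine ⟨B1, h01, fun s hs => ?_⟩
  rw [abs_neg]
  exact h1 s hs

theorem LB.sub {u v : ℝ → ℝ} (hu : LB u) (hv : LB v) : LB (fun s => u s - v s) := by
  have := hu.add hv.neg
  simpa only [sub_eq_add_neg] using this

theorem LB.shift {u : ℝ → ℝ} (hu : LB u) (x : ℝ) : LB (fun s => u (s + x)) := by
  refine ⟨hu.m.comp (measurable_id.add_const x), fun R => ?_⟩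
  obtain ⟨B1, h01, h1⟩ := hu.b (R + |x|)
  refine ⟨B1, h01, fun s hs => h1 _ ?_⟩
  exact (abs_add_le _ _).trans (by linarith)

theorem LB.ii {u : ℝ → ℝ} (hu : LB u) (a b : ℝ) : IntervalIntegrable u volume a b := by
  obtain ⟨B, h0, hB⟩ := hu.b (max |a| |b|)
  rw [intervalIntegrable_iff]
  refine Measure.integrableOn_of_bounded (M := B) ?_ hu.m.aestronglyMeasurable ?_
  · rw [Set.uIoc]; simp
  · rw [ae_restrict_iff' measurableSet_uIoc]
    filter_upwards with s hs
    rw [Real.norm_eq_abs]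
    refine hB s ?_
    rw [Set.mem_uIoc] at hs
    rcases hs with hs | hs
    · rw [abs_le]
      constructor
      · have := neg_abs_le a
        have := le_max_left |a| |b|
        linarith [hs.1]
      · have := le_abs_self b
        have := le_max_right |a| |b|
        linarith [hs.2]
    · rw [abs_le]
      constructor
      · have := neg_abs_le b
        have := le_max_right |a| |b|
        linarith [hs.1]
      · have := le_abs_self a
        have := le_max_left |a| |b|
        linarith [hs.2]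

theorem intprod {α β : Type*} [MeasurableSpace α] [MeasurableSpace β] {μ : Measure α}
    {ν : Measure β} [IsFiniteMeasure μ] [IsFiniteMeasure ν] {P : α → Prop} {Q : β → Prop}
    (hP : ∀ᵐ x ∂μ, P x) (hQ : ∀ᵐ y ∂ν, Q y) {G : α × β → ℝ} (hG : Measurable G) {B : ℝ}
    (hB : ∀ x y, P x → Q y → |G (x, y)| ≤ B) : Integrable G (μ.prod ν) := by
  refine Integrable.of_bound hG.aestronglyMeasurable B ?_
  have h1 : ∀ᵐ z ∂(μ.prod ν), P z.1 := Measure.quasiMeasurePreserving_fst.ae hP
  have h2 : ∀ᵐ z ∂(μ.prod ν), Q z.2 := Measure.quasiMeasurePreserving_snd.ae hQ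
  filter_upwards [h1, h2] with z h1 h2
  rw [Real.norm_eq_abs]
  exact hB z.1 z.2 h1 h2

/-- the measure of the unit interval -/
noncomputable abbrev m1 : Measure ℝ := volume.restrict (Set.Ioc (0:ℝ) 1)

theorem m1_mem : ∀ᵐ x ∂m1, x ∈ Set.Ioc (0:ℝ) 1 := ae_restrict_mem measurableSet_Ioc

theorem m1_int (c : ℝ) : ∫ _, c ∂m1 = c := by
  rw [integral_const, smul_eq_mul]
  simp [m1]

theorem diag_null : ∀ᵐ p ∂(m1.prod m1), p.1 ≠ p.2 := by
  rw [ae_iff]
  simp only [ne_eq, not_not]
  have hm : MeasurableSet {p : ℝ × ℝ | p.1 = p.2} := measurableSet_eq_fun measurable_fst measurable_snd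
  rw [Measure.measure_prod_null hm]
  filter_upwards with x
  have : Prod.mk x ⁻¹' {p : ℝ × ℝ | p.1 = p.2} = {x} := by
    ext y
    simp [eq_comm]
  rw [this]
  simp

theorem core {T1 T2 : ℝ} (hT : T1 ≤ T2) {f m mc W g Dt : ℝ → ℝ} {B : ℝ × ℝ → ℝ}
    {a b c d ε : ℝ} (hf : Measurable f) (hf0 : ∀ x, 0 ≤ f x) (hf1 : ∀ x, f x ≤ 1)
    (hm : Continuous m) (hmc : Continuous mc) (h0 : ∀ x, 0 ≤ mc x) (hle : ∀ x, mc x ≤ m x)
    (hW : Continuous W) (hW0 : ∀ x, 0 ≤ W x) (hg : Measurable g) (hg0 : ∀ x, 0 ≤ g x)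
    (hg1 : ∀ x, g x ≤ 1) (hD : Continuous Dt) (hε : 0 < ε) (hDε : ∀ t, ε ≤ Dt t)
    (h1 : ∀ x ∈ Set.Icc (0:ℝ) 1, ∫ t in T1..T2, mc (t + x) * (W (t + x) * (1 - g (t + x))) ≤ a)
    (h2 : ∀ x ∈ Set.Icc (0:ℝ) 1, ∫ t in T1..T2, (m (t + x) - mc (t + x)) * (W (t + x) + 1) ≤ b)
    (hB : Integrable B (m1.prod m1)) (hB0 : ∀ p, 0 ≤ B p) (hBc : ∫ p, B p ∂(m1.prod m1) ≤ c)
    (h3 : ∀ x ∈ Set.Icc (0:ℝ) 1, ∀ y ∈ Set.Icc (0:ℝ) 1, x ≠ y →
      ∫ t in T1..T2, mc (t + x) * mc (t + y) / Dt t *
        ((W (t + x) * g (t + x) - 1) * (W (t + y) * g (t + y) - 1)) ≤ B (x, y))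
    (h4 : ∫ t in T1..T2, Dt t ≤ d) :
    ∫ t in T1..T2, |∫ x in (0:ℝ)..1, f x * (m (t + x) * (W (t + x) - 1))| ≤
      a + b + (c + d) / 2 := by
  set μt : Measure ℝ := volume.restrict (Set.Ioc T1 T2) with hμt
  have : IsFiniteMeasure μt := by
    rw [hμt, isFiniteMeasure_restrict]; simp
  have hmt : ∀ᵐ t ∂μt, t ∈ Set.Ioc T1 T2 := ae_restrict_mem measurableSet_Ioc
  -- locally bounded functions
  have Lm := LB.cont hm
  have Lmc := LB.cont hmc
  have LW := LB.cont hW
  have Lg : LB g := LB.bdd (B := 1) hg (fun s => abs_le.mpr ⟨by linarith [hg0 s], hg1 s⟩)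
  have Lf : LB f := LB.bdd (B := 1) hf (fun s => abs_le.mpr ⟨by linarith [hf0 s], hf1 s⟩)
  set u1 : ℝ → ℝ := fun s => mc s * (W s * (1 - g s)) with hu1
  set u2 : ℝ → ℝ := fun s => (m s - mc s) * (W s + 1) with hu2
  set u3 : ℝ → ℝ := fun s => mc s * (W s * g s - 1) with hu3
  set u4 : ℝ → ℝ := fun s => m s * (W s - 1) with hu4
  have L1 : LB u1 := Lmc.mul (LW.mul ((LB.const 1).sub Lg))
  have L2 : LB u2 := (Lm.sub Lmc).mul (LW.add (LB.const 1))
  have L3 : LB u3 := Lmc.mul ((LW.mul Lg).sub (LB.const 1))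
  have L4 : LB u4 := Lm.mul (LW.sub (LB.const 1))
  -- bound of the argument
  set R : ℝ := |T1| + |T2| + 1 with hR
  have hRb : ∀ t ∈ Set.Ioc T1 T2, ∀ x ∈ Set.Ioc (0:ℝ) 1, |t + x| ≤ R := by
    intro t ht x hx
    rw [abs_le]
    constructor
    · have := neg_abs_le T1
      have := abs_nonneg T2
      linarith [ht.1, hx.1]
    · have := le_abs_self T2
      have := abs_nonneg T1
      linarith [ht.2, hx.2]
  -- integrability on the product
  have hprod : ∀ u : ℝ → ℝ, LB u → Integrable (fun p : ℝ × ℝ => f p.2 * u (p.1 + p.2)) (μt.prod m1) := by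
    intro u hu
    obtain ⟨Bu, hBu0, hBu⟩ := hu.b R
    refine intprod hmt m1_mem (B := Bu) ?_ ?_
    · exact (hf.comp measurable_snd).mul (hu.m.comp (measurable_fst.add measurable_snd))
    · intro t x ht hx
      simp only
      rw [abs_mul]
      have k1 := hBu _ (hRb t ht x hx)
      have k2 : |f x| ≤ 1 := abs_le.mpr ⟨by linarith [hf0 x], hf1 x⟩
      calc |f x| * |u (t + x)| ≤ 1 * Bu := mul_le_mul k2 k1 (abs_nonneg _) (by norm_num)
        _ = Bu := one_mul _
  have hprod' : ∀ u : ℝ → ℝ, LB u → Integrable (fun p : ℝ × ℝ => u (p.1 + p.2)) (μt.prod m1) := by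
    intro u hu
    obtain ⟨Bu, hBu0, hBu⟩ := hu.b R
    refine intprod hmt m1_mem (B := Bu) ?_ ?_
    · exact (hu.m.comp (measurable_fst.add measurable_snd))
    · intro t x ht hx
      exact hBu _ (hRb t ht x hx)
  have hsec : ∀ u : ℝ → ℝ, LB u → ∀ t, Integrable (fun x => f x * u (t + x)) m1 := by
    intro u hu t
    have : LB (fun x => f x * u (t + x)) := by
      have := Lf.mul (hu.shift t)
      simpa only [add_comm t] using this
    exact (intervalIntegrable_iff_integrableOn_Ioc_of_le zero_le_one).mp (this.ii 0 1)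
  have hsec' : ∀ u : ℝ → ℝ, LB u → ∀ t, Integrable (fun x => u (t + x)) m1 := by
    intro u hu t
    have : LB (fun x => u (t + x)) := by
      have := (hu.shift t)
      simpa only [add_comm t] using this
    exact (intervalIntegrable_iff_integrableOn_Ioc_of_le zero_le_one).mp (this.ii 0 1)
  -- the main term
  set A : ℝ → ℝ := fun t => ∫ x, f x * u3 (t + x) ∂m1 with hA
  have hAint : Integrable A μt := (hprod u3 L3).integral_prod_left
  obtain ⟨B3, hB30, hB3⟩ := L3.b R
  have hAb : ∀ᵐ t ∂μt, |A t| ≤ B3 := by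
    filter_upwards [hmt] with t ht
    have : ‖∫ x, f x * u3 (t + x) ∂m1‖ ≤ B3 * m1.real Set.univ := by
      refine norm_integral_le_of_norm_le_const ?_
      filter_upwards [m1_mem] with x hx
      rw [Real.norm_eq_abs, abs_mul]
      have k1 := hB3 _ (hRb t ht x hx)
      have k2 : |f x| ≤ 1 := abs_le.mpr ⟨by linarith [hf0 x], hf1 x⟩
      calc |f x| * |u3 (t + x)| ≤ 1 * B3 := mul_le_mul k2 k1 (abs_nonneg _) (by norm_num)
        _ = B3 := one_mul _
    have e : m1.real Set.univ = 1 := by simp [m1]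
    rw [e, mul_one, Real.norm_eq_abs] at this
    exact this
  have hDpos : ∀ t, 0 < Dt t := fun t => hε.trans_le (hDε t)
  have hDint : Integrable Dt μt := by
    have := (LB.cont hD).ii T1 T2
    exact (intervalIntegrable_iff_integrableOn_Ioc_of_le hT).mp this
  have hA2 : Integrable (fun t => A t ^ 2 / Dt t) μt := by
    refine Integrable.of_bound (C := B3 ^ 2 / ε) ?_ ?_
    · exact ((hAint.1.aemeasurable.pow_const 2).div hD.measurable.aemeasurable).aestronglyMeasurable
    · filter_upwards [hAb] with t ht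
      rw [Real.norm_eq_abs, abs_div, abs_pow, abs_of_pos (hDpos t)]
      have := abs_nonneg (A t)
      gcongr
      exact hDε t
  -- Fubini for the square
  have hsq : ∫ t, A t ^ 2 / Dt t ∂μt ≤ c := by
    set G : ℝ × (ℝ × ℝ) → ℝ := fun q => (f q.2.1 * u3 (q.1 + q.2.1)) * (f q.2.2 * u3 (q.1 + q.2.2))
      / Dt q.1 with hG
    have hGm : Measurable G := by
      have a1 : Measurable (fun q : ℝ × (ℝ × ℝ) => f q.2.1 * u3 (q.1 + q.2.1)) :=
        (hf.comp (measurable_fst.comp measurable_snd)).mul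
          (L3.m.comp (measurable_fst.add (measurable_fst.comp measurable_snd)))
      have a2 : Measurable (fun q : ℝ × (ℝ × ℝ) => f q.2.2 * u3 (q.1 + q.2.2)) :=
        (hf.comp (measurable_snd.comp measurable_snd)).mul
          (L3.m.comp (measurable_fst.add (measurable_snd.comp measurable_snd)))
      exact (a1.mul a2).div (hD.measurable.comp measurable_fst)
    have hm2 : ∀ᵐ p ∂(m1.prod m1), p.1 ∈ Set.Ioc (0:ℝ) 1 ∧ p.2 ∈ Set.Ioc (0:ℝ) 1 := by
      have k1 : ∀ᵐ p ∂(m1.prod m1), p.1 ∈ Set.Ioc (0:ℝ) 1 :=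
        Measure.quasiMeasurePreserving_fst.ae m1_mem
      have k2 : ∀ᵐ p ∂(m1.prod m1), p.2 ∈ Set.Ioc (0:ℝ) 1 :=
        Measure.quasiMeasurePreserving_snd.ae m1_mem
      filter_upwards [k1, k2] with p h1 h2 using ⟨h1, h2⟩
    have hGi : Integrable G (μt.prod (m1.prod m1)) := by
      refine intprod hmt hm2 (B := B3 * B3 / ε) hGm ?_
      intro t p ht hp
      have q1 : |f p.1 * u3 (t + p.1)| ≤ B3 := by
        rw [abs_mul]
        calc |f p.1| * |u3 (t + p.1)| ≤ 1 * B3 :=
              mul_le_mul (abs_le.mpr ⟨by linarith [hf0 p.1], hf1 p.1⟩) (hB3 _ (hRb t ht _ hp.1))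
                (abs_nonneg _) (by norm_num)
          _ = B3 := one_mul _
      have q2 : |f p.2 * u3 (t + p.2)| ≤ B3 := by
        rw [abs_mul]
        calc |f p.2| * |u3 (t + p.2)| ≤ 1 * B3 :=
              mul_le_mul (abs_le.mpr ⟨by linarith [hf0 p.2], hf1 p.2⟩) (hB3 _ (hRb t ht _ hp.2))
                (abs_nonneg _) (by norm_num)
          _ = B3 := one_mul _
      simp only [hG]
      rw [abs_div, abs_mul, abs_of_pos (hDpos t)]
      have := hDε t
      gcongr
    have e1 : ∀ t, A t ^ 2 / Dt t = ∫ p, G (t, p) ∂(m1.prod m1) := by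
      intro t
      simp only [hG]
      rw [integral_div, integral_prod_mul (fun x => f x * u3 (t + x)) (fun x => f x * u3 (t + x))]
      rw [hA, sq]
    have e2 : ∫ t, A t ^ 2 / Dt t ∂μt = ∫ p, ∫ t, G (t, p) ∂μt ∂(m1.prod m1) := by
      simp only [e1]
      exact integral_integral_swap (f := fun t p => G (t, p)) hGi
    rw [e2]
    refine le_trans (integral_mono_ae hGi.integral_prod_right hB ?_) hBc
    filter_upwards [hm2, diag_null] with p hp hne
    have k3 := h3 p.1 (Set.Ioc_subset_Icc_self hp.1) p.2 (Set.Ioc_subset_Icc_self hp.2) hne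
    rw [intervalIntegral.integral_of_le hT] at k3
    have e3 : ∫ t, G (t, p) ∂μt = (f p.1 * f p.2) * ∫ t in Set.Ioc T1 T2,
        mc (t + p.1) * mc (t + p.2) / Dt t *
          ((W (t + p.1) * g (t + p.1) - 1) * (W (t + p.2) * g (t + p.2) - 1)) := by
      rw [← integral_const_mul]
      refine integral_congr_ae (Eventually.of_forall fun t => ?_)
      simp only [hG, hu3]
      ring
    rw [e3]
    have f1 := hf0 p.1
    have f2 := hf0 p.2
    have f3 := hf1 p.1
    have f4 := hf1 p.2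
    have f5 : f p.1 * f p.2 ≤ 1 := by nlinarith
    calc (f p.1 * f p.2) * ∫ t in Set.Ioc T1 T2,
        mc (t + p.1) * mc (t + p.2) / Dt t *
          ((W (t + p.1) * g (t + p.1) - 1) * (W (t + p.2) * g (t + p.2) - 1))
        ≤ (f p.1 * f p.2) * B (p.1, p.2) := by gcongr
      _ ≤ 1 * B (p.1, p.2) := by
          have := hB0 (p.1, p.2)
          gcongr
      _ = B p := by simp
  have hAle : ∫ t, |A t| ∂μt ≤ (c + d) / 2 := by
    have k : ∫ t, |A t| ∂μt ≤ ∫ t, (A t ^ 2 / Dt t + Dt t) / 2 ∂μt := by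
      refine integral_mono_ae hAint.abs ((hA2.add hDint).div_const 2) ?_
      filter_upwards with t
      have hp := hDpos t
      have : 0 ≤ (|A t| - Dt t) ^ 2 / Dt t := by positivity
      have e : (|A t| - Dt t) ^ 2 / Dt t = A t ^ 2 / Dt t - 2 * |A t| + Dt t := by
        field_simp
        rw [← sq_abs (A t)]
        ring
      show |A t| ≤ (A t ^ 2 / Dt t + Dt t) / 2
      linarith
    refine k.trans ?_
    rw [integral_div, integral_add hA2 hDint]
    rw [intervalIntegral.integral_of_le hT] at h4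
    linarith
  -- the error terms
  have hE : ∫ t, ∫ x, (u1 (t + x) + u2 (t + x)) ∂m1 ∂μt ≤ a + b := by
    have hi := hprod' _ (L1.add L2)
    have e := integral_integral_swap (f := fun t x => u1 (t + x) + u2 (t + x)) hi
    rw [e]
    calc ∫ x, ∫ t, (u1 (t + x) + u2 (t + x)) ∂μt ∂m1 ≤ ∫ x, (a + b) ∂m1 := by
          refine integral_mono_ae hi.integral_prod_right (integrable_const _) ?_
          filter_upwards [m1_mem] with x hx
          have k1 := h1 x (Set.Ioc_subset_Icc_self hx)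
          have k2 := h2 x (Set.Ioc_subset_Icc_self hx)
          have i1 := (L1.shift x).ii T1 T2
          have i2 := (L2.shift x).ii T1 T2
          have e3 : ∫ t, (u1 (t + x) + u2 (t + x)) ∂μt
              = (∫ t in T1..T2, u1 (t + x)) + ∫ t in T1..T2, u2 (t + x) := by
            rw [← intervalIntegral.integral_add i1 i2, intervalIntegral.integral_of_le hT]
          rw [e3]
          exact add_le_add k1 k2
      _ = a + b := m1_int _
  -- conclusion
  rw [intervalIntegral.integral_of_le hT]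
  have hin : ∀ t, |∫ x in (0:ℝ)..1, f x * (m (t + x) * (W (t + x) - 1))| ≤
      |A t| + ∫ x, (u1 (t + x) + u2 (t + x)) ∂m1 := by
    intro t
    rw [intervalIntegral.integral_of_le zero_le_one]
    have i3 := hsec u3 L3 t
    have i4 := hsec u4 L4 t
    have i12 := hsec' _ (L1.add L2) t
    have e : ∫ x in Set.Ioc (0:ℝ) 1, f x * (m (t + x) * (W (t + x) - 1))
        = A t + ∫ x, (f x * u4 (t + x) - f x * u3 (t + x)) ∂m1 := by
      rw [integral_sub i4 i3, hA]
      simp only [hu4]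
      ring
    rw [e]
    refine (abs_add_le _ _).trans ?_
    gcongr
    refine (abs_integral_le_integral_abs).trans ?_
    refine integral_mono_ae (i4.sub i3).abs i12 ?_
    filter_upwards with x
    set s := t + x
    show |f x * u4 s - f x * u3 s| ≤ u1 s + u2 s
    have d1 : f x * u4 s - f x * u3 s = f x * (u1 s + (m s - mc s) * (W s - 1)) := by
      simp only [hu1, hu3, hu4]
      ring
    rw [d1, abs_mul, abs_of_nonneg (hf0 x)]
    have n1 : 0 ≤ u1 s := by
      have := h0 s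
      have := hW0 s
      have : 0 ≤ 1 - g s := by linarith [hg1 s]
      simp only [hu1]
      positivity
    have n2 : |(m s - mc s) * (W s - 1)| ≤ u2 s := by
      rw [abs_mul, abs_of_nonneg (by linarith [hle s])]
      simp only [hu2]
      have hh : 0 ≤ m s - mc s := by linarith [hle s]
      gcongr
      rw [abs_le]
      constructor <;> linarith [hW0 s]
    calc f x * |u1 s + (m s - mc s) * (W s - 1)| ≤ 1 * |u1 s + (m s - mc s) * (W s - 1)| := by
          gcongr
          exact hf1 x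
      _ ≤ |u1 s| + |(m s - mc s) * (W s - 1)| := by
          rw [one_mul]
          exact abs_add_le _ _
      _ ≤ u1 s + u2 s := by
          rw [abs_of_nonneg n1]
          gcongr
  have hJ : Integrable (fun t => ∫ x, (u1 (t + x) + u2 (t + x)) ∂m1) μt :=
    (hprod' _ (L1.add L2)).integral_prod_left
  have hI4 : Integrable (fun t => |∫ x in (0:ℝ)..1, f x * (m (t + x) * (W (t + x) - 1))|) μt := by
    have := (hprod u4 L4).integral_prod_left
    simp only [intervalIntegral.integral_of_le zero_le_one]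
    exact this.abs
  calc ∫ t in Set.Ioc T1 T2, |∫ x in (0:ℝ)..1, f x * (m (t + x) * (W (t + x) - 1))|
      ≤ ∫ t, (|A t| + ∫ x, (u1 (t + x) + u2 (t + x)) ∂m1) ∂μt :=
        integral_mono_ae hI4 (hAint.abs.add hJ) (Eventually.of_forall hin)
    _ = (∫ t, |A t| ∂μt) + ∫ t, ∫ x, (u1 (t + x) + u2 (t + x)) ∂m1 ∂μt :=
        integral_add hAint.abs hJ
    _ ≤ (c + d) / 2 + (a + b) := add_le_add hAle hE
    _ = a + b + (c + d) / 2 := by ring

end Pool.Agent.N748.GC.ASM
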