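import Pool.Agent.N748.GC.QC
import Pool.Agent.N748.GC.ASMcore

/-!
# From the two-point bounds to the windows (GC/ASM)

Exported: `main : S_ASM`.
-/

set_option autoImplicit false

namespace Pool.Agent.N748.GC.ASM

open Filter MeasureTheory Topology

theorem pt_add (P : Finset ℕ) (s t : ℝ) : pt P (s + t) = pt P s + pt P t := by
  unfold pt
  funext p
  simp only [Pi.add_apply]
  rw [← AddCircle.coe_add]
  congr 1
  ring

theorem Kz_le {C ζ κ e : ℝ} {z : ℕ} (hz : 3 ≤ z) (hζ0 : 0 < ζ)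
    (he1 : e ≤ 1) {h : ℝ} (hh : h ≠ 0) :
    Kz C ζ κ e z h + 4 * e ≤ Kz (C + 4) ζ κ (5 * e) z h := by
  have hL : 0 < Real.log z := by linarith [QC.one_lt_log hz]
  unfold Kz
  split_ifs with h1 h2
  · have hv : 0 < |h| * Real.log z := mul_pos (abs_pos.mpr hh) hL
    have : 1 ≤ (|h| * Real.log z) ^ (-ζ) :=
      Real.one_le_rpow_of_pos_of_le_one_of_nonpos hv h1 (by linarith)
    nlinarith
  · linarith
  · linarith

theorem K_prod {K : ℝ → ℝ} (hKm : Measurable K) (hK : IntervalIntegrable K volume (-1) 1) :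
    Integrable (fun p : ℝ × ℝ => K (p.1 - p.2)) (m1.prod m1) := by
  have hm : Measurable (fun p : ℝ × ℝ => K (p.1 - p.2)) := hKm.comp (measurable_fst.sub measurable_snd)
  rw [integrable_prod_iff hm.aestronglyMeasurable]
  constructor
  · filter_upwards [m1_mem] with u hu
    exact (intervalIntegrable_iff_integrableOn_Ioc_of_le zero_le_one).mp
      (QC.int_sub (Set.Ioc_subset_Icc_self hu) hK)
  · refine Integrable.of_bound (C := ∫ h in (-1:ℝ)..1, |K h|) ?_ ?_
    · exact hm.norm.stronglyMeasurable.integral_prod_right'.aestronglyMeasurable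
    · filter_upwards [m1_mem] with u hu
      rw [Real.norm_of_nonneg (integral_nonneg fun _ => norm_nonneg _)]
      have := QC.int_sub_le (Set.Ioc_subset_Icc_self hu) hK
      rw [intervalIntegral.integral_of_le zero_le_one] at this
      simpa only [Real.norm_eq_abs] using this

/-- the abstract form of `TS` -/
structure TA {E : Type} [TopologicalSpace E] [MeasurableSpace E] (ν : Measure E) (pt : ℝ → E)
    (K : ℝ → ℝ) (e lam δ0 : ℝ) (W g : ℝ → ℝ → ℝ → ℝ) : Prop where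
  W0 : ∀ X δ u, 0 ≤ W X δ u
  Wc : ∀ X δ, Continuous (W X δ)
  g0 : ∀ X δ u, 0 ≤ g X δ u
  g1 : ∀ X δ u, g X δ u ≤ 1
  gm : ∀ X δ, Measurable (g X δ)
  zero : ∀ (K : Type) [TopologicalSpace K] [CompactSpace K] (F : K × E → ℝ), Continuous F →
    ∀ η : ℝ, 0 < η → ∀ᶠ X : ℝ in atTop, ∀ k : K,
    |(∫ t in Xl X..X, F (k, pt t)) - X * ∫ y, F (k, y) ∂ν| ≤ X * η
  one : ∀ (K : Type) [TopologicalSpace K] [CompactSpace K] (F : K × E → ℝ), Continuous F →
    (∀ q, 0 ≤ F q) → ∀ η : ℝ, 0 < η → ∀ᶠ X : ℝ in atTop, ∀ δ : ℝ, lam / Real.log X ≤ δ → δ ≤ δ0 →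
    ∀ k : K, ∀ x : ℝ, 0 ≤ x → x ≤ 1 →
    |(∫ t in Xl X..X, F (k, pt t) * W X δ (t + x)) - X * ∫ y, F (k, y) ∂ν| ≤
      X * (e * (∫ y, F (k, y) ∂ν) + η)
  bad : ∀ (K : Type) [TopologicalSpace K] [CompactSpace K] (F : K × E → ℝ), Continuous F →
    (∀ q, 0 ≤ F q) → ∀ η : ℝ, 0 < η → ∀ᶠ X : ℝ in atTop, ∀ δ : ℝ, lam / Real.log X ≤ δ → δ ≤ δ0 →
    ∀ k : K, ∀ x : ℝ, 0 ≤ x → x ≤ 1 →
    ∫ t in Xl X..X, F (k, pt t) * (W X δ (t + x) * (1 - g X δ (t + x))) ≤
      X * (e * (∫ y, F (k, y) ∂ν) + η)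
  two : ∀ (L : Type) [TopologicalSpace L] [CompactSpace L] (F : L × E → ℝ), Continuous F →
    (∀ q, 0 ≤ F q) → ∀ η : ℝ, 0 < η → ∀ᶠ X : ℝ in atTop, ∀ δ : ℝ, lam / Real.log X ≤ δ → δ ≤ δ0 →
    ∀ k : L, ∀ x y : ℝ, 0 ≤ x → x ≤ 1 → 0 ≤ y → y ≤ 1 → x ≠ y →
    ∫ t in Xl X..X, F (k, pt t) * ((W X δ (t + x) * g X δ (t + x)) * (W X δ (t + y) * g X δ (t + y))) ≤
      X * (((∫ w, F (k, w) ∂ν) + η) * (1 + K (x - y)))

theorem Xl_le {X : ℝ} (hX : 256 ≤ X) : Xl X ≤ X := by
  unfold Xl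
  have h0 : 0 < X := by linarith
  have h1 : (4:ℝ) ≤ X ^ ((1:ℝ) / 4) := by
    calc (4:ℝ) = (256:ℝ) ^ ((1:ℝ) / 4) := by
          rw [show (256:ℝ) = 4 ^ (4:ℝ) by norm_num, ← Real.rpow_mul (by norm_num)]
          norm_num
      _ ≤ X ^ ((1:ℝ) / 4) := Real.rpow_le_rpow (by norm_num) hX (by norm_num)
  have h2 : 2 * (X + 1) ≤ X ^ ((5:ℝ) / 4) := by
    calc 2 * (X + 1) ≤ 4 * X := by linarith
      _ ≤ X ^ ((1:ℝ) / 4) * X := by gcongr
      _ = X ^ ((5:ℝ) / 4) := by
          rw [show (5:ℝ) / 4 = 1 / 4 + 1 by norm_num, Real.rpow_add h0, Real.rpow_one]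
  calc (2 * (X + 1)) ^ ((4:ℝ) / 5) ≤ (X ^ ((5:ℝ) / 4)) ^ ((4:ℝ) / 5) :=
        Real.rpow_le_rpow (by positivity) h2 (by norm_num)
    _ = X := by
        rw [← Real.rpow_mul h0.le]
        norm_num

/-- the abstract form of `S_ASM` -/
theorem absmain {E : Type} [TopologicalSpace E] [CompactSpace E] [SecondCountableTopology E]
    [AddCommGroup E] [ContinuousAdd E] [MeasurableSpace E] [BorelSpace E] (ν : Measure E)
    [IsProbabilityMeasure ν] (hν : ∀ y, MeasurePreserving (fun x => x + y) ν ν)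
    (pt : ℝ → E) (hpt : Continuous pt) (pt_add : ∀ s t, pt (s + t) = pt s + pt t)
    (M Mc : E → ℝ) (hM0 : Continuous M) (hMc : Continuous Mc) (hMc0 : ∀ x, 0 ≤ Mc x)
    (hMcle : ∀ x, Mc x ≤ M x) (hM1 : ∫ x, M x ∂ν = 1) {e lam δ0 : ℝ} (he0 : 0 ≤ e) (he1 : e ≤ 1)
    (K Kf : ℝ → ℝ) (hKm : Measurable Kf) (hKi : IntervalIntegrable Kf volume (-1) 1)
    (hK0 : ∀ h, 0 ≤ Kf h) (hKle : ∀ h, h ≠ 0 → K h + 4 * e ≤ Kf h)
    (Q : E → ℝ) (hQdef : ∀ x, Q x = ∫ u in (0:ℝ)..1, ∫ v in (0:ℝ)..1,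
      Mc (x + pt u) * Mc (x + pt v) * Kf (u - v)) (hQc : Continuous Q) (hQ0 : ∀ x, 0 ≤ Q x)
    (W g : ℝ → ℝ → ℝ → ℝ) (S : TA ν pt K e lam δ0 W g) (ε : ℝ) (hε : 0 < ε) :
    ∀ᶠ X : ℝ in atTop, ∀ δ : ℝ, lam / Real.log X ≤ δ → δ ≤ δ0 → ∀ f : ℝ → ℝ, Measurable f →
    (∀ x, 0 ≤ f x) → (∀ x, f x ≤ 1) →
    ∫ t in Xl X..X, |∫ x in (0:ℝ)..1, f x * (M (pt (t + x)) * (W X δ (t + x) - 1))| ≤
      X * (e + 3 * (∫ x, (M x - Mc x) ∂ν) + (∫ x, Real.sqrt (Q x) ∂ν) + ε) := by
  have hKp : Integrable (fun p : ℝ × ℝ => Kf (p.1 - p.2)) (m1.prod m1) := K_prod hKm hKi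
  have ci : ∀ {F : E → ℝ}, Continuous F → Integrable F ν := fun h =>
    h.integrable_of_hasCompactSupport (HasCompactSupport.of_compactSpace _)
  -- the denominator
  set D : E → ℝ := fun x => Real.sqrt (Q x + (ε / 2) ^ 2) with hD
  have hDc : Continuous D := (hQc.add continuous_const).sqrt
  have hDε : ∀ x, ε / 2 ≤ D x := fun x => by
    refine Real.le_sqrt_of_sq_le ?_
    linarith [hQ0 x]
  have hDpos : ∀ x, 0 < D x := fun x => lt_of_lt_of_le (by positivity) (hDε x)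
  have hDsq : ∀ x, D x ^ 2 = Q x + (ε / 2) ^ 2 := fun x =>
    Real.sq_sqrt (by have := hQ0 x; positivity)
  set SQ : ℝ := ∫ x, Real.sqrt (Q x) ∂ν with hSQ
  have hDint : ∫ x, D x ∂ν ≤ SQ + ε / 2 := by
    calc ∫ x, D x ∂ν ≤ ∫ x, (Real.sqrt (Q x) + ε / 2) ∂ν := by
          refine integral_mono (ci hDc) (ci (hQc.sqrt.add continuous_const)) fun x => ?_
          refine (Real.sqrt_le_left (by positivity)).mpr ?_
          have := Real.sq_sqrt (hQ0 x)
          have := Real.sqrt_nonneg (Q x)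
          nlinarith
      _ = SQ + ε / 2 := by
          rw [integral_add (ci hQc.sqrt) (integrable_const _), integral_const]
          simp only [probReal_univ, smul_eq_mul, one_mul]
          rfl
  have hDint0 : 0 ≤ ∫ x, D x ∂ν := integral_nonneg fun x => (hDpos x).le
  -- translation invariance
  have htr : ∀ (F : E → ℝ), Continuous F → ∀ y, ∫ x, F (x + y) ∂ν = ∫ x, F x ∂ν := by
    intro F hF y
    have h := hν y
    have h2 := h.map_eq
    calc ∫ x, F (x + y) ∂ν = ∫ x, F x ∂(Measure.map (fun x => x + y) ν) := by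
          rw [integral_map h.measurable.aemeasurable hF.aestronglyMeasurable]
      _ = ∫ x, F x ∂ν := by rw [h2]
  set I2 : ℝ := ∫ x, (M x - Mc x) ∂ν with hI2
  have hI20 : 0 ≤ I2 := integral_nonneg fun x => sub_nonneg.mpr (hMcle x)
  have hMc1 : ∫ x, Mc x ∂ν ≤ 1 := by
    rw [← hM1]
    exact integral_mono (ci hMc) (ci hM0) hMcle
  -- the families of functions
  let J := Set.Icc (0:ℝ) 1
  let F1 : J × E → ℝ := fun q => Mc (q.2 + pt q.1)
  let F2 : J × E → ℝ := fun q => M (q.2 + pt q.1) - Mc (q.2 + pt q.1)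
  let G3 : (ℝ × ℝ) × E → ℝ := fun q =>
    Mc (q.2 + pt q.1.1) * Mc (q.2 + pt q.1.2) / D q.2
  let F3 : (J × J) × E → ℝ := fun q =>
    Mc (q.2 + pt q.1.1) * Mc (q.2 + pt q.1.2) / D q.2
  let F4 : Unit × E → ℝ := fun q => D q.2
  have hc0 : Continuous (fun q : J × E => q.2 + pt q.1) :=
    continuous_snd.add (hpt.comp (continuous_subtype_val.comp continuous_fst))
  have hF1 : Continuous F1 := hMc.comp hc0
  have hF2 : Continuous F2 := (hM0.comp hc0).sub (hMc.comp hc0)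
  have hG3 : Continuous G3 := by
    refine Continuous.div ?_ (hDc.comp continuous_snd) (fun q => (hDpos _).ne')
    exact (hMc.comp (continuous_snd.add (hpt.comp (continuous_fst.comp continuous_fst)))).mul
      (hMc.comp (continuous_snd.add (hpt.comp (continuous_snd.comp continuous_fst))))
  have hF3 : Continuous F3 := by
    have : Continuous (fun q : (J × J) × E => (((q.1.1 : ℝ), (q.1.2 : ℝ)), q.2)) := by
      fun_prop
    exact hG3.comp this
  have hF4 : Continuous F4 := hDc.comp continuous_snd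
  have hF10 : ∀ q, 0 ≤ F1 q := fun q => hMc0 _
  have hF20 : ∀ q, 0 ≤ F2 q := fun q => sub_nonneg.mpr (hMcle _)
  have hG30 : ∀ q, 0 ≤ G3 q := fun q =>
    div_nonneg (mul_nonneg (hMc0 _) (hMc0 _)) (hDpos _).le
  have hF30 : ∀ q, 0 ≤ F3 q := fun q =>
    div_nonneg (mul_nonneg (hMc0 _) (hMc0 _)) (hDpos _).le
  -- bound for G3
  obtain ⟨Bc, hBc⟩ : ∃ Bc : ℝ, ∀ x, |Mc x| ≤ Bc := by
    obtain ⟨Bc, hBc⟩ := (isCompact_univ (X := E)).exists_bound_of_continuousOn
      hMc.continuousOn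
    exact ⟨Bc, fun x => hBc x (Set.mem_univ _)⟩
  have hG3b : ∀ q, |G3 q| ≤ Bc * Bc / (ε / 2) := by
    intro q
    simp only [G3]
    rw [abs_div, abs_mul, abs_of_pos (hDpos _)]
    have h1 := hBc (q.2 + pt q.1.1)
    have h2 := hBc (q.2 + pt q.1.2)
    have h3 := hDε q.2
    have h4 : 0 ≤ Bc := (abs_nonneg _).trans h1
    gcongr
  -- constants
  set cI : ℝ := ∫ p, Kf (p.1 - p.2) ∂(m1.prod m1) with hcI
  have hcI0 : 0 ≤ cI := integral_nonneg fun p => hK0 _
  set cK : ℝ := 6 + cI with hcK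
  have hden : 0 < 3 + (cK + 1) / 2 := by positivity
  set η : ℝ := ε / (2 * (3 + (cK + 1) / 2)) with hη
  have hη0 : 0 < η := by positivity
  have hηe : η * (3 + (cK + 1) / 2) = ε / 2 := by
    rw [hη, div_mul_eq_mul_div, div_eq_iff (by positivity)]
    ring
  -- Fubini for the two-point function
  let I3 : ℝ × ℝ → ℝ := fun p => ∫ w, G3 (p, w) ∂ν
  have hI30 : ∀ p, 0 ≤ I3 p := fun p => integral_nonneg fun w => hG30 _
  have hGK : Integrable (fun q : (ℝ × ℝ) × E => G3 q * Kf (q.1.1 - q.1.2))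
      ((m1.prod m1).prod ν) := by
    have h1 : Integrable (fun q : (ℝ × ℝ) × E => Kf (q.1.1 - q.1.2))
        ((m1.prod m1).prod ν) := hKp.comp_fst ν
    refine h1.bdd_mul hG3.aestronglyMeasurable (c := Bc * Bc / (ε / 2)) ?_
    filter_upwards with q
    rw [Real.norm_eq_abs]
    exact hG3b q
  have hI3K : Integrable (fun p : ℝ × ℝ => I3 p * Kf (p.1 - p.2)) (m1.prod m1) := by
    have := hGK.integral_prod_left
    refine this.congr (Eventually.of_forall fun p => ?_)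
    simp only [I3]
    rw [← integral_mul_const]
  have hI3e : ∫ p, I3 p * Kf (p.1 - p.2) ∂(m1.prod m1) ≤ ∫ x, D x ∂ν := by
    have e1 : ∫ p, I3 p * Kf (p.1 - p.2) ∂(m1.prod m1)
        = ∫ w, ∫ p, G3 (p, w) * Kf (p.1 - p.2) ∂(m1.prod m1) ∂ν := by
      rw [← integral_integral_swap (f := fun (p : ℝ × ℝ) w => G3 (p, w) * Kf (p.1 - p.2)) hGK]
      refine integral_congr_ae (Eventually.of_forall fun p => ?_)
      simp only [I3]
      rw [← integral_mul_const]
    have e2 : ∀ w, ∫ p, G3 (p, w) * Kf (p.1 - p.2) ∂(m1.prod m1) = Q w / D w := by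
      intro w
      have hi : Integrable (fun p : ℝ × ℝ => Mc (w + pt p.1) * Mc (w + pt p.2)
          * Kf (p.1 - p.2)) (m1.prod m1) := by
        refine hKp.bdd_mul (c := Bc * Bc) ?_ ?_
        · refine Continuous.aestronglyMeasurable ?_
          exact (hMc.comp (continuous_const.add (hpt.comp continuous_fst))).mul
            (hMc.comp (continuous_const.add (hpt.comp continuous_snd)))
        · filter_upwards with p
          rw [Real.norm_eq_abs, abs_mul]
          have h1 := hBc (w + pt p.1)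
          have h2 := hBc (w + pt p.2)
          have h4 : 0 ≤ Bc := (abs_nonneg _).trans h1
          gcongr
      have e3 : Q w = ∫ p : ℝ × ℝ, Mc (w + pt p.1) * Mc (w + pt p.2)
          * Kf (p.1 - p.2) ∂(m1.prod m1) := by
        rw [integral_prod _ hi, hQdef]
        rw [intervalIntegral.integral_of_le zero_le_one]
        refine integral_congr_ae (Eventually.of_forall fun u => ?_)
        simp only
        rw [intervalIntegral.integral_of_le zero_le_one]
      rw [e3, ← integral_div]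
      refine integral_congr_ae (Eventually.of_forall fun p => ?_)
      simp only [G3]
      ring
    rw [e1]
    simp only [e2]
    refine integral_mono (ci (hQc.div hDc fun x => (hDpos x).ne')) (ci hDc) fun w => ?_
    rw [div_le_iff₀ (hDpos w)]
    nlinarith [hDsq w, sq_nonneg (ε / 2)]
  -- thresholds
  have t1 := S.bad J F1 hF1 hF10 η hη0
  have t2 := S.one J F2 hF2 hF20 η hη0
  have t3 := S.zero J F2 hF2 η hη0
  have t4 := S.two (J × J) F3 hF3 hF30 η hη0
  have t5 := S.one (J × J) F3 hF3 hF30 η hη0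
  have t6 := S.bad (J × J) F3 hF3 hF30 η hη0
  have t7 := S.zero (J × J) F3 hF3 η hη0
  have t8 := S.zero Unit F4 hF4 η hη0
  filter_upwards [t1, t2, t3, t4, t5, t6, t7, t8, eventually_ge_atTop (256:ℝ)] with X t1 t2 t3 t4 t5
    t6 t7 t8 hX δ hδ1 hδ2 f hf hf0 hf1
  have hX0 : 0 < X := by linarith
  have t1 := t1 δ hδ1 hδ2
  have t2 := t2 δ hδ1 hδ2
  have t4 := t4 δ hδ1 hδ2
  have t5 := t5 δ hδ1 hδ2
  have t6 := t6 δ hδ1 hδ2
  set mc : ℝ → ℝ := fun u => Mc (pt u) with hmc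
  set Dt : ℝ → ℝ := fun t => D (pt t) with hDt
  have hmcc : Continuous mc := hMc.comp hpt
  set mz : ℝ → ℝ := fun u => M (pt u) with hmz
  have hmzc : Continuous mz := hM0.comp hpt
  have hDtc : Continuous Dt := hDc.comp hpt
  have Lg : LB (g X δ) := LB.bdd (B := 1) (S.gm X δ)
    (fun s => abs_le.mpr ⟨by linarith [S.g0 X δ s], S.g1 X δ s⟩)
  have LW : LB (W X δ) := LB.cont (S.Wc X δ)
  set B : ℝ × ℝ → ℝ := fun p => X * (I3 p * Kf (p.1 - p.2) + η * (6 + Kf (p.1 - p.2))) with hB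
  have hcst : Integrable (fun p : ℝ × ℝ => η * (6 + Kf (p.1 - p.2))) (m1.prod m1) :=
    ((integrable_const _).add hKp).const_mul _
  have key := core (T1 := Xl X) (T2 := X) (Xl_le hX) (f := f) (m := mz) (mc := mc) (W := W X δ)
    (g := g X δ) (Dt := Dt) (B := B) (a := X * (e + η)) (b := X * (3 * I2 + 2 * η))
    (c := X * ((∫ x, D x ∂ν) + η * cK)) (d := X * ((∫ x, D x ∂ν) + η)) (ε := ε / 2)
    hf hf0 hf1 hmzc hmcc (fun x => hMc0 _) (fun x => hMcle _) (S.Wc X δ) (S.W0 X δ) (S.gm X δ)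
    (S.g0 X δ) (S.g1 X δ) hDtc (by positivity) (fun t => hDε _)
    ?_ ?_ ?_ ?_ ?_ ?_ ?_
  · refine key.trans ?_
    have e9 : X * (e + η) + X * (3 * I2 + 2 * η) + (X * ((∫ x, D x ∂ν) + η * cK)
        + X * ((∫ x, D x ∂ν) + η)) / 2
        = X * (e + 3 * I2 + (∫ x, D x ∂ν) + η * (3 + (cK + 1) / 2)) := by ring
    rw [e9, hηe]
    have := hDint
    gcongr X * ?_
    linarith
  · -- h1
    intro x hx
    have h := t1 ⟨x, hx⟩ x hx.1 hx.2
    have e1 : ∀ t, F1 (⟨x, hx⟩, pt t) = mc (t + x) := by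
      intro t
      simp only [F1, hmc, pt_add]
    simp only [e1] at h
    refine h.trans ?_
    have e2 : ∫ y, F1 (⟨x, hx⟩, y) ∂ν = ∫ y, Mc y ∂ν := htr _ hMc (pt x)
    rw [e2]
    gcongr X * (?_ + η)
    calc e * ∫ y, Mc y ∂ν ≤ e * 1 := by gcongr
      _ = e := mul_one e
  · -- h2
    intro x hx
    have e1 : ∀ t, F2 (⟨x, hx⟩, pt t) = mz (t + x) - mc (t + x) := by
      intro t
      simp only [F2, hmc, pt_add, hmz]
    have e2 : ∫ y, F2 (⟨x, hx⟩, y) ∂ν = I2 := htr _ (hM0.sub hMc) (pt x)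
    have h2 := t2 ⟨x, hx⟩ x hx.1 hx.2
    have h3 := t3 ⟨x, hx⟩
    simp only [e1] at h2 h3
    rw [e2] at h2 h3
    have L2 : LB (fun t => mz (t + x) - mc (t + x)) :=
      ((LB.cont hmzc).shift x).sub ((LB.cont hmcc).shift x)
    have i1 := (L2.mul (LW.shift x)).ii (Xl X) X
    have i2 := L2.ii (Xl X) X
    have e3 : ∫ t in Xl X..X, (mz (t + x) - mc (t + x)) * (W X δ (t + x) + 1)
        = (∫ t in Xl X..X, (mz (t + x) - mc (t + x)) * W X δ (t + x))
          + ∫ t in Xl X..X, (mz (t + x) - mc (t + x)) := by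
      rw [← intervalIntegral.integral_add i1 i2]
      congr 1
      ext t
      ring
    rw [e3]
    have k2 := (abs_le.mp h2).2
    have k3 := (abs_le.mp h3).2
    have k4 : X * (e * I2) ≤ X * I2 := by
      have : e * I2 ≤ 1 * I2 := by gcongr
      have : e * I2 ≤ I2 := by linarith
      gcongr
    nlinarith
  · -- integrability of B
    exact (hI3K.add hcst).const_mul X
  · -- B ≥ 0
    intro p
    have h1 := hI30 p
    have h2 := hK0 (p.1 - p.2)
    simp only [hB]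
    positivity
  · -- integral of B
    have e1 : ∫ p, B p ∂(m1.prod m1) = X * ((∫ p, I3 p * Kf (p.1 - p.2) ∂(m1.prod m1))
        + η * cK) := by
      have hp : IsProbabilityMeasure m1 := ⟨by simp [m1]⟩
      simp only [hB]
      rw [integral_const_mul, integral_add hI3K hcst, integral_const_mul,
        integral_add (integrable_const _) hKp, integral_const, probReal_univ, one_smul]
    rw [e1]
    gcongr
  · -- h3
    intro x hx y hy hxy
    set k : J × J := (⟨x, hx⟩, ⟨y, hy⟩) with hk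
    have e1 : ∀ t, F3 (k, pt t) = mc (t + x) * mc (t + y) / Dt t := by
      intro t
      simp only [F3, hmc, hDt, pt_add, hk]
    have e2 : ∫ w, F3 (k, w) ∂ν = I3 (x, y) := rfl
    have h4 := t4 k x y hx.1 hx.2 hy.1 hy.2 hxy
    have h5x := t5 k x hx.1 hx.2
    have h5y := t5 k y hy.1 hy.2
    have h6x := t6 k x hx.1 hx.2
    have h6y := t6 k y hy.1 hy.2
    have h7 := t7 k
    simp only [e1] at h4 h5x h5y h6x h6y h7
    rw [e2] at h4 h5x h5y h6x h6y h7
    have LF : LB (fun t => mc (t + x) * mc (t + y) / Dt t) := by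
      refine LB.cont ?_
      refine Continuous.div ?_ hDtc (fun t => (hDpos _).ne')
      exact (hmcc.comp (continuous_add_const x)).mul (hmcc.comp (continuous_add_const y))
    have Lv : ∀ x, LB (fun t => W X δ (t + x) * g X δ (t + x)) := fun x =>
      (LW.shift x).mul (Lg.shift x)
    have Lb : ∀ x, LB (fun t => W X δ (t + x) * (1 - g X δ (t + x))) := fun x =>
      (LW.shift x).mul ((LB.const 1).sub (Lg.shift x))
    have i1 := (LF.mul ((Lv x).mul (Lv y))).ii (Xl X) X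
    have i2 := (LF.mul (LW.shift x)).ii (Xl X) X
    have i3 := (LF.mul (Lb x)).ii (Xl X) X
    have i4 := (LF.mul (LW.shift y)).ii (Xl X) X
    have i5 := (LF.mul (Lb y)).ii (Xl X) X
    have i6 := LF.ii (Xl X) X
    have e3 : ∫ t in Xl X..X, mc (t + x) * mc (t + y) / Dt t *
          ((W X δ (t + x) * g X δ (t + x) - 1) * (W X δ (t + y) * g X δ (t + y) - 1))
        = (∫ t in Xl X..X, mc (t + x) * mc (t + y) / Dt t *
            ((W X δ (t + x) * g X δ (t + x)) * (W X δ (t + y) * g X δ (t + y))))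
          - ((∫ t in Xl X..X, mc (t + x) * mc (t + y) / Dt t * W X δ (t + x))
            - ∫ t in Xl X..X, mc (t + x) * mc (t + y) / Dt t * (W X δ (t + x) * (1 - g X δ (t + x))))
          - ((∫ t in Xl X..X, mc (t + x) * mc (t + y) / Dt t * W X δ (t + y))
            - ∫ t in Xl X..X, mc (t + x) * mc (t + y) / Dt t * (W X δ (t + y) * (1 - g X δ (t + y))))
          + ∫ t in Xl X..X, mc (t + x) * mc (t + y) / Dt t := by
      rw [← intervalIntegral.integral_sub i2 i3, ← intervalIntegral.integral_sub i4 i5,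
        ← intervalIntegral.integral_sub i1 (i2.sub i3),
        ← intervalIntegral.integral_sub (i1.sub (i2.sub i3)) (i4.sub i5),
        ← intervalIntegral.integral_add ((i1.sub (i2.sub i3)).sub (i4.sub i5)) i6]
      congr 1
      ext t
      ring
    rw [e3]
    have k5x := (abs_le.mp h5x).1
    have k5y := (abs_le.mp h5y).1
    have k7 := (abs_le.mp h7).2
    have hkz := hKle (x - y) (sub_ne_zero.mpr hxy)
    have hI := hI30 (x, y)
    set I := I3 (x, y) with hIdef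
    set KK := K (x - y) with hKK
    have goal1 : X * ((I + η) * (1 + KK)) - 2 * (X * I - X * (e * I + η) - X * (e * I + η))
        + (X * I + X * η) ≤ X * (I * Kf (x - y) + η * (6 + Kf (x - y))) := by
      have a1 : (I + η) * (KK + 4 * e) ≤ (I + η) * Kf (x - y) := by
        gcongr
      have a2 : X * ((I + η) * (KK + 4 * e)) ≤ X * ((I + η) * Kf (x - y)) := by gcongr
      have a3 : 0 ≤ X * (η * e) := by positivity
      nlinarith
    show _ ≤ X * (I3 (x, y) * Kf (x - y) + η * (6 + Kf (x - y)))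
    linarith
  · -- h4
    have h := (abs_le.mp (t8 ())).2
    have e1 : ∀ t, F4 ((), pt t) = Dt t := fun t => rfl
    have e2 : ∫ y, F4 ((), y) ∂ν = ∫ x, D x ∂ν := rfl
    simp only [e1] at h
    rw [e2] at h
    linarith

theorem main : S_ASM := by
  intro α b C ζ κ e lam δ0 z W g hα hz hC hζ0 hζ1 he0 he1 S ε hε
  have hKm : Measurable (Kz (C + 4) ζ κ (5 * e) z) := QC.Kz_meas _ _ _ _ _
  have hKi : IntervalIntegrable (Kz (C + 4) ζ κ (5 * e) z) volume (-1) 1 := QC.Kz_int hζ0 hζ1 hz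
  have hK0 : ∀ h, 0 ≤ Kz (C + 4) ζ κ (5 * e) z h := QC.Kz_nonneg (by linarith) (by linarith) z
  exact absmain (HP (Sm z)) (QC.HP_add_right (Sm z)) (pt (Sm z)) (QC.pt_cont _) (pt_add _)
    (M0 α (Sm z)) (Mc α b z) (QC.M0_cont α (QC.Sm_prime z)) (QC.Mc_cont α b z) (QC.Mc_nonneg α b z)
    (QC.Mc_le_M0 α b z) (QC.M0_int α (QC.Sm_prime z)) he0 he1 (Kz C ζ κ e z)
    (Kz (C + 4) ζ κ (5 * e) z) hKm hKi hK0 (fun h hh => Kz_le hz hζ0 he1 hh)
    (QK α b z (Kz (C + 4) ζ κ (5 * e) z)) (fun x => rfl) (QC.QK_cont hz hKm hKi)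
    (QC.QK_nonneg hK0) W g
    ⟨S.W0, S.Wc, S.g0, S.g1, S.gm, S.zero, S.one, S.bad, S.two⟩ ε hε

end Pool.Agent.N748.GC.ASM
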