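import Pool.Agent.N748.GC.Stm

set_option autoImplicit false

/-!
# GC/ERG : unique ergodicity of the linear flow of `log p` (helper50)
-/

namespace Pool.Agent.N748.GC.ERG

open Finset Filter MeasureTheory Topology Complex UnitAddTorus

/-- the characters span a dense space -/
theorem dens {d : Type*} [Fintype d] {ι : Type*} {l : Filter ι} {Λ : ι → C(UnitAddTorus d, ℂ) →ₗ[ℂ] ℂ}
    {L : C(UnitAddTorus d, ℂ) →ₗ[ℂ] ℂ} {C : ℝ}
    (hC : ∀ᶠ i in l, ∀ g, ‖Λ i g‖ ≤ C * ‖g‖) (hL : ∀ g, ‖L g‖ ≤ C * ‖g‖)
    (h : ∀ n : d → ℤ, Tendsto (fun i => Λ i (mFourier n)) l (𝓝 (L (mFourier n)))) (g : C(UnitAddTorus d, ℂ)) :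
    Tendsto (fun i => Λ i g) l (𝓝 (L g)) := by
  let S : Submodule ℂ C(UnitAddTorus d, ℂ) :=
    { carrier := {g | Tendsto (fun i => Λ i g) l (𝓝 (L g))}
      add_mem' := fun {a b} ha hb => by
        simp only [Set.mem_setOf_eq, map_add] at ha hb ⊢
        exact ha.add hb
      zero_mem' := by
        simp only [Set.mem_setOf_eq, map_zero]
        exact tendsto_const_nhds
      smul_mem' := fun c a ha => by
        simp only [Set.mem_setOf_eq, map_smul] at ha ⊢
        exact ha.const_smul c }
  have hS : Submodule.span ℂ (Set.range (mFourier (d := d))) ≤ S := by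
    rw [Submodule.span_le]
    rintro _ ⟨n, rfl⟩
    exact h n
  have hg : g ∈ (Submodule.span ℂ (Set.range (mFourier (d := d)))).topologicalClosure := by
    rw [span_mFourier_closure_eq_top]; trivial
  rw [← SetLike.mem_coe, Submodule.topologicalClosure_coe, Metric.mem_closure_iff] at hg
  rw [Metric.tendsto_nhds]
  intro ε hε
  obtain ⟨g', hg', hd⟩ := hg (ε / (3 * (|C| + 1))) (by positivity)
  have h1 : Tendsto (fun i => Λ i g') l (𝓝 (L g')) := hS hg'
  rw [Metric.tendsto_nhds] at h1
  filter_upwards [hC, h1 (ε / 3) (by positivity)] with i hi hi2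
  rw [dist_eq_norm] at hd hi2 ⊢
  have e1 : Λ i g - L g = Λ i (g - g') + (Λ i g' - L g') - L (g - g') := by
    rw [map_sub, map_sub]; ring
  have h2 : C * ‖g - g'‖ ≤ ε / 3 := by
    have h3 : C * ‖g - g'‖ ≤ (|C| + 1) * ‖g - g'‖ := by
      apply mul_le_mul_of_nonneg_right _ (norm_nonneg _)
      linarith [le_abs_self C]
    refine h3.trans ?_
    rw [lt_div_iff₀ (by positivity)] at hd
    linarith
  rw [e1]
  refine lt_of_le_of_lt (norm_sub_le _ _) ?_
  have h4 := norm_add_le (Λ i (g - g')) (Λ i g' - L g')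
  have h5 := hi (g - g')
  have h6 := hL (g - g')
  linarith

lemma pt_cont (P : Finset ℕ) : Continuous (pt P) := by
  refine continuous_pi fun p => ?_
  exact (AddCircle.continuous_mk' 1).comp (by fun_prop)

/-- the logarithms of the primes are linearly independent -/
lemma lin_ind {P : Finset ℕ} (hP : ∀ p ∈ P, p.Prime) (e : P → ℤ)
    (h : ∑ p : P, (e p : ℝ) * Real.log (p : ℕ) = 0) : e = 0 := by
  classical
  have hpos : ∀ p : P, 0 < ((p : ℕ) : ℝ) := fun p => by exact_mod_cast (hP p p.2).pos
  set A : ℕ := ∏ p : P, (p : ℕ) ^ (e p).toNat with hA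
  set B : ℕ := ∏ p : P, (p : ℕ) ^ (-e p).toNat with hB
  have hlog : ∀ f : P → ℕ, Real.log ((∏ p : P, (p : ℕ) ^ f p : ℕ) : ℝ) =
      ∑ p : P, (f p : ℝ) * Real.log (p : ℕ) := by
    intro f
    push_cast
    rw [Real.log_prod (fun p _ => pow_ne_zero _ (hpos p).ne')]
    exact Finset.sum_congr rfl fun p _ => Real.log_pow _ _
  have hAB : A = B := by
    have hA0 : 0 < (A : ℝ) := by
      have : 0 < A := Finset.prod_pos fun p _ => pow_pos (hP p p.2).pos _
      exact_mod_cast this
    have hB0 : 0 < (B : ℝ) := by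
      have : 0 < B := Finset.prod_pos fun p _ => pow_pos (hP p p.2).pos _
      exact_mod_cast this
    have h1 : Real.log A = Real.log B := by
      rw [hA, hB, hlog, hlog, ← sub_eq_zero, ← Finset.sum_sub_distrib, ← h]
      refine Finset.sum_congr rfl fun p _ => ?_
      have h2 : (((e p).toNat : ℤ) : ℝ) - (((-e p).toNat : ℤ) : ℝ) = (e p : ℝ) := by
        rcases le_total 0 (e p) with h0 | h0
        · rw [Int.toNat_of_nonpos (by omega : -e p ≤ 0), Int.toNat_of_nonneg h0]; simp
        · rw [Int.toNat_of_nonpos h0, Int.toNat_of_nonneg (by omega : 0 ≤ -e p)]; push_cast; ring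
      push_cast at h2
      rw [← sub_mul, h2]
    exact_mod_cast Real.log_injOn_pos (Set.mem_Ioi.2 hA0) (Set.mem_Ioi.2 hB0) h1
  have hcop : A.Coprime B := by
    rw [hA, hB]
    refine Nat.Coprime.prod_left fun p _ => Nat.Coprime.prod_right fun q _ => ?_
    by_cases hpq : p = q
    · subst hpq
      rcases le_total 0 (e p) with h0 | h0
      · have : (-e p).toNat = 0 := Int.toNat_of_nonpos (by omega)
        rw [this, pow_zero]
        exact Nat.coprime_one_right _
      · have : (e p).toNat = 0 := Int.toNat_of_nonpos h0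
        rw [this, pow_zero]
        exact Nat.coprime_one_left _
    · refine ((Nat.coprime_primes (hP p p.2) (hP q q.2)).mpr fun h => hpq (Subtype.ext h)).pow _ _
  have hA1 : A = 1 := by
    rw [← hAB] at hcop
    exact (Nat.coprime_self A).1 hcop
  have hB1 : B = 1 := by rw [← hAB]; exact hA1
  funext p
  have h3 : (e p).toNat = 0 := by
    have hd : (p : ℕ) ^ (e p).toNat ∣ A := Finset.dvd_prod_of_mem _ (Finset.mem_univ p)
    rw [hA1] at hd
    by_contra hne
    have := Nat.eq_one_of_dvd_one ((dvd_pow_self (p : ℕ) hne).trans hd)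
    exact (hP p p.2).one_lt.ne' this
  have h4 : (-e p).toNat = 0 := by
    have hd : (p : ℕ) ^ (-e p).toNat ∣ B := Finset.dvd_prod_of_mem _ (Finset.mem_univ p)
    rw [hB1] at hd
    by_contra hne
    have := Nat.eq_one_of_dvd_one ((dvd_pow_self (p : ℕ) hne).trans hd)
    exact (hP p p.2).one_lt.ne' this
  simp only [Pi.zero_apply]
  omega

/-- the frequency -/
noncomputable def fr {P : Finset ℕ} (n : P → ℤ) : ℝ := -∑ p : P, (n p : ℝ) * Real.log (p : ℕ)

lemma mF_pt {P : Finset ℕ} (n : P → ℤ) (t : ℝ) :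
    mFourier n (pt P t) = Complex.exp ((fr n : ℂ) * I * t) := by
  unfold mFourier pt fr
  simp only [ContinuousMap.coe_mk]
  simp_rw [fourier_coe_apply]
  rw [← Complex.exp_sum]
  congr 1
  push_cast
  rw [neg_mul, neg_mul, Finset.sum_mul, Finset.sum_mul, ← Finset.sum_neg_distrib]
  refine Finset.sum_congr rfl fun p _ => ?_
  have hpi : (Real.pi : ℂ) ≠ 0 := by exact_mod_cast Real.pi_ne_zero
  field_simp

lemma int_fourier (n : ℤ) (hn : n ≠ 0) :
    ∫ y, fourier n y ∂(AddCircle.haarAddCircle (T := (1:ℝ))) = 0 :=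
  integral_eq_zero_of_add_right_eq_neg (μ := AddCircle.haarAddCircle)
    (fourier_add_half_inv_index hn (by norm_num))

lemma int_mF {P : Finset ℕ} (n : P → ℤ) (hn : n ≠ 0) : ∫ x, mFourier n x ∂(HP P) = 0 := by
  have h : ∫ x, mFourier n x ∂(HP P) =
      ∏ p : P, ∫ y, fourier (n p) y ∂(AddCircle.haarAddCircle (T := (1:ℝ))) := by
    unfold HP
    rw [← integral_fintype_prod_eq_prod]
    rfl
  rw [h]
  obtain ⟨p, hp⟩ : ∃ p, n p ≠ 0 := by
    by_contra hcon
    push Not at hcon
    exact hn (funext hcon)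
  exact Finset.prod_eq_zero (Finset.mem_univ p) (int_fourier _ hp)

lemma int_ok {P : Finset ℕ} (g : C(UnitAddTorus P, ℂ)) : Integrable (fun x => g x) (HP P) :=
  g.continuous.integrable_of_hasCompactSupport (HasCompactSupport.of_compactSpace _)

/-- the mean values along the flow -/
noncomputable def Lam (P : Finset ℕ) (i : ℝ × ℝ) : C(UnitAddTorus P, ℂ) →ₗ[ℂ] ℂ where
  toFun g := (∫ u in i.2..(i.2 + i.1), g (pt P u)) / (i.1 : ℂ)
  map_add' g h := by
    have hi : ∀ g : C(UnitAddTorus P, ℂ), IntervalIntegrable (fun u => g (pt P u)) volume i.2 (i.2 + i.1) :=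
      fun g => (g.continuous.comp (pt_cont P)).intervalIntegrable _ _
    simp only [ContinuousMap.add_apply]
    rw [intervalIntegral.integral_add (hi g) (hi h), add_div]
  map_smul' c g := by
    simp only [ContinuousMap.smul_apply, RingHom.id_apply, smul_eq_mul]
    rw [intervalIntegral.integral_const_mul, mul_div_assoc]

/-- the mean value -/
noncomputable def Lim (P : Finset ℕ) : C(UnitAddTorus P, ℂ) →ₗ[ℂ] ℂ where
  toFun g := ∫ x, g x ∂(HP P)
  map_add' g h := by
    simp only [ContinuousMap.add_apply]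
    exact integral_add (int_ok g) (int_ok h)
  map_smul' c g := by
    simp only [ContinuousMap.smul_apply, RingHom.id_apply, smul_eq_mul]
    exact integral_const_mul _ _

theorem main : S_ERG := by
  intro P hP F hF ε hε
  have hT : ∀ g : C(UnitAddTorus P, ℂ),
      Tendsto (fun i : ℝ × ℝ => Lam P i g) (comap Prod.fst atTop) (𝓝 (Lim P g)) := by
    refine fun g => dens (C := 1) ?_ ?_ ?_ g
    · rw [eventually_comap]
      filter_upwards [eventually_gt_atTop (0 : ℝ)] with H hH i hi g
      subst hi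
      change ‖(∫ u in i.2..(i.2 + i.1), g (pt P u)) / (i.1 : ℂ)‖ ≤ 1 * ‖g‖
      rw [norm_div, Complex.norm_real, Real.norm_eq_abs, abs_of_pos hH, div_le_iff₀ hH, one_mul]
      refine (intervalIntegral.norm_integral_le_of_norm_le_const
        (fun u _ => g.norm_coe_le_norm (pt P u))).trans ?_
      rw [add_sub_cancel_left, abs_of_pos hH]
    · intro g
      change ‖∫ x, g x ∂(HP P)‖ ≤ 1 * ‖g‖
      refine (norm_integral_le_of_norm_le_const (C := ‖g‖)
        (Eventually.of_forall fun x => g.norm_coe_le_norm x)).trans ?_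
      simp
    · intro n
      by_cases hn : n = 0
      · subst hn
        have e1 : Lim P (mFourier 0) = 1 := by
          change ∫ x, (mFourier (0 : P → ℤ)) x ∂(HP P) = 1
          simp [mFourier_zero]
        rw [e1]
        refine tendsto_const_nhds.congr' ?_
        rw [EventuallyEq, eventually_comap]
        filter_upwards [eventually_gt_atTop (0 : ℝ)] with H hH i hi
        subst hi
        change 1 = (∫ u in i.2..(i.2 + i.1), (mFourier (0 : P → ℤ)) (pt P u)) / (i.1 : ℂ)
        have : (i.1 : ℂ) ≠ 0 := by exact_mod_cast hH.ne'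
        simp [mFourier_zero, this]
      · have e1 : Lim P (mFourier n) = 0 := int_mF n hn
        rw [e1]
        have hfr : fr n ≠ 0 := by
          intro h0
          apply hn
          apply lin_ind hP n
          unfold fr at h0
          linarith
        rw [tendsto_zero_iff_norm_tendsto_zero]
        have hb : Tendsto (fun i : ℝ × ℝ => 2 / |fr n| / i.1) (comap Prod.fst atTop) (𝓝 0) :=
          (tendsto_const_nhds.div_atTop tendsto_id).comp tendsto_comap
        refine squeeze_zero' (Eventually.of_forall fun i => norm_nonneg _) ?_ hb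
        rw [eventually_comap]
        filter_upwards [eventually_gt_atTop (0 : ℝ)] with H hH i hi
        subst hi
        change ‖(∫ u in i.2..(i.2 + i.1), (mFourier n) (pt P u)) / (i.1 : ℂ)‖ ≤ _
        rw [norm_div, Complex.norm_real, Real.norm_eq_abs, abs_of_pos hH]
        refine div_le_div_of_nonneg_right ?_ hH.le
        have hc : (fr n : ℂ) * I ≠ 0 := mul_ne_zero (by exact_mod_cast hfr) I_ne_zero
        simp_rw [mF_pt]
        rw [integral_exp_mul_complex hc, norm_div, norm_mul, norm_I, mul_one, Complex.norm_real,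
          Real.norm_eq_abs]
        refine div_le_div_of_nonneg_right ?_ (abs_nonneg _)
        refine (norm_sub_le _ _).trans ?_
        have hone : ∀ x : ℝ, ‖Complex.exp ((fr n : ℂ) * I * x)‖ = 1 := by
          intro x
          have : (fr n : ℂ) * I * x = ((fr n * x : ℝ) : ℂ) * I := by push_cast; ring
          rw [this, Complex.norm_exp_ofReal_mul_I]
        rw [hone, hone]; norm_num
  let G : C(UnitAddTorus P, ℂ) := ⟨fun x => (F x : ℂ), Complex.continuous_ofReal.comp hF⟩
  have h1 := hT G
  rw [Metric.tendsto_nhds] at h1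
  have h2 := h1 ε hε
  rw [eventually_comap, eventually_atTop] at h2
  obtain ⟨H0, hH0⟩ := h2
  refine ⟨max H0 1, lt_of_lt_of_le one_pos (le_max_right _ _), fun H hH t => ?_⟩
  have h3 := hH0 H ((le_max_left _ _).trans hH) (H, t) rfl
  rw [dist_eq_norm] at h3
  have e1 : Lam P (H, t) G = (((∫ u in t..(t + H), F (pt P u)) / H : ℝ) : ℂ) := by
    change (∫ u in t..(t + H), ((F (pt P u) : ℝ) : ℂ)) / (H : ℂ) = _
    rw [intervalIntegral.integral_ofReal]
    push_cast; rfl
  have e2 : Lim P G = ((∫ x, F x ∂(HP P) : ℝ) : ℂ) := by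
    change ∫ x, ((F x : ℝ) : ℂ) ∂(HP P) = _
    exact integral_ofReal
  rw [e1, e2, ← Complex.ofReal_sub, Complex.norm_real, Real.norm_eq_abs] at h3
  exact h3.le

end Pool.Agent.N748.GC.ERG
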