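import Pool.Agent.N748.GC.Stm

set_option autoImplicit false

/-!
# Continuity of the quadratic functional, basic facts on the density

Exported: `main : S_QC`, `lw_cont`, `E0_pos`, `M0_cont`, `M0_pos`, `M0_int`, `M0_integrable`, `Mc_cont`,
`Mc_nonneg`, `Mc_le_M0`, `Mc_le`, `HP_add_right`, `pt_cont`, `mz_cont`, `QK_cont`, `QK_nonneg`, `QK_abs_le`,
`Kz_meas`, `Kz_int`, `Kz_nonneg`.
-/

namespace Pool.Agent.N748.GC.QC

open Finset Filter MeasureTheory Topology Complex

theorem norm_fourier_one (y : UnitAddCircle) : ‖(fourier 1 y : ℂ)‖ = 1 := by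
  rw [fourier_apply]; exact Circle.norm_coe _

theorem norm_pos_aux {p : ℕ} (hp : 2 ≤ p) (y : UnitAddCircle) :
    0 < ‖1 - (fourier 1 y : ℂ) * (((p:ℝ) ^ (-(1 / 2 : ℝ)) : ℝ) : ℂ)‖ := by
  have h1 : ‖(fourier 1 y : ℂ) * (((p:ℝ) ^ (-(1 / 2 : ℝ)) : ℝ) : ℂ)‖ < 1 := by
    rw [norm_mul, norm_fourier_one, one_mul, Complex.norm_real, Real.norm_of_nonneg (by positivity)]
    exact Real.rpow_lt_one_of_one_lt_of_neg (by exact_mod_cast hp) (by norm_num)
  rw [norm_pos_iff, sub_ne_zero]
  intro h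
  rw [← h] at h1
  simp at h1

theorem lw_cont (α : ℝ) {p : ℕ} (hp : 2 ≤ p) : Continuous (lw α p) := by
  unfold lw
  refine continuous_const.mul (Continuous.log ?_ fun y => (norm_pos_aux hp y).ne')
  exact (continuous_const.sub ((map_continuous (fourier 1)).mul continuous_const)).norm

theorem integrable_exp_lw (α : ℝ) {p : ℕ} (hp : 2 ≤ p) :
    Integrable (fun y => Real.exp (lw α p y)) (AddCircle.haarAddCircle (T := (1:ℝ))) :=
  (Real.continuous_exp.comp (lw_cont α hp)).integrable_of_hasCompactSupport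
    (HasCompactSupport.of_compactSpace _)

theorem E0_pos (α : ℝ) {P : Finset ℕ} (hP : ∀ p ∈ P, p.Prime) : 0 < E0 α P := by
  unfold E0
  refine Finset.prod_pos fun p _ => ?_
  exact integral_exp_pos (integrable_exp_lw α (hP p p.2).two_le)

theorem M0_cont (α : ℝ) {P : Finset ℕ} (hP : ∀ p ∈ P, p.Prime) : Continuous (M0 α P) := by
  unfold M0
  refine Continuous.div_const (Real.continuous_exp.comp ?_) _
  refine continuous_finsetSum _ fun p _ => ?_
  exact (lw_cont α (hP p p.2).two_le).comp (continuous_apply p)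

theorem M0_pos (α : ℝ) {P : Finset ℕ} (hP : ∀ p ∈ P, p.Prime) (x : UnitAddTorus P) : 0 < M0 α P x :=
  div_pos (Real.exp_pos _) (E0_pos α hP)

theorem M0_integrable (α : ℝ) {P : Finset ℕ} (hP : ∀ p ∈ P, p.Prime) : Integrable (M0 α P) (HP P) :=
  (M0_cont α hP).integrable_of_hasCompactSupport (HasCompactSupport.of_compactSpace _)

/-- the density has mean value `1` -/
theorem M0_int (α : ℝ) {P : Finset ℕ} (hP : ∀ p ∈ P, p.Prime) : ∫ x, M0 α P x ∂(HP P) = 1 := by
  unfold M0
  rw [integral_div]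
  have h1 : ∫ x, Real.exp (∑ p : P, lw α p (x p)) ∂(HP P) = E0 α P := by
    have h2 : (fun x : UnitAddTorus P => Real.exp (∑ p : P, lw α p (x p)))
        = fun x : UnitAddTorus P => ∏ p : P, Real.exp (lw α p (x p)) := by
      funext x
      rw [Real.exp_sum]
    rw [h2]
    unfold HP E0
    exact integral_fintype_prod_eq_prod (𝕜 := ℝ) (fun (p : P) (y : UnitAddCircle) => Real.exp (lw α p y))
  rw [h1, div_self (E0_pos α hP).ne']

theorem Sm_prime (z : ℕ) : ∀ p ∈ Sm z, p.Prime := fun _ hp => (mem_filter.1 hp).2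

theorem ct_cont (B : ℝ) : Continuous (ct B) := by
  unfold ct; fun_prop

theorem ct_nonneg (B v : ℝ) : 0 ≤ ct B v := le_max_left _ _

theorem ct_le_one (B v : ℝ) : ct B v ≤ 1 := max_le zero_le_one (min_le_left _ _)

theorem mul_ct_le {B v : ℝ} (hB : 0 < B) (hv : 0 ≤ v) : v * ct B v ≤ B := by
  unfold ct
  rcases le_total (min 1 (2 - v / B)) 0 with h | h
  · rw [max_eq_left h]; simpa using hB.le
  · rw [max_eq_right h]
    rcases le_total v B with h1 | h1
    · calc v * min 1 (2 - v / B) ≤ v * 1 := by gcongr; exact min_le_left _ _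
        _ ≤ B := by linarith
    · calc v * min 1 (2 - v / B) ≤ v * (2 - v / B) := by gcongr; exact min_le_right _ _
        _ ≤ B := by
          have h2 : v = B * (v / B) := by field_simp
          set s := v / B
          rw [h2]
          nlinarith [mul_nonneg hB.le (sq_nonneg (s - 1))]

theorem Mc_cont (α b : ℝ) (z : ℕ) : Continuous (Mc α b z) := by
  unfold Mc
  exact (M0_cont α (Sm_prime z)).mul ((ct_cont _).comp (M0_cont α (Sm_prime z)))

theorem Mc_nonneg (α b : ℝ) (z : ℕ) (x : UnitAddTorus (Sm z)) : 0 ≤ Mc α b z x :=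
  mul_nonneg (M0_pos α (Sm_prime z) x).le (ct_nonneg _ _)

theorem Mc_le_M0 (α b : ℝ) (z : ℕ) (x : UnitAddTorus (Sm z)) : Mc α b z x ≤ M0 α (Sm z) x := by
  unfold Mc
  exact mul_le_of_le_one_right (M0_pos α (Sm_prime z) x).le (ct_le_one _ _)

theorem one_lt_log {z : ℕ} (hz : 3 ≤ z) : 1 < Real.log z := by
  rw [Real.lt_log_iff_exp_lt (by positivity)]
  have : (3:ℝ) ≤ z := by exact_mod_cast hz
  linarith [Real.exp_one_lt_d9]

theorem Mc_le (α b : ℝ) {z : ℕ} (hz : 3 ≤ z) (x : UnitAddTorus (Sm z)) : Mc α b z x ≤ Real.log z ^ b :=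
  mul_ct_le (Real.rpow_pos_of_pos (by linarith [one_lt_log hz]) _) (M0_pos α (Sm_prime z) x).le

/-- the uniform measure is invariant under translations -/
theorem HP_add_right (P : Finset ℕ) (y : UnitAddTorus P) :
    MeasurePreserving (fun x => x + y) (HP P) (HP P) := by
  unfold HP
  exact measurePreserving_add_right _ y

theorem pt_cont (P : Finset ℕ) : Continuous (pt P) := by
  unfold pt
  refine continuous_pi fun p => ?_
  exact (AddCircle.continuous_mk' (1:ℝ)).comp (by fun_prop)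

theorem mz_cont (α : ℝ) (z : ℕ) : Continuous (mz α z) := by
  unfold mz
  exact (M0_cont α (Sm_prime z)).comp (pt_cont _)

/-! ### the quadratic functional -/

section

variable {α b B : ℝ} {z : ℕ} {K : ℝ → ℝ}

theorem int_sub {u : ℝ} (hu : u ∈ Set.Icc (0:ℝ) 1) (hK : IntervalIntegrable K volume (-1) 1) :
    IntervalIntegrable (fun v => K (u - v)) volume 0 1 := by
  have h := hK.comp_sub_left u (by finiteness)
  refine h.mono_set ?_
  rw [Set.uIcc_of_le zero_le_one, Set.uIcc_of_ge (by linarith)]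
  exact Set.Icc_subset_Icc (by linarith [hu.2]) (by linarith [hu.1])

theorem int_sub_le {u : ℝ} (hu : u ∈ Set.Icc (0:ℝ) 1) (hK : IntervalIntegrable K volume (-1) 1) :
    ∫ v in (0:ℝ)..1, |K (u - v)| ≤ ∫ h in (-1:ℝ)..1, |K h| := by
  rw [intervalIntegral.integral_comp_sub_left (fun h => |K h|) u]
  refine intervalIntegral.integral_mono_interval (by linarith [hu.1]) (by linarith) (by linarith [hu.2])
    (Eventually.of_forall fun h => abs_nonneg _) hK.abs

/-- the integrand -/
noncomputable def Fq (α b : ℝ) (z : ℕ) (K : ℝ → ℝ) (x : UnitAddTorus (Sm z)) (u v : ℝ) : ℝ :=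
  Mc α b z (x + pt (Sm z) u) * Mc α b z (x + pt (Sm z) v) * K (u - v)

theorem QK_eq (x : UnitAddTorus (Sm z)) :
    QK α b z K x = ∫ u in (0:ℝ)..1, ∫ v in (0:ℝ)..1, Fq α b z K x u v := rfl

theorem Fq_meas (hKm : Measurable K) (x : UnitAddTorus (Sm z)) :
    Measurable (fun q : ℝ × ℝ => Fq α b z K x q.1 q.2) := by
  unfold Fq
  have h1 : Continuous fun q : ℝ × ℝ => Mc α b z (x + pt (Sm z) q.1) :=
    (Mc_cont α b z).comp (continuous_const.add ((pt_cont _).comp continuous_fst))
  have h2 : Continuous fun q : ℝ × ℝ => Mc α b z (x + pt (Sm z) q.2) :=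
    (Mc_cont α b z).comp (continuous_const.add ((pt_cont _).comp continuous_snd))
  exact (h1.measurable.mul h2.measurable).mul (hKm.comp (measurable_fst.sub measurable_snd))

theorem Fq_le (hz : 3 ≤ z) (x : UnitAddTorus (Sm z)) (u v : ℝ) :
    ‖Fq α b z K x u v‖ ≤ Real.log z ^ b * Real.log z ^ b * |K (u - v)| := by
  unfold Fq
  have h1 := Mc_nonneg α b z (x + pt (Sm z) u)
  have h2 := Mc_nonneg α b z (x + pt (Sm z) v)
  have h3 := Mc_le α b hz (x + pt (Sm z) u)
  have h4 := Mc_le α b hz (x + pt (Sm z) v)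
  rw [Real.norm_eq_abs, abs_mul, abs_mul, abs_of_nonneg h1, abs_of_nonneg h2]
  gcongr

theorem Fq_int (hz : 3 ≤ z) (hKm : Measurable K) (hK : IntervalIntegrable K volume (-1) 1)
    (x : UnitAddTorus (Sm z)) {u : ℝ} (hu : u ∈ Set.Icc (0:ℝ) 1) :
    IntervalIntegrable (fun v => Fq α b z K x u v) volume 0 1 := by
  refine ((int_sub hu hK).abs.const_mul (Real.log z ^ b * Real.log z ^ b)).mono_fun' ?_ ?_
  · exact ((Fq_meas hKm x).comp (measurable_const.prodMk measurable_id)).aestronglyMeasurable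
  · exact Eventually.of_forall fun v => Fq_le hz x u v

theorem inner_le (hz : 3 ≤ z) (hK : IntervalIntegrable K volume (-1) 1)
    (x : UnitAddTorus (Sm z)) {u : ℝ} (hu : u ∈ Set.Icc (0:ℝ) 1) :
    ‖∫ v in (0:ℝ)..1, Fq α b z K x u v‖
      ≤ Real.log z ^ b * Real.log z ^ b * ∫ h in (-1:ℝ)..1, |K h| := by
  calc ‖∫ v in (0:ℝ)..1, Fq α b z K x u v‖
      ≤ ∫ v in (0:ℝ)..1, Real.log z ^ b * Real.log z ^ b * |K (u - v)| := by
        refine intervalIntegral.norm_integral_le_of_norm_le zero_le_one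
          (Eventually.of_forall fun v _ => Fq_le hz x u v) ?_
        exact (int_sub hu hK).abs.const_mul _
    _ = Real.log z ^ b * Real.log z ^ b * ∫ v in (0:ℝ)..1, |K (u - v)| :=
        intervalIntegral.integral_const_mul _ _
    _ ≤ _ := by
        have h1 := int_sub_le hu hK
        have h2 : 0 ≤ Real.log z ^ b * Real.log z ^ b := mul_self_nonneg _
        exact mul_le_mul_of_nonneg_left h1 h2

theorem inner_meas (hKm : Measurable K) (x : UnitAddTorus (Sm z)) :
    StronglyMeasurable fun u => ∫ v in (0:ℝ)..1, Fq α b z K x u v := by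
  have h1 : StronglyMeasurable (fun q : ℝ × ℝ => Fq α b z K x q.1 q.2) :=
    (Fq_meas hKm x).stronglyMeasurable
  have h2 := h1.integral_prod_right' (ν := volume.restrict (Set.Ioc (0:ℝ) 1))
  have h3 : (fun u => ∫ v in (0:ℝ)..1, Fq α b z K x u v)
      = fun u => ∫ v, Fq α b z K x u v ∂(volume.restrict (Set.Ioc (0:ℝ) 1)) := by
    funext u
    exact intervalIntegral.integral_of_le zero_le_one
  rw [h3]
  exact h2

/-- continuity of the quadratic functional -/
theorem QK_cont (hz : 3 ≤ z) (hKm : Measurable K) (hK : IntervalIntegrable K volume (-1) 1) :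
    Continuous (QK α b z K) := by
  have h0 : QK α b z K = fun x => ∫ u in (0:ℝ)..1, ∫ v in (0:ℝ)..1, Fq α b z K x u v := rfl
  rw [h0]
  refine intervalIntegral.continuous_of_dominated_interval
    (bound := fun _ => Real.log z ^ b * Real.log z ^ b * ∫ h in (-1:ℝ)..1, |K h|)
    (fun x => (inner_meas hKm x).aestronglyMeasurable) ?_ intervalIntegrable_const ?_
  · intro x
    refine Eventually.of_forall fun u hu => ?_
    rw [Set.uIoc_of_le zero_le_one] at hu
    exact inner_le hz hK x ⟨hu.1.le, hu.2⟩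
  · refine Eventually.of_forall fun u hu => ?_
    rw [Set.uIoc_of_le zero_le_one] at hu
    refine intervalIntegral.continuous_of_dominated_interval
      (bound := fun v => Real.log z ^ b * Real.log z ^ b * |K (u - v)|) ?_ ?_ ?_ ?_
    · intro x
      exact ((Fq_meas hKm x).comp (measurable_const.prodMk measurable_id)).aestronglyMeasurable
    · exact fun x => Eventually.of_forall fun v _ => Fq_le hz x u v
    · exact (int_sub ⟨hu.1.le, hu.2⟩ hK).abs.const_mul _
    · refine Eventually.of_forall fun v _ => ?_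
      unfold Fq
      have h1 : Continuous fun x : UnitAddTorus (Sm z) => Mc α b z (x + pt (Sm z) u) :=
        (Mc_cont α b z).comp (continuous_id.add continuous_const)
      have h2 : Continuous fun x : UnitAddTorus (Sm z) => Mc α b z (x + pt (Sm z) v) :=
        (Mc_cont α b z).comp (continuous_id.add continuous_const)
      exact (h1.mul h2).mul continuous_const

theorem QK_abs_le (hz : 3 ≤ z) (hK : IntervalIntegrable K volume (-1) 1)
    (x : UnitAddTorus (Sm z)) :
    |QK α b z K x| ≤ Real.log z ^ b * Real.log z ^ b * ∫ h in (-1:ℝ)..1, |K h| := by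
  rw [QK_eq]
  have h := intervalIntegral.norm_integral_le_of_norm_le_const (a := (0:ℝ)) (b := 1)
    (f := fun u => ∫ v in (0:ℝ)..1, Fq α b z K x u v)
    (C := Real.log z ^ b * Real.log z ^ b * ∫ h in (-1:ℝ)..1, |K h|) (fun u hu => by
      rw [Set.uIoc_of_le zero_le_one] at hu
      exact inner_le hz hK x ⟨hu.1.le, hu.2⟩)
  simpa using h

theorem QK_nonneg (hK0 : ∀ h, 0 ≤ K h) (x : UnitAddTorus (Sm z)) : 0 ≤ QK α b z K x := by
  rw [QK_eq]
  refine intervalIntegral.integral_nonneg zero_le_one fun u _ => ?_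
  refine intervalIntegral.integral_nonneg zero_le_one fun v _ => ?_
  exact mul_nonneg (mul_nonneg (Mc_nonneg _ _ _ _) (Mc_nonneg _ _ _ _)) (hK0 _)

end

/-! ### the kernel -/

theorem Kz_meas (C ζ κ e : ℝ) (z : ℕ) : Measurable (Kz C ζ κ e z) := by
  unfold Kz
  refine Measurable.ite (measurableSet_le (by fun_prop) measurable_const) (by fun_prop)
    (Measurable.ite (measurableSet_le (by fun_prop) measurable_const) measurable_const measurable_const)

theorem Kz_nonneg {C ζ κ e : ℝ} (hC : 0 ≤ C) (he : 0 ≤ e) (z : ℕ) (h : ℝ) : 0 ≤ Kz C ζ κ e z h := by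
  unfold Kz
  have hL : 0 ≤ Real.log (z:ℝ) := Real.log_natCast_nonneg z
  split_ifs
  · positivity
  · exact hC
  · exact he

theorem int_abs_rpow {ζ : ℝ} (hζ : ζ < 1) : IntervalIntegrable (fun h : ℝ => |h| ^ (-ζ)) volume (-1) 1 := by
  have h1 : IntervalIntegrable (fun h : ℝ => |h| ^ (-ζ)) volume 0 1 := by
    refine (intervalIntegral.intervalIntegrable_rpow' (a := 0) (b := 1) (r := -ζ) (by linarith)).congr ?_
    intro h hh
    rw [Set.uIoc_of_le zero_le_one] at hh
    simp only
    rw [abs_of_pos hh.1]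
  have h2 : IntervalIntegrable (fun h : ℝ => |h| ^ (-ζ)) volume (-1) 0 := by
    rw [IntervalIntegrable.iff_comp_neg, neg_zero, neg_neg]
    simpa [abs_neg] using h1.symm
  exact h2.trans h1

theorem Kz_int {C ζ κ e : ℝ} (hζ0 : 0 < ζ) (hζ : ζ < 1) {z : ℕ} (hz : 3 ≤ z) :
    IntervalIntegrable (Kz C ζ κ e z) volume (-1) 1 := by
  have hL : 0 < Real.log z := by linarith [one_lt_log hz]
  have h1 : IntervalIntegrable (fun h : ℝ => |C| * (Real.log z) ^ (-ζ) * |h| ^ (-ζ) + (|C| + |e|))
      volume (-1) 1 := ((int_abs_rpow hζ).const_mul _).add intervalIntegrable_const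
  refine h1.mono_fun' (Kz_meas C ζ κ e z).aestronglyMeasurable (Eventually.of_forall fun h => ?_)
  have h2 : 0 ≤ |C| * (Real.log z) ^ (-ζ) * |h| ^ (-ζ) := by positivity
  unfold Kz
  simp only [Real.norm_eq_abs]
  split_ifs
  · rw [abs_mul, abs_of_nonneg (by positivity : (0:ℝ) ≤ (|h| * Real.log z) ^ (-ζ)),
      Real.mul_rpow (abs_nonneg h) hL.le]
    have : |C| * (|h| ^ (-ζ) * Real.log z ^ (-ζ)) = |C| * (Real.log z) ^ (-ζ) * |h| ^ (-ζ) := by ring
    rw [this]
    have := abs_nonneg C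
    have := abs_nonneg e
    linarith
  · have := abs_nonneg e
    linarith
  · have := abs_nonneg C
    linarith

theorem main : Pool.Agent.N748.GC.S_QC := by
  intro α _ b z hz C ζ κ e h0 h1
  exact QK_cont hz (Kz_meas C ζ κ e z) (Kz_int h0 h1 hz)

end Pool.Agent.N748.GC.QC
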