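import Pool.Agent.N748.GC.L2
import Pool.Agent.N748.GC.QC
import Pool.Agent.N748.GC.ASM
import Pool.Agent.N748.GC.ERG

/-!
# From the bounds for the weights to windows of length `δ^(-θ)` (GC2/ASM2)

Exported: `main : S_ASM2`.
-/

set_option autoImplicit false

namespace Pool.Agent.N748.GC.ASM2

open Filter MeasureTheory Topology
open Pool.Agent.N748.GC.ASM (LB m1 intprod m1_mem m1_int K_prod Xl_le)

theorem scale {T1 T2 H : ℝ} (hH : 0 < H) (F : ℝ → ℝ) :
    ∫ s in (T1 / H)..(T2 / H), F (H * s) = H⁻¹ * ∫ t in T1..T2, F t := by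
  rw [intervalIntegral.integral_comp_mul_left _ hH.ne', smul_eq_mul]
  rw [mul_div_cancel₀ _ hH.ne', mul_div_cancel₀ _ hH.ne']

/-- the second moment argument on windows of length `H` -/
theorem core2 {T1 T2 H s0 : ℝ} (hT : T1 ≤ T2) (hH : 0 < H) (hs0 : 0 < s0)
    {m mc W g : ℝ → ℝ} {B : ℝ × ℝ → ℝ} {a b c : ℝ}
    (hm : Continuous m) (hmc : Continuous mc) (h0 : ∀ x, 0 ≤ mc x) (hle : ∀ x, mc x ≤ m x)
    (hW : Continuous W) (hW0 : ∀ x, 0 ≤ W x) (hg : Measurable g) (hg0 : ∀ x, 0 ≤ g x)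
    (hg1 : ∀ x, g x ≤ 1)
    (h1 : ∀ u, ∫ t in T1..T2, mc (t + u) * (W (t + u) * (1 - g (t + u))) ≤ a)
    (h2 : ∀ u, ∫ t in T1..T2, (m (t + u) - mc (t + u)) * (W (t + u) + 1) ≤ b)
    (hB : Integrable B (m1.prod m1)) (hB0 : ∀ p, 0 ≤ B p) (hBc : ∫ p, B p ∂(m1.prod m1) ≤ c)
    (h3 : ∀ x ∈ Set.Icc (0:ℝ) 1, ∀ y ∈ Set.Icc (0:ℝ) 1, x ≠ y →
      ∫ t in T1..T2, mc (t + H * x) * mc (t + H * y) *
        ((W (t + H * x) * g (t + H * x) - 1) * (W (t + H * y) * g (t + H * y) - 1)) ≤ B (x, y)) :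
    ∫ t in T1..T2, |H⁻¹ * ∫ u in (0:ℝ)..H, m (t + u) * (W (t + u) - 1)| ≤
      a + b + (c / s0 + s0 * (T2 - T1)) / 2 := by
  have hT' : T1 / H ≤ T2 / H := by gcongr
  have hHm : Continuous (fun s : ℝ => H * s) := continuous_const.mul continuous_id
  have key := ASM.core (T1 := T1 / H) (T2 := T2 / H) hT' (f := fun _ => 1)
    (m := fun s => m (H * s)) (mc := fun s => mc (H * s)) (W := fun s => W (H * s))
    (g := fun s => g (H * s)) (Dt := fun _ => s0) (B := fun p => B p / (s0 * H))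
    (a := a / H) (b := b / H) (c := c / (s0 * H)) (d := s0 * (T2 / H - T1 / H)) (ε := s0)
    measurable_const (fun _ => zero_le_one) (fun _ => le_rfl) (hm.comp hHm) (hmc.comp hHm)
    (fun x => h0 _) (fun x => hle _) (hW.comp hHm) (fun x => hW0 _) (hg.comp hHm.measurable)
    (fun x => hg0 _) (fun x => hg1 _) continuous_const hs0 (fun _ => le_rfl)
    ?_ ?_ ?_ ?_ ?_ ?_ ?_
  · set Φ : ℝ → ℝ := fun t => |H⁻¹ * ∫ u in (0:ℝ)..H, m (t + u) * (W (t + u) - 1)| with hΦ
    have e1 : ∫ t in (T1 / H)..(T2 / H), |∫ x in (0:ℝ)..1, (fun _ => (1:ℝ)) x *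
        ((fun s => m (H * s)) (t + x) * ((fun s => W (H * s)) (t + x) - 1))|
        = ∫ s in (T1 / H)..(T2 / H), Φ (H * s) := by
      refine intervalIntegral.integral_congr fun s _ => ?_
      simp only [hΦ]
      congr 1
      have e2 := intervalIntegral.integral_comp_mul_left (a := (0:ℝ)) (b := 1)
        (f := fun u => m (H * s + u) * (W (H * s + u) - 1)) hH.ne'
      rw [mul_zero, mul_one, smul_eq_mul] at e2
      rw [← e2]
      refine intervalIntegral.integral_congr fun x _ => ?_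
      simp only [one_mul, mul_add]
    rw [e1, scale hH] at key
    have e3 : a / H + b / H + (c / (s0 * H) + s0 * (T2 / H - T1 / H)) / 2
        = H⁻¹ * (a + b + (c / s0 + s0 * (T2 - T1)) / 2) := by
      field_simp
    rw [e3] at key
    exact le_of_mul_le_mul_left key (by positivity)
  · intro x _
    have e := scale (T1 := T1) (T2 := T2) hH (fun t => mc (t + H * x) * (W (t + H * x) * (1 - g (t + H * x))))
    simp only [mul_add]
    rw [e, inv_mul_eq_div]
    gcongr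
    exact h1 _
  · intro x _
    have e := scale (T1 := T1) (T2 := T2) hH (fun t => (m (t + H * x) - mc (t + H * x)) * (W (t + H * x) + 1))
    simp only [mul_add] at e ⊢
    rw [e, inv_mul_eq_div]
    gcongr
    have := h2 (H * x)
    simp only [mul_add] at this
    exact this
  · exact hB.div_const _
  · intro p
    have := hB0 p
    positivity
  · rw [integral_div]
    gcongr
  · intro x hx y hy hxy
    have e := scale (T1 := T1) (T2 := T2) hH (fun t => mc (t + H * x) * mc (t + H * y) / s0 *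
        ((W (t + H * x) * g (t + H * x) - 1) * (W (t + H * y) * g (t + H * y) - 1)))
    have e1 : ∫ t in (T1 / H)..(T2 / H), mc (H * (t + x)) * mc (H * (t + y)) / s0 *
        ((W (H * (t + x)) * g (H * (t + x)) - 1) * (W (H * (t + y)) * g (H * (t + y)) - 1))
        = ∫ s in (T1 / H)..(T2 / H), mc (H * s + H * x) * mc (H * s + H * y) / s0 *
        ((W (H * s + H * x) * g (H * s + H * x) - 1) * (W (H * s + H * y) * g (H * s + H * y) - 1)) := by
      refine intervalIntegral.integral_congr fun s _ => ?_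
      simp only [mul_add H]
    show ∫ t in (T1 / H)..(T2 / H), mc (H * (t + x)) * mc (H * (t + y)) / s0 *
        ((W (H * (t + x)) * g (H * (t + x)) - 1) * (W (H * (t + y)) * g (H * (t + y)) - 1)) ≤ _
    rw [e1, e]
    have e2 : ∫ t in T1..T2, mc (t + H * x) * mc (t + H * y) / s0 *
        ((W (t + H * x) * g (t + H * x) - 1) * (W (t + H * y) * g (t + H * y) - 1))
        = (∫ t in T1..T2, mc (t + H * x) * mc (t + H * y) *
        ((W (t + H * x) * g (t + H * x) - 1) * (W (t + H * y) * g (t + H * y) - 1))) / s0 := by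
      rw [← intervalIntegral.integral_div]
      refine intervalIntegral.integral_congr fun s _ => ?_
      ring
    rw [e2]
    have := h3 x hx y hy hxy
    calc H⁻¹ * ((∫ t in T1..T2, mc (t + H * x) * mc (t + H * y) *
        ((W (t + H * x) * g (t + H * x) - 1) * (W (t + H * y) * g (t + H * y) - 1))) / s0)
        ≤ H⁻¹ * (B (x, y) / s0) := by gcongr
      _ = B (x, y) / (s0 * H) := by field_simp
  · rw [intervalIntegral.integral_const, smul_eq_mul, mul_comm]

/-- even kernels on the square -/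
theorem ker_sq {K : ℝ → ℝ} (hK : LB K) (hK0 : ∀ h, 0 ≤ K h) (hKe : ∀ h, K (-h) = K h) {H : ℝ}
    (hH : 0 < H) :
    Integrable (fun p : ℝ × ℝ => K (H * (p.1 - p.2))) (m1.prod m1) ∧
    ∫ p : ℝ × ℝ, K (H * (p.1 - p.2)) ∂(m1.prod m1) ≤ 2 / H * ∫ h in (0:ℝ)..H, K h := by
  set K' : ℝ → ℝ := fun h => K (H * h) with hK'
  have hKm : Measurable K' := hK.m.comp (measurable_const.mul measurable_id)
  have hL' : LB K' := by
    refine ⟨hKm, fun R => ?_⟩
    obtain ⟨Bd, h0, h1⟩ := hK.b (H * R)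
    refine ⟨Bd, h0, fun s hs => h1 _ ?_⟩
    rw [abs_mul, abs_of_pos hH]
    gcongr
  have hKi : IntervalIntegrable K' volume (-1) 1 := hL'.ii _ _
  have hp : Integrable (fun p : ℝ × ℝ => K' (p.1 - p.2)) (m1.prod m1) := K_prod hKm hKi
  refine ⟨hp, ?_⟩
  have e0 : ∫ h in (-1:ℝ)..1, |K' h| = 2 / H * ∫ h in (0:ℝ)..H, K h := by
    have e1 : ∫ h in (-1:ℝ)..1, |K' h| = ∫ h in (-1:ℝ)..1, K' h := by
      refine intervalIntegral.integral_congr fun h _ => ?_
      exact abs_of_nonneg (hK0 _)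
    have e2 : ∫ h in (-1:ℝ)..0, K' h = ∫ h in (0:ℝ)..1, K' h := by
      have := intervalIntegral.integral_comp_neg (a := (0:ℝ)) (b := 1) (f := K')
      rw [neg_zero] at this
      rw [← this]
      refine intervalIntegral.integral_congr fun h _ => ?_
      simp only [hK', mul_neg, hKe]
    have e3 : ∫ h in (0:ℝ)..1, K' h = H⁻¹ * ∫ h in (0:ℝ)..H, K h := by
      have := intervalIntegral.integral_comp_mul_left (a := (0:ℝ)) (b := 1) (f := K) hH.ne'
      rw [mul_zero, mul_one, smul_eq_mul] at this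
      exact this
    rw [e1, ← intervalIntegral.integral_add_adjacent_intervals (hL'.ii (-1) 0) (hL'.ii 0 1), e2, e3]
    field_simp
    ring
  rw [← e0]
  change ∫ p : ℝ × ℝ, K' (p.1 - p.2) ∂(m1.prod m1) ≤ _
  rw [integral_prod _ hp]
  calc ∫ x, ∫ y, K' (x - y) ∂m1 ∂m1 ≤ ∫ x, (∫ h in (-1:ℝ)..1, |K' h|) ∂m1 := by
        refine integral_mono_ae hp.integral_prod_left (integrable_const _) ?_
        filter_upwards [m1_mem] with x hx
        have h := QC.int_sub_le (Set.Ioc_subset_Icc_self hx) hKi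
        rw [intervalIntegral.integral_of_le zero_le_one] at h
        refine le_trans (le_of_eq ?_) h
        refine integral_congr_ae (Eventually.of_forall fun y => ?_)
        simp only
        exact (abs_of_nonneg (hK0 _)).symm
    _ = _ := m1_int _

/-- the singular part of the kernel -/
theorem near_int {ζ δ : ℝ} (hζ : 1 < ζ) (hδ : 0 < δ) (hδ1 : δ ≤ 1) :
    ∫ h in (0:ℝ)..1, (max |h| δ) ^ (-ζ) ≤ ζ / (ζ - 1) * δ ^ (1 - ζ) := by
  have hc : Continuous (fun h : ℝ => (max |h| δ) ^ (-ζ)) := by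
    refine Continuous.rpow_const (continuous_abs.max continuous_const) fun h => Or.inl ?_
    exact (lt_max_of_lt_right hδ).ne'
  have i1 := hc.intervalIntegrable (μ := volume) 0 δ
  have i2 := hc.intervalIntegrable (μ := volume) δ 1
  rw [← intervalIntegral.integral_add_adjacent_intervals i1 i2]
  have e1 : ∫ h in (0:ℝ)..δ, (max |h| δ) ^ (-ζ) = δ ^ (1 - ζ) := by
    have : ∫ h in (0:ℝ)..δ, (max |h| δ) ^ (-ζ) = ∫ h in (0:ℝ)..δ, δ ^ (-ζ) := by
      refine intervalIntegral.integral_congr fun h hh => ?_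
      rw [Set.uIcc_of_le hδ.le] at hh
      rw [abs_of_nonneg hh.1, max_eq_right hh.2]
    rw [this, intervalIntegral.integral_const, smul_eq_mul, sub_zero]
    rw [show (1 - ζ) = 1 + (-ζ) by ring, Real.rpow_add hδ, Real.rpow_one]
  have e2 : ∫ h in δ..1, (max |h| δ) ^ (-ζ) = (δ ^ (1 - ζ) - 1) / (ζ - 1) := by
    have : ∫ h in δ..1, (max |h| δ) ^ (-ζ) = ∫ h in δ..1, h ^ (-ζ) := by
      refine intervalIntegral.integral_congr fun h hh => ?_
      rw [Set.uIcc_of_le hδ1] at hh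
      rw [abs_of_nonneg (hδ.le.trans hh.1), max_eq_left hh.1]
    rw [this, integral_rpow (Or.inr ⟨by linarith, ?_⟩)]
    · rw [Real.one_rpow, show -ζ + 1 = -(ζ - 1) by ring, show 1 - ζ = -(ζ - 1) by ring]
      have : ζ - 1 ≠ 0 := by linarith
      field_simp
      ring
    · rw [Set.uIcc_of_le hδ1]
      exact fun h => absurd h.1 (not_le.mpr hδ)
  rw [e1, e2]
  have h1 : 0 < ζ - 1 := by linarith
  have e3 : ζ / (ζ - 1) * δ ^ (1 - ζ) = δ ^ (1 - ζ) + δ ^ (1 - ζ) / (ζ - 1) := by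
    field_simp
    ring
  rw [e3]
  gcongr
  linarith

section abstract

variable {E : Type} [TopologicalSpace E] [CompactSpace E] [SecondCountableTopology E]
    [AddCommGroup E] [ContinuousAdd E] [MeasurableSpace E] [BorelSpace E]

/-- the mean square of the average of the density over long windows -/
theorem mean2 (ν : Measure E) [IsProbabilityMeasure ν]
    (pt : ℝ → E) (hpt : Continuous pt) (pt_add : ∀ s t, pt (s + t) = pt s + pt t)
    (herg : ∀ F : E → ℝ, Continuous F → ∀ ε : ℝ, 0 < ε → ∃ H0 : ℝ, 0 < H0 ∧ ∀ H ≥ H0, ∀ t : ℝ,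
      |(∫ u in t..(t + H), F (pt u)) / H - ∫ x, F x ∂ν| ≤ ε)
    (Mc : E → ℝ) (hMc : Continuous Mc) (hMc0 : ∀ x, 0 ≤ Mc x) (hMc1 : ∫ x, Mc x ∂ν ≤ 1) :
    ∃ H1 : ℝ, 0 < H1 ∧ ∀ H ≥ H1,
      Integrable (fun p : ℝ × ℝ => ∫ w, Mc (w + pt (H * p.1)) * Mc (w + pt (H * p.2)) ∂ν) (m1.prod m1) ∧
      ∫ p : ℝ × ℝ, (∫ w, Mc (w + pt (H * p.1)) * Mc (w + pt (H * p.2)) ∂ν) ∂(m1.prod m1) ≤ 2 := by
  obtain ⟨H1, hH1, h1⟩ := herg Mc hMc (1 / 4) (by norm_num)
  refine ⟨H1, hH1, fun H hH => ?_⟩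
  have hHp : 0 < H := hH1.trans_le hH
  obtain ⟨Bc, hBc⟩ : ∃ Bc : ℝ, ∀ x, |Mc x| ≤ Bc := by
    obtain ⟨Bc, hBc⟩ := (isCompact_univ (X := E)).exists_bound_of_continuousOn
      hMc.continuousOn
    exact ⟨Bc, fun x => hBc x (Set.mem_univ _)⟩
  have hBc0 : 0 ≤ Bc := (abs_nonneg _).trans (hBc 0)
  set G : (ℝ × ℝ) × E → ℝ := fun q => Mc (q.2 + pt (H * q.1.1)) * Mc (q.2 + pt (H * q.1.2)) with hG
  have hGc : Continuous G := by
    refine Continuous.mul ?_ ?_
    · exact hMc.comp (continuous_snd.add (hpt.comp (continuous_const.mul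
        (continuous_fst.comp continuous_fst))))
    · exact hMc.comp (continuous_snd.add (hpt.comp (continuous_const.mul
        (continuous_snd.comp continuous_fst))))
  have hGi : Integrable G ((m1.prod m1).prod ν) := by
    refine Integrable.of_bound hGc.aestronglyMeasurable (Bc * Bc) (Eventually.of_forall fun q => ?_)
    rw [Real.norm_eq_abs, abs_mul]
    have h1 := hBc (q.2 + pt (H * q.1.1))
    have h2 := hBc (q.2 + pt (H * q.1.2))
    gcongr
  refine ⟨hGi.integral_prod_left, ?_⟩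
  have e1 : ∫ p : ℝ × ℝ, (∫ w, Mc (w + pt (H * p.1)) * Mc (w + pt (H * p.2)) ∂ν) ∂(m1.prod m1)
      = ∫ w, ∫ p, G (p, w) ∂(m1.prod m1) ∂ν :=
    integral_integral_swap (f := fun (p : ℝ × ℝ) w => G (p, w)) hGi
  rw [e1]
  set A : E → ℝ := fun w => ∫ x, Mc (w + pt (H * x)) ∂m1 with hA
  have e2 : ∀ w, ∫ p, G (p, w) ∂(m1.prod m1) = A w ^ 2 := by
    intro w
    simp only [hG]
    rw [integral_prod_mul (fun x => Mc (w + pt (H * x))) (fun x => Mc (w + pt (H * x))), sq]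
  simp only [e2]
  have hAc : Continuous A := by
    refine continuous_of_dominated (bound := fun _ => Bc) ?_ ?_ (integrable_const _) ?_
    · intro w
      exact (hMc.comp (continuous_const.add (hpt.comp (continuous_const.mul continuous_id)))).aestronglyMeasurable
    · intro w
      exact Eventually.of_forall fun x => hBc _
    · exact Eventually.of_forall fun x => hMc.comp (continuous_id.add continuous_const)
  have hA0 : ∀ w, 0 ≤ A w := fun w => integral_nonneg fun x => hMc0 _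
  have hAb : ∀ t, A (pt t) ≤ 5 / 4 := by
    intro t
    have k := (abs_le.mp (h1 H hH t)).2
    have e3 : A (pt t) = (∫ u in t..(t + H), Mc (pt u)) / H := by
      simp only [hA]
      have e4 : ∫ x, Mc (pt t + pt (H * x)) ∂m1 = ∫ x in (0:ℝ)..1, Mc (pt (t + H * x)) := by
        rw [intervalIntegral.integral_of_le zero_le_one]
        simp only [pt_add]
      rw [e4]
      have e5 := intervalIntegral.integral_comp_add_mul (a := (0:ℝ)) (b := 1)
        (f := fun u => Mc (pt u)) hHp.ne' t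
      rw [e5, smul_eq_mul, mul_zero, mul_one, add_zero, inv_mul_eq_div]
    rw [e3]
    linarith
  obtain ⟨H2, hH2, h2⟩ := herg (fun w => A w ^ 2) (hAc.pow 2) (7 / 16) (by norm_num)
  have k := (abs_le.mp (h2 H2 le_rfl 0)).1
  have k2 : (∫ u in (0:ℝ)..(0 + H2), A (pt u) ^ 2) / H2 ≤ 25 / 16 := by
    rw [div_le_iff₀ hH2]
    calc ∫ u in (0:ℝ)..(0 + H2), A (pt u) ^ 2 ≤ ∫ u in (0:ℝ)..(0 + H2), (25 / 16 : ℝ) := by
          refine intervalIntegral.integral_mono_on (by linarith)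
            (((hAc.comp hpt).pow 2).intervalIntegrable _ _) intervalIntegrable_const fun u _ => ?_
          have h1 := hA0 (pt u)
          have h2 := hAb u
          nlinarith
      _ = 25 / 16 * H2 := by
          rw [intervalIntegral.integral_const, smul_eq_mul]
          ring
  linarith

/-- the abstract form of `TS2` -/
structure TA2 {E : Type} [TopologicalSpace E] [MeasurableSpace E] (ν : Measure E) (pt : ℝ → E)
    (B2 C ζ e lam δ0 : ℝ) (W g κ : ℝ → ℝ → ℝ → ℝ) : Prop where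
  W0 : ∀ X δ u, 0 ≤ W X δ u
  Wc : ∀ X δ, Continuous (W X δ)
  g0 : ∀ X δ u, 0 ≤ g X δ u
  g1 : ∀ X δ u, g X δ u ≤ 1
  gm : ∀ X δ, Measurable (g X δ)
  k0 : ∀ X δ h, 0 ≤ κ X δ h
  kc : ∀ X δ, Continuous (κ X δ)
  ke : ∀ X δ h, κ X δ (-h) = κ X δ h
  kap : ∃ H0 : ℝ, 1 ≤ H0 ∧ ∀ᶠ X : ℝ in atTop, ∀ δ : ℝ, lam / Real.log X ≤ δ → δ ≤ δ0 → ∀ H ≥ H0,
    B2 * ∫ h in (1:ℝ)..H, max (κ X δ h - 1) 0 ≤ e * H
  zero : ∀ (K : Type) [TopologicalSpace K] [CompactSpace K] (F : K × E → ℝ), Continuous F →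
    ∀ η : ℝ, 0 < η → ∀ᶠ X : ℝ in atTop, ∀ k : K,
    |(∫ t in Xl X..X, F (k, pt t)) - X * ∫ y, F (k, y) ∂ν| ≤ X * η
  one : ∀ (K : Type) [TopologicalSpace K] [CompactSpace K] (F : K × E → ℝ), Continuous F →
    (∀ q, 0 ≤ F q) → ∀ η : ℝ, 0 < η → ∀ᶠ X : ℝ in atTop, ∀ δ : ℝ, lam / Real.log X ≤ δ → δ ≤ δ0 →
    ∀ k : K, ∀ x : ℝ,
    |(∫ t in Xl X..X, F (k, pt t) * W X δ (t + x)) - X * ∫ y, F (k, y) ∂ν| ≤
      X * (e * (∫ y, F (k, y) ∂ν) + η)
  bad : ∀ (K : Type) [TopologicalSpace K] [CompactSpace K] (F : K × E → ℝ), Continuous F →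
    (∀ q, 0 ≤ F q) → ∀ η : ℝ, 0 < η → ∀ᶠ X : ℝ in atTop, ∀ δ : ℝ, lam / Real.log X ≤ δ → δ ≤ δ0 →
    ∀ k : K, ∀ x : ℝ,
    ∫ t in Xl X..X, F (k, pt t) * (W X δ (t + x) * (1 - g X δ (t + x))) ≤
      X * (e * (∫ y, F (k, y) ∂ν) + η)
  near : ∀ (K : Type) [TopologicalSpace K] [CompactSpace K] (F : K × E → ℝ), Continuous F →
    (∀ q, 0 ≤ F q) → ∀ η : ℝ, 0 < η → ∀ᶠ X : ℝ in atTop, ∀ δ : ℝ, lam / Real.log X ≤ δ → δ ≤ δ0 →
    ∀ k : K, ∀ x y : ℝ, x ≠ y → |x - y| ≤ 1 →
    ∫ t in Xl X..X, F (k, pt t) * ((W X δ (t + x) * g X δ (t + x)) * (W X δ (t + y) * g X δ (t + y))) ≤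
      X * (((∫ w, F (k, w) ∂ν) + η) * (C * (max |x - y| δ) ^ (-ζ)))
  far : ∀ (K : Type) [TopologicalSpace K] [CompactSpace K] (F : K × E → ℝ), Continuous F →
    (∀ q, 0 ≤ F q) → ∀ η : ℝ, 0 < η → ∀ᶠ X : ℝ in atTop, ∀ δ : ℝ, lam / Real.log X ≤ δ → δ ≤ δ0 →
    ∀ k : K, ∀ x y : ℝ,
    ∫ t in Xl X..X, F (k, pt t) * ((W X δ (t + x) * g X δ (t + x)) * (W X δ (t + y) * g X δ (t + y))) ≤
      X * (((∫ w, F (k, w) ∂ν) + η) * ((1 + e) * κ X δ (x - y)) + η)

/-- the choice of the range of `δ` -/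
theorem choose_d {θ ζ D ε1 Hn δ0 : ℝ} (hζ : 1 < ζ) (hθ : ζ - 1 < θ) (hε1 : 0 < ε1) (hHn : 0 < Hn)
    (hδ0 : 0 < δ0) (A : ℝ) :
    ∃ δ1 : ℝ, 0 < δ1 ∧ δ1 ≤ δ0 ∧ ∀ δ : ℝ, 0 < δ → δ ≤ δ1 →
      Hn ≤ δ ^ (-θ) ∧ A * (D * δ ^ (1 - ζ) + 1) * δ ^ θ ≤ ε1 := by
  have hθ0 : 0 < θ := by linarith
  have c1 : ContinuousAt (fun x : ℝ => x ^ θ) 0 := Real.continuousAt_rpow_const 0 θ (Or.inr hθ0.le)
  have c2 : ContinuousAt (fun x : ℝ => x ^ (θ + (1 - ζ))) 0 :=
    Real.continuousAt_rpow_const 0 _ (Or.inr (by linarith))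
  have c3 : ContinuousAt (fun x : ℝ => A * (D * x ^ (θ + (1 - ζ)) + x ^ θ)) 0 :=
    continuousAt_const.mul ((continuousAt_const.mul c2).add c1)
  have v1 : (0:ℝ) ^ θ = 0 := Real.zero_rpow hθ0.ne'
  have v2 : (0:ℝ) ^ (θ + (1 - ζ)) = 0 := Real.zero_rpow (by linarith)
  have e1 : ∀ᶠ x : ℝ in 𝓝 0, x ^ θ < Hn⁻¹ := by
    have := c1.eventually_lt_const (u := Hn⁻¹) (by show (0:ℝ) ^ θ < Hn⁻¹; rw [v1]; positivity)
    exact this
  have e2 : ∀ᶠ x : ℝ in 𝓝 0, A * (D * x ^ (θ + (1 - ζ)) + x ^ θ) < ε1 := by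
    have := c3.eventually_lt_const (u := ε1) (by
      show A * (D * (0:ℝ) ^ (θ + (1 - ζ)) + (0:ℝ) ^ θ) < ε1
      rw [v1, v2]; simpa using hε1)
    exact this
  obtain ⟨r, hr, h⟩ := Metric.eventually_nhds_iff.mp (e1.and e2)
  refine ⟨min δ0 (r / 2), lt_min hδ0 (by positivity), min_le_left _ _, fun δ hδ hδ1 => ?_⟩
  have hd : dist δ 0 < r := by
    rw [Real.dist_eq, sub_zero, abs_of_pos hδ]
    have := hδ1.trans (min_le_right _ _)
    linarith
  obtain ⟨h1, h2⟩ := h hd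
  have hp : 0 < δ ^ θ := Real.rpow_pos_of_pos hδ _
  constructor
  · rw [Real.rpow_neg hδ.le]
    rw [le_inv_comm₀ hHn hp]
    exact h1.le
  · have : A * (D * δ ^ (1 - ζ) + 1) * δ ^ θ = A * (D * δ ^ (θ + (1 - ζ)) + δ ^ θ) := by
      rw [Real.rpow_add hδ]
      ring
    rw [this]
    exact h2.le

/-- the abstract form of `S_ASM2` -/
theorem absmain2 (ν : Measure E)
    [IsProbabilityMeasure ν] (hν : ∀ y, MeasurePreserving (fun x => x + y) ν ν)
    (pt : ℝ → E) (hpt : Continuous pt) (pt_add : ∀ s t, pt (s + t) = pt s + pt t)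
    (herg : ∀ F : E → ℝ, Continuous F → ∀ ε : ℝ, 0 < ε → ∃ H0 : ℝ, 0 < H0 ∧ ∀ H ≥ H0, ∀ t : ℝ,
      |(∫ u in t..(t + H), F (pt u)) / H - ∫ x, F x ∂ν| ≤ ε)
    (M Mc : E → ℝ) (hM0 : Continuous M) (hMc : Continuous Mc) (hMc0 : ∀ x, 0 ≤ Mc x)
    (hMcle : ∀ x, Mc x ≤ M x) (hM1 : ∫ x, M x ∂ν = 1) {B2 : ℝ} (hB2 : 1 ≤ B2)
    (hMcB : ∀ x y, Mc x * Mc y ≤ B2) {C ζ e lam δ0 θ : ℝ} (hC : 0 ≤ C) (hζ : 1 < ζ)
    (hθ : ζ - 1 < θ) (he0 : 0 < e) (he1 : e ≤ 1) (hlam : 1 ≤ lam) (hδ0 : 0 < δ0) (hδ01 : δ0 ≤ 1)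
    (W g κ : ℝ → ℝ → ℝ → ℝ) (S : TA2 ν pt B2 C ζ e lam δ0 W g κ) (ε : ℝ) (hε : 0 < ε) :
    ∃ δ1 : ℝ, 0 < δ1 ∧ δ1 ≤ δ0 ∧ ∀ᶠ X : ℝ in atTop, ∀ δ : ℝ, lam / Real.log X ≤ δ → δ ≤ δ1 →
    ∫ t in Xl X..X, |δ ^ θ * ∫ u in (0:ℝ)..(δ ^ (-θ)), M (pt (t + u)) * (W X δ (t + u) - 1)| ≤
      X * (11 * (Real.sqrt e + ∫ x, (M x - Mc x) ∂ν) + ε) := by
  have ci : ∀ {F : E → ℝ}, Continuous F → Integrable F ν := fun h =>
    h.integrable_of_hasCompactSupport (HasCompactSupport.of_compactSpace _)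
  -- translation invariance
  have htr : ∀ (F : E → ℝ), Continuous F → ∀ y, ∫ x, F (x + y) ∂ν = ∫ x, F x ∂ν := by
    intro F hF y
    have h := hν y
    have h2 := h.map_eq
    calc ∫ x, F (x + y) ∂ν = ∫ x, F x ∂(Measure.map (fun x => x + y) ν) := by
          rw [integral_map h.measurable.aemeasurable hF.aestronglyMeasurable]
      _ = ∫ x, F x ∂ν := by rw [h2]
  set I2 : ℝ := ∫ x, (M x - Mc x) ∂ν with hI2
  have hI20 : 0 ≤ I2 := integral_nonneg fun x => sub_nonneg.mpr (hMcle x)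
  have hMc1 : ∫ x, Mc x ∂ν ≤ 1 := by
    rw [← hM1]
    exact integral_mono (ci hMc) (ci hM0) hMcle
  obtain ⟨H1, hH1, hmean⟩ := mean2 ν pt hpt pt_add herg Mc hMc hMc0 hMc1
  obtain ⟨H0, hH0, hkap⟩ := S.kap
  -- constants
  set q : ℝ := Real.sqrt e with hq
  have hq0 : 0 < q := Real.sqrt_pos.mpr he0
  have hqq : q * q = e := Real.mul_self_sqrt he0.le
  have hq1 : q ≤ 1 := by
    rw [hq]
    exact Real.sqrt_le_one.mpr he1
  have heq : e ≤ q := by nlinarith
  set η : ℝ := min 1 (ε * q / 14) with hη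
  have hη0 : 0 < η := lt_min one_pos (by positivity)
  have hη1 : η ≤ 1 := min_le_left _ _
  have hη2 : η ≤ ε * q / 14 := min_le_right _ _
  obtain ⟨δ1, hδ1, hδ10, hch⟩ := choose_d (D := C * (ζ / (ζ - 1))) (ε1 := ε * q)
    (Hn := max 1 (max H0 H1)) hζ hθ (by positivity) (by positivity) hδ0 (4 * B2)
  refine ⟨δ1, hδ1, hδ10, ?_⟩
  -- the families of functions
  let F1 : E × E → ℝ := fun r => Mc (r.2 + r.1)
  let F2 : E × E → ℝ := fun r => M (r.2 + r.1) - Mc (r.2 + r.1)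
  let F3 : (E × E) × E → ℝ := fun r => Mc (r.2 + r.1.1) * Mc (r.2 + r.1.2)
  have hc0 : Continuous (fun r : E × E => r.2 + r.1) := continuous_snd.add continuous_fst
  have hF1 : Continuous F1 := hMc.comp hc0
  have hF2 : Continuous F2 := (hM0.comp hc0).sub (hMc.comp hc0)
  have hF3 : Continuous F3 :=
    (hMc.comp (continuous_snd.add (continuous_fst.comp continuous_fst))).mul
      (hMc.comp (continuous_snd.add (continuous_snd.comp continuous_fst)))
  have hF10 : ∀ r, 0 ≤ F1 r := fun r => hMc0 _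
  have hF20 : ∀ r, 0 ≤ F2 r := fun r => sub_nonneg.mpr (hMcle _)
  have hF30 : ∀ r, 0 ≤ F3 r := fun r => mul_nonneg (hMc0 _) (hMc0 _)
  let I3 : ℝ × ℝ → ℝ := fun p => ∫ w, Mc (w + pt p.1) * Mc (w + pt p.2) ∂ν
  have hI30 : ∀ p, 0 ≤ I3 p := fun p => integral_nonneg fun w => mul_nonneg (hMc0 _) (hMc0 _)
  have hI3B : ∀ p, I3 p ≤ B2 := by
    intro p
    have hc : Continuous (fun w : E => Mc (w + pt p.1) * Mc (w + pt p.2)) :=
      (hMc.comp (continuous_id.add continuous_const)).mul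
        (hMc.comp (continuous_id.add continuous_const))
    calc I3 p ≤ ∫ _ : E, B2 ∂ν := integral_mono (ci hc) (integrable_const _) fun w => hMcB _ _
      _ = B2 := by rw [integral_const, probReal_univ, one_smul]
  -- thresholds
  have t1 := S.bad E F1 hF1 hF10 η hη0
  have t2 := S.one E F2 hF2 hF20 η hη0
  have t3 := S.zero E F2 hF2 η hη0
  have t4 := S.far (E × E) F3 hF3 hF30 η hη0
  have t5 := S.one (E × E) F3 hF3 hF30 η hη0
  have t6 := S.bad (E × E) F3 hF3 hF30 η hη0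
  have t7 := S.zero (E × E) F3 hF3 η hη0
  have t8 := S.near (E × E) F3 hF3 hF30 η hη0
  filter_upwards [t1, t2, t3, t4, t5, t6, t7, t8, hkap, eventually_ge_atTop (256:ℝ)] with X t1 t2 t3
    t4 t5 t6 t7 t8 hkap hX δ hδa hδb
  have hX0 : 0 < X := by linarith
  have hlogX : 0 < Real.log X := Real.log_pos (by linarith)
  have hδ : 0 < δ := lt_of_lt_of_le (by positivity) hδa
  have hδδ0 : δ ≤ δ0 := hδb.trans hδ10
  have hδle1 : δ ≤ 1 := hδδ0.trans hδ01
  have t1 := t1 δ hδa hδδ0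
  have t2 := t2 δ hδa hδδ0
  have t4 := t4 δ hδa hδδ0
  have t5 := t5 δ hδa hδδ0
  have t6 := t6 δ hδa hδδ0
  have t8 := t8 δ hδa hδδ0
  have hkap := hkap δ hδa hδδ0
  obtain ⟨hH, hnear⟩ := hch δ hδ hδb
  set H : ℝ := δ ^ (-θ) with hHdef
  have hHinv : δ ^ θ = H⁻¹ := by
    rw [hHdef, Real.rpow_neg hδ.le, inv_inv]
  have hHa : 1 ≤ H := (le_max_left _ _).trans hH
  have hHb : H0 ≤ H := ((le_max_left _ _).trans (le_max_right _ _)).trans hH
  have hHc : H1 ≤ H := ((le_max_right _ _).trans (le_max_right _ _)).trans hH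
  have hHpos : 0 < H := by linarith
  obtain ⟨hmi, hmean⟩ := hmean H hHc
  have hkap := hkap H hHb
  rw [hHinv] at hnear ⊢
  set mc : ℝ → ℝ := fun u => Mc (pt u) with hmc
  have hmcc : Continuous mc := hMc.comp hpt
  set mz : ℝ → ℝ := fun u => M (pt u) with hmz
  have hmzc : Continuous mz := hM0.comp hpt
  have Lg : LB (g X δ) := LB.bdd (B := 1) (S.gm X δ)
    (fun s => abs_le.mpr ⟨by linarith [S.g0 X δ s], S.g1 X δ s⟩)
  have LW : LB (W X δ) := LB.cont (S.Wc X δ)
  -- the kernel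
  set A1 : ℝ → ℝ := fun h => 2 * B2 * (C * (max |h| δ) ^ (-ζ) + 1) with hA1
  set A2 : ℝ → ℝ := fun h => 4 * B2 * max (κ X δ h - 1) 0 with hA2
  have hB20 : 0 < B2 := by linarith
  have hmaxpos : ∀ h : ℝ, 0 < max |h| δ := fun h => lt_max_of_lt_right hδ
  have hA1c : Continuous A1 := by
    refine continuous_const.mul ((continuous_const.mul ?_).add continuous_const)
    exact Continuous.rpow_const (continuous_abs.max continuous_const) fun h => Or.inl (hmaxpos h).ne'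
  have hA2c : Continuous A2 :=
    continuous_const.mul (((S.kc X δ).sub continuous_const).max continuous_const)
  have hA10 : ∀ h, 0 ≤ A1 h := by
    intro h
    have := hmaxpos h
    simp only [hA1]
    positivity
  have hA20 : ∀ h, 0 ≤ A2 h := by
    intro h
    have : 0 ≤ max (κ X δ h - 1) 0 := le_max_right _ _
    simp only [hA2]
    positivity
  set K1 : ℝ → ℝ := fun h => if |h| ≤ 1 then A1 h else A2 h with hK1
  have hK10 : ∀ h, 0 ≤ K1 h := by
    intro h
    simp only [hK1]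
    split_ifs
    · exact hA10 h
    · exact hA20 h
  have hK1e : ∀ h, K1 (-h) = K1 h := by
    intro h
    simp only [hK1, hA1, hA2, abs_neg, S.ke]
  have hK1L : LB K1 := by
    refine ⟨Measurable.ite (measurableSet_le continuous_abs.measurable measurable_const)
      hA1c.measurable hA2c.measurable, fun R => ?_⟩
    obtain ⟨b1, hb10, hb1⟩ := (LB.cont hA1c).b R
    obtain ⟨b2, hb20, hb2⟩ := (LB.cont hA2c).b R
    refine ⟨b1 + b2, by positivity, fun s hs => ?_⟩
    have k1 := hb1 s hs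
    have k2 := hb2 s hs
    simp only [hK1]
    split_ifs
    · linarith
    · linarith
  obtain ⟨hKi, hKint⟩ := ker_sq hK1L hK10 hK1e hHpos
  have hK1int : ∫ h in (0:ℝ)..H, K1 h ≤ 2 * B2 * (C * (ζ / (ζ - 1)) * δ ^ (1 - ζ) + 1) + 4 * (e * H) := by
    rw [← intervalIntegral.integral_add_adjacent_intervals (hK1L.ii 0 1) (hK1L.ii 1 H)]
    have e1 : ∫ h in (0:ℝ)..1, K1 h = ∫ h in (0:ℝ)..1, A1 h := by
      refine intervalIntegral.integral_congr fun h hh => ?_
      rw [Set.uIcc_of_le zero_le_one] at hh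
      simp only [hK1]
      rw [if_pos]
      rw [abs_of_nonneg hh.1]
      exact hh.2
    have e2 : ∫ h in (1:ℝ)..H, K1 h = ∫ h in (1:ℝ)..H, A2 h := by
      refine intervalIntegral.integral_congr_ae (Eventually.of_forall fun h hh => ?_)
      rw [Set.uIoc_of_le hHa] at hh
      simp only [hK1]
      rw [if_neg]
      rw [abs_of_nonneg (by linarith [hh.1])]
      exact not_le.mpr hh.1
    rw [e1, e2]
    have i1 : IntervalIntegrable (fun h : ℝ => (max |h| δ) ^ (-ζ)) volume 0 1 := by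
      refine Continuous.intervalIntegrable ?_ _ _
      exact Continuous.rpow_const (continuous_abs.max continuous_const) fun h => Or.inl (hmaxpos h).ne'
    have e3 : ∫ h in (0:ℝ)..1, A1 h = 2 * B2 * (C * (∫ h in (0:ℝ)..1, (max |h| δ) ^ (-ζ)) + 1) := by
      simp only [hA1]
      rw [intervalIntegral.integral_const_mul, intervalIntegral.integral_add (i1.const_mul C)
        intervalIntegrable_const, intervalIntegral.integral_const_mul, intervalIntegral.integral_const]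
      simp
    have e4 : ∫ h in (1:ℝ)..H, A2 h = 4 * (B2 * ∫ h in (1:ℝ)..H, max (κ X δ h - 1) 0) := by
      simp only [hA2]
      rw [intervalIntegral.integral_const_mul]
      ring
    rw [e3, e4]
    have n1 := near_int hζ hδ hδle1
    have : C * (∫ h in (0:ℝ)..1, (max |h| δ) ^ (-ζ)) ≤ C * (ζ / (ζ - 1)) * δ ^ (1 - ζ) := by
      rw [mul_assoc]
      gcongr
    gcongr
  set B : ℝ × ℝ → ℝ := fun p => X * (K1 (H * (p.1 - p.2)) + 5 * e * I3 (H * p.1, H * p.2) + 8 * η) with hB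
  have hmi' : Integrable (fun p : ℝ × ℝ => I3 (H * p.1, H * p.2)) (m1.prod m1) := hmi
  have hs1 : Integrable (fun p : ℝ × ℝ => K1 (H * (p.1 - p.2)) + 5 * e * I3 (H * p.1, H * p.2))
      (m1.prod m1) := hKi.add (hmi'.const_mul (5 * e))
  have hBi : Integrable B (m1.prod m1) := by
    refine Integrable.const_mul ?_ X
    exact hs1.add (integrable_const _)
  have hB0 : ∀ p, 0 ≤ B p := by
    intro p
    have h1 := hK10 (H * (p.1 - p.2))
    have h2 := hI30 (H * p.1, H * p.2)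
    simp only [hB]
    positivity
  have hBc : ∫ p, B p ∂(m1.prod m1) ≤ X * (18 * e + ε * q + 8 * η) := by
    have hp : IsProbabilityMeasure m1 := ⟨by simp [m1]⟩
    have e1 : ∫ p, B p ∂(m1.prod m1) = X * ((∫ p : ℝ × ℝ, K1 (H * (p.1 - p.2)) ∂(m1.prod m1))
        + 5 * e * (∫ p : ℝ × ℝ, I3 (H * p.1, H * p.2) ∂(m1.prod m1)) + 8 * η) := by
      simp only [hB]
      rw [integral_const_mul, integral_add hs1 (integrable_const _),
        integral_add hKi (hmi'.const_mul (5 * e)), integral_const_mul, integral_const, probReal_univ,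
        one_smul]
    rw [e1]
    have e2 : 2 / H * (2 * B2 * (C * (ζ / (ζ - 1)) * δ ^ (1 - ζ) + 1) + 4 * (e * H))
        = 4 * B2 * (C * (ζ / (ζ - 1)) * δ ^ (1 - ζ) + 1) * H⁻¹ + 8 * e := by
      field_simp
      ring
    have e3 : ∫ p : ℝ × ℝ, K1 (H * (p.1 - p.2)) ∂(m1.prod m1) ≤ ε * q + 8 * e := by
      refine hKint.trans ?_
      calc 2 / H * ∫ h in (0:ℝ)..H, K1 h
          ≤ 2 / H * (2 * B2 * (C * (ζ / (ζ - 1)) * δ ^ (1 - ζ) + 1) + 4 * (e * H)) := by gcongr
        _ = 4 * B2 * (C * (ζ / (ζ - 1)) * δ ^ (1 - ζ) + 1) * H⁻¹ + 8 * e := e2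
        _ ≤ ε * q + 8 * e := by gcongr
    have e4 : ∫ p : ℝ × ℝ, I3 (H * p.1, H * p.2) ∂(m1.prod m1) ≤ 2 := hmean
    have e5 : 5 * e * (∫ p : ℝ × ℝ, I3 (H * p.1, H * p.2) ∂(m1.prod m1)) ≤ 5 * e * 2 := by gcongr
    gcongr X * ?_
    linarith
  have key := core2 (T1 := Xl X) (T2 := X) (H := H) (s0 := q) (Xl_le hX) hHpos hq0 (m := mz)
    (mc := mc) (W := W X δ) (g := g X δ) (B := B) (a := X * (e + η)) (b := X * (3 * I2 + 2 * η))
    (c := X * (18 * e + ε * q + 8 * η)) hmzc hmcc (fun x => hMc0 _) (fun x => hMcle _) (S.Wc X δ)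
    (S.W0 X δ) (S.gm X δ) (S.g0 X δ) (S.g1 X δ) ?_ ?_ hBi hB0 hBc ?_
  · refine key.trans ?_
    have hXl : 0 ≤ Xl X := by
      unfold Xl
      positivity
    have k1 : X * (18 * e + ε * q + 8 * η) / q = X * (18 * q + ε + 8 * (η / q)) := by
      rw [← hqq]
      field_simp
    have k2 : q * (X - Xl X) ≤ q * X := by gcongr; linarith
    have k3 : η / q ≤ ε / 14 := by
      rw [div_le_iff₀ hq0]
      linarith
    have k4 : η ≤ η / q := by
      rw [le_div_iff₀ hq0]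
      nlinarith
    rw [k1]
    have k5 : X * (e + η) + X * (3 * I2 + 2 * η) + (X * (18 * q + ε + 8 * (η / q)) + q * X) / 2
        ≤ X * (11 * (q + I2) + ε) := by
      have : X * (e + η) + X * (3 * I2 + 2 * η) + (X * (18 * q + ε + 8 * (η / q)) + q * X) / 2
        = X * (e + 3 * η + 3 * I2 + 19 / 2 * q + ε / 2 + 4 * (η / q)) := by ring
      rw [this]
      gcongr X * ?_
      linarith
    linarith
  · -- h1
    intro u
    have h := t1 (pt u) u
    have e1 : ∀ t, F1 (pt u, pt t) = mc (t + u) := by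
      intro t
      simp only [F1, hmc, pt_add]
    simp only [e1] at h
    refine h.trans ?_
    have e2 : ∫ y, F1 (pt u, y) ∂ν = ∫ y, Mc y ∂ν := htr _ hMc (pt u)
    rw [e2]
    gcongr X * (?_ + η)
    calc e * ∫ y, Mc y ∂ν ≤ e * 1 := by gcongr
      _ = e := mul_one e
  · -- h2
    intro u
    have e1 : ∀ t, F2 (pt u, pt t) = mz (t + u) - mc (t + u) := by
      intro t
      simp only [F2, hmc, pt_add, hmz]
    have e2 : ∫ y, F2 (pt u, y) ∂ν = I2 := htr _ (hM0.sub hMc) (pt u)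
    have h2 := t2 (pt u) u
    have h3 := t3 (pt u)
    simp only [e1] at h2 h3
    rw [e2] at h2 h3
    have L2 : LB (fun t => mz (t + u) - mc (t + u)) :=
      ((LB.cont hmzc).shift u).sub ((LB.cont hmcc).shift u)
    have i1 := (L2.mul (LW.shift u)).ii (Xl X) X
    have i2 := L2.ii (Xl X) X
    have e3 : ∫ t in Xl X..X, (mz (t + u) - mc (t + u)) * (W X δ (t + u) + 1)
        = (∫ t in Xl X..X, (mz (t + u) - mc (t + u)) * W X δ (t + u))
          + ∫ t in Xl X..X, (mz (t + u) - mc (t + u)) := by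
      rw [← intervalIntegral.integral_add i1 i2]
      congr 1
      ext t
      ring
    rw [e3]
    have k2 := (abs_le.mp h2).2
    have k3 := (abs_le.mp h3).2
    have k4 : X * (e * I2) ≤ X * I2 := by
      have : e * I2 ≤ 1 * I2 := by gcongr
      have : e * I2 ≤ I2 := by linarith
      gcongr
    nlinarith
  · -- h3
    intro x _ y _ hxy
    set u : ℝ := H * x with hu
    set v : ℝ := H * y with hv
    have huv : u ≠ v := by
      intro h
      exact hxy (mul_left_cancel₀ hHpos.ne' h)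
    have huv' : H * (x - y) = u - v := by rw [hu, hv]; ring
    set k : E × E := (pt u, pt v) with hk
    have e1 : ∀ t, F3 (k, pt t) = mc (t + u) * mc (t + v) := by
      intro t
      simp only [F3, hmc, pt_add, hk]
    have e2 : ∫ w, F3 (k, w) ∂ν = I3 (u, v) := rfl
    have h4 := t4 k u v
    have h5x := t5 k u
    have h5y := t5 k v
    have h6x := t6 k u
    have h6y := t6 k v
    have h7 := t7 k
    have h8 := t8 k u v huv
    simp only [e1] at h4 h5x h5y h6x h6y h7 h8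
    rw [e2] at h4 h5x h5y h6x h6y h7 h8
    have LF : LB (fun t => mc (t + u) * mc (t + v)) := by
      refine LB.cont ?_
      exact (hmcc.comp (continuous_add_const u)).mul (hmcc.comp (continuous_add_const v))
    have Lv : ∀ x, LB (fun t => W X δ (t + x) * g X δ (t + x)) := fun x =>
      (LW.shift x).mul (Lg.shift x)
    have Lb : ∀ x, LB (fun t => W X δ (t + x) * (1 - g X δ (t + x))) := fun x =>
      (LW.shift x).mul ((LB.const 1).sub (Lg.shift x))
    have i1 := (LF.mul ((Lv u).mul (Lv v))).ii (Xl X) X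
    have j1 := (LF.mul (Lv u)).ii (Xl X) X
    have j2 := (LF.mul (Lv v)).ii (Xl X) X
    have i2 := (LF.mul (LW.shift u)).ii (Xl X) X
    have i3 := (LF.mul (Lb u)).ii (Xl X) X
    have i4 := (LF.mul (LW.shift v)).ii (Xl X) X
    have i5 := (LF.mul (Lb v)).ii (Xl X) X
    have i6 := LF.ii (Xl X) X
    have e3 : ∫ t in Xl X..X, mc (t + u) * mc (t + v) *
          ((W X δ (t + u) * g X δ (t + u) - 1) * (W X δ (t + v) * g X δ (t + v) - 1))
        = (∫ t in Xl X..X, mc (t + u) * mc (t + v) *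
            ((W X δ (t + u) * g X δ (t + u)) * (W X δ (t + v) * g X δ (t + v))))
          - (∫ t in Xl X..X, mc (t + u) * mc (t + v) * (W X δ (t + u) * g X δ (t + u)))
          - (∫ t in Xl X..X, mc (t + u) * mc (t + v) * (W X δ (t + v) * g X δ (t + v)))
          + ∫ t in Xl X..X, mc (t + u) * mc (t + v) := by
      rw [← intervalIntegral.integral_sub i1 j1, ← intervalIntegral.integral_sub (i1.sub j1) j2,
        ← intervalIntegral.integral_add ((i1.sub j1).sub j2) i6]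
      congr 1
      ext t
      ring
    have e4 : ∫ t in Xl X..X, mc (t + u) * mc (t + v) * (W X δ (t + u) * g X δ (t + u))
        = (∫ t in Xl X..X, mc (t + u) * mc (t + v) * W X δ (t + u))
            - ∫ t in Xl X..X, mc (t + u) * mc (t + v) * (W X δ (t + u) * (1 - g X δ (t + u))) := by
      rw [← intervalIntegral.integral_sub i2 i3]
      congr 1
      ext t
      ring
    have e5 : ∫ t in Xl X..X, mc (t + u) * mc (t + v) * (W X δ (t + v) * g X δ (t + v))
        = (∫ t in Xl X..X, mc (t + u) * mc (t + v) * W X δ (t + v))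
            - ∫ t in Xl X..X, mc (t + u) * mc (t + v) * (W X δ (t + v) * (1 - g X δ (t + v))) := by
      rw [← intervalIntegral.integral_sub i4 i5]
      congr 1
      ext t
      ring
    have n1 : 0 ≤ ∫ t in Xl X..X, mc (t + u) * mc (t + v) * (W X δ (t + u) * g X δ (t + u)) := by
      refine intervalIntegral.integral_nonneg (Xl_le hX) fun t _ => ?_
      exact mul_nonneg (mul_nonneg (hMc0 _) (hMc0 _)) (mul_nonneg (S.W0 X δ _) (S.g0 X δ _))
    have n2 : 0 ≤ ∫ t in Xl X..X, mc (t + u) * mc (t + v) * (W X δ (t + v) * g X δ (t + v)) := by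
      refine intervalIntegral.integral_nonneg (Xl_le hX) fun t _ => ?_
      exact mul_nonneg (mul_nonneg (hMc0 _) (hMc0 _)) (mul_nonneg (S.W0 X δ _) (S.g0 X δ _))
    rw [e3]
    have k5x := (abs_le.mp h5x).1
    have k5y := (abs_le.mp h5y).1
    have k7 := (abs_le.mp h7).2
    have hI := hI30 (u, v)
    have hIB := hI3B (u, v)
    set I := I3 (u, v) with hIdef
    show _ ≤ X * (K1 (H * (x - y)) + 5 * e * I + 8 * η)
    rw [huv']
    rcases le_or_gt |u - v| 1 with hle | hgt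
    · have h8 := h8 hle
      have eK : K1 (u - v) = 2 * B2 * (C * (max |u - v| δ) ^ (-ζ) + 1) := by
        simp only [hK1, hA1]
        rw [if_pos hle]
      rw [eK]
      set r : ℝ := C * (max |u - v| δ) ^ (-ζ) with hr
      have hr0 : 0 ≤ r := by
        have := hmaxpos (u - v)
        positivity
      have g1 : X * ((I + η) * r) + (X * I + X * η) ≤ X * (2 * B2 * (r + 1)) := by
        have : X * ((I + η) * r) + (X * I + X * η) = X * ((I + η) * (r + 1)) := by ring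
        rw [this]
        have : I + η ≤ 2 * B2 := by linarith
        gcongr
      have g2 : X * (2 * B2 * (r + 1)) ≤ X * (2 * B2 * (r + 1) + 5 * e * I + 8 * η) := by
        have : 0 ≤ 5 * e * I := by positivity
        gcongr X * ?_
        linarith
      linarith
    · have eK : K1 (u - v) = 4 * B2 * max (κ X δ (u - v) - 1) 0 := by
        simp only [hK1, hA2]
        rw [if_neg (not_le.mpr hgt)]
      rw [eK]
      set kp : ℝ := max (κ X δ (u - v) - 1) 0 with hkp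
      have hkp0 : 0 ≤ kp := le_max_right _ _
      have hkk : κ X δ (u - v) ≤ 1 + kp := by
        have := le_max_left (κ X δ (u - v) - 1) 0
        linarith
      rw [e4, e5]
      have g1 : (I + η) * ((1 + e) * κ X δ (u - v)) ≤ 4 * B2 * kp + (I + η) * (1 + e) := by
        have a1 : (I + η) * ((1 + e) * κ X δ (u - v)) ≤ (I + η) * ((1 + e) * (1 + kp)) := by gcongr
        have a2 : (I + η) * (1 + e) * kp ≤ (2 * B2) * 2 * kp := by
          have : I + η ≤ 2 * B2 := by linarith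
          have : 1 + e ≤ 2 := by linarith
          gcongr
        nlinarith
      have g2 : X * ((I + η) * ((1 + e) * κ X δ (u - v)) + η)
          ≤ X * (4 * B2 * kp + (I + η) * (1 + e) + η) := by gcongr
      have g3 : X * (4 * B2 * kp + (I + η) * (1 + e) + η)
          - 2 * (X * I - X * (e * I + η) - X * (e * I + η)) + (X * I + X * η)
          ≤ X * (4 * B2 * kp + 5 * e * I + 8 * η) := by
        have a3 : X * (4 * B2 * kp + (I + η) * (1 + e) + η)
          - 2 * (X * I - X * (e * I + η) - X * (e * I + η)) + (X * I + X * η)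
          = X * (4 * B2 * kp + 5 * e * I + 7 * η + e * η) := by ring
        rw [a3]
        have : e * η ≤ 1 * η := by gcongr
        gcongr X * ?_
        linarith
      linarith

end abstract

theorem main : S_ASM2 := by
  refine ⟨11, by norm_num, ?_⟩
  intro α b C ζ e lam δ0 θ z W g κ hα hb hz hC hζ hθ he0 he1 hlam hδ0 hδ01 S ε hε
  have hl : 1 < Real.log z := QC.one_lt_log hz
  have hB2 : 1 ≤ Real.log z ^ (2 * b) := Real.one_le_rpow hl.le (by positivity)
  have hMcB : ∀ x y, Mc α b z x * Mc α b z y ≤ Real.log z ^ (2 * b) := by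
    intro x y
    have h1 := QC.Mc_le α b hz x
    have h2 := QC.Mc_le α b hz y
    have h3 := QC.Mc_nonneg α b z x
    have h4 := QC.Mc_nonneg α b z y
    rw [two_mul, Real.rpow_add (by linarith)]
    gcongr
  exact absmain2 (HP (Sm z)) (QC.HP_add_right (Sm z)) (pt (Sm z)) (QC.pt_cont _) (ASM.pt_add _)
    (ERG.main (Sm z) (QC.Sm_prime z)) (M0 α (Sm z)) (Mc α b z) (QC.M0_cont α (QC.Sm_prime z))
    (QC.Mc_cont α b z) (QC.Mc_nonneg α b z) (QC.Mc_le_M0 α b z) (QC.M0_int α (QC.Sm_prime z))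
    hB2 hMcB hC hζ hθ he0 he1 hlam hδ0 hδ01 W g κ
    ⟨S.W0, S.Wc, S.g0, S.g1, S.gm, S.k0, S.kc, S.ke, S.kap, S.zero, S.one, S.bad, S.near, S.far⟩ ε hε

end Pool.Agent.N748.GC.ASM2
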