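import Pool.Agent.N748.GC.Stm

set_option autoImplicit false

/-!
# GC/EQ: equidistribution of the small phases with weight `|D|²` (written by helper813)
-/

namespace Pool.Agent.N748.GC.EQ

open Finset Filter MeasureTheory MonoidAlgebra Topology Complex UnitAddTorus

/-! ### characters (copied from `Pool/Agent/N748/MM/Dn.lean`) -/

lemma pt_cont (P : Finset ℕ) : Continuous (pt P) := by
  refine continuous_pi fun p => ?_
  exact (AddCircle.continuous_mk' 1).comp (by fun_prop)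

/-- numerators -/
def hN (P : Finset ℕ) (e : ℕ → ℤ) : ℕ := ∏ p ∈ P, p ^ (e p).toNat

/-- denominators -/
def kN (P : Finset ℕ) (e : ℕ → ℤ) : ℕ := ∏ p ∈ P, p ^ (-e p).toNat

lemma pow_ne {P : Finset ℕ} (hP : ∀ p ∈ P, p.Prime) (f : ℕ → ℕ) : ∏ p ∈ P, p ^ f p ≠ 0 :=
  Finset.prod_ne_zero_iff.mpr fun p hp => pow_ne_zero _ (hP p hp).ne_zero

lemma pow_Mo {P : Finset ℕ} (hP : ∀ p ∈ P, p.Prime) (f : ℕ → ℕ) : Mo P (∏ p ∈ P, p ^ f p) := by
  refine ⟨pow_ne hP f, fun q hq hd => ?_⟩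
  obtain ⟨p, hp, hd'⟩ := (Prime.dvd_finsetProd_iff hq.prime _).mp hd
  have := (Nat.prime_dvd_prime_iff_eq hq (hP p hp)).mp (hq.dvd_of_dvd_pow hd')
  rwa [this]

lemma hkN_coprime {P : Finset ℕ} (hP : ∀ p ∈ P, p.Prime) (e : ℕ → ℤ) : (hN P e).Coprime (kN P e) := by
  unfold hN kN
  refine Nat.Coprime.prod_left fun p hp => Nat.Coprime.prod_right fun q hq => ?_
  by_cases h : p = q
  · subst h
    rcases le_total 0 (e p) with h0 | h0
    · have : (-e p).toNat = 0 := Int.toNat_of_nonpos (by omega)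
      rw [this, pow_zero]
      exact Nat.coprime_one_right _
    · have : (e p).toNat = 0 := Int.toNat_of_nonpos h0
      rw [this, pow_zero]
      exact Nat.coprime_one_left _
  · exact ((Nat.coprime_primes (hP p hp) (hP q hq)).mpr h).pow _ _

lemma mF_pt {P : Finset ℕ} (hP : ∀ p ∈ P, p.Prime) (e : ℕ → ℤ) (t : ℝ) :
    mFourier (fun p : P => e p) (pt P t) = chr (hN P e) (kN P e) t := by
  unfold mFourier pt chr
  simp only [ContinuousMap.coe_mk]
  simp_rw [fourier_coe_apply]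
  rw [← Complex.exp_sum]
  congr 1
  have hlog : ∀ f : ℕ → ℕ, Real.log ((∏ p ∈ P, p ^ f p : ℕ) : ℝ) = ∑ p ∈ P, (f p : ℝ) * Real.log p := by
    intro f
    push_cast
    rw [Real.log_prod (fun p hp => pow_ne_zero _ (by exact_mod_cast (hP p hp).ne_zero))]
    exact Finset.sum_congr rfl fun p _ => Real.log_pow _ _
  have e1 : Real.log (kN P e) - Real.log (hN P e) = - ∑ p ∈ P, (e p : ℝ) * Real.log p := by
    unfold kN hN
    rw [hlog, hlog, ← Finset.sum_sub_distrib, ← Finset.sum_neg_distrib]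
    refine Finset.sum_congr rfl fun p _ => ?_
    have h2 : (((-e p).toNat : ℤ) : ℝ) - (((e p).toNat : ℤ) : ℝ) = -(e p : ℝ) := by
      rcases le_total 0 (e p) with h0 | h0
      · rw [Int.toNat_of_nonpos (by omega : -e p ≤ 0), Int.toNat_of_nonneg h0]; simp
      · rw [Int.toNat_of_nonpos h0, Int.toNat_of_nonneg (by omega : 0 ≤ -e p)]; push_cast; ring
    push_cast at h2 ⊢
    rw [← sub_mul, h2]; ring
  rw [e1, ← Finset.sum_coe_sort P (fun p => (e p : ℝ) * Real.log p)]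
  push_cast
  rw [neg_mul, neg_mul, Finset.sum_mul, Finset.sum_mul, ← Finset.sum_neg_distrib]
  refine Finset.sum_congr rfl fun p _ => ?_
  have hpi : (Real.pi : ℂ) ≠ 0 := by exact_mod_cast Real.pi_ne_zero
  field_simp

lemma hN_eq_kN {P : Finset ℕ} (hP : ∀ p ∈ P, p.Prime) (e : ℕ → ℤ) :
    hN P e = kN P e ↔ ∀ p ∈ P, e p = 0 := by
  constructor
  · intro h
    have h1 := hkN_coprime hP e
    have h2 : hN P e = 1 := by
      rw [← h, Nat.coprime_self] at h1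
      exact h1
    have h3 : kN P e = 1 := by rw [← h, h2]
    intro p hp
    have h4 : p ^ (e p).toNat = 1 := by
      have := Finset.dvd_prod_of_mem (fun p => p ^ (e p).toNat) hp
      unfold hN at h2
      rw [h2] at this
      exact Nat.dvd_one.1 this
    have h5 : p ^ (-e p).toNat = 1 := by
      have := Finset.dvd_prod_of_mem (fun p => p ^ (-e p).toNat) hp
      unfold kN at h3
      rw [h3] at this
      exact Nat.dvd_one.1 this
    have h6 := (Nat.pow_eq_one.1 h4).resolve_left (hP p hp).ne_one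
    have h7 := (Nat.pow_eq_one.1 h5).resolve_left (hP p hp).ne_one
    omega
  · intro h
    unfold hN kN
    refine Finset.prod_congr rfl fun p hp => ?_
    rw [h p hp]
    simp

lemma circ (n : ℤ) : ∫ y : UnitAddCircle, (fourier n y : ℂ) ∂(AddCircle.haarAddCircle (T := (1:ℝ))) =
    if n = 0 then 1 else 0 := by
  split_ifs with h
  · subst h
    simp
  · exact integral_eq_zero_of_add_right_eq_neg (μ := AddCircle.haarAddCircle)
      (fourier_add_half_inv_index h one_pos)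

lemma HP_four (P : Finset ℕ) (n : P → ℤ) :
    ∫ x, mFourier n x ∂(HP P) = if n = 0 then 1 else 0 := by
  unfold HP mFourier
  simp only [ContinuousMap.coe_mk]
  rw [integral_fintype_prod_eq_prod (𝕜 := ℂ) (fun p : P => (fourier (n p) : UnitAddCircle → ℂ))]
  simp_rw [circ]
  split_ifs with h
  · subst h
    simp
  · obtain ⟨p, hp⟩ := Function.ne_iff.1 h
    exact Finset.prod_eq_zero (Finset.mem_univ p) (if_neg hp)

/-! ### the functional -/

lemma ec_cont {D : PC} (hD : ∀ n ∈ D.coeff.support, n ≠ 0) (δ : ℝ) :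
    Continuous fun t : ℝ => ec (1 / 2 + δ + t * I) D := by
  unfold ec
  simp only [MonoidAlgebra.lift_apply, Finsupp.sum]
  refine continuous_finsetSum _ fun n hn => ?_
  have hn0 : (n : ℂ) ≠ 0 := by exact_mod_cast hD n hn
  have h1 : ∀ t : ℝ, hsc (1 / 2 + δ + t * I) n = (n : ℂ) ^ (-(1 / 2 + δ + t * I) : ℂ) :=
    fun t => rfl
  simp_rw [h1]
  have h2 : Continuous fun t : ℝ => (-(1 / 2 + (δ : ℂ) + t * I) : ℂ) := by fun_prop
  have h3 : Continuous fun t : ℝ => (n : ℂ) ^ (-(1 / 2 + (δ : ℂ) + t * I) : ℂ) :=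
    h2.const_cpow (Or.inl hn0)
  simp only [smul_eq_mul]
  exact continuous_const.mul h3

/-- admissible data -/
structure Adm (P : Finset ℕ) (X X1 δ : ℝ) (D : PC) : Prop where
  h0 : 0 ≤ X1
  h1 : X1 ≤ X
  hδ : 0 ≤ δ
  cop : Cop P (X ^ ((1:ℝ) / 8)) D
  lc : lc1 D ≤ X ^ ((1:ℝ) / 8)

/-- the difference -/
noncomputable def Tf (P : Finset ℕ) (X X1 δ : ℝ) (D : PC) (g : C(UnitAddTorus P, ℂ)) : ℂ :=
  (∫ t in X1..X, ((‖ec (1 / 2 + δ + t * I) D‖ ^ 2 : ℝ) : ℂ) * g (pt P t)) -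
    ((X - X1 : ℝ) : ℂ) * (∫ x, g x ∂(HP P)) * ((nn δ D : ℝ) : ℂ)

/-- the size -/
noncomputable def Sz (X δ : ℝ) (D : PC) : ℝ := X * nn δ D + X ^ ((9:ℝ) / 10)

lemma nn_nonneg (δ : ℝ) (D : PC) : 0 ≤ nn δ D := by
  unfold nn wd
  refine Finset.sum_nonneg fun n _ => ?_
  positivity

lemma lc1_nonneg (D : PC) : 0 ≤ lc1 D := Finset.sum_nonneg fun _ _ => norm_nonneg _

lemma Adm.ne {P : Finset ℕ} {X X1 δ : ℝ} {D : PC} (h : Adm P X X1 δ D) :
    ∀ n ∈ D.coeff.support, n ≠ 0 := fun n hn => (h.cop n hn).1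

lemma Adm.X0 {P : Finset ℕ} {X X1 δ : ℝ} {D : PC} (h : Adm P X X1 δ D) : 0 ≤ X := h.h0.trans h.h1

lemma Sz_nonneg {P : Finset ℕ} {X X1 δ : ℝ} {D : PC} (h : Adm P X X1 δ D) : 0 ≤ Sz X δ D := by
  have h1 := h.X0
  have h2 := nn_nonneg δ D
  unfold Sz
  positivity

lemma cont_int {P : Finset ℕ} {D : PC} (hD : ∀ n ∈ D.coeff.support, n ≠ 0) (δ : ℝ)
    (g : C(UnitAddTorus P, ℂ)) :
    Continuous fun t : ℝ => ((‖ec (1 / 2 + δ + t * I) D‖ ^ 2 : ℝ) : ℂ) * g (pt P t) := by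
  have h1 := ec_cont hD δ
  have h2 : Continuous fun t => g (pt P t) := g.continuous.comp (pt_cont P)
  exact (Complex.continuous_ofReal.comp (h1.norm.pow 2)).mul h2

lemma cint (P : Finset ℕ) (g : C(UnitAddTorus P, ℂ)) : Integrable g (HP P) :=
  g.continuous.integrable_of_hasCompactSupport (HasCompactSupport.of_compactSpace _)

lemma Tf_add {P : Finset ℕ} {X X1 δ : ℝ} {D : PC} (hD : ∀ n ∈ D.coeff.support, n ≠ 0)
    (g g' : C(UnitAddTorus P, ℂ)) : Tf P X X1 δ D (g + g') = Tf P X X1 δ D g + Tf P X X1 δ D g' := by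
  unfold Tf
  have h1 := (cont_int hD δ g).intervalIntegrable X1 X (μ := volume)
  have h2 := (cont_int hD δ g').intervalIntegrable X1 X (μ := volume)
  simp only [ContinuousMap.add_apply, mul_add]
  rw [intervalIntegral.integral_add h1 h2, integral_add (cint P g) (cint P g')]
  ring

lemma Tf_smul {P : Finset ℕ} {X X1 δ : ℝ} {D : PC} (c : ℂ)
    (g : C(UnitAddTorus P, ℂ)) : Tf P X X1 δ D (c • g) = c * Tf P X X1 δ D g := by
  unfold Tf
  simp only [ContinuousMap.smul_apply, smul_eq_mul]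
  rw [integral_const_mul]
  have h1 : (∫ t in X1..X, ((‖ec (1 / 2 + δ + t * I) D‖ ^ 2 : ℝ) : ℂ) * (c * g (pt P t))) =
      c * ∫ t in X1..X, ((‖ec (1 / 2 + δ + t * I) D‖ ^ 2 : ℝ) : ℂ) * g (pt P t) := by
    rw [← intervalIntegral.integral_const_mul]
    congr 1
    funext t
    ring
  rw [h1]
  ring

lemma Tf_sub {P : Finset ℕ} {X X1 δ : ℝ} {D : PC} (hD : ∀ n ∈ D.coeff.support, n ≠ 0)
    (g g' : C(UnitAddTorus P, ℂ)) : Tf P X X1 δ D g = Tf P X X1 δ D (g - g') + Tf P X X1 δ D g' := by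
  rw [← Tf_add hD, sub_add_cancel]

lemma pow_small {X : ℝ} (hX : 1 ≤ X) : X ^ ((1:ℝ) / 8) * (X ^ ((1:ℝ) / 8)) ^ 2 ≤ X ^ ((9:ℝ) / 10) := by
  have h0 : 0 < X := by linarith
  rw [← Real.rpow_natCast (X ^ ((1:ℝ) / 8)) 2, ← Real.rpow_mul h0.le, ← Real.rpow_add h0]
  apply Real.rpow_le_rpow_of_exponent_le hX
  norm_num

lemma mv_bd {P : Finset ℕ} (hP : ∀ p ∈ P, p.Prime) (h : S_MV) {X X1 δ : ℝ} {D : PC}
    (hA : Adm P X X1 δ D) {u v : ℕ} (hu : Mo P u) (hv : Mo P v) (huv : u.Coprime v) :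
    ‖(∫ t in X1..X, ((‖ec (1 / 2 + δ + t * I) D‖ ^ 2 : ℝ) : ℂ) * chr u v t) -
      (if u = v then (((X - X1) * nn δ D : ℝ) : ℂ) else 0)‖ ≤
        8 * u * v * (X ^ ((1:ℝ) / 8) * (X ^ ((1:ℝ) / 8)) ^ 2) := by
  have h1 := h P hP (X ^ ((1:ℝ) / 8)) X1 X δ D u v hA.cop hA.hδ hA.h1 hu hv huv
  refine h1.trans ?_
  have h2 : lc1 D ^ 2 ≤ (X ^ ((1:ℝ) / 8)) ^ 2 := pow_le_pow_left₀ (lc1_nonneg D) hA.lc 2
  have h3 : 0 ≤ X ^ ((1:ℝ) / 8) := Real.rpow_nonneg hA.X0 _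
  calc 8 * (u:ℝ) * v * X ^ ((1:ℝ) / 8) * lc1 D ^ 2
      ≤ 8 * (u:ℝ) * v * X ^ ((1:ℝ) / 8) * (X ^ ((1:ℝ) / 8)) ^ 2 :=
        mul_le_mul_of_nonneg_left h2 (by positivity)
    _ = _ := by ring

lemma int_bd {P : Finset ℕ} (hP : ∀ p ∈ P, p.Prime) (h : S_MV) {X X1 δ : ℝ} {D : PC}
    (hX : 1 ≤ X) (hA : Adm P X X1 δ D) :
    ∫ t in X1..X, ‖ec (1 / 2 + δ + t * I) D‖ ^ 2 ≤ X * nn δ D + 8 * X ^ ((9:ℝ) / 10) := by
  have hone : Mo P 1 := ⟨one_ne_zero, fun p hp hd => absurd (Nat.dvd_one.1 hd) hp.ne_one⟩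
  have h1 := mv_bd hP h hA hone hone (Nat.coprime_one_left 1)
  rw [if_pos rfl] at h1
  have h2 : ∀ t : ℝ, chr 1 1 t = 1 := by
    intro t
    unfold chr
    simp
  simp_rw [h2, mul_one] at h1
  rw [intervalIntegral.integral_ofReal, ← Complex.ofReal_sub, Complex.norm_real, Real.norm_eq_abs]
    at h1
  have h3 := (le_abs_self _).trans h1
  have h4 := pow_small hX
  have h5 : (X - X1) * nn δ D ≤ X * nn δ D :=
    mul_le_mul_of_nonneg_right (by linarith [hA.h0]) (nn_nonneg δ D)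
  push_cast at h3
  linarith

lemma Tf_bd {P : Finset ℕ} (hP : ∀ p ∈ P, p.Prime) (h : S_MV) {X X1 δ : ℝ} {D : PC}
    (hX : 1 ≤ X) (hA : Adm P X X1 δ D) (g : C(UnitAddTorus P, ℂ)) :
    ‖Tf P X X1 δ D g‖ ≤ 8 * ‖g‖ * Sz X δ D := by
  unfold Tf
  have h1 : ‖∫ t in X1..X, ((‖ec (1 / 2 + δ + t * I) D‖ ^ 2 : ℝ) : ℂ) * g (pt P t)‖ ≤
      ‖g‖ * (X * nn δ D + 8 * X ^ ((9:ℝ) / 10)) := by
    calc _ ≤ ∫ t in X1..X, ‖g‖ * ‖ec (1 / 2 + δ + t * I) D‖ ^ 2 := by
          apply intervalIntegral.norm_integral_le_of_norm_le hA.h1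
          · refine Filter.Eventually.of_forall fun t _ => ?_
            rw [norm_mul, Complex.norm_real, Real.norm_of_nonneg (by positivity), mul_comm]
            exact mul_le_mul_of_nonneg_right (g.norm_coe_le_norm _) (by positivity)
          · apply Continuous.intervalIntegrable
            exact continuous_const.mul ((ec_cont hA.ne δ).norm.pow 2)
      _ = ‖g‖ * ∫ t in X1..X, ‖ec (1 / 2 + δ + t * I) D‖ ^ 2 :=
          intervalIntegral.integral_const_mul _ _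
      _ ≤ _ := mul_le_mul_of_nonneg_left (int_bd hP h hX hA) (norm_nonneg _)
  have h2 : ‖∫ x, g x ∂(HP P)‖ ≤ ‖g‖ := by
    have h := norm_integral_le_of_norm_le_const (μ := HP P) (f := g) (C := ‖g‖)
      (Filter.Eventually.of_forall fun x => g.norm_coe_le_norm x)
    simpa using h
  have h3 : ‖((X - X1 : ℝ) : ℂ) * (∫ x, g x ∂(HP P)) * ((nn δ D : ℝ) : ℂ)‖ ≤
      ‖g‖ * (X * nn δ D) := by
    rw [norm_mul, norm_mul, Complex.norm_real, Complex.norm_real,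
      Real.norm_of_nonneg (nn_nonneg δ D), Real.norm_of_nonneg (by linarith [hA.h1])]
    have h4 : (X - X1) * ‖∫ x, g x ∂(HP P)‖ ≤ X * ‖g‖ :=
      mul_le_mul (by linarith [hA.h0]) h2 (norm_nonneg _) hA.X0
    calc (X - X1) * ‖∫ x, g x ∂(HP P)‖ * nn δ D ≤ (X * ‖g‖) * nn δ D :=
          mul_le_mul_of_nonneg_right h4 (nn_nonneg δ D)
      _ = _ := by ring
  refine (norm_sub_le _ _).trans ?_
  unfold Sz
  have h5 : 0 ≤ ‖g‖ * (X * nn δ D) :=
    mul_nonneg (norm_nonneg _) (mul_nonneg hA.X0 (nn_nonneg δ D))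
  nlinarith

/-- the assertion for one function -/
def Good (P : Finset ℕ) (g : C(UnitAddTorus P, ℂ)) : Prop := ∀ ε : ℝ, 0 < ε → ∀ᶠ X : ℝ in atTop,
  ∀ (X1 δ : ℝ) (D : PC), Adm P X X1 δ D → ‖Tf P X X1 δ D g‖ ≤ ε * Sz X δ D

lemma good_four {P : Finset ℕ} (hP : ∀ p ∈ P, p.Prime) (h : S_MV) (n : P → ℤ) :
    Good P (mFourier n) := by
  classical
  intro ε hε
  set e : ℕ → ℤ := fun p => if hp : p ∈ P then n ⟨p, hp⟩ else 0 with he
  have hn : n = fun p : P => e p := by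
    funext p
    rw [he]
    simp
  have hlim : Tendsto (fun X : ℝ => X ^ (-((9:ℝ) / 10 - 3 / 8))) atTop (𝓝 0) :=
    tendsto_rpow_neg_atTop (by norm_num)
  set c : ℝ := 8 * (hN P e) * (kN P e) with hc
  have hc0 : 0 ≤ c := by positivity
  have hev : ∀ᶠ X : ℝ in atTop, X ^ (-((9:ℝ) / 10 - 3 / 8)) < ε / (c + 1) :=
    hlim.eventually_lt_const (by positivity)
  filter_upwards [hev, eventually_ge_atTop 1] with X hX hX1 X1 δ D hA
  have h0 : 0 < X := by linarith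
  have h1 := mv_bd hP h hA (pow_Mo hP fun p => (e p).toNat) (pow_Mo hP fun p => (-e p).toNat)
    (hkN_coprime hP e)
  have h2 : Tf P X X1 δ D (mFourier n) =
      (∫ t in X1..X, ((‖ec (1 / 2 + δ + t * I) D‖ ^ 2 : ℝ) : ℂ) * chr (hN P e) (kN P e) t) -
      (if hN P e = kN P e then (((X - X1) * nn δ D : ℝ) : ℂ) else 0) := by
    unfold Tf
    rw [HP_four]
    have h3 : ∀ t, mFourier n (pt P t) = chr (hN P e) (kN P e) t := by
      intro t
      rw [hn]
      exact mF_pt hP e t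
    simp_rw [h3]
    congr 1
    have h4 : n = 0 ↔ hN P e = kN P e := by
      rw [hN_eq_kN hP]
      constructor
      · intro h5 p hp
        have h6 := congrFun h5 ⟨p, hp⟩
        rw [hn] at h6
        exact h6
      · intro h5
        rw [hn]
        funext p
        exact h5 p p.2
    by_cases h5 : n = 0
    · rw [if_pos h5, if_pos (h4.1 h5)]
      push_cast
      ring
    · rw [if_neg h5, if_neg (fun h6 => h5 (h4.2 h6))]
      ring
  rw [h2]
  refine h1.trans ?_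
  have h5 : X ^ ((1:ℝ) / 8) * (X ^ ((1:ℝ) / 8)) ^ 2 = X ^ (-((9:ℝ) / 10 - 3 / 8)) * X ^ ((9:ℝ) / 10) := by
    rw [← Real.rpow_natCast (X ^ ((1:ℝ) / 8)) 2, ← Real.rpow_mul h0.le, ← Real.rpow_add h0,
      ← Real.rpow_add h0]
    congr 1
    norm_num
  have h6 : (0:ℝ) ≤ X ^ ((9:ℝ) / 10) := Real.rpow_nonneg h0.le _
  have h7 : c * X ^ (-((9:ℝ) / 10 - 3 / 8)) ≤ ε := by
    have h8 : c * X ^ (-((9:ℝ) / 10 - 3 / 8)) ≤ c * (ε / (c + 1)) :=
      mul_le_mul_of_nonneg_left hX.le hc0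
    have h9 : c * (ε / (c + 1)) ≤ ε := by
      rw [mul_div_assoc', div_le_iff₀ (by positivity)]
      nlinarith
    linarith
  have h10 : c * (X ^ ((1:ℝ) / 8) * (X ^ ((1:ℝ) / 8)) ^ 2) ≤ ε * X ^ ((9:ℝ) / 10) := by
    rw [h5, ← mul_assoc]
    exact mul_le_mul_of_nonneg_right h7 h6
  have h11 : (0:ℝ) ≤ ε * (X * nn δ D) :=
    mul_nonneg hε.le (mul_nonneg h0.le (nn_nonneg δ D))
  have h12 : 8 * ((∏ p ∈ P, p ^ (e p).toNat : ℕ) : ℝ) * ((∏ p ∈ P, p ^ (-e p).toNat : ℕ) : ℝ) = c := by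
    rw [hc]
    rfl
  rw [h12]
  unfold Sz
  linarith

lemma good_all {P : Finset ℕ} (hP : ∀ p ∈ P, p.Prime) (h : S_MV) (g : C(UnitAddTorus P, ℂ)) :
    Good P g := by
  let S : Submodule ℂ C(UnitAddTorus P, ℂ) :=
    { carrier := {g | Good P g}
      add_mem' := fun {a b} ha hb => by
        intro ε hε
        filter_upwards [ha (ε / 2) (half_pos hε), hb (ε / 2) (half_pos hε)] with X h1 h2 X1 δ D hA
        rw [Tf_add hA.ne]
        have h3 := h1 X1 δ D hA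
        have h4 := h2 X1 δ D hA
        refine (norm_add_le _ _).trans ?_
        linarith
      zero_mem' := by
        intro ε hε
        filter_upwards with X X1 δ D hA
        have h1 : Tf P X X1 δ D 0 = 0 := by
          unfold Tf
          simp
        rw [h1, norm_zero]
        exact mul_nonneg hε.le (Sz_nonneg hA)
      smul_mem' := fun c a ha => by
        intro ε hε
        filter_upwards [ha (ε / (‖c‖ + 1)) (by positivity)] with X h1 X1 δ D hA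
        rw [Tf_smul, norm_mul]
        have h2 := h1 X1 δ D hA
        calc ‖c‖ * ‖Tf P X X1 δ D a‖ ≤ ‖c‖ * (ε / (‖c‖ + 1) * Sz X δ D) :=
              mul_le_mul_of_nonneg_left h2 (norm_nonneg _)
          _ = (‖c‖ * (ε / (‖c‖ + 1))) * Sz X δ D := by ring
          _ ≤ ε * Sz X δ D := by
              apply mul_le_mul_of_nonneg_right _ (Sz_nonneg hA)
              rw [mul_div_assoc', div_le_iff₀ (by positivity)]
              nlinarith [norm_nonneg c] }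
  have hS : Submodule.span ℂ (Set.range (mFourier (d := P))) ≤ S := by
    rw [Submodule.span_le]
    rintro _ ⟨n, rfl⟩
    exact good_four hP h n
  have hg : g ∈ (Submodule.span ℂ (Set.range (mFourier (d := P)))).topologicalClosure := by
    rw [span_mFourier_closure_eq_top]; trivial
  rw [← SetLike.mem_coe, Submodule.topologicalClosure_coe, Metric.mem_closure_iff] at hg
  intro ε hε
  obtain ⟨g', hg', hd⟩ := hg (ε / 16) (by positivity)
  have h1 : Good P g' := hS hg'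
  filter_upwards [h1 (ε / 2) (half_pos hε), eventually_ge_atTop 1] with X h2 hX X1 δ D hA
  rw [Tf_sub hA.ne g g']
  have h3 := h2 X1 δ D hA
  have h4 := Tf_bd hP h hX hA (g - g')
  rw [dist_eq_norm] at hd
  have h5 : 8 * ‖g - g'‖ * Sz X δ D ≤ ε / 2 * Sz X δ D :=
    mul_le_mul_of_nonneg_right (by linarith) (Sz_nonneg hA)
  refine (norm_add_le _ _).trans ?_
  linarith

theorem main (h : S_MV) : S_EQ := by
  intro P hP K _ _ F hF ε hε
  let F' : C(K × UnitAddTorus P, ℂ) := ⟨fun x => (F x : ℂ), Complex.continuous_ofReal.comp hF⟩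
  let Φ : C(K, C(UnitAddTorus P, ℂ)) := F'.curry
  obtain ⟨t, -, ht, hcov⟩ := (isCompact_range Φ.continuous).finite_cover_balls
    (show (0:ℝ) < ε / 16 by positivity)
  have hall : ∀ᶠ X : ℝ in atTop, ∀ g ∈ t, ∀ (X1 δ : ℝ) (D : PC), Adm P X X1 δ D →
      ‖Tf P X X1 δ D g‖ ≤ ε / 2 * Sz X δ D := by
    rw [Filter.eventually_all_finite ht]
    intro g _
    exact good_all hP h g (ε / 2) (half_pos hε)
  filter_upwards [hall, eventually_ge_atTop 1] with X h1 hX X1 hX10 hX1X k δ hδ D hcop hlc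
  have hA : Adm P X X1 δ D := ⟨hX10, hX1X, hδ, hcop, hlc⟩
  obtain ⟨g, hg, hkg⟩ : ∃ g ∈ t, dist (Φ k) g < ε / 16 := by
    have h2 := hcov ⟨k, rfl⟩
    simpa using h2
  have h2 := h1 g hg X1 δ D hA
  have h3 := Tf_bd hP h hX hA (Φ k - g)
  rw [dist_eq_norm] at hkg
  have h4 : 8 * ‖Φ k - g‖ * Sz X δ D ≤ ε / 2 * Sz X δ D :=
    mul_le_mul_of_nonneg_right (by linarith) (Sz_nonneg hA)
  have h5 : ‖Tf P X X1 δ D (Φ k)‖ ≤ ε * Sz X δ D := by
    rw [Tf_sub hA.ne (Φ k) g]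
    refine (norm_add_le _ _).trans ?_
    linarith
  have h6 : Tf P X X1 δ D (Φ k) =
      (((∫ t in X1..X, F (k, pt P t) * ‖ec (1 / 2 + δ + t * I) D‖ ^ 2) -
      (X - X1) * (∫ x, F (k, x) ∂(HP P)) * nn δ D : ℝ) : ℂ) := by
    have e1 : ((∫ x, F (k, x) ∂(HP P) : ℝ) : ℂ) = ∫ x, Φ k x ∂(HP P) :=
      (integral_ofReal (𝕜 := ℂ) (f := fun x => F (k, x)) (μ := HP P)).symm
    have e2 : ((∫ t in X1..X, F (k, pt P t) * ‖ec (1 / 2 + δ + t * I) D‖ ^ 2 : ℝ) : ℂ) =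
        ∫ t in X1..X, ((‖ec (1 / 2 + δ + t * I) D‖ ^ 2 : ℝ) : ℂ) * Φ k (pt P t) := by
      rw [← intervalIntegral.integral_ofReal]
      congr 1
      funext t
      push_cast
      rw [mul_comm]
      rfl
    unfold Tf
    rw [← e2, ← e1]
    push_cast
    ring
  rw [h6, Complex.norm_real, Real.norm_eq_abs] at h5
  exact h5

end Pool.Agent.N748.GC.EQ
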