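import Pool.Agent.N748.GC.Stm

set_option autoImplicit false

/-!
# Mean square of a complex Dirichlet polynomial with a character
-/

namespace Pool.Agent.N748.GC.MV

open Finset Filter MeasureTheory MonoidAlgebra Topology Complex Pool.Agent.N748.GC

/-! ### lemmas on polynomials -/

lemma PC_sum (f : PC) : f = ∑ n ∈ f.coeff.support, single n (f.coeff n) :=
  (MonoidAlgebra.sum_coeff_single f).symm

@[simp] lemma ec_single (s : ℂ) (n : ℕ) (c : ℂ) : ec s (single n c) = c * (n : ℂ) ^ (-s) := by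
  unfold ec
  rw [MonoidAlgebra.lift_single, smul_eq_mul]
  rfl

lemma ec_apply (s : ℂ) (f : PC) : ec s f = ∑ n ∈ f.coeff.support, f.coeff n * (n : ℂ) ^ (-s) := by
  conv_lhs => rw [PC_sum f, map_sum]
  exact sum_congr rfl fun n _ => ec_single s n _

@[simp] lemma sf_single (h : ℝ) (n : ℕ) (c : ℂ) :
    sf h (single n c) = single n (c * (n : ℂ) ^ (-(h * I))) := by
  unfold sf
  rw [MonoidAlgebra.lift_single]
  change c • single n ((n : ℂ) ^ (-(h * I))) = _
  rw [MonoidAlgebra.smul_single, smul_eq_mul]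

lemma sf_coeff (h : ℝ) (f : PC) (n : ℕ) :
    (sf h f).coeff n = f.coeff n * (n : ℂ) ^ (-(h * I)) := by
  classical
  conv_lhs => rw [PC_sum f, map_sum]
  simp only [sf_single]
  rw [MonoidAlgebra.coeff_sum, Finsupp.finsetSum_apply]
  simp only [MonoidAlgebra.coeff_single, Finsupp.single_apply]
  rw [Finset.sum_ite_eq']
  split_ifs with hn
  · rfl
  · rw [Finsupp.notMem_support_iff.mp hn, zero_mul]

lemma sf_support (h : ℝ) (f : PC) : (sf h f).coeff.support ⊆ f.coeff.support := by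
  intro n hn
  rw [Finsupp.mem_support_iff, sf_coeff] at hn
  rw [Finsupp.mem_support_iff]
  exact left_ne_zero_of_mul hn

lemma norm_cpow_I {n : ℕ} (hn : n ≠ 0) (h : ℝ) : ‖(n : ℂ) ^ (-(h * I))‖ = 1 := by
  rw [Complex.norm_natCast_cpow_of_pos (Nat.pos_of_ne_zero hn)]
  simp

lemma norm_sf_coeff (h : ℝ) (f : PC) {n : ℕ} (hn : n ≠ 0) : ‖(sf h f).coeff n‖ = ‖f.coeff n‖ := by
  rw [sf_coeff, norm_mul, norm_cpow_I hn, mul_one]

lemma norm_sf_coeff_le (h : ℝ) (f : PC) (n : ℕ) : ‖(sf h f).coeff n‖ ≤ ‖f.coeff n‖ := by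
  rcases eq_or_ne n 0 with hn | hn
  · subst hn
    rw [sf_coeff, norm_mul]
    refine mul_le_of_le_one_right (norm_nonneg _) ?_
    rcases eq_or_ne (-(h * I)) (0 : ℂ) with h0 | h0
    · rw [h0]; simp
    · rw [Nat.cast_zero, Complex.zero_cpow h0]; simp
  · exact (norm_sf_coeff h f hn).le

lemma nn_eq_of_subset (δ : ℝ) (f : PC) {s : Finset ℕ} (hs : f.coeff.support ⊆ s) :
    nn δ f = ∑ n ∈ s, ‖f.coeff n‖ ^ 2 * wd δ n := by
  unfold nn
  refine sum_subset hs fun n _ hn => ?_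
  rw [Finsupp.notMem_support_iff.mp hn]
  simp

lemma lc1_eq_of_subset (f : PC) {s : Finset ℕ} (hs : f.coeff.support ⊆ s) :
    lc1 f = ∑ n ∈ s, ‖f.coeff n‖ := by
  unfold lc1
  refine sum_subset hs fun n _ hn => ?_
  rw [Finsupp.notMem_support_iff.mp hn]
  simp

lemma wd_zero (δ : ℝ) : wd δ 0 = 0 := by
  unfold wd; simp

lemma wd_nonneg (δ : ℝ) (n : ℕ) : 0 ≤ wd δ n := by
  unfold wd; positivity

lemma lc1_nonneg (f : PC) : 0 ≤ lc1 f := sum_nonneg fun _ _ => norm_nonneg _

lemma nn_nonneg (δ : ℝ) (f : PC) : 0 ≤ nn δ f :=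
  sum_nonneg fun n _ => mul_nonneg (sq_nonneg _) (wd_nonneg δ n)

@[simp] lemma nn_sf (δ h : ℝ) (f : PC) : nn δ (sf h f) = nn δ f := by
  rw [nn_eq_of_subset δ _ (sf_support h f)]
  unfold nn
  refine sum_congr rfl fun n _ => ?_
  rcases eq_or_ne n 0 with hn | hn
  · subst hn; rw [wd_zero, mul_zero, mul_zero]
  · rw [norm_sf_coeff h f hn]

lemma lc1_sf_le (h : ℝ) (f : PC) : lc1 (sf h f) ≤ lc1 f := by
  rw [lc1_eq_of_subset _ (sf_support h f)]
  exact sum_le_sum fun n _ => norm_sf_coeff_le h f n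

lemma lc1_sf (h : ℝ) {f : PC} (hf : ∀ n ∈ f.coeff.support, n ≠ 0) : lc1 (sf h f) = lc1 f := by
  rw [lc1_eq_of_subset _ (sf_support h f)]
  exact sum_congr rfl fun n hn => norm_sf_coeff h f (hf n hn)

lemma ec_sf (s : ℂ) (h : ℝ) {f : PC} (hf : ∀ n ∈ f.coeff.support, n ≠ 0) :
    ec s (sf h f) = ec (s + h * I) f := by
  rw [ec_apply (s + h * I) f]
  conv_lhs => rw [PC_sum f, map_sum, map_sum]
  refine sum_congr rfl fun n hn => ?_
  rw [sf_single, ec_single, mul_assoc, ← Complex.cpow_add _ _ (by exact_mod_cast hf n hn)]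
  congr 2
  ring

lemma lc1_single (n : ℕ) (c : ℂ) : lc1 (single n c) = ‖c‖ := by
  rw [lc1_eq_of_subset (single n c) (s := {n}) ?_]
  · rw [sum_singleton, MonoidAlgebra.coeff_single, Finsupp.single_eq_same]
  · rw [MonoidAlgebra.coeff_single]
    exact Finsupp.support_single_subset

lemma lc1_add (f g : PC) : lc1 (f + g) ≤ lc1 f + lc1 g := by
  classical
  have h1 : (f + g).coeff.support ⊆ f.coeff.support ∪ g.coeff.support := by
    rw [MonoidAlgebra.coeff_add]
    exact Finsupp.support_add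
  rw [lc1_eq_of_subset _ h1, lc1_eq_of_subset f (subset_union_left (s₂ := g.coeff.support)),
    lc1_eq_of_subset g (subset_union_right (s₁ := f.coeff.support)), ← sum_add_distrib]
  refine sum_le_sum fun n _ => ?_
  rw [MonoidAlgebra.coeff_add]
  exact norm_add_le _ _

lemma lc1_zero : lc1 0 = 0 := by
  simp [lc1]

lemma lc1_sum {ι : Type*} (s : Finset ι) (f : ι → PC) : lc1 (∑ i ∈ s, f i) ≤ ∑ i ∈ s, lc1 (f i) := by
  classical
  induction s using Finset.induction_on with
  | empty => simp [lc1_zero]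
  | insert a s ha ih =>
    rw [sum_insert ha, sum_insert ha]
    exact (lc1_add _ _).trans (by linarith)

lemma lc1_mul (f g : PC) : lc1 (f * g) ≤ lc1 f * lc1 g := by
  conv_lhs => rw [PC_sum f, PC_sum g, sum_mul_sum]
  refine (lc1_sum _ _).trans ?_
  conv_rhs => unfold lc1
  rw [sum_mul_sum]
  refine sum_le_sum fun m _ => (lc1_sum _ _).trans (sum_le_sum fun n _ => ?_)
  rw [single_mul_single, lc1_single, norm_mul]

lemma Cop_sf {P : Finset ℕ} {N : ℝ} {D : PC} (h : ℝ) (hD : Cop P N D) : Cop P N (sf h D) :=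
  fun n hn => hD n (sf_support h D hn)

lemma Cop_mul {P : Finset ℕ} (hP : ∀ p ∈ P, p.Prime) {N M : ℝ} (hN : 0 ≤ N) {f g : PC}
    (hf : Cop P N f) (hg : Cop P M g) : Cop P (N * M) (f * g) := by
  classical
  intro n hn
  have h1 := support_coeff_mul_subset f g hn
  rw [Finset.mem_mul] at h1
  obtain ⟨a, ha, b, hb, rfl⟩ := h1
  obtain ⟨a1, a2, a3⟩ := hf a ha
  obtain ⟨b1, b2, b3⟩ := hg b hb
  refine ⟨mul_ne_zero a1 b1, ?_, fun p hp hd => ?_⟩
  · push_cast
    exact mul_le_mul a2 b2 (Nat.cast_nonneg _) hN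
  · rcases ((hP p hp).dvd_mul).1 hd with h | h
    · exact a3 p hp h
    · exact b3 p hp h

/-! ### the integral of a character -/

lemma int_exp (lam X1 X2 : ℝ) (h : lam ≠ 0) :
    ‖∫ t in X1..X2, Complex.exp ((lam : ℂ) * I * t)‖ ≤ 2 / |lam| := by
  have hc : (lam : ℂ) * I ≠ 0 := mul_ne_zero (by exact_mod_cast h) I_ne_zero
  rw [integral_exp_mul_complex hc, norm_div, norm_mul, Complex.norm_I, mul_one, Complex.norm_real,
    Real.norm_eq_abs]
  refine div_le_div_of_nonneg_right ?_ (abs_nonneg _)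
  refine (norm_sub_le _ _).trans ?_
  have e : ∀ t : ℝ, ‖Complex.exp ((lam : ℂ) * I * t)‖ = 1 := by
    intro t
    have : (lam : ℂ) * I * t = ((lam * t : ℝ) : ℂ) * I := by push_cast; ring
    rw [this, Complex.norm_exp_ofReal_mul_I]
  rw [e, e]
  norm_num

/-- the logarithms of two different positive integers are not close -/
lemma log_gap {a b : ℕ} (ha : a ≠ 0) (hb : b ≠ 0) (hab : a ≠ b) {M : ℝ} (haM : (a : ℝ) ≤ M)
    (hbM : (b : ℝ) ≤ M) : 1 / M ≤ |Real.log a - Real.log b| := by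
  wlog h : a < b generalizing a b with H
  · rw [abs_sub_comm]
    exact H hb ha hab.symm hbM haM (by omega)
  have ha' : (0 : ℝ) < a := by exact_mod_cast Nat.pos_of_ne_zero ha
  have hb' : (0 : ℝ) < b := by exact_mod_cast Nat.pos_of_ne_zero hb
  have h1 : (a : ℝ) + 1 ≤ b := by exact_mod_cast h
  rw [abs_sub_comm]
  refine le_trans ?_ (le_abs_self _)
  rw [← Real.log_div hb'.ne' ha'.ne']
  have h2 : 1 - (b / a : ℝ)⁻¹ ≤ Real.log (b / a) := Real.one_sub_inv_le_log_of_pos (by positivity)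
  refine le_trans ?_ h2
  rw [inv_div]
  have h3 : (1 : ℝ) / M ≤ 1 / b := one_div_le_one_div_of_le hb' hbM
  have h4 : (1 : ℝ) / b ≤ 1 - a / b := by
    rw [le_sub_iff_add_le, ← add_div, div_le_one hb']
    linarith
  linarith

theorem main : Pool.Agent.N748.GC.S_MV := by
  classical
  intro P hP N X1 X2 δ D u v hD hδ hX hu hv huv
  set S := D.coeff.support with hS
  set a : ℕ → ℂ := fun n => D.coeff n * (n : ℂ) ^ (-(1 / 2 + δ : ℂ)) with ha
  have hn0 : ∀ n ∈ S, n ≠ 0 := fun n hn => (hD n hn).1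
  have hnorm : ∀ n ∈ S, ‖a n‖ = ‖D.coeff n‖ * (n : ℝ) ^ (-(1 / 2 + δ)) := by
    intro n hn
    simp only [ha]
    rw [norm_mul, Complex.norm_natCast_cpow_of_pos (Nat.pos_of_ne_zero (hn0 n hn))]
    congr 2
    simp
  have hale : ∀ n ∈ S, ‖a n‖ ≤ ‖D.coeff n‖ := by
    intro n hn
    rw [hnorm n hn]
    refine mul_le_of_le_one_right (norm_nonneg _) ?_
    exact Real.rpow_le_one_of_one_le_of_nonpos
      (by exact_mod_cast Nat.pos_of_ne_zero (hn0 n hn)) (by linarith)
  have hsq : ∀ n ∈ S, ‖a n‖ ^ 2 = ‖D.coeff n‖ ^ 2 * wd δ n := by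
    intro n hn
    have h0 : (0 : ℝ) < n := by exact_mod_cast Nat.pos_of_ne_zero (hn0 n hn)
    rw [hnorm n hn, mul_pow]
    congr 1
    unfold wd
    have h1 : (1 : ℝ) / n = (n : ℝ) ^ (-1 : ℝ) := by rw [Real.rpow_neg_one, one_div]
    rw [h1, ← Real.rpow_natCast, ← Real.rpow_mul h0.le, ← Real.rpow_add h0]
    congr 1
    push_cast
    ring
  have hec : ∀ t : ℝ, ec (1 / 2 + δ + t * I) D =
      ∑ n ∈ S, a n * Complex.exp (-((Real.log n : ℝ) : ℂ) * I * t) := by
    intro t
    rw [ec_apply]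
    refine sum_congr rfl fun n hn => ?_
    have hnc : (n : ℂ) ≠ 0 := by exact_mod_cast hn0 n hn
    simp only [ha]
    rw [mul_assoc]
    congr 1
    have e1 : -(1 / 2 + (δ : ℂ) + t * I) = -(1 / 2 + (δ : ℂ)) + -(t * I) := by ring
    rw [e1, Complex.cpow_add _ _ hnc]
    congr 1
    rw [Complex.cpow_def_of_ne_zero hnc, Complex.natCast_log]
    congr 1
    ring
  -- the integrand
  have hint : ∀ t : ℝ, ((‖ec (1 / 2 + δ + t * I) D‖ ^ 2 : ℝ) : ℂ) * chr u v t =
      ∑ m ∈ S, ∑ n ∈ S, a m * (starRingEnd ℂ) (a n) *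
        Complex.exp (((Real.log n - Real.log m + Real.log v - Real.log u : ℝ) : ℂ) * I * t) := by
    intro t
    have e1 : ((‖ec (1 / 2 + δ + t * I) D‖ ^ 2 : ℝ) : ℂ) =
        ec (1 / 2 + δ + t * I) D * (starRingEnd ℂ) (ec (1 / 2 + δ + t * I) D) := by
      rw [Complex.mul_conj, Complex.normSq_eq_norm_sq]
    rw [e1, hec, map_sum, sum_mul_sum, sum_mul]
    refine sum_congr rfl fun m _ => ?_
    rw [sum_mul]
    refine sum_congr rfl fun n _ => ?_
    rw [map_mul, ← Complex.exp_conj]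
    unfold chr
    have e2 : (starRingEnd ℂ) (-((Real.log n : ℝ) : ℂ) * I * t) = ((Real.log n : ℝ) : ℂ) * I * t := by
      rw [map_mul, map_mul, map_neg, Complex.conj_ofReal, Complex.conj_ofReal, Complex.conj_I]
      ring
    rw [e2]
    have e3 : ((Real.log n - Real.log m + Real.log v - Real.log u : ℝ) : ℂ) * I * t =
        -((Real.log m : ℝ) : ℂ) * I * t + ((Real.log n : ℝ) : ℂ) * I * t +
          (((Real.log v - Real.log u : ℝ) : ℂ) * I * t) := by
      push_cast; ring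
    rw [e3, Complex.exp_add, Complex.exp_add]
    ring
  have hu0 : u ≠ 0 := hu.1
  have hv0 : v ≠ 0 := hv.1
  have hu1 : (1 : ℝ) ≤ u := by exact_mod_cast Nat.one_le_iff_ne_zero.2 hu0
  have hv1 : (1 : ℝ) ≤ v := by exact_mod_cast Nat.one_le_iff_ne_zero.2 hv0
  set lam : ℕ → ℕ → ℝ := fun m n => Real.log n - Real.log m + Real.log v - Real.log u with hlam
  have hI : (∫ t in X1..X2, ((‖ec (1 / 2 + δ + t * I) D‖ ^ 2 : ℝ) : ℂ) * chr u v t) =
      ∑ m ∈ S, ∑ n ∈ S, a m * (starRingEnd ℂ) (a n) *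
        ∫ t in X1..X2, Complex.exp ((lam m n : ℂ) * I * t) := by
    simp only [hint]
    rw [intervalIntegral.integral_finsetSum]
    · refine sum_congr rfl fun m _ => ?_
      rw [intervalIntegral.integral_finsetSum]
      · refine sum_congr rfl fun n _ => ?_
        rw [intervalIntegral.integral_const_mul]
      · intro n _
        apply Continuous.intervalIntegrable
        fun_prop
    · intro m _
      apply Continuous.intervalIntegrable
      fun_prop
  -- the condition for a vanishing frequency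
  have hkey : ∀ m ∈ S, ∀ n ∈ S, n * v = m * u → u = v ∧ m = n := by
    intro m hm n hn hmn
    have hmP : ∀ p ∈ P, ¬ p ∣ m := (hD m hm).2.2
    have hnP : ∀ p ∈ P, ¬ p ∣ n := (hD n hn).2.2
    have hv1' : v = 1 := by
      by_contra hv1'
      obtain ⟨p, hp, hpv⟩ := Nat.exists_prime_and_dvd hv1'
      have hpP := hv.2 p hp hpv
      have h1 : p ∣ m * u := by rw [← hmn]; exact Dvd.dvd.mul_left hpv n
      rcases (hp.dvd_mul).1 h1 with h | h
      · exact hmP p hpP h
      · have := Nat.dvd_gcd h hpv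
        rw [huv] at this
        exact hp.one_lt.ne' (Nat.dvd_one.1 this)
    have hu1' : u = 1 := by
      by_contra hu1'
      obtain ⟨p, hp, hpu⟩ := Nat.exists_prime_and_dvd hu1'
      have hpP := hu.2 p hp hpu
      have h1 : p ∣ n * v := by rw [hmn]; exact Dvd.dvd.mul_left hpu m
      rcases (hp.dvd_mul).1 h1 with h | h
      · exact hnP p hpP h
      · rw [hv1'] at h
        exact hp.one_lt.ne' (Nat.dvd_one.1 h)
    rw [hu1', hv1'] at hmn
    exact ⟨hu1'.trans hv1'.symm, by omega⟩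
  have hlamlog : ∀ m ∈ S, ∀ n ∈ S, lam m n = Real.log ((n * v : ℕ) : ℝ) - Real.log ((m * u : ℕ) : ℝ) := by
    intro m hm n hn
    have h1 : (m : ℝ) ≠ 0 := by exact_mod_cast hn0 m hm
    have h2 : (n : ℝ) ≠ 0 := by exact_mod_cast hn0 n hn
    simp only [hlam]
    push_cast
    rw [Real.log_mul h2 (by positivity), Real.log_mul h1 (by positivity)]
    ring
  -- one term
  have hterm : ∀ m ∈ S, ∀ n ∈ S,
      ‖a m * (starRingEnd ℂ) (a n) * (∫ t in X1..X2, Complex.exp ((lam m n : ℂ) * I * t)) -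
        (if u = v ∧ m = n then (((X2 - X1) * ‖a m‖ ^ 2 : ℝ) : ℂ) else 0)‖ ≤
      ‖D.coeff m‖ * ‖D.coeff n‖ * (2 * (N * u * v)) := by
    intro m hm n hn
    have hNm : (m : ℝ) ≤ N := (hD m hm).2.1
    have hNn : (n : ℝ) ≤ N := (hD n hn).2.1
    have hm1 : (1 : ℝ) ≤ m := by exact_mod_cast Nat.one_le_iff_ne_zero.2 (hn0 m hm)
    have hN1 : 1 ≤ N := hm1.trans hNm
    by_cases hc : u = v ∧ m = n
    · rw [if_pos hc]
      obtain ⟨h1, h2⟩ := hc
      subst h2
      have h3 : lam m m = 0 := by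
        simp only [hlam]
        rw [h1]
        ring
      have h4 : (∫ t in X1..X2, Complex.exp ((lam m m : ℂ) * I * t)) = ((X2 - X1 : ℝ) : ℂ) := by
        rw [h3]
        simp
      rw [h4]
      have h5 : a m * (starRingEnd ℂ) (a m) * ((X2 - X1 : ℝ) : ℂ) -
          (((X2 - X1) * ‖a m‖ ^ 2 : ℝ) : ℂ) = 0 := by
        rw [Complex.mul_conj, Complex.normSq_eq_norm_sq]
        push_cast
        ring
      rw [h5, norm_zero]
      positivity
    · rw [if_neg hc, sub_zero, norm_mul, norm_mul, Complex.norm_conj]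
      have hne : n * v ≠ m * u := fun h => hc (hkey m hm n hn h)
      have h1 : ((n * v : ℕ) : ℝ) ≤ N * u * v := by
        push_cast
        calc (n : ℝ) * v ≤ N * v := mul_le_mul_of_nonneg_right hNn (by linarith)
          _ ≤ N * u * v := mul_le_mul_of_nonneg_right (le_mul_of_one_le_right (by linarith) hu1)
              (by linarith)
      have h2 : ((m * u : ℕ) : ℝ) ≤ N * u * v := by
        push_cast
        calc (m : ℝ) * u ≤ N * u := mul_le_mul_of_nonneg_right hNm (by linarith)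
          _ ≤ N * u * v := le_mul_of_one_le_right (by positivity) hv1
      have h3 := log_gap (mul_ne_zero (hn0 n hn) hv0) (mul_ne_zero (hn0 m hm) hu0) hne h1 h2
      rw [← hlamlog m hm n hn] at h3
      have hpos : 0 < N * u * v := by positivity
      have h4 : 0 < |lam m n| := lt_of_lt_of_le (by positivity) h3
      have h5 := int_exp (lam m n) X1 X2 (abs_pos.1 h4)
      have h6 : 2 / |lam m n| ≤ 2 * (N * u * v) := by
        rw [div_le_iff₀ h4]
        rw [div_le_iff₀ hpos] at h3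
        nlinarith
      exact mul_le_mul (mul_le_mul (hale m hm) (hale n hn) (norm_nonneg _) (norm_nonneg _))
        (h5.trans h6) (norm_nonneg _) (by positivity)
  -- the diagonal
  have hdiag : (if u = v then (((X2 - X1) * nn δ D : ℝ) : ℂ) else 0) =
      ∑ m ∈ S, ∑ n ∈ S, (if u = v ∧ m = n then (((X2 - X1) * ‖a m‖ ^ 2 : ℝ) : ℂ) else 0) := by
    by_cases huv' : u = v
    · simp only [huv', true_and, if_true]
      rw [nn, mul_sum, Complex.ofReal_sum]
      refine sum_congr rfl fun m hm => ?_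
      rw [Finset.sum_ite_eq, if_pos hm, hsq m hm]
    · simp [huv']
  rw [hI, hdiag, ← sum_sub_distrib]
  simp only [← sum_sub_distrib]
  calc ‖∑ m ∈ S, ∑ n ∈ S, (a m * (starRingEnd ℂ) (a n) *
        (∫ t in X1..X2, Complex.exp ((lam m n : ℂ) * I * t)) -
        (if u = v ∧ m = n then (((X2 - X1) * ‖a m‖ ^ 2 : ℝ) : ℂ) else 0))‖
      ≤ ∑ m ∈ S, ∑ n ∈ S, ‖D.coeff m‖ * ‖D.coeff n‖ * (2 * (N * u * v)) :=
        (norm_sum_le _ _).trans (sum_le_sum fun m hm => (norm_sum_le _ _).trans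
          (sum_le_sum fun n hn => hterm m hm n hn))
    _ = 2 * (N * u * v) * lc1 D ^ 2 := by
        rw [sq, lc1, sum_mul_sum, mul_sum]
        refine sum_congr rfl fun m _ => ?_
        rw [mul_sum]
        refine sum_congr rfl fun n _ => ?_
        ring
    _ ≤ 8 * u * v * N * lc1 D ^ 2 := by
        rcases S.eq_empty_or_nonempty with h | ⟨m, hm⟩
        · have : lc1 D = 0 := by rw [lc1, ← hS, h, sum_empty]
          rw [this]; simp
        · have hN0 : 0 ≤ N := (Nat.cast_nonneg m).trans (hD m hm).2.1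
          have h1 : 0 ≤ N * u * v * lc1 D ^ 2 := by positivity
          nlinarith

end Pool.Agent.N748.GC.MV
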