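import Pool.Agent.N748.GC.TWO
import Pool.Agent.N748.GC.BADA

set_option autoImplicit false

/-!
# GC/BADB: Chernoff bound at the barrier (written by helper776)
-/

namespace Pool.Agent.N748.GC.BADB

open Finset Filter MeasureTheory MonoidAlgebra Topology Complex
open Pool.Agent.N748.GC

/-! ### truncated exponentials of complex numbers -/

/-- the value of a truncated exponential -/
noncomputable def nk (K : ℕ) (a : ℝ) (w : ℂ) : ℂ :=
  ∑ k ∈ range (K + 1), ((a ^ k / (k.factorial : ℝ) : ℝ) : ℂ) * w ^ k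

lemma ec_NKc (s : ℂ) (K : ℕ) (a : ℝ) (x : PC) : ec s (NKc K a x) = nk K a (ec s x) := by
  unfold NKc nk
  rw [map_sum]
  refine sum_congr rfl fun k _ => ?_
  rw [map_smul, map_pow, smul_eq_mul]

lemma nk_eq (K : ℕ) (a : ℝ) (w : ℂ) :
    nk K a w = ∑ k ∈ range (K + 1), ((a:ℂ) * w) ^ k / (k.factorial : ℂ) := by
  unfold nk
  refine sum_congr rfl fun k _ => ?_
  push_cast
  rw [mul_pow]
  ring

lemma tay {R : ℕ} (hR : 1 ≤ R) {a : ℝ} (ha0 : 0 ≤ a) (ha : a ≤ 1) {w : ℂ} (hw : ‖w‖ ≤ R) :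
    ‖nk (20 * R) a w - Complex.exp (a * w)‖ ≤ Real.exp (-(R:ℝ)) * ‖Complex.exp (a * w)‖ := by
  have hR' : (1:ℝ) ≤ R := by exact_mod_cast hR
  have hw' : ‖(a:ℂ) * w‖ ≤ R := by
    rw [norm_mul, Complex.norm_real, Real.norm_of_nonneg ha0]
    calc a * ‖w‖ ≤ 1 * ‖w‖ := mul_le_mul_of_nonneg_right ha (norm_nonneg _)
      _ ≤ R := by linarith
  have h3 : ‖(a:ℂ) * w‖ / ((20 * R + 1 : ℕ).succ : ℝ) ≤ 1 / 2 := by
    rw [div_le_div_iff₀ (by positivity) (by norm_num)]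
    push_cast
    linarith
  have h4 := Complex.exp_bound' h3
  have h5 : ‖nk (20 * R) a w - Complex.exp (a * w)‖ ≤
      (R:ℝ) ^ (20 * R + 1) / ((20 * R + 1).factorial : ℝ) * 2 := by
    rw [norm_sub_rev, nk_eq]
    refine h4.trans ?_
    gcongr
  have h6 : Real.exp (-(R:ℝ)) ≤ ‖Complex.exp (a * w)‖ := by
    rw [Complex.norm_exp]
    refine Real.exp_le_exp.mpr ?_
    have := Complex.abs_re_le_norm ((a:ℂ) * w)
    have := (abs_le.mp (this.trans hw')).1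
    linarith
  have h7 : (R:ℝ) ^ (20 * R + 1) / ((20 * R + 1).factorial : ℝ) * 2 ≤
      Real.exp (-(R:ℝ)) * Real.exp (-(R:ℝ)) := by
    have k1 : (20 * (R:ℝ)) ^ (20 * R + 1) / ((20 * R + 1).factorial : ℝ) ≤ Real.exp (20 * R) :=
      Real.pow_div_factorial_le_exp _ (by positivity) _
    have k2 : (R:ℝ) ^ (20 * R + 1) / ((20 * R + 1).factorial : ℝ) =
        (20 * (R:ℝ)) ^ (20 * R + 1) / ((20 * R + 1).factorial : ℝ) / 20 ^ (20 * R + 1) := by
      rw [mul_pow]; field_simp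
    have k3 : Real.exp (22 * R) ≤ 20 ^ (20 * R) := by
      have e1 : Real.exp (22 * (R:ℝ)) = (Real.exp 1 ^ 22) ^ R := by
        rw [← pow_mul, ← Real.exp_nat_mul]
        congr 1
        push_cast
        ring
      have e2 : Real.exp 1 ^ 22 ≤ (20:ℝ) ^ 20 := by
        have e3 : Real.exp 1 ≤ 3 := by
          have := Real.exp_one_lt_d9
          linarith
        calc Real.exp 1 ^ 22 ≤ (3:ℝ) ^ 22 := pow_le_pow_left₀ (Real.exp_pos _).le e3 _
          _ ≤ (20:ℝ) ^ 20 := by norm_num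
      rw [e1, pow_mul]
      exact pow_le_pow_left₀ (by positivity) e2 _
    have k4 : Real.exp (20 * R) / 20 ^ (20 * R + 1) * 2 ≤ Real.exp (-(R:ℝ)) * Real.exp (-(R:ℝ)) := by
      have e1 : Real.exp (-(R:ℝ)) * Real.exp (-(R:ℝ)) = Real.exp (20 * R) * (Real.exp (22 * R))⁻¹ := by
        rw [← Real.exp_neg, ← Real.exp_add, ← Real.exp_add]
        congr 1
        ring
      rw [e1, div_mul_eq_mul_div, mul_div_assoc]
      refine mul_le_mul_of_nonneg_left ?_ (Real.exp_pos _).le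
      rw [div_le_iff₀ (by positivity), pow_succ, ← mul_assoc, inv_mul_eq_div]
      have e2 : 1 ≤ (20:ℝ) ^ (20 * R) / Real.exp (22 * R) := by
        rw [le_div_iff₀ (Real.exp_pos _), one_mul]
        exact k3
      linarith
    rw [k2]
    refine le_trans ?_ k4
    refine mul_le_mul_of_nonneg_right ?_ (by norm_num)
    exact div_le_div_of_nonneg_right k1 (by positivity)
  exact h5.trans (h7.trans (mul_le_mul_of_nonneg_left h6 (Real.exp_pos _).le))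

lemma norm_exp_mul (a : ℝ) (w : ℂ) : ‖Complex.exp (a * w)‖ = Real.exp (a * w.re) := by
  rw [Complex.norm_exp]
  congr 1
  simp

/-- the block inequality -/
lemma block {R : ℕ} (hR : 1 ≤ R) {a th : ℝ} (ha0 : 0 ≤ a) (ha : a ≤ 1) (ht0 : 0 ≤ th) (ht : th ≤ 1 / 2)
    {w : ℂ} (hw : ‖w‖ ≤ R) :
    (‖nk (20 * R) a w‖ ^ 2) ^ th ≤ Real.exp (5 * Real.exp (-(R:ℝ))) * ‖nk (20 * R) (th * a) w‖ ^ 2 := by
  have hta0 : 0 ≤ th * a := mul_nonneg ht0 ha0
  have hta1 : th * a ≤ 1 := by nlinarith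
  have h1 := tay hR ha0 ha hw
  have h2 := tay hR hta0 hta1 hw
  set q := Real.exp (-(R:ℝ)) with hq
  have hq0 : 0 < q := Real.exp_pos _
  have hq1 : q ≤ 1 / 2 := by
    have hR' : (1:ℝ) ≤ R := by exact_mod_cast hR
    have e1 : q ≤ Real.exp (-1) := Real.exp_le_exp.2 (by linarith)
    have e2 : Real.exp (-1) ≤ 1 / 2 := by
      rw [Real.exp_neg, ← one_div]
      apply one_div_le_one_div_of_le (by norm_num)
      have := Real.add_one_le_exp (1 : ℝ)
      linarith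
    linarith
  rw [norm_exp_mul] at h1 h2
  set r := w.re with hr
  have h3 : ‖nk (20 * R) a w‖ ≤ (1 + q) * Real.exp (a * r) := by
    have := norm_sub_norm_le (nk (20 * R) a w) (Complex.exp (a * w))
    rw [norm_exp_mul] at this
    linarith
  have h4 : (1 - q) * Real.exp (th * a * r) ≤ ‖nk (20 * R) (th * a) w‖ := by
    have := norm_sub_norm_le (Complex.exp ((th * a : ℝ) * w)) (nk (20 * R) (th * a) w)
    rw [norm_exp_mul, norm_sub_rev] at this
    linarith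
  have h5 : (‖nk (20 * R) a w‖ ^ 2) ^ th ≤ (((1 + q) * Real.exp (a * r)) ^ 2) ^ th :=
    Real.rpow_le_rpow (by positivity) (pow_le_pow_left₀ (norm_nonneg _) h3 2) ht0
  have h6 : (((1 + q) * Real.exp (a * r)) ^ 2) ^ th = ((1 + q) ^ 2) ^ th * Real.exp (th * a * r) ^ 2 := by
    rw [mul_pow, Real.mul_rpow (by positivity) (by positivity)]
    congr 1
    rw [← Real.exp_nat_mul, ← Real.exp_mul, ← Real.exp_nat_mul]
    congr 1
    push_cast
    ring
  have h7 : ((1 + q) ^ 2) ^ th ≤ 1 + q := by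
    have e1 : (1:ℝ) ≤ (1 + q) ^ 2 := one_le_pow₀ (by linarith)
    calc ((1 + q) ^ 2) ^ th ≤ ((1 + q) ^ 2) ^ ((1:ℝ) / 2) := Real.rpow_le_rpow_of_exponent_le e1 ht
      _ = 1 + q := by
          rw [← Real.sqrt_eq_rpow, Real.sqrt_sq (by linarith)]
  have h8 : Real.exp (th * a * r) ^ 2 ≤ Real.exp (4 * q) * ‖nk (20 * R) (th * a) w‖ ^ 2 := by
    have e1 : 1 ≤ Real.exp (2 * q) * (1 - q) := by
      have := Real.add_one_le_exp (2 * q)
      nlinarith
    have e2 : Real.exp (th * a * r) ≤ Real.exp (2 * q) * ‖nk (20 * R) (th * a) w‖ := by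
      calc Real.exp (th * a * r) = 1 * Real.exp (th * a * r) := (one_mul _).symm
        _ ≤ Real.exp (2 * q) * (1 - q) * Real.exp (th * a * r) :=
            mul_le_mul_of_nonneg_right e1 (Real.exp_pos _).le
        _ = Real.exp (2 * q) * ((1 - q) * Real.exp (th * a * r)) := by ring
        _ ≤ _ := mul_le_mul_of_nonneg_left h4 (Real.exp_pos _).le
    calc Real.exp (th * a * r) ^ 2 ≤ (Real.exp (2 * q) * ‖nk (20 * R) (th * a) w‖) ^ 2 :=
          pow_le_pow_left₀ (Real.exp_pos _).le e2 2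
      _ = _ := by
          rw [mul_pow, ← Real.exp_nat_mul]
          congr 2
          push_cast
          ring
  calc (‖nk (20 * R) a w‖ ^ 2) ^ th ≤ ((1 + q) ^ 2) ^ th * Real.exp (th * a * r) ^ 2 := h5.trans h6.le
    _ ≤ Real.exp q * (Real.exp (4 * q) * ‖nk (20 * R) (th * a) w‖ ^ 2) := by
        refine mul_le_mul (h7.trans ?_) h8 (by positivity) (Real.exp_pos _).le
        have := Real.add_one_le_exp q
        linarith
    _ = _ := by
        rw [← mul_assoc, ← Real.exp_add]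
        congr 2
        ring

/-- the product over the blocks -/
lemma prodb {z Rs : ℕ} {y : ℝ} {j J : ℕ} (hRs : 2 ≤ Rs) {a th : ℝ} (ha0 : 0 ≤ a) (ha : a ≤ 1) (ht0 : 0 ≤ th)
    (ht : th ≤ 1 / 2) {s : ℂ} (hg : ∀ i < J, ‖ec s (xc (IB z y i))‖ ≤ RB Rs i) :
    (‖ec s (BP (fun _ => a) z y j J Rs)‖ ^ 2) ^ th ≤ 2 * ‖ec s (BP (fun _ => th * a) z y j J Rs)‖ ^ 2 := by
  have e1 : ∀ b : ℝ, ‖ec s (BP (fun _ => b) z y j J Rs)‖ ^ 2 =
      ∏ i ∈ Ico j J, ‖nk (20 * RB Rs i) b (ec s (xc (IB z y i)))‖ ^ 2 := by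
    intro b
    unfold BP
    rw [map_prod, norm_prod, ← prod_pow]
    exact prod_congr rfl fun i _ => by rw [ec_NKc]
  rw [e1, e1, ← Real.finsetProd_rpow _ _ (fun i _ => by positivity)]
  have h1 : ∏ i ∈ Ico j J, (‖nk (20 * RB Rs i) a (ec s (xc (IB z y i)))‖ ^ 2) ^ th ≤
      ∏ i ∈ Ico j J, (Real.exp (5 * Real.exp (-(RB Rs i : ℝ))) *
        ‖nk (20 * RB Rs i) (th * a) (ec s (xc (IB z y i)))‖ ^ 2) := by
    refine prod_le_prod (fun i _ => by positivity) fun i hi => ?_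
    exact block (by unfold RB; omega) ha0 ha ht0 ht (hg i (mem_Ico.1 hi).2)
  refine h1.trans ?_
  rw [prod_mul_distrib, ← Real.exp_sum]
  refine mul_le_mul_of_nonneg_right ?_ (prod_nonneg fun i _ => by positivity)
  have h2 : ∑ i ∈ Ico j J, 5 * Real.exp (-(RB Rs i : ℝ)) ≤ 1 / 2 := by
    rw [← mul_sum]
    have h3 : ∑ i ∈ Ico j J, Real.exp (-(RB Rs i : ℝ)) ≤ ∑ i ∈ range J, Real.exp (-(RB Rs i : ℝ)) := by
      refine sum_le_sum_of_subset_of_nonneg ?_ fun _ _ _ => (Real.exp_pos _).le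
      intro i hi
      exact mem_range.2 (mem_Ico.1 hi).2
    have h4 := BADA.sumexp Rs J
    have h5 : Real.exp (-(2 * (Rs:ℝ))) ≤ 1 / 20 := by
      have hRs' : (2:ℝ) ≤ Rs := by exact_mod_cast hRs
      have : Real.exp (-(2 * (Rs:ℝ))) ≤ Real.exp (-4) := Real.exp_le_exp.2 (by linarith)
      refine this.trans ?_
      rw [Real.exp_neg, ← one_div]
      apply one_div_le_one_div_of_le (by norm_num)
      have e5 : Real.exp 4 = Real.exp 1 ^ 4 := by
        rw [← Real.exp_nat_mul]; norm_num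
      rw [e5]
      have e6 : (2.7:ℝ) ≤ Real.exp 1 := by
        have := Real.exp_one_gt_d9
        linarith
      calc (20:ℝ) ≤ 2.7 ^ 4 := by norm_num
        _ ≤ _ := pow_le_pow_left₀ (by norm_num) e6 4
    linarith
  calc Real.exp (∑ i ∈ Ico j J, 5 * Real.exp (-(RB Rs i : ℝ))) ≤ Real.exp (1 / 2) := Real.exp_le_exp.2 h2
    _ ≤ 2 := by
        have e1 : Real.exp (1 / 2) ^ 2 = Real.exp 1 := by
          rw [← Real.exp_nat_mul]; norm_num
        have e2 := Real.exp_one_lt_d9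
        have e3 := Real.exp_pos (1 / 2)
        nlinarith

/-! ### the tail product -/

/-- `0` for `i < j`, `b` beyond -/
noncomputable def cb (b : ℝ) (j : ℕ) : ℕ → ℝ := fun i => if i < j then 0 else b

lemma cb_bd {b : ℝ} (h0 : 0 ≤ b) (h2 : b ≤ 2) (j i : ℕ) : 0 ≤ cb b j i ∧ cb b j i ≤ 2 := by
  unfold cb
  split_ifs
  · norm_num
  · exact ⟨h0, h2⟩

lemma BP_tail (b : ℝ) (z : ℕ) (y : ℝ) {j J : ℕ} (hj : j ≤ J) (Rs : ℕ) :
    BP (cb b j) z y 0 J Rs = BP (fun _ => b) z y j J Rs := by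
  unfold BP
  rw [← prod_Ico_consecutive _ (Nat.zero_le j) hj]
  have h1 : ∏ i ∈ Ico 0 j, NKc (20 * RB Rs i) (cb b j i) (xc (IB z y i)) = 1 := by
    refine prod_eq_one fun i hi => ?_
    have : cb b j i = 0 := if_pos (mem_Ico.1 hi).2
    rw [this, TWO.NKc_zero]
  rw [h1, one_mul]
  refine prod_congr rfl fun i hi => ?_
  have : cb b j i = b := if_neg (not_lt.2 (mem_Ico.1 hi).1)
  rw [this]

lemma sf_zero (f : PC) : sf 0 f = f := by
  conv_lhs => rw [MV.PC_sum f, map_sum]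
  conv_rhs => rw [MV.PC_sum f]
  refine sum_congr rfl fun n _ => ?_
  rw [MV.sf_single]
  simp

/-- the exponent -/
lemma expo (a b δ : ℝ) (z : ℕ) (y : ℝ) {j J : ℕ} (hj : j ≤ J) :
    ∑ i ∈ range J, ∑ p ∈ IB z y i, (a ^ 2 + cb b j i ^ 2 + 2 * a * cb b j i * Real.cos (0 * Real.log p)) * wd δ p =
      a ^ 2 * VB δ z y 0 J + (b ^ 2 + 2 * a * b) * VB δ z y j J := by
  have h0 : ∀ i, ∑ p ∈ IB z y i, (a ^ 2 + cb b j i ^ 2 + 2 * a * cb b j i * Real.cos (0 * Real.log p)) * wd δ p =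
      a ^ 2 * (∑ p ∈ IB z y i, wd δ p) + (cb b j i ^ 2 + 2 * a * cb b j i) * ∑ p ∈ IB z y i, wd δ p := by
    intro i
    rw [← add_mul, mul_sum]
    refine sum_congr rfl fun p _ => ?_
    rw [zero_mul, Real.cos_zero]
    ring
  rw [sum_congr rfl fun i _ => h0 i, sum_add_distrib, ← mul_sum]
  unfold VB
  rw [range_eq_Ico]
  congr 1
  rw [← sum_Ico_consecutive _ (Nat.zero_le j) hj, mul_sum]
  have h1 : ∑ i ∈ Ico 0 j, (cb b j i ^ 2 + 2 * a * cb b j i) * ∑ p ∈ IB z y i, wd δ p = 0 := by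
    refine sum_eq_zero fun i hi => ?_
    have : cb b j i = 0 := if_pos (mem_Ico.1 hi).2
    rw [this]
    ring
  rw [h1, zero_add]
  refine sum_congr rfl fun i hi => ?_
  have : cb b j i = b := if_neg (not_lt.2 (mem_Ico.1 hi).1)
  rw [this]

/-! ### the variance of the full blocks -/

lemma full {Cm : ℝ} (hCm : 0 < Cm)
    (hM : ∀ (z : ℕ) (x : ℝ), 2 ≤ z → (z:ℝ) ≤ x →
      |∑ p ∈ (Icc z ⌊x⌋₊).filter Nat.Prime, 1 / (p:ℝ) - Real.log (Real.log x / Real.log z)| ≤ Cm / Real.log z)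
    {z : ℕ} (hz : 144 ≤ z) (hL : 3 * (1 + Cm) ≤ Real.log z) {y : ℝ} {i : ℕ} (hzi : (z:ℝ) ≤ be y (i + 1))
    {δ : ℝ} (hδ : 0 ≤ δ) (hδi : δ * Real.log (be y i) ≤ 1) :
    Real.exp (-2) ≤ ∑ p ∈ IB z y i, wd δ p := by
  have hz0 : (144:ℝ) ≤ z := by exact_mod_cast hz
  set b := Real.log (be y (i + 1)) with hb
  have hbe : be y (i + 1) = Real.exp b := by rw [hb, Real.exp_log (TWO.be_pos _ _)]
  have hbi : Real.log (be y i) = 4 * b := by
    rw [hb, TWO.log_be, TWO.log_be, pow_succ]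
    ring
  have hbe' : be y i = Real.exp (4 * b) := by rw [← hbi, Real.exp_log (TWO.be_pos _ _)]
  have hbz : Real.log z ≤ b := Real.log_le_log (by linarith) hzi
  have hb3 : 3 ≤ b := by nlinarith
  set n := ⌊be y (i + 1)⌋₊ + 1 with hn
  have hn1 : be y (i + 1) < (n:ℝ) := by
    rw [hn]; push_cast
    exact Nat.lt_floor_add_one _
  have hn2 : (n:ℝ) ≤ be y (i + 1) + 1 := by
    rw [hn]; push_cast
    have := Nat.floor_le (TWO.be_pos y (i + 1)).le
    linarith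
  have hn0 : (0:ℝ) < n := lt_trans (TWO.be_pos y (i + 1)) hn1
  have hlogn1 : b ≤ Real.log n := Real.log_le_log (TWO.be_pos _ _) hn1.le
  have hlogn2 : Real.log n ≤ b + 1 := by
    have h1 : (n:ℝ) ≤ Real.exp (b + 1) := by
      rw [Real.exp_add, ← hbe]
      have h2 : (2:ℝ) ≤ Real.exp 1 := by
        have := Real.add_one_le_exp (1:ℝ)
        linarith
      nlinarith
    have := Real.log_le_log hn0 h1
    rwa [Real.log_exp] at this
  have hnx : (n:ℝ) ≤ be y i := by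
    refine hn2.trans ?_
    rw [hbe, hbe', show 4 * b = b + 3 * b by ring, Real.exp_add b (3 * b)]
    have h2 : (2:ℝ) ≤ Real.exp (3 * b) := by
      have := Real.add_one_le_exp (3 * b)
      linarith
    have h3 : (1:ℝ) ≤ Real.exp b := Real.one_le_exp (by linarith)
    nlinarith
  have hn2' : 2 ≤ n := by
    have : (2:ℝ) ≤ n := by linarith
    exact_mod_cast this
  have h1 := (abs_le.1 (hM n (be y i) hn2' hnx)).1
  have hset : (Icc n ⌊be y i⌋₊).filter Nat.Prime = IB z y i := by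
    ext p
    rw [TWO.mem_IB hz, mem_filter, mem_Icc]
    constructor
    · rintro ⟨⟨h2, h3⟩, h4⟩
      have h5 : be y (i + 1) < (p:ℝ) := hn1.trans_le (by exact_mod_cast h2)
      refine ⟨?_, h4, (Nat.le_floor_iff (TWO.be_pos y i).le).1 h3, h5⟩
      have : (z:ℝ) < p := hzi.trans_lt h5
      exact_mod_cast this.le
    · rintro ⟨_, h3, h4, h5⟩
      refine ⟨⟨?_, Nat.le_floor h4⟩, h3⟩
      have := (Nat.floor_lt (TWO.be_pos y (i + 1)).le).2 h5
      omega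
  rw [hset, hbi] at h1
  have h2 : Real.log 4 - 1 / b ≤ Real.log (4 * b / Real.log n) := by
    have e1 : 4 * b / (b + 1) ≤ 4 * b / Real.log n := by
      apply div_le_div_of_nonneg_left (by linarith) (by linarith) hlogn2
    have e2 : Real.log (4 * b / (b + 1)) ≤ Real.log (4 * b / Real.log n) :=
      Real.log_le_log (by apply div_pos <;> linarith) e1
    refine le_trans ?_ e2
    have e3 : Real.log (4 * b / (b + 1)) = Real.log 4 - Real.log (1 + 1 / b) := by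
      rw [← Real.log_div (by norm_num) (by positivity)]
      congr 1
      field_simp
    rw [e3]
    have e4 : Real.log (1 + 1 / b) ≤ 1 / b := by
      have := Real.log_le_sub_one_of_pos (show (0:ℝ) < 1 + 1 / b by positivity)
      linarith
    linarith
  have h3 : Cm / Real.log n ≤ Cm / b := div_le_div_of_nonneg_left hCm.le (by linarith) hlogn1
  have h4 : 1 / b + Cm / b ≤ 1 / 3 := by
    rw [← add_div, div_le_div_iff₀ (by linarith) (by norm_num)]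
    linarith
  have h5 : (1.386:ℝ) < Real.log 4 := by
    rw [show (4:ℝ) = 2 ^ 2 by norm_num, Real.log_pow]
    have := Real.log_two_gt_d9
    push_cast
    linarith
  have h6 : 1 ≤ ∑ p ∈ IB z y i, 1 / (p:ℝ) := by linarith
  calc Real.exp (-2) = Real.exp (-2) * 1 := (mul_one _).symm
    _ ≤ Real.exp (-2) * ∑ p ∈ IB z y i, 1 / (p:ℝ) := mul_le_mul_of_nonneg_left h6 (Real.exp_pos _).le
    _ = ∑ p ∈ IB z y i, Real.exp (-2) * (1 / (p:ℝ)) := mul_sum _ _ _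
    _ ≤ _ := by
        refine sum_le_sum fun p hp => ?_
        obtain ⟨m1, m2, m3, m4⟩ := (TWO.mem_IB hz).1 hp
        unfold wd
        refine mul_le_mul_of_nonneg_right ?_ (by positivity)
        have hp0 : (0:ℝ) < p := by
          have := m2.pos
          exact_mod_cast this
        rw [Real.rpow_def_of_pos hp0]
        refine Real.exp_le_exp.2 ?_
        have e1 : Real.log p ≤ Real.log (be y i) := Real.log_le_log hp0 m3
        have e2 : δ * Real.log p ≤ 1 := (mul_le_mul_of_nonneg_left e1 hδ).trans hδi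
        linarith

/-- the sum over the admissible levels -/
lemma sumg {Cm : ℝ} (hCm : 0 < Cm)
    (hM : ∀ (z : ℕ) (x : ℝ), 2 ≤ z → (z:ℝ) ≤ x →
      |∑ p ∈ (Icc z ⌊x⌋₊).filter Nat.Prime, 1 / (p:ℝ) - Real.log (Real.log x / Real.log z)| ≤ Cm / Real.log z)
    {z : ℕ} (hz : 144 ≤ z) (hL : 3 * (1 + Cm) ≤ Real.log z) {y : ℝ} (hy : 1 ≤ y) {J : ℕ}
    {δ : ℝ} (hδ : 0 ≤ δ) {th : ℝ} (ht : 0 < th) (S : Finset ℕ)
    (hS : ∀ j ∈ S, j < J ∧ (z:ℝ) ≤ be y j ∧ δ * Real.log (be y j) ≤ 1) :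
    ∑ j ∈ S, Real.exp (-(th ^ 2 * VB δ z y j J)) ≤ (1 - Real.exp (-(th ^ 2 * Real.exp (-2))))⁻¹ := by
  set r := Real.exp (-(th ^ 2 * Real.exp (-2))) with hr
  have hr0 : 0 < r := Real.exp_pos _
  have hr1 : r < 1 := by
    rw [hr, Real.exp_lt_one_iff] 
    have : 0 < th ^ 2 * Real.exp (-2) := by positivity
    linarith
  rcases S.eq_empty_or_nonempty with rfl | hne
  · rw [sum_empty]
    exact inv_nonneg.2 (by linarith)
  obtain ⟨j1, hj1, hmax⟩ := S.exists_max_image id hne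
  simp only [id] at hmax
  obtain ⟨a1, a2, a3⟩ := hS j1 hj1
  have hterm : ∀ j ∈ S, Real.exp (-(th ^ 2 * VB δ z y j J)) ≤ r ^ (j1 - j) := by
    intro j hj
    obtain ⟨b1, b2, b3⟩ := hS j hj
    have hjj : j ≤ j1 := hmax j hj
    rw [hr, ← Real.exp_nat_mul]
    refine Real.exp_le_exp.2 ?_
    have h1 : ((j1 - j : ℕ) : ℝ) * Real.exp (-2) ≤ VB δ z y j J := by
      unfold VB
      have h2 : ∑ i ∈ Ico j j1, ∑ p ∈ IB z y i, wd δ p ≤ ∑ i ∈ Ico j J, ∑ p ∈ IB z y i, wd δ p := by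
        refine sum_le_sum_of_subset_of_nonneg ?_ fun i _ _ => sum_nonneg fun p _ => MV.wd_nonneg δ p
        exact Ico_subset_Ico le_rfl a1.le
      refine le_trans ?_ h2
      have h3 : ∑ i ∈ Ico j j1, Real.exp (-2) ≤ ∑ i ∈ Ico j j1, ∑ p ∈ IB z y i, wd δ p := by
        refine sum_le_sum fun i hi => ?_
        obtain ⟨c1, c2⟩ := mem_Ico.1 hi
        refine full hCm hM hz hL (a2.trans (TWO.be_anti hy (by omega))) hδ ?_
        refine le_trans (mul_le_mul_of_nonneg_left ?_ hδ) b3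
        exact Real.log_le_log (TWO.be_pos _ _) (TWO.be_anti hy c1)
      rw [sum_const, Nat.card_Ico, nsmul_eq_mul] at h3
      exact h3
    have h4 := mul_le_mul_of_nonneg_left h1 (sq_nonneg th)
    nlinarith
  refine (sum_le_sum hterm).trans ?_
  have h5 : ∑ j ∈ S, r ^ (j1 - j) ≤ ∑ j ∈ range (j1 + 1), r ^ (j1 - j) := by
    refine sum_le_sum_of_subset_of_nonneg ?_ fun i _ _ => by positivity
    intro j hj
    exact mem_range.2 (Nat.lt_succ_of_le (hmax j hj))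
  refine h5.trans ?_
  have h6 : ∑ j ∈ range (j1 + 1), r ^ (j1 - j) = ∑ m ∈ range (j1 + 1), r ^ m := by
    have := sum_range_reflect (fun m => r ^ m) (j1 + 1)
    rw [← this]
    refine sum_congr rfl fun j _ => ?_
    congr 1
  rw [h6]
  have h7 := (summable_geometric_of_lt_one hr0.le hr1).sum_le_tsum (range (j1 + 1))
    (fun i _ => pow_nonneg hr0.le i)
  rwa [tsum_geometric_of_lt_one hr0.le hr1] at h7

/-- the pointwise Chernoff bound -/
lemma chern {z Rs : ℕ} {y : ℝ} {j J : ℕ} (hRs : 2 ≤ Rs) {a th : ℝ} (ha0 : 0 ≤ a) (ha : a ≤ 1) (ht0 : 0 < th)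
    (ht : th ≤ 1 / 2) {s : ℂ} (hg : ∀ i < J, ‖ec s (xc (IB z y i))‖ ≤ RB Rs i) {A L : ℝ} (hA : 0 < A)
    (hb : A * Real.exp L < ‖ec s (BP (fun _ => a) z y j J Rs)‖ ^ 2) :
    1 ≤ 2 * (A ^ th)⁻¹ * Real.exp (-(th * L)) * ‖ec s (BP (fun _ => th * a) z y j J Rs)‖ ^ 2 := by
  have h1 := prodb (z := z) (y := y) (j := j) (J := J) hRs ha0 ha ht0.le ht hg
  have h2 : A ^ th * Real.exp (th * L) ≤ (‖ec s (BP (fun _ => a) z y j J Rs)‖ ^ 2) ^ th := by
    calc A ^ th * Real.exp (th * L) = (A * Real.exp L) ^ th := by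
          rw [Real.mul_rpow hA.le (Real.exp_pos _).le, ← Real.exp_mul, mul_comm L th]
      _ ≤ _ := Real.rpow_le_rpow (by positivity) hb.le ht0.le
  have hAt : 0 < A ^ th := Real.rpow_pos_of_pos hA th
  have h3 := h2.trans h1
  have h4 : 0 < A ^ th * Real.exp (th * L) := by positivity
  calc (1:ℝ) = (A ^ th * Real.exp (th * L))⁻¹ * (A ^ th * Real.exp (th * L)) := (inv_mul_cancel₀ h4.ne').symm
    _ ≤ (A ^ th * Real.exp (th * L))⁻¹ * (2 * ‖ec s (BP (fun _ => th * a) z y j J Rs)‖ ^ 2) :=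
        mul_le_mul_of_nonneg_left h3 (by positivity)
    _ = _ := by
        rw [mul_inv, Real.exp_neg]
        ring

open Classical in
theorem main (hN : S_NNB) (hL : S_LEN) (hM : S_MER) : S_BADB := by
  intro α hα0 hα1 ε1 hε1 hε1' c hc e he
  obtain ⟨C, hC, hN⟩ := hN c hc
  obtain ⟨Cm, hCm, hM⟩ := hM
  obtain ⟨th, hth⟩ : ∃ th : ℝ, th = ε1 / 2 := ⟨_, rfl⟩
  have ht0 : 0 < th := by rw [hth]; positivity
  have ht1 : th ≤ 1 / 2 := by rw [hth]; linarith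
  have hε1th : ε1 = 2 * th := by rw [hth]; ring
  -- constants
  obtain ⟨Cg, hCg⟩ : ∃ Cg : ℝ, Cg = (1 - Real.exp (-(th ^ 2 * Real.exp (-2))))⁻¹ := ⟨_, rfl⟩
  have hCg0 : 0 < Cg := by
    rw [hCg]
    apply inv_pos.2
    have : Real.exp (-(th ^ 2 * Real.exp (-2))) < 1 := by
      rw [Real.exp_lt_one_iff]
      have : 0 < th ^ 2 * Real.exp (-2) := by positivity
      linarith
    linarith
  obtain ⟨Kc, hKc⟩ : ∃ Kc : ℝ, Kc = 2 * Real.exp C * Cg := ⟨_, rfl⟩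
  have hKc0 : 0 < Kc := by rw [hKc]; positivity
  obtain ⟨m, hm⟩ : ∃ m : ℝ, m = min e 1 := ⟨_, rfl⟩
  have hm0 : 0 < m := by rw [hm]; exact lt_min he one_pos
  obtain ⟨A, hA1, hA⟩ : ∃ A : ℝ, 1 ≤ A ∧ (A ^ th)⁻¹ * Kc ≤ m := by
    refine ⟨max 1 ((Kc / m) ^ (1 / th)), le_max_left _ _, ?_⟩
    have h1 : Kc / m ≤ (max 1 ((Kc / m) ^ (1 / th))) ^ th := by
      calc Kc / m = ((Kc / m) ^ (1 / th)) ^ th := by
            rw [← Real.rpow_mul (by positivity), one_div, inv_mul_cancel₀ ht0.ne', Real.rpow_one]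
        _ ≤ _ := Real.rpow_le_rpow (by positivity) (le_max_right _ _) ht0.le
    have h2 : 0 < (max 1 ((Kc / m) ^ (1 / th))) ^ th :=
      Real.rpow_pos_of_pos (lt_of_lt_of_le one_pos (le_max_left _ _)) _
    rw [inv_mul_eq_div, div_le_iff₀ h2]
    rw [div_le_iff₀ hm0] at h1
    linarith
  have hA0 : 0 < A := by linarith
  have hAt : 1 ≤ A ^ th := Real.one_le_rpow hA1 ht0.le
  obtain ⟨z1, hz1⟩ : ∃ z1 : ℕ, ∀ z ≥ z1, 3 * (1 + Cm) ≤ Real.log (z:ℕ) := by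
    have h1 : Tendsto (fun n : ℕ => Real.log (n:ℝ)) atTop atTop :=
      Real.tendsto_log_atTop.comp tendsto_natCast_atTop_atTop
    exact (h1.eventually_ge_atTop (3 * (1 + Cm))).exists_forall_of_atTop
  refine ⟨A, hA1, max z1 1000, 2, ?_⟩
  intro z hz Rs hRs yf Jf hSB lam δ0 hlam K _ _ F hF hF0 η hη
  have hzz1 : z1 ≤ z := (le_max_left _ _).trans hz
  have hz1000 : 1000 ≤ z := (le_max_right _ _).trans hz
  have hlz := hz1 z hzz1
  have hRs1 : 1 ≤ Rs := by omega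
  obtain ⟨ε', hε'⟩ : ∃ ε' : ℝ, ε' = η / 3 := ⟨_, rfl⟩
  have hε'0 : 0 < ε' := by rw [hε']; positivity
  filter_upwards [EQ.main MV.main (Sm z) (BADA.sm_prime z) K F hF ε' hε'0, hSB.ev, BADA.ev1] with
    X h1 h2 h3 δ hδl hδ0 k x hx0 hx1
  obtain ⟨g1, g2, g3, g4⟩ := h3
  have hX0 : 0 < X := by linarith
  have hδ : 0 ≤ δ := by
    have hlX : 0 < Real.log X := Real.log_pos (by linarith)
    exact (div_nonneg (by linarith) hlX.le).trans hδl
  have hXl : 0 ≤ Xl X := by unfold Xl; positivity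
  unfold WB Gd1 Gd2
  obtain ⟨y, hy⟩ : ∃ y, y = yf X := ⟨_, rfl⟩
  obtain ⟨J, hJ⟩ : ∃ J, J = Jf X := ⟨_, rfl⟩
  rw [← hy, ← hJ] at h2 ⊢
  obtain ⟨i1, i2, i3, i4⟩ := h2
  have hz' : (1000:ℝ) ≤ z := by exact_mod_cast hz1000
  have hy1 : 1 ≤ y := by linarith
  have hz144 : 144 ≤ z := by omega
  obtain ⟨len1, -⟩ := hL z J Rs y hz144 hy1 hRs1 (fun i hi => (i3 i hi).1)
  obtain ⟨lb1, lb2⟩ := len1 (fun _ => α) (fun _ => ⟨hα0.le, by linarith⟩) 0 (Nat.zero_le _)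
  have hta0 : 0 ≤ th * α := mul_nonneg ht0.le hα0.le
  have hta2 : th * α ≤ 2 := by nlinarith
  -- the tail products
  obtain ⟨TT, hTT⟩ : ∃ TT : ℕ → PC, TT = fun j => BP (cb (th * α) j) z y 0 J Rs := ⟨_, rfl⟩
  have hlT : ∀ j, Cop (Sm z) (Real.exp (Real.log y * (90 * ((Rs:ℝ) + 1)))) (TT j) ∧
      lc1 (TT j) ≤ Real.exp (Real.log y * (90 * ((Rs:ℝ) + 1))) := by
    intro j
    rw [hTT]
    exact len1 (cb (th * α) j) (fun i => cb_bd hta0 hta2 j i) 0 (Nat.zero_le _)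
  obtain ⟨BB, hBB⟩ : ∃ BB : PC, BB = BP (fun _ => α) z y 0 J Rs := ⟨_, rfl⟩
  obtain ⟨V, hV⟩ : ∃ V : ℝ, V = Real.exp (α ^ 2 * VB δ z y 0 J) := ⟨_, rfl⟩
  have hV0 : 0 < V := by rw [hV]; exact Real.exp_pos _
  have hV1 : 1 ≤ V := by
    rw [hV]
    exact Real.one_le_exp (mul_nonneg (sq_nonneg _) (TWO.VB_nonneg _ _ _ _ _))
  obtain ⟨IF, hIF⟩ : ∃ IF : ℝ, IF = ∫ y, F (k, y) ∂(HP (Sm z)) := ⟨_, rfl⟩
  have hIF0 : 0 ≤ IF := by
    rw [hIF]
    exact integral_nonneg fun y => hF0 _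
  rw [← hIF]
  -- lengths
  have hlen : Real.exp (Real.log y * (90 * ((Rs:ℝ) + 1))) *
      Real.exp (Real.log y * (90 * ((Rs:ℝ) + 1))) ≤ X ^ ((1:ℝ) / 8) := by
    rw [← Real.exp_add]
    refine le_trans (le_of_eq ?_) (i4.trans g2)
    congr 1
    ring
  rw [← hBB] at lb1 lb2
  have hcop : ∀ j, Cop (Sm z) (X ^ ((1:ℝ) / 8)) (BB * TT j) := fun j =>
    BADA.Cop_mono hlen (MV.Cop_mul (BADA.sm_prime z) (Real.exp_pos _).le lb1 (hlT j).1)
  have hlc : ∀ j, lc1 (BB * TT j) ≤ X ^ ((1:ℝ) / 8) := by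
    intro j
    refine (MV.lc1_mul _ _).trans (le_trans ?_ hlen)
    exact mul_le_mul lb2 (hlT j).2 (MV.lc1_nonneg _) (Real.exp_pos _).le
  have hne : ∀ j, ∀ n ∈ (BB * TT j).coeff.support, n ≠ 0 := fun j n hn => (hcop j n hn).1
  -- the weights
  obtain ⟨v, hv⟩ : ∃ v : ℕ → ℝ, v = fun j => VB δ z y j J := ⟨_, rfl⟩
  have hv0 : ∀ j, 0 ≤ v j := fun j => by rw [hv]; exact TWO.VB_nonneg _ _ _ _ _
  obtain ⟨W, hW⟩ : ∃ W : ℕ → ℝ, W = fun j =>
    2 * (A ^ th)⁻¹ * Real.exp (-(th * ((2 * α ^ 2 + ε1) * v j))) := ⟨_, rfl⟩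
  have hW0 : ∀ j, 0 ≤ W j := fun j => by rw [hW]; positivity
  have hW2 : ∀ j, W j ≤ 2 := by
    intro j
    rw [hW]
    have q1 : (A ^ th)⁻¹ ≤ 1 := inv_le_one_of_one_le₀ hAt
    have q2 : Real.exp (-(th * ((2 * α ^ 2 + ε1) * v j))) ≤ 1 := by
      rw [Real.exp_le_one_iff]
      have : 0 ≤ th * ((2 * α ^ 2 + ε1) * v j) :=
        mul_nonneg ht0.le (mul_nonneg (by positivity) (hv0 j))
      linarith
    have q3 : 0 ≤ (A ^ th)⁻¹ := by positivity
    have q4 := Real.exp_pos (-(th * ((2 * α ^ 2 + ε1) * v j)))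
    show 2 * (A ^ th)⁻¹ * Real.exp (-(th * ((2 * α ^ 2 + ε1) * v j))) ≤ 2
    nlinarith
  obtain ⟨S, hS⟩ : ∃ S : Finset ℕ, S = (range J).filter
    (fun j => (z:ℝ) ≤ be y j ∧ δ * Real.log (be y j) ≤ 1) := ⟨_, rfl⟩
  have hSm : ∀ j, j ∈ S ↔ j < J ∧ (z:ℝ) ≤ be y j ∧ δ * Real.log (be y j) ≤ 1 := by
    intro j
    rw [hS, mem_filter, mem_range]
  -- the norm squares
  have hnn : ∀ j ∈ S, W j * nn δ (BB * TT j) ≤
      V * (2 * (A ^ th)⁻¹ * Real.exp C * Real.exp (-(th ^ 2 * v j))) := by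
    intro j hj
    have hjJ : j ≤ J := ((hSm j).1 hj).1.le
    have k1 := hN z J Rs y hz144 hy1 hRs1 (fun i hi => (i3 i hi).2) δ hδ (fun _ => α)
      (cb (th * α) j) (fun _ => ⟨hα0.le, by linarith⟩) (fun i => cb_bd hta0 hta2 j i) 0
    rw [sf_zero, expo α (th * α) δ z y hjJ, ← hBB] at k1
    have k2 : nn δ (BB * TT j) ≤ Real.exp (α ^ 2 * VB δ z y 0 J +
        ((th * α) ^ 2 + 2 * α * (th * α)) * v j + C) := by
      rw [hTT, hv]
      refine k1.trans (Real.exp_le_exp.2 ?_)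
      have : C * Real.exp (-(2 * (Rs:ℝ))) ≤ C := by
        refine mul_le_of_le_one_right hC ?_
        rw [Real.exp_le_one_iff]
        have : (0:ℝ) ≤ Rs := Nat.cast_nonneg _
        linarith
      linarith
    refine (mul_le_mul_of_nonneg_left k2 (hW0 j)).trans ?_
    rw [hW, hV]
    show 2 * (A ^ th)⁻¹ * Real.exp (-(th * ((2 * α ^ 2 + ε1) * v j))) *
        Real.exp (α ^ 2 * VB δ z y 0 J + ((th * α) ^ 2 + 2 * α * (th * α)) * v j + C) ≤ _
    have k3 : 2 * (A ^ th)⁻¹ * Real.exp (-(th * ((2 * α ^ 2 + ε1) * v j))) *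
        Real.exp (α ^ 2 * VB δ z y 0 J + ((th * α) ^ 2 + 2 * α * (th * α)) * v j + C) =
        2 * (A ^ th)⁻¹ * Real.exp (-(th * ((2 * α ^ 2 + ε1) * v j)) +
          (α ^ 2 * VB δ z y 0 J + ((th * α) ^ 2 + 2 * α * (th * α)) * v j + C)) := by
      rw [mul_assoc, ← Real.exp_add]
    have k4 : Real.exp (α ^ 2 * VB δ z y 0 J) *
        (2 * (A ^ th)⁻¹ * Real.exp C * Real.exp (-(th ^ 2 * v j))) =
        2 * (A ^ th)⁻¹ * Real.exp (α ^ 2 * VB δ z y 0 J + C + -(th ^ 2 * v j)) := by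
      rw [Real.exp_add, Real.exp_add]; ring
    rw [k3, k4]
    refine mul_le_mul_of_nonneg_left (Real.exp_le_exp.2 ?_) (by positivity)
    have k5 : α ^ 2 ≤ 1 := by nlinarith
    have k6 : th ^ 2 * α ^ 2 * v j ≤ th ^ 2 * v j := by
      refine mul_le_mul_of_nonneg_right ?_ (hv0 j)
      exact mul_le_of_le_one_right (sq_nonneg _) k5
    rw [hε1th]
    nlinarith
  -- the integrals
  have hint : ∀ j ∈ S, IntervalIntegrable (fun t : ℝ => F (k, pt (Sm z) t) *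
      ‖ec (1 / 2 + δ + t * I) (sf x (BB * TT j))‖ ^ 2 * W j) volume (Xl X) X := by
    intro j _
    apply Continuous.intervalIntegrable
    have c1 : Continuous fun t : ℝ => F (k, pt (Sm z) t) :=
      hF.comp (continuous_const.prodMk (EQ.pt_cont _))
    have c2 : Continuous fun t : ℝ =>
        ‖ec (1 / 2 + δ + t * I) (sf x (BB * TT j))‖ ^ 2 :=
      (EQ.ec_cont (fun n hn => hne j n (MV.sf_support _ _ hn)) δ).norm.pow 2
    exact (c1.mul c2).mul continuous_const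
  obtain ⟨g, hg⟩ : ∃ g : ℕ → ℝ, g = fun j => 2 * (A ^ th)⁻¹ * Real.exp C * Real.exp (-(th ^ 2 * v j)) := ⟨_, rfl⟩
  have hg0 : ∀ j, 0 ≤ g j := fun j => by rw [hg]; positivity
  have hnn' : ∀ j ∈ S, W j * nn δ (BB * TT j) ≤ V * g j := by rw [hg]; exact hnn
  have hI : ∀ j ∈ S, ∫ t in Xl X..X, F (k, pt (Sm z) t) *
      ‖ec (1 / 2 + δ + t * I) (sf x (BB * TT j))‖ ^ 2 * W j ≤
      V * (X * IF * g j + ε' * X * g j + 2 * ε' * X ^ ((9:ℝ) / 10)) := by
    intro j hj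
    rw [intervalIntegral.integral_mul_const]
    have k1 := h1 (Xl X) hXl g3 k δ hδ (sf x (BB * TT j)) (MV.Cop_sf x (hcop j))
      ((MV.lc1_sf_le x _).trans (hlc j))
    rw [MV.nn_sf, ← hIF] at k1
    have k2 := hnn' j hj
    obtain ⟨nq, hnq⟩ : ∃ nq : ℝ, nq = nn δ (BB * TT j) := ⟨_, rfl⟩
    have hnq0 : 0 ≤ nq := by rw [hnq]; exact MV.nn_nonneg _ _
    rw [← hnq] at k1 k2
    obtain ⟨I0, hI0⟩ : ∃ I0 : ℝ, I0 = ∫ t in Xl X..X, F (k, pt (Sm z) t) *
      ‖ec (1 / 2 + δ + t * I) (sf x (BB * TT j))‖ ^ 2 := ⟨_, rfl⟩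
    rw [← hI0] at k1 ⊢
    have k3 := (abs_le.1 k1).2
    have k4 : (X - Xl X) * IF * nq ≤ X * IF * nq :=
      mul_le_mul_of_nonneg_right (mul_le_mul_of_nonneg_right (by linarith) hIF0) hnq0
    have k5 : I0 ≤ X * IF * nq + ε' * (X * nq + X ^ ((9:ℝ) / 10)) := by linarith
    have k6 := mul_le_mul_of_nonneg_right k5 (hW0 j)
    refine k6.trans ?_
    have hP0 : 0 ≤ X ^ ((9:ℝ) / 10) := by positivity
    have k7 : X ^ ((9:ℝ) / 10) * W j ≤ V * (2 * X ^ ((9:ℝ) / 10)) := by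
      calc X ^ ((9:ℝ) / 10) * W j ≤ X ^ ((9:ℝ) / 10) * 2 := mul_le_mul_of_nonneg_left (hW2 j) hP0
        _ = 1 * (2 * X ^ ((9:ℝ) / 10)) := by ring
        _ ≤ _ := mul_le_mul_of_nonneg_right hV1 (by positivity)
    have k8 : (X * IF + ε' * X) * (W j * nq) ≤ (X * IF + ε' * X) * (V * g j) :=
      mul_le_mul_of_nonneg_left k2 (by positivity)
    have k9 : ε' * (X ^ ((9:ℝ) / 10) * W j) ≤ ε' * (V * (2 * X ^ ((9:ℝ) / 10))) :=
      mul_le_mul_of_nonneg_left k7 hε'0.le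
    have k10 : (X * IF * nq + ε' * (X * nq + X ^ ((9:ℝ) / 10))) * W j =
        (X * IF + ε' * X) * (W j * nq) + ε' * (X ^ ((9:ℝ) / 10) * W j) := by ring
    have k11 : V * (X * IF * g j + ε' * X * g j + 2 * ε' * X ^ ((9:ℝ) / 10)) =
        (X * IF + ε' * X) * (V * g j) + ε' * (V * (2 * X ^ ((9:ℝ) / 10))) := by ring
    rw [k10, k11]
    linarith
  -- the pointwise estimate
  have hpt : ∀ t : ℝ, F (k, pt (Sm z) t) *
      (‖ec (1 / 2 + δ + ((t + x : ℝ) : ℂ) * I) BB‖ ^ 2 / V *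
        (if (∀ i < J, ‖ec (1 / 2 + δ + ((t + x : ℝ) : ℂ) * I) (xc (IB z y i))‖ ≤ RB Rs i) ∧
          ¬ (∀ j < J, (z:ℝ) ≤ be y j → δ * Real.log (be y j) ≤ 1 →
            ‖ec (1 / 2 + δ + ((t + x : ℝ) : ℂ) * I) (BP (fun _ => α) z y j J Rs)‖ ^ 2 ≤
              A * Real.exp ((2 * α ^ 2 + ε1) * VB δ z y j J))
          then 1 else 0)) ≤
      (∑ j ∈ S, F (k, pt (Sm z) t) *
        ‖ec (1 / 2 + δ + t * I) (sf x (BB * TT j))‖ ^ 2 * W j) / V := by
    intro t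
    have hs0 : ∀ j ∈ S, 0 ≤ F (k, pt (Sm z) t) *
        ‖ec (1 / 2 + δ + t * I) (sf x (BB * TT j))‖ ^ 2 * W j := fun j _ =>
      mul_nonneg (mul_nonneg (hF0 _) (by positivity)) (hW0 j)
    split_ifs with hgd
    · obtain ⟨hg1, hg2⟩ := hgd
      push Not at hg2
      obtain ⟨j, hjJ, hzj, hδj, hbar⟩ := hg2
      have hjS : j ∈ S := (hSm j).2 ⟨hjJ, hzj, hδj⟩
      have m1 := chern (th := th) hRs hα0.le hα1.le ht0 ht1 hg1 hA0 hbar
      have m2 := single_le_sum hs0 hjS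
      have m3 : ec (1 / 2 + δ + t * I) (sf x (BB * TT j)) =
          ec (1 / 2 + δ + ((t + x : ℝ) : ℂ) * I) BB *
            ec (1 / 2 + δ + ((t + x : ℝ) : ℂ) * I) (BP (fun _ => th * α) z y j J Rs) := by
        rw [MV.ec_sf _ _ (hne j), map_mul]
        have : (1 / 2 + (δ:ℂ) + t * I + x * I) = 1 / 2 + δ + ((t + x : ℝ) : ℂ) * I := by
          push_cast
          ring
        rw [this, hTT]
        simp only
        rw [BP_tail _ _ _ hjJ.le]
      have m4 : W j = 2 * (A ^ th)⁻¹ * Real.exp (-(th * ((2 * α ^ 2 + ε1) * VB δ z y j J))) := by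
        rw [hW, hv]
      rw [← m4] at m1
      rw [mul_one, ← mul_div_assoc]
      apply div_le_div_of_nonneg_right _ hV0.le
      refine le_trans ?_ m2
      rw [m3, norm_mul, mul_pow]
      obtain ⟨b1, hb1⟩ : ∃ b1 : ℝ, b1 = ‖ec (1 / 2 + δ + ((t + x : ℝ) : ℂ) * I) BB‖ ^ 2 := ⟨_, rfl⟩
      obtain ⟨b2, hb2⟩ : ∃ b2 : ℝ, b2 = ‖ec (1 / 2 + δ + ((t + x : ℝ) : ℂ) * I)
        (BP (fun _ => th * α) z y j J Rs)‖ ^ 2 := ⟨_, rfl⟩
      rw [← hb2] at m1
      rw [← hb1, ← hb2]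
      have hb10 : 0 ≤ b1 := by rw [hb1]; positivity
      calc F (k, pt (Sm z) t) * b1 = F (k, pt (Sm z) t) * b1 * 1 := (mul_one _).symm
        _ ≤ F (k, pt (Sm z) t) * b1 * (W j * b2) :=
            mul_le_mul_of_nonneg_left m1 (mul_nonneg (hF0 _) hb10)
        _ = F (k, pt (Sm z) t) * (b1 * b2) * W j := by ring
    · rw [mul_zero, mul_zero]
      exact div_nonneg (sum_nonneg hs0) hV0.le
  -- integration
  have hRint : IntervalIntegrable (fun t : ℝ => (∑ j ∈ S, F (k, pt (Sm z) t) *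
        ‖ec (1 / 2 + δ + t * I) (sf x (BB * TT j))‖ ^ 2 * W j) / V) volume (Xl X) X := by
    have h := (IntervalIntegrable.sum S hint).div_const V
    simpa only [Finset.sum_apply] using h
  have hle : (∫ t in Xl X..X, F (k, pt (Sm z) t) *
      (‖ec (1 / 2 + δ + ((t + x : ℝ) : ℂ) * I) BB‖ ^ 2 / V *
        (if (∀ i < J, ‖ec (1 / 2 + δ + ((t + x : ℝ) : ℂ) * I) (xc (IB z y i))‖ ≤ RB Rs i) ∧
          ¬ (∀ j < J, (z:ℝ) ≤ be y j → δ * Real.log (be y j) ≤ 1 →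
            ‖ec (1 / 2 + δ + ((t + x : ℝ) : ℂ) * I) (BP (fun _ => α) z y j J Rs)‖ ^ 2 ≤
              A * Real.exp ((2 * α ^ 2 + ε1) * VB δ z y j J))
          then (1:ℝ) else 0))) ≤
      ∫ t in Xl X..X, (∑ j ∈ S, F (k, pt (Sm z) t) *
        ‖ec (1 / 2 + δ + t * I) (sf x (BB * TT j))‖ ^ 2 * W j) / V := by
    by_cases hii : IntervalIntegrable (fun t : ℝ => F (k, pt (Sm z) t) *
      (‖ec (1 / 2 + δ + ((t + x : ℝ) : ℂ) * I) BB‖ ^ 2 / V *
        (if (∀ i < J, ‖ec (1 / 2 + δ + ((t + x : ℝ) : ℂ) * I) (xc (IB z y i))‖ ≤ RB Rs i) ∧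
          ¬ (∀ j < J, (z:ℝ) ≤ be y j → δ * Real.log (be y j) ≤ 1 →
            ‖ec (1 / 2 + δ + ((t + x : ℝ) : ℂ) * I) (BP (fun _ => α) z y j J Rs)‖ ^ 2 ≤
              A * Real.exp ((2 * α ^ 2 + ε1) * VB δ z y j J))
          then (1:ℝ) else 0))) volume (Xl X) X
    · exact intervalIntegral.integral_mono_on g3 hii hRint (fun t _ => hpt t)
    · rw [intervalIntegral.integral_undef hii]
      apply intervalIntegral.integral_nonneg g3
      intro t _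
      exact div_nonneg (sum_nonneg fun j _ => mul_nonneg (mul_nonneg (hF0 _) (by positivity)) (hW0 j)) hV0.le
  have hfin : (∫ t in Xl X..X, (∑ j ∈ S, F (k, pt (Sm z) t) *
        ‖ec (1 / 2 + δ + t * I) (sf x (BB * TT j))‖ ^ 2 * W j) / V) ≤ X * (e * IF + η) := ?_
  · refine le_trans (le_of_eq ?_) (hle.trans hfin)
    rw [hBB, hV]
    congr!
  rw [intervalIntegral.integral_div, intervalIntegral.integral_finsetSum hint, div_le_iff₀ hV0]
  refine (sum_le_sum hI).trans ?_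
  rw [← mul_sum, mul_comm _ V]
  apply mul_le_mul_of_nonneg_left _ hV0.le
  rw [sum_add_distrib, sum_add_distrib, ← mul_sum, ← mul_sum, sum_const, nsmul_eq_mul]
  have hSg : ∑ j ∈ S, g j ≤ m := by
    have q1 := sumg hCm hM hz144 hlz hy1 (J := J) hδ ht0 S (fun j hj => (hSm j).1 hj)
    rw [← hCg] at q1
    have q2 : ∑ j ∈ S, g j = 2 * (A ^ th)⁻¹ * Real.exp C * ∑ j ∈ S, Real.exp (-(th ^ 2 * VB δ z y j J)) := by
      rw [hg, hv, mul_sum]
    rw [q2]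
    refine (mul_le_mul_of_nonneg_left q1 (by positivity)).trans ?_
    refine le_trans (le_of_eq ?_) hA
    rw [hKc]
    ring
  have hcard : (S.card : ℝ) ≤ J := by
    have : S.card ≤ J := by
      rw [hS]
      exact (card_filter_le _ _).trans (card_range J).le
    exact_mod_cast this
  have hJle : (J:ℝ) * X ^ ((9:ℝ) / 10) ≤ X :=
    (mul_le_mul_of_nonneg_right (BADA.J_le hy1 hX0 (fun i hi => (i3 i hi).1) i4)
      (by positivity)).trans g1
  have hSX : (S.card : ℝ) * X ^ ((9:ℝ) / 10) ≤ X :=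
    (mul_le_mul_of_nonneg_right hcard (by positivity)).trans hJle
  have q1 : X * IF * ∑ j ∈ S, g j ≤ X * IF * e :=
    mul_le_mul_of_nonneg_left (hSg.trans (by rw [hm]; exact min_le_left _ _)) (mul_nonneg hX0.le hIF0)
  have q2 : ε' * X * ∑ j ∈ S, g j ≤ ε' * X * 1 :=
    mul_le_mul_of_nonneg_left (hSg.trans (by rw [hm]; exact min_le_right _ _)) (mul_nonneg hε'0.le hX0.le)
  have q3 : (S.card : ℝ) * (2 * ε' * X ^ ((9:ℝ) / 10)) ≤ 2 * ε' * X := by
    have := mul_le_mul_of_nonneg_left hSX (by positivity : 0 ≤ 2 * ε')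
    linarith
  have q4 : ε' * X * 1 + 2 * ε' * X = X * η := by
    rw [hε']
    ring
  linarith

end Pool.Agent.N748.GC.BADB
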