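import Mathlib

set_option autoImplicit false

/-!
# GC/BDD : correlation with `p^(it)`, the analytic part (helper54)
-/

namespace Pool.Agent.N748.GC.BDD

open MeasureTheory intervalIntegral Complex

/-- the character -/
noncomputable def E (L t : ℝ) : ℂ := Complex.exp (((t * L : ℝ) : ℂ) * I)

lemma E_cont (L : ℝ) : Continuous (E L) := by unfold E; fun_prop

lemma E_add (L s t : ℝ) : E L (s + t) = E L s * E L t := by
  unfold E
  rw [← Complex.exp_add]
  congr 1
  push_cast
  ring

lemma E_norm (L t : ℝ) : ‖E L t‖ = 1 := by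
  unfold E
  exact Complex.norm_exp_ofReal_mul_I _

lemma E_zero (L : ℝ) : E L 0 = 1 := by simp [E]

lemma E_int {L : ℝ} (hL : L ≠ 0) (A : ℝ) : ∫ t in (0:ℝ)..A, E L t = (E L A - 1) / (L * I) := by
  have h1 : ((L:ℂ) * I) ≠ 0 := mul_ne_zero (by exact_mod_cast hL) I_ne_zero
  have h2 : ∀ t : ℝ, E L t = Complex.exp ((L * I : ℂ) * t) := by
    intro t
    unfold E
    congr 1
    push_cast
    ring
  simp only [h2]
  rw [integral_exp_mul_complex h1]
  simp

lemma E_int_norm {L : ℝ} (hL : L ≠ 0) {A : ℝ} (hA : 0 < A) :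
    ‖∫ t in (0:ℝ)..A, E L t‖ = A * |Real.sinc (A * L / 2)| := by
  rw [E_int hL, norm_div, norm_mul, norm_I, mul_one, Complex.norm_real]
  have h1 : E L A - 1 = Complex.exp (I * ((A * L : ℝ) : ℂ)) - 1 := by
    unfold E
    rw [mul_comm]
  rw [h1, Complex.norm_exp_I_mul_ofReal_sub_one, norm_mul, Real.norm_eq_abs, Real.norm_eq_abs,
    Real.norm_eq_abs, Real.sinc_of_ne_zero (by positivity), abs_div, abs_of_pos (two_pos (α := ℝ)),
    abs_div, abs_mul, abs_of_pos hA, abs_of_pos (two_pos (α := ℝ))]
  have : |L| ≠ 0 := abs_ne_zero.2 hL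
  field_simp

lemma E_int_le {L : ℝ} (hL : 0 < L) (A : ℝ) : ‖∫ t in (0:ℝ)..A, E L t‖ ≤ 2 / L := by
  rw [E_int hL.ne', norm_div, norm_mul, norm_I, mul_one, Complex.norm_real, Real.norm_eq_abs,
    abs_of_pos hL]
  refine div_le_div_of_nonneg_right ?_ hL.le
  refine (norm_sub_le _ _).trans ?_
  rw [E_norm, norm_one]
  norm_num

lemma E_neg (L x : ℝ) : E L (-x) = E (-L) x := by
  unfold E
  congr 2
  push_cast
  ring

/-- interchange -/
lemma swapC {V : Type*} [NormedAddCommGroup V] [NormedSpace ℝ V] {F : ℝ → ℝ → V}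
    (hF : Continuous (Function.uncurry F)) (a b c d : ℝ) :
    ∫ x in a..b, ∫ y in c..d, F x y = ∫ y in c..d, ∫ x in a..b, F x y := by
  refine intervalIntegral_intervalIntegral_swap ?_
  exact (hF.continuousOn.integrableOn_compact (isCompact_uIcc.prod isCompact_uIcc)).mono_set
    (Set.prod_mono Set.uIoc_subset_uIcc Set.uIoc_subset_uIcc)

lemma contI {V : Type*} [NormedAddCommGroup V] [NormedSpace ℝ V] {F : ℝ → ℝ → V}
    (hF : Continuous (Function.uncurry F)) (c d : ℝ) : Continuous fun x => ∫ y in c..d, F x y := by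
  exact continuous_parametric_intervalIntegral_of_continuous' hF c d

/-- the norm of an integral -/
lemma norm_le {V : Type*} [NormedAddCommGroup V] [NormedSpace ℝ V] {f : ℝ → V} {g : ℝ → ℝ}
    {a b : ℝ} (hab : a ≤ b) (hg : Continuous g) (h : ∀ x, ‖f x‖ ≤ g x) :
    ‖∫ x in a..b, f x‖ ≤ ∫ x in a..b, g x :=
  norm_integral_le_of_norm_le hab (Filter.Eventually.of_forall fun x _ => h x)
    (hg.intervalIntegrable a b)

/-- **the correlation inequality** -/
theorem core {Z m : ℝ → ℝ} (hZ : Continuous Z) (hm : Continuous m) {L : ℝ} (hL : 0 < L)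
    {T H X a b : ℝ} {ρ : ℂ} (hT : 0 ≤ T) (hH : 0 < H) (hX : T + H ≤ X)
    (hc : ∫ t in (0:ℝ)..X, |∫ y in (0:ℝ)..1, Real.cos (y * L) * (Z (t + y) - m (t + y))| ≤ a)
    (hs : ∫ t in (0:ℝ)..X, |∫ y in (0:ℝ)..1, Real.sin (y * L) * (Z (t + y) - m (t + y))| ≤ a)
    (hmρ : ∀ s : ℝ, ‖(∫ u in s..(s + T), E L u * m u) - T * ρ‖ ≤ b) :
    T * ‖ρ‖ * |Real.sinc (H * L / 2)| ≤
      (∫ t in (0:ℝ)..(T + 1), |(1 / H) * (∫ u in t..(t + H), Z u) - 1|) + 2 * a + b + 2 / L := by
  have hEc := E_cont L
  -- the local averages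
  set V : (ℝ → ℝ) → ℝ → ℂ := fun f s => ∫ y in (0:ℝ)..1, E L y * (f (s + y) : ℂ) with hV
  have hVc : ∀ f : ℝ → ℝ, Continuous f → Continuous (V f) := by
    intro f hf
    refine contI (F := fun s y => E L y * (f (s + y) : ℂ)) ?_ 0 1
    show Continuous fun q : ℝ × ℝ => E L q.2 * (f (q.1 + q.2) : ℂ)
    fun_prop
  set A : (ℝ → ℝ) → ℂ := fun f => ∫ x in (0:ℝ)..H, ∫ t in (0:ℝ)..T, E L t * V f (t + x) with hA
  -- (2)
  have h2 : ‖A Z - A m‖ ≤ H * (2 * a) := by
    set W : ℝ → ℝ := fun t => ‖V Z t - V m t‖ with hW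
    have hWc : Continuous W := ((hVc Z hZ).sub (hVc m hm)).norm
    have h20 : ∫ t in (0:ℝ)..X, W t ≤ 2 * a := by
      have hcc : Continuous fun t : ℝ => ∫ y in (0:ℝ)..1, Real.cos (y * L) * (Z (t + y) - m (t + y)) := by
        refine contI (F := fun t y => Real.cos (y * L) * (Z (t + y) - m (t + y))) ?_ 0 1
        show Continuous fun q : ℝ × ℝ => Real.cos (q.2 * L) * (Z (q.1 + q.2) - m (q.1 + q.2))
        fun_prop
      have hsc : Continuous fun t : ℝ => ∫ y in (0:ℝ)..1, Real.sin (y * L) * (Z (t + y) - m (t + y)) := by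
        refine contI (F := fun t y => Real.sin (y * L) * (Z (t + y) - m (t + y))) ?_ 0 1
        show Continuous fun q : ℝ × ℝ => Real.sin (q.2 * L) * (Z (q.1 + q.2) - m (q.1 + q.2))
        fun_prop
      have h21 : ∀ t, W t ≤ |∫ y in (0:ℝ)..1, Real.cos (y * L) * (Z (t + y) - m (t + y))| +
          |∫ y in (0:ℝ)..1, Real.sin (y * L) * (Z (t + y) - m (t + y))| := by
        intro t
        have h22 : V Z t - V m t =
            ((∫ y in (0:ℝ)..1, Real.cos (y * L) * (Z (t + y) - m (t + y)) : ℝ) : ℂ) +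
            ((∫ y in (0:ℝ)..1, Real.sin (y * L) * (Z (t + y) - m (t + y)) : ℝ) : ℂ) * I := by
          rw [hV]
          show (∫ y in (0:ℝ)..1, E L y * (Z (t + y) : ℂ)) - (∫ y in (0:ℝ)..1, E L y * (m (t + y) : ℂ)) = _
          rw [← intervalIntegral.integral_sub, ← intervalIntegral.integral_ofReal, ← intervalIntegral.integral_ofReal,
            ← intervalIntegral.integral_mul_const, ← intervalIntegral.integral_add]
          · refine intervalIntegral.integral_congr fun y _ => ?_
            show E L y * (Z (t + y) : ℂ) - E L y * (m (t + y) : ℂ) = _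
            unfold E
            rw [Complex.exp_mul_I]
            push_cast
            ring
          · refine Continuous.intervalIntegrable ?_ _ _
            fun_prop
          · refine Continuous.intervalIntegrable ?_ _ _
            fun_prop
          · refine Continuous.intervalIntegrable ?_ _ _
            fun_prop
          · refine Continuous.intervalIntegrable ?_ _ _
            fun_prop
        rw [hW]
        show ‖V Z t - V m t‖ ≤ _
        rw [h22]
        refine (norm_add_le _ _).trans ?_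
        rw [norm_mul, norm_I, mul_one, Complex.norm_real, Complex.norm_real, Real.norm_eq_abs,
          Real.norm_eq_abs]
      have hX0 : (0:ℝ) ≤ X := by linarith
      have h23 : ∫ t in (0:ℝ)..X, W t ≤ ∫ t in (0:ℝ)..X,
          (|∫ y in (0:ℝ)..1, Real.cos (y * L) * (Z (t + y) - m (t + y))| +
          |∫ y in (0:ℝ)..1, Real.sin (y * L) * (Z (t + y) - m (t + y))|) :=
        intervalIntegral.integral_mono_on hX0 (hWc.intervalIntegrable _ _)
          ((hcc.abs.add hsc.abs).intervalIntegrable _ _) fun t _ => h21 t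
      rw [intervalIntegral.integral_add (hcc.abs.intervalIntegrable _ _) (hsc.abs.intervalIntegrable _ _)] at h23
      linarith
    have h24 : ∀ x ∈ Set.Icc (0:ℝ) H, ∫ t in (0:ℝ)..T, W (t + x) ≤ 2 * a := by
      intro x hx
      rw [intervalIntegral.integral_comp_add_right]
      refine le_trans ?_ h20
      refine intervalIntegral.integral_mono_interval (by linarith [hx.1]) (by linarith)
        (by linarith [hx.2]) (Filter.Eventually.of_forall fun t => norm_nonneg _)
        (hWc.intervalIntegrable _ _)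
    have h25 : A Z - A m = ∫ x in (0:ℝ)..H, ∫ t in (0:ℝ)..T, E L t * (V Z (t + x) - V m (t + x)) := by
      rw [hA]
      show (∫ x in (0:ℝ)..H, ∫ t in (0:ℝ)..T, E L t * V Z (t + x)) -
        (∫ x in (0:ℝ)..H, ∫ t in (0:ℝ)..T, E L t * V m (t + x)) = _
      have hVZ := hVc Z hZ
      have hVm := hVc m hm
      rw [← intervalIntegral.integral_sub]
      · refine intervalIntegral.integral_congr fun x _ => ?_
        show (∫ t in (0:ℝ)..T, E L t * V Z (t + x)) - (∫ t in (0:ℝ)..T, E L t * V m (t + x)) = _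
        rw [← intervalIntegral.integral_sub]
        · refine intervalIntegral.integral_congr fun t _ => ?_
          show _ - _ = _
          ring
        · refine Continuous.intervalIntegrable ?_ _ _
          fun_prop
        · refine Continuous.intervalIntegrable ?_ _ _
          fun_prop
      · refine Continuous.intervalIntegrable (contI (F := fun x t => E L t * V Z (t + x)) ?_ 0 T) _ _
        show Continuous fun q : ℝ × ℝ => E L q.2 * V Z (q.2 + q.1)
        fun_prop
      · refine Continuous.intervalIntegrable (contI (F := fun x t => E L t * V m (t + x)) ?_ 0 T) _ _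
        show Continuous fun q : ℝ × ℝ => E L q.2 * V m (q.2 + q.1)
        fun_prop
    rw [h25]
    have h26 : ‖∫ x in (0:ℝ)..H, ∫ t in (0:ℝ)..T, E L t * (V Z (t + x) - V m (t + x))‖ ≤
        (2 * a) * |H - 0| := by
      refine intervalIntegral.norm_integral_le_of_norm_le_const fun x hx => ?_
      rw [Set.uIoc_of_le hH.le] at hx
      refine le_trans ?_ (h24 x ⟨hx.1.le, hx.2⟩)
      refine norm_le hT (by fun_prop) fun t => ?_
      rw [norm_mul, E_norm, one_mul]
    rw [sub_zero, abs_of_pos hH] at h26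
    linarith
  -- (3)
  have h3 : ‖A m - (∫ x in (0:ℝ)..H, E L (-x)) * (T * ρ)‖ ≤ H * b := by
    have h31 : ∀ x : ℝ, ∫ t in (0:ℝ)..T, E L t * V m (t + x) =
        E L (-x) * ∫ y in (0:ℝ)..1, ∫ u in (x + y)..(x + y + T), E L u * m u := by
      intro x
      have h32 : ∀ t : ℝ, E L t * V m (t + x) =
          ∫ y in (0:ℝ)..1, E L (-x) * (E L (t + (x + y)) * (m (t + (x + y)) : ℂ)) := by
        intro t
        rw [hV]
        show E L t * (∫ y in (0:ℝ)..1, E L y * (m (t + x + y) : ℂ)) = _
        rw [← intervalIntegral.integral_const_mul]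
        refine intervalIntegral.integral_congr fun y _ => ?_
        show E L t * (E L y * (m (t + x + y) : ℂ)) = _
        have h33 : E L (-x) * E L x = 1 := by rw [← E_add, neg_add_cancel, E_zero]
        rw [E_add, E_add, add_assoc t x y]
        linear_combination (-(E L t * E L y * (m (t + (x + y)) : ℂ))) * h33
      simp only [h32]
      rw [swapC, ← intervalIntegral.integral_const_mul]
      · refine intervalIntegral.integral_congr fun y _ => ?_
        show (∫ t in (0:ℝ)..T, E L (-x) * (E L (t + (x + y)) * (m (t + (x + y)) : ℂ))) = _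
        rw [intervalIntegral.integral_const_mul,
          intervalIntegral.integral_comp_add_right (fun u => E L u * (m u : ℂ)), zero_add, add_comm T]
      · show Continuous fun q : ℝ × ℝ => E L (-x) * (E L (q.1 + (x + q.2)) * (m (q.1 + (x + q.2)) : ℂ))
        fun_prop
    have hRc : Continuous fun s : ℝ => ∫ u in s..(s + T), E L u * (m u : ℂ) := by
      have h34 : (fun s : ℝ => ∫ u in s..(s + T), E L u * (m u : ℂ)) =
          fun s : ℝ => ∫ u in (0:ℝ)..T, E L (u + s) * (m (u + s) : ℂ) := by
        funext s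
        rw [intervalIntegral.integral_comp_add_right (fun u => E L u * (m u : ℂ)), zero_add,
          add_comm T]
      rw [h34]
      refine contI (F := fun s u => E L (u + s) * (m (u + s) : ℂ)) ?_ 0 T
      show Continuous fun q : ℝ × ℝ => E L (q.2 + q.1) * (m (q.2 + q.1) : ℂ)
      fun_prop
    have h35 : A m - (∫ x in (0:ℝ)..H, E L (-x)) * (T * ρ) =
        ∫ x in (0:ℝ)..H, E L (-x) * ∫ y in (0:ℝ)..1,
          ((∫ u in (x + y)..(x + y + T), E L u * m u) - T * ρ) := by
      rw [hA]
      show (∫ x in (0:ℝ)..H, ∫ t in (0:ℝ)..T, E L t * V m (t + x)) - _ = _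
      simp only [h31]
      have hG : Continuous fun x : ℝ => ∫ y in (0:ℝ)..1, ∫ u in (x + y)..(x + y + T), E L u * (m u : ℂ) := by
        refine contI (F := fun x y => ∫ u in (x + y)..(x + y + T), E L u * (m u : ℂ)) ?_ 0 1
        show Continuous fun q : ℝ × ℝ => ∫ u in (q.1 + q.2)..(q.1 + q.2 + T), E L u * (m u : ℂ)
        exact hRc.comp (continuous_fst.add continuous_snd)
      rw [← intervalIntegral.integral_mul_const, ← intervalIntegral.integral_sub]
      · refine intervalIntegral.integral_congr fun x _ => ?_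
        show _ - E L (-x) * (T * ρ) = _
        rw [intervalIntegral.integral_sub, intervalIntegral.integral_const, sub_zero, one_smul, mul_sub]
        · exact (hRc.comp (continuous_const.add continuous_id)).intervalIntegrable _ _
        · exact continuous_const.intervalIntegrable _ _
      · refine Continuous.intervalIntegrable ?_ _ _
        exact (hEc.comp continuous_neg).mul hG
      · refine Continuous.intervalIntegrable ?_ _ _
        fun_prop
    rw [h35]
    have h36 : ‖∫ x in (0:ℝ)..H, E L (-x) * ∫ y in (0:ℝ)..1,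
          ((∫ u in (x + y)..(x + y + T), E L u * m u) - T * ρ)‖ ≤ b * |H - 0| := by
      refine intervalIntegral.norm_integral_le_of_norm_le_const fun x _ => ?_
      rw [norm_mul, E_norm, one_mul]
      have h37 : ‖∫ y in (0:ℝ)..1, ((∫ u in (x + y)..(x + y + T), E L u * m u) - T * ρ)‖ ≤
          b * |(1:ℝ) - 0| :=
        intervalIntegral.norm_integral_le_of_norm_le_const fun y _ => hmρ (x + y)
      simpa using h37
    rw [sub_zero, abs_of_pos hH] at h36
    linarith
  -- (4)
  set S : ℝ → ℝ := fun s => ∫ x in (0:ℝ)..H, Z (s + x) with hS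
  have hSc : Continuous S := by
    refine contI (F := fun s x => Z (s + x)) ?_ 0 H
    show Continuous fun q : ℝ × ℝ => Z (q.1 + q.2)
    fun_prop
  have h4 : ‖A Z‖ ≤ (∫ t in (0:ℝ)..(T + 1), |S t - H|) + H * (2 / L) := by
    have h41 : A Z = ∫ t in (0:ℝ)..T, ∫ y in (0:ℝ)..1, E L (t + y) * (S (t + y) : ℂ) := by
      have hVZ := hVc Z hZ
      rw [hA]
      show (∫ x in (0:ℝ)..H, ∫ t in (0:ℝ)..T, E L t * V Z (t + x)) = _
      rw [swapC]
      · refine intervalIntegral.integral_congr fun t _ => ?_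
        show (∫ x in (0:ℝ)..H, E L t * V Z (t + x)) = _
        rw [intervalIntegral.integral_const_mul]
        have h42 : ∫ x in (0:ℝ)..H, V Z (t + x) =
            ∫ y in (0:ℝ)..1, ∫ x in (0:ℝ)..H, E L y * (Z (t + x + y) : ℂ) := by
          rw [hV]
          show (∫ x in (0:ℝ)..H, ∫ y in (0:ℝ)..1, E L y * (Z (t + x + y) : ℂ)) = _
          rw [swapC]
          show Continuous fun q : ℝ × ℝ => E L q.2 * (Z (t + q.1 + q.2) : ℂ)
          fun_prop
        rw [h42, ← intervalIntegral.integral_const_mul]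
        refine intervalIntegral.integral_congr fun y _ => ?_
        show E L t * (∫ x in (0:ℝ)..H, E L y * (Z (t + x + y) : ℂ)) = _
        rw [intervalIntegral.integral_const_mul, E_add, mul_assoc]
        congr 2
        rw [hS]
        show (∫ x in (0:ℝ)..H, (Z (t + x + y) : ℂ)) = ((∫ x in (0:ℝ)..H, Z (t + y + x) : ℝ) : ℂ)
        rw [← intervalIntegral.integral_ofReal]
        refine intervalIntegral.integral_congr fun x _ => ?_
        show (Z (t + x + y) : ℂ) = (Z (t + y + x) : ℂ)
        rw [add_right_comm]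
      · show Continuous fun q : ℝ × ℝ => E L q.2 * V Z (q.2 + q.1)
        fun_prop
    have hSx : Continuous fun q : ℝ × ℝ => E L (q.1 + q.2) * ((S (q.1 + q.2) : ℂ) - H) := by fun_prop
    have hEx : Continuous fun q : ℝ × ℝ => (H : ℂ) * E L (q.1 + q.2) := by fun_prop
    have h43 : A Z = (∫ t in (0:ℝ)..T, ∫ y in (0:ℝ)..1, E L (t + y) * ((S (t + y) : ℂ) - H)) +
        ∫ y in (0:ℝ)..1, ∫ t in (0:ℝ)..T, (H : ℂ) * E L (t + y) := by
      rw [h41, ← swapC (F := fun t y => (H : ℂ) * E L (t + y)) hEx, ← intervalIntegral.integral_add]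
      · refine intervalIntegral.integral_congr fun t _ => ?_
        show _ = (∫ y in (0:ℝ)..1, E L (t + y) * ((S (t + y) : ℂ) - H)) +
          (∫ y in (0:ℝ)..1, (H : ℂ) * E L (t + y))
        rw [← intervalIntegral.integral_add]
        · refine intervalIntegral.integral_congr fun y _ => ?_
          show E L (t + y) * (S (t + y) : ℂ) = E L (t + y) * ((S (t + y) : ℂ) - H) + (H : ℂ) * E L (t + y)
          ring
        · refine Continuous.intervalIntegrable ?_ _ _
          fun_prop
        · refine Continuous.intervalIntegrable ?_ _ _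
          fun_prop
      · exact (contI (F := fun t y => E L (t + y) * ((S (t + y) : ℂ) - H)) hSx 0 1).intervalIntegrable _ _
      · exact (contI (F := fun t y => (H : ℂ) * E L (t + y)) hEx 0 1).intervalIntegrable _ _
    have h44 : ‖∫ y in (0:ℝ)..1, ∫ t in (0:ℝ)..T, (H : ℂ) * E L (t + y)‖ ≤ H * (2 / L) := by
      have h45 : ‖∫ y in (0:ℝ)..1, ∫ t in (0:ℝ)..T, (H : ℂ) * E L (t + y)‖ ≤
          (H * (2 / L)) * |(1:ℝ) - 0| := by
        refine intervalIntegral.norm_integral_le_of_norm_le_const fun y _ => ?_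
        have h46 : ∫ t in (0:ℝ)..T, (H : ℂ) * E L (t + y) =
            (H : ℂ) * ((∫ t in (0:ℝ)..T, E L t) * E L y) := by
          rw [intervalIntegral.integral_const_mul, ← intervalIntegral.integral_mul_const]
          simp only [E_add]
        rw [h46, norm_mul, norm_mul, E_norm, mul_one, Complex.norm_real, Real.norm_eq_abs,
          abs_of_pos hH]
        exact mul_le_mul_of_nonneg_left (E_int_le hL T) hH.le
      simpa using h45
    have hab : Continuous fun t : ℝ => |S t - H| := by fun_prop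
    have habx : Continuous fun q : ℝ × ℝ => |S (q.1 + q.2) - H| := by fun_prop
    have h47 : ‖∫ t in (0:ℝ)..T, ∫ y in (0:ℝ)..1, E L (t + y) * ((S (t + y) : ℂ) - H)‖ ≤
        ∫ t in (0:ℝ)..(T + 1), |S t - H| := by
      have h48 : ‖∫ t in (0:ℝ)..T, ∫ y in (0:ℝ)..1, E L (t + y) * ((S (t + y) : ℂ) - H)‖ ≤
          ∫ t in (0:ℝ)..T, ∫ y in (0:ℝ)..1, |S (t + y) - H| := by
        refine norm_le hT (contI (F := fun t y => |S (t + y) - H|) habx 0 1) fun t => ?_
        refine norm_le zero_le_one (by fun_prop) fun y => ?_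
        rw [norm_mul, E_norm, one_mul, ← Complex.ofReal_sub, Complex.norm_real, Real.norm_eq_abs]
      refine h48.trans ?_
      rw [swapC (F := fun t y => |S (t + y) - H|) habx]
      have h49 : ∫ y in (0:ℝ)..1, ∫ t in (0:ℝ)..T, |S (t + y) - H| ≤
          ∫ y in (0:ℝ)..1, (∫ t in (0:ℝ)..(T + 1), |S t - H|) := by
        refine intervalIntegral.integral_mono_on zero_le_one
          ((contI (F := fun y t => |S (t + y) - H|) (by
            show Continuous fun q : ℝ × ℝ => |S (q.2 + q.1) - H|
            fun_prop) 0 T).intervalIntegrable _ _)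
          (continuous_const.intervalIntegrable _ _) fun y hy => ?_
        rw [intervalIntegral.integral_comp_add_right (fun t => |S t - H|)]
        exact intervalIntegral.integral_mono_interval (by linarith [hy.1]) (by linarith)
          (by linarith [hy.2]) (Filter.Eventually.of_forall fun t => abs_nonneg _)
          (hab.intervalIntegrable _ _)
      rw [intervalIntegral.integral_const, sub_zero, one_smul] at h49
      exact h49
    rw [h43]
    exact (norm_add_le _ _).trans (add_le_add h47 h44)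
  -- conclusion
  have h5 : ‖(∫ x in (0:ℝ)..H, E L (-x)) * (T * ρ)‖ = H * |Real.sinc (H * L / 2)| * (T * ‖ρ‖) := by
    simp only [E_neg]
    rw [norm_mul, E_int_norm (neg_ne_zero.2 hL.ne') hH, norm_mul, Complex.norm_real,
      Real.norm_eq_abs, abs_of_nonneg hT]
    congr 2
    rw [mul_neg, neg_div, Real.sinc_neg]
  have h6 : ∫ t in (0:ℝ)..(T + 1), |S t - H| =
      H * ∫ t in (0:ℝ)..(T + 1), |(1 / H) * (∫ u in t..(t + H), Z u) - 1| := by
    rw [← intervalIntegral.integral_const_mul]
    refine intervalIntegral.integral_congr fun t _ => ?_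
    show |(∫ x in (0:ℝ)..H, Z (t + x)) - H| = H * |(1 / H) * (∫ u in t..(t + H), Z u) - 1|
    rw [intervalIntegral.integral_comp_add_left (fun u => Z u) t, add_zero]
    nth_rewrite 3 [← abs_of_pos hH]
    rw [← abs_mul]
    congr 1
    field_simp
  have h7 : ‖(∫ x in (0:ℝ)..H, E L (-x)) * (T * ρ)‖ ≤ ‖A Z‖ + ‖A Z - A m‖ +
      ‖A m - (∫ x in (0:ℝ)..H, E L (-x)) * (T * ρ)‖ := by
    have h71 : (∫ x in (0:ℝ)..H, E L (-x)) * (T * ρ) = A Z - (A Z - A m) -
        (A m - (∫ x in (0:ℝ)..H, E L (-x)) * (T * ρ)) := by ring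
    calc ‖(∫ x in (0:ℝ)..H, E L (-x)) * (T * ρ)‖ = ‖A Z - (A Z - A m) -
        (A m - (∫ x in (0:ℝ)..H, E L (-x)) * (T * ρ))‖ := by rw [← h71]
      _ ≤ _ := (norm_sub_le _ _).trans (add_le_add (norm_sub_le _ _) le_rfl)
  rw [h5] at h7
  rw [h6] at h4
  have h8 : H * (T * ‖ρ‖ * |Real.sinc (H * L / 2)|) ≤
      H * ((∫ t in (0:ℝ)..(T + 1), |(1 / H) * (∫ u in t..(t + H), Z u) - 1|) + 2 * a + b + 2 / L) := by
    linarith
  exact le_of_mul_le_mul_left h8 hH

end Pool.Agent.N748.GC.BDD
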