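import Pool.Agent.N748.GC.Stm

set_option autoImplicit false

/-!
# The total mass of the random Euler product is not constant
-/

namespace Pool.Agent.N748.GC.NC

open Finset Filter MeasureTheory Topology Complex Pool.Agent.N748.GC


/-! ### the local factor -/

lemma norm_fourier (n : ℤ) (y : UnitAddCircle) : ‖(fourier n y : ℂ)‖ = 1 := Circle.norm_coe _

lemma rp_lt_one {p : ℕ} (hp : p.Prime) : (p:ℝ) ^ (-(1 / 2 : ℝ)) < 1 := by
  apply Real.rpow_lt_one_of_one_lt_of_neg
  · exact_mod_cast hp.one_lt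
  · norm_num

lemma rp_pos {p : ℕ} (hp : p.Prime) : 0 < (p:ℝ) ^ (-(1 / 2 : ℝ)) := by
  apply Real.rpow_pos_of_pos
  exact_mod_cast hp.pos

lemma fac_ne {p : ℕ} (hp : p.Prime) (y : UnitAddCircle) :
    (1 : ℂ) - (fourier 1 y : ℂ) * (((p:ℝ) ^ (-(1 / 2 : ℝ)) : ℝ) : ℂ) ≠ 0 := by
  intro h
  have h1 : (fourier 1 y : ℂ) * (((p:ℝ) ^ (-(1 / 2 : ℝ)) : ℝ) : ℂ) = 1 := (sub_eq_zero.1 h).symm
  have h2 := congrArg norm h1
  rw [norm_mul, norm_fourier, one_mul, norm_one, Complex.norm_real, Real.norm_eq_abs,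
    abs_of_pos (rp_pos hp)] at h2
  exact (rp_lt_one hp).ne h2

lemma lw_cont (α : ℝ) {p : ℕ} (hp : p.Prime) : Continuous (lw α p) := by
  unfold lw
  refine continuous_const.mul (Continuous.log ?_ ?_)
  · refine (continuous_const.sub (Continuous.mul ?_ continuous_const)).norm
    exact (fourier 1).continuous
  · intro y
    exact norm_ne_zero_iff.2 (fac_ne hp y)

lemma int_exp_pos (α : ℝ) {p : ℕ} (hp : p.Prime) : 0 < ∫ y, Real.exp (lw α p y) ∂(AddCircle.haarAddCircle (T := (1:ℝ))) := by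
  have hc : Continuous fun y => Real.exp (lw α p y) := Real.continuous_exp.comp (lw_cont α hp)
  refine integral_exp_pos ?_
  exact hc.integrable_of_hasCompactSupport (HasCompactSupport.of_compactSpace _)

/-- the half turn -/
noncomputable def hf : UnitAddCircle := ((1 / 2 / (1:ℤ) : ℝ) : UnitAddCircle)

lemma fourier_hf (y : UnitAddCircle) : (fourier 1 (y + hf) : ℂ) = -fourier 1 y :=
  fourier_add_half_inv_index (T := (1:ℝ)) (n := 1) one_ne_zero one_pos y

lemma fourier_neg_hf (y : UnitAddCircle) : (fourier (-1) (y + hf) : ℂ) = -fourier (-1) y := by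
  rw [fourier_neg, fourier_neg, fourier_hf, map_neg]

lemma int_fourier : ∫ y, (fourier (-1) y : ℂ) ∂(AddCircle.haarAddCircle (T := (1:ℝ))) = 0 := by
  have h1 : ∫ y, (fourier (-1) (y + hf) : ℂ) ∂(AddCircle.haarAddCircle (T := (1:ℝ))) = ∫ y, (fourier (-1) y : ℂ) ∂(AddCircle.haarAddCircle (T := (1:ℝ))) :=
    integral_add_right_eq_self (fun y => (fourier (-1) y : ℂ)) hf
  simp only [fourier_neg_hf] at h1
  rw [integral_neg] at h1
  have h2 : (2:ℂ) * ∫ y, (fourier (-1) y : ℂ) ∂(AddCircle.haarAddCircle (T := (1:ℝ))) = 0 := by linear_combination -h1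
  simpa using h2

/-- `∫ exp(lw) e(-y) dy ≠ 0` -/
lemma nu_re_pos {α : ℝ} (hα : 0 < α) {p : ℕ} (hp : p.Prime) :
    0 < ∫ y, Real.exp (lw α p y) * (fourier 1 y : ℂ).re ∂(AddCircle.haarAddCircle (T := (1:ℝ))) := by
  set r : ℝ := (p:ℝ) ^ (-(1 / 2 : ℝ)) with hr
  have hr0 : 0 < r := rp_pos hp
  set g : UnitAddCircle → ℝ := fun y => Real.exp (lw α p y) with hg
  have hgc : Continuous g := Real.continuous_exp.comp (lw_cont α hp)
  have hkc : Continuous fun y : UnitAddCircle => (fourier 1 y : ℂ).re :=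
    Complex.continuous_re.comp (fourier 1).continuous
  have hint : ∀ f : UnitAddCircle → ℝ, Continuous f → Integrable f (AddCircle.haarAddCircle (T := (1:ℝ))) := fun f hf' =>
    hf'.integrable_of_hasCompactSupport (HasCompactSupport.of_compactSpace _)
  have hsh : Continuous fun y : UnitAddCircle => y + hf := by fun_prop
  have e1 : ∫ y, g (y + hf) * (fourier 1 (y + hf) : ℂ).re ∂(AddCircle.haarAddCircle (T := (1:ℝ))) =
      ∫ y, g y * (fourier 1 y : ℂ).re ∂(AddCircle.haarAddCircle (T := (1:ℝ))) :=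
    integral_add_right_eq_self (fun y => g y * (fourier 1 y : ℂ).re) hf
  have e2 : 2 * ∫ y, g y * (fourier 1 y : ℂ).re ∂(AddCircle.haarAddCircle (T := (1:ℝ))) =
      ∫ y, (g y - g (y + hf)) * (fourier 1 y : ℂ).re ∂(AddCircle.haarAddCircle (T := (1:ℝ))) := by
    have h3 : ∫ y, (g y - g (y + hf)) * (fourier 1 y : ℂ).re ∂(AddCircle.haarAddCircle (T := (1:ℝ))) =
        ∫ y, g y * (fourier 1 y : ℂ).re ∂(AddCircle.haarAddCircle (T := (1:ℝ))) +
          ∫ y, g (y + hf) * (fourier 1 (y + hf) : ℂ).re ∂(AddCircle.haarAddCircle (T := (1:ℝ))) := by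
      rw [← integral_add]
      · refine integral_congr_ae (Eventually.of_forall fun y => ?_)
        show (g y - g (y + hf)) * (fourier 1 y : ℂ).re =
          g y * (fourier 1 y : ℂ).re + g (y + hf) * (fourier 1 (y + hf) : ℂ).re
        rw [fourier_hf, Complex.neg_re]
        ring
      · exact hint _ (hgc.mul hkc)
      · exact hint _ ((hgc.comp hsh).mul (hkc.comp hsh))
    rw [h3, e1]
    ring
  -- comparison of the two values
  have hlw : ∀ y, g y = ‖(1 : ℂ) - (fourier 1 y : ℂ) * (r : ℂ)‖ ^ (-(2 * α)) := by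
    intro y
    rw [hg]
    show Real.exp (lw α p y) = _
    rw [Real.rpow_def_of_pos (norm_pos_iff.2 (fac_ne hp y))]
    unfold lw
    rw [mul_comm]
  have hcmp : ∀ y, 0 < (fourier 1 y : ℂ).re → g (y + hf) < g y := by
    intro y hy
    rw [hlw, hlw]
    refine Real.rpow_lt_rpow_of_neg (norm_pos_iff.2 (fac_ne hp y)) ?_ (by linarith)
    rw [fourier_hf]
    set u : ℂ := (fourier 1 y : ℂ) with hu
    have h4 : ‖(1:ℂ) - u * r‖ ^ 2 < ‖(1:ℂ) - -u * r‖ ^ 2 := by
      rw [← Complex.normSq_eq_norm_sq, ← Complex.normSq_eq_norm_sq, Complex.normSq_apply,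
        Complex.normSq_apply]
      simp only [Complex.sub_re, Complex.one_re, Complex.mul_re, Complex.ofReal_re,
        Complex.ofReal_im, Complex.sub_im, Complex.one_im, Complex.mul_im, Complex.neg_re,
        Complex.neg_im]
      nlinarith [mul_pos hy hr0]
    exact lt_of_pow_lt_pow_left₀ 2 (norm_nonneg _) h4
  have hcmp' : ∀ y, (fourier 1 y : ℂ).re < 0 → g y < g (y + hf) := by
    intro y hy
    have h5 := hcmp (y + hf) (by rw [fourier_hf, Complex.neg_re]; linarith)
    have h6 : y + hf + hf = y := by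
      have : hf + hf = 0 := by
        unfold hf
        rw [← AddCircle.coe_add]
        norm_num
      rw [add_assoc, this, add_zero]
    rwa [h6] at h5
  have hpos : 0 < ∫ y, (g y - g (y + hf)) * (fourier 1 y : ℂ).re ∂(AddCircle.haarAddCircle (T := (1:ℝ))) := by
    have hc : Continuous fun y => (g y - g (y + hf)) * (fourier 1 y : ℂ).re :=
      (hgc.sub (hgc.comp hsh)).mul hkc
    have hnn : 0 ≤ fun y => (g y - g (y + hf)) * (fourier 1 y : ℂ).re := by
      intro y
      show 0 ≤ (g y - g (y + hf)) * (fourier 1 y : ℂ).re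
      rcases lt_trichotomy (fourier 1 y : ℂ).re 0 with h | h | h
      · exact mul_nonneg_of_nonpos_of_nonpos (by linarith [hcmp' y h]) h.le
      · rw [h, mul_zero]
      · exact mul_nonneg (by linarith [hcmp y h]) h.le
    refine hc.integral_pos_of_hasCompactSupport_nonneg_nonzero
      (HasCompactSupport.of_compactSpace _) hnn (x := 0) ?_
    have h0 : (fourier 1 (0 : UnitAddCircle) : ℂ).re = 1 := by
      rw [fourier_eval_zero, Complex.one_re]
    have h7 := hcmp 0 (by rw [h0]; exact one_pos)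
    rw [h0, mul_one]
    linarith
  linarith

/-! ### the density -/

lemma prime_of_Sm {z : ℕ} (p : Sm z) : (p : ℕ).Prime := (mem_filter.1 p.2).2

lemma M0_cont (α : ℝ) (z : ℕ) : Continuous (M0 α (Sm z)) := by
  unfold M0
  refine Continuous.div_const (Real.continuous_exp.comp ?_) _
  refine continuous_finsetSum _ fun p _ => ?_
  exact (lw_cont α (prime_of_Sm p)).comp (continuous_apply p)

lemma pt_cont (P : Finset ℕ) : Continuous (pt P) := by
  unfold pt
  refine continuous_pi fun p => ?_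
  refine (AddCircle.continuous_mk' (1:ℝ)).comp ?_
  fun_prop

/-- the phase of `2` -/
def two (z : ℕ) (hz : 3 ≤ z) : Sm z := ⟨2, mem_filter.2 ⟨mem_range.2 (by omega), Nat.prime_two⟩⟩

/-- the value of the mean of the density against the phase of `2` -/
noncomputable def nu (α : ℝ) : ℂ :=
  (∫ y, (Real.exp (lw α 2 y) : ℂ) * (fourier (-1) y : ℂ) ∂(AddCircle.haarAddCircle (T := (1:ℝ)))) /
    (∫ y, Real.exp (lw α 2 y) ∂(AddCircle.haarAddCircle (T := (1:ℝ))) : ℝ)

lemma nu_ne {α : ℝ} (hα : 0 < α) : nu α ≠ 0 := by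
  unfold nu
  refine div_ne_zero ?_ (by exact_mod_cast (int_exp_pos α Nat.prime_two).ne')
  intro h
  have h1 := congrArg Complex.re h
  have hc : Continuous fun y => (Real.exp (lw α 2 y) : ℂ) * (fourier (-1) y : ℂ) :=
    (Complex.continuous_ofReal.comp (Real.continuous_exp.comp (lw_cont α Nat.prime_two))).mul
      (fourier (-1)).continuous
  have hi : Integrable (fun y => (Real.exp (lw α 2 y) : ℂ) * (fourier (-1) y : ℂ)) (AddCircle.haarAddCircle (T := (1:ℝ))) :=
    hc.integrable_of_hasCompactSupport (HasCompactSupport.of_compactSpace _)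
  have h2 := (integral_re hi).symm
  simp only [RCLike.re_to_complex] at h2
  rw [h1, Complex.zero_re] at h2
  have h3 := nu_re_pos hα Nat.prime_two
  have h4 : ∀ y : UnitAddCircle, ((Real.exp (lw α 2 y) : ℂ) * (fourier (-1) y : ℂ)).re =
      Real.exp (lw α 2 y) * (fourier 1 y : ℂ).re := by
    intro y
    rw [Complex.re_ofReal_mul, fourier_neg, Complex.conj_re]
  simp only [h4] at h2
  linarith

lemma mean_M0 (α : ℝ) {z : ℕ} (hz : 3 ≤ z) :
    ∫ y, (M0 α (Sm z) y : ℂ) * (fourier (-1) (y (two z hz)) : ℂ) ∂(HP (Sm z)) = nu α := by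
  classical
  have h1 : ∀ y : UnitAddTorus (Sm z), (M0 α (Sm z) y : ℂ) * (fourier (-1) (y (two z hz)) : ℂ) =
      ∏ p : Sm z, (((Real.exp (lw α p (y p)) : ℂ) *
        (if p = two z hz then (fourier (-1) (y p) : ℂ) else 1)) /
          ((∫ t, Real.exp (lw α p t) ∂(AddCircle.haarAddCircle (T := (1:ℝ))) : ℝ) : ℂ)) := by
    intro y
    rw [Finset.prod_div_distrib, Finset.prod_mul_distrib, Finset.prod_ite_eq' univ]
    simp only [mem_univ, if_true]
    unfold M0 E0
    rw [Real.exp_sum]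
    push_cast
    ring
  simp only [h1]
  have h2 := integral_fintype_prod_eq_prod (𝕜 := ℂ) (ι := Sm z) (E := fun _ => UnitAddCircle)
    (μ := fun _ => (AddCircle.haarAddCircle (T := (1:ℝ))))
    (fun p t => ((Real.exp (lw α p t) : ℂ) *
        (if p = two z hz then (fourier (-1) t : ℂ) else 1)) /
          ((∫ t, Real.exp (lw α p t) ∂(AddCircle.haarAddCircle (T := (1:ℝ))) : ℝ) : ℂ))
  unfold HP
  rw [h2, Finset.prod_eq_single (two z hz)]
  · simp only [if_true]
    rw [integral_div]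
    rfl
  · intro p _ hp
    simp only [if_neg hp, mul_one]
    rw [integral_div, integral_complex_ofReal, div_self]
    exact_mod_cast (int_exp_pos α (prime_of_Sm p)).ne'
  · intro h
    exact absurd (mem_univ _) h

/-! ### the infinite torus -/

/-- the projection -/
def pr (z : ℕ) (w : Om) : UnitAddTorus (Sm z) := fun p => w p

lemma pr_cont (z : ℕ) : Continuous (pr z) := by
  unfold pr
  fun_prop

lemma pr_map (z : ℕ) : PO.map (pr z) = HP (Sm z) :=
  Measure.infinitePi_map_restrict _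

instance : IsProbabilityMeasure PO := by
  unfold PO; infer_instance

lemma mean_shift (α : ℝ) {z : ℕ} (hz : 3 ≤ z) (x : ℝ) :
    ∫ w, (M0 α (Sm z) (pr z w + pt (Sm z) x) : ℂ) * (fourier (-1) (w 2) : ℂ) ∂PO =
      (fourier 1 (pt (Sm z) x (two z hz)) : ℂ) * nu α := by
  set s := pt (Sm z) x with hs
  have hc : Continuous fun y : UnitAddTorus (Sm z) =>
      (M0 α (Sm z) y : ℂ) * (fourier (-1) (y (two z hz)) : ℂ) :=
    (Complex.continuous_ofReal.comp (M0_cont α z)).mul
      ((fourier (-1)).continuous.comp (continuous_apply _))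
  have h1 : ∫ w, (M0 α (Sm z) (pr z w + s) : ℂ) * (fourier (-1) (w 2) : ℂ) ∂PO =
      ∫ y, (M0 α (Sm z) (y + s) : ℂ) * (fourier (-1) (y (two z hz)) : ℂ) ∂(HP (Sm z)) := by
    rw [← pr_map, integral_map (pr_cont z).measurable.aemeasurable]
    · rfl
    · refine Continuous.aestronglyMeasurable ?_
      exact (Complex.continuous_ofReal.comp ((M0_cont α z).comp (continuous_id.add
        continuous_const))).mul ((fourier (-1)).continuous.comp (continuous_apply _))
  have h2 : ∀ y : UnitAddTorus (Sm z),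
      (M0 α (Sm z) (y + s) : ℂ) * (fourier (-1) (y (two z hz)) : ℂ) =
      (fourier 1 (s (two z hz)) : ℂ) *
        ((M0 α (Sm z) (y + s) : ℂ) * (fourier (-1) ((y + s) (two z hz)) : ℂ)) := by
    intro y
    have h3 : (fourier (-1) ((y + s) (two z hz)) : ℂ) =
        (fourier (-1) (y (two z hz)) : ℂ) * (fourier (-1) (s (two z hz)) : ℂ) := by
      rw [Pi.add_apply, fourier_apply, fourier_apply, fourier_apply, smul_add,
        AddCircle.toCircle_add, Circle.coe_mul]
    have h4 : (fourier 1 (s (two z hz)) : ℂ) * (fourier (-1) (s (two z hz)) : ℂ) = 1 := by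
      rw [← fourier_add]
      simp
    rw [h3]
    linear_combination (-(M0 α (Sm z) (y + s) : ℂ) * (fourier (-1) (y (two z hz)) : ℂ)) * h4
  rw [h1]
  simp only [h2]
  rw [integral_const_mul]
  congr 1
  have h5 : ∫ y, (M0 α (Sm z) (y + s) : ℂ) * (fourier (-1) ((y + s) (two z hz)) : ℂ) ∂(HP (Sm z)) =
      ∫ y, (M0 α (Sm z) y : ℂ) * (fourier (-1) (y (two z hz)) : ℂ) ∂(HP (Sm z)) := by
    unfold HP
    exact integral_add_right_eq_self
      (fun y : UnitAddTorus (Sm z) => (M0 α (Sm z) y : ℂ) * (fourier (-1) (y (two z hz)) : ℂ)) s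
  rw [h5, mean_M0 α hz]

/-- the constant -/
noncomputable def kap (α : ℝ) : ℂ :=
  (∫ x in (0:ℝ)..1, Complex.exp (((-(x * Real.log 2) : ℝ) : ℂ) * I)) * nu α

lemma pt_two {z : ℕ} (hz : 3 ≤ z) (x : ℝ) :
    (fourier 1 (pt (Sm z) x (two z hz)) : ℂ) =
      Complex.exp (((-(x * Real.log 2) : ℝ) : ℂ) * I) := by
  unfold pt
  rw [fourier_coe_apply]
  congr 1
  have h2 : ((two z hz : Sm z) : ℕ) = 2 := rfl
  rw [h2]
  push_cast
  have hpi : (Real.pi : ℂ) ≠ 0 := by exact_mod_cast Real.pi_ne_zero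
  field_simp

lemma log_two_lt : Real.log 2 < 1 := by
  have := Real.log_two_lt_d9
  linarith

lemma kap_ne {α : ℝ} (hα : 0 < α) : kap α ≠ 0 := by
  refine mul_ne_zero ?_ (nu_ne hα)
  intro h
  have h1 := congrArg Complex.re h
  have hc : Continuous fun x : ℝ => Complex.exp (((-(x * Real.log 2) : ℝ) : ℂ) * I) := by fun_prop
  have hre : (∫ x in (0:ℝ)..1, Complex.exp (((-(x * Real.log 2) : ℝ) : ℂ) * I)).re =
      ∫ x in (0:ℝ)..1, (Complex.exp (((-(x * Real.log 2) : ℝ) : ℂ) * I)).re := by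
    rw [intervalIntegral.integral_of_le zero_le_one, intervalIntegral.integral_of_le zero_le_one]
    have := integral_re (μ := volume.restrict (Set.Ioc (0:ℝ) 1))
      (f := fun x : ℝ => Complex.exp (((-(x * Real.log 2) : ℝ) : ℂ) * I))
      ((hc.intervalIntegrable 0 1).1)
    simpa only [RCLike.re_to_complex] using this.symm
  rw [hre, Complex.zero_re] at h1
  have hpos : 0 < ∫ x in (0:ℝ)..1, (Complex.exp (((-(x * Real.log 2) : ℝ) : ℂ) * I)).re := by
    refine intervalIntegral.intervalIntegral_pos_of_pos_on ?_ ?_ one_pos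
    · exact (Complex.continuous_re.comp hc).intervalIntegrable 0 1
    · intro x hx
      rw [Complex.exp_ofReal_mul_I_re, Real.cos_neg]
      have hl := Real.log_pos one_lt_two
      have h3 : x * Real.log 2 < 1 := by
        have := mul_lt_mul'' hx.2 log_two_lt hx.1.le hl.le
        linarith
      apply Real.cos_pos_of_mem_Ioo
      constructor
      · have : 0 < x * Real.log 2 := mul_pos hx.1 hl
        linarith [Real.pi_pos]
      · have := Real.pi_gt_three
        linarith
  linarith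

/-- the mean of the mass of the approximation against the phase of `2` -/
lemma mean_Y (hRZ : S_RZ) {α : ℝ} (hα : 0 < α) {z : ℕ} (hz : 3 ≤ z) :
    ∫ w, ((∫ x in (0:ℝ)..1, (1:ℝ) * rz α z w x : ℝ) : ℂ) * (fourier (-1) (w 2) : ℂ) ∂PO = kap α := by
  have hF : Continuous fun q : Om × ℝ =>
      (M0 α (Sm z) (pr z q.1 + pt (Sm z) q.2) : ℂ) * (fourier (-1) (q.1 2) : ℂ) := by
    refine (Complex.continuous_ofReal.comp ((M0_cont α z).comp
      (((pr_cont z).comp continuous_fst).add ((pt_cont _).comp continuous_snd)))).mul ?_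
    exact (fourier (-1)).continuous.comp ((continuous_apply 2).comp continuous_fst)
  obtain ⟨C, hC⟩ : ∃ C, ∀ y, ‖M0 α (Sm z) y‖ ≤ C := by
    obtain ⟨C, hC⟩ := isCompact_univ.exists_bound_of_continuousOn (M0_cont α z).continuousOn
    exact ⟨C, fun y => hC y trivial⟩
  have hint : Integrable (fun q : Om × ℝ =>
      (M0 α (Sm z) (pr z q.1 + pt (Sm z) q.2) : ℂ) * (fourier (-1) (q.1 2) : ℂ))
      (PO.prod (volume.restrict (Set.Ioc (0:ℝ) 1))) := by
    refine Integrable.of_bound hF.aestronglyMeasurable C (Eventually.of_forall fun q => ?_)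
    rw [norm_mul, norm_fourier, mul_one, Complex.norm_real]
    exact hC _
  have h1 : ∀ w : Om, ((∫ x in (0:ℝ)..1, (1:ℝ) * rz α z w x : ℝ) : ℂ) * (fourier (-1) (w 2) : ℂ) =
      ∫ x in Set.Ioc (0:ℝ) 1,
        (M0 α (Sm z) (pr z w + pt (Sm z) x) : ℂ) * (fourier (-1) (w 2) : ℂ) := by
    intro w
    rw [intervalIntegral.integral_of_le zero_le_one, ← integral_complex_ofReal,
      ← integral_mul_const]
    refine integral_congr_ae (Eventually.of_forall fun x => ?_)
    show ((1 * rz α z w x : ℝ) : ℂ) * _ = _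
    rw [one_mul, hRZ α hα z w x]
    rfl
  simp only [h1]
  rw [integral_integral_swap hint]
  have h2 : ∀ x : ℝ, ∫ w, (M0 α (Sm z) (pr z w + pt (Sm z) x) : ℂ) * (fourier (-1) (w 2) : ℂ) ∂PO =
      Complex.exp (((-(x * Real.log 2) : ℝ) : ℂ) * I) * nu α := by
    intro x
    rw [mean_shift α hz x, pt_two hz]
  simp only [h2]
  rw [integral_mul_const, ← intervalIntegral.integral_of_le zero_le_one]
  rfl

lemma mean_e : ∫ w : Om, (fourier (-1) (w 2) : ℂ) ∂PO = 0 := by
  have h1 : PO.map (fun w : Om => w 2) = (AddCircle.haarAddCircle (T := (1:ℝ))) := Measure.infinitePi_map_eval _ 2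
  have h2 : ∫ w : Om, (fourier (-1) (w 2) : ℂ) ∂PO = ∫ y, (fourier (-1) y : ℂ) ∂(AddCircle.haarAddCircle (T := (1:ℝ))) := by
    rw [← h1, integral_map]
    · exact (measurable_pi_apply 2).aemeasurable
    · exact (fourier (-1)).continuous.aestronglyMeasurable
  rw [h2, int_fourier]

theorem main (hRZ : S_RZ) : S_NC := by
  rintro α hα - Λ hΛ ⟨c, hc⟩
  obtain ⟨-, hint, -, hlim⟩ := hΛ (fun _ => 1) continuous_const
  -- integrability of the approximations
  have hYi : ∀ z : ℕ, Integrable (fun w : Om => ∫ x in (0:ℝ)..1, (1:ℝ) * rz α z w x) PO := by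
    intro z
    have hF : Continuous fun q : Om × ℝ => M0 α (Sm z) (pr z q.1 + pt (Sm z) q.2) :=
      (M0_cont α z).comp (((pr_cont z).comp continuous_fst).add ((pt_cont _).comp continuous_snd))
    obtain ⟨C, hC⟩ : ∃ C, ∀ y, ‖M0 α (Sm z) y‖ ≤ C := by
      obtain ⟨C, hC⟩ := isCompact_univ.exists_bound_of_continuousOn (M0_cont α z).continuousOn
      exact ⟨C, fun y => hC y trivial⟩
    have h1 : Integrable (fun q : Om × ℝ => M0 α (Sm z) (pr z q.1 + pt (Sm z) q.2))
        (PO.prod (volume.restrict (Set.Ioc (0:ℝ) 1))) :=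
      Integrable.of_bound hF.aestronglyMeasurable C (Eventually.of_forall fun q => hC _)
    have h2 := h1.integral_prod_left
    refine h2.congr (Eventually.of_forall fun w => ?_)
    show ∫ x in Set.Ioc (0:ℝ) 1, M0 α (Sm z) (pr z w + pt (Sm z) x) =
      ∫ x in (0:ℝ)..1, (1:ℝ) * rz α z w x
    rw [intervalIntegral.integral_of_le zero_le_one]
    refine integral_congr_ae (Eventually.of_forall fun x => ?_)
    show _ = 1 * rz α z w x
    rw [one_mul, hRZ α hα z w x]
    rfl
  have he : Continuous fun w : Om => (fourier (-1) (w 2) : ℂ) :=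
    (fourier (-1)).continuous.comp (continuous_apply 2)
  have hmul : ∀ f : Om → ℝ, Integrable f PO →
      Integrable (fun w => (f w : ℂ) * (fourier (-1) (w 2) : ℂ)) PO := by
    intro f hf'
    exact hf'.ofReal.mul_bdd (c := 1) he.aestronglyMeasurable
      (Eventually.of_forall fun w => (norm_fourier _ _).le)
  -- the limit
  have hL : ∫ w, (Λ (fun _ => 1) w : ℂ) * (fourier (-1) (w 2) : ℂ) ∂PO = 0 := by
    have h1 : ∫ w, (Λ (fun _ => 1) w : ℂ) * (fourier (-1) (w 2) : ℂ) ∂PO =
        ∫ w : Om, (c : ℂ) * (fourier (-1) (w 2) : ℂ) ∂PO := by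
      refine integral_congr_ae ?_
      filter_upwards [hc] with w hw
      rw [hw]
    rw [h1, integral_const_mul, mean_e, mul_zero]
  have hbound : ∀ᶠ z : ℕ in atTop, ‖kap α‖ ≤
      ∫ w, |(∫ x in (0:ℝ)..1, (fun _ : ℝ => (1:ℝ)) x * rz α z w x) - Λ (fun _ => 1) w| ∂PO := by
    filter_upwards [eventually_ge_atTop 3] with z hz
    have h1 := mean_Y hRZ hα hz
    have h2 : kap α = ∫ w, (((∫ x in (0:ℝ)..1, (1:ℝ) * rz α z w x) - Λ (fun _ => 1) w : ℝ) : ℂ) *
        (fourier (-1) (w 2) : ℂ) ∂PO := by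
      rw [← h1, ← sub_zero (∫ w, ((∫ x in (0:ℝ)..1, (1:ℝ) * rz α z w x : ℝ) : ℂ) *
        (fourier (-1) (w 2) : ℂ) ∂PO), ← hL, ← integral_sub (hmul _ (hYi z)) (hmul _ hint)]
      refine integral_congr_ae (Eventually.of_forall fun w => ?_)
      show _ - _ = _
      push_cast
      ring
    rw [h2]
    refine (norm_integral_le_integral_norm _).trans (le_of_eq ?_)
    refine integral_congr_ae (Eventually.of_forall fun w => ?_)
    show ‖_‖ = _
    rw [norm_mul, norm_fourier, mul_one, Complex.norm_real, Real.norm_eq_abs]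
  have h3 : ‖kap α‖ ≤ 0 := ge_of_tendsto hlim hbound
  exact kap_ne hα (norm_le_zero_iff.1 h3)

end Pool.Agent.N748.GC.NC
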