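import Pool.Agent.N748.GC.L2
import Pool.Agent.N748.GC.NC
import Pool.Agent.N748.GC.BDD0

set_option autoImplicit false

/-!
# GC/BDD : windows of bounded length (helper54)
-/

namespace Pool.Agent.N748.GC.BDD

open Finset Filter MeasureTheory Topology Complex Pool.Agent.N748.GC


/-- the mean of the density against the phase of `p` -/
noncomputable def rho (α : ℝ) (p : ℕ) : ℂ :=
  (∫ y, (Real.exp (lw α p y) : ℂ) * (fourier (-1) y : ℂ) ∂(AddCircle.haarAddCircle (T := (1:ℝ)))) /
    (∫ y, Real.exp (lw α p y) ∂(AddCircle.haarAddCircle (T := (1:ℝ))) : ℝ)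

lemma rho_ne {α : ℝ} (hα : 0 < α) {q : ℕ} (hq : q.Prime) : rho α q ≠ 0 := by
  unfold rho
  refine div_ne_zero ?_ (by exact_mod_cast (NC.int_exp_pos α hq).ne')
  intro h
  have h1 := congrArg Complex.re h
  have hc : Continuous fun y => (Real.exp (lw α q y) : ℂ) * (fourier (-1) y : ℂ) :=
    (Complex.continuous_ofReal.comp (Real.continuous_exp.comp (NC.lw_cont α hq))).mul
      (fourier (-1)).continuous
  have hi : Integrable (fun y => (Real.exp (lw α q y) : ℂ) * (fourier (-1) y : ℂ)) (AddCircle.haarAddCircle (T := (1:ℝ))) :=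
    hc.integrable_of_hasCompactSupport (HasCompactSupport.of_compactSpace _)
  have h2 := (integral_re hi).symm
  simp only [RCLike.re_to_complex] at h2
  rw [h1, Complex.zero_re] at h2
  have h3 := NC.nu_re_pos hα hq
  have h4 : ∀ y : UnitAddCircle, ((Real.exp (lw α q y) : ℂ) * (fourier (-1) y : ℂ)).re =
      Real.exp (lw α q y) * (fourier 1 y : ℂ).re := by
    intro y
    rw [Complex.re_ofReal_mul, fourier_neg, Complex.conj_re]
  simp only [h4] at h2
  linarith

/-- the phase of `q` -/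
def ph (z q : ℕ) (hq : q.Prime) (hz : q < z) : Sm z := ⟨q, mem_filter.2 ⟨mem_range.2 hz, hq⟩⟩

lemma mean_M0 (α : ℝ) {z q : ℕ} (hq : q.Prime) (hz : q < z) :
    ∫ y, (M0 α (Sm z) y : ℂ) * (fourier (-1) (y (ph z q hq hz)) : ℂ) ∂(HP (Sm z)) = rho α q := by
  classical
  have h1 : ∀ y : UnitAddTorus (Sm z), (M0 α (Sm z) y : ℂ) * (fourier (-1) (y (ph z q hq hz)) : ℂ) =
      ∏ p : Sm z, (((Real.exp (lw α p (y p)) : ℂ) *
        (if p = ph z q hq hz then (fourier (-1) (y p) : ℂ) else 1)) /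
          ((∫ t, Real.exp (lw α p t) ∂(AddCircle.haarAddCircle (T := (1:ℝ))) : ℝ) : ℂ)) := by
    intro y
    rw [Finset.prod_div_distrib, Finset.prod_mul_distrib, Finset.prod_ite_eq' univ]
    simp only [mem_univ, if_true]
    unfold M0 E0
    rw [Real.exp_sum]
    push_cast
    ring
  simp only [h1]
  have h2 := integral_fintype_prod_eq_prod (𝕜 := ℂ) (ι := Sm z) (E := fun _ => UnitAddCircle)
    (μ := fun _ => (AddCircle.haarAddCircle (T := (1:ℝ))))
    (fun p t => ((Real.exp (lw α p t) : ℂ) *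
        (if p = ph z q hq hz then (fourier (-1) t : ℂ) else 1)) /
          ((∫ t, Real.exp (lw α p t) ∂(AddCircle.haarAddCircle (T := (1:ℝ))) : ℝ) : ℂ))
  unfold HP
  rw [h2, Finset.prod_eq_single (ph z q hq hz)]
  · simp only [if_true]
    rw [integral_div]
    rfl
  · intro p _ hp
    simp only [if_neg hp, mul_one]
    rw [integral_div, integral_complex_ofReal, div_self]
    exact_mod_cast (NC.int_exp_pos α (NC.prime_of_Sm p)).ne'
  · intro h
    exact absurd (mem_univ _) h

lemma E_pt {z q : ℕ} (hq : q.Prime) (hz : q < z) (u : ℝ) :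
    (fourier (-1) (pt (Sm z) u (ph z q hq hz)) : ℂ) = E (Real.log q) u := by
  unfold pt E
  rw [fourier_coe_apply]
  congr 1
  have h2 : ((ph z q hq hz : Sm z) : ℕ) = q := rfl
  rw [h2]
  push_cast
  have hpi : (Real.pi : ℂ) ≠ 0 := by exact_mod_cast Real.pi_ne_zero
  field_simp

lemma mz_cont (α : ℝ) (z : ℕ) : Continuous (mz α z) := by
  unfold mz
  exact (NC.M0_cont α z).comp (NC.pt_cont _)

/-- the mean value of `p^(iu)` against the density on the line -/
lemma erg (hE : S_ERG) (α : ℝ) {z q : ℕ} (hq : q.Prime) (hz : q < z) {ε : ℝ} (hε : 0 < ε) :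
    ∃ T0 : ℝ, 0 < T0 ∧ ∀ T ≥ T0, ∀ s : ℝ,
      ‖(∫ u in s..(s + T), E (Real.log q) u * (mz α z u : ℂ)) - T * rho α q‖ ≤ 2 * ε * T := by
  set F : UnitAddTorus (Sm z) → ℂ := fun y =>
    (M0 α (Sm z) y : ℂ) * (fourier (-1) (y (ph z q hq hz)) : ℂ) with hF
  have hFc : Continuous F :=
    (Complex.continuous_ofReal.comp (NC.M0_cont α z)).mul
      ((fourier (-1)).continuous.comp (continuous_apply _))
  obtain ⟨T1, hT1, h1⟩ := hE (Sm z) (fun p hp => (mem_filter.1 hp).2) (fun y => (F y).re)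
    (Complex.continuous_re.comp hFc) ε hε
  obtain ⟨T2, hT2, h2⟩ := hE (Sm z) (fun p hp => (mem_filter.1 hp).2) (fun y => (F y).im)
    (Complex.continuous_im.comp hFc) ε hε
  refine ⟨max T1 T2, lt_max_of_lt_left hT1, fun T hT s => ?_⟩
  have hT0 : 0 < T := lt_of_lt_of_le hT1 ((le_max_left _ _).trans hT)
  have h3 := h1 T ((le_max_left _ _).trans hT) s
  have h4 := h2 T ((le_max_right _ _).trans hT) s
  have hFi : Integrable F (HP (Sm z)) :=
    hFc.integrable_of_hasCompactSupport (HasCompactSupport.of_compactSpace _)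
  have e1 : ∫ y, (F y).re ∂(HP (Sm z)) = (rho α q).re := by
    have := integral_re hFi
    simp only [RCLike.re_to_complex] at this
    rw [this, ← mean_M0 α hq hz]
  have e2 : ∫ y, (F y).im ∂(HP (Sm z)) = (rho α q).im := by
    have := integral_im hFi
    simp only [RCLike.im_to_complex] at this
    rw [this, ← mean_M0 α hq hz]
  rw [e1] at h3
  rw [e2] at h4
  have hFp : Continuous fun u : ℝ => F (pt (Sm z) u) := hFc.comp (NC.pt_cont _)
  have e3 : ∀ u : ℝ, E (Real.log q) u * (mz α z u : ℂ) = F (pt (Sm z) u) := by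
    intro u
    rw [hF, ← E_pt hq hz, mul_comm]
    rfl
  have e4 : (∫ u in s..(s + T), E (Real.log q) u * (mz α z u : ℂ)) =
      ((∫ u in s..(s + T), (F (pt (Sm z) u)).re : ℝ) : ℂ) +
        ((∫ u in s..(s + T), (F (pt (Sm z) u)).im : ℝ) : ℂ) * I := by
    rw [← intervalIntegral.integral_ofReal, ← intervalIntegral.integral_ofReal,
      ← intervalIntegral.integral_mul_const, ← intervalIntegral.integral_add]
    · refine intervalIntegral.integral_congr fun u _ => ?_
      show E (Real.log q) u * (mz α z u : ℂ) = _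
      rw [e3, Complex.re_add_im]
    · exact (Complex.continuous_ofReal.comp (Complex.continuous_re.comp hFp)).intervalIntegrable _ _
    · exact ((Complex.continuous_ofReal.comp (Complex.continuous_im.comp hFp)).mul
        continuous_const).intervalIntegrable _ _
  have e5 : (∫ u in s..(s + T), E (Real.log q) u * (mz α z u : ℂ)) - T * rho α q =
      (((∫ u in s..(s + T), (F (pt (Sm z) u)).re) - T * (rho α q).re : ℝ) : ℂ) +
        (((∫ u in s..(s + T), (F (pt (Sm z) u)).im) - T * (rho α q).im : ℝ) : ℂ) * I := by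
    rw [e4]
    nth_rewrite 1 [← Complex.re_add_im (rho α q)]
    push_cast
    ring
  rw [e5]
  refine (norm_add_le _ _).trans ?_
  rw [norm_mul, norm_I, mul_one, Complex.norm_real, Complex.norm_real, Real.norm_eq_abs,
    Real.norm_eq_abs]
  have k1 : ∀ A r : ℝ, |A / T - r| ≤ ε → |A - T * r| ≤ ε * T := by
    intro A r h
    have : A - T * r = (A / T - r) * T := by field_simp
    rw [this, abs_mul, abs_of_pos hT0]
    exact mul_le_mul_of_nonneg_right h hT0.le
  have k2 := k1 _ _ h3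
  have k3 := k1 _ _ h4
  linarith

lemma Zn_cont (α : ℝ) {δ : ℝ} (hα : 0 < α) (hδ' : δ ≤ 1 / 16) :
    Continuous (Zn α δ) := by
  unfold Zn
  refine continuous_const.mul (Continuous.rpow_const ?_ fun u => Or.inr (by linarith))
  refine Continuous.norm (continuous_iff_continuousAt.2 fun u => ?_)
  have h1 : ((1 / 2 + (δ:ℂ) + (u:ℂ) * I) : ℂ) ≠ 1 := by
    intro h
    have h2 := congrArg Complex.re h
    simp at h2
    linarith
  have h3 : ContinuousAt riemannZeta (1 / 2 + (δ:ℂ) + (u:ℂ) * I) :=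
    (differentiableAt_riemannZeta h1).continuousAt
  have h4 : Continuous fun u : ℝ => (1 / 2 + (δ:ℂ) + (u:ℂ) * I : ℂ) := by fun_prop
  exact ContinuousAt.comp (f := fun u : ℝ => (1 / 2 + (δ:ℂ) + (u:ℂ) * I : ℂ)) h3 h4.continuousAt

/-- the two sines do not vanish together -/
lemma sinc_pos {r2 r3 : ℝ} (h2 : 0 < r2) (h3 : 0 < r3) {H : ℝ} (hH : 0 ≤ H) :
    0 < r2 * |Real.sinc (H * Real.log 2 / 2)| + r3 * |Real.sinc (H * Real.log 3 / 2)| := by
  by_contra hcon
  have hn2 : 0 ≤ r2 * |Real.sinc (H * Real.log 2 / 2)| := by positivity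
  have hn3 : 0 ≤ r3 * |Real.sinc (H * Real.log 3 / 2)| := by positivity
  have e2 : r2 * |Real.sinc (H * Real.log 2 / 2)| = 0 := by linarith
  have e3 : r3 * |Real.sinc (H * Real.log 3 / 2)| = 0 := by linarith
  have f2 : Real.sinc (H * Real.log 2 / 2) = 0 := by
    rcases mul_eq_zero.1 e2 with h | h
    · exact absurd h h2.ne'
    · exact abs_eq_zero.1 h
  have f3 : Real.sinc (H * Real.log 3 / 2) = 0 := by
    rcases mul_eq_zero.1 e3 with h | h
    · exact absurd h h3.ne'
    · exact abs_eq_zero.1 h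
  have l2 : 0 < Real.log 2 := Real.log_pos (by norm_num)
  have l3 : 0 < Real.log 3 := Real.log_pos (by norm_num)
  have hH0 : H ≠ 0 := by
    rintro rfl
    simp at f2
  have hHp : 0 < H := lt_of_le_of_ne hH (Ne.symm hH0)
  rw [Real.sinc_of_ne_zero (by positivity), div_eq_zero_iff] at f2 f3
  have g2 : Real.sin (H * Real.log 2 / 2) = 0 := by
    rcases f2 with h | h
    · exact h
    · exact absurd h (by positivity)
  have g3 : Real.sin (H * Real.log 3 / 2) = 0 := by
    rcases f3 with h | h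
    · exact h
    · exact absurd h (by positivity)
  obtain ⟨m, hm⟩ := Real.sin_eq_zero_iff.1 g2
  obtain ⟨n, hn⟩ := Real.sin_eq_zero_iff.1 g3
  have hpi := Real.pi_pos
  have hm0 : 0 < (m:ℝ) := by
    by_contra h
    push Not at h
    have : (m:ℝ) * Real.pi ≤ 0 := mul_nonpos_of_nonpos_of_nonneg h hpi.le
    have : 0 < H * Real.log 2 / 2 := by positivity
    linarith
  have hn0 : 0 < (n:ℝ) := by
    by_contra h
    push Not at h
    have : (n:ℝ) * Real.pi ≤ 0 := mul_nonpos_of_nonpos_of_nonneg h hpi.le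
    have : 0 < H * Real.log 3 / 2 := by positivity
    linarith
  have hm1 : 0 < m := by exact_mod_cast hm0
  have hn1 : 0 < n := by exact_mod_cast hn0
  obtain ⟨m', rfl⟩ := Int.eq_ofNat_of_zero_le hm1.le
  obtain ⟨n', rfl⟩ := Int.eq_ofNat_of_zero_le hn1.le
  have hm2 : 0 < m' := by exact_mod_cast hm1
  have hn2' : 0 < n' := by exact_mod_cast hn1
  simp only [Int.cast_natCast] at hm hn
  -- m' log 3 = n' log 2
  have k1 : (m' : ℝ) * Real.log 3 = n' * Real.log 2 := by
    have a1 : (m' : ℝ) * Real.pi * Real.log 3 = n' * Real.pi * Real.log 2 := by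
      rw [hm, hn]
      ring
    have a2 : Real.pi * ((m' : ℝ) * Real.log 3) = Real.pi * (n' * Real.log 2) := by
      linear_combination a1
    exact mul_left_cancel₀ hpi.ne' a2
  have k2 : Real.log ((3:ℝ) ^ m') = Real.log ((2:ℝ) ^ n') := by
    rw [Real.log_pow, Real.log_pow, k1]
  have k3 : (3:ℝ) ^ m' = (2:ℝ) ^ n' :=
    Real.log_injOn_pos (Set.mem_Ioi.2 (by positivity)) (Set.mem_Ioi.2 (by positivity)) k2
  have k4 : 3 ^ m' = 2 ^ n' := by exact_mod_cast k3
  have k5 : Even (3 ^ m') := by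
    rw [k4]
    exact (Nat.even_pow.2 ⟨even_two, hn2'.ne'⟩)
  have k6 : Odd (3 ^ m') := Odd.pow (by decide)
  exact (Nat.not_even_iff_odd.2 k6) k5

lemma log_ge {q : ℕ} (hq : 2 ≤ q) : 2 / Real.log q ≤ 4 := by
  have h1 : Real.log 2 ≤ Real.log q := Real.log_le_log (by norm_num) (by exact_mod_cast hq)
  have h2 : (1:ℝ) / 2 ≤ Real.log 2 := by
    have := Real.log_two_gt_d9
    linarith
  have h3 : 0 < Real.log q := by linarith
  rw [div_le_iff₀ h3]
  linarith

theorem main (h1 : S_CORE) (h2 : S_ERG) : S_BDD := by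
  intro α hα hα1 δ hδ h0 hh0
  have r2 : 0 < ‖rho α 2‖ := norm_pos_iff.2 (rho_ne hα Nat.prime_two)
  have r3 : 0 < ‖rho α 3‖ := norm_pos_iff.2 (rho_ne hα Nat.prime_three)
  -- the constant
  obtain ⟨c1, hc1, hc⟩ : ∃ c1 : ℝ, 0 < c1 ∧ ∀ H ∈ Set.Icc (0:ℝ) h0, 2 * c1 ≤
      ‖rho α 2‖ * |Real.sinc (H * Real.log 2 / 2)| + ‖rho α 3‖ * |Real.sinc (H * Real.log 3 / 2)| := by
    have hg : Continuous fun H : ℝ => ‖rho α 2‖ * |Real.sinc (H * Real.log 2 / 2)| +
        ‖rho α 3‖ * |Real.sinc (H * Real.log 3 / 2)| := by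
      have a1 : Continuous fun H : ℝ => Real.sinc (H * Real.log 2 / 2) :=
        Real.continuous_sinc.comp (by fun_prop)
      have a2 : Continuous fun H : ℝ => Real.sinc (H * Real.log 3 / 2) :=
        Real.continuous_sinc.comp (by fun_prop)
      exact (continuous_const.mul a1.abs).add (continuous_const.mul a2.abs)
    obtain ⟨H1, hH1, hmin⟩ := isCompact_Icc.exists_isMinOn (Set.nonempty_Icc.2 hh0.le)
      hg.continuousOn
    refine ⟨_, half_pos (sinc_pos r2 r3 hH1.1), fun H hH => ?_⟩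
    have := hmin hH
    simp only [Set.mem_setOf_eq] at this
    linarith
  set ε : ℝ := c1 / 16 with hε
  have hε0 : 0 < ε := by positivity
  obtain ⟨z0, hz0⟩ := h1 α hα hα1 ε hε0
  set z : ℕ := max z0 4 with hz
  have hz2 : 2 < z := lt_of_lt_of_le (by norm_num) (le_max_right _ _)
  have hz3 : 3 < z := lt_of_lt_of_le (by norm_num) (le_max_right _ _)
  obtain ⟨lam, δ0, hlam, hδ0, hδ16, hcore⟩ := hz0 z (le_max_left _ _)
  obtain ⟨T2, hT2, hE2⟩ := erg h2 α Nat.prime_two hz2 hε0
  obtain ⟨T3, hT3, hE3⟩ := erg h2 α Nat.prime_three hz3 hε0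
  refine ⟨c1 / 16, by positivity, ?_⟩
  have hXe : ∀ᶠ T : ℝ in atTop, ∀ δ : ℝ, lam / Real.log (T + h0) ≤ δ → δ ≤ δ0 → ∀ f : ℝ → ℝ,
      Measurable f → (∀ x, |f x| ≤ 1) →
      ∫ t in (0:ℝ)..(T + h0), |∫ x in (0:ℝ)..1, f x * (Zn α δ (t + x) - mz α z (t + x))| ≤
        ε * (T + h0) :=
    (tendsto_atTop_add_const_right atTop h0 tendsto_id).eventually hcore
  filter_upwards [hXe, hδ.t0.eventually (gt_mem_nhds hδ0), hδ.tL.eventually_ge_atTop lam,
    eventually_ge_atTop (2 + T2 + T3 + h0 + 4 / ε)] with T hX hδT hδL hT H hH hHh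
  have h4ε : 0 < 4 / ε := by positivity
  have hT2' : 2 ≤ T := by linarith
  have hlogT : 0 < Real.log T := Real.log_pos (by linarith)
  have hlogX : Real.log T ≤ Real.log (T + h0) := Real.log_le_log (by linarith) (by linarith)
  have hδ1 : lam / Real.log (T + h0) ≤ δ T := by
    rw [div_le_iff₀ (lt_of_lt_of_le hlogT hlogX)]
    have hδpos : 0 ≤ δ T := by
      by_contra h
      push Not at h
      have := mul_nonpos_of_nonpos_of_nonneg h.le hlogT.le
      linarith
    exact hδL.trans (mul_le_mul_of_nonneg_left hlogX hδpos)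
  have hfin : ∀ q : ℕ, 2 ≤ q → (∀ s : ℝ,
      ‖(∫ u in s..(s + (T - 1)), E (Real.log q) u * (mz α z u : ℂ)) - (T - 1 : ℝ) * rho α q‖ ≤
        2 * ε * (T - 1)) → c1 ≤ ‖rho α q‖ * |Real.sinc (H * Real.log q / 2)| →
      c1 / 16 ≤ (1 / T) * ∫ t in (0:ℝ)..T, |(1 / H) * (∫ u in t..(t + H), Zn α (δ T) u) - 1| := by
    intro q hq hm hcq
    have hL : 0 < Real.log q := Real.log_pos (by exact_mod_cast hq)
    have key := core (Zn_cont α hα (hδT.le.trans hδ16)) (mz_cont α z) hL (T := T - 1) (H := H)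
      (X := T + h0) (a := ε * (T + h0)) (b := 2 * ε * (T - 1)) (ρ := rho α q) (by linarith) hH
      (by linarith)
      (hX (δ T) hδ1 hδT.le (fun y => Real.cos (y * Real.log q)) (by fun_prop)
        fun x => Real.abs_cos_le_one _)
      (hX (δ T) hδ1 hδT.le (fun y => Real.sin (y * Real.log q)) (by fun_prop)
        fun x => Real.abs_sin_le_one _) hm
    rw [sub_add_cancel] at key
    have hlg := log_ge hq
    have e1 : 4 ≤ ε * T := by
      have : 4 / ε ≤ T := by linarith
      rw [div_le_iff₀ hε0] at this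
      linarith
    have e2 : (T - 1) * c1 ≤ (T - 1) * ‖rho α q‖ * |Real.sinc (H * Real.log q / 2)| := by
      rw [mul_assoc]
      exact mul_le_mul_of_nonneg_left hcq (by linarith)
    have e3 : T / 2 * c1 ≤ (T - 1) * c1 := mul_le_mul_of_nonneg_right (by linarith) hc1.le
    have e4 : ε * (T + h0) ≤ ε * (2 * T) := mul_le_mul_of_nonneg_left (by linarith) hε0.le
    have e5 : 2 * ε * (T - 1) ≤ 2 * ε * T := mul_le_mul_of_nonneg_left (by linarith) (by linarith)
    have e6 : T * (c1 / 16) ≤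
        ∫ t in (0:ℝ)..T, |(1 / H) * (∫ u in t..(t + H), Zn α (δ T) u) - 1| := by
      have e7 : ε * T = T * c1 / 16 := by rw [hε]; ring
      nlinarith [e1, e2, e3, e4, e5, key, hlg, e7]
    have hTpos : 0 < T := by linarith
    rw [one_div, ← div_eq_inv_mul, le_div_iff₀ hTpos]
    linarith
  have hsum := hc H ⟨hH.le, hHh⟩
  rcases le_or_gt c1 (‖rho α 2‖ * |Real.sinc (H * Real.log 2 / 2)|) with h | h
  · refine hfin 2 le_rfl (fun s => ?_) (by exact_mod_cast h)
    have := hE2 (T - 1) (by linarith) s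
    exact_mod_cast this
  · refine hfin 3 (by norm_num) (fun s => ?_) ?_
    · have := hE3 (T - 1) (by linarith) s
      exact_mod_cast this
    · push_cast
      linarith

end Pool.Agent.N748.GC.BDD
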