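import Pool.Agent.N748.GC.Stm

set_option autoImplicit false

/-!
# GC/BLK: the mean square of truncated exponentials over a block of primes at two points (helper821)
-/

namespace Pool.Agent.N748.GC.BLK

open Finset MonoidAlgebra Complex

/-- supported on `A` -/
def Su (A : ℕ → Prop) (f : PC) : Prop := ∀ n, f.coeff n ≠ 0 → A n

lemma wd_nonneg (δ : ℝ) (n : ℕ) : 0 ≤ wd δ n := by unfold wd; positivity

lemma wd_mul (δ : ℝ) (m n : ℕ) : wd δ (m * n) = wd δ m * wd δ n := by
  unfold wd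
  rw [Nat.cast_mul, Real.mul_rpow (Nat.cast_nonneg _) (Nat.cast_nonneg _)]
  rw [one_div, mul_inv, one_div, one_div]
  ring

lemma wd_one (δ : ℝ) : wd δ 1 = 1 := by
  unfold wd
  simp

lemma wd_pow (δ : ℝ) (m j : ℕ) : wd δ (m ^ j) = wd δ m ^ j := by
  induction j with
  | zero => rw [pow_zero, pow_zero, wd_one]
  | succ j ih => rw [pow_succ, wd_mul, ih, pow_succ]

lemma nn_eq (δ : ℝ) (f : PC) (N : Finset ℕ) (hN : ∀ n, f.coeff n ≠ 0 → n ∈ N) :
    nn δ f = ∑ n ∈ N, ‖f.coeff n‖ ^ 2 * wd δ n := by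
  unfold nn
  refine Finset.sum_subset (fun n hn => hN n (Finsupp.mem_support_iff.1 hn)) fun n _ hn => ?_
  rw [Finsupp.notMem_support_iff.1 hn, norm_zero]
  ring

lemma nn_nonneg (δ : ℝ) (f : PC) : 0 ≤ nn δ f :=
  Finset.sum_nonneg fun n _ => mul_nonneg (sq_nonneg _) (wd_nonneg δ n)

lemma nn_smul (δ : ℝ) (c : ℂ) (f : PC) : nn δ (c • f) = ‖c‖ ^ 2 * nn δ f := by
  rw [nn_eq δ (c • f) f.coeff.support, nn, Finset.mul_sum]
  · refine Finset.sum_congr rfl fun n _ => ?_
    rw [coeff_smul_apply, smul_eq_mul, norm_mul]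
    ring
  · intro n hn
    rw [coeff_smul_apply, smul_eq_mul] at hn
    exact Finsupp.mem_support_iff.2 (right_ne_zero_of_mul hn)

lemma coeff_sum_apply {ι : Type*} (S : Finset ι) (t : ι → PC) (n : ℕ) :
    (∑ j ∈ S, t j).coeff n = ∑ j ∈ S, (t j).coeff n := by
  rw [coeff_sum, Finsupp.finsetSum_apply]

lemma nn_sum (δ : ℝ) (φ : ℕ → ℕ) (S : Finset ℕ) (t : ℕ → PC)
    (h : ∀ j ∈ S, Su (fun n => φ n = j) (t j)) :
    nn δ (∑ j ∈ S, t j) = ∑ j ∈ S, nn δ (t j) := by
  classical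
  set N : Finset ℕ := S.biUnion fun j => (t j).coeff.support with hN
  have hN' : ∀ j ∈ S, ∀ n, (t j).coeff n ≠ 0 → n ∈ N := by
    intro j hj n hn
    rw [hN, mem_biUnion]
    exact ⟨j, hj, Finsupp.mem_support_iff.2 hn⟩
  rw [nn_eq δ (∑ j ∈ S, t j) N, Finset.sum_congr rfl fun j hj => nn_eq δ (t j) N (hN' j hj),
    Finset.sum_comm]
  · refine Finset.sum_congr rfl fun n _ => ?_
    rw [← Finset.sum_mul]
    congr 1
    rw [coeff_sum_apply]
    by_cases hφ : φ n ∈ S
    · rw [Finset.sum_eq_single_of_mem (φ n) hφ, Finset.sum_eq_single_of_mem (φ n) hφ]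
      · intro j hj hne
        by_contra hcon
        exact hne (h j hj n fun h0 => hcon (by rw [h0, norm_zero]; ring)).symm
      · intro j hj hne
        by_contra hcon
        exact hne (h j hj n hcon).symm
    · have h0 : ∀ j ∈ S, (t j).coeff n = 0 := by
        intro j hj
        by_contra hcon
        exact hφ (by rw [h j hj n hcon]; exact hj)
      rw [Finset.sum_eq_zero h0, Finset.sum_eq_zero fun j hj => by rw [h0 j hj, norm_zero]; ring,
        norm_zero]
      ring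
  · intro n hn
    rw [coeff_sum_apply] at hn
    obtain ⟨j, hj, hj2⟩ := Finset.exists_ne_zero_of_sum_ne_zero hn
    exact hN' j hj n hj2

lemma nn_single_mul (δ : ℝ) {m : ℕ} (hm : m ≠ 0) (c : ℂ) (f : PC) :
    nn δ (single m c * f) = ‖c‖ ^ 2 * wd δ m * nn δ f := by
  classical
  rw [nn_eq δ (single m c * f) (f.coeff.support.image fun n => m * n)]
  · rw [Finset.sum_image fun x _ y _ hxy => Nat.eq_of_mul_eq_mul_left (Nat.pos_of_ne_zero hm) hxy,
      nn, Finset.mul_sum]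
    refine Finset.sum_congr rfl fun n _ => ?_
    rw [coeff_single_mul_eq_mul_coeff (m₂ := n), norm_mul, wd_mul]
    · ring
    · intro m' _
      exact ⟨fun h => Nat.eq_of_mul_eq_mul_left (Nat.pos_of_ne_zero hm) h, fun h => by rw [h]⟩
  · intro n hn
    exact support_coeff_single_mul_subset f c m (Finsupp.mem_support_iff.2 hn)

lemma Su.mul {A B D : ℕ → Prop} {f g : PC} (hf : Su A f) (hg : Su B g)
    (h : ∀ a b, A a → B b → D (a * b)) : Su D (f * g) := by
  classical
  intro n hn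
  have h1 := support_coeff_mul_subset f g (Finsupp.mem_support_iff.2 hn)
  rw [Finset.mem_mul] at h1
  obtain ⟨a, ha, b, hb, rfl⟩ := h1
  exact h a b (hf a (Finsupp.mem_support_iff.1 ha)) (hg b (Finsupp.mem_support_iff.1 hb))

lemma Su.smul {A : ℕ → Prop} {f : PC} (hf : Su A f) (c : ℂ) : Su A (c • f) := by
  intro n hn
  rw [coeff_smul_apply, smul_eq_mul] at hn
  exact hf n (right_ne_zero_of_mul hn)

lemma Su.sum {ι : Type*} {A : ℕ → Prop} {S : Finset ι} {t : ι → PC} (h : ∀ j ∈ S, Su A (t j)) :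
    Su A (∑ j ∈ S, t j) := by
  intro n hn
  rw [coeff_sum_apply] at hn
  obtain ⟨j, hj, hj2⟩ := Finset.exists_ne_zero_of_sum_ne_zero hn
  exact h j hj n hj2

lemma Su.single {A : ℕ → Prop} {m : ℕ} (hm : A m) (c : ℂ) : Su A (single m c) := by
  intro n hn
  by_cases h : n = m
  · rw [h]; exact hm
  · exfalso
    apply hn
    rw [coeff_single, Finsupp.single_apply, if_neg (Ne.symm h)]

lemma Su.mono {A B : ℕ → Prop} {f : PC} (hf : Su A f) (h : ∀ n, A n → B n) : Su B f :=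
  fun n hn => h n (hf n hn)

/-- `k` prime factors -/
def Om (k n : ℕ) : Prop := n ≠ 0 ∧ ArithmeticFunction.cardFactors n = k

lemma Om.mul {k l m n : ℕ} (h1 : Om k m) (h2 : Om l n) : Om (k + l) (m * n) :=
  ⟨mul_ne_zero h1.1 h2.1, by rw [ArithmeticFunction.cardFactors_mul h1.1 h2.1, h1.2, h2.2]⟩

lemma Su_Om_pow {y : PC} (hy : Su (Om 1) y) (k : ℕ) : Su (Om k) (y ^ k) := by
  induction k with
  | zero =>
    rw [pow_zero, one_def]
    exact Su.single ⟨one_ne_zero, ArithmeticFunction.cardFactors_one⟩ _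
  | succ k ih =>
    rw [pow_succ]
    exact ih.mul hy fun a b ha hb => ha.mul hb

lemma Su_Om_sum {I : Finset ℕ} (hI : ∀ p ∈ I, p.Prime) (l : ℕ → ℂ) :
    Su (Om 1) (∑ p ∈ I, single p (l p)) :=
  Su.sum fun p hp => Su.single ⟨(hI p hp).ne_zero, ArithmeticFunction.cardFactors_apply_prime (hI p hp)⟩ _

lemma Mo.mul {I : Finset ℕ} {m n : ℕ} (h1 : Mo I m) (h2 : Mo I n) : Mo I (m * n) :=
  ⟨mul_ne_zero h1.1 h2.1, fun p hp hd => ((Nat.Prime.dvd_mul hp).1 hd).elim (h1.2 p hp) (h2.2 p hp)⟩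

lemma Su_Mo_pow {I : Finset ℕ} {y : PC} (hy : Su (Mo I) y) (k : ℕ) : Su (Mo I) (y ^ k) := by
  induction k with
  | zero =>
    rw [pow_zero, one_def]
    exact Su.single ⟨one_ne_zero, fun p hp hd => absurd (Nat.dvd_one.1 hd) hp.one_lt.ne'⟩ _
  | succ k ih =>
    rw [pow_succ]
    exact ih.mul hy fun a b ha hb => Mo.mul ha hb

lemma Su_Mo_sum {I : Finset ℕ} (hI : ∀ p ∈ I, p.Prime) (l : ℕ → ℂ) :
    Su (Mo I) (∑ p ∈ I, single p (l p)) :=
  Su.sum fun p hp => Su.single ⟨(hI p hp).ne_zero, fun q hq hd => by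
    rw [(Nat.prime_dvd_prime_iff_eq hq (hI p hp)).1 hd]; exact hp⟩ _

lemma nn_one (δ : ℝ) : nn δ 1 = 1 := by
  rw [nn_eq δ 1 {1}]
  · rw [Finset.sum_singleton, coeff_one_one, wd_one]
    norm_num
  · intro n hn
    rw [one_def, coeff_single, Finsupp.single_apply] at hn
    rw [Finset.mem_singleton]
    by_contra h
    exact hn (if_neg (Ne.symm h))

/-- moments of a linear polynomial -/
lemma KL (δ : ℝ) (l : ℕ → ℂ) (I : Finset ℕ) : (∀ p ∈ I, p.Prime) → ∀ k : ℕ,
    nn δ ((∑ p ∈ I, single p (l p) : PC) ^ k) ≤ k.factorial * (∑ p ∈ I, ‖l p‖ ^ 2 * wd δ p) ^ k := by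
  classical
  induction I using Finset.induction_on with
  | empty =>
    intro _ k
    rw [Finset.sum_empty, Finset.sum_empty]
    rcases Nat.eq_zero_or_pos k with rfl | hk
    · rw [pow_zero, pow_zero, nn_one]
      simp
    · rw [zero_pow hk.ne', zero_pow hk.ne']
      have : nn δ (0 : PC) = 0 := by
        rw [nn_eq δ 0 ∅ (fun n hn => absurd rfl hn)]
        rfl
      rw [this, mul_zero]
  | insert q I hq ih =>
    intro hI k
    have hI' : ∀ p ∈ I, p.Prime := fun p hp => hI p (Finset.mem_insert_of_mem hp)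
    have hqp : q.Prime := hI q (Finset.mem_insert_self _ _)
    have : Fact q.Prime := ⟨hqp⟩
    rw [Finset.sum_insert hq, Finset.sum_insert hq]
    set y : PC := ∑ p ∈ I, single p (l p) with hy
    set s : ℝ := ∑ p ∈ I, ‖l p‖ ^ 2 * wd δ p with hs
    set w : ℝ := ‖l q‖ ^ 2 * wd δ q with hw
    have hs0 : 0 ≤ s := Finset.sum_nonneg fun p _ => mul_nonneg (sq_nonneg _) (wd_nonneg δ p)
    have hw0 : 0 ≤ w := mul_nonneg (sq_nonneg _) (wd_nonneg δ q)
    have e1 : (single q (l q) + y) ^ k = ∑ j ∈ range (k + 1),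
        ((k.choose j : ℕ) : ℂ) • (single (q ^ j) (l q ^ j) * y ^ (k - j)) := by
      rw [add_pow]
      refine Finset.sum_congr rfl fun j _ => ?_
      rw [single_pow, mul_comm _ ((k.choose j : ℕ) : PC), ← nsmul_eq_mul, Nat.cast_smul_eq_nsmul]
    rw [e1, nn_sum δ (fun n => padicValNat q n)]
    · calc ∑ j ∈ range (k + 1), nn δ (((k.choose j : ℕ) : ℂ) • (single (q ^ j) (l q ^ j) * y ^ (k - j)))
          ≤ ∑ j ∈ range (k + 1), (k.factorial : ℝ) * (w ^ j * s ^ (k - j) * (k.choose j : ℕ)) := by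
            refine Finset.sum_le_sum fun j hj => ?_
            have hjk : j ≤ k := Nat.lt_succ_iff.1 (mem_range.1 hj)
            rw [nn_smul, nn_single_mul δ (pow_ne_zero _ hqp.ne_zero), wd_pow, Complex.norm_natCast,
              norm_pow]
            have h1 := ih hI' (k - j)
            have h2 : ((k.choose j : ℕ) : ℝ) * ((k - j).factorial : ℝ) ≤ k.factorial := by
              have h3 := Nat.choose_mul_factorial_mul_factorial hjk
              have h4 : k.choose j * (k - j).factorial ≤ k.factorial := by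
                calc k.choose j * (k - j).factorial ≤ k.choose j * j.factorial * (k - j).factorial :=
                      Nat.mul_le_mul_right _ (Nat.le_mul_of_pos_right _ (Nat.factorial_pos j))
                  _ = _ := h3
              exact_mod_cast h4
            calc ((k.choose j : ℕ) : ℝ) ^ 2 * ((‖l q‖ ^ j) ^ 2 * wd δ q ^ j * nn δ (y ^ (k - j)))
                = ((k.choose j : ℕ) : ℝ) ^ 2 * (w ^ j * nn δ (y ^ (k - j))) := by
                  rw [hw, mul_pow, ← pow_mul, ← pow_mul, mul_comm j 2]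
              _ ≤ ((k.choose j : ℕ) : ℝ) ^ 2 * (w ^ j * ((k - j).factorial * s ^ (k - j))) := by
                  gcongr
              _ = (((k.choose j : ℕ) : ℝ) * ((k - j).factorial : ℝ)) *
                    (w ^ j * s ^ (k - j) * (k.choose j : ℕ)) := by ring
              _ ≤ _ := mul_le_mul_of_nonneg_right h2 (by positivity)
        _ = _ := by rw [← Finset.mul_sum, ← add_pow]
    · intro j _
      refine Su.smul ?_ _
      refine (Su.single (A := fun n => n = q ^ j) rfl _).mul (Su_Mo_pow (Su_Mo_sum hI' l) (k - j)) ?_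
      rintro a b rfl hb
      have hb1 : ¬ q ∣ b := fun hd => hq (hb.2 q hqp hd)
      rw [padicValNat.mul (pow_ne_zero _ hqp.ne_zero) hb.1, padicValNat.prime_pow,
        padicValNat.eq_zero_of_not_dvd hb1, add_zero]

/-- domination of the coefficients -/
def Dm (f g : PC) : Prop := ∀ n, g.coeff n = ((‖g.coeff n‖ : ℝ) : ℂ) ∧ ‖f.coeff n‖ ≤ ‖g.coeff n‖

lemma Dm.of {f g : PC} (r : ℕ → ℝ) (h : ∀ n, g.coeff n = (r n : ℂ) ∧ ‖f.coeff n‖ ≤ r n) : Dm f g := by
  intro n
  obtain ⟨h1, h2⟩ := h n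
  have h0 : 0 ≤ r n := (norm_nonneg _).trans h2
  rw [h1, Complex.norm_real, Real.norm_of_nonneg h0]
  exact ⟨rfl, h2⟩

lemma nn_mono (δ : ℝ) {f g : PC} (h : Dm f g) : nn δ f ≤ nn δ g := by
  rw [nn_eq δ f g.coeff.support, nn]
  · refine Finset.sum_le_sum fun n _ => ?_
    exact mul_le_mul_of_nonneg_right (pow_le_pow_left₀ (norm_nonneg _) (h n).2 2) (wd_nonneg δ n)
  · intro n hn
    rw [Finsupp.mem_support_iff]
    intro h0
    have := (h n).2
    rw [h0, norm_zero] at this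
    exact hn (norm_le_zero_iff.1 this)

lemma coeff_mul' (f g : PC) {N1 N2 : Finset ℕ} (h1 : f.coeff.support ⊆ N1) (h2 : g.coeff.support ⊆ N2)
    (n : ℕ) : (f * g).coeff n =
      ∑ m₁ ∈ N1, ∑ m₂ ∈ N2, if m₁ * m₂ = n then f.coeff m₁ * g.coeff m₂ else 0 := by
  rw [coeff_mul, Finsupp.sum_of_support_subset _ h1]
  · refine Finset.sum_congr rfl fun m₁ _ => ?_
    rw [Finsupp.sum_of_support_subset _ h2]
    intro m₂ _
    rw [mul_zero]
    exact ite_self 0
  · intro m₁ _
    rw [Finsupp.sum]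
    exact Finset.sum_eq_zero fun m₂ _ => by rw [zero_mul]; exact ite_self 0

lemma Dm.mul {f₁ f₂ g₁ g₂ : PC} (h₁ : Dm f₁ g₁) (h₂ : Dm f₂ g₂) : Dm (f₁ * f₂) (g₁ * g₂) := by
  classical
  set N1 := f₁.coeff.support ∪ g₁.coeff.support with hN1
  set N2 := f₂.coeff.support ∪ g₂.coeff.support with hN2
  refine Dm.of (fun n => ∑ m₁ ∈ N1, ∑ m₂ ∈ N2,
    if m₁ * m₂ = n then ‖g₁.coeff m₁‖ * ‖g₂.coeff m₂‖ else 0) fun n => ⟨?_, ?_⟩
  · rw [coeff_mul' g₁ g₂ (N1 := N1) (N2 := N2) Finset.subset_union_right Finset.subset_union_right]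
    push_cast
    refine Finset.sum_congr rfl fun m₁ _ => Finset.sum_congr rfl fun m₂ _ => ?_
    split_ifs with h
    · rw [Complex.ofReal_mul, ← (h₁ m₁).1, ← (h₂ m₂).1]
    · rfl
  · rw [coeff_mul' f₁ f₂ (N1 := N1) (N2 := N2) Finset.subset_union_left Finset.subset_union_left]
    refine (norm_sum_le _ _).trans (Finset.sum_le_sum fun m₁ _ => ?_)
    refine (norm_sum_le _ _).trans (Finset.sum_le_sum fun m₂ _ => ?_)
    split_ifs with h
    · rw [norm_mul]
      exact mul_le_mul (h₁ m₁).2 (h₂ m₂).2 (norm_nonneg _) (norm_nonneg _)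
    · rw [norm_zero]

lemma Dm.single {m : ℕ} {c : ℂ} {r : ℝ} (h : ‖c‖ ≤ r) :
    Dm (MonoidAlgebra.single m c) (MonoidAlgebra.single m (r : ℂ)) := by
  refine Dm.of (fun n => if m = n then r else 0) fun n => ?_
  rw [coeff_single, coeff_single, Finsupp.single_apply, Finsupp.single_apply]
  split_ifs with hn
  · exact ⟨rfl, h⟩
  · exact ⟨by simp, by simp⟩

lemma Dm.pow {f g : PC} (h : Dm f g) (k : ℕ) : Dm (f ^ k) (g ^ k) := by
  induction k with
  | zero =>
    rw [pow_zero, pow_zero, one_def]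
    have := Dm.single (m := 1) (c := 1) (r := 1) (by simp)
    simpa using this
  | succ k ih =>
    rw [pow_succ, pow_succ]
    exact ih.mul h

lemma Dm.sum {ι : Type*} {S : Finset ι} {f g : ι → PC} (h : ∀ j ∈ S, Dm (f j) (g j)) :
    Dm (∑ j ∈ S, f j) (∑ j ∈ S, g j) := by
  refine Dm.of (fun n => ∑ j ∈ S, ‖(g j).coeff n‖) fun n => ⟨?_, ?_⟩
  · rw [coeff_sum_apply]
    push_cast
    exact Finset.sum_congr rfl fun j hj => (h j hj n).1
  · rw [coeff_sum_apply]
    exact (norm_sum_le _ _).trans (Finset.sum_le_sum fun j hj => (h j hj n).2)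

lemma Dm.smul {f g : PC} (h : Dm f g) {c : ℂ} {r : ℝ} (hc : ‖c‖ ≤ r) : Dm (c • f) ((r : ℂ) • g) := by
  refine Dm.of (fun n => r * ‖g.coeff n‖) fun n => ⟨?_, ?_⟩
  · rw [coeff_smul_apply, smul_eq_mul]
    push_cast
    rw [← (h n).1]
  · rw [coeff_smul_apply, smul_eq_mul, norm_mul]
    exact mul_le_mul hc (h n).2 (norm_nonneg _) ((norm_nonneg _).trans hc)

lemma norm_pih {p : ℕ} (hp : 0 < p) (h : ℝ) : ‖((p : ℂ) ^ (-(h * I)))‖ = 1 := by
  rw [Complex.norm_natCast_cpow_of_pos hp]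
  simp

lemma sf_xc (h : ℝ) (I : Finset ℕ) :
    sf h (xc I) = ∑ p ∈ I, single p ((p : ℂ) ^ (-(h * Complex.I))) := by
  unfold xc sf
  rw [map_sum]
  refine Finset.sum_congr rfl fun p _ => ?_
  rw [MonoidAlgebra.lift_single, one_smul]
  rfl

lemma sf_NKc (h : ℝ) (K : ℕ) (b : ℝ) (z : PC) : sf h (NKc K b z) = NKc K b (sf h z) := by
  unfold NKc
  rw [map_sum]
  refine Finset.sum_congr rfl fun k _ => ?_
  rw [map_smul, map_pow]

lemma norm_lin {p : ℕ} (hp : 0 < p) (h a b : ℝ) :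
    ‖(a : ℂ) + b * (p : ℂ) ^ (-(h * I))‖ ^ 2 =
      a ^ 2 + b ^ 2 + 2 * a * b * Real.cos (h * Real.log p) := by
  have hp0 : (p : ℂ) ≠ 0 := by exact_mod_cast hp.ne'
  have h1 : (p : ℂ) ^ (-(h * I)) = ((Real.cos (h * Real.log p) : ℝ) : ℂ) -
      ((Real.sin (h * Real.log p) : ℝ) : ℂ) * I := by
    rw [Complex.cpow_def_of_ne_zero hp0, ← Complex.natCast_log]
    have : ((Real.log p : ℝ) : ℂ) * (-(h * I)) = ((-(h * Real.log p) : ℝ) : ℂ) * I := by
      push_cast; ring
    rw [this, Complex.exp_mul_I, ← Complex.ofReal_cos, ← Complex.ofReal_sin, Real.cos_neg,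
      Real.sin_neg]
    push_cast
    ring
  have h2 := Real.sin_sq_add_cos_sq (h * Real.log p)
  rw [h1]
  generalize Real.cos (h * Real.log p) = C at h2 ⊢
  generalize Real.sin (h * Real.log p) = S at h2 ⊢
  have h3 : (a : ℂ) + b * ((C : ℂ) - (S : ℂ) * I) = ((a + b * C : ℝ) : ℂ) + ((-(b * S) : ℝ) : ℂ) * I := by
    push_cast; ring
  rw [h3, ← Complex.normSq_eq_norm_sq, Complex.normSq_add_mul_I]
  linear_combination b ^ 2 * h2

/-- coefficient identity -/
lemma choose_coef (k : ℕ) (a b : ℝ) (m : ℕ × ℕ) (hm : m ∈ antidiagonal k) :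
    1 / (k.factorial : ℝ) * ((k.choose m.1 : ℕ) : ℝ) * (a ^ m.1 * b ^ m.2) =
      a ^ m.1 / (m.1.factorial : ℝ) * (b ^ m.2 / (m.2.factorial : ℝ)) := by
  rw [HasAntidiagonal.mem_antidiagonal] at hm
  subst hm
  have h1 := Nat.choose_mul_factorial_mul_factorial (Nat.le_add_right m.1 m.2)
  rw [Nat.add_sub_cancel_left] at h1
  have h2 : (((m.1 + m.2).choose m.1 : ℕ) : ℝ) * (m.1.factorial : ℝ) * (m.2.factorial : ℝ) =
      ((m.1 + m.2).factorial : ℝ) := by exact_mod_cast h1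
  have h3 : (m.1.factorial : ℝ) ≠ 0 := by exact_mod_cast Nat.factorial_ne_zero _
  have h4 : (m.2.factorial : ℝ) ≠ 0 := by exact_mod_cast Nat.factorial_ne_zero _
  have h5 : ((m.1 + m.2).factorial : ℝ) ≠ 0 := by exact_mod_cast Nat.factorial_ne_zero _
  field_simp
  linear_combination (a ^ m.1 * b ^ m.2) * h2

lemma pow_real (k : ℕ) (a b : ℝ) :
    ∑ m ∈ antidiagonal k, a ^ m.1 / (m.1.factorial : ℝ) * (b ^ m.2 / (m.2.factorial : ℝ)) =
      (a + b) ^ k / (k.factorial : ℝ) := by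
  rw [(Commute.all a b).add_pow' k, Finset.sum_div]
  refine Finset.sum_congr rfl fun m hm => ?_
  rw [← choose_coef k a b m hm, nsmul_eq_mul]
  ring

lemma pow_PC (k : ℕ) (a b : ℝ) (x z : PC) :
    ∑ m ∈ antidiagonal k, ((a ^ m.1 / (m.1.factorial : ℝ) * (b ^ m.2 / (m.2.factorial : ℝ)) : ℝ) : ℂ) •
        (x ^ m.1 * z ^ m.2) =
      ((1 / (k.factorial : ℝ) : ℝ) : ℂ) • (((a : ℝ) : ℂ) • x + ((b : ℝ) : ℂ) • z) ^ k := by
  rw [(Commute.all _ _).add_pow' k, Finset.smul_sum]
  refine Finset.sum_congr rfl fun m hm => ?_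
  rw [← choose_coef k a b m hm, smul_pow, smul_pow, smul_mul_smul_comm, ← Nat.cast_smul_eq_nsmul ℂ,
    smul_smul, smul_smul]
  congr 1
  push_cast
  ring

theorem main : S_BLK := by
  classical
  intro c hc
  refine ⟨Real.exp (16 * c * Real.exp 1), (Real.exp_pos _).le, ?_⟩
  intro I R δ h a b hI hIc hR hδ ha ha2 hb hb2
  set K : ℕ := 20 * R with hK
  set x : PC := xc I with hx
  set xh : PC := sf h (xc I) with hxh
  set s : ℝ := ∑ p ∈ I, (a ^ 2 + b ^ 2 + 2 * a * b * Real.cos (h * Real.log p)) * wd δ p with hs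
  have hxeq : x = ∑ p ∈ I, single p (1 : ℂ) := rfl
  have hxheq : xh = ∑ p ∈ I, single p ((p : ℂ) ^ (-(h * Complex.I))) := sf_xc h I
  have hOx : Su (Om 1) x := Su_Om_sum hI fun _ => 1
  have hOxh : Su (Om 1) xh := by
    rw [hxheq]
    exact Su_Om_sum hI fun p => (p : ℂ) ^ (-(h * Complex.I))
  have hDx : Dm x x := by
    rw [hxeq]
    refine Dm.sum fun p _ => ?_
    have := Dm.single (m := p) (c := 1) (r := 1) (by simp)
    simpa using this
  have hDxh : Dm xh x := by
    rw [hxheq, hxeq]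
    refine Dm.sum fun p hp => ?_
    have := Dm.single (m := p) (c := (p : ℂ) ^ (-(h * Complex.I))) (r := 1)
      (norm_pih (hI p hp).pos h).le
    simpa using this
  -- the coefficients
  set cf : ℕ × ℕ → ℝ := fun m => a ^ m.1 / (m.1.factorial : ℝ) * (b ^ m.2 / (m.2.factorial : ℝ)) with hcf
  have hcf0 : ∀ m, 0 ≤ cf m := fun m => by rw [hcf]; positivity
  set Pr : Finset (ℕ × ℕ) := range (K + 1) ×ˢ range (K + 1) with hPr
  set T : ℕ → PC := fun k => ∑ m ∈ Pr.filter (fun m => m.1 + m.2 = k), ((cf m : ℝ) : ℂ) • (x ^ m.1 * xh ^ m.2)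
    with hT
  have hG : NKc K a x * sf h (NKc K b x) = ∑ k ∈ range (2 * K + 1), T k := by
    rw [hT, hPr]
    simp only
    rw [Finset.sum_fiberwise_of_maps_to (g := fun m : ℕ × ℕ => m.1 + m.2), Finset.sum_product,
      sf_NKc, ← hxh]
    · unfold NKc
      rw [Finset.sum_mul_sum]
      refine Finset.sum_congr rfl fun i _ => Finset.sum_congr rfl fun j _ => ?_
      rw [smul_mul_smul_comm, hcf]
      congr 1
      push_cast
      ring
    · intro m hm
      rw [mem_product, mem_range, mem_range] at hm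
      rw [mem_range]
      omega
  rw [hG, nn_sum δ (fun n => ArithmeticFunction.cardFactors n)]
  swap
  · intro k _
    refine Su.sum fun m hm => ?_
    rw [mem_filter] at hm
    refine Su.smul ?_ _
    refine (Su_Om_pow hOx m.1).mul (Su_Om_pow hOxh m.2) fun u v hu hv => ?_
    rw [(hu.mul hv).2]
    exact hm.2
  have hs0 : 0 ≤ s := by
    refine Finset.sum_nonneg fun p hp => mul_nonneg ?_ (wd_nonneg δ p)
    rw [← norm_lin (hI p hp).pos h a b]
    positivity
  -- low degrees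
  have hlow : ∀ k, k ≤ K → nn δ (T k) ≤ s ^ k / (k.factorial : ℝ) := by
    intro k hk
    have hset : Pr.filter (fun m => m.1 + m.2 = k) = antidiagonal k := by
      ext m
      rw [mem_filter, hPr, mem_product, mem_range, mem_range, HasAntidiagonal.mem_antidiagonal]
      constructor
      · exact fun h => h.2
      · intro h
        exact ⟨⟨by omega, by omega⟩, h⟩
    have hy : ((a : ℝ) : ℂ) • x + ((b : ℝ) : ℂ) • xh =
        ∑ p ∈ I, single p ((a : ℂ) + b * (p : ℂ) ^ (-(h * Complex.I))) := by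
      rw [hxeq, hxheq, Finset.smul_sum, Finset.smul_sum, ← Finset.sum_add_distrib]
      refine Finset.sum_congr rfl fun p _ => ?_
      rw [smul_single, smul_single, ← single_add]
      simp
    have e1 : T k = ((1 / (k.factorial : ℝ) : ℝ) : ℂ) •
        (∑ p ∈ I, single p ((a : ℂ) + b * (p : ℂ) ^ (-(h * Complex.I))) : PC) ^ k := by
      rw [hT]
      simp only
      rw [hset, ← hy, ← pow_PC]
    have hk0 : (0 : ℝ) < k.factorial := by exact_mod_cast Nat.factorial_pos k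
    rw [e1, nn_smul, Complex.norm_real, Real.norm_of_nonneg (by positivity)]
    have h1 := KL δ (fun p => (a : ℂ) + b * (p : ℂ) ^ (-(h * Complex.I))) I hI k
    have h2 : ∑ p ∈ I, ‖(a : ℂ) + b * (p : ℂ) ^ (-(h * Complex.I))‖ ^ 2 * wd δ p = s := by
      rw [hs]
      refine Finset.sum_congr rfl fun p hp => ?_
      rw [norm_lin (hI p hp).pos h a b]
    rw [h2] at h1
    calc (1 / (k.factorial : ℝ)) ^ 2 * nn δ ((∑ p ∈ I, single p ((a : ℂ) + b * (p : ℂ) ^ (-(h * Complex.I))) : PC) ^ k)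
        ≤ (1 / (k.factorial : ℝ)) ^ 2 * (k.factorial * s ^ k) :=
          mul_le_mul_of_nonneg_left h1 (by positivity)
      _ = s ^ k / (k.factorial : ℝ) := by field_simp
  -- all degrees
  have hall : ∀ k, nn δ (T k) ≤ (16 * c) ^ k / (k.factorial : ℝ) := by
    intro k
    have hk0 : (0 : ℝ) < k.factorial := by exact_mod_cast Nat.factorial_pos k
    have h1 : Dm (T k) (∑ m ∈ Pr.filter (fun m => m.1 + m.2 = k), ((cf m : ℝ) : ℂ) • (x ^ m.1 * x ^ m.2)) := by
      rw [hT]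
      refine Dm.sum fun m _ => ?_
      refine ((hDx.pow m.1).mul (hDxh.pow m.2)).smul ?_
      rw [Complex.norm_real, Real.norm_of_nonneg (hcf0 m)]
    have h2 : ∑ m ∈ Pr.filter (fun m => m.1 + m.2 = k), ((cf m : ℝ) : ℂ) • (x ^ m.1 * x ^ m.2) =
        ((∑ m ∈ Pr.filter (fun m => m.1 + m.2 = k), cf m : ℝ) : ℂ) • x ^ k := by
      rw [Complex.ofReal_sum, Finset.sum_smul]
      refine Finset.sum_congr rfl fun m hm => ?_
      rw [← pow_add, (mem_filter.1 hm).2]
    have h3 : ∑ m ∈ Pr.filter (fun m => m.1 + m.2 = k), cf m ≤ (a + b) ^ k / (k.factorial : ℝ) := by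
      rw [← pow_real]
      refine Finset.sum_le_sum_of_subset_of_nonneg ?_ fun m _ _ => hcf0 m
      intro m hm
      rw [HasAntidiagonal.mem_antidiagonal]
      exact (mem_filter.1 hm).2
    have h30 : 0 ≤ ∑ m ∈ Pr.filter (fun m => m.1 + m.2 = k), cf m := Finset.sum_nonneg fun m _ => hcf0 m
    refine (nn_mono δ h1).trans ?_
    rw [h2, nn_smul, Complex.norm_real, Real.norm_of_nonneg h30]
    have h4 := KL δ (fun _ => (1 : ℂ)) I hI k
    rw [← hxeq] at h4
    have h5 : ∑ p ∈ I, ‖(1 : ℂ)‖ ^ 2 * wd δ p ≤ c := by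
      refine le_trans (Finset.sum_le_sum fun p hp => ?_) hIc
      rw [norm_one, one_pow, one_mul]
      unfold wd
      have hp1 : (1 : ℝ) ≤ p := by exact_mod_cast (hI p hp).one_lt.le
      refine mul_le_of_le_one_left (by positivity) ?_
      exact Real.rpow_le_one_of_one_le_of_nonpos hp1 (by linarith)
    have h50 : 0 ≤ ∑ p ∈ I, ‖(1 : ℂ)‖ ^ 2 * wd δ p :=
      Finset.sum_nonneg fun p _ => mul_nonneg (sq_nonneg _) (wd_nonneg δ p)
    calc (∑ m ∈ Pr.filter (fun m => m.1 + m.2 = k), cf m) ^ 2 * nn δ (x ^ k)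
        ≤ ((a + b) ^ k / (k.factorial : ℝ)) ^ 2 * (k.factorial * c ^ k) := by
          refine mul_le_mul (pow_le_pow_left₀ h30 h3 2) (h4.trans ?_) (nn_nonneg _ _) (by positivity)
          exact mul_le_mul_of_nonneg_left (pow_le_pow_left₀ h50 h5 k) (by positivity)
      _ = ((a + b) ^ 2 * c) ^ k / (k.factorial : ℝ) := by
          rw [mul_pow, ← pow_mul, mul_comm 2 k, pow_mul]
          field_simp
      _ ≤ (16 * c) ^ k / (k.factorial : ℝ) := by
          refine div_le_div_of_nonneg_right (pow_le_pow_left₀ (by positivity) ?_ k) hk0.le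
          refine mul_le_mul_of_nonneg_right ?_ hc
          nlinarith
  have hterm : ∀ k ∈ range (2 * K + 1), nn δ (T k) ≤ s ^ k / (k.factorial : ℝ) +
      Real.exp (-(K : ℝ)) * ((16 * c * Real.exp 1) ^ k / (k.factorial : ℝ)) := by
    intro k _
    rcases le_or_gt k K with hk | hk
    · have : 0 ≤ Real.exp (-(K : ℝ)) * ((16 * c * Real.exp 1) ^ k / (k.factorial : ℝ)) := by positivity
      linarith [hlow k hk]
    · have h0 : 0 ≤ s ^ k / (k.factorial : ℝ) := by positivity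
      refine (hall k).trans ?_
      have h1 : (16 * c) ^ k / (k.factorial : ℝ) = Real.exp (-(k : ℝ)) *
          ((16 * c * Real.exp 1) ^ k / (k.factorial : ℝ)) := by
        rw [mul_pow (16 * c), ← Real.exp_nat_mul, mul_one, Real.exp_neg]
        field_simp
      have h2 : Real.exp (-(k : ℝ)) ≤ Real.exp (-(K : ℝ)) := by
        refine Real.exp_le_exp.2 ?_
        have : (K : ℝ) ≤ k := by exact_mod_cast hk.le
        linarith
      have h3 : 0 ≤ (16 * c * Real.exp 1) ^ k / (k.factorial : ℝ) := by positivity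
      rw [h1]
      have h4 := mul_le_mul_of_nonneg_right h2 h3
      linarith
  refine (Finset.sum_le_sum hterm).trans ?_
  rw [Finset.sum_add_distrib, ← Finset.mul_sum]
  have h1 := Real.sum_le_exp_of_nonneg hs0 (2 * K + 1)
  have h2 := Real.sum_le_exp_of_nonneg (x := 16 * c * Real.exp 1) (by positivity) (2 * K + 1)
  have h3 : Real.exp (-(K : ℝ)) ≤ Real.exp (-(R : ℝ)) := by
    refine Real.exp_le_exp.2 ?_
    rw [hK]
    push_cast
    have : (0 : ℝ) ≤ R := Nat.cast_nonneg _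
    linarith
  have h4 : 1 ≤ Real.exp s := Real.one_le_exp hs0
  set E := Real.exp (16 * c * Real.exp 1) with hE
  have hE0 : 0 < E := Real.exp_pos _
  have hR0 : 0 < Real.exp (-(R : ℝ)) := Real.exp_pos _
  have h5 : Real.exp (-(K : ℝ)) * (∑ i ∈ range (2 * K + 1), (16 * c * Real.exp 1) ^ i / (i.factorial : ℝ)) ≤
      Real.exp (-(R : ℝ)) * E := mul_le_mul h3 h2 (Finset.sum_nonneg fun i _ => by positivity) hR0.le
  have h6 : 0 < E * Real.exp (-(R : ℝ)) := by positivity
  nlinarith [mul_nonneg (sub_nonneg.2 h4) h6.le, mul_pos h6 h6, mul_nonneg (Real.exp_pos s).le (sq_nonneg (E * Real.exp (-(R : ℝ))))]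

end Pool.Agent.N748.GC.BLK
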