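import Mathlib

/-!
GC/COS, part 0: elementary estimates (cosine sums over integers, Abel summation).
-/

set_option autoImplicit false

namespace Pool.Agent.N748.GC.COS

open Finset

/-- `cos(h log t)/(t log t)` -/
noncomputable def ph (h t : ℝ) : ℝ := Real.cos (h * Real.log t) / (t * Real.log t)

theorem log_half {t : ℝ} (ht : 2 ≤ t) : 1 / 2 ≤ Real.log t := by
  have h1 := Real.log_two_gt_d9
  have h2 : Real.log 2 ≤ Real.log t := Real.log_le_log (by norm_num) ht
  linarith

/-- `log (n+1) ≤ 2 log n` -/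
theorem log_succ_le {n : ℝ} (hn : 2 ≤ n) : Real.log (n + 1) ≤ 2 * Real.log n := by
  rw [show 2 * Real.log n = Real.log (n ^ 2) by rw [Real.log_pow]; push_cast; ring]
  exact Real.log_le_log (by linarith) (by nlinarith)

theorem log_diff {n : ℝ} (hn : 2 ≤ n) : 1 / (2 * n) ≤ Real.log (n + 1) - Real.log n := by
  have h1 : Real.log (n / (n + 1)) ≤ n / (n + 1) - 1 := Real.log_le_sub_one_of_pos (by positivity)
  rw [Real.log_div (by positivity) (by positivity)] at h1
  have h2 : n / (n + 1) - 1 = - (1 / (n + 1)) := by field_simp; ring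
  have h3 : 1 / (2 * n) ≤ 1 / (n + 1) := one_div_le_one_div_of_le (by positivity) (by linarith)
  linarith

/-- telescoping for `1/(n log² n)` -/
theorem tel1 {n : ℝ} (hn : 2 ≤ n) :
    1 / (n * Real.log n ^ 2) ≤ 4 * (1 / Real.log n - 1 / Real.log (n + 1)) := by
  have hl := log_half hn
  have hl' : Real.log n ≤ Real.log (n + 1) := Real.log_le_log (by linarith) (by linarith)
  have hd := log_diff hn
  have h2 := log_succ_le hn
  have hp : 0 < Real.log n := by linarith
  have hp' : 0 < Real.log (n + 1) := by linarith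
  have e : 1 / Real.log n - 1 / Real.log (n + 1) =
      (Real.log (n + 1) - Real.log n) / (Real.log n * Real.log (n + 1)) := by
    field_simp
  rw [e]
  have h3 : (1 / (2 * n)) / (Real.log n * (2 * Real.log n)) ≤
      (Real.log (n + 1) - Real.log n) / (Real.log n * Real.log (n + 1)) := by
    apply div_le_div₀ (by linarith [show (0:ℝ) < 1 / (2 * n) by positivity]) hd (by positivity)
    exact mul_le_mul_of_nonneg_left h2 hp.le
  have h4 : 1 / (n * Real.log n ^ 2) = 4 * ((1 / (2 * n)) / (Real.log n * (2 * Real.log n))) := by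
    field_simp; ring
  rw [h4]
  linarith

/-- telescoping for `1/(n log³ n)` -/
theorem tel2 {n : ℝ} (hn : 2 ≤ n) :
    1 / (n * Real.log n ^ 3) ≤ 8 * (1 / Real.log n ^ 2 - 1 / Real.log (n + 1) ^ 2) := by
  have hl := log_half hn
  have hl' : Real.log n ≤ Real.log (n + 1) := Real.log_le_log (by linarith) (by linarith)
  have hp : 0 < Real.log n := by linarith
  have hp' : 0 < Real.log (n + 1) := by linarith
  have h1 := tel1 hn
  have e : 1 / Real.log n ^ 2 - 1 / Real.log (n + 1) ^ 2 =
      (1 / Real.log n - 1 / Real.log (n + 1)) * (1 / Real.log n + 1 / Real.log (n + 1)) := by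
    ring
  have e2 : 1 / (n * Real.log n ^ 3) = 1 / (n * Real.log n ^ 2) * (1 / Real.log n) := by
    field_simp
  have h3 : (0:ℝ) ≤ 1 / Real.log (n + 1) := by positivity
  have h5 : (0:ℝ) < 1 / Real.log n := by positivity
  have h4 : 0 ≤ 1 / Real.log n - 1 / Real.log (n + 1) := by
    have : 1 / Real.log (n + 1) ≤ 1 / Real.log n := one_div_le_one_div_of_le hp hl'
    linarith
  rw [e, e2]
  nlinarith [mul_le_mul_of_nonneg_right h1 h5.le, mul_nonneg h4 h3, mul_nonneg h4 h5.le]

/-- the variation of `ph` -/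
theorem ph_var {h n t : ℝ} (h0 : 0 ≤ h) (h1 : h ≤ 1) (hn : 2 ≤ n) (hnt : n ≤ t) (htn : t ≤ n + 1) :
    |ph h t - ph h n| ≤ 4 / (n ^ 2 * Real.log n) := by
  have hl := log_half hn
  have hl' : Real.log n ≤ Real.log t := Real.log_le_log (by linarith) hnt
  have hp : 0 < Real.log n := by linarith
  have hp' : 0 < Real.log t := by linarith
  have hn0 : 0 < n := by linarith
  have ht0 : 0 < t := by linarith
  have hd : Real.log t - Real.log n ≤ 1 / n := by
    have h2 : Real.log (t / n) ≤ t / n - 1 := Real.log_le_sub_one_of_pos (by positivity)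
    rw [Real.log_div (by positivity) (by positivity)] at h2
    have h3 : t / n - 1 ≤ 1 / n := by
      rw [div_sub_one hn0.ne']
      exact div_le_div_of_nonneg_right (by linarith) hn0.le
    linarith
  have hcos : |Real.cos (h * Real.log t) - Real.cos (h * Real.log n)| ≤ 1 / n := by
    refine (Real.abs_cos_sub_cos_le _ _).trans ?_
    rw [← mul_sub, abs_mul, abs_of_nonneg h0, abs_of_nonneg (by linarith)]
    calc h * (Real.log t - Real.log n) ≤ 1 * (Real.log t - Real.log n) :=
          mul_le_mul_of_nonneg_right h1 (by linarith)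
      _ ≤ 1 / n := by linarith
  have hinv : |1 / (t * Real.log t) - 1 / (n * Real.log n)| ≤ 3 / (n ^ 2 * Real.log n) := by
    rw [abs_sub_comm, abs_of_nonneg]
    · have e : 1 / (n * Real.log n) - 1 / (t * Real.log t) =
          (t * Real.log t - n * Real.log n) / ((n * Real.log n) * (t * Real.log t)) := by
        field_simp
      rw [e]
      have h2 : t * Real.log t - n * Real.log n ≤ 3 * Real.log t := by
        have h3 : n * (Real.log t - Real.log n) ≤ 1 := by
          calc n * (Real.log t - Real.log n) ≤ n * (1 / n) := mul_le_mul_of_nonneg_left hd hn0.le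
            _ = 1 := by field_simp
        have h4 : (t - n) * Real.log t ≤ Real.log t := by nlinarith
        nlinarith
      have h5 : (t * Real.log t - n * Real.log n) / ((n * Real.log n) * (t * Real.log t)) ≤
          (3 * Real.log t) / ((n * Real.log n) * (n * Real.log t)) := by
        apply div_le_div₀ (by positivity) h2 (by positivity)
        exact mul_le_mul_of_nonneg_left (mul_le_mul_of_nonneg_right hnt hp'.le) (by positivity)
      refine h5.trans (le_of_eq ?_)
      field_simp
    · have : 1 / (t * Real.log t) ≤ 1 / (n * Real.log n) :=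
        one_div_le_one_div_of_le (by positivity) (mul_le_mul hnt hl' hp.le ht0.le)
      linarith
  have e : ph h t - ph h n = (Real.cos (h * Real.log t) - Real.cos (h * Real.log n)) *
      (1 / (t * Real.log t)) + Real.cos (h * Real.log n) *
      (1 / (t * Real.log t) - 1 / (n * Real.log n)) := by
    unfold ph; ring
  rw [e]
  refine (abs_add_le _ _).trans ?_
  rw [abs_mul, abs_mul]
  have h6 : |1 / (t * Real.log t)| ≤ 1 / (n * Real.log n) := by
    rw [abs_of_nonneg (by positivity)]
    exact one_div_le_one_div_of_le (by positivity) (mul_le_mul hnt hl' hp.le ht0.le)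
  have h7 : |Real.cos (h * Real.log t) - Real.cos (h * Real.log n)| * |1 / (t * Real.log t)| ≤
      1 / n * (1 / (n * Real.log n)) := mul_le_mul hcos h6 (abs_nonneg _) (by positivity)
  have h8 : |Real.cos (h * Real.log n)| * |1 / (t * Real.log t) - 1 / (n * Real.log n)| ≤
      1 * (3 / (n ^ 2 * Real.log n)) :=
    mul_le_mul (Real.abs_cos_le_one _) hinv (abs_nonneg _) (by norm_num)
  have h9 : 1 / n * (1 / (n * Real.log n)) + 1 * (3 / (n ^ 2 * Real.log n)) =
      4 / (n ^ 2 * Real.log n) := by field_simp; ring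
  linarith

theorem ph_abs {h n : ℝ} (hn : 2 ≤ n) : |ph h n| ≤ 1 / (n * Real.log n) := by
  have hl := log_half hn
  unfold ph
  rw [abs_div, abs_of_nonneg (show 0 ≤ n * Real.log n by positivity)]
  exact div_le_div_of_nonneg_right (Real.abs_cos_le_one _) (by positivity)

theorem ph_le {h n : ℝ} (hn : 2 ≤ n) : ph h n ≤ 1 / (n * Real.log n) :=
  (le_abs_self _).trans (ph_abs hn)

theorem ph_zero (n : ℝ) : ph 0 n = 1 / (n * Real.log n) := by simp [ph]

theorem log_le_self' {n : ℝ} (hn : 2 ≤ n) : Real.log n ≤ n := by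
  have := Real.log_le_sub_one_of_pos (show 0 < n by linarith)
  linarith

theorem log_sq_le {n : ℝ} (hn : 2 ≤ n) : Real.log n ^ 2 ≤ 4 * n := by
  have hl := log_half hn
  have hn0 : 0 ≤ n := by linarith
  have h1 : Real.log (√n) ≤ √n - 1 := Real.log_le_sub_one_of_pos (by positivity)
  rw [Real.log_sqrt hn0] at h1
  have h2 : Real.log n ≤ 2 * √n := by linarith
  have h3 := Real.sq_sqrt hn0
  have h4 : 0 ≤ √n := Real.sqrt_nonneg _
  nlinarith

/-- comparison of the sum over the integers with a primitive -/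
theorem sum_prim (h : ℝ) (g g' : ℝ → ℝ) (B : ℝ)
    (hg : ∀ t : ℝ, 2 ≤ t → HasDerivAt g (g' t) t)
    (hB : ∀ n t : ℝ, 2 ≤ n → n ≤ t → t ≤ n + 1 → |ph h n - g' t| ≤ B * (1 / (n * Real.log n ^ 2)))
    (hB0 : 0 ≤ B) (z : ℕ) (hz : 2 ≤ z) (k : ℕ) :
    |∑ n ∈ Icc z (z + k), ph h n - (g ((z + k : ℕ) + 1) - g z)| ≤
      4 * B * (1 / Real.log z - 1 / Real.log ((z + k : ℕ) + 1)) := by
  have step : ∀ n : ℕ, 2 ≤ n → |ph h n - (g ((n : ℝ) + 1) - g n)| ≤
      4 * B * (1 / Real.log n - 1 / Real.log ((n : ℝ) + 1)) := by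
    intro n hn
    have hn' : (2 : ℝ) ≤ n := by exact_mod_cast hn
    obtain ⟨ξ, hξ, hξ'⟩ := exists_hasDerivAt_eq_slope g g' (show (n : ℝ) < n + 1 by linarith)
      (fun x hx => (hg x (hn'.trans hx.1)).continuousAt.continuousWithinAt)
      (fun x hx => hg x (hn'.trans hx.1.le))
    have e : g ((n : ℝ) + 1) - g n = g' ξ := by
      rw [hξ']; simp
    rw [e]
    refine (hB n ξ hn' hξ.1.le hξ.2.le).trans ?_
    have := mul_le_mul_of_nonneg_left (tel1 hn') hB0
    linarith
  induction k with
  | zero =>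
    simp only [add_zero, Icc_self, sum_singleton]
    exact step z hz
  | succ k ih =>
    rw [← add_assoc, ← Nat.succ_eq_add_one (z + k), Finset.sum_Icc_succ_top (by omega)]
    have h1 := step (z + k + 1) (by omega)
    have e : ∑ n ∈ Icc z (z + k), ph h n + ph h ((z + k + 1 : ℕ) : ℝ) -
        (g (((z + k).succ : ℕ) + 1) - g z) =
        (∑ n ∈ Icc z (z + k), ph h n - (g ((z + k : ℕ) + 1) - g z)) +
        (ph h ((z + k + 1 : ℕ) : ℝ) - (g (((z + k + 1 : ℕ) : ℝ) + 1) - g ((z + k + 1 : ℕ) : ℝ))) := by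
      push_cast; ring
    rw [e]
    refine (abs_add_le _ _).trans ?_
    have h2 : 4 * B * (1 / Real.log z - 1 / Real.log ((((z + k).succ : ℕ) : ℝ) + 1)) =
        4 * B * (1 / Real.log z - 1 / Real.log ((z + k : ℕ) + 1)) +
        4 * B * (1 / Real.log ((z + k + 1 : ℕ) : ℝ) - 1 / Real.log (((z + k + 1 : ℕ) : ℝ) + 1)) := by
      push_cast; ring
    rw [h2]
    exact add_le_add ih h1

theorem var_le {h n t : ℝ} (h0 : 0 ≤ h) (h1 : h ≤ 1) (hn : 2 ≤ n) (hnt : n ≤ t) (htn : t ≤ n + 1) :
    |ph h n - ph h t| ≤ 4 * (1 / (n * Real.log n ^ 2)) := by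
  rw [abs_sub_comm]
  refine (ph_var h0 h1 hn hnt htn).trans ?_
  have hl := log_half hn
  have h2 := log_le_self' hn
  rw [← mul_one_div]
  refine mul_le_mul_of_nonneg_left ?_ (by norm_num)
  apply one_div_le_one_div_of_le (by positivity)
  have : 0 ≤ n * Real.log n * (n - Real.log n) :=
    mul_nonneg (by positivity) (by linarith)
  nlinarith

/-- the case `h = 0` -/
theorem sum_zero (z : ℕ) (hz : 2 ≤ z) (k : ℕ) :
    |∑ n ∈ Icc z (z + k), ph 0 n -
      (Real.log (Real.log ((z + k : ℕ) + 1)) - Real.log (Real.log z))| ≤ 16 / Real.log z := by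
  have h := sum_prim 0 (fun t => Real.log (Real.log t)) (fun t => ph 0 t) 4
    (fun t ht => by
      have hl := log_half ht
      have h1 := (Real.hasDerivAt_log (show t ≠ 0 by linarith)).log (by linarith)
      rw [ph_zero]
      convert h1 using 1
      field_simp)
    (fun n t hn hnt htn => var_le le_rfl zero_le_one hn hnt htn) (by norm_num) z hz k
  refine h.trans ?_
  have hz' : (2 : ℝ) ≤ z := by exact_mod_cast hz
  have hz2 : (2 : ℝ) ≤ ((z + k : ℕ) : ℝ) + 1 := by
    have : (z : ℝ) ≤ ((z + k : ℕ) : ℝ) := by exact_mod_cast Nat.le_add_right z k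
    linarith
  have hl := log_half hz'
  have hl2 := log_half hz2
  have h3 : (0 : ℝ) ≤ 1 / Real.log (((z + k : ℕ) : ℝ) + 1) := by positivity
  have h4 : 16 / Real.log (z : ℝ) = 16 * (1 / Real.log z) := by ring
  rw [h4]
  linarith

/-- the case `h > 0` -/
theorem sum_pos {h : ℝ} (h0 : 0 < h) (h1 : h ≤ 1) (z : ℕ) (hz : 2 ≤ z) (k : ℕ) :
    |∑ n ∈ Icc z (z + k), ph h n| ≤ 22 / (h * Real.log z) := by
  have hp := sum_prim h (fun t => Real.sin (h * Real.log t) / (h * Real.log t))
    (fun t => ph h t - Real.sin (h * Real.log t) / (h * (t * Real.log t ^ 2))) (5 / h)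
    (fun t ht => by
      have hl := log_half ht
      have ht0 : t ≠ 0 := by linarith
      have h2 : HasDerivAt (fun t => h * Real.log t) (h * t⁻¹) t :=
        (Real.hasDerivAt_log ht0).const_mul h
      have h3 : HasDerivAt (fun t => Real.sin (h * Real.log t) / (h * Real.log t))
          (((Real.cos (h * Real.log t) * (h * t⁻¹)) * (h * Real.log t) -
            Real.sin (h * Real.log t) * (h * t⁻¹)) / (h * Real.log t) ^ 2) t :=
        h2.sin.div h2 (by positivity)
      refine h3.congr_deriv ?_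
      unfold ph
      field_simp)
    (fun n t hn hnt htn => by
      have h2 := var_le h0.le h1 hn hnt htn
      have hl := log_half hn
      have hl' : Real.log n ≤ Real.log t := Real.log_le_log (by linarith) hnt
      have ht0 : 0 < t := by linarith
      have hp' : 0 < Real.log t := by linarith
      have h3 : |Real.sin (h * Real.log t) / (h * (t * Real.log t ^ 2))| ≤
          1 / h * (1 / (n * Real.log n ^ 2)) := by
        rw [abs_div, abs_of_nonneg (show 0 ≤ h * (t * Real.log t ^ 2) by positivity)]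
        have e3 : 1 / h * (1 / (n * Real.log n ^ 2)) = 1 / (h * (n * Real.log n ^ 2)) := by
          field_simp
        rw [e3]
        refine div_le_div₀ zero_le_one (Real.abs_sin_le_one _) (by positivity) ?_
        refine mul_le_mul_of_nonneg_left ?_ h0.le
        exact mul_le_mul hnt (pow_le_pow_left₀ (by linarith) hl' 2) (by positivity) ht0.le
      have h4 : (4 : ℝ) * (1 / (n * Real.log n ^ 2)) ≤ 4 / h * (1 / (n * Real.log n ^ 2)) := by
        refine mul_le_mul_of_nonneg_right ?_ (by positivity)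
        rw [le_div_iff₀ h0]; nlinarith
      have e : ph h n - (ph h t - Real.sin (h * Real.log t) / (h * (t * Real.log t ^ 2))) =
        (ph h n - ph h t) + Real.sin (h * Real.log t) / (h * (t * Real.log t ^ 2)) := by ring
      rw [e]
      refine (abs_add_le _ _).trans ?_
      have e2 : 5 / h * (1 / (n * Real.log n ^ 2)) = 4 / h * (1 / (n * Real.log n ^ 2)) +
        1 / h * (1 / (n * Real.log n ^ 2)) := by ring
      rw [e2]
      linarith)
    (by positivity) z hz k
  have hz' : (2 : ℝ) ≤ z := by exact_mod_cast hz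
  have hzk : (z : ℝ) ≤ ((z + k : ℕ) : ℝ) + 1 := by
    have : (z : ℝ) ≤ ((z + k : ℕ) : ℝ) := by exact_mod_cast Nat.le_add_right z k
    linarith
  have hz2 : (2 : ℝ) ≤ ((z + k : ℕ) : ℝ) + 1 := by linarith
  have hl := log_half hz'
  have hl2 := log_half hz2
  have hl3 : Real.log z ≤ Real.log (((z + k : ℕ) : ℝ) + 1) := Real.log_le_log (by linarith) hzk
  have hs : ∀ t : ℝ, (z : ℝ) ≤ t → |Real.sin (h * Real.log t) / (h * Real.log t)| ≤
      1 / (h * Real.log z) := by
    intro t ht
    have hlt : Real.log z ≤ Real.log t := Real.log_le_log (by linarith) ht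
    rw [abs_div, abs_of_nonneg (show 0 ≤ h * Real.log t by
      have : 0 < Real.log t := by linarith
      positivity)]
    exact div_le_div₀ zero_le_one (Real.abs_sin_le_one _) (by positivity)
      (mul_le_mul_of_nonneg_left hlt h0.le)
  have h5 := hs _ hzk
  have h6 := hs z le_rfl
  have h3 : (0 : ℝ) ≤ 1 / Real.log (((z + k : ℕ) : ℝ) + 1) := by positivity
  have h7 : 4 * (5 / h) * (1 / Real.log z - 1 / Real.log (((z + k : ℕ) : ℝ) + 1)) ≤
      20 * (1 / (h * Real.log z)) := by
    have e : 20 * (1 / (h * Real.log z)) = 4 * (5 / h) * (1 / Real.log z) := by field_simp; ring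
    rw [e]
    refine mul_le_mul_of_nonneg_left (by linarith) (by positivity)
  have e : 22 / (h * Real.log z) = 22 * (1 / (h * Real.log z)) := by ring
  rw [e]
  rw [abs_le] at hp h5 h6 ⊢
  constructor <;> linarith [hp.1, hp.2, h5.1, h5.2, h6.1, h6.2]

end Pool.Agent.N748.GC.COS
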