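import Pool.Agent.N748.GC.Stm
import Pool.Agent.N748.GC.COS0
import Pool.Agent.H442R2.EHI.PntErr

/-!
GC/COS: cosine sums over primes and Mertens' theorem from the prime number theorem with error term.
-/

set_option autoImplicit false

namespace Pool.Agent.N748.GC.COS

open Finset
open Pool.Agent.H442R2.EHI.PntErrAux (theta_succ thetaU)

/-- the error term -/
noncomputable def ee (n : ℕ) : ℝ := Chebyshev.theta (n : ℝ) - n

/-- the prime terms -/
noncomputable def pa (h : ℝ) (n : ℕ) : ℝ := if n.Prime then Real.cos (h * Real.log n) / n else 0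

theorem ee_succ (n : ℕ) : ee (n + 1) = ee n + (if (n + 1).Prime then
    Real.log ((n + 1 : ℕ) : ℝ) else 0) - 1 := by
  unfold ee
  rw [theta_succ]
  push_cast
  ring

theorem pa_sub (h : ℝ) (n : ℕ) (hn : 1 ≤ n) :
    pa h (n + 1) - ph h ((n + 1 : ℕ) : ℝ) = ph h ((n + 1 : ℕ) : ℝ) * (ee (n + 1) - ee n) := by
  have hn' : (2 : ℝ) ≤ ((n + 1 : ℕ) : ℝ) := by exact_mod_cast (by omega : 2 ≤ n + 1)
  have hl := log_half hn'
  rw [ee_succ]
  unfold pa ph
  have h0 : ((n + 1 : ℕ) : ℝ) ≠ 0 := by linarith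
  have h1 : Real.log ((n + 1 : ℕ) : ℝ) ≠ 0 := by linarith
  split_ifs with hp
  · field_simp
    ring
  · field_simp
    ring

theorem abel_step {C1 : ℝ} (hC : 0 ≤ C1)
    (hE : ∀ n : ℕ, 2 ≤ n → |ee n| ≤ C1 * (n / Real.log n ^ 2)) {h : ℝ} (h0 : 0 ≤ h) (h1 : h ≤ 1)
    (m : ℕ) (hm : 1 ≤ m) (k : ℕ) :
    |∑ n ∈ Icc (m + 1) (m + 1 + k), (pa h n - ph h n) - ph h ((m + 1 + k : ℕ) : ℝ) * ee (m + 1 + k)| ≤
      |ph h ((m + 1 : ℕ) : ℝ) * ee m| +
        32 * C1 * (1 / Real.log ((m + 1 : ℕ) : ℝ) ^ 2 - 1 / Real.log ((m + 1 + k : ℕ) : ℝ) ^ 2) := by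
  induction k with
  | zero =>
    simp only [add_zero, Icc_self, sum_singleton, sub_self, mul_zero]
    rw [pa_sub h m hm, ← abs_neg]
    apply le_of_eq
    congr 1
    ring
  | succ k ih =>
    set n : ℕ := m + 1 + k with hn
    have e0 : m + 1 + (k + 1) = n + 1 := by omega
    rw [e0, Finset.sum_Icc_succ_top (by omega), pa_sub h n (by omega)]
    have hn2 : 2 ≤ n := by omega
    have hn' : (2 : ℝ) ≤ n := by exact_mod_cast hn2
    have hl := log_half hn'
    have e : ∑ n ∈ Icc (m + 1) n, (pa h n - ph h n) +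
        ph h ((n + 1 : ℕ) : ℝ) * (ee (n + 1) - ee n) - ph h ((n + 1 : ℕ) : ℝ) * ee (n + 1) =
        (∑ n ∈ Icc (m + 1) n, (pa h n - ph h n) - ph h (n : ℝ) * ee n) -
          (ph h ((n + 1 : ℕ) : ℝ) - ph h n) * ee n := by ring
    rw [e]
    refine (abs_sub _ _).trans ?_
    have h2 : |(ph h ((n + 1 : ℕ) : ℝ) - ph h n) * ee n| ≤
        32 * C1 * (1 / Real.log (n : ℝ) ^ 2 - 1 / Real.log ((n + 1 : ℕ) : ℝ) ^ 2) := by
      rw [abs_mul]
      have h3 := ph_var (t := ((n + 1 : ℕ) : ℝ)) h0 h1 hn' (by push_cast; linarith)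
        (by push_cast; linarith)
      have h4 := hE n hn2
      have h5 := mul_le_mul h3 h4 (abs_nonneg _) (by positivity)
      refine h5.trans ?_
      have h6 := tel2 hn'
      have e6 : 4 / ((n : ℝ) ^ 2 * Real.log n) * (C1 * (n / Real.log n ^ 2)) =
          4 * C1 * (1 / (n * Real.log n ^ 3)) := by
        field_simp
      rw [e6]
      have h7 := mul_le_mul_of_nonneg_left h6 (show 0 ≤ 4 * C1 by positivity)
      refine h7.trans (le_of_eq ?_)
      push_cast
      ring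
    linarith

theorem abelA : ∃ CA : ℝ, 0 < CA ∧ ∀ h : ℝ, 0 ≤ h → h ≤ 1 → ∀ z : ℕ, 2 ≤ z → ∀ k : ℕ,
    |∑ n ∈ Icc z (z + k), pa h n - ∑ n ∈ Icc z (z + k), ph h n| ≤ CA / Real.log z ^ 2 := by
  obtain ⟨C1, hC1, hE⟩ := thetaU 2
  refine ⟨36 * C1 + 12, by positivity, ?_⟩
  intro h h0 h1 z hz k
  obtain ⟨m, rfl⟩ : ∃ m, z = m + 1 := ⟨z - 1, by omega⟩
  have hm : 1 ≤ m := by omega
  have hE' : ∀ n : ℕ, 2 ≤ n → |ee n| ≤ C1 * (n / Real.log n ^ 2) := fun n hn => hE n hn
  have hst := abel_step hC1.le hE' h0 h1 m hm k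
  have hz' : (2 : ℝ) ≤ ((m + 1 : ℕ) : ℝ) := by exact_mod_cast hz
  have hzk : ((m + 1 : ℕ) : ℝ) ≤ ((m + 1 + k : ℕ) : ℝ) := by exact_mod_cast Nat.le_add_right _ _
  set L := Real.log ((m + 1 : ℕ) : ℝ) with hL
  have hl : 1 / 2 ≤ L := log_half hz'
  have hL0 : 0 < L := by linarith
  have hlk : L ≤ Real.log ((m + 1 + k : ℕ) : ℝ) := Real.log_le_log (by linarith) hzk
  -- a bound of `ph * ee`
  have hpe : ∀ n : ℕ, 2 ≤ n → |ph h n * ee n| ≤ C1 * (1 / Real.log n ^ 3) := by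
    intro n hn
    have hn' : (2 : ℝ) ≤ n := by exact_mod_cast hn
    have hln := log_half hn'
    rw [abs_mul]
    refine (mul_le_mul (ph_abs hn') (hE' n hn) (abs_nonneg _) (by positivity)).trans ?_
    apply le_of_eq
    field_simp
  have h13 : 1 / L ^ 3 ≤ 2 * (1 / L ^ 2) := by
    rw [div_le_iff₀ (by positivity)]
    have : 2 * (1 / L ^ 2) * L ^ 3 = 2 * L := by field_simp
    rw [this]; linarith
  -- the last term
  have hlast : |ph h ((m + 1 + k : ℕ) : ℝ) * ee (m + 1 + k)| ≤ 2 * C1 * (1 / L ^ 2) := by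
    refine (hpe (m + 1 + k) (by omega)).trans ?_
    have h2 : 1 / Real.log ((m + 1 + k : ℕ) : ℝ) ^ 3 ≤ 1 / L ^ 3 :=
      one_div_le_one_div_of_le (by positivity) (pow_le_pow_left₀ hL0.le hlk 3)
    have h3 := mul_le_mul_of_nonneg_left (h2.trans h13) hC1.le
    linarith
  -- the first term
  have hfirst : |ph h ((m + 1 : ℕ) : ℝ) * ee m| ≤ (2 * C1 + 12) * (1 / L ^ 2) := by
    have e1 : ee m = ee (m + 1) - (if (m + 1).Prime then Real.log ((m + 1 : ℕ) : ℝ) else 0) + 1 := by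
      rw [ee_succ]; ring
    have e2 : |ph h ((m + 1 : ℕ) : ℝ) * ee m| ≤ |ph h ((m + 1 : ℕ) : ℝ) * ee (m + 1)| +
        |ph h ((m + 1 : ℕ) : ℝ)| * (L + 1) := by
      have e3 : ph h ((m + 1 : ℕ) : ℝ) * ee m = ph h ((m + 1 : ℕ) : ℝ) * ee (m + 1) +
          ph h ((m + 1 : ℕ) : ℝ) *
            (1 - (if (m + 1).Prime then Real.log ((m + 1 : ℕ) : ℝ) else 0)) := by
        rw [e1]; ring
      rw [e3]
      refine (abs_add_le _ _).trans (add_le_add le_rfl ?_)
      rw [abs_mul]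
      refine mul_le_mul_of_nonneg_left ?_ (abs_nonneg _)
      split_ifs
      · rw [abs_le]; constructor <;> linarith
      · rw [sub_zero, abs_one]; linarith
    have e4 := hpe (m + 1) hz
    have e5 := mul_le_mul_of_nonneg_left h13 hC1.le
    have e6 : |ph h ((m + 1 : ℕ) : ℝ)| * (L + 1) ≤ 12 * (1 / L ^ 2) := by
      refine (mul_le_mul_of_nonneg_right (ph_abs hz') (by linarith)).trans ?_
      have e7 : L + 1 ≤ 3 * L := by linarith
      have e8 : 1 / (((m + 1 : ℕ) : ℝ) * L) * (L + 1) ≤ 1 / (((m + 1 : ℕ) : ℝ) * L) * (3 * L) :=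
        mul_le_mul_of_nonneg_left e7 (by positivity)
      refine e8.trans ?_
      have e9 : 1 / (((m + 1 : ℕ) : ℝ) * L) * (3 * L) = 3 / ((m + 1 : ℕ) : ℝ) := by
        field_simp
      rw [e9, mul_one_div, div_le_div_iff₀ (by positivity) (by positivity)]
      have := log_sq_le hz'
      nlinarith
    linarith
  have h8 : 32 * C1 * (1 / L ^ 2 - 1 / Real.log ((m + 1 + k : ℕ) : ℝ) ^ 2) ≤
      32 * C1 * (1 / L ^ 2) := by
    refine mul_le_mul_of_nonneg_left ?_ (by positivity)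
    have : 0 ≤ 1 / Real.log ((m + 1 + k : ℕ) : ℝ) ^ 2 := by positivity
    linarith
  rw [← Finset.sum_sub_distrib]
  have h9 : ∑ n ∈ Icc (m + 1) (m + 1 + k), (pa h n - ph h n) =
      (∑ n ∈ Icc (m + 1) (m + 1 + k), (pa h n - ph h n) -
        ph h ((m + 1 + k : ℕ) : ℝ) * ee (m + 1 + k)) +
        ph h ((m + 1 + k : ℕ) : ℝ) * ee (m + 1 + k) := by ring
  rw [h9]
  refine (abs_add_le _ _).trans ?_
  have e10 : (36 * C1 + 12) / L ^ 2 = (36 * C1 + 12) * (1 / L ^ 2) := by ring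
  rw [e10]
  linarith

/-- Abel summation with a nonincreasing weight -/
theorem weight (a g : ℕ → ℝ) (z : ℕ) (M : ℝ) (k : ℕ)
    (hg : ∀ n m : ℕ, z ≤ n → n ≤ m → g m ≤ g n) (hg0 : ∀ n, z ≤ n → 0 ≤ g n)
    (hS : ∀ j : ℕ, ∑ n ∈ Icc z (z + j), a n ≤ M) :
    ∑ n ∈ Icc z (z + k), a n * g n ≤ (∑ n ∈ Icc z (z + k), a n - M) * g (z + k) + M * g z := by
  induction k with
  | zero => simp; linarith
  | succ k ih =>
    rw [← add_assoc, Finset.sum_Icc_succ_top (by omega), Finset.sum_Icc_succ_top (by omega)]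
    have h1 := hS k
    have h2 := hg (z + k) (z + k + 1) (by omega) (by omega)
    nlinarith [mul_le_mul_of_nonneg_left h2 (show 0 ≤ M - ∑ n ∈ Icc z (z + k), a n by linarith)]

theorem weight' (a g : ℕ → ℝ) (z : ℕ) (M : ℝ) (hM : 0 ≤ M) (k : ℕ)
    (hg : ∀ n m : ℕ, z ≤ n → n ≤ m → g m ≤ g n) (hg0 : ∀ n, z ≤ n → 0 ≤ g n) (hg1 : g z ≤ 1)
    (hS : ∀ j : ℕ, ∑ n ∈ Icc z (z + j), a n ≤ M) :
    ∑ n ∈ Icc z (z + k), a n * g n ≤ M := by
  refine (weight a g z M k hg hg0 hS).trans ?_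
  have h1 := hS k
  have h2 := hg0 (z + k) (by omega)
  nlinarith [mul_nonneg (show 0 ≤ M - ∑ n ∈ Icc z (z + k), a n by linarith) h2]

/-- the sum of `ph` in the range where `h log n ≤ 1` -/
theorem ph_small {h : ℝ} (h0 : 0 < h) (z : ℕ) (hz : 2 ≤ z) (k : ℕ)
    (hk : h * Real.log ((z + k : ℕ) : ℝ) ≤ 1) :
    ∑ n ∈ Icc z (z + k), ph h n ≤ Real.log (1 / (h * Real.log z)) + 33 := by
  have hz' : (2 : ℝ) ≤ z := by exact_mod_cast hz
  have hzk : (z : ℝ) ≤ ((z + k : ℕ) : ℝ) := by exact_mod_cast Nat.le_add_right z k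
  have hl := log_half hz'
  have hlk : Real.log z ≤ Real.log ((z + k : ℕ) : ℝ) := Real.log_le_log (by linarith) hzk
  have h1 : ∑ n ∈ Icc z (z + k), ph h n ≤ ∑ n ∈ Icc z (z + k), ph 0 n := by
    refine Finset.sum_le_sum fun n hn => ?_
    rw [ph_zero]
    exact ph_le (by exact_mod_cast hz.trans (mem_Icc.mp hn).1)
  have h2 := (abs_le.mp (sum_zero z hz k)).2
  have h3 : 16 / Real.log z ≤ 32 := by
    rw [div_le_iff₀ (by linarith)]; linarith
  have h4 : Real.log (Real.log (((z + k : ℕ) : ℝ) + 1)) ≤ Real.log (1 / h) + 1 := by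
    have h5 := log_succ_le (n := ((z + k : ℕ) : ℝ)) (by linarith)
    have h6 : Real.log ((z + k : ℕ) : ℝ) ≤ 1 / h := by
      rw [le_div_iff₀ h0]; linarith
    have h7 : Real.log (((z + k : ℕ) : ℝ) + 1) ≤ Real.exp 1 * (1 / h) := by
      have h8 : (2 : ℝ) ≤ Real.exp 1 := by
        have := Real.add_one_le_exp (1 : ℝ); linarith
      have h9 : (0 : ℝ) < 1 / h := by positivity
      nlinarith
    have h10 : 0 < Real.log (((z + k : ℕ) : ℝ) + 1) :=
      Real.log_pos (by linarith)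
    calc Real.log (Real.log (((z + k : ℕ) : ℝ) + 1)) ≤ Real.log (Real.exp 1 * (1 / h)) :=
          Real.log_le_log h10 h7
      _ = Real.log (1 / h) + 1 := by
          rw [Real.log_mul (Real.exp_pos 1).ne' (by positivity), Real.log_exp]; ring
  have h5 : Real.log (1 / (h * Real.log z)) = Real.log (1 / h) - Real.log (Real.log z) := by
    rw [← Real.log_div (by positivity) (by linarith), div_div]
  rw [h5]
  linarith

/-- the sum of `ph` in the second case -/
theorem ph_case2 {h : ℝ} (h0 : 0 < h) (h1 : h ≤ 1) (z : ℕ) (hz : 2 ≤ z) (k : ℕ)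
    (hhz : h * Real.log z ≤ 1) :
    ∑ n ∈ Icc z (z + k), ph h n ≤ Real.log (1 / (h * Real.log z)) + 55 := by
  have hz' : (2 : ℝ) ≤ z := by exact_mod_cast hz
  rcases le_or_gt (h * Real.log ((z + k : ℕ) : ℝ)) 1 with hc | hc
  · exact (ph_small h0 z hz k hc).trans (by linarith)
  · set N : ℕ := ⌊Real.exp (1 / h)⌋₊ with hN
    have hzN : z ≤ N := by
      apply Nat.le_floor
      rw [← Real.log_le_iff_le_exp (by linarith), le_div_iff₀ h0]
      linarith
    have hN1 : (N : ℝ) ≤ Real.exp (1 / h) := Nat.floor_le (Real.exp_pos _).le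
    have hN2 : Real.exp (1 / h) < N + 1 := Nat.lt_floor_add_one _
    have hNk : N < z + k := by
      have h2 : (N : ℝ) < ((z + k : ℕ) : ℝ) := by
        refine lt_of_le_of_lt hN1 ?_
        rw [← Real.lt_log_iff_exp_lt (by
          have : (z : ℝ) ≤ ((z + k : ℕ) : ℝ) := by exact_mod_cast Nat.le_add_right z k
          linarith), div_lt_iff₀ h0]
        linarith
      exact_mod_cast h2
    obtain ⟨i, hi⟩ : ∃ i, N = z + i := ⟨N - z, by omega⟩
    obtain ⟨j, hj⟩ : ∃ j, z + k = N + 1 + j := ⟨z + k - (N + 1), by omega⟩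
    have hNr : (2 : ℝ) ≤ N := by exact_mod_cast hz.trans hzN
    have hsplit : ∑ n ∈ Icc z (z + k), ph h n =
        ∑ n ∈ Icc z (z + i), ph h n + ∑ n ∈ Icc (N + 1) (N + 1 + j), ph h n := by
      have h2 : Icc z (z + k) = Icc z (z + i) ∪ Icc (N + 1) (N + 1 + j) := by
        ext n
        simp only [mem_Icc, mem_union]
        omega
      rw [h2, Finset.sum_union]
      rw [Finset.disjoint_left]
      intro n hn hn'
      simp only [mem_Icc] at hn hn'
      omega
    rw [hsplit]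
    have hA := ph_small h0 z hz i (by
      rw [← hi]
      have : Real.log N ≤ 1 / h := by
        rw [Real.log_le_iff_le_exp (by linarith)]; exact hN1
      rw [le_div_iff₀ h0] at this
      linarith)
    have hB := (abs_le.mp (sum_pos h0 h1 (N + 1) (by omega) j)).2
    have hC : 22 / (h * Real.log ((N + 1 : ℕ) : ℝ)) ≤ 22 := by
      have h3 : 1 / h ≤ Real.log ((N + 1 : ℕ) : ℝ) := by
        rw [Real.le_log_iff_exp_le (by push_cast; linarith)]
        push_cast; exact hN2.le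
      have h4 : 1 ≤ h * Real.log ((N + 1 : ℕ) : ℝ) := by
        rw [div_le_iff₀ h0] at h3; linarith
      rw [div_le_iff₀ (by linarith)]
      linarith
    linarith

theorem sum_filter_eq (z Y : ℕ) (F : ℕ → ℝ) :
    ∑ p ∈ (Icc z Y).filter Nat.Prime, F p = ∑ n ∈ Icc z Y, if n.Prime then F n else 0 :=
  Finset.sum_filter _ _

theorem cos : Pool.Agent.N748.GC.S_COS := by
  obtain ⟨CA, hCA, hA⟩ := abelA
  refine ⟨55 + 4 * CA, by positivity, ?_⟩
  intro z δ y h hz hδ hzy h0 h1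
  have hz' : (2 : ℝ) ≤ z := by exact_mod_cast hz
  have hl := log_half hz'
  have hL0 : 0 < Real.log z := by linarith
  have hzY : z ≤ ⌊y⌋₊ := Nat.le_floor hzy
  obtain ⟨k, hk⟩ : ∃ k, ⌊y⌋₊ = z + k := ⟨⌊y⌋₊ - z, by omega⟩
  rw [hk]
  have hAk := fun j => (abs_le.mp (hA h h0.le h1 z hz j)).2
  have e1 : ∑ p ∈ (Icc z (z + k)).filter Nat.Prime, Real.cos (h * Real.log p) * wd δ p =
      ∑ n ∈ Icc z (z + k), pa h n * ((n : ℝ) ^ (-(2 * δ))) := by
    rw [sum_filter_eq]
    refine Finset.sum_congr rfl fun n _ => ?_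
    unfold pa wd
    split_ifs
    · ring
    · ring
  rw [e1]
  have hg : ∀ n m : ℕ, z ≤ n → n ≤ m → ((m : ℝ) ^ (-(2 * δ))) ≤ ((n : ℝ) ^ (-(2 * δ))) := by
    intro n m hn hm
    have hn' : (0 : ℝ) < n := by
      have : (z : ℝ) ≤ n := by exact_mod_cast hn
      linarith
    exact Real.rpow_le_rpow_of_nonpos hn' (by exact_mod_cast hm) (by linarith)
  have hg0 : ∀ n : ℕ, z ≤ n → 0 ≤ ((n : ℝ) ^ (-(2 * δ))) := fun n _ =>
    Real.rpow_nonneg (Nat.cast_nonneg n) _
  have hg1 : ((z : ℝ) ^ (-(2 * δ))) ≤ 1 :=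
    Real.rpow_le_one_of_one_le_of_nonpos (by linarith) (by linarith)
  have hCA2 : CA / Real.log z ^ 2 ≤ 4 * CA := by
    rw [div_le_iff₀ (by positivity)]
    nlinarith [mul_nonneg hCA.le (show 0 ≤ 4 * Real.log z ^ 2 - 1 by nlinarith)]
  constructor
  · intro hc
    have hM : (0 : ℝ) ≤ (55 + 4 * CA) / (h * Real.log z) := by positivity
    refine weight' (pa h) (fun n => (n : ℝ) ^ (-(2 * δ))) z _ hM k hg hg0 hg1 fun j => ?_
    have h2 := hAk j
    have h3 := (abs_le.mp (sum_pos h0 h1 z hz j)).2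
    have h4 : CA / Real.log z ^ 2 ≤ 2 * CA / (h * Real.log z) := by
      rw [div_le_div_iff₀ (by positivity) (by positivity)]
      have h5 : h * Real.log z ≤ 2 * Real.log z ^ 2 := by nlinarith
      nlinarith
    have h5 : (55 + 4 * CA) / (h * Real.log z) = 22 / (h * Real.log z) +
        2 * CA / (h * Real.log z) + (33 + 2 * CA) / (h * Real.log z) := by ring
    have h6 : 0 ≤ (33 + 2 * CA) / (h * Real.log z) := by positivity
    linarith
  · intro hc
    have hlog : 0 ≤ Real.log (1 / (h * Real.log z)) := by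
      apply Real.log_nonneg
      rw [le_div_iff₀ (by positivity)]
      linarith
    have hM : (0 : ℝ) ≤ Real.log (1 / (h * Real.log z)) + (55 + 4 * CA) := by positivity
    refine weight' (pa h) (fun n => (n : ℝ) ^ (-(2 * δ))) z _ hM k hg hg0 hg1 fun j => ?_
    have h2 := hAk j
    have h3 := ph_case2 h0 h1 z hz j hc
    linarith

theorem mer : Pool.Agent.N748.GC.S_MER := by
  obtain ⟨CA, hCA, hA⟩ := abelA
  refine ⟨2 * CA + 17, by positivity, ?_⟩
  intro z x hz hzx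
  have hz' : (2 : ℝ) ≤ z := by exact_mod_cast hz
  have hl := log_half hz'
  have hL0 : 0 < Real.log z := by linarith
  have hzY : z ≤ ⌊x⌋₊ := Nat.le_floor hzx
  obtain ⟨k, hk⟩ : ∃ k, ⌊x⌋₊ = z + k := ⟨⌊x⌋₊ - z, by omega⟩
  have hY1 : ((z + k : ℕ) : ℝ) ≤ x := by rw [← hk]; exact Nat.floor_le (by linarith)
  have hY2 : x < ((z + k : ℕ) : ℝ) + 1 := by rw [← hk]; exact Nat.lt_floor_add_one x
  rw [hk]
  have e1 : ∑ p ∈ (Icc z (z + k)).filter Nat.Prime, 1 / (p : ℝ) = ∑ n ∈ Icc z (z + k), pa 0 n := by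
    rw [sum_filter_eq]
    refine Finset.sum_congr rfl fun n _ => ?_
    unfold pa
    simp
  rw [e1]
  have h1 := hA 0 le_rfl zero_le_one z hz k
  have h2 := sum_zero z hz k
  have hzk : (z : ℝ) ≤ ((z + k : ℕ) : ℝ) := by exact_mod_cast Nat.le_add_right z k
  have hlY : Real.log z ≤ Real.log ((z + k : ℕ) : ℝ) := Real.log_le_log (by linarith) hzk
  have hlx : Real.log ((z + k : ℕ) : ℝ) ≤ Real.log x := Real.log_le_log (by linarith) hY1
  have hlx2 : Real.log x ≤ Real.log (((z + k : ℕ) : ℝ) + 1) := Real.log_le_log (by linarith) hY2.le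
  have h3 : Real.log (Real.log x / Real.log z) = Real.log (Real.log x) - Real.log (Real.log z) :=
    Real.log_div (by linarith) (by linarith)
  have h4 : 0 ≤ Real.log (Real.log (((z + k : ℕ) : ℝ) + 1)) - Real.log (Real.log x) := by
    have := Real.log_le_log (by linarith : 0 < Real.log x) hlx2
    linarith
  have h5 : Real.log (Real.log (((z + k : ℕ) : ℝ) + 1)) - Real.log (Real.log x) ≤
      1 / Real.log z := by
    rw [← Real.log_div (by linarith) (by linarith)]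
    refine (Real.log_le_sub_one_of_pos (by
      have : 0 < Real.log x := by linarith
      have : 0 < Real.log (((z + k : ℕ) : ℝ) + 1) := by linarith
      positivity)).trans ?_
    rw [div_sub_one (by linarith), div_le_div_iff₀ (by linarith) hL0]
    have h6 : Real.log (((z + k : ℕ) : ℝ) + 1) - Real.log ((z + k : ℕ) : ℝ) ≤ 1 := by
      rw [← Real.log_div (by linarith) (by linarith)]
      refine (Real.log_le_sub_one_of_pos (by
        have : (0:ℝ) < ((z + k : ℕ) : ℝ) := by linarith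
        positivity)).trans ?_
      rw [div_sub_one (by linarith)]
      rw [div_le_iff₀ (by linarith)]
      linarith
    nlinarith
  have h6 : CA / Real.log z ^ 2 ≤ 2 * CA / Real.log z := by
    rw [div_le_div_iff₀ (by positivity) (by positivity)]
    have h7 : Real.log z ≤ 2 * Real.log z ^ 2 := by nlinarith
    nlinarith
  have h7 : (2 * CA + 17) / Real.log z = 2 * CA / Real.log z + 16 / Real.log z +
      1 / Real.log z := by ring
  rw [h3, h7]
  rw [abs_le] at h1 h2 ⊢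
  constructor <;> linarith [h1.1, h1.2, h2.1, h2.2]

end Pool.Agent.N748.GC.COS
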