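import Pool.Agent.N748.GC.L0

set_option autoImplicit false

/-!
# Local moments near the critical line and multiplicative chaos: statements of the parts
-/

namespace Pool.Agent.N748.GC

open Finset Filter MeasureTheory MonoidAlgebra Topology Complex

/-- (NN) the norm square is multiplicative for polynomials supported on integers composed of
primes of two disjoint sets -/
def S_NN : Prop := ∀ (δ : ℝ) (I J : Finset ℕ), Disjoint I J → ∀ f g : PC,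
  (∀ n ∈ f.coeff.support, Mo I n) → (∀ n ∈ g.coeff.support, Mo J n) →
  nn δ (f * g) = nn δ f * nn δ g

/-- (BLK) one block of primes, two points -/
def S_BLK : Prop := ∀ c : ℝ, 0 ≤ c → ∃ C : ℝ, 0 ≤ C ∧ ∀ (I : Finset ℕ) (R : ℕ) (δ h a b : ℝ),
  (∀ p ∈ I, p.Prime) → ∑ p ∈ I, 1 / (p:ℝ) ≤ c → 1 ≤ R → 0 ≤ δ → 0 ≤ a → a ≤ 2 → 0 ≤ b → b ≤ 2 →
  nn δ (NKc (20 * R) a (xc I) * sf h (NKc (20 * R) b (xc I))) ≤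
    Real.exp (∑ p ∈ I, (a ^ 2 + b ^ 2 + 2 * a * b * Real.cos (h * Real.log p)) * wd δ p) *
      (1 + C * Real.exp (-(R:ℝ))) ^ 2

/-- (MV) the mean square with a character of the small primes -/
def S_MV : Prop := ∀ (P : Finset ℕ), (∀ p ∈ P, p.Prime) → ∀ (N X1 X2 δ : ℝ) (D : PC) (u v : ℕ), Cop P N D →
  0 ≤ δ → X1 ≤ X2 → Mo P u → Mo P v → u.Coprime v →
  ‖(∫ t in X1..X2, ((‖ec (1 / 2 + δ + t * I) D‖ ^ 2 : ℝ) : ℂ) * chr u v t) -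
      (if u = v then (((X2 - X1) * nn δ D : ℝ) : ℂ) else 0)‖ ≤ 8 * u * v * N * lc1 D ^ 2

/-- (EQ) equidistribution of the small phases with respect to the square of a polynomial of small length
over the large primes -/
def S_EQ : Prop := ∀ (P : Finset ℕ), (∀ p ∈ P, p.Prime) → ∀ (K : Type) [TopologicalSpace K] [CompactSpace K]
  (F : K × UnitAddTorus P → ℝ), Continuous F → ∀ ε : ℝ, 0 < ε → ∀ᶠ X : ℝ in atTop, ∀ X1 : ℝ, 0 ≤ X1 → X1 ≤ X →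
  ∀ (k : K) (δ : ℝ), 0 ≤ δ → ∀ D : PC, Cop P (X ^ ((1:ℝ) / 8)) D → lc1 D ≤ X ^ ((1:ℝ) / 8) →
  |(∫ t in X1..X, F (k, pt P t) * ‖ec (1 / 2 + δ + t * I) D‖ ^ 2) -
      (X - X1) * (∫ x, F (k, x) ∂(HP P)) * nn δ D| ≤ ε * (X * nn δ D + X ^ ((9:ℝ) / 10))

/-- (COS) cosine sums over primes -/
def S_COS : Prop := ∃ C : ℝ, 0 < C ∧ ∀ (z : ℕ) (δ y h : ℝ), 2 ≤ z → 0 ≤ δ → (z:ℝ) ≤ y → 0 < h → h ≤ 1 →
  (1 ≤ h * Real.log z →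
    ∑ p ∈ (Icc z ⌊y⌋₊).filter Nat.Prime, Real.cos (h * Real.log p) * wd δ p ≤ C / (h * Real.log z)) ∧
  (h * Real.log z ≤ 1 →
    ∑ p ∈ (Icc z ⌊y⌋₊).filter Nat.Prime, Real.cos (h * Real.log p) * wd δ p ≤
      Real.log (1 / (h * Real.log z)) + C)

/-- (MER) Mertens -/
def S_MER : Prop := ∃ C : ℝ, 0 < C ∧ ∀ (z : ℕ) (x : ℝ), 2 ≤ z → (z:ℝ) ≤ x →
  |∑ p ∈ (Icc z ⌊x⌋₊).filter Nat.Prime, 1 / (p:ℝ) - Real.log (Real.log x / Real.log z)| ≤ C / Real.log z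

/-- (MOM) moments of the density -/
def S_MOM : Prop := ∀ α : ℝ, 0 < α → α ≤ 1 → ∀ s : ℝ, 1 ≤ s → s ≤ 2 → ∃ C : ℝ, 0 < C ∧ ∀ z : ℕ, 3 ≤ z →
  ∫ x, M0 α (Sm z) x ^ s ∂(HP (Sm z)) ≤ C * Real.log z ^ (α ^ 2 * s * (s - 1))

/-- (CUT) the cut-off is harmless -/
def S_CUT : Prop := ∀ α : ℝ, 0 < α → α < 1 → ∀ b : ℝ, α ^ 2 < b → ∀ ε : ℝ, 0 < ε → ∃ z0 : ℕ, ∀ z ≥ z0,
  ∫ x, (M0 α (Sm z) x - Mc α b z x) ∂(HP (Sm z)) ≤ ε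

/-- (ED) the expectation of the square root of the quadratic functional -/
def S_ED : Prop := ∀ α : ℝ, 0 < α → α < 1 → ∀ b : ℝ, α ^ 2 < b → b < 1 → ∀ κ : ℝ, 0 < κ → κ < 1 - α ^ 2 →
  ∀ ζ : ℝ, 0 < ζ → ζ < 1 → ∀ C : ℝ, 0 ≤ C → ∀ ε : ℝ, 0 < ε → ∃ z0 : ℕ, ∀ z ≥ z0, ∀ e : ℝ, 0 ≤ e → e ≤ 1 →
  ∫ x, Real.sqrt (QK α b z (Kz C ζ κ e z) x) ∂(HP (Sm z)) ≤ ε + Real.sqrt e

/-- (QC) continuity of the quadratic functional -/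
def S_QC : Prop := ∀ α : ℝ, 0 < α → ∀ b : ℝ, ∀ z : ℕ, 3 ≤ z → ∀ C ζ κ e : ℝ, 0 < ζ → ζ < 1 →
  Continuous (QK α b z (Kz C ζ κ e z))

/-- (ERG) unique ergodicity of the linear flow -/
def S_ERG : Prop := ∀ (P : Finset ℕ), (∀ p ∈ P, p.Prime) → ∀ F : UnitAddTorus P → ℝ, Continuous F →
  ∀ ε : ℝ, 0 < ε → ∃ H0 : ℝ, 0 < H0 ∧ ∀ H ≥ H0, ∀ t : ℝ,
  |(∫ u in t..(t + H), F (pt P u)) / H - ∫ x, F x ∂(HP P)| ≤ ε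

/-- (CORE) closeness to the random Euler product in unit windows -/
def S_CORE : Prop := ∀ α : ℝ, 0 < α → α < 1 → ∀ ε : ℝ, 0 < ε → ∃ z0 : ℕ, ∀ z ≥ z0, ∃ lam δ0 : ℝ, 1 ≤ lam ∧ 0 < δ0 ∧
  δ0 ≤ 1 / 16 ∧ ∀ᶠ X : ℝ in atTop, ∀ δ : ℝ, lam / Real.log X ≤ δ → δ ≤ δ0 → ∀ f : ℝ → ℝ, Measurable f →
  (∀ x, |f x| ≤ 1) →
  ∫ t in (0:ℝ)..X, |∫ x in (0:ℝ)..1, f x * (Zn α δ (t + x) - mz α z (t + x))| ≤ ε * X

/-- (WIN) moments in almost all windows -/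
def S_WIN : Prop := ∀ α : ℝ, 0 < α → α < 1 → ∀ δ : ℝ → ℝ, Pd δ → ∀ H : ℝ → ℝ,
  Tendsto H atTop atTop → (∀ᶠ T in atTop, H T ≤ T) →
  Tendsto (fun T : ℝ => (1 / T) * ∫ t in (0:ℝ)..T, |(1 / H T) * (∫ u in t..(t + H T), Zn α (δ T) u) - 1|)
    atTop (𝓝 0)

/-- the limit property of the masses: `Λ f` is the `L¹`-limit of the integrals of `f` against the normalised
random Euler products -/
def Lim1 (α : ℝ) (Λ : (ℝ → ℝ) → Om → ℝ) : Prop :=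
  ∀ f : ℝ → ℝ, Continuous f → Measurable (Λ f) ∧ Integrable (Λ f) PO ∧
    ∫ w, Λ f w ∂PO = ∫ x in (0:ℝ)..1, f x ∧
    Tendsto (fun z : ℕ => ∫ w, |(∫ x in (0:ℝ)..1, f x * rz α z w x) - Λ f w| ∂PO) atTop (𝓝 0)

/-- (RZ) the random Euler product on the infinite torus and on the finite torus -/
def S_RZ : Prop := ∀ α : ℝ, 0 < α → ∀ z : ℕ, ∀ (w : Om) (u : ℝ),
  rz α z w u = M0 α (Sm z) ((fun p : Sm z => w p) + pt (Sm z) u)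

/-- (LAM) existence of the masses -/
def S_LAM : Prop := ∀ α : ℝ, 0 < α → α < 1 → ∃ Λ : (ℝ → ℝ) → Om → ℝ, Lim1 α Λ

/-- (NC) the total mass is not constant -/
def S_NC : Prop := ∀ α : ℝ, 0 < α → α < 1 → ∀ Λ : (ℝ → ℝ) → Om → ℝ, Lim1 α Λ →
  ¬ ∃ c : ℝ, ∀ᵐ w ∂PO, Λ (fun _ => 1) w = c

/-- (DIS) convergence in distribution of the local moments -/
def S_DIS : Prop := ∀ α : ℝ, 0 < α → α < 1 → ∀ Λ : (ℝ → ℝ) → Om → ℝ, Lim1 α Λ →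
  ∀ δ : ℝ → ℝ, Pd δ → ∀ (n : ℕ) (f : Fin n → ℝ → ℝ), (∀ j, Continuous (f j)) →
    ∀ G : BoundedContinuousFunction (Fin n → ℝ) ℝ,
    Tendsto (fun T : ℝ => (1 / T) * ∫ t in (0:ℝ)..T, G fun j => ∫ x in (0:ℝ)..1, f j x * Zn α (δ T) (t + x))
      atTop (𝓝 (∫ w, G (fun j => Λ (f j) w) ∂PO))

/-- (TAIL) the primes beyond `exp (1/(4δ))` -/
def S_TAIL : Prop := ∃ C : ℝ, 0 < C ∧ ∀ (z : ℕ) (δ y : ℝ), 2 ≤ z → 0 < δ → 1 / 4 ≤ δ * Real.log z →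
  ∑ p ∈ (Icc z ⌊y⌋₊).filter Nat.Prime, wd δ p ≤ C

/-- the beginning of the window -/
noncomputable def Xl (X : ℝ) : ℝ := (2 * (X + 1)) ^ ((4:ℝ) / 5)

/-- (TS) weights `W X δ u` with good sets (indicator functions `g X δ u`), equidistributed with respect to the
primes below `z`, and with a bound for the two-point functions on the good sets -/
structure TS (C ζ κ e lam δ0 : ℝ) (z : ℕ) (W g : ℝ → ℝ → ℝ → ℝ) : Prop where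
  W0 : ∀ X δ u, 0 ≤ W X δ u
  Wc : ∀ X δ, Continuous (W X δ)
  g0 : ∀ X δ u, 0 ≤ g X δ u
  g1 : ∀ X δ u, g X δ u ≤ 1
  gm : ∀ X δ, Measurable (g X δ)
  zero : ∀ (K : Type) [TopologicalSpace K] [CompactSpace K] (F : K × UnitAddTorus (Sm z) → ℝ), Continuous F →
    ∀ η : ℝ, 0 < η → ∀ᶠ X : ℝ in atTop, ∀ k : K,
    |(∫ t in Xl X..X, F (k, pt (Sm z) t)) - X * ∫ y, F (k, y) ∂(HP (Sm z))| ≤ X * η
  one : ∀ (K : Type) [TopologicalSpace K] [CompactSpace K] (F : K × UnitAddTorus (Sm z) → ℝ), Continuous F →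
    (∀ q, 0 ≤ F q) → ∀ η : ℝ, 0 < η → ∀ᶠ X : ℝ in atTop, ∀ δ : ℝ, lam / Real.log X ≤ δ → δ ≤ δ0 →
    ∀ k : K, ∀ x : ℝ, 0 ≤ x → x ≤ 1 →
    |(∫ t in Xl X..X, F (k, pt (Sm z) t) * W X δ (t + x)) - X * ∫ y, F (k, y) ∂(HP (Sm z))| ≤
      X * (e * (∫ y, F (k, y) ∂(HP (Sm z))) + η)
  bad : ∀ (K : Type) [TopologicalSpace K] [CompactSpace K] (F : K × UnitAddTorus (Sm z) → ℝ), Continuous F →
    (∀ q, 0 ≤ F q) → ∀ η : ℝ, 0 < η → ∀ᶠ X : ℝ in atTop, ∀ δ : ℝ, lam / Real.log X ≤ δ → δ ≤ δ0 →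
    ∀ k : K, ∀ x : ℝ, 0 ≤ x → x ≤ 1 →
    ∫ t in Xl X..X, F (k, pt (Sm z) t) * (W X δ (t + x) * (1 - g X δ (t + x))) ≤
      X * (e * (∫ y, F (k, y) ∂(HP (Sm z))) + η)
  two : ∀ (K : Type) [TopologicalSpace K] [CompactSpace K] (F : K × UnitAddTorus (Sm z) → ℝ), Continuous F →
    (∀ q, 0 ≤ F q) → ∀ η : ℝ, 0 < η → ∀ᶠ X : ℝ in atTop, ∀ δ : ℝ, lam / Real.log X ≤ δ → δ ≤ δ0 →
    ∀ k : K, ∀ x y : ℝ, 0 ≤ x → x ≤ 1 → 0 ≤ y → y ≤ 1 → x ≠ y →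
    ∫ t in Xl X..X, F (k, pt (Sm z) t) * ((W X δ (t + x) * g X δ (t + x)) * (W X δ (t + y) * g X δ (t + y))) ≤
      X * (((∫ w, F (k, w) ∂(HP (Sm z))) + η) * (1 + Kz C ζ κ e z (x - y)))

/-- (ASM) from the two-point bounds to the windows -/
def S_ASM : Prop := ∀ (α b C ζ κ e lam δ0 : ℝ) (z : ℕ) (W g : ℝ → ℝ → ℝ → ℝ), 0 < α → 3 ≤ z → 0 ≤ C → 0 < ζ → ζ < 1 →
  0 ≤ e → e ≤ 1 → TS C ζ κ e lam δ0 z W g → ∀ ε : ℝ, 0 < ε →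
  ∀ᶠ X : ℝ in atTop, ∀ δ : ℝ, lam / Real.log X ≤ δ → δ ≤ δ0 → ∀ f : ℝ → ℝ, Measurable f → (∀ x, 0 ≤ f x) →
  (∀ x, f x ≤ 1) →
  ∫ t in Xl X..X, |∫ x in (0:ℝ)..1, f x * (mz α z (t + x) * (W X δ (t + x) - 1))| ≤
    X * (e + 3 * (∫ x, (M0 α (Sm z) x - Mc α b z x) ∂(HP (Sm z))) +
      (∫ x, Real.sqrt (QK α b z (Kz (C + 4) ζ κ (5 * e) z) x) ∂(HP (Sm z))) + ε)

end Pool.Agent.N748.GC
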