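import Mathlib
import Pool.Agent.N748.GC.Stm

set_option autoImplicit false

/-!
# GC/ED: the cut-off and the square root of the quadratic functional
-/

namespace Pool.Agent.N748.GC.ED

open Finset Filter MeasureTheory MonoidAlgebra Topology Complex Pool.Agent.N748.GC

/-! ### real analysis -/

lemma young {t η s : ℝ} (ht : 0 ≤ t) (hη : 0 < η) (hs : 1 ≤ s) :
    t ^ (1 / s) ≤ η + η ^ (1 - s) * t := by
  have hs0 : 0 < s := by linarith
  rcases le_or_gt t (η ^ s) with h | h
  · have h1 : t ^ (1 / s) ≤ (η ^ s) ^ (1 / s) := Real.rpow_le_rpow ht h (by positivity)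
    rw [← Real.rpow_mul hη.le, mul_one_div_cancel hs0.ne', Real.rpow_one] at h1
    have : 0 ≤ η ^ (1 - s) * t := by positivity
    linarith
  · have htpos : 0 < t := lt_trans (by positivity) h
    have h1 : t ^ (1 / s) = t ^ (1 / s - 1) * t := by
      rw [← Real.rpow_add_one htpos.ne']; congr 1; ring
    have h2 : t ^ (1 / s - 1) ≤ (η ^ s) ^ (1 / s - 1) := by
      apply Real.rpow_le_rpow_of_nonpos (by positivity) h.le
      rw [sub_nonpos, div_le_one hs0]; exact hs
    rw [← Real.rpow_mul hη.le] at h2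
    have h3 : s * (1 / s - 1) = 1 - s := by field_simp
    rw [h3] at h2
    rw [h1]
    have := mul_le_mul_of_nonneg_right h2 ht
    linarith

lemma rpow_sum_le {ι : Type*} (S : Finset ι) (a : ι → ℝ) (ha : ∀ i, 0 ≤ a i) {q : ℝ} (hq0 : 0 ≤ q)
    (hq1 : q ≤ 1) (hq : 0 < q) : (∑ i ∈ S, a i) ^ q ≤ ∑ i ∈ S, a i ^ q := by
  classical
  induction S using Finset.induction_on with
  | empty => simp [Real.zero_rpow hq.ne']
  | insert i S hi ih =>
    rw [Finset.sum_insert hi, Finset.sum_insert hi]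
    refine (Real.rpow_add_le_add_rpow (ha i) (Finset.sum_nonneg fun j _ => ha j) hq0 hq1).trans ?_
    linarith

/-- Jensen's inequality on an interval. -/
lemma jensen_int {g : ℝ → ℝ} (hg : Continuous g) (h0 : ∀ u, 0 ≤ g u) {a b s : ℝ} (hab : a < b)
    (hs : 1 ≤ s) : (∫ u in a..b, g u) ^ s ≤ (b - a) ^ (s - 1) * ∫ u in a..b, g u ^ s := by
  have hba : 0 < b - a := by linarith
  set t : ℝ := (∫ u in a..b, g u) / (b - a) with ht
  have hI0 : 0 ≤ ∫ u in a..b, g u := intervalIntegral.integral_nonneg hab.le fun u _ => h0 u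
  have ht0 : 0 ≤ t := div_nonneg hI0 hba.le
  -- tangent line
  have htan : ∀ x : ℝ, 0 ≤ x → t ^ s + s * t ^ (s - 1) * (x - t) ≤ x ^ s := by
    intro x hx
    rcases ht0.eq_or_lt with h | h
    · rw [← h]
      rcases hs.eq_or_lt with h' | h'
      · rw [← h']; simp
      · rw [Real.zero_rpow (by linarith), Real.zero_rpow (by linarith)]
        simp; positivity
    · have hb := one_add_mul_self_le_rpow_one_add (s := x / t - 1) (by
        have : 0 ≤ x / t := by positivity
        linarith) hs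
      have e1 : 1 + (x / t - 1) = x / t := by ring
      rw [e1, Real.div_rpow hx h.le, le_div_iff₀ (by positivity)] at hb
      refine le_trans (le_of_eq ?_) hb
      have e2 : t ^ s = t ^ (s - 1) * t := by
        rw [← Real.rpow_add_one h.ne']; congr 1; ring
      rw [e2]
      field_simp
  have hgs : Continuous fun u => g u ^ s := hg.rpow_const fun u => Or.inr (by linarith)
  have h1 : ∫ u in a..b, (t ^ s + s * t ^ (s - 1) * (g u - t)) ≤ ∫ u in a..b, g u ^ s := by
    refine intervalIntegral.integral_mono_on hab.le ?_ (hgs.intervalIntegrable _ _)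
      fun u _ => htan _ (h0 u)
    exact (continuous_const.add (continuous_const.mul (hg.sub continuous_const))).intervalIntegrable
      _ _
  have h2 : ∫ u in a..b, (t ^ s + s * t ^ (s - 1) * (g u - t)) = (b - a) * t ^ s := by
    rw [intervalIntegral.integral_add (by simp) (by
      exact (continuous_const.mul (hg.sub continuous_const)).intervalIntegrable _ _),
      intervalIntegral.integral_const, intervalIntegral.integral_const_mul,
      intervalIntegral.integral_sub (hg.intervalIntegrable _ _) (by simp),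
      intervalIntegral.integral_const]
    have : (∫ u in a..b, g u) = (b - a) * t := by rw [ht]; field_simp
    rw [this]
    simp
  rw [h2] at h1
  have h3 : (∫ u in a..b, g u) = (b - a) * t := by rw [ht]; field_simp
  rw [h3, Real.mul_rpow hba.le ht0]
  have h4 : (b - a) ^ s = (b - a) ^ (s - 1) * (b - a) := by
    rw [← Real.rpow_add_one hba.ne']; congr 1; ring
  rw [h4, mul_assoc]
  exact mul_le_mul_of_nonneg_left h1 (by positivity)

/-- the cells -/
lemma cells {g : ℝ → ℝ} (hg : Continuous g) (h0 : ∀ u, 0 ≤ g u) {n : ℕ} (hn : 0 < n) {ρ : ℝ}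
    (hρ0 : 0 ≤ ρ) (hρ : ρ ≤ 1 / n) :
    ∫ u in (0:ℝ)..1, g u * (∫ v in (u - ρ)..(u + ρ), g v) ≤
      ∑ k ∈ range n, (∫ v in (((k:ℝ) - 1) / n)..(((k:ℝ) + 2) / n), g v) ^ 2 := by
  have hn' : (0:ℝ) < n := by exact_mod_cast hn
  have hint : ∀ a b : ℝ, IntervalIntegrable g volume a b := fun a b => hg.intervalIntegrable a b
  have hw : Continuous fun u : ℝ => ∫ v in (u - ρ)..(u + ρ), g v := by
    have e : (fun u : ℝ => ∫ v in (u - ρ)..(u + ρ), g v) =
        fun u => (∫ v in (0:ℝ)..(u + ρ), g v) - ∫ v in (0:ℝ)..(u - ρ), g v := by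
      funext u
      rw [intervalIntegral.integral_interval_sub_left (hint _ _) (hint _ _)]
    rw [e]
    have hF := intervalIntegral.continuous_primitive (fun a b => hint a b) 0
    exact (hF.comp (continuous_id.add continuous_const)).sub
      (hF.comp (continuous_id.sub continuous_const))
  have hgw : Continuous fun u => g u * (∫ v in (u - ρ)..(u + ρ), g v) := hg.mul hw
  have e1 : ∫ u in (0:ℝ)..1, g u * (∫ v in (u - ρ)..(u + ρ), g v)
      = ∑ k ∈ range n, ∫ u in ((k:ℝ) / n)..(((k + 1 : ℕ):ℝ) / n),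
        g u * (∫ v in (u - ρ)..(u + ρ), g v) := by
    rw [intervalIntegral.sum_integral_adjacent_intervals (a := fun k : ℕ => (k:ℝ) / n)
      (fun k _ => hgw.intervalIntegrable _ _)]
    congr 1
    · simp
    · rw [div_self hn'.ne']
  rw [e1]
  refine Finset.sum_le_sum fun k _ => ?_
  have hk1 : (k:ℝ) / n ≤ ((k + 1 : ℕ):ℝ) / n := by
    refine div_le_div_of_nonneg_right ?_ hn'.le
    push_cast; linarith
  set W := ∫ v in (((k:ℝ) - 1) / n)..(((k:ℝ) + 2) / n), g v with hW
  have hW0 : 0 ≤ W := by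
    refine intervalIntegral.integral_nonneg ?_ fun u _ => h0 u
    exact div_le_div_of_nonneg_right (by linarith) hn'.le
  have hmono : ∀ a b c d : ℝ, c ≤ a → a ≤ b → b ≤ d → ∫ v in a..b, g v ≤ ∫ v in c..d, g v := by
    intro a b c d h1 h2 h3
    exact intervalIntegral.integral_mono_interval h1 h2 h3 (Filter.Eventually.of_forall h0)
      (hint _ _)
  calc ∫ u in ((k:ℝ) / n)..(((k + 1 : ℕ):ℝ) / n), g u * (∫ v in (u - ρ)..(u + ρ), g v)
      ≤ ∫ u in ((k:ℝ) / n)..(((k + 1 : ℕ):ℝ) / n), g u * W := by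
        refine intervalIntegral.integral_mono_on hk1 (hgw.intervalIntegrable _ _)
          ((hg.mul continuous_const).intervalIntegrable _ _) fun u hu => ?_
        refine mul_le_mul_of_nonneg_left (hmono _ _ _ _ ?_ (by linarith) ?_) (h0 u)
        · have : ((k:ℝ) - 1) / n = k / n - 1 / n := by ring
          rw [this]; linarith [hu.1]
        · have : ((k:ℝ) + 2) / n = ((k + 1 : ℕ):ℝ) / n + 1 / n := by push_cast; ring
          rw [this]; linarith [hu.2]
    _ = (∫ u in ((k:ℝ) / n)..(((k + 1 : ℕ):ℝ) / n), g u) * W :=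
        intervalIntegral.integral_mul_const _ _
    _ ≤ W * W := by
        refine mul_le_mul_of_nonneg_right (hmono _ _ _ _ ?_ hk1 ?_) hW0
        · exact div_le_div_of_nonneg_right (by linarith) hn'.le
        · refine div_le_div_of_nonneg_right ?_ hn'.le
          push_cast; linarith
    _ = W ^ 2 := by ring

/-- the singular part of the kernel -/
noncomputable def k0 (L ζ : ℝ) (h : ℝ) : ℝ := if |h| * L ≤ 1 then (|h| * L) ^ (-ζ) else 0

lemma k0_nonneg (L ζ : ℝ) (hL : 0 < L) (h : ℝ) : 0 ≤ k0 L ζ h := by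
  unfold k0
  split_ifs
  · positivity
  · exact le_rfl

lemma integral_k0 {L ζ : ℝ} (hL : 0 < L) (hζ1 : ζ < 1) :
    ∫ h, k0 L ζ h = 2 / (L * (1 - ζ)) := by
  have e1 : ∫ h, k0 L ζ h
      = 2 * ∫ r in Set.Ioi (0:ℝ), (if r * L ≤ 1 then (r * L) ^ (-ζ) else 0) :=
    integral_comp_abs (f := fun r : ℝ => if r * L ≤ 1 then (r * L) ^ (-ζ) else 0)
  rw [e1]
  have e2 : ∫ r in Set.Ioi (0:ℝ), (if r * L ≤ 1 then (r * L) ^ (-ζ) else 0)
      = ∫ r in (0:ℝ)..(1 / L), r ^ (-ζ) * L ^ (-ζ) := by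
    have e3 : (fun r : ℝ => if r * L ≤ 1 then (r * L) ^ (-ζ) else 0)
        = Set.indicator (Set.Iic (1 / L)) fun r => (r * L) ^ (-ζ) := by
      funext r
      by_cases h : r * L ≤ 1
      · rw [if_pos h, Set.indicator_of_mem]
        rw [Set.mem_Iic, le_div_iff₀ hL]; exact h
      · rw [if_neg h, Set.indicator_of_notMem]
        rw [Set.mem_Iic, le_div_iff₀ hL]; exact h
    rw [e3, setIntegral_indicator measurableSet_Iic, Set.Ioi_inter_Iic,
      intervalIntegral.integral_of_le (by positivity)]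
    refine setIntegral_congr_fun measurableSet_Ioc fun r hr => ?_
    exact Real.mul_rpow hr.1.le hL.le
  rw [e2, intervalIntegral.integral_mul_const, integral_rpow (Or.inl (by linarith)),
    Real.zero_rpow (by linarith), sub_zero]
  have h1 : (1 / L) ^ (-ζ + 1) * L ^ (-ζ) = 1 / L := by
    rw [one_div, Real.inv_rpow hL.le, ← Real.rpow_neg hL.le, ← Real.rpow_add hL]
    have : -(-ζ + 1) + -ζ = -1 := by ring
    rw [this, Real.rpow_neg_one]
  have h2 : -ζ + 1 = 1 - ζ := by ring
  rw [h2] at h1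
  rw [h2, div_mul_eq_mul_div, h1]
  have h3 : (1 - ζ) ≠ 0 := by linarith
  field_simp

lemma integrable_k0 {L ζ : ℝ} (hL : 0 < L) (hζ1 : ζ < 1) : Integrable (k0 L ζ) := by
  by_contra hcon
  have h := integral_undef hcon
  rw [integral_k0 hL hζ1] at h
  have h3 : 0 < 1 - ζ := by linarith
  have : 0 < 2 / (L * (1 - ζ)) := by positivity
  linarith

/-- the quadratic functional for a general kernel -/
lemma quad_le {f g K : ℝ → ℝ} {Bd C e ρ L ζ : ℝ} (hg : Continuous g)
    (hf0 : ∀ u, 0 ≤ f u) (hfg : ∀ u, f u ≤ g u) (hfB : ∀ u, f u ≤ Bd) (hK0 : ∀ h, 0 ≤ K h)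
    (hL : 0 < L) (hζ1 : ζ < 1) (hC : 0 ≤ C) (he : 0 ≤ e) (hρ : 0 ≤ ρ)
    (hK : ∀ h, K h ≤ C * k0 L ζ h + (if |h| ≤ ρ then C else 0) + e) :
    ∫ u in (0:ℝ)..1, ∫ v in (0:ℝ)..1, f u * f v * K (u - v) ≤
      Bd * C * (2 / (L * (1 - ζ))) * (∫ u in (0:ℝ)..1, g u)
        + C * (∫ u in (0:ℝ)..1, g u * ∫ v in (u - ρ)..(u + ρ), g v)
        + e * (∫ u in (0:ℝ)..1, g u) ^ 2 := by
  have hg0 : ∀ u, 0 ≤ g u := fun u => (hf0 u).trans (hfg u)
  have hBd : 0 ≤ Bd := (hf0 0).trans (hfB 0)
  have hint : ∀ a b : ℝ, IntervalIntegrable g volume a b := fun a b => hg.intervalIntegrable a b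
  have hw : Continuous fun u : ℝ => ∫ v in (u - ρ)..(u + ρ), g v := by
    have e : (fun u : ℝ => ∫ v in (u - ρ)..(u + ρ), g v) =
        fun u => (∫ v in (0:ℝ)..(u + ρ), g v) - ∫ v in (0:ℝ)..(u - ρ), g v := by
      funext u
      rw [intervalIntegral.integral_interval_sub_left (hint _ _) (hint _ _)]
    rw [e]
    have hF := intervalIntegral.continuous_primitive (fun a b => hint a b) 0
    exact (hF.comp (continuous_id.add continuous_const)).sub
      (hF.comp (continuous_id.sub continuous_const))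
  set G := ∫ u in (0:ℝ)..1, g u with hG
  have hG0 : 0 ≤ G := intervalIntegral.integral_nonneg (by norm_num) fun u _ => hg0 u
  set κ0 : ℝ := 2 / (L * (1 - ζ)) with hκ0
  have hκ0' : 0 ≤ κ0 := by
    have : 0 < 1 - ζ := by linarith
    positivity
  have hk0i := integrable_k0 hL hζ1
  -- inner bound
  have hinner : ∀ u, ∫ v in (0:ℝ)..1, f u * f v * K (u - v)
      ≤ g u * (Bd * C * κ0 + C * (∫ v in (u - ρ)..(u + ρ), g v) + e * G) := by
    intro u
    rw [intervalIntegral.integral_of_le (by norm_num)]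
    have i1 : IntegrableOn (fun v => Bd * C * k0 L ζ (u - v)) (Set.Ioc (0:ℝ) 1) := by
      exact ((hk0i.comp_sub_left u).const_mul _).integrableOn
    have i2 : IntegrableOn (fun v => C * Set.indicator (Set.Icc (u - ρ) (u + ρ)) g v)
        (Set.Ioc (0:ℝ) 1) := by
      refine Integrable.const_mul ?_ _
      exact ((hg.integrableOn_Icc).integrable_indicator measurableSet_Icc).integrableOn
    have i3 : IntegrableOn (fun v => e * g v) (Set.Ioc (0:ℝ) 1) :=
      ((hg.integrableOn_Ioc).const_mul _)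
    have i12 : IntegrableOn (fun v => Bd * C * k0 L ζ (u - v)
        + C * Set.indicator (Set.Icc (u - ρ) (u + ρ)) g v) (Set.Ioc (0:ℝ) 1) := i1.add i2
    have i123 : IntegrableOn (fun v => Bd * C * k0 L ζ (u - v)
        + C * Set.indicator (Set.Icc (u - ρ) (u + ρ)) g v + e * g v) (Set.Ioc (0:ℝ) 1) :=
      i12.add i3
    have hpt : ∀ v, f u * f v * K (u - v) ≤ g u * (Bd * C * k0 L ζ (u - v)
        + C * Set.indicator (Set.Icc (u - ρ) (u + ρ)) g v + e * g v) := by
      intro v
      have hv := hK (u - v)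
      have hk := k0_nonneg L ζ hL (u - v)
      have hind : (if |u - v| ≤ ρ then C else 0) * f v
          ≤ C * Set.indicator (Set.Icc (u - ρ) (u + ρ)) g v := by
        by_cases hc : |u - v| ≤ ρ
        · rw [if_pos hc, Set.indicator_of_mem]
          · exact mul_le_mul_of_nonneg_left (hfg v) hC
          · rw [abs_le] at hc
            exact ⟨by linarith [hc.2], by linarith [hc.1]⟩
        · rw [if_neg hc, zero_mul]
          exact mul_nonneg hC (Set.indicator_nonneg (fun x _ => hg0 x) v)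
      have h1 : f v * K (u - v) ≤ Bd * C * k0 L ζ (u - v)
        + C * Set.indicator (Set.Icc (u - ρ) (u + ρ)) g v + e * g v := by
        calc f v * K (u - v) ≤ f v * (C * k0 L ζ (u - v) + (if |u - v| ≤ ρ then C else 0) + e) :=
              mul_le_mul_of_nonneg_left hv (hf0 v)
          _ = f v * (C * k0 L ζ (u - v)) + (if |u - v| ≤ ρ then C else 0) * f v + e * f v := by ring
          _ ≤ Bd * (C * k0 L ζ (u - v)) + C * Set.indicator (Set.Icc (u - ρ) (u + ρ)) g v
              + e * g v := by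
            refine add_le_add (add_le_add ?_ hind) (mul_le_mul_of_nonneg_left (hfg v) he)
            exact mul_le_mul_of_nonneg_right (hfB v) (mul_nonneg hC hk)
          _ = _ := by ring
      have h2 : 0 ≤ Bd * C * k0 L ζ (u - v)
        + C * Set.indicator (Set.Icc (u - ρ) (u + ρ)) g v + e * g v :=
        (mul_nonneg (hf0 v) (hK0 _)).trans h1
      calc f u * f v * K (u - v) = f u * (f v * K (u - v)) := by ring
        _ ≤ f u * _ := mul_le_mul_of_nonneg_left h1 (hf0 u)
        _ ≤ g u * _ := mul_le_mul_of_nonneg_right (hfg u) h2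
    calc ∫ v in Set.Ioc (0:ℝ) 1, f u * f v * K (u - v)
        ≤ ∫ v in Set.Ioc (0:ℝ) 1, g u * (Bd * C * k0 L ζ (u - v)
        + C * Set.indicator (Set.Icc (u - ρ) (u + ρ)) g v + e * g v) := by
          refine integral_mono_of_nonneg (Filter.Eventually.of_forall fun v => ?_) ?_
            (Filter.Eventually.of_forall hpt)
          · exact mul_nonneg (mul_nonneg (hf0 u) (hf0 v)) (hK0 _)
          · exact i123.const_mul _
      _ = g u * ((∫ v in Set.Ioc (0:ℝ) 1, Bd * C * k0 L ζ (u - v))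
          + (∫ v in Set.Ioc (0:ℝ) 1, C * Set.indicator (Set.Icc (u - ρ) (u + ρ)) g v)
          + ∫ v in Set.Ioc (0:ℝ) 1, e * g v) := by
          rw [integral_const_mul, integral_add i12 i3, integral_add i1 i2]
      _ ≤ g u * (Bd * C * κ0 + C * (∫ v in (u - ρ)..(u + ρ), g v) + e * G) := by
          refine mul_le_mul_of_nonneg_left ?_ (hg0 u)
          refine add_le_add (add_le_add ?_ ?_) ?_
          · rw [integral_const_mul]
            refine mul_le_mul_of_nonneg_left ?_ (mul_nonneg hBd hC)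
            calc ∫ v in Set.Ioc (0:ℝ) 1, k0 L ζ (u - v) ≤ ∫ v, k0 L ζ (u - v) :=
                  setIntegral_le_integral (hk0i.comp_sub_left u)
                    (Filter.Eventually.of_forall fun v => k0_nonneg L ζ hL _)
              _ = ∫ v, k0 L ζ v := integral_sub_left_eq_self _ _ _
              _ = κ0 := integral_k0 hL hζ1
          · rw [integral_const_mul]
            refine mul_le_mul_of_nonneg_left ?_ hC
            calc ∫ v in Set.Ioc (0:ℝ) 1, Set.indicator (Set.Icc (u - ρ) (u + ρ)) g v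
                ≤ ∫ v, Set.indicator (Set.Icc (u - ρ) (u + ρ)) g v :=
                  setIntegral_le_integral
                    ((hg.integrableOn_Icc).integrable_indicator measurableSet_Icc)
                    (Filter.Eventually.of_forall fun v => Set.indicator_nonneg (fun x _ => hg0 x) v)
              _ = ∫ v in (u - ρ)..(u + ρ), g v := by
                  rw [integral_indicator measurableSet_Icc, integral_Icc_eq_integral_Ioc,
                    intervalIntegral.integral_of_le (by linarith)]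
          · rw [integral_const_mul, hG, intervalIntegral.integral_of_le (by norm_num)]
  have hcont : Continuous fun u => g u * (Bd * C * κ0 + C * (∫ v in (u - ρ)..(u + ρ), g v) + e * G) :=
    hg.mul ((continuous_const.add (continuous_const.mul hw)).add continuous_const)
  calc ∫ u in (0:ℝ)..1, ∫ v in (0:ℝ)..1, f u * f v * K (u - v)
      ≤ ∫ u in (0:ℝ)..1, g u * (Bd * C * κ0 + C * (∫ v in (u - ρ)..(u + ρ), g v) + e * G) := by
        rw [intervalIntegral.integral_of_le (by norm_num), intervalIntegral.integral_of_le (by norm_num)]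
        refine integral_mono_of_nonneg (Filter.Eventually.of_forall fun u => ?_)
          hcont.integrableOn_Ioc (Filter.Eventually.of_forall hinner)
        exact intervalIntegral.integral_nonneg (by norm_num) fun v _ =>
          mul_nonneg (mul_nonneg (hf0 u) (hf0 v)) (hK0 _)
    _ = ∫ u in (0:ℝ)..1, ((Bd * C * κ0 + e * G) * g u
          + C * (g u * (∫ v in (u - ρ)..(u + ρ), g v))) := by
        congr 1; funext u; ring
    _ = (Bd * C * κ0 + e * G) * G + C * (∫ u in (0:ℝ)..1, g u * ∫ v in (u - ρ)..(u + ρ), g v) := by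
        have j1 : IntervalIntegrable (fun u => (Bd * C * κ0 + e * G) * g u) volume 0 1 :=
          (continuous_const.mul hg).intervalIntegrable _ _
        have j2 : IntervalIntegrable (fun u => C * (g u * (∫ v in (u - ρ)..(u + ρ), g v)))
            volume 0 1 := (continuous_const.mul (hg.mul hw)).intervalIntegrable _ _
        rw [intervalIntegral.integral_add j1 j2,
          intervalIntegral.integral_const_mul, intervalIntegral.integral_const_mul]
    _ = _ := by ring

/-! ### the torus -/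

lemma Sm_prime {z p : ℕ} (h : p ∈ Sm z) : p.Prime := (Finset.mem_filter.1 h).2

lemma lw_cont (α : ℝ) {p : ℕ} (hp : p.Prime) : Continuous (lw α p) := by
  have hc : Continuous fun y : UnitAddCircle =>
      ‖1 - (fourier 1 y : ℂ) * (((p:ℝ) ^ (-(1 / 2 : ℝ)) : ℝ) : ℂ)‖ := by
    exact (continuous_const.sub ((fourier 1).continuous.mul continuous_const)).norm
  refine continuous_const.mul (hc.log ?_)
  intro y h0
  rw [norm_eq_zero, sub_eq_zero] at h0
  have h1 : ‖(fourier 1 y : ℂ) * (((p:ℝ) ^ (-(1 / 2 : ℝ)) : ℝ) : ℂ)‖ = 1 := by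
    rw [← h0]; simp
  have h2 : (p:ℝ) ^ (-(1 / 2 : ℝ)) < 1 :=
    Real.rpow_lt_one_of_one_lt_of_neg (by exact_mod_cast hp.one_lt) (by norm_num)
  have h3 : (0:ℝ) ≤ (p:ℝ) ^ (-(1 / 2 : ℝ)) := by positivity
  rw [norm_mul, Complex.norm_real, Real.norm_of_nonneg h3, fourier_apply, Circle.norm_coe,
    one_mul] at h1
  linarith

lemma lwsum_cont (α : ℝ) (z : ℕ) :
    Continuous fun x : UnitAddTorus (Sm z) => ∑ p : Sm z, lw α p (x p) :=
  continuous_finsetSum _ fun p _ => (lw_cont α (Sm_prime p.2)).comp (continuous_apply p)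

lemma M0_cont (α : ℝ) (z : ℕ) : Continuous (M0 α (Sm z)) :=
  (Real.continuous_exp.comp (lwsum_cont α z)).div_const _

lemma E0_pos (α : ℝ) (z : ℕ) : 0 < E0 α (Sm z) := by
  refine Finset.prod_pos fun p _ => ?_
  refine integral_exp_pos ?_
  exact (Real.continuous_exp.comp (lw_cont α (Sm_prime p.2))).integrable_of_hasCompactSupport
    (HasCompactSupport.of_compactSpace _)

lemma M0_pos (α : ℝ) (z : ℕ) (x : UnitAddTorus (Sm z)) : 0 < M0 α (Sm z) x :=
  div_pos (Real.exp_pos _) (E0_pos α z)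

lemma integral_M0 (α : ℝ) (z : ℕ) : ∫ x, M0 α (Sm z) x ∂(HP (Sm z)) = 1 := by
  unfold M0
  rw [integral_div]
  have h : ∫ x : UnitAddTorus (Sm z), Real.exp (∑ p : Sm z, lw α p (x p)) ∂(HP (Sm z))
      = E0 α (Sm z) := by
    simp only [Real.exp_sum]
    unfold HP E0
    exact integral_fintype_prod_eq_prod (𝕜 := ℝ) (fun (p : Sm z) (y : UnitAddCircle) => Real.exp (lw α p y))
  rw [h, div_self (E0_pos α z).ne']

lemma cont_int {P : Finset ℕ} {G : UnitAddTorus P → ℝ} (hG : Continuous G) : Integrable G (HP P) :=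
  hG.integrable_of_hasCompactSupport (HasCompactSupport.of_compactSpace _)

instance HP_inv (P : Finset ℕ) : (HP P).IsAddLeftInvariant := by
  unfold HP; infer_instance

lemma transl {P : Finset ℕ} (G : UnitAddTorus P → ℝ) (y : UnitAddTorus P) :
    ∫ x, G (x + y) ∂(HP P) = ∫ x, G x ∂(HP P) := by
  have : ∀ x, x + y = y + x := fun x => add_comm x y
  simp only [this]
  exact integral_add_left_eq_self G y

lemma pt_cont (P : Finset ℕ) : Continuous (pt P) := by
  refine continuous_pi fun p => ?_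
  unfold pt
  refine (AddCircle.continuous_mk' 1).comp ?_
  fun_prop

lemma shift_cont {P : Finset ℕ} {G : UnitAddTorus P → ℝ} (hG : Continuous G) (x : UnitAddTorus P) :
    Continuous fun u => G (x + pt P u) :=
  hG.comp (continuous_const.add (pt_cont P))

lemma param_cont {P : Finset ℕ} {G : UnitAddTorus P → ℝ} (hG : Continuous G) (a b : ℝ) :
    Continuous fun x => ∫ u in a..b, G (x + pt P u) := by
  refine intervalIntegral.continuous_parametric_intervalIntegral_of_continuous' ?_ a b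
  exact hG.comp (continuous_fst.add ((pt_cont P).comp continuous_snd))

lemma swap {P : Finset ℕ} {G : UnitAddTorus P → ℝ} (hG : Continuous G) {a b : ℝ} (hab : a ≤ b) :
    ∫ x, (∫ u in a..b, G (x + pt P u)) ∂(HP P) = (b - a) * ∫ x, G x ∂(HP P) := by
  have hc : Continuous (Function.uncurry fun (x : UnitAddTorus P) (u : ℝ) => G (x + pt P u)) :=
    hG.comp (continuous_fst.add ((pt_cont P).comp continuous_snd))
  obtain ⟨M, hM⟩ : ∃ M, ∀ x, ‖G x‖ ≤ M := by
    obtain ⟨M, hM⟩ := (isCompact_range hG).isBounded.exists_norm_le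
    exact ⟨M, fun x => hM _ ⟨x, rfl⟩⟩
  simp only [intervalIntegral.integral_of_le hab]
  rw [integral_integral_swap]
  · have : ∀ u : ℝ, ∫ x, G (x + pt P u) ∂(HP P) = ∫ x, G x ∂(HP P) := fun u => transl G _
    simp only [this]
    rw [setIntegral_const, smul_eq_mul, Measure.real, Real.volume_Ioc,
      ENNReal.toReal_ofReal (by linarith)]
  · refine Integrable.of_bound hc.aestronglyMeasurable M ?_
    exact Filter.Eventually.of_forall fun q => hM _


/-! ### the parts -/

lemma exists_s {r : ℝ} (hr : 1 < r) : ∃ s : ℝ, 1 < s ∧ s ≤ 2 ∧ s < r := by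
  refine ⟨min 2 ((1 + r) / 2), lt_min (by norm_num) (by linarith), min_le_left _ _, ?_⟩
  exact (min_le_right _ _).trans_lt (by linarith)

lemma decay (c : ℝ) {a : ℝ} (ha : a < 0) {ε : ℝ} (hε : 0 < ε) :
    ∃ z0 : ℕ, ∀ z ≥ z0, c * Real.log z ^ a ≤ ε := by
  have h1 : Tendsto (fun z : ℕ => c * Real.log z ^ a) atTop (𝓝 (c * 0)) := by
    refine Tendsto.const_mul _ ?_
    have := (tendsto_rpow_neg_atTop (y := -a) (by linarith)).comp
      (Real.tendsto_log_atTop.comp tendsto_natCast_atTop_atTop)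
    rw [neg_neg] at this
    exact this
  rw [mul_zero] at h1
  obtain ⟨z0, hz0⟩ := Filter.eventually_atTop.1 (h1.eventually_lt_const hε)
  exact ⟨z0, fun z hz => (hz0 z hz).le⟩

lemma log_gt {z : ℕ} (hz : 3 ≤ z) : 1 < Real.log z := by
  have h3 : (3:ℝ) ≤ z := by exact_mod_cast hz
  rw [Real.lt_log_iff_exp_lt (by linarith)]
  linarith [Real.exp_one_lt_three]

lemma ct_nonneg (B v : ℝ) : 0 ≤ ct B v := le_max_left _ _

lemma ct_le_one (B v : ℝ) : ct B v ≤ 1 := max_le (by norm_num) (min_le_left _ _)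

lemma mul_ct_le {B v : ℝ} (hB : 0 < B) (hv : 0 ≤ v) : v * ct B v ≤ B := by
  unfold ct
  rcases le_total 0 (min 1 (2 - v / B)) with h | h
  · rw [max_eq_right h]
    have h1 : v * min 1 (2 - v / B) ≤ v * (2 - v / B) :=
      mul_le_mul_of_nonneg_left (min_le_right _ _) hv
    refine h1.trans ?_
    have h2 : v * (2 - v / B) = B - (v - B) ^ 2 / B := by
      field_simp; ring
    rw [h2]
    have : 0 ≤ (v - B) ^ 2 / B := by positivity
    linarith
  · rw [max_eq_left h, mul_zero]; exact hB.le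

lemma sub_ct_le {B v s : ℝ} (hB : 0 < B) (hv : 0 < v) (hs : 1 < s) :
    v - v * ct B v ≤ B ^ (1 - s) * v ^ s := by
  rcases le_or_gt v B with h | h
  · have : ct B v = 1 := by
      unfold ct
      have : v / B ≤ 1 := (div_le_one hB).2 h
      rw [min_eq_left (by linarith), max_eq_right (by norm_num)]
    rw [this]
    have : 0 ≤ B ^ (1 - s) * v ^ s := by positivity
    linarith
  · have h1 : v - v * ct B v ≤ v := by
      have := mul_nonneg hv.le (ct_nonneg B v)
      linarith
    refine h1.trans ?_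
    have h2 : v ^ s = v ^ (s - 1) * v := by
      rw [← Real.rpow_add_one hv.ne']; congr 1; ring
    have h3 : B ^ (s - 1) ≤ v ^ (s - 1) := Real.rpow_le_rpow hB.le h.le (by linarith)
    have h4 : 1 ≤ B ^ (1 - s) * v ^ (s - 1) := by
      calc (1:ℝ) = B ^ (1 - s) * B ^ (s - 1) := by
            rw [← Real.rpow_add hB]; simp
        _ ≤ _ := mul_le_mul_of_nonneg_left h3 (by positivity)
    rw [h2, ← mul_assoc]
    nlinarith

/-- (CUT) -/
theorem cut (h : S_MOM) : S_CUT := by
  intro α hα hα1 b hb ε hε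
  have hα2 : 0 < α ^ 2 := by positivity
  obtain ⟨s, hs1, hs2, hsr⟩ := exists_s (r := b / α ^ 2) (by rwa [lt_div_iff₀ hα2, one_mul])
  rw [lt_div_iff₀ hα2] at hsr
  obtain ⟨C, hC, hmom⟩ := h α hα hα1.le s hs1.le hs2
  obtain ⟨z0, hz0⟩ := decay C (a := (s - 1) * (α ^ 2 * s - b))
    (mul_neg_of_pos_of_neg (by linarith) (by linarith)) hε
  refine ⟨max z0 3, fun z hz => ?_⟩
  have hz3 : 3 ≤ z := (le_max_right _ _).trans hz
  have hL := log_gt hz3
  have hL0 : 0 < Real.log z := by linarith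
  set L := Real.log z with hLdef
  have hB : 0 < L ^ b := by positivity
  have hcs : Continuous fun x : UnitAddTorus (Sm z) => M0 α (Sm z) x ^ s :=
    (M0_cont α z).rpow_const fun x => Or.inl (M0_pos α z x).ne'
  calc ∫ x, (M0 α (Sm z) x - Mc α b z x) ∂(HP (Sm z))
      ≤ ∫ x, (L ^ b) ^ (1 - s) * M0 α (Sm z) x ^ s ∂(HP (Sm z)) := by
        refine integral_mono_of_nonneg (Filter.Eventually.of_forall fun x => ?_)
          ((cont_int hcs).const_mul _) (Filter.Eventually.of_forall fun x => ?_)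
        · have h1 := mul_le_mul_of_nonneg_left (ct_le_one (Real.log z ^ b) (M0 α (Sm z) x))
            (M0_pos α z x).le
          simp only [Mc, Pi.zero_apply]
          linarith
        · exact sub_ct_le hB (M0_pos α z x) hs1
    _ = (L ^ b) ^ (1 - s) * ∫ x, M0 α (Sm z) x ^ s ∂(HP (Sm z)) := integral_const_mul _ _
    _ ≤ (L ^ b) ^ (1 - s) * (C * L ^ (α ^ 2 * s * (s - 1))) :=
        mul_le_mul_of_nonneg_left (hmom z hz3) (by positivity)
    _ = C * L ^ ((s - 1) * (α ^ 2 * s - b)) := by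
        rw [← Real.rpow_mul hL0.le, mul_left_comm, ← Real.rpow_add hL0]
        congr 2; ring
    _ ≤ ε := hz0 z ((le_max_left _ _).trans hz)

lemma Mc_cont (α b : ℝ) (z : ℕ) : Continuous (Mc α b z) := by
  unfold Mc ct
  refine (M0_cont α z).mul (continuous_const.max (continuous_const.min
    (continuous_const.sub ((M0_cont α z).div_const _))))

lemma Kz_nonneg {C ζ κ e : ℝ} {z : ℕ} (hC : 0 ≤ C) (he : 0 ≤ e) (hL : 0 < Real.log z) (h : ℝ) :
    0 ≤ Kz C ζ κ e z h := by
  unfold Kz
  split_ifs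
  · positivity
  · exact hC
  · exact he

lemma Kz_le {C ζ κ e : ℝ} {z : ℕ} (hC : 0 ≤ C) (he : 0 ≤ e) (hL : 0 < Real.log z) (h : ℝ) :
    Kz C ζ κ e z h ≤ C * k0 (Real.log z) ζ h +
      (if |h| ≤ Real.log z ^ (κ - 1) then C else 0) + e := by
  have hk := mul_nonneg hC (k0_nonneg (Real.log z) ζ hL h)
  have hi : 0 ≤ (if |h| ≤ Real.log z ^ (κ - 1) then C else 0) := by
    split_ifs
    · exact hC
    · exact le_rfl
  unfold Kz
  by_cases h1 : |h| * Real.log z ≤ 1
  · have : k0 (Real.log z) ζ h = (|h| * Real.log z) ^ (-ζ) := by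
      unfold k0; rw [if_pos h1]
    rw [if_pos h1, this]; linarith
  · rw [if_neg h1]
    by_cases h2 : |h| * Real.log z ≤ Real.log z ^ κ
    · have h3 : |h| ≤ Real.log z ^ (κ - 1) := by
        rw [Real.rpow_sub hL, Real.rpow_one, le_div_iff₀ hL]
        exact h2
      rw [if_pos h2, if_pos h3]; linarith
    · rw [if_neg h2]; linarith

lemma sqrt3 {A B D : ℝ} (hA : 0 ≤ A) (hB : 0 ≤ B) (hD : 0 ≤ D) :
    Real.sqrt (A + B + D) ≤ Real.sqrt A + Real.sqrt B + Real.sqrt D := by
  rw [Real.sqrt_le_left (by positivity)]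
  nlinarith [Real.sq_sqrt hA, Real.sq_sqrt hB, Real.sq_sqrt hD, Real.sqrt_nonneg A,
    Real.sqrt_nonneg B, Real.sqrt_nonneg D, mul_nonneg (Real.sqrt_nonneg A) (Real.sqrt_nonneg B),
    mul_nonneg (Real.sqrt_nonneg A) (Real.sqrt_nonneg D),
    mul_nonneg (Real.sqrt_nonneg B) (Real.sqrt_nonneg D)]

/-- the pointwise bound -/
lemma sqrt_QK_le {α b : ℝ} {z : ℕ} (hz : 3 ≤ z) {κ ζ C e : ℝ} (hζ1 : ζ < 1)
    (hC : 0 ≤ C) (he : 0 ≤ e) {s : ℝ} (hs1 : 1 < s) (hs2 : s ≤ 2) {η η' : ℝ} (hη : 0 < η) (hη' : 0 < η')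
    {n : ℕ} (hn : 0 < n) (hρ : Real.log z ^ (κ - 1) ≤ 1 / n) (x : UnitAddTorus (Sm z)) :
    Real.sqrt (QK α b z (Kz C ζ κ e z) x) ≤
      (η + η⁻¹ * (Real.log z ^ b * C * (2 / (Real.log z * (1 - ζ))) *
        ∫ u in (0:ℝ)..1, M0 α (Sm z) (x + pt (Sm z) u)))
      + Real.sqrt C * (η' + η' ^ (1 - s) * ∑ k ∈ range n, (3 / (n:ℝ)) ^ (s - 1) *
          ∫ u in (((k:ℝ) - 1) / n)..(((k:ℝ) + 2) / n), M0 α (Sm z) (x + pt (Sm z) u) ^ s)
      + Real.sqrt e * ∫ u in (0:ℝ)..1, M0 α (Sm z) (x + pt (Sm z) u) := by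
  have hL := log_gt hz
  have hL0 : 0 < Real.log z := by linarith
  set L := Real.log z with hLdef
  set g : ℝ → ℝ := fun u => M0 α (Sm z) (x + pt (Sm z) u) with hg
  set f : ℝ → ℝ := fun u => Mc α b z (x + pt (Sm z) u) with hf
  have hgc : Continuous g := shift_cont (M0_cont α z) x
  have hfc : Continuous f := shift_cont (Mc_cont α b z) x
  have hg0 : ∀ u, 0 ≤ g u := fun u => (M0_pos α z _).le
  have hf0 : ∀ u, 0 ≤ f u := fun u => mul_nonneg (M0_pos α z _).le (ct_nonneg _ _)
  have hfg : ∀ u, f u ≤ g u := fun u => by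
    have := mul_le_mul_of_nonneg_left (ct_le_one (Real.log z ^ b)
      (M0 α (Sm z) (x + pt (Sm z) u))) (M0_pos α z (x + pt (Sm z) u)).le
    rw [mul_one] at this
    exact this
  have hB : 0 < L ^ b := by positivity
  have hfB : ∀ u, f u ≤ L ^ b := fun u => mul_ct_le hB (M0_pos α z _).le
  have hn' : (0:ℝ) < n := by exact_mod_cast hn
  have hq := quad_le (K := Kz C ζ κ e z) (Bd := L ^ b) (ρ := L ^ (κ - 1)) hgc hf0 hfg hfB
    (Kz_nonneg hC he hL0) hL0 hζ1 hC he (by positivity) (Kz_le hC he hL0)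
  have hcell := cells hgc hg0 hn (ρ := L ^ (κ - 1)) (by positivity) hρ
  set G := ∫ u in (0:ℝ)..1, g u with hG
  have hG0 : 0 ≤ G := intervalIntegral.integral_nonneg (by norm_num) fun u _ => hg0 u
  set W : ℕ → ℝ := fun k => ∫ v in (((k:ℝ) - 1) / n)..(((k:ℝ) + 2) / n), g v with hW
  have hlt : ∀ k : ℕ, ((k:ℝ) - 1) / n < ((k:ℝ) + 2) / n := fun k =>
    div_lt_div_of_pos_right (by linarith) hn'
  have hW0 : ∀ k, 0 ≤ W k := fun k =>
    intervalIntegral.integral_nonneg (hlt k).le fun u _ => hg0 u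
  have hζ' : 0 < 1 - ζ := by linarith
  set c1 := L ^ b * C * (2 / (L * (1 - ζ))) with hc1
  have hc1' : 0 ≤ c1 := by positivity
  have hq2 : QK α b z (Kz C ζ κ e z) x ≤ c1 * G + C * ∑ k ∈ range n, W k ^ 2 + e * G ^ 2 := by
    refine hq.trans ?_
    have := mul_le_mul_of_nonneg_left hcell hC
    linarith
  have hsum0 : 0 ≤ ∑ k ∈ range n, W k ^ 2 := Finset.sum_nonneg fun k _ => sq_nonneg _
  have h1 : Real.sqrt (QK α b z (Kz C ζ κ e z) x) ≤
      Real.sqrt (c1 * G) + Real.sqrt (C * ∑ k ∈ range n, W k ^ 2) + Real.sqrt (e * G ^ 2) :=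
    (Real.sqrt_le_sqrt hq2).trans (sqrt3 (mul_nonneg hc1' hG0) (mul_nonneg hC hsum0)
      (mul_nonneg he (sq_nonneg _)))
  refine h1.trans (add_le_add (add_le_add ?_ ?_) ?_)
  · have := young (t := c1 * G) (η := η) (s := 2) (mul_nonneg hc1' hG0) hη (by norm_num)
    rw [← Real.sqrt_eq_rpow] at this
    have e1 : η ^ ((1:ℝ) - 2) = η⁻¹ := by
      rw [← Real.rpow_neg_one]; norm_num
    rw [e1] at this
    exact this
  · rw [Real.sqrt_mul hC]
    refine mul_le_mul_of_nonneg_left ?_ (Real.sqrt_nonneg _)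
    have hpow : Real.sqrt (∑ k ∈ range n, W k ^ 2)
        = ((∑ k ∈ range n, W k ^ 2) ^ (s / 2)) ^ (1 / s) := by
      rw [Real.sqrt_eq_rpow, ← Real.rpow_mul hsum0]
      congr 1
      field_simp
    rw [hpow]
    refine (young (by positivity) hη' hs1.le).trans ?_
    refine add_le_add le_rfl (mul_le_mul_of_nonneg_left ?_ (by positivity))
    refine (rpow_sum_le (range n) (fun k => W k ^ 2) (fun k => sq_nonneg _) (q := s / 2)
      (by linarith) (by linarith) (by linarith)).trans ?_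
    refine Finset.sum_le_sum fun k _ => ?_
    have e1 : (W k ^ 2) ^ (s / 2) = W k ^ s := by
      rw [← Real.rpow_natCast, ← Real.rpow_mul (hW0 k)]
      congr 1
      push_cast; ring
    rw [e1]
    have hj := jensen_int hgc hg0 (hlt k) hs1.le
    have e2 : ((k:ℝ) + 2) / n - ((k:ℝ) - 1) / n = 3 / n := by ring
    rw [e2] at hj
    exact hj
  · rw [Real.sqrt_mul he, Real.sqrt_sq hG0]

/-- (ED); the continuity of the functional is not needed -/
theorem ed' (h : S_MOM) : S_ED := by
  intro α hα hα1 b hb hb1 κ hκ hκ1 ζ hζ hζ1 C hC ε hε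
  have hα2 : 0 < α ^ 2 := by positivity
  have hκlt : κ < 1 := by linarith
  obtain ⟨s, hs1, hs2, hsr⟩ := exists_s (r := (1 - κ) / α ^ 2)
    (by rw [lt_div_iff₀ hα2, one_mul]; linarith)
  rw [lt_div_iff₀ hα2] at hsr
  obtain ⟨Cs, hCs, hmom⟩ := h α hα hα1.le s hs1.le hs2
  set η : ℝ := ε / 4 with hη
  have hη0 : 0 < η := by positivity
  set η' : ℝ := ε / (4 * (Real.sqrt C + 1)) with hη'
  have hsC : 0 ≤ Real.sqrt C := Real.sqrt_nonneg C
  have hη'0 : 0 < η' := by positivity
  have hη'1 : Real.sqrt C * η' ≤ ε / 4 := by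
    rw [hη', mul_div_assoc', div_le_div_iff₀ (by positivity) (by norm_num)]
    nlinarith
  have hζ' : 0 < 1 - ζ := by linarith
  obtain ⟨z1, hz1⟩ := decay (η⁻¹ * (C * (2 / (1 - ζ)))) (a := b - 1) (by linarith)
    (ε := ε / 4) (by positivity)
  obtain ⟨z2, hz2⟩ := decay (Real.sqrt C * (η' ^ (1 - s) * (3 * 6 ^ (s - 1) * Cs)))
    (a := (s - 1) * (κ - 1 + α ^ 2 * s))
    (mul_neg_of_pos_of_neg (by linarith) (by linarith)) (ε := ε / 4) (by positivity)
  refine ⟨max (max z1 z2) 3, fun z hz e he he1 => ?_⟩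
  have hz3 : 3 ≤ z := (le_max_right _ _).trans hz
  have hzz1 : z1 ≤ z := ((le_max_left _ _).trans (le_max_left _ _)).trans hz
  have hzz2 : z2 ≤ z := ((le_max_right _ _).trans (le_max_left _ _)).trans hz
  have hL := log_gt hz3
  have hL0 : 0 < Real.log z := by linarith
  have hz1' := hz1 z hzz1
  have hz2' := hz2 z hzz2
  have hmomz := hmom z hz3
  set L := Real.log z with hLdef
  set ρ : ℝ := L ^ (κ - 1) with hρ
  have hρ0 : 0 < ρ := by positivity
  have hρ1 : ρ ≤ 1 := Real.rpow_le_one_of_one_le_of_nonpos hL.le (by linarith)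
  set n : ℕ := ⌊1 / ρ⌋₊ with hn
  have hn1 : 1 ≤ n := by
    rw [hn, Nat.one_le_floor_iff]
    rw [le_div_iff₀ hρ0]; linarith
  have hn' : (1:ℝ) ≤ n := by exact_mod_cast hn1
  have hn0 : (0:ℝ) < n := by linarith
  have hnρ : ρ ≤ 1 / n := by
    have h1 : (n:ℝ) ≤ 1 / ρ := Nat.floor_le (by positivity)
    rw [le_div_iff₀ hρ0] at h1
    rw [le_div_iff₀ hn0]; linarith
  have hnρ2 : 3 / (n:ℝ) ≤ 6 * ρ := by
    have h1 : 1 / ρ < n + 1 := Nat.lt_floor_add_one _
    rw [div_lt_iff₀ hρ0] at h1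
    rw [div_le_iff₀ hn0]
    nlinarith
  -- the continuous functions
  have hMc := M0_cont α z
  have hMs : Continuous fun y : UnitAddTorus (Sm z) => M0 α (Sm z) y ^ s :=
    hMc.rpow_const fun y => Or.inl (M0_pos α z y).ne'
  have hlt : ∀ k : ℕ, ((k:ℝ) - 1) / n < ((k:ℝ) + 2) / n := fun k =>
    div_lt_div_of_pos_right (by linarith) hn0
  set G : UnitAddTorus (Sm z) → ℝ := fun x => ∫ u in (0:ℝ)..1, M0 α (Sm z) (x + pt (Sm z) u) with hG
  have hGc : Continuous G := param_cont hMc 0 1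
  set J : ℕ → UnitAddTorus (Sm z) → ℝ := fun k x =>
    ∫ u in (((k:ℝ) - 1) / n)..(((k:ℝ) + 2) / n), M0 α (Sm z) (x + pt (Sm z) u) ^ s with hJ
  have hJc : ∀ k, Continuous (J k) := fun k => param_cont hMs _ _
  have hGi : ∫ x, G x ∂(HP (Sm z)) = 1 := by
    have := swap hMc (a := 0) (b := 1) (by norm_num)
    rw [integral_M0] at this
    rw [hG, this]; norm_num
  set m := ∫ x, M0 α (Sm z) x ^ s ∂(HP (Sm z)) with hm
  have hJi : ∀ k, ∫ x, J k x ∂(HP (Sm z)) = 3 / n * m := by
    intro k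
    have := swap hMs (hlt k).le
    have e2 : ((k:ℝ) + 2) / n - ((k:ℝ) - 1) / n = 3 / n := by ring
    rw [e2] at this
    exact this
  set c1 := L ^ b * C * (2 / (L * (1 - ζ))) with hc1
  set Sx : UnitAddTorus (Sm z) → ℝ := fun x => ∑ k ∈ range n, (3 / (n:ℝ)) ^ (s - 1) * J k x with hSx
  have hSc : Continuous Sx := continuous_finsetSum _ fun k _ => continuous_const.mul (hJc k)
  have hSi : ∫ x, Sx x ∂(HP (Sm z)) = 3 * (3 / (n:ℝ)) ^ (s - 1) * m := by
    rw [hSx, integral_finsetSum _ fun k _ => (cont_int (hJc k)).const_mul _]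
    simp only [integral_const_mul, hJi]
    rw [Finset.sum_const, card_range, nsmul_eq_mul]
    field_simp
  have hSi2 : ∫ x, Sx x ∂(HP (Sm z)) ≤ 3 * 6 ^ (s - 1) * Cs * L ^ ((s - 1) * (κ - 1 + α ^ 2 * s)) := by
    rw [hSi]
    have h1 : (3 / (n:ℝ)) ^ (s - 1) ≤ (6 * ρ) ^ (s - 1) :=
      Real.rpow_le_rpow (by positivity) hnρ2 (by linarith)
    have hm0 : 0 ≤ m := integral_nonneg fun x => Real.rpow_nonneg (M0_pos α z x).le _
    calc 3 * (3 / (n:ℝ)) ^ (s - 1) * m ≤ 3 * (6 * ρ) ^ (s - 1) * (Cs * L ^ (α ^ 2 * s * (s - 1))) := by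
          refine mul_le_mul (by linarith) hmomz hm0 (by positivity)
      _ = 3 * 6 ^ (s - 1) * Cs * (ρ ^ (s - 1) * L ^ (α ^ 2 * s * (s - 1))) := by
          rw [Real.mul_rpow (by norm_num) hρ0.le]; ring
      _ = _ := by
          rw [hρ, ← Real.rpow_mul hL0.le, ← Real.rpow_add hL0]
          congr 2; ring
  calc ∫ x, Real.sqrt (QK α b z (Kz C ζ κ e z) x) ∂(HP (Sm z))
      ≤ ∫ x, ((η + η⁻¹ * (c1 * G x)) + Real.sqrt C * (η' + η' ^ (1 - s) * Sx x)
          + Real.sqrt e * G x) ∂(HP (Sm z)) := by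
        refine integral_mono_of_nonneg (Filter.Eventually.of_forall fun x => Real.sqrt_nonneg _) ?_
          (Filter.Eventually.of_forall fun x => ?_)
        · refine cont_int ?_
          exact ((continuous_const.add (continuous_const.mul (continuous_const.mul hGc))).add
            (continuous_const.mul (continuous_const.add (continuous_const.mul hSc)))).add
            (continuous_const.mul hGc)
        · exact sqrt_QK_le hz3 hζ1 hC he hs1 hs2 hη0 hη'0 (by omega) hnρ x
    _ = (η + η⁻¹ * c1) + Real.sqrt C * (η' + η' ^ (1 - s) * ∫ x, Sx x ∂(HP (Sm z)))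
          + Real.sqrt e := by
        have e0 : ∀ x, ((η + η⁻¹ * (c1 * G x)) + Real.sqrt C * (η' + η' ^ (1 - s) * Sx x)
          + Real.sqrt e * G x) = (η + Real.sqrt C * η') + ((η⁻¹ * c1 + Real.sqrt e) * G x
            + (Real.sqrt C * η' ^ (1 - s)) * Sx x) := fun x => by ring
        simp only [e0]
        have iG := (cont_int hGc).const_mul (η⁻¹ * c1 + Real.sqrt e)
        have iS := (cont_int hSc).const_mul (Real.sqrt C * η' ^ (1 - s))
        have iGS : Integrable (fun x => (η⁻¹ * c1 + Real.sqrt e) * G x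
            + (Real.sqrt C * η' ^ (1 - s)) * Sx x) (HP (Sm z)) := iG.add iS
        rw [integral_add (integrable_const _) iGS, integral_add iG iS, integral_const_mul,
          integral_const_mul, hGi, integral_const]
        simp
        ring
    _ ≤ (ε / 4 + ε / 4) + (ε / 4 + ε / 4) + Real.sqrt e := by
        refine add_le_add (add_le_add (add_le_add le_rfl ?_) ?_) le_rfl
        · refine le_trans (le_of_eq ?_) hz1'
          rw [hc1, Real.rpow_sub hL0, Real.rpow_one]
          field_simp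
        · rw [mul_add]
          refine add_le_add hη'1 ?_
          refine le_trans ?_ hz2'
          have := mul_le_mul_of_nonneg_left hSi2
            (mul_nonneg hsC (Real.rpow_nonneg hη'0.le (1 - s)))
          calc Real.sqrt C * (η' ^ (1 - s) * ∫ x, Sx x ∂(HP (Sm z)))
              = Real.sqrt C * η' ^ (1 - s) * ∫ x, Sx x ∂(HP (Sm z)) := by ring
            _ ≤ _ := this
            _ = _ := by ring
    _ = ε + Real.sqrt e := by ring

/-- (ED) -/
theorem ed (h : S_MOM) (_hq : S_QC) : S_ED := ed' h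

end Pool.Agent.N748.GC.ED
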