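import Pool.Agent.N748.GC.L2
import Pool.Agent.N748.GC.ED

set_option autoImplicit false

/-!
# GC2/CUT2 : the cut-off is harmless for `α ≤ 2` (helper511, after ED.lean by helper344)
-/

namespace Pool.Agent.N748.GC.CUT2

open Finset Filter MeasureTheory Topology Complex
open Pool.Agent.N748.GC.ED

theorem main (h : S_MOM2) : S_CUT2 := by
  intro α hα hα1 b hb ε hε
  have hα2 : 0 < α ^ 2 := by positivity
  obtain ⟨s, hs1, hs2, hsr⟩ := exists_s (r := b / α ^ 2) (by rwa [lt_div_iff₀ hα2, one_mul])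
  rw [lt_div_iff₀ hα2] at hsr
  obtain ⟨C, hC, hmom⟩ := h α hα hα1 s hs1.le hs2
  obtain ⟨z0, hz0⟩ := decay C (a := (s - 1) * (α ^ 2 * s - b))
    (mul_neg_of_pos_of_neg (by linarith) (by linarith)) hε
  refine ⟨max z0 3, fun z hz => ?_⟩
  have hz3 : 3 ≤ z := (le_max_right _ _).trans hz
  have hL := log_gt hz3
  have hL0 : 0 < Real.log z := by linarith
  set L := Real.log z with hLdef
  have hB : 0 < L ^ b := by positivity
  have hcs : Continuous fun x : UnitAddTorus (Sm z) => M0 α (Sm z) x ^ s :=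
    (M0_cont α z).rpow_const fun x => Or.inl (M0_pos α z x).ne'
  calc ∫ x, (M0 α (Sm z) x - Mc α b z x) ∂(HP (Sm z))
      ≤ ∫ x, (L ^ b) ^ (1 - s) * M0 α (Sm z) x ^ s ∂(HP (Sm z)) := by
        refine integral_mono_of_nonneg (Filter.Eventually.of_forall fun x => ?_)
          ((cont_int hcs).const_mul _) (Filter.Eventually.of_forall fun x => ?_)
        · have h1 := mul_le_mul_of_nonneg_left (ct_le_one (Real.log z ^ b) (M0 α (Sm z) x))
            (M0_pos α z x).le
          simp only [Mc, Pi.zero_apply]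
          linarith
        · exact sub_ct_le hB (M0_pos α z x) hs1
    _ = (L ^ b) ^ (1 - s) * ∫ x, M0 α (Sm z) x ^ s ∂(HP (Sm z)) := integral_const_mul _ _
    _ ≤ (L ^ b) ^ (1 - s) * (C * L ^ (α ^ 2 * s * (s - 1))) :=
        mul_le_mul_of_nonneg_left (hmom z hz3) (by positivity)
    _ = C * L ^ ((s - 1) * (α ^ 2 * s - b)) := by
        rw [← Real.rpow_mul hL0.le, mul_left_comm, ← Real.rpow_add hL0]
        congr 2; ring
    _ ≤ ε := hz0 z ((le_max_left _ _).trans hz)

end Pool.Agent.N748.GC.CUT2
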