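import Pool.Agent.N748.GC.Ts2
import Pool.Agent.N748.GC.ERG
import Pool.Agent.Y755.Res

set_option autoImplicit false

/-! The normalisations, and the polynomial over the small primes. -/

namespace Pool.Agent.N748.GC

open Finset Filter MeasureTheory MonoidAlgebra Topology Complex
open Pool.Agent.Y755 Pool.Agent.W184.NZ
open Pool.Agent.Y753.NL (Cf)
open Pool.Agent.H306R2 (aF aF_pos)

lemma aa_eq (α : ℝ) : aa α = aF α := rfl

lemma DD_unif {α : ℝ} (hα : 0 < α) {ε : ℝ} (hε : 0 < ε) : ∃ δ1 : ℝ, 0 < δ1 ∧ ∀ δ : ℝ, 0 < δ → δ ≤ δ1 →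
    |(2 * δ) ^ (α ^ 2) * DD α δ - aF α| ≤ ε * aF α := by
  have h := DD_asym hα (δ := fun T : ℝ => T⁻¹) (by filter_upwards [eventually_gt_atTop 0] with T hT; positivity)
    tendsto_inv_atTop_zero
  have haF := aF_pos hα
  have h2 := h.eventually (Metric.ball_mem_nhds (aF α) (ε := ε * aF α) (by positivity))
  obtain ⟨T0, hT0⟩ := eventually_atTop.mp h2
  refine ⟨(max T0 1)⁻¹, by positivity, fun δ hδ hδ1 => ?_⟩
  have h3 : max T0 1 ≤ δ⁻¹ := by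
    rw [le_inv_comm₀ (by positivity) hδ]; exact hδ1
  have h4 := hT0 δ⁻¹ ((le_max_left _ _).trans h3)
  rw [inv_inv, Real.dist_eq] at h4
  exact h4.le

/-- the absolute value of the product over the small primes -/
noncomputable def Ph (z : ℕ) (δ : ℝ) (x : UnitAddTorus (Sm z)) : ℝ :=
  ∏ p : Sm z, ‖1 - (fourier 1 (x p) : ℂ) * (((p:ℝ) ^ (-(1 / 2 + δ)) : ℝ) : ℂ)‖

lemma four_pt {P : Finset ℕ} (p : P) (hp : (p:ℕ) ≠ 0) (σ u : ℝ) :
    (fourier 1 (pt P u p) : ℂ) * ((((p:ℕ):ℝ) ^ (-σ) : ℝ) : ℂ) = ((p:ℕ):ℂ) ^ (-(σ + u * I : ℂ)) := by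
  have hp0 : (((p:ℕ):ℂ)) ≠ 0 := by exact_mod_cast hp
  have hpr : (0:ℝ) ≤ ((p:ℕ):ℝ) := Nat.cast_nonneg _
  rw [Complex.ofReal_cpow hpr, neg_add, Complex.cpow_add _ _ hp0, mul_comm]
  push_cast
  congr 1
  unfold pt
  rw [fourier_coe_apply, Complex.cpow_def_of_ne_zero hp0, ← Complex.natCast_log]
  congr 1
  push_cast
  have hpi : (Real.pi : ℂ) ≠ 0 := by exact_mod_cast Real.pi_ne_zero
  field_simp

lemma Ph_pt (z : ℕ) (δ u : ℝ) : Ph z δ (pt (Sm z) u) = ‖es (1 / 2 + δ + u * I) (Pz z)‖ := by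
  unfold Ph
  have e1 : es (1 / 2 + δ + u * I) (Pz z) = ∏ p ∈ Sm z, (1 - (p:ℂ) ^ (-(1 / 2 + δ + u * I : ℂ))) := by
    unfold Pz
    rw [map_prod]
    refine prod_congr rfl fun p _ => ?_
    rw [map_sub, map_one, es_single]
    simp
  rw [e1, norm_prod, ← Finset.prod_coe_sort (Sm z) (fun p : ℕ => ‖1 - (p:ℂ) ^ (-(1 / 2 + δ + u * I : ℂ))‖)]
  refine prod_congr rfl fun p _ => ?_
  have h1 := four_pt p ((QC.Sm_prime z p p.2).ne_zero) (1 / 2 + δ) u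
  push_cast at h1
  rw [h1]

lemma fac_pos {p : ℕ} (hp : p.Prime) {δ : ℝ} (hδ : 0 ≤ δ) (y : UnitAddCircle) :
    0 < ‖1 - (fourier 1 y : ℂ) * (((p:ℝ) ^ (-(1 / 2 + δ)) : ℝ) : ℂ)‖ := by
  rw [norm_pos_iff]
  intro h
  have h1 : (fourier 1 y : ℂ) * (((p:ℝ) ^ (-(1 / 2 + δ)) : ℝ) : ℂ) = 1 := (sub_eq_zero.mp h).symm
  have h2 := congrArg norm h1
  rw [norm_mul, QC.norm_fourier_one, one_mul, norm_one, Complex.norm_real, Real.norm_of_nonneg (by positivity)] at h2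
  have h3 : (p:ℝ) ^ (-(1 / 2 + δ)) < 1 :=
    Real.rpow_lt_one_of_one_lt_of_neg (by exact_mod_cast hp.one_lt) (by linarith)
  linarith

lemma Ph_pos (z : ℕ) {δ : ℝ} (hδ : 0 ≤ δ) (x : UnitAddTorus (Sm z)) : 0 < Ph z δ x :=
  prod_pos fun p _ => fac_pos (QC.Sm_prime z p p.2) hδ _

lemma Ph_cont (z : ℕ) : Continuous fun q : ℝ × UnitAddTorus (Sm z) => Ph z (|q.1|) q.2 := by
  unfold Ph
  refine continuous_finsetProd _ fun p _ => Continuous.norm (continuous_const.sub (Continuous.mul ?_ ?_))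
  · exact (fourier 1).continuous.comp ((continuous_apply p).comp continuous_snd)
  · refine Complex.continuous_ofReal.comp (Continuous.rpow continuous_const (by fun_prop) fun q => Or.inl ?_)
    have := (QC.Sm_prime z p p.2).pos
    positivity

/-- the density in terms of the product over the small primes -/
lemma M0_Ph (α : ℝ) (z : ℕ) (x : UnitAddTorus (Sm z)) : M0 α (Sm z) x = Ph z 0 x ^ (-(2 * α)) / E0 α (Sm z) := by
  unfold M0
  congr 1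
  unfold Ph lw
  rw [Real.exp_sum, ← Real.finsetProd_rpow _ _ (fun p _ => (norm_nonneg _))]
  refine prod_congr rfl fun p _ => ?_
  have h1 := fac_pos (QC.Sm_prime z p p.2) le_rfl (x p)
  rw [add_zero] at h1 ⊢
  rw [Real.rpow_def_of_pos h1]
  congr 1; ring

/-- small displacements are harmless -/
lemma Ph_near (α : ℝ) (z : ℕ) {ε : ℝ} (hε : 0 < ε) : ∃ δ2 : ℝ, 0 < δ2 ∧ ∀ δ : ℝ, 0 ≤ δ → δ ≤ δ2 → ∀ x : UnitAddTorus (Sm z),
    |Ph z δ x ^ (-(2 * α)) - Ph z 0 x ^ (-(2 * α))| ≤ ε * Ph z 0 x ^ (-(2 * α)) := by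
  have hP := Ph_cont z
  have hpos : ∀ q : ℝ × UnitAddTorus (Sm z), Ph z (|q.1|) q.2 ≠ 0 := fun q => (Ph_pos z (abs_nonneg _) _).ne'
  have hc1 : Continuous fun q : ℝ × UnitAddTorus (Sm z) => Ph z (|q.1|) q.2 ^ (-(2 * α)) :=
    hP.rpow_const fun q => Or.inl (hpos q)
  have hc0 : Continuous fun q : ℝ × UnitAddTorus (Sm z) => Ph z 0 q.2 ^ (-(2 * α)) := by
    have h : Continuous fun q : ℝ × UnitAddTorus (Sm z) => ((0:ℝ), q.2) := Continuous.prodMk continuous_const continuous_snd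
    refine (hc1.comp h).congr fun q => ?_
    show Ph z (|0|) q.2 ^ (-(2 * α)) = _
    rw [abs_zero]
  have hc0' : ∀ q : ℝ × UnitAddTorus (Sm z), Ph z 0 q.2 ^ (-(2 * α)) ≠ 0 := fun q =>
    (Real.rpow_pos_of_pos (Ph_pos z le_rfl _) _).ne'
  let G : C(ℝ × UnitAddTorus (Sm z), ℝ) := ⟨fun q => Ph z (|q.1|) q.2 ^ (-(2 * α)) / Ph z 0 q.2 ^ (-(2 * α)), hc1.div hc0 hc0'⟩
  have hG := G.curry.continuous
  rw [Metric.continuous_iff] at hG
  obtain ⟨d, hd, hd2⟩ := hG 0 ε hε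
  refine ⟨d / 2, by positivity, fun δ hδ hδ2 x => ?_⟩
  have h1 := hd2 δ (by rw [Real.dist_eq, sub_zero, abs_of_nonneg hδ]; linarith)
  have h2 := (ContinuousMap.dist_apply_le_dist (f := G.curry δ) (g := G.curry 0) x).trans h1.le
  have e1 : G.curry δ x = Ph z δ x ^ (-(2 * α)) / Ph z 0 x ^ (-(2 * α)) := by
    show Ph z (|δ|) x ^ (-(2 * α)) / Ph z 0 x ^ (-(2 * α)) = _
    rw [abs_of_nonneg hδ]
  have e2 : G.curry 0 x = 1 := by
    show Ph z (|0|) x ^ (-(2 * α)) / Ph z 0 x ^ (-(2 * α)) = _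
    rw [abs_zero]
    exact div_self (hc0' (0, x))
  rw [e1, e2, Real.dist_eq] at h2
  have h3 : 0 < Ph z 0 x ^ (-(2 * α)) := Real.rpow_pos_of_pos (Ph_pos z le_rfl _) _
  have h4 : Ph z δ x ^ (-(2 * α)) - Ph z 0 x ^ (-(2 * α)) =
      (Ph z δ x ^ (-(2 * α)) / Ph z 0 x ^ (-(2 * α)) - 1) * Ph z 0 x ^ (-(2 * α)) := by
    field_simp
  rw [h4, abs_mul, abs_of_pos h3]
  exact mul_le_mul_of_nonneg_right h2 h3.le

/-- mean value of the square of a polynomial -/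
lemma mean_sq (f : P1) {m : ℝ} (hf : Bd1 m f) {δ : ℝ} (hδ : 0 ≤ δ) :
    Tendsto (fun T : ℝ => (∫ t in (0:ℝ)..T, ‖es (1 / 2 + δ + t * I) f‖ ^ 2) / T) atTop (𝓝 (ip δ f f)) := by
  have hcop : Cop ∅ m (cx f) := by
    intro n hn
    rw [cx_supp] at hn
    exact ⟨(hf n hn).1, (hf n hn).2, fun p hp => absurd hp (notMem_empty p)⟩
  have hb : ∀ T : ℝ, 0 < T → |(∫ t in (0:ℝ)..T, ‖es (1 / 2 + δ + t * I) f‖ ^ 2) - T * ip δ f f| ≤
      8 * m * lc1 (cx f) ^ 2 := by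
    intro T hT
    have h1 := MV.main ∅ (fun p hp => absurd hp (notMem_empty p)) m 0 T δ (cx f) 1 1 hcop hδ hT.le
      ⟨one_ne_zero, fun p hp h => absurd (Nat.dvd_one.mp h) hp.one_lt.ne'⟩
      ⟨one_ne_zero, fun p hp h => absurd (Nat.dvd_one.mp h) hp.one_lt.ne'⟩ (Nat.coprime_one_left 1)
    have e1 : ∀ t : ℝ, chr 1 1 t = 1 := by intro t; unfold chr; simp
    simp only [e1, mul_one, if_true, Nat.cast_one, sub_zero, nn_cx, ec_cx] at h1
    rw [intervalIntegral.integral_ofReal, ← Complex.ofReal_sub, Complex.norm_real, Real.norm_eq_abs] at h1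
    exact h1
  rw [Metric.tendsto_atTop]
  intro e he
  refine ⟨max 1 (8 * |m| * lc1 (cx f) ^ 2 / e + 1), fun T hT => ?_⟩
  have hT1 : 1 ≤ T := (le_max_left _ _).trans hT
  have hT2 := (le_max_right _ _).trans hT
  have hT0 : 0 < T := by linarith
  have h1 := hb T hT0
  rw [Real.dist_eq]
  have e1 : (∫ t in (0:ℝ)..T, ‖es (1 / 2 + δ + t * I) f‖ ^ 2) / T - ip δ f f =
      ((∫ t in (0:ℝ)..T, ‖es (1 / 2 + δ + t * I) f‖ ^ 2) - T * ip δ f f) / T := by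
    rw [sub_div, mul_div_cancel_left₀ _ hT0.ne']
  rw [e1, abs_div, abs_of_pos hT0, div_lt_iff₀ hT0]
  have h2 : 8 * m * lc1 (cx f) ^ 2 ≤ 8 * |m| * lc1 (cx f) ^ 2 := by
    have := le_abs_self m
    gcongr
  have h3 : 8 * |m| * lc1 (cx f) ^ 2 / e < T := by linarith
  rw [div_lt_iff₀ he] at h3
  linarith

/-- the polynomial over the small primes is close to the density -/
theorem A0_near {α : ℝ} (hα : 0 < α) {z : ℕ} {A0 : P1} {m : ℝ} (hm : Bd1 m A0) {ε : ℝ} (hε : 0 < ε) (hε1 : ε ≤ 1 / 20)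
    (hPA : ∀ s : ℂ, 1 / 2 ≤ s.re → 1 - ε ≤ ‖es s (Pz z)‖ ^ (2 * α) * ‖es s A0‖ ^ 2 ∧
      ‖es s (Pz z)‖ ^ (2 * α) * ‖es s A0‖ ^ 2 ≤ 1 + ε) :
    ∃ δ2 : ℝ, 0 < δ2 ∧ ∀ δ : ℝ, 0 ≤ δ → δ ≤ δ2 → 1 ≤ ip δ A0 A0 → ∀ u : ℝ,
      |‖es (1 / 2 + δ + u * I) A0‖ ^ 2 / ip δ A0 A0 - mz α z u| ≤ 10 * ε * mz α z u := by
  obtain ⟨δ2, hδ2, hnear⟩ := Ph_near α z hε
  refine ⟨δ2, hδ2, fun δ hδ hδ2' hB1 => ?_⟩
  set B := ip δ A0 A0 with hB
  set E := E0 α (Sm z) with hE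
  have hE0 : 0 < E := QC.E0_pos α (QC.Sm_prime z)
  have hmz0 : ∀ u, 0 < mz α z u := fun u => QC.M0_pos α (QC.Sm_prime z) _
  -- pointwise
  have hpt : ∀ u : ℝ, (1 - 2 * ε) * (E * mz α z u) ≤ ‖es (1 / 2 + δ + u * I) A0‖ ^ 2 ∧
      ‖es (1 / 2 + δ + u * I) A0‖ ^ 2 ≤ (1 + 3 * ε) * (E * mz α z u) := by
    intro u
    have hre : (1:ℝ) / 2 ≤ (1 / 2 + (δ:ℂ) + u * I).re := by simp; linarith
    obtain ⟨h1, h2⟩ := hPA _ hre
    rw [← Ph_pt] at h1 h2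
    have hp := Ph_pos z hδ (pt (Sm z) u)
    set P := Ph z δ (pt (Sm z) u) with hP
    set a := ‖es (1 / 2 + δ + u * I) A0‖ ^ 2 with ha
    have hq : E * mz α z u = Ph z 0 (pt (Sm z) u) ^ (-(2 * α)) := by
      unfold mz
      rw [M0_Ph, ← hE, mul_div_cancel₀ _ hE0.ne']
    have h3 := abs_le.mp (hnear δ hδ hδ2' (pt (Sm z) u))
    rw [← hq, ← hP] at h3
    set q := E * mz α z u with hqd
    have hq0 : 0 < q := mul_pos hE0 (hmz0 u)
    have hPi : P ^ (-(2 * α)) * P ^ (2 * α) = 1 := by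
      rw [← Real.rpow_add hp]; simp
    have hPp : 0 < P ^ (-(2 * α)) := Real.rpow_pos_of_pos hp _
    have h4 : (1 - ε) * P ^ (-(2 * α)) ≤ a := by
      calc (1 - ε) * P ^ (-(2 * α)) ≤ (P ^ (2 * α) * a) * P ^ (-(2 * α)) := mul_le_mul_of_nonneg_right h1 hPp.le
        _ = (P ^ (-(2 * α)) * P ^ (2 * α)) * a := by ring
        _ = a := by rw [hPi, one_mul]
    have h5 : a ≤ (1 + ε) * P ^ (-(2 * α)) := by
      calc a = (P ^ (-(2 * α)) * P ^ (2 * α)) * a := by rw [hPi, one_mul]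
        _ = (P ^ (2 * α) * a) * P ^ (-(2 * α)) := by ring
        _ ≤ (1 + ε) * P ^ (-(2 * α)) := mul_le_mul_of_nonneg_right h2 hPp.le
    have h6 : 0 ≤ ε ^ 2 * q := by positivity
    constructor
    · nlinarith
    · nlinarith
  -- the mean values
  have hm1 := mean_sq A0 hm hδ
  have hm2 : Tendsto (fun T : ℝ => (∫ t in (0:ℝ)..T, mz α z t) / T) atTop (𝓝 1) := by
    rw [Metric.tendsto_atTop]
    intro e he
    obtain ⟨H0, hH0, h⟩ := ERG.main (Sm z) (QC.Sm_prime z) (M0 α (Sm z)) (QC.M0_cont α (QC.Sm_prime z)) (e / 2) (by linarith)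
    refine ⟨H0, fun T hT => ?_⟩
    have h1 := h T hT 0
    rw [zero_add, QC.M0_int α (QC.Sm_prime z)] at h1
    rw [Real.dist_eq]
    show |(∫ t in (0:ℝ)..T, M0 α (Sm z) (pt (Sm z) t)) / T - 1| < e
    linarith
  have hcA : Continuous fun t : ℝ => ‖es (1 / 2 + δ + t * I) A0‖ ^ 2 := by
    have h1 : ∀ n ∈ (cx A0).coeff.support, n ≠ 0 := by
      intro n hn
      rw [cx_supp] at hn
      exact (hm n hn).1
    have h2 := ((ec_cont h1 (1 / 2 + δ)).norm.pow 2)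
    refine h2.congr fun t => ?_
    show ‖ec (1 / 2 + δ + t * I) (cx A0)‖ ^ 2 = _
    rw [ec_cx]
  have hcm := QC.mz_cont α z
  have hB2 : (1 - 2 * ε) * E ≤ B ∧ B ≤ (1 + 3 * ε) * E := by
    constructor
    · have h1 : Tendsto (fun T : ℝ => (1 - 2 * ε) * E * ((∫ t in (0:ℝ)..T, mz α z t) / T)) atTop (𝓝 ((1 - 2 * ε) * E * 1)) :=
        hm2.const_mul _
      rw [mul_one] at h1
      refine le_of_tendsto_of_tendsto h1 hm1 ?_
      filter_upwards [eventually_gt_atTop 0] with T hT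
      rw [← mul_div_assoc, ← intervalIntegral.integral_const_mul]
      refine div_le_div_of_nonneg_right ?_ hT.le
      refine intervalIntegral.integral_mono_on hT.le ((hcm.const_mul _).intervalIntegrable _ _)
        (hcA.intervalIntegrable _ _) fun t _ => ?_
      rw [mul_assoc]; exact (hpt t).1
    · have h1 : Tendsto (fun T : ℝ => (1 + 3 * ε) * E * ((∫ t in (0:ℝ)..T, mz α z t) / T)) atTop (𝓝 ((1 + 3 * ε) * E * 1)) :=
        hm2.const_mul _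
      rw [mul_one] at h1
      refine le_of_tendsto_of_tendsto hm1 h1 ?_
      filter_upwards [eventually_gt_atTop 0] with T hT
      rw [← mul_div_assoc, ← intervalIntegral.integral_const_mul]
      refine div_le_div_of_nonneg_right ?_ hT.le
      refine intervalIntegral.integral_mono_on hT.le (hcA.intervalIntegrable _ _)
        ((hcm.const_mul _).intervalIntegrable _ _) fun t _ => ?_
      rw [mul_assoc]; exact (hpt t).2
  intro u
  obtain ⟨h1, h2⟩ := hpt u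
  obtain ⟨h3, h4⟩ := hB2
  have hB0 : 0 < B := by linarith
  have hm0 := hmz0 u
  set a := ‖es (1 / 2 + δ + u * I) A0‖ ^ 2 with ha
  set M := mz α z u with hM
  have e1 : a / B - M = (a - B * M) / B := by field_simp
  rw [e1, abs_div, abs_of_pos hB0, div_le_iff₀ hB0, abs_le]
  have h5 : B * M ≤ (1 + 3 * ε) * E * M := mul_le_mul_of_nonneg_right h4 hm0.le
  have h6 : (1 - 2 * ε) * E * M ≤ B * M := mul_le_mul_of_nonneg_right h3 hm0.le
  have hEM : 0 < E * M := mul_pos hE0 hm0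
  have h7 : 10 * ε * ((1 - 2 * ε) * E * M) ≤ 10 * ε * (B * M) := mul_le_mul_of_nonneg_left h6 (by positivity)
  have h8 : 5 * ε * (E * M) ≤ 10 * ε * ((1 - 2 * ε) * E * M) := by
    have : 0 ≤ ε * (E * M) := by positivity
    nlinarith
  constructor <;> nlinarith

end Pool.Agent.N748.GC
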