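import Pool.Agent.N748.GC.Cor1
import Pool.Agent.N748.GC.RZ
import Pool.Agent.N748.GC.ASM
import Pool.Agent.Y753.NL.Full

set_option autoImplicit false

/-! Closeness to the random Euler product in unit windows. -/

namespace Pool.Agent.N748.GC

open Finset Filter MeasureTheory MonoidAlgebra Topology Complex
open Pool.Agent.Y755 Pool.Agent.W184.NZ
open Pool.Agent.Y753.NL
open Pool.Agent.W184 (zn zn_nonneg zn_cont zn_le')
open Pool.Agent.H306R2 (aF aF_pos)

/-- continuity of the windows -/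
lemma fcont {f g : ℝ → ℝ} (hf : Measurable f) (hf1 : ∀ x, |f x| ≤ 1) (hg : Continuous g) :
    Continuous fun t : ℝ => ∫ x in (0:ℝ)..1, f x * g (t + x) := by
  rw [continuous_iff_continuousAt]
  intro t0
  obtain ⟨B, hB⟩ := (isCompact_Icc (a := t0 - 1) (b := t0 + 2)).exists_bound_of_continuousOn hg.continuousOn
  refine intervalIntegral.continuousAt_of_dominated_interval (bound := fun _ => B) ?_ ?_ ?_ ?_
  · exact Eventually.of_forall fun t => (hf.mul (hg.measurable.comp (measurable_const_add t))).aestronglyMeasurable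
  · filter_upwards [Metric.ball_mem_nhds t0 one_pos] with t ht
    refine Eventually.of_forall fun x hx => ?_
    rw [Set.uIoc_of_le zero_le_one] at hx
    rw [Metric.mem_ball, Real.dist_eq, abs_lt] at ht
    rw [norm_mul, Real.norm_eq_abs]
    have h1 := hB (t + x) ⟨by linarith [hx.1], by linarith [hx.2]⟩
    calc |f x| * ‖g (t + x)‖ ≤ 1 * B := mul_le_mul (hf1 x) h1 (norm_nonneg _) zero_le_one
      _ = B := one_mul _
  · exact intervalIntegrable_const
  · exact Eventually.of_forall fun x _ => (continuous_const.mul (hg.comp (by fun_prop))).continuousAt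

lemma win_pt {f g h : ℝ → ℝ} (hf : Measurable f) (hf1 : ∀ x, |f x| ≤ 1) (hh : Continuous h)
    (hgh : ∀ u, |g u| ≤ h u) (t : ℝ) :
    |∫ x in (0:ℝ)..1, f x * g (t + x)| ≤ ∫ x in (0:ℝ)..1, h (t + x) := by
  have hc : Continuous fun x : ℝ => h (t + x) := hh.comp (by fun_prop)
  have h1 := intervalIntegral.norm_integral_le_of_norm_le (μ := volume) (f := fun x => f x * g (t + x)) zero_le_one
    (Eventually.of_forall fun x _ => ?_) (hc.intervalIntegrable (0:ℝ) 1)
  · exact h1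
  rw [norm_mul, Real.norm_eq_abs, Real.norm_eq_abs]
  calc |f x| * |g (t + x)| ≤ 1 * h (t + x) := mul_le_mul (hf1 x) (hgh _) (abs_nonneg _) zero_le_one
    _ = _ := one_mul _

lemma win_le {f g h : ℝ → ℝ} (hf : Measurable f) (hf1 : ∀ x, |f x| ≤ 1) (hg : Continuous g) (hh : Continuous h)
    (hgh : ∀ u, |g u| ≤ h u) {a b : ℝ} (hab : a ≤ b) :
    ∫ t in a..b, |∫ x in (0:ℝ)..1, f x * g (t + x)| ≤ ∫ u in a..(b + 1), h u := by
  refine le_trans ?_ (conv1 hh (fun u => (abs_nonneg _).trans (hgh u)) hab)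
  refine intervalIntegral.integral_mono_on hab ((fcont hf hf1 hg).abs.intervalIntegrable _ _) ?_
    fun t _ => win_pt hf hf1 hh hgh t
  exact (intervalIntegral.continuous_parametric_intervalIntegral_of_continuous' (by
      show Continuous fun q : ℝ × ℝ => h (q.1 + q.2)
      fun_prop) _ _).intervalIntegrable _ _

/-- interchange of the integrations over the windows -/
lemma win_swap {h : ℝ → ℝ} (hc : Continuous h) (a b : ℝ) :
    ∫ t in a..b, ∫ x in (0:ℝ)..1, h (t + x) = ∫ x in (0:ℝ)..1, ∫ t in a..b, h (t + x) := by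
  have hi : IntegrableOn (Function.uncurry fun t x : ℝ => h (t + x)) (Set.uIoc a b ×ˢ Set.uIoc 0 1)
      (volume.prod volume) := by
    have hcc : Continuous (Function.uncurry fun t x : ℝ => h (t + x)) := by
      show Continuous fun q : ℝ × ℝ => h (q.1 + q.2)
      fun_prop
    have hK : IsCompact (Set.uIcc a b ×ˢ Set.uIcc (0:ℝ) 1) := isCompact_uIcc.prod isCompact_uIcc
    exact (hcc.continuousOn.integrableOn_compact hK).mono_set
      (Set.prod_mono Set.uIoc_subset_uIcc Set.uIoc_subset_uIcc)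
  exact intervalIntegral_intervalIntegral_swap hi

/-- the low part -/
lemma low_ex {α : ℝ} (hα : 0 < α) (hα1 : α < 1) (z : ℕ) : ∃ lam δ0 : ℝ, 1 ≤ lam ∧ 0 < δ0 ∧ δ0 ≤ 1 / 16 ∧
    ∀ e : ℝ, 0 < e → ∀ᶠ X : ℝ in atTop, ∀ δ : ℝ, lam / Real.log X ≤ δ → δ ≤ δ0 →
    ∫ u in (0:ℝ)..(Xl X + 1), (Zn α δ u + mz α z u) ≤ e * X := by
  obtain ⟨lam, δ0, hlam, hδ0, hδ16, hlow⟩ := low_piece
  refine ⟨lam, δ0, hlam, hδ0, hδ16, fun e he => ?_⟩
  have haF := aF_pos hα
  have ht : Tendsto (fun X : ℝ => 2 * X) atTop atTop := tendsto_id.const_mul_atTop (by norm_num)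
  obtain ⟨Bz, hBz⟩ : ∃ Bz : ℝ, ∀ q, |M0 α (Sm z) q| ≤ Bz := by
    obtain ⟨B, hB⟩ := isCompact_univ.exists_bound_of_continuousOn
      (f := M0 α (Sm z)) (QC.M0_cont α (QC.Sm_prime z)).continuousOn
    exact ⟨B, fun q => hB q (Set.mem_univ _)⟩
  have hBz0 : 0 ≤ Bz := (abs_nonneg _).trans (hBz 0)
  have hgap : (0:ℝ) < 4 ^ ((4:ℝ)/5) - 3 ^ ((4:ℝ)/5) := by
    have := Real.rpow_lt_rpow (x := 3) (y := 4) (z := 4/5) (by norm_num) (by norm_num) (by norm_num)
    linarith
  have hr : Tendsto (fun X : ℝ => X ^ ((4:ℝ)/5)) atTop atTop := tendsto_rpow_atTop (by norm_num)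
  filter_upwards [ht.eventually (hlow (e * aF α / 4) (by positivity)), eventually_ge_atTop 3,
    hr.eventually (eventually_ge_atTop (1 / (4 ^ ((4:ℝ)/5) - 3 ^ ((4:ℝ)/5)))),
    Xl_small (η := e / (4 * (Bz + 1))) (by positivity), eventually_ge_atTop (4 * (Bz + 1) / e)]
    with X h1 h2 h3 h4 h5 δ hd1 hd2
  have hX0 : 0 < X := by linarith
  have hL0 : 0 < Real.log X := Real.log_pos (by linarith)
  have hL2 : Real.log X ≤ Real.log (2 * X) := Real.log_le_log hX0 (by linarith)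
  have hd3 : lam / Real.log (2 * X) ≤ δ :=
    le_trans (div_le_div_of_nonneg_left (by linarith) hL0 hL2) hd1
  have hδ : 0 < δ := lt_of_lt_of_le (div_pos (by linarith) hL0) hd1
  have h6 := h1 δ hd3 hd2 α hα (by linarith)
  have h7 : Xl X + 1 ≤ (2 * (2 * X)) ^ ((4:ℝ)/5) := by
    unfold Xl
    have g1 : (2 * (X + 1)) ^ ((4:ℝ)/5) ≤ (3 * X) ^ ((4:ℝ)/5) :=
      Real.rpow_le_rpow (by positivity) (by linarith) (by norm_num)
    have g2 : (3 * X) ^ ((4:ℝ)/5) = 3 ^ ((4:ℝ)/5) * X ^ ((4:ℝ)/5) := Real.mul_rpow (by norm_num) hX0.le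
    have g3 : (2 * (2 * X)) ^ ((4:ℝ)/5) = 4 ^ ((4:ℝ)/5) * X ^ ((4:ℝ)/5) := by
      rw [show 2 * (2 * X) = 4 * X by ring]; exact Real.mul_rpow (by norm_num) hX0.le
    rw [div_le_iff₀ hgap] at h3
    rw [g3]
    rw [g2] at g1
    nlinarith
  have hZc := Zn_cont' (δ := δ) hα (by linarith)
  have hmc := QC.mz_cont α z
  rw [intervalIntegral.integral_add (hZc.intervalIntegrable _ _) (hmc.intervalIntegrable _ _)]
  have hX1 : 0 ≤ Xl X + 1 := by linarith [h4.1]
  have e1 : ∫ u in (0:ℝ)..(Xl X + 1), Zn α δ u ≤ e / 2 * X := by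
    have hzc : Continuous fun u => zn (1 / 2 + δ) u ^ (2 * α) := znp_cont (by linarith) (by linarith)
    have g1 : ∫ u in (0:ℝ)..(Xl X + 1), Zn α δ u ≤ ∫ u in (0:ℝ)..(Xl X + 1), 1 / aF α * zn (1 / 2 + δ) u ^ (2 * α) := by
      refine intervalIntegral.integral_mono_on hX1 (hZc.intervalIntegrable _ _)
        ((hzc.const_mul _).intervalIntegrable _ _) fun u _ => ?_
      rw [Zn_eq]
      refine mul_le_mul_of_nonneg_right ?_ (Real.rpow_nonneg (zn_nonneg _ _) _)
      refine div_le_div_of_nonneg_right ?_ haF.le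
      exact Real.rpow_le_one (by positivity) (by linarith) (by positivity)
    refine g1.trans ?_
    rw [intervalIntegral.integral_const_mul]
    have g2 : ∫ u in (0:ℝ)..(Xl X + 1), zn (1 / 2 + δ) u ^ (2 * α) ≤
        ∫ t in (0:ℝ)..((2 * (2 * X)) ^ ((4:ℝ)/5)), zn (1 / 2 + δ) t ^ (2 * α) :=
      intervalIntegral.integral_mono_interval le_rfl hX1 h7
        (Eventually.of_forall fun u => Real.rpow_nonneg (zn_nonneg _ _) _) (hzc.intervalIntegrable _ _)
    have g3 := g2.trans h6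
    calc 1 / aF α * ∫ u in (0:ℝ)..(Xl X + 1), zn (1 / 2 + δ) u ^ (2 * α) ≤ 1 / aF α * (e * aF α / 4 * (2 * X)) :=
          mul_le_mul_of_nonneg_left g3 (by positivity)
      _ = e / 2 * X := by field_simp; ring
  have e2 : ∫ u in (0:ℝ)..(Xl X + 1), mz α z u ≤ e / 2 * X := by
    have g1 : ∫ u in (0:ℝ)..(Xl X + 1), mz α z u ≤ ∫ u in (0:ℝ)..(Xl X + 1), Bz :=
      intervalIntegral.integral_mono_on hX1 (hmc.intervalIntegrable _ _) intervalIntegrable_const
        fun u _ => (le_abs_self _).trans (hBz _)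
    refine g1.trans ?_
    rw [intervalIntegral.integral_const, smul_eq_mul, sub_zero]
    have g2 : Xl X * (Bz + 1) ≤ e / 4 * X := by
      calc Xl X * (Bz + 1) ≤ (e / (4 * (Bz + 1)) * X) * (Bz + 1) :=
            mul_le_mul_of_nonneg_right h4.2.1 (by linarith)
        _ = e / 4 * X := by field_simp
    rw [div_le_iff₀ he] at h5
    nlinarith [h4.1]
  linarith

/-- the middle term: the polynomial over the small primes against the density -/
lemma mid_le {α ε1 κ C e lam δ0 : ℝ} {z : ℕ} {W g : ℝ → ℝ → ℝ → ℝ} (he1 : e ≤ 1)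
    (hTS : TS C (α ^ 2 + ε1) κ e lam δ0 z W g) : ∀ᶠ X : ℝ in atTop, ∀ δ : ℝ, lam / Real.log X ≤ δ → δ ≤ δ0 →
    ∀ f : ℝ → ℝ, Measurable f → (∀ x, |f x| ≤ 1) → ∀ A : ℝ → ℝ, Continuous A → ∀ s : ℝ, 0 ≤ s →
    (∀ u, |A u - mz α z u| ≤ s * mz α z u) →
    ∫ t in Xl X..X, |∫ x in (0:ℝ)..1, f x * ((A (t + x) - mz α z (t + x)) * W X δ (t + x))| ≤ s * (3 * X) := by
  have hF : Continuous fun q : (Set.Icc (0:ℝ) 1) × UnitAddTorus (Sm z) => M0 α (Sm z) (q.2 + pt (Sm z) q.1) :=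
    (QC.M0_cont α (QC.Sm_prime z)).comp (continuous_snd.add ((QC.pt_cont _).comp (continuous_subtype_val.comp continuous_fst)))
  filter_upwards [hTS.one (Set.Icc (0:ℝ) 1) (fun q => M0 α (Sm z) (q.2 + pt (Sm z) q.1)) hF
    (fun q => (QC.M0_pos α (QC.Sm_prime z) _).le) 1 one_pos, eventually_ge_atTop 256] with X h1 hX δ hd1 hd2 f hf hf1 A hA s hs hAm
  have hX0 : 0 < X := by linarith
  have hXl := ASM.Xl_le hX
  have hWc := hTS.Wc X δ
  have hmc := QC.mz_cont α z
  have hgc : Continuous fun u => (A u - mz α z u) * W X δ u := (hA.sub hmc).mul hWc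
  have hhc : Continuous fun u => s * (mz α z u * W X δ u) := continuous_const.mul (hmc.mul hWc)
  have hpt : ∀ u, |(A u - mz α z u) * W X δ u| ≤ s * (mz α z u * W X δ u) := by
    intro u
    rw [abs_mul, abs_of_nonneg (hTS.W0 X δ u), ← mul_assoc]
    exact mul_le_mul_of_nonneg_right (hAm u) (hTS.W0 X δ u)
  have hsw : ∫ t in Xl X..X, |∫ x in (0:ℝ)..1, f x * ((A (t + x) - mz α z (t + x)) * W X δ (t + x))| ≤
      ∫ t in Xl X..X, ∫ x in (0:ℝ)..1, s * (mz α z (t + x) * W X δ (t + x)) := by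
    refine intervalIntegral.integral_mono_on hXl ((fcont hf hf1 hgc).abs.intervalIntegrable _ _) ?_
      fun t _ => win_pt hf hf1 hhc hpt t
    exact (intervalIntegral.continuous_parametric_intervalIntegral_of_continuous' (by
        show Continuous fun q : ℝ × ℝ => s * (mz α z (q.1 + q.2) * W X δ (q.1 + q.2))
        exact hhc.comp (by fun_prop)) _ _).intervalIntegrable _ _
  refine hsw.trans ?_
  rw [win_swap hhc]
  have hin : ∀ x ∈ Set.Icc (0:ℝ) 1, ∫ t in Xl X..X, s * (mz α z (t + x) * W X δ (t + x)) ≤ s * (3 * X) := by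
    intro x hx
    rw [intervalIntegral.integral_const_mul]
    refine mul_le_mul_of_nonneg_left ?_ hs
    have h2 := h1 δ hd1 hd2 ⟨x, hx⟩ x hx.1 hx.2
    have h3 : ∫ y, M0 α (Sm z) (y + pt (Sm z) x) ∂(HP (Sm z)) = 1 := by
      rw [RZ.int_trans (Sm z) (M0 α (Sm z))]; exact QC.M0_int α (QC.Sm_prime z)
    simp only [h3] at h2
    have h4 : ∀ t : ℝ, M0 α (Sm z) (pt (Sm z) t + pt (Sm z) x) = mz α z (t + x) := by
      intro t; unfold mz; rw [ASM.pt_add]
    simp only [h4] at h2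
    have h5 := (abs_le.mp h2).2
    nlinarith
  have hcx : Continuous fun x : ℝ => ∫ t in Xl X..X, s * (mz α z (t + x) * W X δ (t + x)) :=
    intervalIntegral.continuous_parametric_intervalIntegral_of_continuous' (by
      show Continuous fun q : ℝ × ℝ => s * (mz α z (q.2 + q.1) * W X δ (q.2 + q.1))
      exact hhc.comp (by fun_prop)) _ _
  calc ∫ x in (0:ℝ)..1, ∫ t in Xl X..X, s * (mz α z (t + x) * W X δ (t + x)) ≤ ∫ x in (0:ℝ)..1, s * (3 * X) :=
        intervalIntegral.integral_mono_on zero_le_one (hcx.intervalIntegrable _ _) intervalIntegrable_const hin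
    _ = _ := by simp

end Pool.Agent.N748.GC
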