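import Pool.Agent.N748.GC.Clo

set_option autoImplicit false

/-! Closeness of the normalised moment weight and of the product of the polynomials. -/

namespace Pool.Agent.N748.GC

open Finset Filter MeasureTheory MonoidAlgebra Topology Complex
open Pool.Agent.Y755 Pool.Agent.W184.NZ
open Pool.Agent.Y753.NL
open Pool.Agent.W184 (zn zn_nonneg zn_cont zn_le')
open Pool.Agent.H306R2 (aF aF_pos)

/-- integrals over unit windows -/
lemma conv1 {h : ℝ → ℝ} (hc : Continuous h) (h0 : ∀ u, 0 ≤ h u) {a b : ℝ} (hab : a ≤ b) :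
    ∫ t in a..b, ∫ x in (0:ℝ)..1, h (t + x) ≤ ∫ u in a..(b + 1), h u := by
  have hi : IntegrableOn (Function.uncurry fun t x : ℝ => h (t + x)) (Set.uIoc a b ×ˢ Set.uIoc 0 1)
      (volume.prod volume) := by
    have hcc : Continuous (Function.uncurry fun t x : ℝ => h (t + x)) := by
      show Continuous fun q : ℝ × ℝ => h (q.1 + q.2)
      fun_prop
    have hK : IsCompact (Set.uIcc a b ×ˢ Set.uIcc (0:ℝ) 1) := isCompact_uIcc.prod isCompact_uIcc
    exact (hcc.continuousOn.integrableOn_compact hK).mono_set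
      (Set.prod_mono Set.uIoc_subset_uIcc Set.uIoc_subset_uIcc)
  rw [intervalIntegral_intervalIntegral_swap hi]
  have h1 : ∀ x ∈ Set.Icc (0:ℝ) 1, ∫ t in a..b, h (t + x) ≤ ∫ u in a..(b + 1), h u := by
    intro x hx
    rw [intervalIntegral.integral_comp_add_right]
    refine intervalIntegral.integral_mono_interval (by linarith [hx.1]) (by linarith) (by linarith [hx.2])
      (Eventually.of_forall h0) (hc.intervalIntegrable _ _)
  have hcx : Continuous fun x : ℝ => ∫ t in a..b, h (t + x) :=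
    intervalIntegral.continuous_parametric_intervalIntegral_of_continuous' (by
      show Continuous fun q : ℝ × ℝ => h (q.2 + q.1)
      fun_prop) a b
  calc ∫ x in (0:ℝ)..1, ∫ t in a..b, h (t + x) ≤ ∫ x in (0:ℝ)..1, ∫ u in a..(b + 1), h u :=
        intervalIntegral.integral_mono_on zero_le_one (hcx.intervalIntegrable _ _) intervalIntegrable_const h1
    _ = _ := by simp

lemma Zn_eq (α δ u : ℝ) : Zn α δ u = (2 * δ) ^ (α ^ 2) / aF α * zn (1 / 2 + δ) u ^ (2 * α) := by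
  unfold Zn zn
  rw [aa_eq]
  push_cast
  rfl

lemma Zn_cont' {α δ : ℝ} (hα : 0 < α) (hδ : δ < 1 / 2) : Continuous (Zn α δ) := by
  have h1 : Continuous fun u => (2 * δ) ^ (α ^ 2) / aF α * zn (1 / 2 + δ) u ^ (2 * α) :=
    continuous_const.mul (znp_cont (by linarith) (by linarith))
  exact h1.congr fun u => (Zn_eq α δ u).symm

lemma Zn_nonneg {α δ : ℝ} (hα : 0 < α) (hδ : 0 ≤ δ) (u : ℝ) : 0 ≤ Zn α δ u := by
  rw [Zn_eq]
  have := aF_pos hα
  have := zn_nonneg (1 / 2 + δ) u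
  positivity

/-- closeness over one window -/
theorem close1 {α c η δ ε T m V Q1 Q2 : ℝ} {z Rs N K : ℕ} {Jf : ℝ → ℕ} {A0 : P1} (hα : 0 < α) (hδ : 0 < δ)
    (hε : 0 < ε) (hε1 : ε ≤ 1 / 20) (hT : 0 < T)
    (H : Cf c (yT η T) δ α ε (T ^ ((4:ℝ)/5)) (T / 2) (T ^ ((1:ℝ) / 50)) m
          (T / 2 * (ip δ A0 A0 * Real.exp (α ^ 2 * V))) (ip δ A0 A0) V Q1 Q2 z (Jf T) Rs N K A0)
    (h1 : |ip δ A0 A0 * Real.exp (α ^ 2 * V) - DD α δ| ≤ 3 * ε * DD α δ)
    (h2 : |(2 * δ) ^ (α ^ 2) * DD α δ - aF α| ≤ ε * aF α) :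
    ∫ u in (T ^ ((4:ℝ)/5))..(T / 2), |Zn α δ u - ‖es (1 / 2 + δ + u * I) A0‖ ^ 2 / ip δ A0 A0 *
      (‖ec (1 / 2 + δ + u * I) (BP (fun _ => α) z (yT η T) 0 (Jf T) Rs)‖ ^ 2 /
        Real.exp (α ^ 2 * VB δ z (yT η T) 0 (Jf T)))| ≤ 200 * ε * (T / 2) := by
  have haF := aF_pos hα
  set B := ip δ A0 A0 with hB
  have hB1 : 1 ≤ B := H.iB1
  set Nn := B * Real.exp (α ^ 2 * V) with hNn
  have hN0 : 0 < Nn := by positivity
  have hV : VB δ z (yT η T) 0 (Jf T) = V := by rw [VB_eq, H.iV]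
  set p := (2 * δ) ^ (α ^ 2) with hp
  have hp0 : 0 < p := by positivity
  set r := p / aF α * Nn with hr
  have hD0 : 0 ≤ DD α δ := zero_le_one.trans (DD_ge_one hα hδ)
  have hr0 : 0 < r := by positivity
  have hr1 : |r - 1| ≤ 5 * ε := by
    have e1 : r - 1 = (p * (Nn - DD α δ) + (p * DD α δ - aF α)) / aF α := by
      rw [hr]; field_simp; ring
    rw [e1, abs_div, abs_of_pos haF, div_le_iff₀ haF]
    refine (abs_add_le _ _).trans ?_
    rw [abs_mul, abs_of_pos hp0]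
    have g1 := mul_le_mul_of_nonneg_left h1 hp0.le
    have g2 := (abs_le.mp h2).2
    have g3 : p * (3 * ε * DD α δ) = 3 * ε * (p * DD α δ) := by ring
    rw [g3] at g1
    have g4 : p * DD α δ ≤ (1 + ε) * aF α := by linarith
    have g5 : 3 * ε * (p * DD α δ) ≤ 3 * ε * ((1 + ε) * aF α) := mul_le_mul_of_nonneg_left g4 (by positivity)
    have g6 : 0 < ε * aF α := by positivity
    nlinarith
  have hpt : ∀ u : ℝ, |Zn α δ u - ‖es (1 / 2 + δ + u * I) A0‖ ^ 2 / B *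
      (‖ec (1 / 2 + δ + u * I) (BP (fun _ => α) z (yT η T) 0 (Jf T) Rs)‖ ^ 2 /
        Real.exp (α ^ 2 * VB δ z (yT η T) 0 (Jf T)))| ≤
      (1 / Nn) * |zn (1 / 2 + δ) u ^ (2 * α) - wf δ α z (yT η T) (Jf T) Rs A0 u| +
        (5 * ε / Nn) * zn (1 / 2 + δ) u ^ (2 * α) := by
    intro u
    have e1 : ‖es (1 / 2 + δ + u * I) A0‖ ^ 2 / B *
      (‖ec (1 / 2 + δ + u * I) (BP (fun _ => α) z (yT η T) 0 (Jf T) Rs)‖ ^ 2 /
        Real.exp (α ^ 2 * VB δ z (yT η T) 0 (Jf T))) = (1 / Nn) * wf δ α z (yT η T) (Jf T) Rs A0 u := by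
      rw [hV, BP_eq, ec_cx, Bp_Bz]
      unfold wf
      rw [map_mul, norm_mul, mul_pow, hNn]
      field_simp
    have e2 : Zn α δ u = (r / Nn) * zn (1 / 2 + δ) u ^ (2 * α) := by
      rw [Zn_eq, hr, ← hp]; field_simp
    rw [e1, e2]
    set q := zn (1 / 2 + δ) u ^ (2 * α) with hq
    have hq0 : 0 ≤ q := Real.rpow_nonneg (zn_nonneg _ _) _
    set w := wf δ α z (yT η T) (Jf T) Rs A0 u with hw
    have e3 : r / Nn * q - 1 / Nn * w = (1 / Nn) * (q - w) + (r - 1) / Nn * q := by field_simp; ring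
    rw [e3]
    refine (abs_add_le _ _).trans (add_le_add ?_ ?_)
    · rw [abs_mul, abs_of_pos (by positivity)]
    · rw [abs_mul, abs_of_nonneg hq0, abs_div, abs_of_pos hN0]
      refine mul_le_mul_of_nonneg_right ?_ hq0
      exact div_le_div_of_nonneg_right hr1 hN0.le
  have hBPc : Continuous fun u : ℝ => ‖ec (1 / 2 + δ + u * I) (BP (fun _ => α) z (yT η T) 0 (Jf T) Rs)‖ ^ 2 :=
    (ec_cont (BP_ne _ _ _ _ _ _) (1 / 2 + δ)).norm.pow 2
  have hAc : Continuous fun u : ℝ => ‖es (1 / 2 + δ + u * I) A0‖ ^ 2 := by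
    have h1 : ∀ n ∈ (cx A0).coeff.support, n ≠ 0 := by
      intro n hn
      rw [cx_supp] at hn
      exact (H.iA n hn).1
    have h2 := ((ec_cont h1 (1 / 2 + δ)).norm.pow 2)
    refine h2.congr fun t => ?_
    show ‖ec (1 / 2 + δ + t * I) (cx A0)‖ ^ 2 = _
    rw [ec_cx]
  have hZc := Zn_cont' (δ := δ) hα (by have := H.id1; linarith)
  have c1 : Continuous fun u : ℝ => |Zn α δ u - ‖es (1 / 2 + δ + u * I) A0‖ ^ 2 / B *
      (‖ec (1 / 2 + δ + u * I) (BP (fun _ => α) z (yT η T) 0 (Jf T) Rs)‖ ^ 2 /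
        Real.exp (α ^ 2 * VB δ z (yT η T) 0 (Jf T)))| :=
    (hZc.sub ((hAc.div_const _).mul (hBPc.div_const _))).abs
  have c2 := H.c1
  have c0 := H.c0
  have c3 : Continuous fun u : ℝ => (1 / Nn) * |zn (1 / 2 + δ) u ^ (2 * α) - wf δ α z (yT η T) (Jf T) Rs A0 u| :=
    continuous_const.mul (c0.sub c2).abs
  have c4 : Continuous fun u : ℝ => (5 * ε / Nn) * zn (1 / 2 + δ) u ^ (2 * α) := continuous_const.mul c0
  refine (intervalIntegral.integral_mono_on H.iX12 (c1.intervalIntegrable _ _)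
    ((c3.add c4).intervalIntegrable _ _) fun u _ => hpt u).trans ?_
  simp only [Pi.add_apply]
  rw [intervalIntegral.integral_add (c3.intervalIntegrable _ _) (c4.intervalIntegrable _ _),
    intervalIntegral.integral_const_mul, intervalIntegral.integral_const_mul]
  have g1 := H.cl
  have g2 := (abs_le.mp H.fa).2
  set I1 := ∫ u in (T ^ ((4:ℝ)/5))..(T / 2), |zn (1 / 2 + δ) u ^ (2 * α) - wf δ α z (yT η T) (Jf T) Rs A0 u| with hI1
  set I2 := ∫ u in (T ^ ((4:ℝ)/5))..(T / 2), zn (1 / 2 + δ) u ^ (2 * α) with hI2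
  have g3 : 1 / Nn * I1 ≤ 140 * ε * (T / 2) := by
    calc 1 / Nn * I1 ≤ 1 / Nn * (140 * ε * (T / 2 * Nn)) := mul_le_mul_of_nonneg_left g1 (by positivity)
      _ = _ := by field_simp
  have g4 : 5 * ε / Nn * I2 ≤ 5 * ε * ((1 + 200 * ε) * (T / 2)) := by
    calc 5 * ε / Nn * I2 ≤ 5 * ε / Nn * ((1 + 200 * ε) * (T / 2 * Nn)) :=
          mul_le_mul_of_nonneg_left (by linarith) (by positivity)
      _ = _ := by field_simp
  have g5 : 5 * ε * ((1 + 200 * ε) * (T / 2)) ≤ 60 * ε * (T / 2) := by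
    have : 0 < ε * (T / 2) := by positivity
    nlinarith
  linarith

end Pool.Agent.N748.GC
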