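import Pool.Agent.N748.GC.Cor

set_option autoImplicit false

/-! Closeness to the random Euler product in unit windows. -/

namespace Pool.Agent.N748.GC

open Finset Filter MeasureTheory MonoidAlgebra Topology Complex
open Pool.Agent.Y755 Pool.Agent.W184.NZ
open Pool.Agent.Y753.NL
open Pool.Agent.W184 (zn zn_nonneg zn_cont zn_le')
open Pool.Agent.H306R2 (aF aF_pos)

/-- CORE from the bounds for the weights -/
theorem core (hONE : S_ONE) (hA : S_BADA) (hB : S_BADB) (hT : S_TWO) (hASM : S_ASM) (hCUT : S_CUT) (hED : S_ED) :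
    S_CORE := by
  intro α h0 h1 ε hε
  have hα2 : α ^ 2 < 1 := by nlinarith
  obtain ⟨s, hs⟩ : ∃ s : ℝ, s = min (ε / 500) (1 / 20) := ⟨_, rfl⟩
  have hs0 : 0 < s := by rw [hs]; exact lt_min (by positivity) (by norm_num)
  have hs1 : s ≤ 1 / 20 := by rw [hs]; exact min_le_right _ _
  have hsε : 500 * s ≤ ε := by
    have : s ≤ ε / 500 := by rw [hs]; exact min_le_left _ _
    linarith
  obtain ⟨e, he⟩ : ∃ e : ℝ, e = s ^ 2 := ⟨_, rfl⟩
  have he0 : 0 < e := by rw [he]; positivity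
  have he1 : e ≤ s := by rw [he]; nlinarith
  have he5 : 5 * e ≤ 1 := by linarith
  have hsq : Real.sqrt (5 * e) ≤ 3 * s := by
    rw [Real.sqrt_le_left (by positivity), he]; nlinarith [sq_nonneg s]
  obtain ⟨b, hb⟩ : ∃ b : ℝ, b = (α ^ 2 + 1) / 2 := ⟨_, rfl⟩
  obtain ⟨ε1, hε1⟩ : ∃ ε1 : ℝ, ε1 = (1 - α ^ 2) / 2 := ⟨_, rfl⟩
  have hb1 : α ^ 2 < b := by rw [hb]; linarith
  have hb2 : b < 1 := by rw [hb]; linarith
  have hε10 : 0 < ε1 := by rw [hε1]; linarith
  have hε11 : α ^ 2 + ε1 < 1 := by rw [hε1]; linarith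
  have hε12 : ε1 < 1 - α ^ 2 := by rw [hε1]; linarith
  obtain ⟨c, hc, hcf⟩ := cf_all h0 (by linarith)
  obtain ⟨A, C, hC, zT, RT, hTS⟩ := ts_ex hONE hA hB hT h0 h1 hε10 hε11 hε10 (by nlinarith) hc he0
  obtain ⟨zc, hcf⟩ := hcf s hs0 (by linarith) (1 / 50) (by norm_num) (RT + 1)
  obtain ⟨zE, hED⟩ := hED α h0 h1 b hb1 hb2 ε1 hε10 hε12 (α ^ 2 + ε1) (by positivity) hε11 (C + 4) (by linarith) s hs0
  obtain ⟨zC, hCUT⟩ := hCUT α h0 h1 b hb1 s hs0
  refine ⟨zT + zc + zE + zC, fun z hz => ?_⟩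
  obtain ⟨hz1000, A0, m, lam1, δ1, η, Rs, Jf, hA0, hBd, hm1, hlam1, hδ1, hδ16, hη, hRs, hev⟩ := hcf z (by omega)
  have hED' := hED z (by omega) (5 * e) (by positivity) he5
  have hCUT' := hCUT z (by omega)
  -- the size condition
  have hlogT : Tendsto (fun T : ℝ => lam1 / Real.log T) atTop (𝓝 0) :=
    tendsto_const_nhds.div_atTop Real.tendsto_log_atTop
  have hev0 := hev.and (hlogT.eventually (gt_mem_nhds hδ1))
  have hPA : ∀ s' : ℂ, 1 / 2 ≤ s'.re → 1 - s ≤ ‖es s' (Pz z)‖ ^ (2 * α) * ‖es s' A0‖ ^ 2 ∧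
      ‖es s' (Pz z)‖ ^ (2 * α) * ‖es s' A0‖ ^ 2 ≤ 1 + s := by
    obtain ⟨T, hT1, hT2⟩ := hev0.exists
    obtain ⟨V, Q1, Q2, N, K, H, -, -⟩ := hT1 δ1 (le_of_lt hT2) le_rfl
    exact H.iPA
  have hSB : SB c z Rs (fun X => yT η (2 * (X + 1))) (fun X => Jf (2 * (X + 1))) := by
    refine SB_of (yf := yT η) hz1000 (by omega) ?_
    filter_upwards [hev0] with T hT
    obtain ⟨hT1, hT2⟩ := hT
    obtain ⟨V, Q1, Q2, N, K, H, hexp, -⟩ := hT1 δ1 (le_of_lt hT2) le_rfl
    exact ⟨⟨N, K, H.iS⟩, hexp⟩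
  obtain ⟨δ2, hδ2, hTS⟩ := hTS z (by omega) Rs (by omega) _ _ hSB
  obtain ⟨δ3, hδ3, hnear⟩ := A0_near h0 hBd hs0 hs1 hPA
  obtain ⟨δ4, hδ4, hDD⟩ := DD_unif h0 hs0
  obtain ⟨lam5, δ5, hlam5, hδ5, hδ516, hlow⟩ := low_ex h0 h1 z
  obtain ⟨δ0, hδ0⟩ : ∃ δ0 : ℝ, δ0 = min (min δ1 δ2) (min (min δ3 δ4) δ5) := ⟨_, rfl⟩
  have d1 : δ0 ≤ δ1 := by rw [hδ0]; exact (min_le_left _ _).trans (min_le_left _ _)
  have d2 : δ0 ≤ δ2 := by rw [hδ0]; exact (min_le_left _ _).trans (min_le_right _ _)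
  have d3 : δ0 ≤ δ3 := by rw [hδ0]; exact (min_le_right _ _).trans ((min_le_left _ _).trans (min_le_left _ _))
  have d4 : δ0 ≤ δ4 := by rw [hδ0]; exact (min_le_right _ _).trans ((min_le_left _ _).trans (min_le_right _ _))
  have d5 : δ0 ≤ δ5 := by rw [hδ0]; exact (min_le_right _ _).trans (min_le_right _ _)
  have d0 : 0 < δ0 := by rw [hδ0]; exact lt_min (lt_min hδ1 hδ2) (lt_min (lt_min hδ3 hδ4) hδ5)
  obtain ⟨lam, hlam⟩ : ∃ lam : ℝ, lam = max lam1 lam5 := ⟨_, rfl⟩
  have l1 : lam1 ≤ lam := by rw [hlam]; exact le_max_left _ _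
  have l5 : lam5 ≤ lam := by rw [hlam]; exact le_max_right _ _
  have l0 : 1 ≤ lam := hlam1.trans l1
  have hTS' := hTS lam δ0 l0 d2
  refine ⟨lam, δ0, l0, d0, d1.trans hδ16, ?_⟩
  have ht : Tendsto (fun X : ℝ => 2 * (X + 1)) atTop atTop :=
    (tendsto_atTop_add_const_right _ _ tendsto_id).const_mul_atTop (by norm_num)
  filter_upwards [ht.eventually hev, mid_le (le_trans he1 (by linarith)) hTS', hlow s hs0, eventually_ge_atTop 256,
    hASM α b C (α ^ 2 + ε1) ε1 e lam δ0 z _ _ h0 (by omega) hC (by positivity) hε11 he0.le (by linarith) hTS' s hs0]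
    with X g1 g2 g3 hX g5 δ hd1 hd2 f hf hf1
  have hX0 : 0 < X := by linarith
  have hL0 : 0 < Real.log X := Real.log_pos (by linarith)
  have hδp : 0 < δ := lt_of_lt_of_le (div_pos (by linarith) hL0) hd1
  have hXl := ASM.Xl_le hX
  have hXl0 : 0 ≤ Xl X := by unfold Xl; positivity
  have hL2 : Real.log X ≤ Real.log (2 * (X + 1)) := Real.log_le_log hX0 (by linarith)
  have hd3 : lam1 / Real.log (2 * (X + 1)) ≤ δ := by
    refine le_trans (div_le_div_of_nonneg_left (by linarith) hL0 hL2) (le_trans ?_ hd1)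
    exact div_le_div_of_nonneg_right l1 hL0.le
  have hd5 : lam5 / Real.log X ≤ δ := le_trans (div_le_div_of_nonneg_right l5 hL0.le) hd1
  obtain ⟨V, Q1, Q2, N, K, H, -, hB3⟩ := g1 δ hd3 (hd2.trans d1)
  have hXX : 2 * (X + 1) / 2 = X + 1 := by ring
  have hcl := close1 h0 hδp hs0 hs1 (by positivity) H hB3 (hDD δ hδp (hd2.trans d4))
  rw [hXX] at hcl
  have hXlX : (2 * (X + 1)) ^ ((4:ℝ)/5) = Xl X := rfl
  rw [hXlX] at hcl
  set W : ℝ → ℝ := fun u => WB α z Rs (fun X => yT η (2 * (X + 1))) (fun X => Jf (2 * (X + 1))) X δ u with hW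
  have hWc : Continuous W := WB_cont _ _ _ _ _ _ _
  set AA : ℝ → ℝ := fun u => ‖es (1 / 2 + δ + u * I) A0‖ ^ 2 / ip δ A0 A0 with hAA
  have hAAc : Continuous AA := by
    have h1 : ∀ n ∈ (cx A0).coeff.support, n ≠ 0 := by
      intro n hn
      rw [cx_supp] at hn
      exact (hBd n hn).1
    have h2 := ((ec_cont h1 (1 / 2 + δ)).norm.pow 2).div_const (ip δ A0 A0)
    refine h2.congr fun t => ?_
    show ‖ec (1 / 2 + δ + t * I) (cx A0)‖ ^ 2 / _ = _
    rw [ec_cx]
  have hZc := Zn_cont' (δ := δ) h0 (by have := H.id1; linarith)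
  have hmc := QC.mz_cont α z
  have hAn := hnear δ hδp.le (hd2.trans d3) H.iB1
  -- the low part
  have r0 : ∫ t in (0:ℝ)..(Xl X), |∫ x in (0:ℝ)..1, f x * (Zn α δ (t + x) - mz α z (t + x))| ≤ s * X := by
    refine (win_le hf hf1 (g := fun u => Zn α δ u - mz α z u) (h := fun u => Zn α δ u + mz α z u) (hZc.sub hmc)
      (hZc.add hmc) (fun u => ?_) hXl0).trans (g3 δ hd5 (hd2.trans d5))
    refine (abs_sub _ _).trans ?_
    rw [abs_of_nonneg (Zn_nonneg h0 hδp.le u), abs_of_pos (show 0 < mz α z u from QC.M0_pos α (QC.Sm_prime z) _)]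
  -- the first part
  have r1 : ∫ t in Xl X..X, |∫ x in (0:ℝ)..1, f x * (Zn α δ (t + x) - AA (t + x) * W (t + x))| ≤
      200 * s * (X + 1) := by
    exact (win_le hf hf1 (g := fun u => Zn α δ u - AA u * W u) (h := fun u => |Zn α δ u - AA u * W u|)
      (hZc.sub (hAAc.mul hWc)) (hZc.sub (hAAc.mul hWc)).abs (fun u => le_rfl) hXl).trans hcl
  -- the second part
  have r2 : ∫ t in Xl X..X, |∫ x in (0:ℝ)..1, f x * ((AA (t + x) - mz α z (t + x)) * W (t + x))| ≤
      10 * s * (3 * X) := g2 δ hd1 hd2 f hf hf1 AA hAAc (10 * s) (by positivity) hAn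
  -- the third part
  have r3 : ∀ f' : ℝ → ℝ, Measurable f' → (∀ x, 0 ≤ f' x) → (∀ x, f' x ≤ 1) →
      ∫ t in Xl X..X, |∫ x in (0:ℝ)..1, f' x * (mz α z (t + x) * (W (t + x) - 1))| ≤ 9 * s * X := by
    intro f' hf' hf0' hf1'
    refine (g5 δ hd1 hd2 f' hf' hf0' hf1').trans ?_
    have : e + 3 * (∫ x, (M0 α (Sm z) x - Mc α b z x) ∂(HP (Sm z))) +
      (∫ x, Real.sqrt (QK α b z (Kz (C + 4) (α ^ 2 + ε1) ε1 (5 * e) z) x) ∂(HP (Sm z))) + s ≤ 9 * s := by
      linarith
    nlinarith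
  have r3' : ∫ t in Xl X..X, |∫ x in (0:ℝ)..1, f x * (mz α z (t + x) * (W (t + x) - 1))| ≤ 18 * s * X := by
    have hp := r3 (fun x => max (f x) 0) (hf.max measurable_const) (fun x => le_max_right _ _)
      (fun x => max_le ((le_abs_self _).trans (hf1 x)) zero_le_one)
    have hn := r3 (fun x => max (-f x) 0) (hf.neg.max measurable_const) (fun x => le_max_right _ _)
      (fun x => max_le ((neg_le_abs _).trans (hf1 x)) zero_le_one)
    have hgc : Continuous fun u => mz α z u * (W u - 1) := hmc.mul (hWc.sub continuous_const)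
    have m1 : Measurable fun x => max (f x) 0 := hf.max measurable_const
    have m2 : Measurable fun x => max (-f x) 0 := hf.neg.max measurable_const
    have b1 : ∀ x, |max (f x) 0| ≤ 1 := fun x => by
      rw [abs_of_nonneg (le_max_right _ _)]; exact max_le ((le_abs_self _).trans (hf1 x)) zero_le_one
    have b2 : ∀ x, |max (-f x) 0| ≤ 1 := fun x => by
      rw [abs_of_nonneg (le_max_right _ _)]; exact max_le ((neg_le_abs _).trans (hf1 x)) zero_le_one
    have c1 := fcont (hf.max measurable_const) b1 hgc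
    have c2 := fcont (hf.neg.max measurable_const) b2 hgc
    have c3 := fcont hf hf1 hgc
    have hle : ∀ t : ℝ, |∫ x in (0:ℝ)..1, f x * (mz α z (t + x) * (W (t + x) - 1))| ≤
        |∫ x in (0:ℝ)..1, max (f x) 0 * (mz α z (t + x) * (W (t + x) - 1))| +
        |∫ x in (0:ℝ)..1, max (-f x) 0 * (mz α z (t + x) * (W (t + x) - 1))| := by
      intro t
      have hgt : Continuous fun x => mz α z (t + x) * (W (t + x) - 1) := hgc.comp (by fun_prop)
      have hii : ∀ f' : ℝ → ℝ, Measurable f' → (∀ x, |f' x| ≤ 1) → IntervalIntegrable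
          (fun x => f' x * (mz α z (t + x) * (W (t + x) - 1))) volume 0 1 := by
        intro f' hf' hf1'
        rw [intervalIntegrable_iff]
        have h2 := intervalIntegrable_iff.mp (hgt.intervalIntegrable (μ := volume) 0 1)
        have h3 := h2.bdd_mul (c := 1) hf'.aestronglyMeasurable
          (Eventually.of_forall fun t => by rw [Real.norm_eq_abs]; exact hf1' t)
        exact h3
      have e1 : ∫ x in (0:ℝ)..1, f x * (mz α z (t + x) * (W (t + x) - 1)) =
          (∫ x in (0:ℝ)..1, max (f x) 0 * (mz α z (t + x) * (W (t + x) - 1))) -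
          ∫ x in (0:ℝ)..1, max (-f x) 0 * (mz α z (t + x) * (W (t + x) - 1)) := by
        rw [← intervalIntegral.integral_sub (hii _ m1 b1) (hii _ m2 b2)]
        refine intervalIntegral.integral_congr fun x _ => ?_
        show f x * (mz α z (t + x) * (W (t + x) - 1)) = max (f x) 0 * (mz α z (t + x) * (W (t + x) - 1)) -
          max (-f x) 0 * (mz α z (t + x) * (W (t + x) - 1))
        have : f x = max (f x) 0 - max (-f x) 0 := by
          rcases le_total (f x) 0 with h | h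
          · rw [max_eq_right h, max_eq_left (by linarith)]; ring
          · rw [max_eq_left h, max_eq_right (by linarith)]; ring
        rw [← sub_mul, ← this]
      rw [e1]
      exact abs_sub _ _
    calc ∫ t in Xl X..X, |∫ x in (0:ℝ)..1, f x * (mz α z (t + x) * (W (t + x) - 1))| ≤
          ∫ t in Xl X..X, (|∫ x in (0:ℝ)..1, max (f x) 0 * (mz α z (t + x) * (W (t + x) - 1))| +
            |∫ x in (0:ℝ)..1, max (-f x) 0 * (mz α z (t + x) * (W (t + x) - 1))|) :=
          intervalIntegral.integral_mono_on hXl (c3.abs.intervalIntegrable _ _)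
            ((c1.abs.add c2.abs).intervalIntegrable _ _) fun t _ => hle t
      _ = _ := intervalIntegral.integral_add (c1.abs.intervalIntegrable _ _) (c2.abs.intervalIntegrable _ _)
      _ ≤ 18 * s * X := by linarith
  -- together
  have hg1 : Continuous fun u => Zn α δ u - AA u * W u := hZc.sub (hAAc.mul hWc)
  have hg2 : Continuous fun u => (AA u - mz α z u) * W u := (hAAc.sub hmc).mul hWc
  have hg3 : Continuous fun u => mz α z u * (W u - 1) := hmc.mul (hWc.sub continuous_const)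
  have k0 : Continuous fun t : ℝ => |∫ x in (0:ℝ)..1, f x * (Zn α δ (t + x) - mz α z (t + x))| :=
    (fcont hf hf1 (hZc.sub hmc)).abs
  have k1 : Continuous fun t : ℝ => |∫ x in (0:ℝ)..1, f x * (Zn α δ (t + x) - AA (t + x) * W (t + x))| :=
    (fcont hf hf1 hg1).abs
  have k2 : Continuous fun t : ℝ => |∫ x in (0:ℝ)..1, f x * ((AA (t + x) - mz α z (t + x)) * W (t + x))| :=
    (fcont hf hf1 hg2).abs
  have k3 : Continuous fun t : ℝ => |∫ x in (0:ℝ)..1, f x * (mz α z (t + x) * (W (t + x) - 1))| :=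
    (fcont hf hf1 hg3).abs
  have k12 : Continuous fun t : ℝ => |∫ x in (0:ℝ)..1, f x * (Zn α δ (t + x) - AA (t + x) * W (t + x))| +
      |∫ x in (0:ℝ)..1, f x * ((AA (t + x) - mz α z (t + x)) * W (t + x))| := k1.add k2
  have hle : ∀ t : ℝ, |∫ x in (0:ℝ)..1, f x * (Zn α δ (t + x) - mz α z (t + x))| ≤
      |∫ x in (0:ℝ)..1, f x * (Zn α δ (t + x) - AA (t + x) * W (t + x))| +
      |∫ x in (0:ℝ)..1, f x * ((AA (t + x) - mz α z (t + x)) * W (t + x))| +
      |∫ x in (0:ℝ)..1, f x * (mz α z (t + x) * (W (t + x) - 1))| := by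
    intro t
    have hii : ∀ g : ℝ → ℝ, Continuous g → IntervalIntegrable (fun x => f x * g (t + x)) volume 0 1 := by
      intro g hg
      have hgt : Continuous fun x => g (t + x) := hg.comp (by fun_prop)
      rw [intervalIntegrable_iff]
      have h2 := intervalIntegrable_iff.mp (hgt.intervalIntegrable (μ := volume) 0 1)
      exact h2.bdd_mul (c := 1) hf.aestronglyMeasurable
        (Eventually.of_forall fun t => by rw [Real.norm_eq_abs]; exact hf1 t)
    have i1 := hii _ hg1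
    have i2 := hii _ hg2
    have i3 := hii _ hg3
    have e1 : ∫ x in (0:ℝ)..1, f x * (Zn α δ (t + x) - mz α z (t + x)) =
        (∫ x in (0:ℝ)..1, f x * (Zn α δ (t + x) - AA (t + x) * W (t + x))) +
        (∫ x in (0:ℝ)..1, f x * ((AA (t + x) - mz α z (t + x)) * W (t + x))) +
        ∫ x in (0:ℝ)..1, f x * (mz α z (t + x) * (W (t + x) - 1)) := by
      rw [← intervalIntegral.integral_add i1 i2, ← intervalIntegral.integral_add (i1.add i2) i3]
      refine intervalIntegral.integral_congr fun x _ => ?_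
      show f x * (Zn α δ (t + x) - mz α z (t + x)) = f x * (Zn α δ (t + x) - AA (t + x) * W (t + x)) +
        f x * ((AA (t + x) - mz α z (t + x)) * W (t + x)) + f x * (mz α z (t + x) * (W (t + x) - 1))
      ring
    rw [e1]
    exact (abs_add_le _ _).trans (add_le_add (abs_add_le _ _) le_rfl)
  have hmain : ∫ t in Xl X..X, |∫ x in (0:ℝ)..1, f x * (Zn α δ (t + x) - mz α z (t + x))| ≤
      200 * s * (X + 1) + 10 * s * (3 * X) + 18 * s * X := by
    calc ∫ t in Xl X..X, |∫ x in (0:ℝ)..1, f x * (Zn α δ (t + x) - mz α z (t + x))| ≤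
          ∫ t in Xl X..X, (|∫ x in (0:ℝ)..1, f x * (Zn α δ (t + x) - AA (t + x) * W (t + x))| +
            |∫ x in (0:ℝ)..1, f x * ((AA (t + x) - mz α z (t + x)) * W (t + x))| +
            |∫ x in (0:ℝ)..1, f x * (mz α z (t + x) * (W (t + x) - 1))|) :=
          intervalIntegral.integral_mono_on hXl (k0.intervalIntegrable _ _)
            ((k12.add k3).intervalIntegrable _ _) fun t _ => hle t
      _ = (∫ t in Xl X..X, |∫ x in (0:ℝ)..1, f x * (Zn α δ (t + x) - AA (t + x) * W (t + x))|) +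
            (∫ t in Xl X..X, |∫ x in (0:ℝ)..1, f x * ((AA (t + x) - mz α z (t + x)) * W (t + x))|) +
            ∫ t in Xl X..X, |∫ x in (0:ℝ)..1, f x * (mz α z (t + x) * (W (t + x) - 1))| := by
          rw [intervalIntegral.integral_add (k12.intervalIntegrable _ _) (k3.intervalIntegrable _ _),
            intervalIntegral.integral_add (k1.intervalIntegrable _ _) (k2.intervalIntegrable _ _)]
      _ ≤ _ := add_le_add (add_le_add r1 r2) r3'
  rw [← intervalIntegral.integral_add_adjacent_intervals (k0.intervalIntegrable 0 (Xl X))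
    (k0.intervalIntegrable (Xl X) X)]
  have hfin : s * X + (200 * s * (X + 1) + 10 * s * (3 * X) + 18 * s * X) ≤ ε * X := by
    have : 500 * s * X ≤ ε * X := mul_le_mul_of_nonneg_right hsε hX0.le
    nlinarith
  linarith

end Pool.Agent.N748.GC
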