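import Pool.Agent.N748.GC.Ts3
import Pool.Agent.N748.GC.Cor

set_option autoImplicit false

/-! Windows of length `δ^(-θ)`: closeness to the random Euler product. -/

namespace Pool.Agent.N748.GC

open Finset Filter MeasureTheory MonoidAlgebra Topology Complex
open Pool.Agent.Y755 Pool.Agent.W184.NZ
open Pool.Agent.Y753.NL
open Pool.Agent.W184 (zn zn_nonneg zn_cont zn_le')
open Pool.Agent.H306R2 (aF aF_pos)

/-- integrals over windows -/
lemma convH {h : ℝ → ℝ} (hc : Continuous h) (h0 : ∀ u, 0 ≤ h u) {a b H k : ℝ} (hab : a ≤ b) (hH : 0 < H)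
    (hk : k * H = 1) : ∫ t in a..b, k * ∫ x in (0:ℝ)..H, h (t + x) ≤ ∫ u in a..(b + H), h u := by
  have hk0 : 0 < k := by
    by_contra hcon
    push Not at hcon
    nlinarith
  have hi : IntegrableOn (Function.uncurry fun t x : ℝ => h (t + x)) (Set.uIoc a b ×ˢ Set.uIoc 0 H)
      (volume.prod volume) := by
    have hcc : Continuous (Function.uncurry fun t x : ℝ => h (t + x)) := by
      show Continuous fun q : ℝ × ℝ => h (q.1 + q.2)
      fun_prop
    have hK : IsCompact (Set.uIcc a b ×ˢ Set.uIcc (0:ℝ) H) := isCompact_uIcc.prod isCompact_uIcc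
    exact (hcc.continuousOn.integrableOn_compact hK).mono_set
      (Set.prod_mono Set.uIoc_subset_uIcc Set.uIoc_subset_uIcc)
  rw [intervalIntegral.integral_const_mul, intervalIntegral_intervalIntegral_swap hi]
  have h1 : ∀ x ∈ Set.Icc (0:ℝ) H, ∫ t in a..b, h (t + x) ≤ ∫ u in a..(b + H), h u := by
    intro x hx
    rw [intervalIntegral.integral_comp_add_right]
    refine intervalIntegral.integral_mono_interval (by linarith [hx.1]) (by linarith) (by linarith [hx.2])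
      (Eventually.of_forall h0) (hc.intervalIntegrable _ _)
  have hcx : Continuous fun x : ℝ => ∫ t in a..b, h (t + x) :=
    intervalIntegral.continuous_parametric_intervalIntegral_of_continuous' (by
      show Continuous fun q : ℝ × ℝ => h (q.2 + q.1)
      fun_prop) a b
  calc k * ∫ x in (0:ℝ)..H, ∫ t in a..b, h (t + x) ≤ k * ∫ x in (0:ℝ)..H, ∫ u in a..(b + H), h u :=
        mul_le_mul_of_nonneg_left
          (intervalIntegral.integral_mono_on hH.le (hcx.intervalIntegrable _ _) intervalIntegrable_const h1) hk0.le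
    _ = (k * H) * ∫ u in a..(b + H), h u := by
        rw [intervalIntegral.integral_const, smul_eq_mul, sub_zero]; ring
    _ = _ := by rw [hk, one_mul]

lemma hwin_cont {g : ℝ → ℝ} (hg : Continuous g) (k H : ℝ) : Continuous fun t : ℝ => k * ∫ x in (0:ℝ)..H, g (t + x) :=
  continuous_const.mul (intervalIntegral.continuous_parametric_intervalIntegral_of_continuous' (by
    show Continuous fun q : ℝ × ℝ => g (q.1 + q.2)
    fun_prop) _ _)

lemma hwin_pt {g h : ℝ → ℝ} (hh : Continuous h) (hgh : ∀ u, |g u| ≤ h u) {H k : ℝ} (hH : 0 ≤ H) (hk : 0 ≤ k) (t : ℝ) :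
    |k * ∫ x in (0:ℝ)..H, g (t + x)| ≤ k * ∫ x in (0:ℝ)..H, h (t + x) := by
  have hc : Continuous fun x : ℝ => h (t + x) := hh.comp (by fun_prop)
  rw [abs_mul, abs_of_nonneg hk]
  refine mul_le_mul_of_nonneg_left ?_ hk
  have h1 := intervalIntegral.norm_integral_le_of_norm_le (μ := volume) (f := fun x => g (t + x)) hH
    (Eventually.of_forall fun x _ => ?_) (hc.intervalIntegrable (0:ℝ) H)
  · exact h1
  exact hgh _

lemma hwin_le {g h : ℝ → ℝ} (hg : Continuous g) (hh : Continuous h) (hgh : ∀ u, |g u| ≤ h u) {a b H k : ℝ}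
    (hab : a ≤ b) (hH : 0 < H) (hk : k * H = 1) :
    ∫ t in a..b, |k * ∫ x in (0:ℝ)..H, g (t + x)| ≤ ∫ u in a..(b + H), h u := by
  have hk0 : 0 < k := by
    by_contra hcon
    push Not at hcon
    nlinarith
  refine le_trans ?_ (convH hh (fun u => (abs_nonneg _).trans (hgh u)) hab hH hk)
  exact intervalIntegral.integral_mono_on hab ((hwin_cont hg k H).abs.intervalIntegrable _ _)
    ((hwin_cont hh k H).intervalIntegrable _ _) fun t _ => hwin_pt hh hgh hH.le hk0.le t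

/-- the low part, for longer windows -/
lemma low_ex2 {α : ℝ} (hα : 0 < α) (hα1 : α ≤ 2) : ∃ lam δ0 : ℝ, 1 ≤ lam ∧ 0 < δ0 ∧ δ0 ≤ 1 / 16 ∧
    ∀ e : ℝ, 0 < e → ∀ᶠ X : ℝ in atTop, ∀ δ : ℝ, lam / Real.log X ≤ δ → δ ≤ δ0 →
    ∫ u in (0:ℝ)..(Xl X + X ^ ((1:ℝ) / 2)), (Zn α δ u + 1) ≤ e * X := by
  obtain ⟨lam, δ0, hlam, hδ0, hδ16, hlow⟩ := low_piece
  refine ⟨lam, δ0, hlam, hδ0, hδ16, fun e he => ?_⟩
  have haF := aF_pos hα
  have ht : Tendsto (fun X : ℝ => 2 * X) atTop atTop := tendsto_id.const_mul_atTop (by norm_num)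
  have hgap : (0:ℝ) < 4 ^ ((4:ℝ)/5) - 3 ^ ((4:ℝ)/5) := by
    have := Real.rpow_lt_rpow (x := 3) (y := 4) (z := 4/5) (by norm_num) (by norm_num) (by norm_num)
    linarith
  filter_upwards [ht.eventually (hlow (e * aF α / 4) (by positivity)), eventually_ge_atTop 3,
    rpow_ev (p := 1 / 2) (q := 4 / 5) (by norm_num) (1 / (4 ^ ((4:ℝ)/5) - 3 ^ ((4:ℝ)/5))),
    Xl_small (η := e / 4) (by positivity), rpow_ev (p := 1 / 2) (q := 1) (by norm_num) (4 / e)]
    with X h1 h2 h3 h4 h5 δ hd1 hd2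
  have hX0 : 0 < X := by linarith
  have hL0 : 0 < Real.log X := Real.log_pos (by linarith)
  have hL2 : Real.log X ≤ Real.log (2 * X) := Real.log_le_log hX0 (by linarith)
  have hd3 : lam / Real.log (2 * X) ≤ δ :=
    le_trans (div_le_div_of_nonneg_left (by linarith) hL0 hL2) hd1
  have hδ : 0 < δ := lt_of_lt_of_le (div_pos (by linarith) hL0) hd1
  have h6 := h1 δ hd3 hd2 α hα (by linarith)
  have hs0 : 0 ≤ X ^ ((1:ℝ) / 2) := Real.rpow_nonneg hX0.le _
  have h7 : Xl X + X ^ ((1:ℝ) / 2) ≤ (2 * (2 * X)) ^ ((4:ℝ)/5) := by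
    unfold Xl
    have g1 : (2 * (X + 1)) ^ ((4:ℝ)/5) ≤ (3 * X) ^ ((4:ℝ)/5) :=
      Real.rpow_le_rpow (by positivity) (by linarith) (by norm_num)
    have g2 : (3 * X) ^ ((4:ℝ)/5) = 3 ^ ((4:ℝ)/5) * X ^ ((4:ℝ)/5) := Real.mul_rpow (by norm_num) hX0.le
    have g3 : (2 * (2 * X)) ^ ((4:ℝ)/5) = 4 ^ ((4:ℝ)/5) * X ^ ((4:ℝ)/5) := by
      rw [show 2 * (2 * X) = 4 * X by ring]; exact Real.mul_rpow (by norm_num) hX0.le
    rw [div_mul_eq_mul_div, one_mul, div_le_iff₀ hgap] at h3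
    rw [g3]
    rw [g2] at g1
    nlinarith
  have hZc := Zn_cont' (δ := δ) hα (by linarith)
  rw [intervalIntegral.integral_add (hZc.intervalIntegrable _ _) intervalIntegrable_const]
  have hX1 : 0 ≤ Xl X + X ^ ((1:ℝ) / 2) := by linarith [h4.1]
  have e1 : ∫ u in (0:ℝ)..(Xl X + X ^ ((1:ℝ) / 2)), Zn α δ u ≤ e / 2 * X := by
    have hzc : Continuous fun u => zn (1 / 2 + δ) u ^ (2 * α) := znp_cont (by linarith) (by linarith)
    have g1 : ∫ u in (0:ℝ)..(Xl X + X ^ ((1:ℝ) / 2)), Zn α δ u ≤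
        ∫ u in (0:ℝ)..(Xl X + X ^ ((1:ℝ) / 2)), 1 / aF α * zn (1 / 2 + δ) u ^ (2 * α) := by
      refine intervalIntegral.integral_mono_on hX1 (hZc.intervalIntegrable _ _)
        ((hzc.const_mul _).intervalIntegrable _ _) fun u _ => ?_
      rw [Zn_eq]
      refine mul_le_mul_of_nonneg_right ?_ (Real.rpow_nonneg (zn_nonneg _ _) _)
      refine div_le_div_of_nonneg_right ?_ haF.le
      exact Real.rpow_le_one (by positivity) (by linarith) (by positivity)
    refine g1.trans ?_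
    rw [intervalIntegral.integral_const_mul]
    have g2 : ∫ u in (0:ℝ)..(Xl X + X ^ ((1:ℝ) / 2)), zn (1 / 2 + δ) u ^ (2 * α) ≤
        ∫ t in (0:ℝ)..((2 * (2 * X)) ^ ((4:ℝ)/5)), zn (1 / 2 + δ) t ^ (2 * α) :=
      intervalIntegral.integral_mono_interval le_rfl hX1 h7
        (Eventually.of_forall fun u => Real.rpow_nonneg (zn_nonneg _ _) _) (hzc.intervalIntegrable _ _)
    have g3 := g2.trans h6
    calc 1 / aF α * ∫ u in (0:ℝ)..(Xl X + X ^ ((1:ℝ) / 2)), zn (1 / 2 + δ) u ^ (2 * α) ≤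
          1 / aF α * (e * aF α / 4 * (2 * X)) := mul_le_mul_of_nonneg_left g3 (by positivity)
      _ = e / 2 * X := by field_simp; ring
  have e2 : ∫ u in (0:ℝ)..(Xl X + X ^ ((1:ℝ) / 2)), (1:ℝ) ≤ e / 2 * X := by
    rw [intervalIntegral.integral_const, smul_eq_mul, sub_zero, mul_one]
    rw [Real.rpow_one] at h5
    have g2 := mul_le_mul_of_nonneg_left h5 (by positivity : 0 ≤ e / 4)
    have g3 : e / 4 * (4 / e * X ^ ((1:ℝ) / 2)) = X ^ ((1:ℝ) / 2) := by field_simp
    linarith [h4.2.1]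
  linarith

/-- the middle term: the polynomial over the small primes against the density -/
lemma mid_le2 {b C ζ e lam δ0 : ℝ} {α : ℝ} {z : ℕ} {W g κ : ℝ → ℝ → ℝ → ℝ} (he1 : e ≤ 1)
    (hTS : TS2 b C ζ e lam δ0 z W g κ) : ∀ᶠ X : ℝ in atTop, ∀ δ : ℝ, lam / Real.log X ≤ δ → δ ≤ δ0 →
    ∀ A : ℝ → ℝ, Continuous A → ∀ s : ℝ, 0 ≤ s → (∀ u, |A u - mz α z u| ≤ s * mz α z u) →
    ∀ H k : ℝ, 0 < H → k * H = 1 →
    ∫ t in Xl X..X, |k * ∫ x in (0:ℝ)..H, (A (t + x) - mz α z (t + x)) * W X δ (t + x)| ≤ s * (3 * X) := by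
  have hF : Continuous fun q : UnitAddTorus (Sm z) × UnitAddTorus (Sm z) => M0 α (Sm z) (q.2 + q.1) :=
    (QC.M0_cont α (QC.Sm_prime z)).comp (continuous_snd.add continuous_fst)
  filter_upwards [hTS.one (UnitAddTorus (Sm z)) (fun q => M0 α (Sm z) (q.2 + q.1)) hF
    (fun q => (QC.M0_pos α (QC.Sm_prime z) _).le) 1 one_pos, eventually_ge_atTop 256] with X h1 hX δ hd1 hd2 A hA s hs hAm
    H k hH hk
  have hk0 : 0 < k := by
    by_contra hcon
    push Not at hcon
    nlinarith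
  have hX0 : 0 < X := by linarith
  have hXl := ASM.Xl_le hX
  have hWc := hTS.Wc X δ
  have hmc := QC.mz_cont α z
  have hgc : Continuous fun u => (A u - mz α z u) * W X δ u := (hA.sub hmc).mul hWc
  have hhc : Continuous fun u => s * (mz α z u * W X δ u) := continuous_const.mul (hmc.mul hWc)
  have hpt : ∀ u, |(A u - mz α z u) * W X δ u| ≤ s * (mz α z u * W X δ u) := by
    intro u
    rw [abs_mul, abs_of_nonneg (hTS.W0 X δ u), ← mul_assoc]
    exact mul_le_mul_of_nonneg_right (hAm u) (hTS.W0 X δ u)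
  have hsw : ∫ t in Xl X..X, |k * ∫ x in (0:ℝ)..H, (A (t + x) - mz α z (t + x)) * W X δ (t + x)| ≤
      ∫ t in Xl X..X, k * ∫ x in (0:ℝ)..H, s * (mz α z (t + x) * W X δ (t + x)) :=
    intervalIntegral.integral_mono_on hXl ((hwin_cont hgc k H).abs.intervalIntegrable _ _)
      ((hwin_cont hhc k H).intervalIntegrable _ _) fun t _ => hwin_pt hhc hpt hH.le hk0.le t
  refine hsw.trans ?_
  have hi : IntegrableOn (Function.uncurry fun t x : ℝ => s * (mz α z (t + x) * W X δ (t + x)))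
      (Set.uIoc (Xl X) X ×ˢ Set.uIoc 0 H) (volume.prod volume) := by
    have hcc : Continuous (Function.uncurry fun t x : ℝ => s * (mz α z (t + x) * W X δ (t + x))) := by
      show Continuous fun q : ℝ × ℝ => s * (mz α z (q.1 + q.2) * W X δ (q.1 + q.2))
      exact hhc.comp (by fun_prop)
    have hK : IsCompact (Set.uIcc (Xl X) X ×ˢ Set.uIcc (0:ℝ) H) := isCompact_uIcc.prod isCompact_uIcc
    exact (hcc.continuousOn.integrableOn_compact hK).mono_set
      (Set.prod_mono Set.uIoc_subset_uIcc Set.uIoc_subset_uIcc)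
  rw [intervalIntegral.integral_const_mul, intervalIntegral_intervalIntegral_swap hi]
  have hin : ∀ x ∈ Set.Icc (0:ℝ) H, ∫ t in Xl X..X, s * (mz α z (t + x) * W X δ (t + x)) ≤ s * (3 * X) := by
    intro x hx
    rw [intervalIntegral.integral_const_mul]
    refine mul_le_mul_of_nonneg_left ?_ hs
    have h2 := h1 δ hd1 hd2 (pt (Sm z) x) x
    have h3 : ∫ y, M0 α (Sm z) (y + pt (Sm z) x) ∂(HP (Sm z)) = 1 := by
      rw [RZ.int_trans (Sm z) (M0 α (Sm z))]; exact QC.M0_int α (QC.Sm_prime z)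
    simp only [h3] at h2
    have h4 : ∀ t : ℝ, M0 α (Sm z) (pt (Sm z) t + pt (Sm z) x) = mz α z (t + x) := by
      intro t; unfold mz; rw [ASM.pt_add]
    simp only [h4] at h2
    have h5 := (abs_le.mp h2).2
    nlinarith
  have hcx : Continuous fun x : ℝ => ∫ t in Xl X..X, s * (mz α z (t + x) * W X δ (t + x)) :=
    intervalIntegral.continuous_parametric_intervalIntegral_of_continuous' (by
      show Continuous fun q : ℝ × ℝ => s * (mz α z (q.2 + q.1) * W X δ (q.2 + q.1))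
      exact hhc.comp (by fun_prop)) _ _
  calc k * ∫ x in (0:ℝ)..H, ∫ t in Xl X..X, s * (mz α z (t + x) * W X δ (t + x)) ≤ k * ∫ x in (0:ℝ)..H, s * (3 * X) :=
        mul_le_mul_of_nonneg_left
          (intervalIntegral.integral_mono_on hH.le (hcx.intervalIntegrable _ _) intervalIntegrable_const hin) hk0.le
    _ = (k * H) * (s * (3 * X)) := by
        rw [intervalIntegral.integral_const, smul_eq_mul, sub_zero]; ring
    _ = _ := by rw [hk, one_mul]

end Pool.Agent.N748.GC
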