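import Pool.Agent.N748.GC.Cor3

set_option autoImplicit false

/-! Windows of length `δ^(-θ)`: the moments. -/

namespace Pool.Agent.N748.GC

open Finset Filter MeasureTheory MonoidAlgebra Topology Complex
open Pool.Agent.Y755 Pool.Agent.W184.NZ
open Pool.Agent.Y753.NL
open Pool.Agent.W184 (zn zn_nonneg zn_cont zn_le')
open Pool.Agent.H306R2 (aF aF_pos)

lemma win_long {θ : ℝ} (hθ : 0 < θ) (H0 : ℝ) : ∃ δ6 : ℝ, 0 < δ6 ∧ ∀ δ : ℝ, 0 < δ → δ ≤ δ6 → H0 ≤ δ ^ (-θ) := by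
  refine ⟨(max H0 1) ^ (-(1 / θ)), Real.rpow_pos_of_pos (lt_max_of_lt_right one_pos) _, fun δ hδ hδ6 => ?_⟩
  have hm : 0 < max H0 1 := lt_max_of_lt_right one_pos
  have h1 : ((max H0 1) ^ (-(1 / θ))) ^ (-θ) ≤ δ ^ (-θ) :=
    (Real.rpow_le_rpow_iff_of_neg (Real.rpow_pos_of_pos hm _) hδ (by linarith)).mpr hδ6
  have h2 : ((max H0 1) ^ (-(1 / θ))) ^ (-θ) = max H0 1 := by
    rw [← Real.rpow_mul hm.le, neg_mul_neg, one_div, inv_mul_cancel₀ hθ.ne', Real.rpow_one]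
  rw [h2] at h1
  exact (le_max_left _ _).trans h1

lemma win_short {θ : ℝ} (hθ : 0 < θ) {lam : ℝ} (hlam : 1 ≤ lam) : ∀ᶠ X : ℝ in atTop, ∀ δ : ℝ, lam / Real.log X ≤ δ →
    δ ^ (-θ) ≤ X ^ ((1:ℝ) / 2) := by
  have h1 := (isLittleO_log_rpow_rpow_atTop θ (show (0:ℝ) < 1 / 2 by norm_num)).bound (c := 1) one_pos
  filter_upwards [h1, eventually_gt_atTop 1] with X h2 hX δ hδ
  have hX0 : 0 < X := by linarith
  have hL0 : 0 < Real.log X := Real.log_pos hX
  rw [Real.norm_of_nonneg (Real.rpow_nonneg hL0.le _), Real.norm_of_nonneg (Real.rpow_nonneg hX0.le _), one_mul] at h2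
  refine le_trans ?_ h2
  have h3 : (Real.log X)⁻¹ ≤ δ := by
    refine le_trans ?_ hδ
    rw [inv_eq_one_div]
    exact div_le_div_of_nonneg_right hlam hL0.le
  have h4 : δ ^ (-θ) ≤ ((Real.log X)⁻¹) ^ (-θ) :=
    (Real.rpow_le_rpow_iff_of_neg (lt_of_lt_of_le (inv_pos.mpr hL0) h3) (inv_pos.mpr hL0) (by linarith)).mpr h3
  rwa [Real.inv_rpow hL0.le, Real.rpow_neg hL0.le, inv_inv] at h4

theorem core2a (hONE : S_ONE2) (hA : S_BADA2) (hB : S_BADB2) (hN : S_NEAR2) (hF : S_FAR) (hK : S_KAP) (hCUT : S_CUT2)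
    (hASM : S_ASM2) : ∀ α : ℝ, 0 < α → α < 2 → ∀ θ : ℝ, 0 < θ → α ^ 2 - 1 < θ → ∀ ε : ℝ, 0 < ε → ∃ lam δ0 : ℝ,
    1 ≤ lam ∧ 0 < δ0 ∧ δ0 ≤ 1 / 16 ∧ ∀ᶠ X : ℝ in atTop, ∀ δ : ℝ, lam / Real.log X ≤ δ → δ ≤ δ0 →
    ∫ t in (0:ℝ)..(X + 1 - δ ^ (-θ)), |δ ^ θ * (∫ x in (0:ℝ)..(δ ^ (-θ)), Zn α δ (t + x)) - 1| ≤ ε * X := by
  intro α h0 h1 θ hθ hθ1 ε hε
  obtain ⟨C0, hC0, hASM⟩ := hASM
  obtain ⟨s, hs⟩ : ∃ s : ℝ, s = min (ε / (2 * C0 + 433)) (1 / 20) := ⟨_, rfl⟩
  have hs0 : 0 < s := by rw [hs]; exact lt_min (by positivity) (by norm_num)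
  have hs1 : s ≤ 1 / 20 := by rw [hs]; exact min_le_right _ _
  have hsε : (2 * C0 + 433) * s ≤ ε := by
    have : s ≤ ε / (2 * C0 + 433) := by rw [hs]; exact min_le_left _ _
    rwa [le_div_iff₀ (by positivity), mul_comm] at this
  obtain ⟨e, he⟩ : ∃ e : ℝ, e = s ^ 2 := ⟨_, rfl⟩
  have he0 : 0 < e := by rw [he]; positivity
  have he1 : e ≤ 1 := by rw [he]; nlinarith
  have hsq : Real.sqrt e = s := by rw [he]; exact Real.sqrt_sq hs0.le
  obtain ⟨b, hb⟩ : ∃ b : ℝ, b = α ^ 2 + 1 := ⟨_, rfl⟩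
  have hb0 : 0 < b := by rw [hb]; positivity
  -- the exponents
  have hgap : 0 < θ - max 0 (α ^ 2 - 1) := by
    rcases le_total 0 (α ^ 2 - 1) with h | h
    · rw [max_eq_right h]; linarith
    · rw [max_eq_left h]; linarith
  obtain ⟨ε1, hε1⟩ : ∃ ε1 : ℝ, ε1 = min 1 ((θ - max 0 (α ^ 2 - 1)) / 2) := ⟨_, rfl⟩
  have hε10 : 0 < ε1 := by rw [hε1]; exact lt_min one_pos (by linarith)
  have hε11 : ε1 ≤ 1 := by rw [hε1]; exact min_le_left _ _
  have hε12 : ε1 < θ - max 0 (α ^ 2 - 1) := by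
    rw [hε1]; exact lt_of_le_of_lt (min_le_right _ _) (by linarith)
  obtain ⟨ζ, hζ⟩ : ∃ ζ : ℝ, ζ = 1 + max 0 (α ^ 2 - 1) + ε1 := ⟨_, rfl⟩
  have hζ1 : 1 < ζ := by rw [hζ]; have := le_max_left 0 (α ^ 2 - 1); linarith
  have hζ2 : ζ - 1 < θ := by rw [hζ]; linarith
  have hζ3 : α ^ 2 + ε1 ≤ ζ := by rw [hζ]; have := le_max_right 0 (α ^ 2 - 1); linarith
  obtain ⟨c, hc, hcf⟩ := cf_all h0 h1.le
  obtain ⟨A, C, hC, zT, RT, hTS⟩ := ts2_ex hONE hA hB hN hF hK h0 h1 hε10 hε11 hζ3 hc he0 b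
  obtain ⟨zc, hcf⟩ := hcf s hs0 (by linarith) (1 / 50) (by norm_num) (RT + 1)
  obtain ⟨zC, hCUT⟩ := hCUT α h0 h1.le b (by rw [hb]; linarith) s hs0
  obtain ⟨z, hz⟩ : ∃ z : ℕ, z = zT + zc + zC := ⟨_, rfl⟩
  obtain ⟨hz1000, A0, m, lam1, δ1, η, Rs, Jf, hA0, hBd, hm1, hlam1, hδ1, hδ16, hη, hRs, hev⟩ := hcf z (by omega)
  have hCUT' := hCUT z (by omega)
  -- the size condition
  have hlogT : Tendsto (fun T : ℝ => lam1 / Real.log T) atTop (𝓝 0) :=
    tendsto_const_nhds.div_atTop Real.tendsto_log_atTop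
  have hev0 := hev.and (hlogT.eventually (gt_mem_nhds hδ1))
  have hPA : ∀ s' : ℂ, 1 / 2 ≤ s'.re → 1 - s ≤ ‖es s' (Pz z)‖ ^ (2 * α) * ‖es s' A0‖ ^ 2 ∧
      ‖es s' (Pz z)‖ ^ (2 * α) * ‖es s' A0‖ ^ 2 ≤ 1 + s := by
    obtain ⟨T, hT1, hT2⟩ := hev0.exists
    obtain ⟨V, Q1, Q2, N, K, H, -, -⟩ := hT1 δ1 (le_of_lt hT2) le_rfl
    exact H.iPA
  have hSB : SB c z Rs (fun X => yT η (2 * (X + 1))) (fun X => Jf (2 * (X + 1))) := by
    refine SB_of (yf := yT η) hz1000 (by omega) ?_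
    filter_upwards [hev0] with T hT
    obtain ⟨hT1, hT2⟩ := hT
    obtain ⟨V, Q1, Q2, N, K, H, hexp, -⟩ := hT1 δ1 (le_of_lt hT2) le_rfl
    exact ⟨⟨N, K, H.iS⟩, hexp⟩
  obtain ⟨δ2, lamk, hδ2, hTS⟩ := hTS z (by omega) Rs (by omega) _ _ hSB
  obtain ⟨δ3, hδ3, hnear⟩ := A0_near h0 hBd hs0 hs1 hPA
  obtain ⟨δ4, hδ4, hDD⟩ := DD_unif h0 hs0
  obtain ⟨lam5, δ5, hlam5, hδ5, hδ516, hlow⟩ := low_ex2 h0 h1.le
  obtain ⟨H0, hH0, hERG⟩ := ERG.main (Sm z) (QC.Sm_prime z) (M0 α (Sm z)) (QC.M0_cont α (QC.Sm_prime z)) s hs0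
  obtain ⟨δ6, hδ6, hlong⟩ := win_long hθ (max H0 1)
  obtain ⟨δ7, hδ7⟩ : ∃ δ7 : ℝ, δ7 = min (min δ1 δ2) (min (min δ3 δ4) (min δ5 δ6)) := ⟨_, rfl⟩
  have d1 : δ7 ≤ δ1 := by rw [hδ7]; exact (min_le_left _ _).trans (min_le_left _ _)
  have d2 : δ7 ≤ δ2 := by rw [hδ7]; exact (min_le_left _ _).trans (min_le_right _ _)
  have d3 : δ7 ≤ δ3 := by rw [hδ7]; exact (min_le_right _ _).trans ((min_le_left _ _).trans (min_le_left _ _))
  have d4 : δ7 ≤ δ4 := by rw [hδ7]; exact (min_le_right _ _).trans ((min_le_left _ _).trans (min_le_right _ _))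
  have d5 : δ7 ≤ δ5 := by rw [hδ7]; exact (min_le_right _ _).trans ((min_le_right _ _).trans (min_le_left _ _))
  have d6 : δ7 ≤ δ6 := by rw [hδ7]; exact (min_le_right _ _).trans ((min_le_right _ _).trans (min_le_right _ _))
  have d0 : 0 < δ7 := by rw [hδ7]; exact lt_min (lt_min hδ1 hδ2) (lt_min (lt_min hδ3 hδ4) (lt_min hδ5 hδ6))
  obtain ⟨lam, hlam⟩ : ∃ lam : ℝ, lam = max (max lam1 lam5) (lamk / η) := ⟨_, rfl⟩
  have l1 : lam1 ≤ lam := by rw [hlam]; exact (le_max_left _ _).trans (le_max_left _ _)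
  have l5 : lam5 ≤ lam := by rw [hlam]; exact (le_max_right _ _).trans (le_max_left _ _)
  have lk : lamk / η ≤ lam := by rw [hlam]; exact le_max_right _ _
  have l0 : 1 ≤ lam := hlam1.trans l1
  have hyk : ∀ᶠ X : ℝ in atTop, ∀ δ : ℝ, lam / Real.log X ≤ δ → lamk ≤ δ * Real.log (yT η (2 * (X + 1))) := by
    filter_upwards [eventually_gt_atTop 1] with X hX δ hδ
    have hX0 : 0 < X := by linarith
    have hL0 : 0 < Real.log X := Real.log_pos hX
    have hL2 : Real.log X ≤ Real.log (2 * (X + 1)) := Real.log_le_log hX0 (by linarith)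
    have hly : Real.log (yT η (2 * (X + 1))) = η * Real.log (2 * (X + 1)) := Real.log_exp _
    have hδp : 0 < δ := lt_of_lt_of_le (div_pos (by linarith) hL0) hδ
    rw [hly]
    rw [div_le_iff₀ hη] at lk
    rw [div_le_iff₀ hL0] at hδ
    calc lamk ≤ lam * η := lk
      _ ≤ (δ * Real.log X) * η := mul_le_mul_of_nonneg_right hδ hη.le
      _ = (δ * η) * Real.log X := by ring
      _ ≤ (δ * η) * Real.log (2 * (X + 1)) := mul_le_mul_of_nonneg_left hL2 (by positivity)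
      _ = _ := by ring
  have hTS' := hTS lam δ7 l0 d2 (d1.trans hδ16) hyk
  obtain ⟨δ8, hδ8, hδ87, hASM⟩ := hASM α b C ζ e lam δ7 θ z _ _ _ h0 hb0 (by omega) hC hζ1 hζ2 he0 he1 l0 d0
    (d1.trans (hδ16.trans (by norm_num))) hTS' s hs0
  refine ⟨lam, δ8, l0, hδ8, hδ87.trans (d1.trans hδ16), ?_⟩
  have ht : Tendsto (fun X : ℝ => 2 * (X + 1)) atTop atTop :=
    (tendsto_atTop_add_const_right _ _ tendsto_id).const_mul_atTop (by norm_num)
  filter_upwards [ht.eventually hev, mid_le2 (α := α) he1 hTS', hlow s hs0, eventually_ge_atTop 256, hASM,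
    win_short hθ l0] with X g1 g2 g3 hX g5 g6 δ hd1 hd2
  have hd2 : δ ≤ δ7 := hd2.trans hδ87
  have hd2' : δ ≤ δ8 := by assumption
  have hX0 : 0 < X := by linarith
  have hL0 : 0 < Real.log X := Real.log_pos (by linarith)
  have hδp : 0 < δ := lt_of_lt_of_le (div_pos (by linarith) hL0) hd1
  have hXl := ASM.Xl_le hX
  have hXl0 : 0 ≤ Xl X := by unfold Xl; positivity
  have hL2 : Real.log X ≤ Real.log (2 * (X + 1)) := Real.log_le_log hX0 (by linarith)
  have hd3 : lam1 / Real.log (2 * (X + 1)) ≤ δ := by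
    refine le_trans (div_le_div_of_nonneg_left (by linarith) hL0 hL2) (le_trans ?_ hd1)
    exact div_le_div_of_nonneg_right l1 hL0.le
  have hd5 : lam5 / Real.log X ≤ δ := le_trans (div_le_div_of_nonneg_right l5 hL0.le) hd1
  obtain ⟨V, Q1, Q2, N, K, H, -, hB3⟩ := g1 δ hd3 (hd2.trans d1)
  have hXX : 2 * (X + 1) / 2 = X + 1 := by ring
  have hcl := close1 h0 hδp hs0 hs1 (by positivity) H hB3 (hDD δ hδp (hd2.trans d4))
  rw [hXX] at hcl
  have hXlX : (2 * (X + 1)) ^ ((4:ℝ)/5) = Xl X := rfl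
  rw [hXlX] at hcl
  -- the window
  obtain ⟨Hw, hHw⟩ : ∃ Hw : ℝ, Hw = δ ^ (-θ) := ⟨_, rfl⟩
  obtain ⟨k, hk⟩ : ∃ k : ℝ, k = δ ^ θ := ⟨_, rfl⟩
  have hkH : k * Hw = 1 := by rw [hk, hHw, ← Real.rpow_add hδp]; simp
  have hHw1 : max H0 1 ≤ Hw := by rw [hHw]; exact hlong δ hδp (hd2.trans d6)
  have hHwH0 : H0 ≤ Hw := (le_max_left _ _).trans hHw1
  have hHwone : 1 ≤ Hw := (le_max_right _ _).trans hHw1
  have hHwp : 0 < Hw := by linarith
  have hHwX : Hw ≤ X ^ ((1:ℝ) / 2) := by rw [hHw]; exact g6 δ hd1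
  have hkp : 0 < k := by rw [hk]; exact Real.rpow_pos_of_pos hδp _
  rw [← hHw, ← hk]
  set W : ℝ → ℝ := fun u => WB α z Rs (fun X => yT η (2 * (X + 1))) (fun X => Jf (2 * (X + 1))) X δ u with hW
  have hWc : Continuous W := WB_cont _ _ _ _ _ _ _
  set AA : ℝ → ℝ := fun u => ‖es (1 / 2 + δ + u * I) A0‖ ^ 2 / ip δ A0 A0 with hAA
  have hAAc : Continuous AA := by
    have h1 : ∀ n ∈ (cx A0).coeff.support, n ≠ 0 := by
      intro n hn
      rw [cx_supp] at hn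
      exact (hBd n hn).1
    have h2 := ((ec_cont h1 (1 / 2 + δ)).norm.pow 2).div_const (ip δ A0 A0)
    refine h2.congr fun t => ?_
    show ‖ec (1 / 2 + δ + t * I) (cx A0)‖ ^ 2 / _ = _
    rw [ec_cx]
  have hZc := Zn_cont' (δ := δ) h0 (by have := H.id1; linarith)
  have hmc := QC.mz_cont α z
  have hAn := hnear δ hδp.le (hd2.trans d3) H.iB1
  have hZ0 : ∀ u, 0 ≤ Zn α δ u := Zn_nonneg h0 hδp.le
  -- the integrand
  have hsplit1 : ∀ t : ℝ, k * (∫ x in (0:ℝ)..Hw, Zn α δ (t + x)) - 1 = k * ∫ x in (0:ℝ)..Hw, (Zn α δ (t + x) - 1) := by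
    intro t
    have hc : Continuous fun x : ℝ => Zn α δ (t + x) := hZc.comp (by fun_prop)
    rw [intervalIntegral.integral_sub (hc.intervalIntegrable _ _) intervalIntegrable_const,
      intervalIntegral.integral_const, smul_eq_mul, sub_zero, mul_one, mul_sub, hkH]
  have hDc : Continuous fun t : ℝ => |k * (∫ x in (0:ℝ)..Hw, Zn α δ (t + x)) - 1| :=
    ((hwin_cont hZc k Hw).sub continuous_const).abs
  -- the low part
  have r0 : ∫ t in (0:ℝ)..(Xl X), |k * (∫ x in (0:ℝ)..Hw, Zn α δ (t + x)) - 1| ≤ s * X := by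
    simp only [hsplit1]
    have hc1 : Continuous fun u => Zn α δ u - 1 := hZc.sub continuous_const
    have hc2 : Continuous fun u => Zn α δ u + 1 := hZc.add continuous_const
    refine (hwin_le hc1 hc2 (fun u => ?_) hXl0 hHwp hkH).trans ?_
    · refine (abs_sub _ _).trans ?_
      rw [abs_of_nonneg (hZ0 u), abs_one]
    · refine le_trans ?_ (g3 δ hd5 (hd2.trans d5))
      exact intervalIntegral.integral_mono_interval le_rfl (by linarith) (by linarith)
        (Eventually.of_forall fun u => by have := hZ0 u; show 0 ≤ Zn α δ u + 1; linarith) (hc2.intervalIntegrable _ _)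
  have hup : X + 1 - Hw ≤ X := by linarith
  have hlo : Xl X ≤ X + 1 - Hw ∨ X + 1 - Hw < Xl X := le_or_gt _ _
  -- the first part
  have hg1 : Continuous fun u => Zn α δ u - AA u * W u := hZc.sub (hAAc.mul hWc)
  have hg2 : Continuous fun u => (AA u - mz α z u) * W u := (hAAc.sub hmc).mul hWc
  have hg3 : Continuous fun u => mz α z u * (W u - 1) := hmc.mul (hWc.sub continuous_const)
  have hg4 : Continuous fun u => mz α z u - 1 := hmc.sub continuous_const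
  have r2 : ∫ t in Xl X..X, |k * ∫ x in (0:ℝ)..Hw, (AA (t + x) - mz α z (t + x)) * W (t + x)| ≤ 10 * s * (3 * X) :=
    g2 δ hd1 hd2 AA hAAc (10 * s) (by positivity) hAn Hw k hHwp hkH
  have r3 : ∫ t in Xl X..X, |k * ∫ x in (0:ℝ)..Hw, mz α z (t + x) * (W (t + x) - 1)| ≤ (2 * C0 * s + s) * X := by
    have g7 := g5 δ hd1 hd2'
    rw [← hHw, ← hk] at g7
    refine g7.trans ?_
    rw [hsq]
    have : C0 * (s + ∫ x, (M0 α (Sm z) x - Mc α b z x) ∂(HP (Sm z))) ≤ C0 * (s + s) :=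
      mul_le_mul_of_nonneg_left (by linarith) hC0.le
    nlinarith
  have r4 : ∀ t : ℝ, |k * ∫ x in (0:ℝ)..Hw, (mz α z (t + x) - 1)| ≤ s := by
    intro t
    have h7 := hERG Hw hHwH0 t
    rw [QC.M0_int α (QC.Sm_prime z)] at h7
    have hc : Continuous fun x : ℝ => mz α z (t + x) := hmc.comp (by fun_prop)
    rw [intervalIntegral.integral_sub (hc.intervalIntegrable _ _) intervalIntegrable_const,
      intervalIntegral.integral_const, smul_eq_mul, sub_zero, mul_one, mul_sub, hkH]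
    have h8 : ∫ x in (0:ℝ)..Hw, mz α z (t + x) = ∫ u in t..(t + Hw), M0 α (Sm z) (pt (Sm z) u) := by
      have := intervalIntegral.integral_comp_add_left (a := 0) (b := Hw) (fun u => mz α z u) t
      rw [add_zero] at this
      exact this
    rw [h8]
    have h9 : k = 1 / Hw := by field_simp; exact hkH
    rw [h9, one_div, ← div_eq_inv_mul]
    exact h7
  -- the pointwise bound
  have hle : ∀ t : ℝ, |k * (∫ x in (0:ℝ)..Hw, Zn α δ (t + x)) - 1| ≤
      |k * ∫ x in (0:ℝ)..Hw, (Zn α δ (t + x) - AA (t + x) * W (t + x))| +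
      |k * ∫ x in (0:ℝ)..Hw, (AA (t + x) - mz α z (t + x)) * W (t + x)| +
      |k * ∫ x in (0:ℝ)..Hw, mz α z (t + x) * (W (t + x) - 1)| + s := by
    intro t
    have hii : ∀ g : ℝ → ℝ, Continuous g → IntervalIntegrable (fun x => g (t + x)) volume 0 Hw := by
      intro g hg
      have hgt : Continuous fun x => g (t + x) := hg.comp (by fun_prop)
      exact hgt.intervalIntegrable _ _
    have i1 := hii _ hg1
    have i2 := hii _ hg2
    have i3 := hii _ hg3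
    have i4 := hii _ hg4
    have e1 : ∫ x in (0:ℝ)..Hw, (Zn α δ (t + x) - 1) =
        (∫ x in (0:ℝ)..Hw, (Zn α δ (t + x) - AA (t + x) * W (t + x))) +
        (∫ x in (0:ℝ)..Hw, (AA (t + x) - mz α z (t + x)) * W (t + x)) +
        (∫ x in (0:ℝ)..Hw, mz α z (t + x) * (W (t + x) - 1)) + ∫ x in (0:ℝ)..Hw, (mz α z (t + x) - 1) := by
      rw [← intervalIntegral.integral_add i1 i2, ← intervalIntegral.integral_add (i1.add i2) i3,
        ← intervalIntegral.integral_add ((i1.add i2).add i3) i4]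
      refine intervalIntegral.integral_congr fun x _ => ?_
      show Zn α δ (t + x) - 1 = Zn α δ (t + x) - AA (t + x) * W (t + x) + (AA (t + x) - mz α z (t + x)) * W (t + x) +
        mz α z (t + x) * (W (t + x) - 1) + (mz α z (t + x) - 1)
      ring
    rw [hsplit1, e1, mul_add, mul_add, mul_add]
    exact (abs_add_le _ _).trans (add_le_add ((abs_add_le _ _).trans (add_le_add (abs_add_le _ _) le_rfl)) (r4 t))
  rcases hlo with hlo | hlo
  · have r1 : ∫ t in Xl X..(X + 1 - Hw), |k * ∫ x in (0:ℝ)..Hw, (Zn α δ (t + x) - AA (t + x) * W (t + x))| ≤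
        200 * s * (X + 1) := by
      refine (hwin_le hg1 hg1.abs (fun u => le_rfl) hlo hHwp hkH).trans ?_
      rw [sub_add_cancel]
      exact hcl
    have k1 : Continuous fun t : ℝ => |k * ∫ x in (0:ℝ)..Hw, (Zn α δ (t + x) - AA (t + x) * W (t + x))| :=
      (hwin_cont hg1 k Hw).abs
    have k2 : Continuous fun t : ℝ => |k * ∫ x in (0:ℝ)..Hw, (AA (t + x) - mz α z (t + x)) * W (t + x)| :=
      (hwin_cont hg2 k Hw).abs
    have k3 : Continuous fun t : ℝ => |k * ∫ x in (0:ℝ)..Hw, mz α z (t + x) * (W (t + x) - 1)| :=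
      (hwin_cont hg3 k Hw).abs
    have r2' := (intervalIntegral.integral_mono_interval (c := Xl X) (d := X) le_rfl hlo hup
      (Eventually.of_forall fun t => abs_nonneg _) (k2.intervalIntegrable _ _)).trans r2
    have r3' := (intervalIntegral.integral_mono_interval (c := Xl X) (d := X) le_rfl hlo hup
      (Eventually.of_forall fun t => abs_nonneg _) (k3.intervalIntegrable _ _)).trans r3
    have r5 : ∫ t in Xl X..(X + 1 - Hw), s ≤ s * X := by
      rw [intervalIntegral.integral_const, smul_eq_mul]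
      nlinarith
    have k12 : Continuous fun t : ℝ => |k * ∫ x in (0:ℝ)..Hw, (Zn α δ (t + x) - AA (t + x) * W (t + x))| +
      |k * ∫ x in (0:ℝ)..Hw, (AA (t + x) - mz α z (t + x)) * W (t + x)| := k1.add k2
    have k123 : Continuous fun t : ℝ => |k * ∫ x in (0:ℝ)..Hw, (Zn α δ (t + x) - AA (t + x) * W (t + x))| +
      |k * ∫ x in (0:ℝ)..Hw, (AA (t + x) - mz α z (t + x)) * W (t + x)| +
      |k * ∫ x in (0:ℝ)..Hw, mz α z (t + x) * (W (t + x) - 1)| := k12.add k3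
    have hmain : ∫ t in Xl X..(X + 1 - Hw), |k * (∫ x in (0:ℝ)..Hw, Zn α δ (t + x)) - 1| ≤
        200 * s * (X + 1) + 10 * s * (3 * X) + (2 * C0 * s + s) * X + s * X := by
      calc ∫ t in Xl X..(X + 1 - Hw), |k * (∫ x in (0:ℝ)..Hw, Zn α δ (t + x)) - 1| ≤
            ∫ t in Xl X..(X + 1 - Hw), (|k * ∫ x in (0:ℝ)..Hw, (Zn α δ (t + x) - AA (t + x) * W (t + x))| +
              |k * ∫ x in (0:ℝ)..Hw, (AA (t + x) - mz α z (t + x)) * W (t + x)| +
              |k * ∫ x in (0:ℝ)..Hw, mz α z (t + x) * (W (t + x) - 1)| + s) :=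
            intervalIntegral.integral_mono_on hlo (hDc.intervalIntegrable _ _)
              ((k123.add continuous_const).intervalIntegrable _ _) fun t _ => hle t
        _ = (∫ t in Xl X..(X + 1 - Hw), |k * ∫ x in (0:ℝ)..Hw, (Zn α δ (t + x) - AA (t + x) * W (t + x))|) +
              (∫ t in Xl X..(X + 1 - Hw), |k * ∫ x in (0:ℝ)..Hw, (AA (t + x) - mz α z (t + x)) * W (t + x)|) +
              (∫ t in Xl X..(X + 1 - Hw), |k * ∫ x in (0:ℝ)..Hw, mz α z (t + x) * (W (t + x) - 1)|) +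
              ∫ t in Xl X..(X + 1 - Hw), s := by
            rw [intervalIntegral.integral_add (k123.intervalIntegrable _ _) intervalIntegrable_const,
              intervalIntegral.integral_add (k12.intervalIntegrable _ _) (k3.intervalIntegrable _ _),
              intervalIntegral.integral_add (k1.intervalIntegrable _ _) (k2.intervalIntegrable _ _)]
        _ ≤ _ := add_le_add (add_le_add (add_le_add r1 r2') r3') r5
    rw [← intervalIntegral.integral_add_adjacent_intervals (hDc.intervalIntegrable 0 (Xl X))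
      (hDc.intervalIntegrable (Xl X) (X + 1 - Hw))]
    have hfin : s * X + (200 * s * (X + 1) + 10 * s * (3 * X) + (2 * C0 * s + s) * X + s * X) ≤ ε * X := by
      have h8 : (2 * C0 + 433) * s * X ≤ ε * X := mul_le_mul_of_nonneg_right hsε hX0.le
      nlinarith
    linarith
  · -- the window reaches beyond the range
    have h8 : ∫ t in (0:ℝ)..(X + 1 - Hw), |k * (∫ x in (0:ℝ)..Hw, Zn α δ (t + x)) - 1| ≤ s * X := by
      rcases le_total 0 (X + 1 - Hw) with h9 | h9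
      · exact (intervalIntegral.integral_mono_interval (c := 0) (d := Xl X) le_rfl h9 hlo.le
          (Eventually.of_forall fun t => abs_nonneg _) (hDc.intervalIntegrable _ _)).trans r0
      · rw [intervalIntegral.integral_symm]
        have : 0 ≤ ∫ t in (X + 1 - Hw)..0, |k * (∫ x in (0:ℝ)..Hw, Zn α δ (t + x)) - 1| :=
          intervalIntegral.integral_nonneg h9 fun t _ => abs_nonneg _
        nlinarith
    have h9 : s * X ≤ ε * X := by
      refine mul_le_mul_of_nonneg_right ?_ hX0.le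
      nlinarith
    linarith

/-- CORE2 from the bounds for the weights -/
theorem core2 (hONE : S_ONE2) (hA : S_BADA2) (hB : S_BADB2) (hN : S_NEAR2) (hF : S_FAR) (hK : S_KAP) (hCUT : S_CUT2)
    (hASM : S_ASM2) : S_CORE2 := by
  intro α h0 h1 θ hθ hθ1 ε hε
  obtain ⟨lam, δ0, hlam, hδ0, hδ16, hev⟩ := core2a hONE hA hB hN hF hK hCUT hASM α h0 h1 θ hθ hθ1 (ε / 2) (by linarith)
  refine ⟨lam, δ0, hlam, hδ0, hδ16, ?_⟩
  have ht : Tendsto (fun X : ℝ => 2 * X) atTop atTop := tendsto_id.const_mul_atTop (by norm_num)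
  filter_upwards [ht.eventually hev, win_short hθ hlam, rpow_ev (p := 1 / 2) (q := 1) (by norm_num) 1,
    eventually_gt_atTop 1] with X g1 g2 g3 hX δ hd1 hd2
  have hX0 : 0 < X := by linarith
  have hL0 : 0 < Real.log X := Real.log_pos hX
  have hL2 : Real.log X ≤ Real.log (2 * X) := Real.log_le_log hX0 (by linarith)
  have hδp : 0 < δ := lt_of_lt_of_le (div_pos (by linarith) hL0) hd1
  have hd3 : lam / Real.log (2 * X) ≤ δ :=
    le_trans (div_le_div_of_nonneg_left (by linarith) hL0 hL2) hd1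
  have h3 := g1 δ hd3 hd2
  rw [Real.rpow_one, one_mul] at g3
  have h4 : X ≤ 2 * X + 1 - δ ^ (-θ) := by linarith [g2 δ hd1]
  have e1 : ∀ t : ℝ, ∫ u in t..(t + δ ^ (-θ)), Zn α δ u = ∫ x in (0:ℝ)..(δ ^ (-θ)), Zn α δ (t + x) := by
    intro t
    have := intervalIntegral.integral_comp_add_left (a := 0) (b := δ ^ (-θ)) (fun u => Zn α δ u) t
    rw [add_zero] at this
    exact this.symm
  simp only [e1]
  have hZc := Zn_cont' (δ := δ) h0 (by linarith)
  have hDc : Continuous fun t : ℝ => |δ ^ θ * (∫ x in (0:ℝ)..(δ ^ (-θ)), Zn α δ (t + x)) - 1| :=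
    ((hwin_cont hZc (δ ^ θ) (δ ^ (-θ))).sub continuous_const).abs
  calc ∫ t in (0:ℝ)..X, |δ ^ θ * (∫ x in (0:ℝ)..(δ ^ (-θ)), Zn α δ (t + x)) - 1| ≤
        ∫ t in (0:ℝ)..(2 * X + 1 - δ ^ (-θ)), |δ ^ θ * (∫ x in (0:ℝ)..(δ ^ (-θ)), Zn α δ (t + x)) - 1| :=
        intervalIntegral.integral_mono_interval le_rfl hX0.le h4 (Eventually.of_forall fun t => abs_nonneg _)
          (hDc.intervalIntegrable _ _)
    _ ≤ ε / 2 * (2 * X) := h3
    _ = ε * X := by ring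

end Pool.Agent.N748.GC
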