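import Pool.Agent.N748.GC.L2
import Pool.Agent.R313.FN.F

set_option autoImplicit false

/-!
# Short windows above the critical exponent: the normalised local moments tend to zero in measure
-/

namespace Pool.Agent.N748.GC.DEG

open Finset Filter MeasureTheory Topology
open Pool.Agent.N748.GC
open Pool.Agent.Y753.SHR (za za_nonneg za_cont)
open Pool.Agent.R313.FN (zp zp_apply pth path_main)
open Pool.Agent.H306R2 (aF aF_pos)

/-- powers of exponent at most one are subadditive -/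
lemma sub_pow {q : ℝ} (hq0 : 0 < q) (hq1 : q ≤ 1) (n : ℕ) (f : ℕ → ℝ) (hf : ∀ k, 0 ≤ f k) :
    (∑ k ∈ range n, f k) ^ q ≤ ∑ k ∈ range n, f k ^ q := by
  induction n with
  | zero => simp [Real.zero_rpow hq0.ne']
  | succ n ih =>
    rw [sum_range_succ, sum_range_succ]
    refine (Real.rpow_add_le_add_rpow (sum_nonneg fun k _ => hf k) (hf n) hq0.le hq1).trans ?_
    linarith

/-- windows covered by small intervals -/
lemma win {Z S : ℝ → ℝ} {K a d m : ℝ} (hZ : Continuous Z) (hmd : m ≤ d) (hm : 0 < m)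
    (hZS : ∀ t u, t ≤ u → u ≤ t + d → Z u ≤ K * S t ^ a) (t : ℝ) (n : ℕ) :
    ∫ u in t..(t + n * m), Z u ≤ ∑ k ∈ range n, m * (K * S (t + k * m) ^ a) := by
  have hI : ∀ a b : ℝ, IntervalIntegrable Z volume a b := fun a b => hZ.intervalIntegrable a b
  induction n with
  | zero => simp
  | succ n ih =>
    rw [sum_range_succ, ← intervalIntegral.integral_add_adjacent_intervals (hI t (t + n * m)) (hI _ _)]
    refine add_le_add ih ?_
    have hb : t + n * m ≤ t + ((n + 1 : ℕ) : ℝ) * m := by push_cast; nlinarith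
    calc ∫ u in (t + n * m)..(t + ((n + 1 : ℕ) : ℝ) * m), Z u ≤
        ∫ u in (t + n * m)..(t + ((n + 1 : ℕ) : ℝ) * m), K * S (t + n * m) ^ a :=
          intervalIntegral.integral_mono_on hb (hI _ _) intervalIntegrable_const (fun u hu =>
            hZS _ _ hu.1 (by have := hu.2; push_cast at this; nlinarith))
      _ = _ := by rw [intervalIntegral.integral_const, smul_eq_mul]; push_cast; ring

/-- Markov for the fractional moment of the windows -/
lemma markov {Z S : ℝ → ℝ} {K a d q H T M η : ℝ} (hZ : Continuous Z) (hZ0 : ∀ u, 0 ≤ Z u) (hS : Continuous S)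
    (hS0 : ∀ t, 0 ≤ S t) (hK : 0 < K) (ha : 0 < a) (hd : 0 < d) (hq0 : 0 < q) (hq1 : q < 1) (hH : 0 < H) (hHT : H ≤ T)
    (hη : 0 < η) (hZS : ∀ t u, t ≤ u → u ≤ t + d → Z u ≤ K * S t ^ a)
    (hM : ∫ t in Set.Icc 0 (2 * T), S t ^ (a * q) ≤ M) :
    η ^ q * (volume {t : ℝ | 0 ≤ t ∧ t ≤ T ∧ η ≤ (1 / H) * ∫ u in t..(t + H), Z u}).toReal ≤
      2 * (H / min d H) ^ (1 - q) * K ^ q * M := by
  obtain ⟨m, hm⟩ : ∃ m, m = min d H := ⟨_, rfl⟩
  have hm0 : 0 < m := by rw [hm]; exact lt_min hd hH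
  have hmd : m ≤ d := by rw [hm]; exact min_le_left _ _
  have hmH : m ≤ H := by rw [hm]; exact min_le_right _ _
  rw [← hm]
  obtain ⟨n, hn⟩ : ∃ n, n = ⌈H / m⌉₊ := ⟨_, rfl⟩
  have hHm1 : 1 ≤ H / m := by rwa [le_div_iff₀ hm0, one_mul]
  have hn1 : H / m ≤ n := by rw [hn]; exact Nat.le_ceil _
  have hn2 : (n:ℝ) < H / m + 1 := by rw [hn]; exact Nat.ceil_lt_add_one (by positivity)
  have hnH : H ≤ n * m := by rwa [div_le_iff₀ hm0] at hn1
  have hT : 0 < T := by linarith
  -- the majorant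
  obtain ⟨G, hG⟩ : ∃ G : ℝ → ℝ, G = fun t => (m / H) ^ q * K ^ q * ∑ k ∈ range n, S (t + k * m) ^ (a * q) := ⟨_, rfl⟩
  have hGc : Continuous G := by
    rw [hG]
    refine continuous_const.mul (continuous_finsetSum _ fun k _ => ?_)
    exact (hS.comp (by fun_prop)).rpow_const fun _ => Or.inr (by positivity)
  have hG0 : ∀ t, 0 ≤ G t := by
    intro t
    rw [hG]
    have : 0 ≤ ∑ k ∈ range n, S (t + k * m) ^ (a * q) := sum_nonneg fun k _ => Real.rpow_nonneg (hS0 _) _
    positivity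
  have hle : ∀ t, ((1 / H) * ∫ u in t..(t + H), Z u) ^ q ≤ G t := by
    intro t
    have h0 : 0 ≤ ∫ u in t..(t + H), Z u := intervalIntegral.integral_nonneg (by linarith) fun u _ => hZ0 u
    have h1 : ∫ u in t..(t + H), Z u ≤ ∑ k ∈ range n, m * (K * S (t + k * m) ^ a) := by
      refine le_trans ?_ (win hZ hmd hm0 hZS t n)
      exact intervalIntegral.integral_mono_interval le_rfl (by linarith) (by linarith)
        (Eventually.of_forall hZ0) (hZ.intervalIntegrable _ _)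
    have h2 : (1 / H) * ∫ u in t..(t + H), Z u ≤ (m / H * K) * ∑ k ∈ range n, S (t + k * m) ^ a := by
      refine (mul_le_mul_of_nonneg_left h1 (by positivity)).trans (le_of_eq ?_)
      rw [mul_sum, mul_sum]
      refine sum_congr rfl fun k _ => ?_
      ring
    refine (Real.rpow_le_rpow (by positivity) h2 hq0.le).trans ?_
    rw [Real.mul_rpow (by positivity) (sum_nonneg fun k _ => Real.rpow_nonneg (hS0 _) _),
      Real.mul_rpow (by positivity) hK.le, hG]
    refine mul_le_mul_of_nonneg_left ?_ (by positivity)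
    refine (sub_pow hq0 hq1.le n _ fun k => Real.rpow_nonneg (hS0 _) _).trans (le_of_eq ?_)
    refine sum_congr rfl fun k _ => ?_
    rw [← Real.rpow_mul (hS0 _)]
  -- the mean value of the majorant
  have hint : ∫ t in Set.Icc 0 T, G t ≤ 2 * (H / m) ^ (1 - q) * K ^ q * M := by
    have hcS : ∀ k : ℕ, Continuous fun t : ℝ => S (t + k * m) ^ (a * q) := fun k =>
      (hS.comp (by fun_prop)).rpow_const fun _ => Or.inr (by positivity)
    have hcS0 : Continuous fun t : ℝ => S t ^ (a * q) := hS.rpow_const fun _ => Or.inr (by positivity)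
    have hM' : ∫ t in (0:ℝ)..(2 * T), S t ^ (a * q) ≤ M := by
      rw [intervalIntegral.integral_of_le (by linarith), ← integral_Icc_eq_integral_Ioc]
      exact hM
    have hM0 : 0 ≤ M := le_trans (intervalIntegral.integral_nonneg (by linarith) fun u _ => Real.rpow_nonneg (hS0 _) _) hM'
    have e1 : ∫ t in Set.Icc 0 T, G t = (m / H) ^ q * K ^ q * ∑ k ∈ range n, ∫ t in (0:ℝ)..T, S (t + k * m) ^ (a * q) := by
      rw [integral_Icc_eq_integral_Ioc, ← intervalIntegral.integral_of_le hT.le, hG, intervalIntegral.integral_const_mul,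
        intervalIntegral.integral_finsetSum fun k _ => (hcS k).intervalIntegrable _ _]
    rw [e1]
    have h3 : ∑ k ∈ range n, ∫ t in (0:ℝ)..T, S (t + k * m) ^ (a * q) ≤ n * M := by
      have h4 : ∀ k ∈ range n, ∫ t in (0:ℝ)..T, S (t + k * m) ^ (a * q) ≤ M := by
        intro k hk
        have hk1 : (k:ℝ) + 1 ≤ n := by exact_mod_cast mem_range.mp hk
        have hkm : (k:ℝ) * m ≤ T := by
          have h5 : (k:ℝ) ≤ H / m := by linarith
          have h6 : (k:ℝ) * m ≤ H := by rwa [le_div_iff₀ hm0] at h5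
          linarith
        have hkm0 : 0 ≤ (k:ℝ) * m := by positivity
        rw [intervalIntegral.integral_comp_add_right (fun t => S t ^ (a * q))]
        refine le_trans ?_ hM'
        exact intervalIntegral.integral_mono_interval (by linarith) (by linarith) (by linarith)
          (Eventually.of_forall fun u => Real.rpow_nonneg (hS0 _) _) (hcS0.intervalIntegrable _ _)
      refine (sum_le_sum h4).trans (le_of_eq ?_)
      rw [sum_const, card_range, nsmul_eq_mul]
    have h5 : (m / H) ^ q * K ^ q * ∑ k ∈ range n, ∫ t in (0:ℝ)..T, S (t + k * m) ^ (a * q) ≤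
        (m / H) ^ q * K ^ q * (2 * (H / m) * M) := by
      refine mul_le_mul_of_nonneg_left (h3.trans ?_) (by positivity)
      exact mul_le_mul_of_nonneg_right (by linarith) hM0
    refine h5.trans (le_of_eq ?_)
    have e2 : (m / H) ^ q * (H / m) = (H / m) ^ (1 - q) := by
      have hp : 0 < H / m := by positivity
      rw [Real.rpow_sub hp, Real.rpow_one, ← inv_div, Real.inv_rpow hp.le]
      field_simp
    rw [← e2]; ring
  -- Markov
  have hsub : {t : ℝ | 0 ≤ t ∧ t ≤ T ∧ η ≤ (1 / H) * ∫ u in t..(t + H), Z u} ⊆ {t | η ^ q ≤ G t} ∩ Set.Icc 0 T := by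
    rintro t ⟨h1, h2, h3⟩
    refine ⟨?_, h1, h2⟩
    exact (Real.rpow_le_rpow hη.le h3 hq0.le).trans (hle t)
  have hfin : volume ({t | η ^ q ≤ G t} ∩ Set.Icc 0 T) ≠ ⊤ :=
    (measure_lt_top_of_subset Set.inter_subset_right (by simp)).ne
  have h7 := mul_meas_ge_le_integral_of_nonneg (μ := volume.restrict (Set.Icc 0 T)) (f := G)
    (Eventually.of_forall hG0) (hGc.continuousOn.integrableOn_compact isCompact_Icc) (η ^ q)
  have hmG : MeasurableSet {t | η ^ q ≤ G t} := measurableSet_le measurable_const hGc.measurable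
  rw [measureReal_restrict_apply hmG] at h7
  refine le_trans (mul_le_mul_of_nonneg_left ?_ (by positivity)) (h7.trans hint)
  exact ENNReal.toReal_mono hfin (measure_mono hsub)

/-- the local maxima -/
noncomputable def sp (d t : ℝ) : ℝ := ‖zp d 0 1 t‖

lemma sp_nonneg (d t : ℝ) : 0 ≤ sp d t := norm_nonneg _

lemma sp_cont {d : ℝ} (h : d < 1 / 2) : Continuous (sp d) := by
  have e : zp d 0 1 = pth d 0 1 h := by
    funext t
    unfold zp
    rw [dif_pos h]
  show Continuous fun t => ‖zp d 0 1 t‖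
  rw [e]
  exact (pth d 0 1 h).continuous.norm

lemma za_le_sp {d : ℝ} (h : d < 1 / 2) (t : ℝ) (x : unitInterval) : za d x t ≤ sp d t := by
  have h1 := ContinuousMap.norm_coe_le_norm (zp d 0 1 t) x
  rw [zp_apply 0 1 h, zero_add, one_mul, Real.norm_of_nonneg (za_nonneg _ _ _)] at h1
  exact h1

lemma aa_eq (α : ℝ) : aa α = aF α := rfl

lemma Zn_za (α d u : ℝ) : Zn α d u = (2 * d) ^ (α ^ 2) / aF α * za d 0 u ^ (2 * α) := by
  unfold Zn za
  rw [aa_eq, zero_mul, add_zero]

lemma Zn_cont' {α d : ℝ} (hα : 0 < α) (hd : d < 1 / 2) : Continuous (Zn α d) := by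
  have h1 : Continuous fun u => (2 * d) ^ (α ^ 2) / aF α * za d 0 u ^ (2 * α) :=
    continuous_const.mul ((za_cont hd 0).rpow_const fun _ => Or.inr (by positivity))
  exact h1.congr fun u => (Zn_za α d u).symm

lemma Zn_nonneg {α d : ℝ} (hα : 0 < α) (hd : 0 ≤ d) (u : ℝ) : 0 ≤ Zn α d u := by
  rw [Zn_za]
  have := aF_pos hα
  have := za_nonneg d 0 u
  positivity

lemma Zn_le {α d : ℝ} (hα : 0 < α) (hd : 0 < d) (hd2 : d < 1 / 2) {t u : ℝ} (h1 : t ≤ u) (h2 : u ≤ t + d) :
    Zn α d u ≤ (2 * d) ^ (α ^ 2) / aF α * sp d t ^ (2 * α) := by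
  have haF := aF_pos hα
  have hx : (u - t) / d ∈ Set.Icc (0:ℝ) 1 := by
    refine ⟨div_nonneg (by linarith) hd.le, ?_⟩
    rw [div_le_one hd]
    linarith
  have h3 := za_le_sp hd2 t ⟨(u - t) / d, hx⟩
  have e1 : t + (u - t) / d * d = u := by field_simp; ring
  have e2 : za d (((⟨(u - t) / d, hx⟩ : unitInterval) : ℝ)) t = ‖riemannZeta (1 / 2 + d + u * Complex.I)‖ := by
    show ‖riemannZeta (1 / 2 + d + ((t + (u - t) / d * d : ℝ) : ℂ) * Complex.I)‖ = _
    rw [e1]
  rw [e2] at h3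
  unfold Zn
  rw [aa_eq]
  exact mul_le_mul_of_nonneg_left (Real.rpow_le_rpow (norm_nonneg _) h3 (by positivity)) (by positivity)

lemma dpos {δ : ℝ → ℝ} (hδ : Pd δ) : ∀ᶠ T in atTop, 0 < δ T := by
  filter_upwards [hδ.tL.eventually_gt_atTop 0, eventually_gt_atTop 1] with T hT hT1
  exact (pos_iff_pos_of_mul_pos hT).mpr (Real.log_pos hT1)

/-- the moments of the local maxima -/
lemma mom {δ : ℝ → ℝ} (hδ : Pd δ) {b : ℝ} (hb : 0 < b) (hb4 : b ≤ 4) :
    ∃ C : ℝ, 0 < C ∧ ∀ᶠ T in atTop,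
      ∫ t in Set.Icc 0 (2 * T), sp (δ T) t ^ b ≤ C * T * (2 * δ T) ^ (-((b / 2) ^ 2)) := by
  have hpos := dpos hδ
  have hhalf : Tendsto (fun T : ℝ => T / 2) atTop atTop := tendsto_id.atTop_div_const (by norm_num)
  have h0 : Tendsto (fun T : ℝ => δ (T / 2)) atTop (𝓝 0) := hδ.t0.comp hhalf
  have hL : Tendsto (fun T : ℝ => δ (T / 2) * Real.log T) atTop atTop := by
    refine tendsto_atTop_mono' _ ?_ (hδ.tL.comp hhalf)
    filter_upwards [hhalf.eventually hpos, eventually_gt_atTop 0] with T h1 h2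
    show δ (T / 2) * Real.log (T / 2) ≤ δ (T / 2) * Real.log T
    exact mul_le_mul_of_nonneg_left (Real.log_le_log (by positivity) (by linarith)) h1.le
  obtain ⟨ν, -, -, -, h4⟩ := path_main h0 hL hb hb4 0 1
  have hdbl : Tendsto (fun T : ℝ => 2 * T) atTop atTop := tendsto_id.const_mul_atTop (by norm_num)
  have h5 := h4.comp hdbl
  generalize aF (b / 2) * _ = L at h5
  refine ⟨2 * (|L| + 1), by positivity, ?_⟩
  filter_upwards [h5.eventually (gt_mem_nhds (lt_of_le_of_lt (le_abs_self L) (lt_add_one _))), hpos,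
    eventually_gt_atTop 0] with T h6 h7 h8
  simp only [Function.comp] at h6
  rw [show 2 * T / 2 = T by ring] at h6
  have hp : 0 < (2 * δ T) ^ ((b / 2) ^ 2) := by positivity
  rw [Real.rpow_neg (by positivity)]
  show ∫ t in Set.Icc 0 (2 * T), ‖zp (δ T) 0 1 t‖ ^ b ≤ _
  obtain ⟨J, hJ⟩ : ∃ J, J = ∫ t in Set.Icc 0 (2 * T), ‖zp (δ T) 0 1 t‖ ^ b := ⟨_, rfl⟩
  rw [← hJ] at h6 ⊢
  rw [div_mul_eq_mul_div, div_lt_iff₀ (by positivity)] at h6
  rw [← div_eq_mul_inv, le_div_iff₀ hp]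
  linarith

theorem main : S_DEG := by
  intro α hα1 hα2 θ hθ0 hθ δ hδ H hH0 hH1 η hη
  have hα : 0 < α := by linarith
  have hαs : 0 < α ^ 2 := by positivity
  obtain ⟨q, hq⟩ : ∃ q, q = ((1 + θ) / α ^ 2 + 1) / 2 := ⟨_, rfl⟩
  have h1 : (1 + θ) / α ^ 2 < 1 := by rw [div_lt_one hαs]; linarith
  have hq0 : 0 < q := by rw [hq]; positivity
  have hq1 : q < 1 := by rw [hq]; linarith
  have hq2 : 1 + θ < α ^ 2 * q := by
    have : α ^ 2 * q = ((1 + θ) + α ^ 2) / 2 := by rw [hq]; field_simp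
    rw [this]; linarith
  obtain ⟨κ, hκ⟩ : ∃ κ, κ = (1 - q) * (α ^ 2 * q - 1 - θ) := ⟨_, rfl⟩
  have hκ0 : 0 < κ := by rw [hκ]; exact mul_pos (by linarith) (by linarith)
  obtain ⟨C, hC, hmom⟩ := mom hδ (b := 2 * α * q) (by positivity) (by nlinarith)
  have haF := aF_pos hα
  obtain ⟨D, hD⟩ : ∃ D, D = (η ^ q)⁻¹ * (2 * (aF α ^ q)⁻¹ * C * 2 ^ (α ^ 2 * q * (1 - q))) := ⟨_, rfl⟩
  have hlim : Tendsto (fun T => D * δ T ^ κ) atTop (𝓝 0) := by
    have := (hδ.t0.rpow_const (Or.inr hκ0.le)).const_mul D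
    rwa [Real.zero_rpow hκ0.ne', mul_zero] at this
  have hlog : ∀ᶠ T : ℝ in atTop, Real.log T ^ θ ≤ T := by
    have h2 := (isLittleO_log_rpow_rpow_atTop θ (zero_lt_one (α := ℝ))).bound (zero_lt_one (α := ℝ))
    filter_upwards [h2, eventually_ge_atTop 1] with T h3 h4
    rw [one_mul, Real.rpow_one, Real.norm_of_nonneg (Real.rpow_nonneg (Real.log_nonneg h4) _),
      Real.norm_of_nonneg (by linarith)] at h3
    exact h3
  refine squeeze_zero' ?_ ?_ hlim
  · filter_upwards [eventually_gt_atTop 0] with T hT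
    positivity
  · filter_upwards [dpos hδ, hδ.t0.eventually (gt_mem_nhds (show (0:ℝ) < 1 / 16 by norm_num)),
      hδ.tL.eventually_ge_atTop 1, eventually_gt_atTop 1, hlog, hH0, hH1, hmom] with T g1 g2 g3 g4 g5 g6 g7 g8
    generalize δ T = d at *
    generalize H T = h at *
    have hT : 0 < T := by linarith
    have hlT : 0 < Real.log T := Real.log_pos g4
    have hhT : h ≤ T := by
      refine g7.trans (le_trans ?_ g5)
      rw [Real.rpow_neg g1.le, ← Real.inv_rpow g1.le]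
      refine Real.rpow_le_rpow (by positivity) ?_ hθ0
      rw [inv_le_iff_one_le_mul₀' g1]
      exact g3
    have e0 : 2 * α * q / 2 = α * q := by ring
    rw [e0] at g8
    have hmk := markov (Z := Zn α d) (S := sp d) (K := (2 * d) ^ (α ^ 2) / aF α) (a := 2 * α) (d := d) (q := q)
      (H := h) (T := T) (M := C * T * (2 * d) ^ (-((α * q) ^ 2))) (η := η)
      (Zn_cont' hα (by linarith)) (Zn_nonneg hα g1.le) (sp_cont (by linarith)) (sp_nonneg d) (by positivity)
      (by positivity) g1 hq0 hq1 g6 hhT hη (fun t u a1 a2 => Zn_le hα g1 (by linarith) a1 a2) g8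
    have hmin : 0 < min d h := lt_min g1 g6
    have hr : h / min d h ≤ d ^ (-(1 + θ)) := by
      rcases le_total d h with h2 | h2
      · rw [min_eq_left h2, neg_add, Real.rpow_add g1, Real.rpow_neg g1.le 1, Real.rpow_one, div_eq_inv_mul]
        exact mul_le_mul_of_nonneg_left g7 (by positivity)
      · rw [min_eq_right h2, div_self g6.ne']
        exact Real.one_le_rpow_of_pos_of_le_one_of_nonpos g1 (by linarith) (by linarith)
    have hr2 : (h / min d h) ^ (1 - q) ≤ d ^ (-(1 + θ) * (1 - q)) := by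
      rw [Real.rpow_mul g1.le]
      exact Real.rpow_le_rpow (by positivity) hr (by linarith)
    have e3 : ((2 * d) ^ (α ^ 2) / aF α) ^ q * (2 * d) ^ (-((α * q) ^ 2)) =
        (aF α ^ q)⁻¹ * (2 ^ (α ^ 2 * q * (1 - q)) * d ^ (α ^ 2 * q * (1 - q))) := by
      rw [Real.div_rpow (by positivity) haF.le, ← Real.rpow_mul (by positivity), div_eq_inv_mul, mul_assoc,
        ← Real.rpow_add (by positivity), ← Real.mul_rpow (by norm_num) g1.le]
      congr 2
      ring
    have e4 : d ^ (-(1 + θ) * (1 - q)) * d ^ (α ^ 2 * q * (1 - q)) = d ^ κ := by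
      rw [← Real.rpow_add g1, hκ]
      congr 1
      ring
    have hηq : 0 < η ^ q := by positivity
    have h9 : (volume {t : ℝ | 0 ≤ t ∧ t ≤ T ∧ η ≤ (1 / h) * ∫ u in t..(t + h), Zn α d u}).toReal ≤
        (η ^ q)⁻¹ * (2 * (h / min d h) ^ (1 - q) * ((2 * d) ^ (α ^ 2) / aF α) ^ q *
          (C * T * (2 * d) ^ (-((α * q) ^ 2)))) := by
      rw [← div_eq_inv_mul, le_div_iff₀ hηq, mul_comm]
      exact hmk
    have h10 : (η ^ q)⁻¹ * (2 * (h / min d h) ^ (1 - q) * ((2 * d) ^ (α ^ 2) / aF α) ^ q *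
          (C * T * (2 * d) ^ (-((α * q) ^ 2)))) ≤ T * (D * d ^ κ) := by
      have e5 : (η ^ q)⁻¹ * (2 * (h / min d h) ^ (1 - q) * ((2 * d) ^ (α ^ 2) / aF α) ^ q *
          (C * T * (2 * d) ^ (-((α * q) ^ 2)))) =
          (η ^ q)⁻¹ * 2 * C * T * (((2 * d) ^ (α ^ 2) / aF α) ^ q * (2 * d) ^ (-((α * q) ^ 2))) *
            (h / min d h) ^ (1 - q) := by ring
      rw [e5, e3]
      refine (mul_le_mul_of_nonneg_left hr2 (by positivity)).trans (le_of_eq ?_)
      rw [← e4, hD]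
      ring
    calc 1 / T * (volume {t : ℝ | 0 ≤ t ∧ t ≤ T ∧ η ≤ (1 / h) * ∫ u in t..(t + h), Zn α d u}).toReal
        ≤ 1 / T * (T * (D * d ^ κ)) := mul_le_mul_of_nonneg_left (h9.trans h10) (by positivity)
      _ = D * d ^ κ := by field_simp

end Pool.Agent.N748.GC.DEG
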