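import Pool.Agent.N748.GC.DEG

set_option autoImplicit false

/-!
# Short windows below the critical length, all orders below four (after DEG by helper603)
-/

namespace Pool.Agent.N748.GC.DEG2

open Finset Filter MeasureTheory Topology
open Pool.Agent.N748.GC Pool.Agent.N748.GC.DEG
open Pool.Agent.Y753.SHR (za za_nonneg za_cont)
open Pool.Agent.R313.FN (zp zp_apply pth path_main)
open Pool.Agent.H306R2 (aF aF_pos)

/-- the case of exponents larger than `-1` -/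
theorem main0 {α : ℝ} (hα : 0 < α) (hα2 : α < 2) {θ : ℝ} (hθ0 : 0 < 1 + θ) (hθ : θ < α ^ 2 - 1) {δ : ℝ → ℝ}
    (hδ : Pd δ) {H : ℝ → ℝ} (hH0 : ∀ᶠ T in atTop, 0 < H T) (hH1 : ∀ᶠ T in atTop, H T ≤ δ T ^ (-θ)) {η : ℝ}
    (hη : 0 < η) : Tendsto (fun T : ℝ => (1 / T) * (volume {t : ℝ | 0 ≤ t ∧ t ≤ T ∧
    η ≤ (1 / H T) * ∫ u in t..(t + H T), Zn α (δ T) u}).toReal) atTop (𝓝 0) := by
  have hαs : 0 < α ^ 2 := by positivity
  obtain ⟨q, hq⟩ : ∃ q, q = ((1 + θ) / α ^ 2 + 1) / 2 := ⟨_, rfl⟩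
  have h1 : (1 + θ) / α ^ 2 < 1 := by rw [div_lt_one hαs]; linarith
  have hq0 : 0 < q := by rw [hq]; positivity
  have hq1 : q < 1 := by rw [hq]; linarith
  have hq2 : 1 + θ < α ^ 2 * q := by
    have : α ^ 2 * q = ((1 + θ) + α ^ 2) / 2 := by rw [hq]; field_simp
    rw [this]; linarith
  obtain ⟨κ, hκ⟩ : ∃ κ, κ = (1 - q) * (α ^ 2 * q - 1 - θ) := ⟨_, rfl⟩
  have hκ0 : 0 < κ := by rw [hκ]; exact mul_pos (by linarith) (by linarith)
  obtain ⟨C, hC, hmom⟩ := mom hδ (b := 2 * α * q) (by positivity) (by nlinarith)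
  have haF := aF_pos hα
  obtain ⟨D, hD⟩ : ∃ D, D = (η ^ q)⁻¹ * (2 * (aF α ^ q)⁻¹ * C * 2 ^ (α ^ 2 * q * (1 - q))) := ⟨_, rfl⟩
  have hlim : Tendsto (fun T => D * δ T ^ κ) atTop (𝓝 0) := by
    have := (hδ.t0.rpow_const (Or.inr hκ0.le)).const_mul D
    rwa [Real.zero_rpow hκ0.ne', mul_zero] at this
  have hlog : ∀ᶠ T : ℝ in atTop, Real.log T ^ (max θ 0) ≤ T := by
    have h2 := (isLittleO_log_rpow_rpow_atTop (max θ 0) (zero_lt_one (α := ℝ))).bound (zero_lt_one (α := ℝ))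
    filter_upwards [h2, eventually_ge_atTop 1] with T h3 h4
    rw [one_mul, Real.rpow_one, Real.norm_of_nonneg (Real.rpow_nonneg (Real.log_nonneg h4) _),
      Real.norm_of_nonneg (by linarith)] at h3
    exact h3
  refine squeeze_zero' ?_ ?_ hlim
  · filter_upwards [eventually_gt_atTop 0] with T hT
    positivity
  · filter_upwards [dpos hδ, hδ.t0.eventually (gt_mem_nhds (show (0:ℝ) < 1 / 16 by norm_num)),
      hδ.tL.eventually_ge_atTop 1, eventually_gt_atTop 1, hlog, hH0, hH1, hmom] with T g1 g2 g3 g4 g5 g6 g7 g8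
    generalize δ T = d at *
    generalize H T = h at *
    have hT : 0 < T := by linarith
    have hlT : 0 < Real.log T := Real.log_pos g4
    have hhT : h ≤ T := by
      have g7' : d ^ (-θ) ≤ d ^ (-(max θ 0)) :=
        Real.rpow_le_rpow_of_exponent_ge g1 (by linarith) (neg_le_neg (le_max_left _ _))
      refine (g7.trans g7').trans (le_trans ?_ g5)
      rw [Real.rpow_neg g1.le, ← Real.inv_rpow g1.le]
      refine Real.rpow_le_rpow (by positivity) ?_ (le_max_right _ _)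
      rw [inv_le_iff_one_le_mul₀' g1]
      exact g3
    have e0 : 2 * α * q / 2 = α * q := by ring
    rw [e0] at g8
    have hmk := markov (Z := Zn α d) (S := sp d) (K := (2 * d) ^ (α ^ 2) / aF α) (a := 2 * α) (d := d) (q := q)
      (H := h) (T := T) (M := C * T * (2 * d) ^ (-((α * q) ^ 2))) (η := η)
      (Zn_cont' hα (by linarith)) (Zn_nonneg hα g1.le) (sp_cont (by linarith)) (sp_nonneg d) (by positivity)
      (by positivity) g1 hq0 hq1 g6 hhT hη (fun t u a1 a2 => Zn_le hα g1 (by linarith) a1 a2) g8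
    have hmin : 0 < min d h := lt_min g1 g6
    have hr : h / min d h ≤ d ^ (-(1 + θ)) := by
      rcases le_total d h with h2 | h2
      · rw [min_eq_left h2, neg_add, Real.rpow_add g1, Real.rpow_neg g1.le 1, Real.rpow_one, div_eq_inv_mul]
        exact mul_le_mul_of_nonneg_left g7 (by positivity)
      · rw [min_eq_right h2, div_self g6.ne']
        exact Real.one_le_rpow_of_pos_of_le_one_of_nonpos g1 (by linarith) (by linarith)
    have hr2 : (h / min d h) ^ (1 - q) ≤ d ^ (-(1 + θ) * (1 - q)) := by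
      rw [Real.rpow_mul g1.le]
      exact Real.rpow_le_rpow (by positivity) hr (by linarith)
    have e3 : ((2 * d) ^ (α ^ 2) / aF α) ^ q * (2 * d) ^ (-((α * q) ^ 2)) =
        (aF α ^ q)⁻¹ * (2 ^ (α ^ 2 * q * (1 - q)) * d ^ (α ^ 2 * q * (1 - q))) := by
      rw [Real.div_rpow (by positivity) haF.le, ← Real.rpow_mul (by positivity), div_eq_inv_mul, mul_assoc,
        ← Real.rpow_add (by positivity), ← Real.mul_rpow (by norm_num) g1.le]
      congr 2
      ring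
    have e4 : d ^ (-(1 + θ) * (1 - q)) * d ^ (α ^ 2 * q * (1 - q)) = d ^ κ := by
      rw [← Real.rpow_add g1, hκ]
      congr 1
      ring
    have hηq : 0 < η ^ q := by positivity
    have h9 : (volume {t : ℝ | 0 ≤ t ∧ t ≤ T ∧ η ≤ (1 / h) * ∫ u in t..(t + h), Zn α d u}).toReal ≤
        (η ^ q)⁻¹ * (2 * (h / min d h) ^ (1 - q) * ((2 * d) ^ (α ^ 2) / aF α) ^ q *
          (C * T * (2 * d) ^ (-((α * q) ^ 2)))) := by
      rw [← div_eq_inv_mul, le_div_iff₀ hηq, mul_comm]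
      exact hmk
    have h10 : (η ^ q)⁻¹ * (2 * (h / min d h) ^ (1 - q) * ((2 * d) ^ (α ^ 2) / aF α) ^ q *
          (C * T * (2 * d) ^ (-((α * q) ^ 2)))) ≤ T * (D * d ^ κ) := by
      have e5 : (η ^ q)⁻¹ * (2 * (h / min d h) ^ (1 - q) * ((2 * d) ^ (α ^ 2) / aF α) ^ q *
          (C * T * (2 * d) ^ (-((α * q) ^ 2)))) =
          (η ^ q)⁻¹ * 2 * C * T * (((2 * d) ^ (α ^ 2) / aF α) ^ q * (2 * d) ^ (-((α * q) ^ 2))) *
            (h / min d h) ^ (1 - q) := by ring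
      rw [e5, e3]
      refine (mul_le_mul_of_nonneg_left hr2 (by positivity)).trans (le_of_eq ?_)
      rw [← e4, hD]
      ring
    calc 1 / T * (volume {t : ℝ | 0 ≤ t ∧ t ≤ T ∧ η ≤ (1 / h) * ∫ u in t..(t + h), Zn α d u}).toReal
        ≤ 1 / T * (T * (D * d ^ κ)) := mul_le_mul_of_nonneg_left (h9.trans h10) (by positivity)
      _ = D * d ^ κ := by field_simp

/-- short windows: all orders below four -/
theorem main : ∀ α : ℝ, 0 < α → α < 2 → ∀ θ : ℝ, θ < α ^ 2 - 1 → ∀ δ : ℝ → ℝ, Pd δ → ∀ H : ℝ → ℝ,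
    (∀ᶠ T in atTop, 0 < H T) → (∀ᶠ T in atTop, H T ≤ δ T ^ (-θ)) → ∀ η : ℝ, 0 < η →
    Tendsto (fun T : ℝ => (1 / T) * (volume {t : ℝ | 0 ≤ t ∧ t ≤ T ∧
      η ≤ (1 / H T) * ∫ u in t..(t + H T), Zn α (δ T) u}).toReal) atTop (𝓝 0) := by
  intro α hα hα2 θ hθ δ hδ H hH0 hH1 η hη
  have hαs : 0 < α ^ 2 := by positivity
  refine main0 hα hα2 (θ := max θ (α ^ 2 / 2 - 1)) ?_ (max_lt hθ (by linarith)) hδ hH0 ?_ hη
  · have := le_max_right θ (α ^ 2 / 2 - 1); linarith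
  · filter_upwards [hH1, dpos hδ, hδ.t0.eventually (gt_mem_nhds (show (0:ℝ) < 1 by norm_num))] with T g1 g2 g3
    exact g1.trans (Real.rpow_le_rpow_of_exponent_ge g2 g3.le (neg_le_neg (le_max_left _ _)))

end Pool.Agent.N748.GC.DEG2
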