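import Pool.Agent.N748.GC.Stm

set_option autoImplicit false

/-!
# (DIS): convergence in distribution of the local moments, from (CORE), (ERG), (RZ)
-/

namespace Pool.Agent.N748.GC.DIS

open Finset Filter MeasureTheory Topology Complex Pool.Agent.N748.GC

/-! ### continuity -/

lemma sm_prime {z : ℕ} (p : Sm z) : Nat.Prime (p : ℕ) := by
  have h : (p : ℕ) ∈ (range z).filter Nat.Prime := p.2
  exact (Finset.mem_filter.mp h).2

lemma lw_ne {p : ℕ} (hp : p.Prime) (y : UnitAddCircle) :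
    (1 : ℂ) - (fourier 1 y : ℂ) * (((p:ℝ) ^ (-(1 / 2 : ℝ)) : ℝ) : ℂ) ≠ 0 := by
  intro h
  have h1 : (fourier 1 y : ℂ) * (((p:ℝ) ^ (-(1 / 2 : ℝ)) : ℝ) : ℂ) = 1 := by
    have := sub_eq_zero.mp h
    exact this.symm
  have h2 := congrArg norm h1
  rw [norm_mul, norm_one] at h2
  have h3 : ‖(fourier 1 y : ℂ)‖ = 1 := by
    rw [fourier_apply]; exact Circle.norm_coe _
  have hp0 : (0:ℝ) < p := by exact_mod_cast hp.pos
  have hp1 : (1:ℝ) < p := by exact_mod_cast hp.one_lt
  rw [h3, one_mul, Complex.norm_real, Real.norm_of_nonneg (Real.rpow_nonneg hp0.le _)] at h2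
  have : (p:ℝ) ^ (-(1 / 2 : ℝ)) < 1 := Real.rpow_lt_one_of_one_lt_of_neg hp1 (by norm_num)
  linarith

lemma lw_cont (α : ℝ) {p : ℕ} (hp : p.Prime) : Continuous (lw α p) := by
  unfold lw
  refine continuous_const.mul ?_
  refine Continuous.log ?_ ?_
  · refine continuous_norm.comp ?_
    exact continuous_const.sub ((map_continuous (fourier 1)).mul continuous_const)
  · intro y
    exact norm_ne_zero_iff.mpr (lw_ne hp y)

lemma M0_cont (α : ℝ) (z : ℕ) : Continuous (M0 α (Sm z)) := by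
  unfold M0
  refine Continuous.div_const ?_ _
  refine Real.continuous_exp.comp ?_
  refine continuous_finsetSum _ ?_
  intro p _
  exact (lw_cont α (sm_prime p)).comp (continuous_apply p)

lemma pt_cont (P : Finset ℕ) : Continuous (pt P) := by
  unfold pt
  refine continuous_pi ?_
  intro p
  refine (AddCircle.continuous_mk' (1:ℝ)).comp ?_
  fun_prop

lemma pt_add (P : Finset ℕ) (s t : ℝ) : pt P (s + t) = pt P s + pt P t := by
  funext p
  simp only [pt, Pi.add_apply]
  rw [← AddCircle.coe_add]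
  congr 1
  ring

lemma mz_cont (α : ℝ) (z : ℕ) : Continuous (mz α z) := by
  unfold mz
  exact (M0_cont α z).comp (pt_cont _)

lemma Zn_cont (α δ : ℝ) (hα : 0 < α) (h0 : 0 < δ) (h1 : δ ≤ 1 / 16) : Continuous (Zn α δ) := by
  unfold Zn
  refine continuous_const.mul ?_
  have hc : Continuous (fun u : ℝ => riemannZeta (1 / 2 + δ + u * I)) := by
    rw [continuous_iff_continuousAt]
    intro u
    have hd : DifferentiableAt ℂ riemannZeta (1 / 2 + δ + u * I) := by
      refine differentiableAt_riemannZeta ?_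
      intro h
      have := congrArg Complex.re h
      simp at this
      norm_num at this
      linarith
    have hg : ContinuousAt (fun u : ℝ => (1 / 2 + δ + u * I : ℂ)) u := by fun_prop
    exact ContinuousAt.comp (f := fun u : ℝ => (1 / 2 + δ + u * I : ℂ)) (g := riemannZeta)
      hd.continuousAt hg
  exact (continuous_norm.comp hc).rpow_const (fun u => Or.inr (by positivity))

/-- the window integral is continuous -/
lemma win_cont {f g : ℝ → ℝ} (hf : Continuous f) (hg : Continuous g) :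
    Continuous fun t : ℝ => ∫ x in (0:ℝ)..1, f x * g (t + x) := by
  refine intervalIntegral.continuous_parametric_intervalIntegral_of_continuous' ?_ _ _
  fun_prop

/-- the function on the torus -/
noncomputable def FF (α : ℝ) (z : ℕ) {n : ℕ} (f : Fin n → ℝ → ℝ) (x : UnitAddTorus (Sm z)) (j : Fin n) : ℝ :=
  ∫ y in (0:ℝ)..1, f j y * M0 α (Sm z) (x + pt (Sm z) y)

lemma FF_cont (α : ℝ) (z : ℕ) {n : ℕ} (f : Fin n → ℝ → ℝ) (hf : ∀ j, Continuous (f j)) :
    Continuous (FF α z f) := by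
  refine continuous_pi ?_
  intro j
  unfold FF
  refine intervalIntegral.continuous_parametric_intervalIntegral_of_continuous' ?_ _ _
  have h1 := M0_cont α z
  have h2 := pt_cont (Sm z)
  have h3 := hf j
  exact (h3.comp continuous_snd).mul (h1.comp (continuous_fst.add (h2.comp continuous_snd)))

lemma FF_pt (α : ℝ) (z : ℕ) {n : ℕ} (f : Fin n → ℝ → ℝ) (t : ℝ) :
    FF α z f (pt (Sm z) t) = fun j => ∫ x in (0:ℝ)..1, f j x * mz α z (t + x) := by
  funext j
  unfold FF mz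
  simp_rw [pt_add]

/-- a bound for finitely many continuous functions on the unit interval -/
lemma bound {n : ℕ} (f : Fin n → ℝ → ℝ) (hf : ∀ j, Continuous (f j)) :
    ∃ A : ℝ, 1 ≤ A ∧ ∀ j, ∀ x ∈ Set.Icc (0:ℝ) 1, |f j x| ≤ A := by
  have h : ∀ j, ∃ B : ℝ, ∀ x ∈ Set.Icc (0:ℝ) 1, |f j x| ≤ B := by
    intro j
    obtain ⟨B, hB⟩ := isCompact_Icc.exists_bound_of_continuousOn (s := Set.Icc (0:ℝ) 1) (hf j).continuousOn
    exact ⟨B, fun x hx => by simpa using hB x hx⟩
  choose B hB using h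
  refine ⟨1 + ∑ j, |B j|, ?_, ?_⟩
  · have : 0 ≤ ∑ j, |B j| := Finset.sum_nonneg (fun j _ => abs_nonneg _)
    linarith
  · intro j x hx
    have h1 := hB j x hx
    have h2 : |B j| ≤ ∑ j, |B j| :=
      Finset.single_le_sum (f := fun j => |B j|) (fun i _ => abs_nonneg _) (Finset.mem_univ j)
    have h3 := le_abs_self (B j)
    linarith

/-- (CORE) for a continuous function bounded by `A` on the unit interval -/
lemma core1 (α : ℝ) (ha0 : 0 < α) (δ : ℝ → ℝ) (hδ : Pd δ)
    {f : ℝ → ℝ} (hf : Continuous f) {A : ℝ} (hA : 1 ≤ A) (hfA : ∀ x ∈ Set.Icc (0:ℝ) 1, |f x| ≤ A)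
    (ε : ℝ) (z : ℕ)
    (hz : ∃ lam δ0 : ℝ, 1 ≤ lam ∧ 0 < δ0 ∧
      δ0 ≤ 1 / 16 ∧ ∀ᶠ X : ℝ in atTop, ∀ δ : ℝ, lam / Real.log X ≤ δ → δ ≤ δ0 → ∀ f : ℝ → ℝ, Measurable f →
      (∀ x, |f x| ≤ 1) →
      ∫ t in (0:ℝ)..X, |∫ x in (0:ℝ)..1, f x * (Zn α δ (t + x) - mz α z (t + x))| ≤ ε * X) :
    ∀ᶠ T : ℝ in atTop, 0 < δ T ∧ δ T ≤ 1 / 16 ∧
      ∫ t in (0:ℝ)..T, |(∫ x in (0:ℝ)..1, f x * Zn α (δ T) (t + x)) - ∫ x in (0:ℝ)..1, f x * mz α z (t + x)| ≤
        A * ε * T := by
  obtain ⟨lam, δ0, hlam, hδ0, hδ1, hX⟩ := hz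
  have e1 : ∀ᶠ T : ℝ in atTop, δ T ≤ δ0 := by
    exact hδ.t0.eventually (Iic_mem_nhds hδ0)
  have e2 : ∀ᶠ T : ℝ in atTop, lam ≤ δ T * Real.log T := hδ.tL.eventually_ge_atTop lam
  filter_upwards [hX, e1, e2, eventually_gt_atTop (Real.exp 1)] with T hT h2 h3 h4
  have hT0 : (0:ℝ) < T := lt_trans (Real.exp_pos 1) h4
  have hlog : 1 < Real.log T := by
    rw [Real.lt_log_iff_exp_lt hT0]; exact h4
  have hδT : lam / Real.log T ≤ δ T := by
    rw [div_le_iff₀ (by linarith)]; exact h3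
  have hδpos : 0 < δ T := lt_of_lt_of_le (by positivity) hδT
  refine ⟨hδpos, le_trans h2 hδ1, ?_⟩
  have hA0 : (0:ℝ) < A := by linarith
  have key := hT (δ T) hδT h2 (Set.indicator (Set.Icc (0:ℝ) 1) (fun x => f x / A))
    ((hf.measurable.div_const A).indicator measurableSet_Icc) (by
      intro x
      by_cases hx : x ∈ Set.Icc (0:ℝ) 1
      · rw [Set.indicator_of_mem hx, abs_div, abs_of_pos hA0, div_le_one hA0]
        exact hfA x hx
      · rw [Set.indicator_of_notMem hx]; simp)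
  have hZ := Zn_cont α (δ T) ha0 hδpos (le_trans h2 hδ1)
  have hm := mz_cont α z
  have e : ∀ t : ℝ, |(∫ x in (0:ℝ)..1, f x * Zn α (δ T) (t + x)) - ∫ x in (0:ℝ)..1, f x * mz α z (t + x)| =
      A * |∫ x in (0:ℝ)..1, Set.indicator (Set.Icc (0:ℝ) 1) (fun x => f x / A) x *
        (Zn α (δ T) (t + x) - mz α z (t + x))| := by
    intro t
    rw [← intervalIntegral.integral_sub]
    · rw [← abs_of_pos hA0, ← abs_mul, abs_of_pos hA0, ← intervalIntegral.integral_const_mul]
      congr 1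
      refine intervalIntegral.integral_congr ?_
      intro x hx
      rw [Set.uIcc_of_le (by norm_num)] at hx
      simp only
      rw [Set.indicator_of_mem hx]
      field_simp
    · refine Continuous.intervalIntegrable ?_ _ _
      fun_prop
    · refine Continuous.intervalIntegrable ?_ _ _
      fun_prop
  simp_rw [e]
  rw [intervalIntegral.integral_const_mul, mul_assoc]
  exact mul_le_mul_of_nonneg_left key hA0.le

/-! ### the random side -/

instance PO_prob : IsProbabilityMeasure PO := by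
  unfold PO; infer_instance

lemma integral_restr {P : Finset ℕ} {F : UnitAddTorus P → ℝ} (hF : Continuous F) :
    ∫ w, F (P.restrict w) ∂PO = ∫ x, F x ∂(HP P) := by
  unfold PO HP
  refine MeasureTheory.integral_restrict_infinitePi (X := fun _ : ℕ => UnitAddCircle)
    (μ := fun _ : ℕ => (AddCircle.haarAddCircle (T := (1:ℝ)))) (s := P) (f := F) ?_
  exact hF.aestronglyMeasurable

lemma rz_FF (h3 : S_RZ) (α : ℝ) (ha0 : 0 < α) (z : ℕ) {n : ℕ} (f : Fin n → ℝ → ℝ) (w : Om) :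
    (fun j => ∫ x in (0:ℝ)..1, f j x * rz α z w x) = FF α z f ((Sm z).restrict w) := by
  funext j
  unfold FF
  refine intervalIntegral.integral_congr ?_
  intro x _
  simp only
  rw [h3 α ha0 z w x]
  rfl


lemma lim1_int {α : ℝ} {Λ : (ℝ → ℝ) → Om → ℝ} (h : Lim1 α Λ) {f : ℝ → ℝ} (hf : Continuous f) :
    Tendsto (fun z : ℕ => ∫ w, |(∫ x in (0:ℝ)..1, f x * rz α z w x) - Λ f w| ∂PO) atTop (𝓝 0) :=
  (h f hf).2.2.2

lemma restr_cont (P : Finset ℕ) : Continuous (fun w : Om => (P.restrict w : UnitAddTorus P)) := by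
  refine continuous_pi ?_
  intro p
  exact continuous_apply (p : ℕ)

/-- the uniform measure on `[0,T]` -/
noncomputable def nu (T : ℝ) : Measure ℝ := (ENNReal.ofReal T)⁻¹ • volume.restrict (Set.Ioc 0 T)

lemma nu_prob {T : ℝ} (hT : 0 < T) : IsProbabilityMeasure (nu T) := by
  constructor
  unfold nu
  rw [Measure.smul_apply, Measure.restrict_apply MeasurableSet.univ, Set.univ_inter, Real.volume_Ioc,
    sub_zero, smul_eq_mul]
  exact ENNReal.inv_mul_cancel (by simpa using hT) ENNReal.ofReal_ne_top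

lemma nu_int {T : ℝ} (hT : 0 < T) (g : ℝ → ℝ) : ∫ t, g t ∂(nu T) = (1 / T) * ∫ t in (0:ℝ)..T, g t := by
  unfold nu
  rw [integral_smul_measure, intervalIntegral.integral_of_le hT.le]
  rw [ENNReal.toReal_inv, ENNReal.toReal_ofReal hT.le, one_div, smul_eq_mul]

/-- a Lipschitz function of the vector -/
lemma lip_le {n : ℕ} {G : (Fin n → ℝ) → ℝ} {L : NNReal} (hL : LipschitzWith L G) (x y : Fin n → ℝ) :
    |G x - G y| ≤ L * ∑ j, |x j - y j| := by
  have h1 := hL.dist_le_mul x y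
  rw [Real.dist_eq] at h1
  refine h1.trans ?_
  refine mul_le_mul_of_nonneg_left ?_ L.2
  rw [dist_pi_le_iff (Finset.sum_nonneg fun j _ => abs_nonneg _)]
  intro j
  rw [Real.dist_eq]
  exact Finset.single_le_sum (f := fun j => |x j - y j|) (fun i _ => abs_nonneg _) (Finset.mem_univ j)


lemma sum_int_le {n : ℕ} {g : Fin n → ℝ → ℝ} {c T : ℝ}
    (h : ∀ j, ∫ t in (0:ℝ)..T, g j t ≤ c) (hg : ∀ j, IntervalIntegrable (g j) volume 0 T) :
    ∫ t in (0:ℝ)..T, ∑ j, g j t ≤ n * c := by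
  rw [intervalIntegral.integral_finsetSum (fun j _ => hg j)]
  calc ∑ j, ∫ t in (0:ℝ)..T, g j t ≤ ∑ _j : Fin n, c := Finset.sum_le_sum fun j _ => h j
    _ = n * c := by simp

/-- the time side -/
lemma time_side {n : ℕ} {G : (Fin n → ℝ) → ℝ} {L : NNReal} (hL : LipschitzWith L G)
    {V U : ℝ → Fin n → ℝ} (hV : Continuous V) (hU : Continuous U) {T c : ℝ} (hT : 0 < T)
    (h : ∀ j, ∫ t in (0:ℝ)..T, |V t j - U t j| ≤ c * T) :
    |(1 / T) * (∫ t in (0:ℝ)..T, G (V t)) - (1 / T) * ∫ t in (0:ℝ)..T, G (U t)| ≤ L * (n * c) := by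
  have hG := hL.continuous
  have iV : IntervalIntegrable (fun t => G (V t)) volume 0 T := (hG.comp hV).intervalIntegrable _ _
  have iU : IntervalIntegrable (fun t => G (U t)) volume 0 T := (hG.comp hU).intervalIntegrable _ _
  rw [← mul_sub, abs_mul, abs_of_pos (by positivity), ← intervalIntegral.integral_sub iV iU]
  have cj : ∀ j, Continuous fun t => |V t j - U t j| := by
    intro j
    have a1 := (continuous_pi_iff.mp hV) j
    have a2 := (continuous_pi_iff.mp hU) j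
    exact (a1.sub a2).abs
  have cs : Continuous fun t => (L:ℝ) * ∑ j, |V t j - U t j| :=
    continuous_const.mul (continuous_finsetSum _ fun j _ => cj j)
  have s1 : |∫ t in (0:ℝ)..T, (G (V t) - G (U t))| ≤ ∫ t in (0:ℝ)..T, (L:ℝ) * ∑ j, |V t j - U t j| := by
    refine (intervalIntegral.abs_integral_le_integral_abs hT.le).trans ?_
    refine intervalIntegral.integral_mono_on hT.le ?_ (cs.intervalIntegrable _ _) ?_
    · exact (((hG.comp hV).sub (hG.comp hU)).abs).intervalIntegrable _ _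
    · intro t _
      exact lip_le hL _ _
  rw [intervalIntegral.integral_const_mul] at s1
  have s2 := sum_int_le (g := fun j t => |V t j - U t j|) h (fun j => (cj j).intervalIntegrable _ _)
  have s3 : (L:ℝ) * ∫ t in (0:ℝ)..T, ∑ j, |V t j - U t j| ≤ L * (n * (c * T)) :=
    mul_le_mul_of_nonneg_left s2 L.2
  calc 1 / T * |∫ t in (0:ℝ)..T, (G (V t) - G (U t))| ≤ 1 / T * (L * (n * (c * T))) :=
        mul_le_mul_of_nonneg_left (s1.trans s3) (by positivity)
    _ = L * (n * c) := by field_simp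

lemma bdd_of_dist {n : ℕ} {G : (Fin n → ℝ) → ℝ} (hb : ∃ C : ℝ, ∀ x y, dist (G x) (G y) ≤ C) :
    ∃ C : ℝ, ∀ x, ‖G x‖ ≤ C := by
  obtain ⟨C, hC⟩ := hb
  refine ⟨C + ‖G 0‖, fun x => ?_⟩
  have h1 := hC x 0
  rw [dist_eq_norm] at h1
  have h2 : ‖G x‖ ≤ ‖G x - G 0‖ + ‖G 0‖ := by
    have := norm_add_le (G x - G 0) (G 0)
    simpa using this
  linarith

/-- the random side -/
lemma random_side {n : ℕ} {G : (Fin n → ℝ) → ℝ} {L : NNReal} (hL : LipschitzWith L G)
    (hb : ∃ C : ℝ, ∀ x y, dist (G x) (G y) ≤ C)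
    {Y W : Om → Fin n → ℝ} (hY : Measurable Y) (hW : Measurable W) {c : ℝ}
    (hi : ∀ j, Integrable (fun w => |Y w j - W w j|) PO)
    (h : ∀ j, ∫ w, |Y w j - W w j| ∂PO ≤ c) :
    |(∫ w, G (Y w) ∂PO) - ∫ w, G (W w) ∂PO| ≤ L * (n * c) := by
  have hG := hL.continuous
  obtain ⟨C, hC⟩ := bdd_of_dist hb
  have iY : Integrable (fun w => G (Y w)) PO :=
    Integrable.of_bound (hG.measurable.comp hY).aestronglyMeasurable C (Eventually.of_forall fun w => hC _)
  have iW : Integrable (fun w => G (W w)) PO :=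
    Integrable.of_bound (hG.measurable.comp hW).aestronglyMeasurable C (Eventually.of_forall fun w => hC _)
  rw [← integral_sub iY iW]
  refine (abs_integral_le_integral_abs).trans ?_
  have s1 : ∫ w, |G (Y w) - G (W w)| ∂PO ≤ ∫ w, (L:ℝ) * ∑ j, |Y w j - W w j| ∂PO := by
    refine integral_mono (iY.sub iW).abs ?_ ?_
    · exact (integrable_finsetSum _ fun j _ => hi j).const_mul _
    · intro w
      exact lip_le hL _ _
  refine s1.trans ?_
  rw [integral_const_mul, integral_finsetSum _ fun j _ => hi j]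
  refine mul_le_mul_of_nonneg_left ?_ L.2
  calc ∑ j, ∫ w, |Y w j - W w j| ∂PO ≤ ∑ _j : Fin n, c := Finset.sum_le_sum fun j _ => h j
    _ = n * c := by simp


/-- convergence for bounded Lipschitz functions -/
lemma lip_conv (h1 : S_CORE) (h2 : S_ERG) (h3 : S_RZ) (α : ℝ) (ha0 : 0 < α) (ha1 : α < 1)
    (Λ : (ℝ → ℝ) → Om → ℝ) (hΛ : Lim1 α Λ) (δ : ℝ → ℝ) (hδ : Pd δ) {n : ℕ} (f : Fin n → ℝ → ℝ)
    (hf : ∀ j, Continuous (f j)) (G : (Fin n → ℝ) → ℝ) (hb : ∃ C : ℝ, ∀ x y, dist (G x) (G y) ≤ C)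
    (L : NNReal) (hL : LipschitzWith L G) :
    Tendsto (fun T : ℝ => (1 / T) * ∫ t in (0:ℝ)..T, G fun j => ∫ x in (0:ℝ)..1, f j x * Zn α (δ T) (t + x))
      atTop (𝓝 (∫ w, G (fun j => Λ (f j) w) ∂PO)) := by
  rw [Metric.tendsto_nhds]
  intro η hη
  obtain ⟨A, hA, hfA⟩ := bound f hf
  have hA0 : (0:ℝ) < A := by linarith
  have hL0 : (0:ℝ) ≤ L := L.2
  have hn0 : (0:ℝ) ≤ n := Nat.cast_nonneg n
  set ε : ℝ := η / (4 * (L * (n * A) + 1)) with hεdef
  have hε : 0 < ε := by positivity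
  have hε1 : L * (n * (A * ε)) ≤ η / 4 := by
    have e : L * (n * (A * ε)) = (L * (n * A)) / (L * (n * A) + 1) * (η / 4) := by
      rw [hεdef]; field_simp
    rw [e]
    have : (L * (n * A)) / (L * (n * A) + 1) ≤ 1 := by
      rw [div_le_one (by positivity)]; linarith
    nlinarith [this, hη]
  set ε2 : ℝ := η / (4 * (L * n + 1)) with hε2def
  have hε2 : 0 < ε2 := by positivity
  have hε3 : L * (n * ε2) ≤ η / 4 := by
    have e : L * (n * ε2) = (L * n) / (L * n + 1) * (η / 4) := by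
      rw [hε2def]; field_simp
    rw [e]
    have : (L * n : ℝ) / (L * n + 1) ≤ 1 := by
      rw [div_le_one (by positivity)]; linarith
    nlinarith [this, hη]
  obtain ⟨z0, hz0⟩ := h1 α ha0 ha1 ε hε
  have hev : ∀ᶠ z : ℕ in atTop, ∀ j, ∫ w, |(∫ x in (0:ℝ)..1, f j x * rz α z w x) - Λ (f j) w| ∂PO < ε2 := by
    rw [eventually_all]
    intro j
    exact (lim1_int hΛ (hf j)).eventually (Iio_mem_nhds hε2)
  obtain ⟨z, hz1, hz2⟩ := (hev.and (eventually_ge_atTop z0)).exists
  have hcore : ∀ᶠ T : ℝ in atTop, ∀ j, 0 < δ T ∧ δ T ≤ 1 / 16 ∧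
      ∫ t in (0:ℝ)..T, |(∫ x in (0:ℝ)..1, f j x * Zn α (δ T) (t + x)) - ∫ x in (0:ℝ)..1, f j x * mz α z (t + x)| ≤
        A * ε * T := by
    rw [eventually_all]
    intro j
    exact core1 α ha0 δ hδ (hf j) hA (hfA j) ε z (hz0 z hz2)
  have e1 : ∀ᶠ T : ℝ in atTop, δ T ≤ 1 / 16 := hδ.t0.eventually (Iic_mem_nhds (by norm_num))
  have e2 : ∀ᶠ T : ℝ in atTop, 1 ≤ δ T * Real.log T := hδ.tL.eventually_ge_atTop 1
  -- the random side
  set F : UnitAddTorus (Sm z) → ℝ := fun x => G (FF α z f x) with hF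
  have hFc : Continuous F := hL.continuous.comp (FF_cont α z f hf)
  obtain ⟨H0, hH0, hH⟩ := h2 (Sm z) (fun p hp => by
    have h : (p : ℕ) ∈ (range z).filter Nat.Prime := hp
    exact (Finset.mem_filter.mp h).2) F hFc (η / 8) (by positivity)
  have hmY : Measurable fun w : Om => (fun j => ∫ x in (0:ℝ)..1, f j x * rz α z w x) := by
    have : (fun w : Om => (fun j => ∫ x in (0:ℝ)..1, f j x * rz α z w x)) =
        fun w => FF α z f ((Sm z).restrict w) := by
      funext w; exact rz_FF h3 α ha0 z f w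
    rw [this]
    exact ((FF_cont α z f hf).comp (restr_cont _)).measurable
  have hmW : Measurable fun w : Om => (fun j => Λ (f j) w) :=
    measurable_pi_lambda _ fun j => (hΛ (f j) (hf j)).1
  have hiY : ∀ j, Integrable (fun w : Om => ∫ x in (0:ℝ)..1, f j x * rz α z w x) PO := by
    intro j
    have : (fun w : Om => ∫ x in (0:ℝ)..1, f j x * rz α z w x) =
        fun w => FF α z f ((Sm z).restrict w) j := by
      funext w; exact congrFun (rz_FF h3 α ha0 z f w) j
    rw [this]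
    have hc : Continuous fun w : Om => FF α z f ((Sm z).restrict w) j :=
      (continuous_apply j).comp ((FF_cont α z f hf).comp (restr_cont _))
    exact hc.integrable_of_hasCompactSupport (HasCompactSupport.of_compactSpace _)
  have hR := random_side hL hb hmY hmW
    (fun j => ((hiY j).sub (hΛ (f j) (hf j)).2.1).abs) (fun j => (hz1 j).le)
  have hRF : ∫ w, G (fun j => ∫ x in (0:ℝ)..1, f j x * rz α z w x) ∂PO = ∫ x, F x ∂(HP (Sm z)) := by
    rw [← integral_restr hFc]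
    refine integral_congr_ae (Eventually.of_forall fun w => ?_)
    simp only [hF]
    rw [rz_FF h3 α ha0 z f w]
  filter_upwards [hcore, e1, e2, eventually_ge_atTop H0, eventually_gt_atTop (1:ℝ)] with T c1 c2 c3 c4 c5
  have hT0 : (0:ℝ) < T := by linarith
  have hlog : 0 < Real.log T := Real.log_pos c5
  have hδpos : 0 < δ T := by
    by_contra hcon
    push Not at hcon
    nlinarith
  have hZ := Zn_cont α (δ T) ha0 hδpos c2
  have hV : Continuous fun t : ℝ => (fun j => ∫ x in (0:ℝ)..1, f j x * Zn α (δ T) (t + x)) :=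
    continuous_pi fun j => win_cont (hf j) hZ
  have hU : Continuous fun t : ℝ => (fun j => ∫ x in (0:ℝ)..1, f j x * mz α z (t + x)) :=
    continuous_pi fun j => win_cont (hf j) (mz_cont α z)
  have hT1 := time_side hL hV hU hT0 (fun j => (c1 j).2.2)
  have hT2 := hH T c4 0
  rw [zero_add] at hT2
  have hT3 : (∫ u in (0:ℝ)..T, F (pt (Sm z) u)) =
      ∫ t in (0:ℝ)..T, G fun j => ∫ x in (0:ℝ)..1, f j x * mz α z (t + x) := by
    refine intervalIntegral.integral_congr fun t _ => ?_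
    simp only [hF]
    rw [FF_pt]
  rw [hT3, ← hRF, div_eq_inv_mul, ← one_div] at hT2
  rw [Real.dist_eq]
  have t1 := abs_le.mp (hT1.trans hε1)
  have t2 := abs_le.mp hT2
  have t3 := abs_le.mp (hR.trans hε3)
  rw [abs_lt]
  constructor <;> linarith [t1.1, t1.2, t2.1, t2.2, t3.1, t3.2]

/-- (DIS) -/
theorem main (h1 : S_CORE) (h2 : S_ERG) (h3 : S_RZ) : S_DIS := by
  intro α ha0 ha1 Λ hΛ δ hδ n f hf G
  classical
  have e1 : ∀ᶠ T : ℝ in atTop, δ T ≤ 1 / 16 := hδ.t0.eventually (Iic_mem_nhds (by norm_num))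
  have e2 : ∀ᶠ T : ℝ in atTop, 1 ≤ δ T * Real.log T := hδ.tL.eventually_ge_atTop 1
  have hgood : ∀ᶠ T : ℝ in atTop, 0 < T ∧ 0 < δ T ∧ δ T ≤ 1 / 16 := by
    filter_upwards [e1, e2, eventually_gt_atTop (1:ℝ)] with T c2 c3 c5
    have hlog : 0 < Real.log T := Real.log_pos c5
    refine ⟨by linarith, ?_, c2⟩
    by_contra hcon
    push Not at hcon
    nlinarith
  let V : ℝ → ℝ → Fin n → ℝ := fun T t j => ∫ x in (0:ℝ)..1, f j x * Zn α (δ T) (t + x)
  have hVc : ∀ T, 0 < δ T → δ T ≤ 1 / 16 → Continuous (V T) := fun T a b =>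
    continuous_pi fun j => win_cont (hf j) (Zn_cont α (δ T) ha0 a b)
  let μs : ℝ → ProbabilityMeasure (Fin n → ℝ) := fun T =>
    if h : 0 < T ∧ 0 < δ T ∧ δ T ≤ 1 / 16 then
      ⟨(nu T).map (V T), by
        have := nu_prob h.1
        exact Measure.isProbabilityMeasure_map (hVc T h.2.1 h.2.2).aemeasurable⟩
    else ⟨Measure.dirac 0, inferInstance⟩
  have hmW : Measurable fun w : Om => (fun j => Λ (f j) w) :=
    measurable_pi_lambda _ fun j => (hΛ (f j) (hf j)).1
  let μ : ProbabilityMeasure (Fin n → ℝ) := ⟨PO.map fun w : Om => (fun j => Λ (f j) w),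
    Measure.isProbabilityMeasure_map hmW.aemeasurable⟩
  have hμs : ∀ T, 0 < T ∧ 0 < δ T ∧ δ T ≤ 1 / 16 → ∀ g : (Fin n → ℝ) → ℝ, Continuous g →
      ∫ y, g y ∂(μs T : Measure (Fin n → ℝ)) = (1 / T) * ∫ t in (0:ℝ)..T, g (V T t) := by
    intro T hT g hg
    have e : (μs T : Measure (Fin n → ℝ)) = (nu T).map (V T) := by
      have e' : μs T = ⟨(nu T).map (V T), by
          have := nu_prob hT.1
          exact Measure.isProbabilityMeasure_map (hVc T hT.2.1 hT.2.2).aemeasurable⟩ := dif_pos hT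
      rw [e']; rfl
    rw [e, integral_map (hVc T hT.2.1 hT.2.2).aemeasurable hg.aestronglyMeasurable, nu_int hT.1]
  have hμ : ∀ g : (Fin n → ℝ) → ℝ, Continuous g →
      ∫ y, g y ∂(μ : Measure (Fin n → ℝ)) = ∫ w, g (fun j => Λ (f j) w) ∂PO := by
    intro g hg
    exact integral_map hmW.aemeasurable hg.aestronglyMeasurable
  have hw : Tendsto μs atTop (𝓝 μ) := by
    rw [tendsto_iff_forall_lipschitz_integral_tendsto]
    rintro g hb ⟨L, hL⟩
    rw [hμ g hL.continuous]
    refine (lip_conv h1 h2 h3 α ha0 ha1 Λ hΛ δ hδ f hf g hb L hL).congr' ?_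
    filter_upwards [hgood] with T hT
    exact (hμs T hT g hL.continuous).symm
  rw [ProbabilityMeasure.tendsto_iff_forall_integral_tendsto] at hw
  have := hw G
  rw [hμ G G.continuous] at this
  refine this.congr' ?_
  filter_upwards [hgood] with T hT
  exact hμs T hT G G.continuous

end Pool.Agent.N748.GC.DIS
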