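import Pool.Agent.N748.GC.DIS

set_option autoImplicit false

/-!
# Convergence of the local moments for Lipschitz functions
-/

namespace Pool.Agent.N748.GC.DISL

open Finset Filter MeasureTheory Topology Complex Pool.Agent.N748.GC Pool.Agent.N748.GC.DIS

/-- integrability of a Lipschitz function of an integrable vector -/
lemma lip_int {n : ℕ} {G : (Fin n → ℝ) → ℝ} {L : NNReal} (hL : LipschitzWith L G) {Y : Om → Fin n → ℝ}
    (hY : Measurable Y) (hi : ∀ j, Integrable (fun w => Y w j) PO) : Integrable (fun w => G (Y w)) PO := by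
  have h1 : Integrable (fun w => |G 0| + L * ∑ j, |Y w j|) PO :=
    (integrable_const _).add ((integrable_finsetSum _ fun j _ => (hi j).abs).const_mul _)
  refine h1.mono' (hL.continuous.measurable.comp hY).aestronglyMeasurable (Eventually.of_forall fun w => ?_)
  rw [Real.norm_eq_abs]
  have h2 := lip_le hL (Y w) 0
  simp only [Pi.zero_apply, sub_zero] at h2
  have h3 := abs_add_le (G (Y w) - G 0) (G 0)
  rw [sub_add_cancel] at h3
  linarith

/-- the random side -/
lemma random_side' {n : ℕ} {G : (Fin n → ℝ) → ℝ} {L : NNReal} (hL : LipschitzWith L G)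
    {Y W : Om → Fin n → ℝ} (hY : Measurable Y) (hW : Measurable W) {c : ℝ}
    (hiY : ∀ j, Integrable (fun w => Y w j) PO) (hiW : ∀ j, Integrable (fun w => W w j) PO)
    (h : ∀ j, ∫ w, |Y w j - W w j| ∂PO ≤ c) :
    |(∫ w, G (Y w) ∂PO) - ∫ w, G (W w) ∂PO| ≤ L * (n * c) := by
  have iY := lip_int hL hY hiY
  have iW := lip_int hL hW hiW
  have hi : ∀ j, Integrable (fun w => |Y w j - W w j|) PO := fun j => ((hiY j).sub (hiW j)).abs
  rw [← integral_sub iY iW]
  refine (abs_integral_le_integral_abs).trans ?_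
  have s1 : ∫ w, |G (Y w) - G (W w)| ∂PO ≤ ∫ w, (L:ℝ) * ∑ j, |Y w j - W w j| ∂PO := by
    refine integral_mono (iY.sub iW).abs ?_ ?_
    · exact (integrable_finsetSum _ fun j _ => hi j).const_mul _
    · intro w
      exact lip_le hL _ _
  refine s1.trans ?_
  rw [integral_const_mul, integral_finsetSum _ fun j _ => hi j]
  refine mul_le_mul_of_nonneg_left ?_ L.2
  calc ∑ j, ∫ w, |Y w j - W w j| ∂PO ≤ ∑ _j : Fin n, c := Finset.sum_le_sum fun j _ => h j
    _ = n * c := by simp

/-- convergence for Lipschitz functions -/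
theorem wass (h1 : S_CORE) (h2 : S_ERG) (h3 : S_RZ) (α : ℝ) (ha0 : 0 < α) (ha1 : α < 1)
    (Λ : (ℝ → ℝ) → Om → ℝ) (hΛ : Lim1 α Λ) (δ : ℝ → ℝ) (hδ : Pd δ) {n : ℕ} (f : Fin n → ℝ → ℝ)
    (hf : ∀ j, Continuous (f j)) (G : (Fin n → ℝ) → ℝ)
    (L : NNReal) (hL : LipschitzWith L G) :
    Integrable (fun w => G (fun j => Λ (f j) w)) PO ∧
    Tendsto (fun T : ℝ => (1 / T) * ∫ t in (0:ℝ)..T, G fun j => ∫ x in (0:ℝ)..1, f j x * Zn α (δ T) (t + x))
      atTop (𝓝 (∫ w, G (fun j => Λ (f j) w) ∂PO)) := by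
  refine ⟨lip_int hL (measurable_pi_lambda _ fun j => (hΛ (f j) (hf j)).1) fun j => (hΛ (f j) (hf j)).2.1, ?_⟩
  rw [Metric.tendsto_nhds]
  intro η hη
  obtain ⟨A, hA, hfA⟩ := bound f hf
  have hA0 : (0:ℝ) < A := by linarith
  have hL0 : (0:ℝ) ≤ L := L.2
  have hn0 : (0:ℝ) ≤ n := Nat.cast_nonneg n
  set ε : ℝ := η / (4 * (L * (n * A) + 1)) with hεdef
  have hε : 0 < ε := by positivity
  have hε1 : L * (n * (A * ε)) ≤ η / 4 := by
    have e : L * (n * (A * ε)) = (L * (n * A)) / (L * (n * A) + 1) * (η / 4) := by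
      rw [hεdef]; field_simp
    rw [e]
    have : (L * (n * A)) / (L * (n * A) + 1) ≤ 1 := by
      rw [div_le_one (by positivity)]; linarith
    nlinarith [this, hη]
  set ε2 : ℝ := η / (4 * (L * n + 1)) with hε2def
  have hε2 : 0 < ε2 := by positivity
  have hε3 : L * (n * ε2) ≤ η / 4 := by
    have e : L * (n * ε2) = (L * n) / (L * n + 1) * (η / 4) := by
      rw [hε2def]; field_simp
    rw [e]
    have : (L * n : ℝ) / (L * n + 1) ≤ 1 := by
      rw [div_le_one (by positivity)]; linarith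
    nlinarith [this, hη]
  obtain ⟨z0, hz0⟩ := h1 α ha0 ha1 ε hε
  have hev : ∀ᶠ z : ℕ in atTop, ∀ j, ∫ w, |(∫ x in (0:ℝ)..1, f j x * rz α z w x) - Λ (f j) w| ∂PO < ε2 := by
    rw [eventually_all]
    intro j
    exact (lim1_int hΛ (hf j)).eventually (Iio_mem_nhds hε2)
  obtain ⟨z, hz1, hz2⟩ := (hev.and (eventually_ge_atTop z0)).exists
  have hcore : ∀ᶠ T : ℝ in atTop, ∀ j, 0 < δ T ∧ δ T ≤ 1 / 16 ∧
      ∫ t in (0:ℝ)..T, |(∫ x in (0:ℝ)..1, f j x * Zn α (δ T) (t + x)) - ∫ x in (0:ℝ)..1, f j x * mz α z (t + x)| ≤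
        A * ε * T := by
    rw [eventually_all]
    intro j
    exact core1 α ha0 δ hδ (hf j) hA (hfA j) ε z (hz0 z hz2)
  have e1 : ∀ᶠ T : ℝ in atTop, δ T ≤ 1 / 16 := hδ.t0.eventually (Iic_mem_nhds (by norm_num))
  have e2 : ∀ᶠ T : ℝ in atTop, 1 ≤ δ T * Real.log T := hδ.tL.eventually_ge_atTop 1
  -- the random side
  set F : UnitAddTorus (Sm z) → ℝ := fun x => G (FF α z f x) with hF
  have hFc : Continuous F := hL.continuous.comp (FF_cont α z f hf)
  obtain ⟨H0, hH0, hH⟩ := h2 (Sm z) (fun p hp => by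
    have h : (p : ℕ) ∈ (range z).filter Nat.Prime := hp
    exact (Finset.mem_filter.mp h).2) F hFc (η / 8) (by positivity)
  have hmY : Measurable fun w : Om => (fun j => ∫ x in (0:ℝ)..1, f j x * rz α z w x) := by
    have : (fun w : Om => (fun j => ∫ x in (0:ℝ)..1, f j x * rz α z w x)) =
        fun w => FF α z f ((Sm z).restrict w) := by
      funext w; exact rz_FF h3 α ha0 z f w
    rw [this]
    exact ((FF_cont α z f hf).comp (restr_cont _)).measurable
  have hmW : Measurable fun w : Om => (fun j => Λ (f j) w) :=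
    measurable_pi_lambda _ fun j => (hΛ (f j) (hf j)).1
  have hiY : ∀ j, Integrable (fun w : Om => ∫ x in (0:ℝ)..1, f j x * rz α z w x) PO := by
    intro j
    have : (fun w : Om => ∫ x in (0:ℝ)..1, f j x * rz α z w x) =
        fun w => FF α z f ((Sm z).restrict w) j := by
      funext w; exact congrFun (rz_FF h3 α ha0 z f w) j
    rw [this]
    have hc : Continuous fun w : Om => FF α z f ((Sm z).restrict w) j :=
      (continuous_apply j).comp ((FF_cont α z f hf).comp (restr_cont _))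
    exact hc.integrable_of_hasCompactSupport (HasCompactSupport.of_compactSpace _)
  have hR := random_side' hL hmY hmW hiY (fun j => (hΛ (f j) (hf j)).2.1) (fun j => (hz1 j).le)
  have hRF : ∫ w, G (fun j => ∫ x in (0:ℝ)..1, f j x * rz α z w x) ∂PO = ∫ x, F x ∂(HP (Sm z)) := by
    rw [← integral_restr hFc]
    refine integral_congr_ae (Eventually.of_forall fun w => ?_)
    simp only [hF]
    rw [rz_FF h3 α ha0 z f w]
  filter_upwards [hcore, e1, e2, eventually_ge_atTop H0, eventually_gt_atTop (1:ℝ)] with T c1 c2 c3 c4 c5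
  have hT0 : (0:ℝ) < T := by linarith
  have hlog : 0 < Real.log T := Real.log_pos c5
  have hδpos : 0 < δ T := by
    by_contra hcon
    push Not at hcon
    nlinarith
  have hZ := Zn_cont α (δ T) ha0 hδpos c2
  have hV : Continuous fun t : ℝ => (fun j => ∫ x in (0:ℝ)..1, f j x * Zn α (δ T) (t + x)) :=
    continuous_pi fun j => win_cont (hf j) hZ
  have hU : Continuous fun t : ℝ => (fun j => ∫ x in (0:ℝ)..1, f j x * mz α z (t + x)) :=
    continuous_pi fun j => win_cont (hf j) (mz_cont α z)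
  have hT1 := time_side hL hV hU hT0 (fun j => (c1 j).2.2)
  have hT2 := hH T c4 0
  rw [zero_add] at hT2
  have hT3 : (∫ u in (0:ℝ)..T, F (pt (Sm z) u)) =
      ∫ t in (0:ℝ)..T, G fun j => ∫ x in (0:ℝ)..1, f j x * mz α z (t + x) := by
    refine intervalIntegral.integral_congr fun t _ => ?_
    simp only [hF]
    rw [FF_pt]
  rw [hT3, ← hRF, div_eq_inv_mul, ← one_div] at hT2
  rw [Real.dist_eq]
  have t1 := abs_le.mp (hT1.trans hε1)
  have t2 := abs_le.mp hT2
  have t3 := abs_le.mp (hR.trans hε3)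
  rw [abs_lt]
  constructor <;> linarith [t1.1, t1.2, t2.1, t2.2, t3.1, t3.2]


end Pool.Agent.N748.GC.DISL
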