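import Pool.Agent.N748.GC.Fin2

set_option autoImplicit false

/-! The mean value, and the mean deviation for short windows. -/

namespace Pool.Agent.N748.GC

open Finset Filter MeasureTheory MonoidAlgebra Topology Complex
open Pool.Agent.Y755 Pool.Agent.W184.NZ
open Pool.Agent.Y753.NL

/-- integrals over windows, lower bound -/
lemma convH' {h : ℝ → ℝ} (hc : Continuous h) (h0 : ∀ u, 0 ≤ h u) {a b H k : ℝ} (hab : a + H ≤ b) (hH : 0 < H)
    (hk : k * H = 1) : ∫ u in (a + H)..b, h u ≤ ∫ t in a..b, k * ∫ x in (0:ℝ)..H, h (t + x) := by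
  have hk0 : 0 < k := by
    by_contra hcon
    push Not at hcon
    nlinarith
  have hi : IntegrableOn (Function.uncurry fun t x : ℝ => h (t + x)) (Set.uIoc a b ×ˢ Set.uIoc 0 H)
      (volume.prod volume) := by
    have hcc : Continuous (Function.uncurry fun t x : ℝ => h (t + x)) := by
      show Continuous fun q : ℝ × ℝ => h (q.1 + q.2)
      fun_prop
    have hK : IsCompact (Set.uIcc a b ×ˢ Set.uIcc (0:ℝ) H) := isCompact_uIcc.prod isCompact_uIcc
    exact (hcc.continuousOn.integrableOn_compact hK).mono_set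
      (Set.prod_mono Set.uIoc_subset_uIcc Set.uIoc_subset_uIcc)
  rw [intervalIntegral.integral_const_mul, intervalIntegral_intervalIntegral_swap hi]
  have h1 : ∀ x ∈ Set.Icc (0:ℝ) H, ∫ u in (a + H)..b, h u ≤ ∫ t in a..b, h (t + x) := by
    intro x hx
    rw [intervalIntegral.integral_comp_add_right]
    refine intervalIntegral.integral_mono_interval (by linarith [hx.2]) (by linarith) (by linarith [hx.1])
      (Eventually.of_forall h0) (hc.intervalIntegrable _ _)
  have hcx : Continuous fun x : ℝ => ∫ t in a..b, h (t + x) :=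
    intervalIntegral.continuous_parametric_intervalIntegral_of_continuous' (by
      show Continuous fun q : ℝ × ℝ => h (q.2 + q.1)
      fun_prop) a b
  calc ∫ u in (a + H)..b, h u = (k * H) * ∫ u in (a + H)..b, h u := by rw [hk, one_mul]
    _ = k * ∫ x in (0:ℝ)..H, ∫ u in (a + H)..b, h u := by
        rw [intervalIntegral.integral_const (a := (0:ℝ)) (b := H), smul_eq_mul, sub_zero]; ring
    _ ≤ k * ∫ x in (0:ℝ)..H, ∫ t in a..b, h (t + x) :=
        mul_le_mul_of_nonneg_left
          (intervalIntegral.integral_mono_on hH.le intervalIntegrable_const (hcx.intervalIntegrable _ _) h1) hk0.le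

/-- the mean value near the line -/
theorem mean_Zn {α : ℝ} (h0 : 0 < α) (h1 : α < 2) {ε : ℝ} (hε : 0 < ε) : ∃ lam δ0 : ℝ, 1 ≤ lam ∧ 0 < δ0 ∧ δ0 ≤ 1 / 16 ∧
    ∀ᶠ X : ℝ in atTop, ∀ δ : ℝ, lam / Real.log X ≤ δ → δ ≤ δ0 → |(∫ u in (0:ℝ)..X, Zn α δ u) - X| ≤ ε * X := by
  obtain ⟨θ, hθ⟩ : ∃ θ : ℝ, θ = max 0 (α ^ 2 - 1) + 1 := ⟨_, rfl⟩
  have hθ0 : 0 < θ := by rw [hθ]; have := le_max_left 0 (α ^ 2 - 1); linarith
  have hθ1 : α ^ 2 - 1 < θ := by rw [hθ]; have := le_max_right 0 (α ^ 2 - 1); linarith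
  obtain ⟨lam, δ0, hlam, hδ0, hδ16, hev⟩ := core2F α h0 h1 θ hθ0 hθ1 (ε / 4) (by linarith)
  obtain ⟨lam5, δ5, hlam5, hδ5, hδ516, hlow⟩ := low_ex2 h0 h1.le
  obtain ⟨δ6, hδ6, hlong⟩ := win_long hθ0 1
  refine ⟨2 * max lam lam5, min (min δ0 δ5) δ6, ?_, lt_min (lt_min hδ0 hδ5) hδ6,
    (min_le_left _ _).trans ((min_le_left _ _).trans hδ16), ?_⟩
  · have := le_max_left lam lam5; linarith
  have ht : Tendsto (fun X : ℝ => X - X ^ ((1:ℝ) / 2)) atTop atTop := by
    refine tendsto_atTop_mono' atTop ?_ (tendsto_id.const_mul_atTop (show (0:ℝ) < 1 / 2 by norm_num))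
    filter_upwards [rpow_ev (p := 1 / 2) (q := 1) (by norm_num) 2] with X hX
    rw [Real.rpow_one] at hX
    show 1 / 2 * X ≤ X - X ^ ((1:ℝ) / 2)
    linarith
  filter_upwards [hev, ht.eventually hev, hlow (ε / 4) (by linarith), win_short hθ0 hlam,
    rpow_ev (p := 1 / 2) (q := 1) (by norm_num) 2, rpow_ev (p := 1 / 2) (q := 1) (by norm_num) (4 / ε),
    eventually_ge_atTop 16] with X g1 g2 g3 g4 g5 g6 hX δ hd1 hd2
  have hX0 : 0 < X := by linarith
  have hL0 : 0 < Real.log X := Real.log_pos (by linarith)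
  rw [Real.rpow_one] at g5 g6
  have hlm := le_max_left lam lam5
  have hlm5 := le_max_right lam lam5
  have hd1' : lam / Real.log X ≤ δ := le_trans (div_le_div_of_nonneg_right (by linarith) hL0.le) hd1
  have hd15 : lam5 / Real.log X ≤ δ := le_trans (div_le_div_of_nonneg_right (by linarith) hL0.le) hd1
  have e2 : δ ≤ δ0 := hd2.trans ((min_le_left _ _).trans (min_le_left _ _))
  have e5 : δ ≤ δ5 := hd2.trans ((min_le_left _ _).trans (min_le_right _ _))
  have e6 : δ ≤ δ6 := hd2.trans (min_le_right _ _)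
  have hδp : 0 < δ := lt_of_lt_of_le (div_pos (by linarith) hL0) hd1'
  set Y := X - X ^ ((1:ℝ) / 2) with hY
  have hYX : 1 / 2 * X ≤ Y := by linarith
  have hY0 : 0 < Y := by linarith
  have hLY : 0 < Real.log Y := Real.log_pos (by linarith)
  have hLYX : Real.log X ≤ 2 * Real.log Y := by
    have : Real.log X ≤ Real.log (Y ^ 2) := by
      refine Real.log_le_log hX0 ?_
      nlinarith
    rwa [Real.log_pow] at this
  have hdY : lam / Real.log Y ≤ δ := by
    refine le_trans ?_ hd1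
    rw [div_le_div_iff₀ hLY hL0]
    nlinarith
  have f1 := g1 δ hd1' e2
  have f2 := g2 δ hdY e2
  have f3 := g3 δ hd15 e5
  have f4 := g4 δ hd1'
  have hZc := Zn_cont' (δ := δ) h0 (by linarith)
  have hZ0 : ∀ u, 0 ≤ Zn α δ u := Zn_nonneg h0 hδp.le
  obtain ⟨L, hL⟩ : ∃ L : ℝ, L = δ ^ (-θ) := ⟨_, rfl⟩
  obtain ⟨k, hk⟩ : ∃ k : ℝ, k = δ ^ θ := ⟨_, rfl⟩
  have hkL : k * L = 1 := by rw [hk, hL, ← Real.rpow_add hδp]; simp
  have hL1 : 1 ≤ L := by rw [hL]; exact hlong δ hδp e6
  have hLp : 0 < L := by linarith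
  rw [← hL, ← hk] at f1 f2
  rw [← hL] at f4
  have ew : ∀ t : ℝ, ∫ u in t..(t + L), Zn α δ u = ∫ x in (0:ℝ)..L, Zn α δ (t + x) := by
    intro t
    have := intervalIntegral.integral_comp_add_left (a := 0) (b := L) (fun u => Zn α δ u) t
    rw [add_zero] at this
    exact this.symm
  simp only [ew] at f1 f2
  have hwc := hwin_cont hZc k L
  -- from the mean deviation to the mean
  have hmean : ∀ B : ℝ, 0 ≤ B → |(∫ t in (0:ℝ)..B, k * ∫ x in (0:ℝ)..L, Zn α δ (t + x)) - B| ≤
      ∫ t in (0:ℝ)..B, |k * (∫ x in (0:ℝ)..L, Zn α δ (t + x)) - 1| := by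
    intro B hB
    have : (∫ t in (0:ℝ)..B, k * ∫ x in (0:ℝ)..L, Zn α δ (t + x)) - B =
        ∫ t in (0:ℝ)..B, (k * (∫ x in (0:ℝ)..L, Zn α δ (t + x)) - 1) := by
      rw [intervalIntegral.integral_sub (hwc.intervalIntegrable _ _) intervalIntegrable_const,
        intervalIntegral.integral_const, smul_eq_mul, sub_zero, mul_one]
    rw [this]
    exact intervalIntegral.abs_integral_le_integral_abs hB
  have m1 := abs_le.mp ((hmean X hX0.le).trans f1)
  have m2 := abs_le.mp ((hmean Y hY0.le).trans f2)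
  rw [abs_le]
  constructor
  · have c1 := convH hZc hZ0 (a := 0) (b := Y) hY0.le hLp hkL
    have c2 : ∫ u in (0:ℝ)..(Y + L), Zn α δ u ≤ ∫ u in (0:ℝ)..X, Zn α δ u :=
      intervalIntegral.integral_mono_interval le_rfl (by linarith) (by linarith) (Eventually.of_forall hZ0)
        (hZc.intervalIntegrable _ _)
    have h6 := mul_le_mul_of_nonneg_left g6 (by positivity : 0 ≤ ε / 4)
    have e7 : ε / 4 * (4 / ε * X ^ ((1:ℝ) / 2)) = X ^ ((1:ℝ) / 2) := by field_simp
    rw [e7] at h6
    have h7 : ε / 4 * Y ≤ ε / 4 * X := by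
      refine mul_le_mul_of_nonneg_left ?_ (by positivity)
      have : 0 ≤ X ^ ((1:ℝ) / 2) := Real.rpow_nonneg hX0.le _
      linarith
    have : 0 < ε * X := by positivity
    linarith [m2.1]
  · have hLX : 0 + L ≤ X := by linarith
    have c1 := convH' hZc hZ0 (a := 0) (b := X) hLX hLp hkL
    rw [zero_add] at c1
    have c2 : ∫ u in (0:ℝ)..L, Zn α δ u ≤ ε / 4 * X := by
      refine le_trans ?_ f3
      have hc2 : Continuous fun u => Zn α δ u + 1 := hZc.add continuous_const
      have hX1 : 0 ≤ Xl X := by unfold Xl; positivity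
      calc ∫ u in (0:ℝ)..L, Zn α δ u ≤ ∫ u in (0:ℝ)..L, (Zn α δ u + 1) :=
            intervalIntegral.integral_mono_on hLp.le (hZc.intervalIntegrable _ _) (hc2.intervalIntegrable _ _)
              fun u _ => by linarith
        _ ≤ _ := intervalIntegral.integral_mono_interval le_rfl hLp.le (by linarith)
              (Eventually.of_forall fun u => by have := hZ0 u; show 0 ≤ Zn α δ u + 1; linarith)
              (hc2.intervalIntegrable _ _)
    have c3 := intervalIntegral.integral_add_adjacent_intervals (hZc.intervalIntegrable (μ := volume) 0 L)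
      (hZc.intervalIntegrable (μ := volume) L X)
    have : 0 < ε * X := by positivity
    linarith [m1.2]

/-- small values in measure and mean value one: the mean deviation tends to two -/
lemma dev_two {Y : ℝ → ℝ → ℝ} (hc : ∀ᶠ T : ℝ in atTop, Continuous (Y T)) (h0 : ∀ᶠ T : ℝ in atTop, ∀ t, 0 ≤ Y T t)
    (hm : Tendsto (fun T : ℝ => (1 / T) * ∫ t in (0:ℝ)..T, Y T t) atTop (𝓝 1))
    (hd : ∀ η : ℝ, 0 < η → Tendsto (fun T : ℝ => (1 / T) * (volume {t : ℝ | 0 ≤ t ∧ t ≤ T ∧ η ≤ Y T t}).toReal)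
      atTop (𝓝 0)) :
    Tendsto (fun T : ℝ => (1 / T) * ∫ t in (0:ℝ)..T, |Y T t - 1|) atTop (𝓝 2) := by
  rw [Metric.tendsto_nhds]
  intro ε hε
  obtain ⟨η, hη⟩ : ∃ η : ℝ, η = min (ε / 8) (1 / 2) := ⟨_, rfl⟩
  have hη0 : 0 < η := by rw [hη]; exact lt_min (by linarith) (by norm_num)
  have hη1 : η < 1 := by rw [hη]; exact lt_of_le_of_lt (min_le_right _ _) (by norm_num)
  have hηε : η ≤ ε / 8 := by rw [hη]; exact min_le_left _ _
  filter_upwards [hc, h0, Metric.tendsto_nhds.mp hm (ε / 4) (by linarith),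
    Metric.tendsto_nhds.mp (hd η hη0) (ε / 8) (by linarith), eventually_gt_atTop 0] with T c0 p0 m0 d0 hT
  rw [Real.dist_eq] at m0 d0 ⊢
  rw [abs_lt] at m0 d0 ⊢
  have hS : MeasurableSet {t : ℝ | 0 ≤ t ∧ t ≤ T ∧ η ≤ Y T t} :=
    (isClosed_le continuous_const continuous_id).measurableSet.inter
      ((isClosed_le continuous_id continuous_const).measurableSet.inter
        (isClosed_le continuous_const c0).measurableSet)
  have hI : ∫ t in (0:ℝ)..T, (Set.indicator {t : ℝ | η ≤ Y T t} (fun _ => (1:ℝ)) t) ≤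
      (volume {t : ℝ | 0 ≤ t ∧ t ≤ T ∧ η ≤ Y T t}).toReal := by
    rw [intervalIntegral.integral_of_le hT.le, integral_indicator (isClosed_le continuous_const c0).measurableSet,
      Measure.restrict_restrict (isClosed_le continuous_const c0).measurableSet]
    rw [setIntegral_const, smul_eq_mul, mul_one]
    refine ENNReal.toReal_mono ?_ (measure_mono ?_)
    · refine ne_top_of_le_ne_top (b := volume (Set.Icc (0:ℝ) T)) (by simp) (measure_mono ?_)
      intro t ht
      exact ⟨ht.1, ht.2.1⟩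
    · intro t ht
      exact ⟨ht.2.1.le, ht.2.2, ht.1⟩
  have hpt : ∀ t, Y T t - 1 + 2 * (1 - η) * (1 - Set.indicator {t : ℝ | η ≤ Y T t} (fun _ => (1:ℝ)) t) ≤ |Y T t - 1| := by
    intro t
    by_cases h : η ≤ Y T t
    · rw [Set.indicator_of_mem (show t ∈ {t : ℝ | η ≤ Y T t} from h)]
      have := le_abs_self (Y T t - 1)
      linarith
    · rw [Set.indicator_of_notMem (show t ∉ {t : ℝ | η ≤ Y T t} from h)]
      push Not at h
      have := neg_abs_le (Y T t - 1)
      linarith
  have hii : IntervalIntegrable (fun t => Set.indicator {t : ℝ | η ≤ Y T t} (fun _ => (1:ℝ)) t) volume 0 T := by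
    rw [intervalIntegrable_iff]
    exact (integrableOn_const (by simp)).indicator (isClosed_le continuous_const c0).measurableSet
  have hci : IntervalIntegrable (Y T) volume 0 T := c0.intervalIntegrable _ _
  have hca : IntervalIntegrable (fun t => |Y T t - 1|) volume 0 T := (c0.sub continuous_const).abs.intervalIntegrable _ _
  have hlow : (∫ t in (0:ℝ)..T, Y T t) - T + 2 * (1 - η) * (T -
      ∫ t in (0:ℝ)..T, (Set.indicator {t : ℝ | η ≤ Y T t} (fun _ => (1:ℝ)) t)) ≤ ∫ t in (0:ℝ)..T, |Y T t - 1| := by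
    have e1 : (∫ t in (0:ℝ)..T, Y T t) - T + 2 * (1 - η) * (T -
      ∫ t in (0:ℝ)..T, (Set.indicator {t : ℝ | η ≤ Y T t} (fun _ => (1:ℝ)) t)) =
        ∫ t in (0:ℝ)..T, (Y T t - 1 + 2 * (1 - η) * (1 - Set.indicator {t : ℝ | η ≤ Y T t} (fun _ => (1:ℝ)) t)) := by
      rw [intervalIntegral.integral_add (hci.sub intervalIntegrable_const)
        ((intervalIntegrable_const.sub hii).const_mul _), intervalIntegral.integral_sub hci intervalIntegrable_const,
        intervalIntegral.integral_const_mul, intervalIntegral.integral_sub intervalIntegrable_const hii,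
        intervalIntegral.integral_const, smul_eq_mul, sub_zero, mul_one]
    rw [e1]
    exact intervalIntegral.integral_mono_on hT.le
      ((hci.sub intervalIntegrable_const).add ((intervalIntegrable_const.sub hii).const_mul _)) hca fun t _ => hpt t
  have hupp : ∫ t in (0:ℝ)..T, |Y T t - 1| ≤ (∫ t in (0:ℝ)..T, Y T t) + T := by
    have e1 : (∫ t in (0:ℝ)..T, Y T t) + T = ∫ t in (0:ℝ)..T, (Y T t + 1) := by
      rw [intervalIntegral.integral_add hci intervalIntegrable_const, intervalIntegral.integral_const, smul_eq_mul,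
        sub_zero, mul_one]
    rw [e1]
    refine intervalIntegral.integral_mono_on hT.le hca (hci.add intervalIntegrable_const) fun t _ => ?_
    refine (abs_sub _ _).trans ?_
    rw [abs_of_nonneg (p0 t), abs_one]
  set I0 := ∫ t in (0:ℝ)..T, |Y T t - 1| with hI0
  set I1 := ∫ t in (0:ℝ)..T, Y T t with hI1
  set V := (volume {t : ℝ | 0 ≤ t ∧ t ≤ T ∧ η ≤ Y T t}).toReal with hV
  set J := ∫ t in (0:ℝ)..T, (Set.indicator {t : ℝ | η ≤ Y T t} (fun _ => (1:ℝ)) t) with hJ
  have hT1 : 0 < 1 / T := by positivity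
  have hTT : 1 / T * T = 1 := by field_simp
  constructor
  · have a1 := mul_le_mul_of_nonneg_left hlow hT1.le
    have a2 := mul_le_mul_of_nonneg_left hI hT1.le
    have e1 : 1 / T * (I1 - T + 2 * (1 - η) * (T - J)) = 1 / T * I1 - 1 + 2 * (1 - η) * (1 - 1 / T * J) := by
      have : 1 / T * (I1 - T + 2 * (1 - η) * (T - J)) = 1 / T * I1 - 1 / T * T + 2 * (1 - η) * (1 / T * T - 1 / T * J) := by
        ring
      rw [this, hTT]
    rw [e1] at a1
    have a3 : 0 ≤ 1 / T * J := mul_nonneg hT1.le (by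
      rw [hJ]
      exact intervalIntegral.integral_nonneg hT.le fun t _ => Set.indicator_nonneg (fun _ _ => zero_le_one) _)
    have a4 : 1 / T * J < ε / 8 := by linarith [d0.2]
    have a5 : 2 * (1 - η) * (1 / T * J) ≤ 2 * (1 / T * J) := by nlinarith
    nlinarith [m0.1]
  · have a1 := mul_le_mul_of_nonneg_left hupp hT1.le
    rw [mul_add, hTT] at a1
    linarith [m0.2]

end Pool.Agent.N748.GC
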