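import Pool.Agent.N748.GC.Dev

set_option autoImplicit false

/-! The mean value over short windows. -/

namespace Pool.Agent.N748.GC

open Finset Filter MeasureTheory MonoidAlgebra Topology Complex
open Pool.Agent.Y755 Pool.Agent.W184.NZ
open Pool.Agent.Y753.NL

theorem mean_win {α : ℝ} (h0 : 0 < α) (h1 : α < 2) {δ : ℝ → ℝ} (hδ : Pd δ) {H : ℝ → ℝ} (hH : ∀ᶠ T in atTop, 0 < H T)
    (hH1 : ∀ᶠ T : ℝ in atTop, H T ≤ T ^ ((1:ℝ) / 2)) :
    Tendsto (fun T : ℝ => (1 / T) * ∫ t in (0:ℝ)..T, (1 / H T) * ∫ u in t..(t + H T), Zn α (δ T) u) atTop (𝓝 1) := by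
  rw [Metric.tendsto_nhds]
  intro ε hε
  obtain ⟨lam, δ0, hlam, hδ0, hδ16, hev⟩ := mean_Zn h0 h1 (ε := ε / 8) (by linarith)
  obtain ⟨lam5, δ5, hlam5, hδ5, hδ516, hlow⟩ := low_ex2 h0 h1.le
  have ht : Tendsto (fun T : ℝ => T + H T) atTop atTop := by
    refine tendsto_atTop_mono' atTop ?_ tendsto_id
    filter_upwards [hH] with T hT
    show T ≤ T + H T
    linarith
  filter_upwards [hev, ht.eventually hev, hlow (ε / 8) (by linarith), hδ.t0.eventually_le_const hδ0,
    hδ.t0.eventually_le_const hδ5, hδ.tL.eventually_ge_atTop lam, hδ.tL.eventually_ge_atTop lam5, hH, hH1,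
    eventually_gt_atTop 16, rpow_ev (p := 1 / 2) (q := 1) (by norm_num) 1,
    rpow_ev (p := 1 / 2) (q := 1) (by norm_num) (16 / ε)]
    with T g1 g2 g3 g4 g5 g6 g7 g8 g9 hT g10 g11
  rw [Real.rpow_one] at g10 g11
  have hT0 : 0 < T := by linarith
  have hL0 : 0 < Real.log T := Real.log_pos (by linarith)
  have hδp : 0 < δ T := by
    have : 0 < δ T * Real.log T := by linarith
    exact (pos_iff_pos_of_mul_pos this).mpr hL0
  have d1 : lam / Real.log T ≤ δ T := by rw [div_le_iff₀ hL0]; exact g6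
  have d5 : lam5 / Real.log T ≤ δ T := by rw [div_le_iff₀ hL0]; exact g7
  have hL1 : Real.log T ≤ Real.log (T + H T) := Real.log_le_log hT0 (by linarith)
  have d2 : lam / Real.log (T + H T) ≤ δ T :=
    le_trans (div_le_div_of_nonneg_left (by linarith) hL0 hL1) d1
  have f1 := abs_le.mp (g1 (δ T) d1 g4)
  have f2 := abs_le.mp (g2 (δ T) d2 g4)
  have f3 := g3 (δ T) d5 g5
  have hZc := Zn_cont' (δ := δ T) h0 (by linarith)
  have hZ0 : ∀ u, 0 ≤ Zn α (δ T) u := Zn_nonneg h0 hδp.le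
  have hk : 1 / H T * H T = 1 := by field_simp
  have ew : ∀ t : ℝ, ∫ u in t..(t + H T), Zn α (δ T) u = ∫ x in (0:ℝ)..(H T), Zn α (δ T) (t + x) := by
    intro t
    have := intervalIntegral.integral_comp_add_left (a := 0) (b := H T) (fun u => Zn α (δ T) u) t
    rw [add_zero] at this
    exact this.symm
  simp only [ew]
  have hHT : 0 + H T ≤ T := by linarith
  have c1 := convH hZc hZ0 (a := 0) (b := T) hT0.le g8 hk
  have c2 := convH' hZc hZ0 (a := 0) (b := T) hHT g8 hk
  rw [zero_add] at c2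
  have c3 := intervalIntegral.integral_add_adjacent_intervals (hZc.intervalIntegrable (μ := volume) 0 (H T))
    (hZc.intervalIntegrable (μ := volume) (H T) T)
  have c4 : ∫ u in (0:ℝ)..(H T), Zn α (δ T) u ≤ ε / 8 * T := by
    refine le_trans ?_ f3
    have hc2 : Continuous fun u => Zn α (δ T) u + 1 := hZc.add continuous_const
    have hX1 : 0 ≤ Xl T := by unfold Xl; positivity
    calc ∫ u in (0:ℝ)..(H T), Zn α (δ T) u ≤ ∫ u in (0:ℝ)..(H T), (Zn α (δ T) u + 1) :=
          intervalIntegral.integral_mono_on g8.le (hZc.intervalIntegrable _ _) (hc2.intervalIntegrable _ _)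
            fun u _ => by linarith
      _ ≤ _ := intervalIntegral.integral_mono_interval le_rfl g8.le (by linarith)
            (Eventually.of_forall fun u => by have := hZ0 u; show 0 ≤ Zn α (δ T) u + 1; linarith)
            (hc2.intervalIntegrable _ _)
  set J := ∫ t in (0:ℝ)..T, 1 / H T * ∫ x in (0:ℝ)..(H T), Zn α (δ T) (t + x) with hJ
  have h6 := mul_le_mul_of_nonneg_left g11 (by positivity : 0 ≤ ε / 16)
  have e7 : ε / 16 * (16 / ε * T ^ ((1:ℝ) / 2)) = T ^ ((1:ℝ) / 2) := by field_simp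
  rw [e7] at h6
  rw [Real.dist_eq]
  have hfin : |J - T| < ε * T := by
    rw [abs_lt]
    have hεT : 0 < ε * T := by positivity
    have h8 : ε / 8 * (T + H T) ≤ ε / 4 * T := by nlinarith
    constructor
    · linarith [f1.1]
    · linarith [f2.2]
  have e8 : 1 / T * J - 1 = (J - T) / T := by field_simp
  rw [e8, abs_div, abs_of_pos hT0, div_lt_iff₀ hT0]
  exact hfin

end Pool.Agent.N748.GC
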