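import Pool.Agent.N748.GC.L1
import Pool.Agent.N748.GC.MV
import Pool.Agent.N748.GC.EQ

set_option autoImplicit false

/-!
# GC/TWO: the two-point function on the good points
-/

namespace Pool.Agent.N748.GC.TWO

open Finset Filter MeasureTheory MonoidAlgebra Topology Complex Pool.Agent.N748.GC

/-! ### the blocks -/

lemma be_zero {y : ℝ} (hy : 1 ≤ y) : be y 0 = y := by
  unfold be
  rw [pow_zero, mul_one, Real.exp_log (by linarith)]

lemma log_be (y : ℝ) (i : ℕ) : Real.log (be y i) = Real.log y * (1 / 4) ^ i := by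
  unfold be; rw [Real.log_exp]

lemma be_pos (y : ℝ) (i : ℕ) : 0 < be y i := Real.exp_pos _

lemma be_anti {y : ℝ} (hy : 1 ≤ y) {i j : ℕ} (h : i ≤ j) : be y j ≤ be y i := by
  unfold be
  refine Real.exp_le_exp.2 (mul_le_mul_of_nonneg_left ?_ (Real.log_nonneg hy))
  exact pow_le_pow_of_le_one (by norm_num) (by norm_num) h

lemma mem_IB {z : ℕ} (hz : 144 ≤ z) {y : ℝ} {i p : ℕ} :
    p ∈ IB z y i ↔ z ≤ p ∧ p.Prime ∧ (p:ℝ) ≤ be y i ∧ be y (i + 1) < (p:ℝ) := by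
  unfold IB
  simp only [mem_filter, mem_Icc]
  constructor
  · rintro ⟨⟨⟨h1, h2⟩, h3, h4, h5⟩, h6⟩
    exact ⟨h6, h3, (Nat.le_floor_iff (be_pos y i).le).1 h2, h5⟩
  · rintro ⟨h1, h2, h3, h4⟩
    exact ⟨⟨⟨h2.one_lt.le, Nat.le_floor h3⟩, h2, hz.trans h1, h4⟩, h1⟩

lemma sum_blocks {z : ℕ} (hz : 144 ≤ z) {y : ℝ} (hy : 1 ≤ y) (f : ℕ → ℝ) (j : ℕ) : ∀ k, j ≤ k →
    ∑ i ∈ Ico j k, ∑ p ∈ IB z y i, f p =
      ∑ p ∈ (Icc z ⌊be y j⌋₊).filter (fun p : ℕ => p.Prime ∧ be y k < (p:ℝ)), f p := by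
  classical
  intro k hk
  induction k, hk using Nat.le_induction with
  | base =>
    rw [Ico_self, sum_empty, Finset.filter_eq_empty_iff.2, sum_empty]
    intro p hp h
    have := (Nat.le_floor_iff (be_pos y j).le).1 (mem_Icc.1 hp).2
    linarith [h.2]
  | succ k hk ih =>
    rw [sum_Ico_succ_top hk, ih, ← sum_union]
    · congr 1
      ext p
      simp only [mem_union, mem_filter, mem_Icc, mem_IB hz]
      have h1 : be y (k + 1) ≤ be y k := be_anti hy (Nat.le_succ k)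
      have h2 : be y k ≤ be y j := be_anti hy hk
      constructor
      · rintro (⟨⟨h3, h4⟩, h5, h6⟩ | ⟨h3, h4, h5, h6⟩)
        · exact ⟨⟨h3, h4⟩, h5, h1.trans_lt h6⟩
        · exact ⟨⟨h3, Nat.le_floor (h5.trans h2)⟩, h4, h6⟩
      · rintro ⟨⟨h3, h4⟩, h5, h6⟩
        rcases lt_or_ge (be y k) (p:ℝ) with h7 | h7
        · exact Or.inl ⟨⟨h3, h4⟩, h5, h7⟩
        · exact Or.inr ⟨h3, h5, h7, h6⟩
    · rw [Finset.disjoint_left]
      intro p hp hp'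
      have h1 := (mem_filter.1 hp).2.2
      have h2 := ((mem_IB hz).1 hp').2.2.1
      linarith

lemma sum_low {z : ℕ} (hz : 144 ≤ z) {y : ℝ} (hy : 1 ≤ y) (f : ℕ → ℝ) {j J : ℕ} (hj : j ≤ J)
    (hJ : be y J < 144) :
    ∑ i ∈ Ico j J, ∑ p ∈ IB z y i, f p = ∑ p ∈ (Icc z ⌊be y j⌋₊).filter Nat.Prime, f p := by
  rw [sum_blocks hz hy f j J hj]
  congr 1
  refine filter_congr fun p hp => ?_
  have h1 : (144:ℝ) ≤ p := by exact_mod_cast hz.trans (mem_Icc.1 hp).1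
  exact ⟨fun h => h.1, fun h => ⟨h, hJ.trans_le h1⟩⟩

lemma sum_high {z : ℕ} (hz : 144 ≤ z) {y : ℝ} (hy : 1 ≤ y) (f : ℕ → ℝ) {j : ℕ} (hj : (z:ℝ) ≤ be y j) :
    ∑ i ∈ Ico 0 j, ∑ p ∈ IB z y i, f p =
      ∑ p ∈ (Icc (⌊be y j⌋₊ + 1) ⌊y⌋₊).filter Nat.Prime, f p := by
  rw [sum_blocks hz hy f 0 j (Nat.zero_le _), be_zero hy]
  congr 1
  ext p
  simp only [mem_filter, mem_Icc]
  have h0 : z ≤ ⌊be y j⌋₊ := Nat.le_floor hj
  constructor
  · rintro ⟨⟨h1, h2⟩, h3, h4⟩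
    exact ⟨⟨(Nat.floor_lt (be_pos y j).le).2 h4, h2⟩, h3⟩
  · rintro ⟨⟨h1, h2⟩, h3⟩
    exact ⟨⟨by omega, h2⟩, h3, (Nat.floor_lt (be_pos y j).le).1 (by omega)⟩

/-! ### partial products -/

/-- `α` for `i < j`, `0` beyond -/
noncomputable def ca (α : ℝ) (j : ℕ) : ℕ → ℝ := fun i => if i < j then α else 0

lemma ca_bd {α : ℝ} (h0 : 0 ≤ α) (h2 : α ≤ 2) (j i : ℕ) : 0 ≤ ca α j i ∧ ca α j i ≤ 2 := by
  unfold ca
  split_ifs
  · exact ⟨h0, h2⟩
  · norm_num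

lemma NKc_zero (K : ℕ) (x : PC) : NKc K 0 x = 1 := by
  unfold NKc
  rw [Finset.sum_eq_single 0]
  · simp
  · intro b _ hb
    simp [hb]
  · intro h
    exact absurd (mem_range.2 (Nat.succ_pos K)) h

lemma BP_split (α : ℝ) (z : ℕ) (y : ℝ) {j J : ℕ} (hj : j ≤ J) (Rs : ℕ) :
    BP (fun _ => α) z y 0 J Rs = BP (ca α j) z y 0 J Rs * BP (fun _ => α) z y j J Rs := by
  unfold BP
  rw [← prod_Ico_consecutive _ (Nat.zero_le j) hj, ← prod_Ico_consecutive _ (Nat.zero_le j) hj]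
  have h1 : ∏ i ∈ Ico j J, NKc (20 * RB Rs i) (ca α j i) (xc (IB z y i)) = 1 := by
    refine prod_eq_one fun i hi => ?_
    have : ca α j i = 0 := if_neg (not_lt.2 (mem_Ico.1 hi).1)
    rw [this, NKc_zero]
  rw [h1, mul_one]
  congr 1
  refine prod_congr rfl fun i hi => ?_
  have : ca α j i = α := if_pos (mem_Ico.1 hi).2
  rw [this]

/-! ### shifts -/

lemma sf_sf (x h : ℝ) {f : PC} (hf : ∀ n ∈ f.coeff.support, n ≠ 0) : sf x (sf h f) = sf (x + h) f := by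
  conv_lhs => rw [MV.PC_sum f, map_sum, map_sum]
  conv_rhs => rw [MV.PC_sum f, map_sum]
  refine sum_congr rfl fun n hn => ?_
  rw [MV.sf_single, MV.sf_single, MV.sf_single, mul_assoc, ← Complex.cpow_add _ _ (by exact_mod_cast hf n hn)]
  congr 3
  push_cast
  ring

lemma nn_shift (δ x y : ℝ) (f : PC) {g : PC} (hg : ∀ n ∈ g.coeff.support, n ≠ 0) :
    nn δ (sf x f * sf y g) = nn δ (f * sf (y - x) g) := by
  have h1 : sf y g = sf x (sf (y - x) g) := by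
    rw [sf_sf _ _ hg]
    congr 2
    ring
  rw [h1, ← map_mul, MV.nn_sf]

lemma Cop_mono {P : Finset ℕ} {N M : ℝ} (h : N ≤ M) {D : PC} (hD : Cop P N D) : Cop P M D :=
  fun n hn => ⟨(hD n hn).1, (hD n hn).2.1.trans h, (hD n hn).2.2⟩

lemma len_mul {z : ℕ} {N M : ℝ} (hN : 0 ≤ N) (hNM : N * N ≤ M) {f g : PC}
    (hf : Cop (Sm z) N f ∧ lc1 f ≤ N) (hg : Cop (Sm z) N g ∧ lc1 g ≤ N) (x y : ℝ) :
    Cop (Sm z) M (sf x f * sf y g) ∧ lc1 (sf x f * sf y g) ≤ M := by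
  constructor
  · exact Cop_mono hNM (MV.Cop_mul (fun p hp => (mem_filter.1 hp).2) hN (MV.Cop_sf x hf.1) (MV.Cop_sf y hg.1))
  · refine (MV.lc1_mul _ _).trans (le_trans ?_ hNM)
    exact mul_le_mul ((MV.lc1_sf_le x f).trans hf.2) ((MV.lc1_sf_le y g).trans hg.2) (MV.lc1_nonneg _) hN

/-! ### the weights -/

lemma wd_le {δ : ℝ} (hδ : 0 ≤ δ) {p : ℕ} (hp : 1 ≤ p) : wd δ p ≤ 1 / (p:ℝ) := by
  unfold wd
  have h1 : (p:ℝ) ^ (-(2 * δ)) ≤ 1 :=
    Real.rpow_le_one_of_one_le_of_nonpos (by exact_mod_cast hp) (by linarith)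
  calc (p:ℝ) ^ (-(2 * δ)) * (1 / (p:ℝ)) ≤ 1 * (1 / (p:ℝ)) := mul_le_mul_of_nonneg_right h1 (by positivity)
    _ = 1 / (p:ℝ) := one_mul _

lemma VB_nonneg (δ : ℝ) (z : ℕ) (y : ℝ) (j J : ℕ) : 0 ≤ VB δ z y j J :=
  sum_nonneg fun _ _ => sum_nonneg fun _ _ => MV.wd_nonneg _ _

lemma VB_le {Cm : ℝ} (hCm : 0 < Cm)
    (hM : ∀ (z : ℕ) (x : ℝ), 2 ≤ z → (z:ℝ) ≤ x →
      |∑ p ∈ (Icc z ⌊x⌋₊).filter Nat.Prime, 1 / (p:ℝ) - Real.log (Real.log x / Real.log z)| ≤ Cm / Real.log z)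
    {z : ℕ} (hz : 144 ≤ z) (hL : 1 ≤ Real.log z) {y : ℝ} (hy : 1 ≤ y) {δ : ℝ} (hδ : 0 ≤ δ) {j J : ℕ} (hj : j ≤ J)
    (hJ : be y J < 144) (hzj : (z:ℝ) ≤ be y j) :
    VB δ z y j J ≤ Real.log (Real.log (be y j) / Real.log z) + Cm := by
  have h1 : VB δ z y j J ≤ ∑ p ∈ (Icc z ⌊be y j⌋₊).filter Nat.Prime, 1 / (p:ℝ) := by
    unfold VB
    rw [sum_low hz hy _ hj hJ]
    refine sum_le_sum fun p hp => wd_le hδ ?_
    exact ((mem_filter.1 hp).2).one_lt.le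
  have h2 := (abs_le.1 (hM z (be y j) (by omega) hzj)).2
  have h3 : Cm / Real.log z ≤ Cm := div_le_self hCm.le hL
  linarith

lemma VB_add (δ : ℝ) (z : ℕ) (y : ℝ) {j J : ℕ} (hj : j ≤ J) :
    VB δ z y 0 J = VB δ z y 0 j + VB δ z y j J := by
  unfold VB
  rw [sum_Ico_consecutive _ (Nat.zero_le j) hj]

/-- the mean square of the product -/
lemma nn_two {c CN : ℝ} (hN : ∀ (z J Rs : ℕ) (y : ℝ), 144 ≤ z → 1 ≤ y → 1 ≤ Rs →
      (∀ i < J, ∑ p ∈ IB z y i, 1 / (p:ℝ) ≤ c) → ∀ δ : ℝ, 0 ≤ δ → ∀ a b : ℕ → ℝ,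
      (∀ i, 0 ≤ a i ∧ a i ≤ 2) → (∀ i, 0 ≤ b i ∧ b i ≤ 2) → ∀ h : ℝ,
      nn δ (BP a z y 0 J Rs * sf h (BP b z y 0 J Rs)) ≤
        Real.exp ((∑ i ∈ range J, ∑ p ∈ IB z y i,
          (a i ^ 2 + b i ^ 2 + 2 * a i * b i * Real.cos (h * Real.log p)) * wd δ p) +
          CN * Real.exp (-(2 * (Rs:ℝ)))))
    {z J Rs : ℕ} {yy : ℝ} (hz : 144 ≤ z) (hyy : 1 ≤ yy) (hR : 1 ≤ Rs)
    (hc : ∀ i < J, ∑ p ∈ IB z yy i, 1 / (p:ℝ) ≤ c) {δ : ℝ} (hδ : 0 ≤ δ) {α : ℝ} (hα0 : 0 ≤ α) (hα1 : α ≤ 1)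
    {j : ℕ} (hj : j ≤ J) (x y : ℝ)
    (hne : ∀ n ∈ (BP (fun _ => α) z yy 0 J Rs).coeff.support, n ≠ 0) :
    nn δ (sf x (BP (ca α j) z yy 0 J Rs) * sf y (BP (fun _ => α) z yy 0 J Rs)) ≤
      Real.exp (2 * α ^ 2 * VB δ z yy 0 j + α ^ 2 * VB δ z yy j J +
        2 * α ^ 2 * (∑ i ∈ Ico 0 j, ∑ p ∈ IB z yy i, Real.cos (|y - x| * Real.log p) * wd δ p) +
        CN * Real.exp (-(2 * (Rs:ℝ)))) := by
  rw [nn_shift δ x y _ hne]
  refine (hN z J Rs yy hz hyy hR hc δ hδ (ca α j) (fun _ => α) (fun i => ca_bd hα0 (by linarith) j i)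
    (fun _ => ⟨hα0, by linarith⟩) (y - x)).trans ?_
  refine Real.exp_le_exp.2 (add_le_add_left (le_of_eq ?_) _)
  have hcos : ∀ p : ℕ, Real.cos ((y - x) * Real.log p) = Real.cos (|y - x| * Real.log p) := by
    intro p
    rcases abs_choice (y - x) with h | h
    · rw [h]
    · rw [h, neg_mul, Real.cos_neg]
  rw [range_eq_Ico, ← sum_Ico_consecutive _ (Nat.zero_le j) hj]
  have h1 : ∑ i ∈ Ico 0 j, ∑ p ∈ IB z yy i,
      (ca α j i ^ 2 + α ^ 2 + 2 * ca α j i * α * Real.cos ((y - x) * Real.log p)) * wd δ p =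
      2 * α ^ 2 * VB δ z yy 0 j +
        2 * α ^ 2 * (∑ i ∈ Ico 0 j, ∑ p ∈ IB z yy i, Real.cos (|y - x| * Real.log p) * wd δ p) := by
    unfold VB
    rw [mul_sum, mul_sum, ← sum_add_distrib]
    refine sum_congr rfl fun i hi => ?_
    rw [mul_sum, mul_sum, ← sum_add_distrib]
    refine sum_congr rfl fun p _ => ?_
    have : ca α j i = α := if_pos (mem_Ico.1 hi).2
    rw [this, hcos]
    ring
  have h2 : ∑ i ∈ Ico j J, ∑ p ∈ IB z yy i,
      (ca α j i ^ 2 + α ^ 2 + 2 * ca α j i * α * Real.cos ((y - x) * Real.log p)) * wd δ p =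
      α ^ 2 * VB δ z yy j J := by
    unfold VB
    rw [mul_sum]
    refine sum_congr rfl fun i hi => ?_
    rw [mul_sum]
    refine sum_congr rfl fun p _ => ?_
    have : ca α j i = 0 := if_neg (not_lt.2 (mem_Ico.1 hi).1)
    rw [this]
    ring
  rw [h1, h2]
  ring

/-! ### the integral -/

lemma ev_Xl : ∀ᶠ X : ℝ in atTop, Xl X ≤ X := by
  filter_upwards [eventually_ge_atTop (256:ℝ)] with X hX
  unfold Xl
  have h1 : (4:ℝ) ≤ X ^ ((1:ℝ) / 4) := by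
    have h2 : (4:ℝ) = (256:ℝ) ^ ((1:ℝ) / 4) := by
      rw [show (256:ℝ) = 4 ^ (4:ℝ) by norm_num, ← Real.rpow_mul (by norm_num)]
      norm_num
    calc (4:ℝ) = (256:ℝ) ^ ((1:ℝ) / 4) := h2
      _ ≤ X ^ ((1:ℝ) / 4) := Real.rpow_le_rpow (by norm_num) hX (by norm_num)
  have h3 : 2 * (X + 1) ≤ X ^ ((5:ℝ) / 4) := by
    have h4 : X ^ ((5:ℝ) / 4) = X ^ ((1:ℝ) / 4) * X := by
      rw [show (5:ℝ) / 4 = 1 / 4 + 1 by norm_num, Real.rpow_add (by linarith), Real.rpow_one]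
    rw [h4]
    nlinarith
  calc (2 * (X + 1)) ^ ((4:ℝ) / 5) ≤ (X ^ ((5:ℝ) / 4)) ^ ((4:ℝ) / 5) :=
        Real.rpow_le_rpow (by linarith) h3 (by norm_num)
    _ = X := by
        rw [← Real.rpow_mul (by linarith)]
        norm_num

lemma ev_len : ∀ᶠ X : ℝ in atTop, (2 * (X + 1)) ^ ((1:ℝ) / 50) ≤ X ^ ((1:ℝ) / 8) := by
  filter_upwards [eventually_ge_atTop (4:ℝ)] with X hX
  have h3 : 2 * (X + 1) ≤ X ^ (2:ℝ) := by
    rw [Real.rpow_two]
    nlinarith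
  calc (2 * (X + 1)) ^ ((1:ℝ) / 50) ≤ (X ^ (2:ℝ)) ^ ((1:ℝ) / 50) :=
        Real.rpow_le_rpow (by linarith) h3 (by norm_num)
    _ = X ^ ((1:ℝ) / 25) := by
        rw [← Real.rpow_mul (by linarith)]
        norm_num
    _ ≤ X ^ ((1:ℝ) / 8) := Real.rpow_le_rpow_of_exponent_le (by linarith) (by norm_num)

lemma ev_log (B : ℝ) (hB : 0 < B) : ∀ᶠ X : ℝ in atTop, B * Real.log X ^ 2 ≤ X ^ ((1:ℝ) / 10) := by
  have h1 := isLittleO_log_rpow_rpow_atTop (2:ℝ) (show (0:ℝ) < 1 / 10 by norm_num)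
  have h2 := h1.def (show (0:ℝ) < 1 / B by positivity)
  filter_upwards [h2, eventually_ge_atTop (1:ℝ)] with X hX hX1
  rw [Real.rpow_two, Real.norm_of_nonneg (sq_nonneg _), Real.norm_of_nonneg (by positivity)] at hX
  calc B * Real.log X ^ 2 ≤ B * (1 / B * X ^ ((1:ℝ) / 10)) := mul_le_mul_of_nonneg_left hX hB.le
    _ = X ^ ((1:ℝ) / 10) := by field_simp

lemma core (hEQ : S_EQ) (z : ℕ) (K : Type) [TopologicalSpace K] [CompactSpace K]
    (F : K × UnitAddTorus (Sm z) → ℝ) (hF : Continuous F) (hF0 : ∀ q, 0 ≤ F q) (η : ℝ) (hη : 0 < η) :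
    ∀ᶠ X : ℝ in atTop, ∀ δ : ℝ, 0 ≤ δ → ∀ k : K, ∀ D : PC,
      Cop (Sm z) ((2 * (X + 1)) ^ ((1:ℝ) / 50)) D →
      lc1 D ≤ (2 * (X + 1)) ^ ((1:ℝ) / 50) → ∀ G ρ : ℝ, 0 ≤ G → G ≤ X ^ ((1:ℝ) / 10) → G * nn δ D ≤ ρ → 1 ≤ ρ →
      ∀ Φ : ℝ → ℝ, (∀ t, 0 ≤ Φ t) →
      (∀ t, Φ t ≤ F (k, pt (Sm z) t) * (G * ‖ec (1 / 2 + δ + t * I) D‖ ^ 2)) →
      ∫ t in Xl X..X, Φ t ≤ X * (((∫ w, F (k, w) ∂(HP (Sm z))) + η) * ρ) := by
  filter_upwards [hEQ (Sm z) (fun p hp => (mem_filter.1 hp).2) K F hF (η / 2) (by positivity), ev_Xl, ev_len,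
    eventually_ge_atTop (1:ℝ)] with X hX h1 h2 h3 δ hδ k D hD hl G ρ hG hG' hρ hρ1 Φ hΦ0 hΦ
  have hXl : 0 ≤ Xl X := by unfold Xl; positivity
  have h4 := (abs_le.1 (hX (Xl X) hXl h1 k δ hδ D (Cop_mono h2 hD) (hl.trans h2))).2
  have hne : ∀ n ∈ D.coeff.support, n ≠ 0 := fun n hn => (hD n hn).1
  have hcF : Continuous fun t : ℝ => F (k, pt (Sm z) t) :=
    hF.comp (Continuous.prodMk continuous_const (EQ.pt_cont (Sm z)))
  have hcont : Continuous fun t : ℝ => F (k, pt (Sm z) t) * (G * ‖ec (1 / 2 + δ + t * I) D‖ ^ 2) :=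
    hcF.mul (continuous_const.mul ((EQ.ec_cont hne δ).norm.pow 2))
  have h5 : ∫ t in Xl X..X, Φ t ≤ ∫ t in Xl X..X, F (k, pt (Sm z) t) * (G * ‖ec (1 / 2 + δ + t * I) D‖ ^ 2) := by
    rw [intervalIntegral.integral_of_le h1, intervalIntegral.integral_of_le h1]
    refine integral_mono_of_nonneg (Eventually.of_forall hΦ0) ?_ (Eventually.of_forall hΦ)
    exact hcont.integrableOn_Ioc
  have h6 : ∫ t in Xl X..X, F (k, pt (Sm z) t) * (G * ‖ec (1 / 2 + δ + t * I) D‖ ^ 2) =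
      G * ∫ t in Xl X..X, F (k, pt (Sm z) t) * ‖ec (1 / 2 + δ + t * I) D‖ ^ 2 := by
    rw [← intervalIntegral.integral_const_mul]
    congr 1
    ext t
    ring
  have hI0 : 0 ≤ ∫ w, F (k, w) ∂(HP (Sm z)) := integral_nonneg fun w => hF0 _
  set IF : ℝ := ∫ w, F (k, w) ∂(HP (Sm z)) with hIF
  have hnn : 0 ≤ nn δ D := MV.nn_nonneg δ D
  have h7 : ∫ t in Xl X..X, F (k, pt (Sm z) t) * ‖ec (1 / 2 + δ + t * I) D‖ ^ 2 ≤
      X * IF * nn δ D + η / 2 * (X * nn δ D + X ^ ((9:ℝ) / 10)) := by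
    have : 0 ≤ Xl X * IF * nn δ D := by positivity
    linarith
  have h8 : G * X ^ ((9:ℝ) / 10) ≤ X := by
    calc G * X ^ ((9:ℝ) / 10) ≤ X ^ ((1:ℝ) / 10) * X ^ ((9:ℝ) / 10) :=
          mul_le_mul_of_nonneg_right hG' (by positivity)
      _ = X := by
          rw [← Real.rpow_add (by linarith)]
          norm_num
  calc ∫ t in Xl X..X, Φ t ≤ G * (X * IF * nn δ D + η / 2 * (X * nn δ D + X ^ ((9:ℝ) / 10))) := by
        rw [h6] at h5
        exact h5.trans (mul_le_mul_of_nonneg_left h7 hG)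
    _ = X * (IF + η / 2) * (G * nn δ D) + η / 2 * (G * X ^ ((9:ℝ) / 10)) := by ring
    _ ≤ X * (IF + η / 2) * ρ + η / 2 * (X * ρ) := by
        refine add_le_add (mul_le_mul_of_nonneg_left hρ (by positivity)) ?_
        refine mul_le_mul_of_nonneg_left (h8.trans ?_) (by positivity)
        exact le_mul_of_one_le_right (by linarith) hρ1
    _ = X * ((IF + η) * ρ) := by ring

/-! ### the pointwise bound -/

lemma WB_nonneg (α : ℝ) (z Rs : ℕ) (yf : ℝ → ℝ) (Jf : ℝ → ℕ) (X δ u : ℝ) : 0 ≤ WB α z Rs yf Jf X δ u := by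
  unfold WB; positivity

lemma gB_nonneg (α A ε1 : ℝ) (z Rs : ℕ) (yf : ℝ → ℝ) (Jf : ℝ → ℕ) (X δ u : ℝ) :
    0 ≤ gB α A ε1 z Rs yf Jf X δ u := by
  unfold gB; split_ifs <;> norm_num

lemma gB_le (α A ε1 : ℝ) (z Rs : ℕ) (yf : ℝ → ℝ) (Jf : ℝ → ℕ) (X δ u : ℝ) :
    gB α A ε1 z Rs yf Jf X δ u ≤ 1 := by
  unfold gB; split_ifs <;> norm_num

lemma alg (a b B : ℝ) {E : ℝ} (hE : 0 < E) : a * B / E * (b / E) = B * (E⁻¹ * E⁻¹) * (a * b) := by
  field_simp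

lemma pw {α A ε1 : ℝ} {z Rs : ℕ} {yf : ℝ → ℝ} {Jf : ℝ → ℕ} {X δ t x y Fv : ℝ} (hF : 0 ≤ Fv) {j : ℕ}
    (hj : j ≤ Jf X) (hne : ∀ n ∈ (BP (fun _ => α) z (yf X) 0 (Jf X) Rs).coeff.support, n ≠ 0)
    (hne' : ∀ n ∈ (BP (ca α j) z (yf X) 0 (Jf X) Rs).coeff.support, n ≠ 0) {B : ℝ} (hB : 0 ≤ B)
    (hbar : Gd α A ε1 z Rs yf Jf X δ (t + x) →
      ‖ec (1 / 2 + δ + ((t + x : ℝ) : ℂ) * I) (BP (fun _ => α) z (yf X) j (Jf X) Rs)‖ ^ 2 ≤ B) :
    Fv * ((WB α z Rs yf Jf X δ (t + x) * gB α A ε1 z Rs yf Jf X δ (t + x)) *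
       (WB α z Rs yf Jf X δ (t + y) * gB α A ε1 z Rs yf Jf X δ (t + y))) ≤
    Fv * (B * Real.exp (-(2 * α ^ 2 * VB δ z (yf X) 0 (Jf X))) *
      ‖ec (1 / 2 + δ + t * I) (sf x (BP (ca α j) z (yf X) 0 (Jf X) Rs) *
        sf y (BP (fun _ => α) z (yf X) 0 (Jf X) Rs))‖ ^ 2) := by
  refine mul_le_mul_of_nonneg_left ?_ hF
  set V := VB δ z (yf X) 0 (Jf X) with hV
  have hx : (1 / 2 + (δ : ℂ) + ((t + x : ℝ) : ℂ) * I) = 1 / 2 + δ + t * I + x * I := by push_cast; ring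
  have hy : (1 / 2 + (δ : ℂ) + ((t + y : ℝ) : ℂ) * I) = 1 / 2 + δ + t * I + y * I := by push_cast; ring
  have h1 : WB α z Rs yf Jf X δ (t + x) * gB α A ε1 z Rs yf Jf X δ (t + x) ≤
      ‖ec (1 / 2 + δ + t * I) (sf x (BP (ca α j) z (yf X) 0 (Jf X) Rs))‖ ^ 2 * B / Real.exp (α ^ 2 * V) := by
    by_cases hg : Gd α A ε1 z Rs yf Jf X δ (t + x)
    · have h2 : gB α A ε1 z Rs yf Jf X δ (t + x) = 1 := by unfold gB; rw [if_pos hg]
      rw [h2, mul_one]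
      unfold WB
      rw [BP_split α z (yf X) hj Rs, map_mul, norm_mul, mul_pow, MV.ec_sf _ _ hne', ← hx]
      refine div_le_div_of_nonneg_right ?_ (Real.exp_pos _).le
      exact mul_le_mul_of_nonneg_left (hbar hg) (by positivity)
    · have h2 : gB α A ε1 z Rs yf Jf X δ (t + x) = 0 := by unfold gB; rw [if_neg hg]
      rw [h2, mul_zero]
      positivity
  have h3 : WB α z Rs yf Jf X δ (t + y) * gB α A ε1 z Rs yf Jf X δ (t + y) ≤
      ‖ec (1 / 2 + δ + t * I) (sf y (BP (fun _ => α) z (yf X) 0 (Jf X) Rs))‖ ^ 2 / Real.exp (α ^ 2 * V) := by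
    refine (mul_le_of_le_one_right (WB_nonneg _ _ _ _ _ _ _ _) (gB_le _ _ _ _ _ _ _ _ _ _)).trans ?_
    unfold WB
    rw [MV.ec_sf _ _ hne, ← hy]
  refine (mul_le_mul h1 h3 (mul_nonneg (WB_nonneg _ _ _ _ _ _ _ _) (gB_nonneg _ _ _ _ _ _ _ _ _ _))
    (div_nonneg (mul_nonneg (sq_nonneg _) hB) (Real.exp_pos _).le)).trans (le_of_eq ?_)
  rw [map_mul, norm_mul, mul_pow, show -(2 * α ^ 2 * V) = -(α ^ 2 * V) + -(α ^ 2 * V) by ring, Real.exp_add,
    Real.exp_neg]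
  exact alg _ _ _ (Real.exp_pos _)

lemma two_mul_le' {α S b : ℝ} (hα1 : α ^ 2 ≤ 1) (hS : S ≤ b) (hb : 0 ≤ b) : 2 * α ^ 2 * S ≤ 2 * b := by
  have h0 : 0 ≤ α ^ 2 := sq_nonneg α
  nlinarith [mul_le_mul_of_nonneg_left hS h0, mul_le_mul_of_nonneg_right hα1 hb]

/-- choice of the barrier -/
lemma exists_j {z : ℕ} (hz : 144 ≤ z) (hL : 1 ≤ Real.log z) {y U : ℝ} (hy : 1 ≤ y) (hzy : (z:ℝ) ≤ y) {J : ℕ}
    (hJ : be y J < 144) (hU : 16 * Real.log z ≤ U) :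
    ∃ j < J, (z:ℝ) ≤ be y j ∧ Real.log (be y j) ≤ U ∧ (0 < j → U / 4 ≤ Real.log (be y j)) := by
  classical
  have hz0 : (144:ℝ) ≤ z := by exact_mod_cast hz
  have hex : ∃ j, Real.log (be y j) ≤ U := by
    refine ⟨J, ?_⟩
    have h1 : Real.log (be y J) ≤ Real.log z := Real.log_le_log (be_pos y J) (by linarith)
    linarith
  set j := Nat.find hex with hj
  have h1 : Real.log (be y j) ≤ U := Nat.find_spec hex
  have h2 : 0 < j → U / 4 ≤ Real.log (be y j) := by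
    intro h0
    have h3 := Nat.find_min hex (m := j - 1) (by omega)
    rw [not_le] at h3
    have h4 : Real.log (be y j) = Real.log (be y (j - 1)) / 4 := by
      rw [log_be, log_be]
      conv_lhs => rw [show j = (j - 1) + 1 by omega, pow_succ]
      ring
    rw [h4]
    linarith
  have h5 : (z:ℝ) ≤ be y j := by
    rcases Nat.eq_zero_or_pos j with h0 | h0
    · rw [h0, be_zero hy]; exact hzy
    · have h6 := h2 h0
      have h7 : Real.log z ≤ Real.log (be y j) := by linarith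
      exact (Real.log_le_log_iff (by linarith) (be_pos y j)).1 h7
  refine ⟨j, ?_, h5, h1, h2⟩
  by_contra h6
  have h7 := be_anti hy (not_lt.1 h6)
  linarith

/-- the cosine sum over the high blocks -/
lemma cos_high {Cc Ct : ℝ} (hCc : 0 < Cc) (hCt : 0 < Ct)
    (hC : ∀ (z : ℕ) (δ y h : ℝ), 2 ≤ z → 0 ≤ δ → (z:ℝ) ≤ y → 0 < h → h ≤ 1 →
      (1 ≤ h * Real.log z →
        ∑ p ∈ (Icc z ⌊y⌋₊).filter Nat.Prime, Real.cos (h * Real.log p) * wd δ p ≤ Cc / (h * Real.log z)) ∧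
      (h * Real.log z ≤ 1 →
        ∑ p ∈ (Icc z ⌊y⌋₊).filter Nat.Prime, Real.cos (h * Real.log p) * wd δ p ≤
          Real.log (1 / (h * Real.log z)) + Cc))
    (hT : ∀ (z : ℕ) (δ y : ℝ), 2 ≤ z → 0 < δ → 1 / 4 ≤ δ * Real.log z →
      ∑ p ∈ (Icc z ⌊y⌋₊).filter Nat.Prime, wd δ p ≤ Ct)
    {z : ℕ} (hz : 144 ≤ z) {y h δ : ℝ} (hy : 1 ≤ y) (hh : 0 < h) (hh1 : h ≤ 1) (hδ : 0 < δ) {j : ℕ}
    (hzj : (z:ℝ) ≤ be y j) (hU : 0 < j → min (1 / h) (1 / δ) / 4 ≤ Real.log (be y j)) :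
    ∑ i ∈ Ico 0 j, ∑ p ∈ IB z y i, Real.cos (h * Real.log p) * wd δ p ≤ Cc + Ct + Real.log 4 := by
  have hl4 : 0 < Real.log 4 := Real.log_pos (by norm_num)
  rcases Nat.eq_zero_or_pos j with h0 | h0
  · rw [h0, Ico_self, sum_empty]; positivity
  · rw [sum_high hz hy _ hzj]
    have hz0 : (144:ℝ) ≤ z := by exact_mod_cast hz
    set n := ⌊be y j⌋₊ + 1 with hn
    have hbn : be y j ≤ (n:ℝ) := by
      rw [hn]; push_cast
      exact (Nat.lt_floor_add_one _).le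
    have hn2 : 2 ≤ n := by
      have : (2:ℝ) ≤ n := by linarith
      exact_mod_cast this
    have hlog : Real.log (be y j) ≤ Real.log n := Real.log_le_log (be_pos y j) hbn
    have hlog0 : min (1 / h) (1 / δ) / 4 ≤ Real.log n := (hU h0).trans hlog
    rcases le_total (1 / h) (1 / δ) with hc | hc
    · rw [min_eq_left hc] at hlog0
      have h1 : 1 / 4 ≤ h * Real.log n := by
        have := mul_le_mul_of_nonneg_left hlog0 hh.le
        have h2 : h * (1 / h / 4) = 1 / 4 := by field_simp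
        linarith
      rcases le_or_gt (n:ℝ) y with hny | hny
      · obtain ⟨hC1, hC2⟩ := hC n δ y h hn2 hδ.le hny hh hh1
        rcases le_total 1 (h * Real.log n) with h3 | h3
        · refine (hC1 h3).trans ?_
          have : Cc / (h * Real.log n) ≤ Cc := div_le_self hCc.le h3
          linarith
        · refine (hC2 h3).trans ?_
          have h4 : Real.log (1 / (h * Real.log n)) ≤ Real.log 4 := by
            refine Real.log_le_log (by positivity) ?_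
            rw [div_le_iff₀ (by linarith)]
            linarith
          linarith
      · have h5 : ⌊y⌋₊ < n := (Nat.floor_lt (by linarith)).2 hny
        rw [Finset.Icc_eq_empty (by omega), filter_empty, sum_empty]
        positivity
    · rw [min_eq_right hc] at hlog0
      have h1 : 1 / 4 ≤ δ * Real.log n := by
        have := mul_le_mul_of_nonneg_left hlog0 hδ.le
        have h2 : δ * (1 / δ / 4) = 1 / 4 := by field_simp
        linarith
      have h2 : ∑ p ∈ (Icc n ⌊y⌋₊).filter Nat.Prime, Real.cos (h * Real.log p) * wd δ p ≤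
          ∑ p ∈ (Icc n ⌊y⌋₊).filter Nat.Prime, wd δ p :=
        sum_le_sum fun p _ => mul_le_of_le_one_left (MV.wd_nonneg δ p) (Real.cos_le_one _)
      have h3 := hT n δ y hn2 hδ h1
      linarith

lemma ev_z {Cc κ b : ℝ} (hκ : 0 < κ) (hb : 0 < b) : ∃ z0 : ℕ, ∀ z ≥ z0, 2 * Cc * (Real.log (z:ℕ)) ^ (-κ) ≤ b := by
  have h1 : Tendsto (fun z : ℕ => 2 * Cc * (Real.log z) ^ (-κ)) atTop (𝓝 (2 * Cc * 0)) :=
    ((tendsto_rpow_neg_atTop hκ).comp (Real.tendsto_log_atTop.comp tendsto_natCast_atTop_atTop)).const_mul _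
  rw [mul_zero] at h1
  obtain ⟨z0, hz0⟩ := eventually_atTop.1 (h1.eventually (gt_mem_nhds hb))
  exact ⟨z0, fun z hz => (hz0 z hz).le⟩

lemma ev_R {CN b : ℝ} (hb : 0 < b) : ∃ R0 : ℕ, ∀ R ≥ R0, CN * Real.exp (-(2 * ((R:ℕ):ℝ))) ≤ b := by
  have h0 : Tendsto (fun R : ℕ => 2 * (R:ℝ)) atTop atTop :=
    (tendsto_natCast_atTop_atTop (R := ℝ)).const_mul_atTop (by norm_num)
  have h1 : Tendsto (fun R : ℕ => CN * Real.exp (-(2 * (R:ℝ)))) atTop (𝓝 (CN * 0)) :=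
    ((Real.tendsto_exp_neg_atTop_nhds_zero).comp h0).const_mul _
  rw [mul_zero] at h1
  obtain ⟨R0, hR0⟩ := eventually_atTop.1 (h1.eventually (gt_mem_nhds hb))
  exact ⟨R0, fun R hR => (hR0 R hR).le⟩

theorem main (hN : S_NNB) (hLEN : S_LEN) (hC : S_COS) (hM : S_MER) (hT : S_TAIL) : S_TWO := by
  have hEQ : S_EQ := EQ.main MV.main
  intro α hα0 hα1 ε1 hε1 hαε κ hκ0 hκ1 c hc A hA
  obtain ⟨CN, hCN, hN⟩ := hN c hc
  obtain ⟨Cc, hCc, hC⟩ := hC
  obtain ⟨Cm, hCm, hM⟩ := hM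
  obtain ⟨Ct, hCt, hT⟩ := hT
  have hl16 : 0 < Real.log 16 := Real.log_pos (by norm_num)
  have hl4 : 0 < Real.log 4 := Real.log_pos (by norm_num)
  have hl416 : Real.log 4 ≤ Real.log 16 := Real.log_le_log (by norm_num) (by norm_num)
  set C : ℝ := A * Real.exp (Cm + 2 * Cc + 2 * Ct + 2 * Real.log 16 + CN) with hCdef
  have hC0 : 0 < C := by positivity
  refine ⟨C, hC0.le, ?_⟩
  intro e he
  have hle : 0 < Real.log (1 + e) := Real.log_pos (by linarith)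
  obtain ⟨z0, hz0⟩ := ev_z (Cc := Cc) hκ0 (half_pos hle)
  obtain ⟨R0, hR0⟩ := ev_R (CN := CN) (half_pos hle)
  refine ⟨z0, R0, ?_⟩
  intro z hz Rs hRs yf Jf hSB
  have hz1000 : (1000:ℝ) ≤ z := by exact_mod_cast hSB.zz
  have hz144 : 144 ≤ z := le_trans (by norm_num) hSB.zz
  have hR1 := hSB.R1
  have hL1 : 1 < Real.log z := by
    rw [Real.lt_log_iff_exp_lt (by linarith)]
    linarith [Real.exp_one_lt_d9]
  set L : ℝ := Real.log z with hL
  have hL0 : 0 < L := by linarith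
  have hα2 : α ^ 2 ≤ 1 := by nlinarith
  have hζ0 : 0 < α ^ 2 + ε1 := by positivity
  have hCNR : CN * Real.exp (-(2 * (Rs:ℝ))) ≤ CN := by
    refine mul_le_of_le_one_right hCN (Real.exp_le_one_iff.2 ?_)
    have : (0:ℝ) ≤ Rs := Nat.cast_nonneg _
    linarith
  refine ⟨1 / (16 * L), by positivity, ?_⟩
  intro lam δ0 hlam hδ0 K _ _ F hF hF0 η hη
  filter_upwards [core hEQ z K F hF hF0 η hη, hSB.ev, ev_log (A * Real.exp (2 * Cm)) (by positivity),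
    eventually_ge_atTop (3:ℝ)] with X hcore hev hX2 hX3 δ hδl hδu k x y hx0 hx1 hy0 hy1 hxy
  obtain ⟨hzy, hJ, hblk, hlen⟩ := hev
  have hlX : 1 < Real.log X := by
    rw [Real.lt_log_iff_exp_lt (by linarith)]
    linarith [Real.exp_one_lt_d9]
  have hδ : 0 < δ := lt_of_lt_of_le (by positivity) hδl
  have hδX : 1 / δ ≤ Real.log X := by
    rw [div_le_iff₀ hδ]
    rw [div_le_iff₀ (by linarith)] at hδl
    linarith
  have hδ16 : 16 * L ≤ 1 / δ := by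
    have h1 : δ ≤ 1 / (16 * L) := hδu.trans hδ0
    rw [le_div_iff₀ (by positivity)] at h1
    rw [le_div_iff₀ hδ]
    linarith
  have hyy : 1 ≤ yf X := by linarith
  have hX10 : 1 ≤ X ^ ((1:ℝ) / 10) := Real.one_le_rpow (by linarith) (by norm_num)
  have hNN : 0 ≤ Real.exp (Real.log (yf X) * (90 * ((Rs:ℝ) + 1))) := (Real.exp_pos _).le
  have hNM : Real.exp (Real.log (yf X) * (90 * ((Rs:ℝ) + 1))) * Real.exp (Real.log (yf X) * (90 * ((Rs:ℝ) + 1))) ≤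
      (2 * (X + 1)) ^ ((1:ℝ) / 50) := by
    rw [← Real.exp_add]
    refine le_trans (le_of_eq ?_) hlen
    congr 1
    ring
  have hLE := (hLEN z (Jf X) Rs (yf X) hz144 hyy hR1 (fun i hi => (hblk i hi).1)).1
  have hbα := hLE (fun _ => α) (fun _ => ⟨hα0.le, by linarith⟩) 0 (Nat.zero_le _)
  have hneα : ∀ n ∈ (BP (fun _ => α) z (yf X) 0 (Jf X) Rs).coeff.support, n ≠ 0 := fun n hn => (hbα.1 n hn).1
  have hca := fun j => hLE (ca α j) (ca_bd hα0.le (by linarith) j) 0 (Nat.zero_le _)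
  have hneca : ∀ j, ∀ n ∈ (BP (ca α j) z (yf X) 0 (Jf X) Rs).coeff.support, n ≠ 0 :=
    fun j n hn => ((hca j).1 n hn).1
  have hh0 : 0 < |y - x| := abs_pos.2 (sub_ne_zero.2 (Ne.symm hxy))
  have hh1 : |y - x| ≤ 1 := abs_le.2 ⟨by linarith, by linarith⟩
  have hKz : Kz C (α ^ 2 + ε1) κ e z (x - y) = if |y - x| * L ≤ 1 then C * (|y - x| * L) ^ (-(α ^ 2 + ε1))
      else if |y - x| * L ≤ L ^ κ then C else e := by
    unfold Kz
    rw [abs_sub_comm x y]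
  have hKz0 : 0 ≤ Kz C (α ^ 2 + ε1) κ e z (x - y) := by
    rw [hKz]
    split_ifs <;> positivity
  -- the frame
  have fin : ∀ j ≤ Jf X, ∀ B : ℝ, 0 ≤ B → (∀ t : ℝ, Gd α A ε1 z Rs yf Jf X δ (t + x) →
      ‖ec (1 / 2 + δ + ((t + x : ℝ) : ℂ) * I) (BP (fun _ => α) z (yf X) j (Jf X) Rs)‖ ^ 2 ≤ B) →
      B ≤ X ^ ((1:ℝ) / 10) →
      B * Real.exp (-(α ^ 2 * VB δ z (yf X) j (Jf X)) +
        2 * α ^ 2 * (∑ i ∈ Ico 0 j, ∑ p ∈ IB z (yf X) i, Real.cos (|y - x| * Real.log p) * wd δ p) +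
        CN * Real.exp (-(2 * (Rs:ℝ)))) ≤ 1 + Kz C (α ^ 2 + ε1) κ e z (x - y) →
      ∫ t in Xl X..X, F (k, pt (Sm z) t) *
      ((WB α z Rs yf Jf X δ (t + x) * gB α A ε1 z Rs yf Jf X δ (t + x)) *
       (WB α z Rs yf Jf X δ (t + y) * gB α A ε1 z Rs yf Jf X δ (t + y))) ≤
      X * (((∫ w, F (k, w) ∂(HP (Sm z))) + η) * (1 + Kz C (α ^ 2 + ε1) κ e z (x - y))) := by
    intro j hj B hB hbar hBX hρ
    have hV0 := VB_nonneg δ z (yf X) 0 (Jf X)
    have hcl := len_mul hNN hNM (hca j) hbα x y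
    refine hcore δ hδ.le k _ hcl.1 hcl.2 (B * Real.exp (-(2 * α ^ 2 * VB δ z (yf X) 0 (Jf X))))
      (1 + Kz C (α ^ 2 + ε1) κ e z (x - y)) (by positivity) ?_ ?_ (by linarith) _ ?_ ?_
    · refine (mul_le_of_le_one_right hB (Real.exp_le_one_iff.2 ?_)).trans hBX
      have : 0 ≤ 2 * α ^ 2 * VB δ z (yf X) 0 (Jf X) := by positivity
      linarith
    · refine le_trans ?_ hρ
      have h1 := nn_two hN hz144 hyy hR1 (fun i hi => (hblk i hi).2) hδ.le hα0.le hα1.le hj x y hneα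
      rw [mul_assoc]
      refine mul_le_mul_of_nonneg_left ?_ hB
      refine (mul_le_mul_of_nonneg_left h1 (Real.exp_pos _).le).trans (le_of_eq ?_)
      rw [← Real.exp_add, VB_add δ z (yf X) hj]
      congr 1
      ring
    · intro t
      exact mul_nonneg (hF0 _) (mul_nonneg (mul_nonneg (WB_nonneg _ _ _ _ _ _ _ _) (gB_nonneg _ _ _ _ _ _ _ _ _ _))
        (mul_nonneg (WB_nonneg _ _ _ _ _ _ _ _) (gB_nonneg _ _ _ _ _ _ _ _ _ _)))
    · intro t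
      exact pw (hF0 _) hj hneα (hneca j) hB (hbar t)
  by_cases hcase : 1 / 16 ≤ |y - x| * L
  · -- without barrier
    have hBJ : BP (fun _ => α) z (yf X) (Jf X) (Jf X) Rs = 1 := by
      unfold BP; rw [Ico_self, prod_empty]
    have hVJ : VB δ z (yf X) (Jf X) (Jf X) = 0 := by
      unfold VB; rw [Ico_self, sum_empty]
    refine fin (Jf X) le_rfl 1 zero_le_one ?_ hX10 ?_
    · intro t _
      rw [hBJ, map_one, norm_one, one_pow]
    · rw [hVJ, mul_zero, neg_zero, zero_add, one_mul,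
        sum_low hz144 hyy (fun p => Real.cos (|y - x| * Real.log p) * wd δ p) (Nat.zero_le _) hJ, be_zero hyy]
      obtain ⟨hC1, hC2⟩ := hC z δ (yf X) |y - x| (by omega) hδ.le hzy hh0 hh1
      rw [← hL] at hC1 hC2
      rw [hKz]
      split_ifs with h1 h2
      · have h3 := hC2 h1
        have h4 : Real.log (1 / (|y - x| * L)) ≤ Real.log 16 := by
          refine Real.log_le_log (by positivity) ?_
          rw [div_le_iff₀ (by positivity)]
          linarith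
        have h5 := two_mul_le' hα2 (h3.trans (add_le_add_left h4 Cc)) (by positivity)
        have h6 : C ≤ C * (|y - x| * L) ^ (-(α ^ 2 + ε1)) :=
          le_mul_of_one_le_right hC0.le (Real.one_le_rpow_of_pos_of_le_one_of_nonpos (by positivity) h1 (by linarith))
        have h7 : Real.exp (2 * α ^ 2 * (∑ p ∈ (Icc z ⌊yf X⌋₊).filter Nat.Prime,
            Real.cos (|y - x| * Real.log p) * wd δ p) + CN * Real.exp (-(2 * (Rs:ℝ)))) ≤ C := by
          rw [hCdef]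
          refine le_trans (Real.exp_le_exp.2 ?_) (le_mul_of_one_le_left (Real.exp_pos _).le hA)
          linarith
        linarith
      · have h3 := (hC1 (not_le.1 h1).le).trans (div_le_self hCc.le (not_le.1 h1).le)
        have h5 := two_mul_le' hα2 h3 hCc.le
        have h7 : Real.exp (2 * α ^ 2 * (∑ p ∈ (Icc z ⌊yf X⌋₊).filter Nat.Prime,
            Real.cos (|y - x| * Real.log p) * wd δ p) + CN * Real.exp (-(2 * (Rs:ℝ)))) ≤ C := by
          rw [hCdef]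
          refine le_trans (Real.exp_le_exp.2 ?_) (le_mul_of_one_le_left (Real.exp_pos _).le hA)
          linarith
        linarith
      · have h3 : ∑ p ∈ (Icc z ⌊yf X⌋₊).filter Nat.Prime, Real.cos (|y - x| * Real.log p) * wd δ p ≤
            Cc * L ^ (-κ) := by
          refine (hC1 (not_le.1 h1).le).trans ?_
          rw [Real.rpow_neg hL0.le, ← div_eq_mul_inv]
          exact div_le_div_of_nonneg_left hCc.le (by positivity) (not_le.1 h2).le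
        have h5 := two_mul_le' hα2 h3 (by positivity)
        have h6 := hz0 z hz
        rw [← hL] at h6
        have h7 := hR0 Rs hRs
        calc Real.exp (2 * α ^ 2 * (∑ p ∈ (Icc z ⌊yf X⌋₊).filter Nat.Prime,
            Real.cos (|y - x| * Real.log p) * wd δ p) + CN * Real.exp (-(2 * (Rs:ℝ)))) ≤
            Real.exp (Real.log (1 + e)) := Real.exp_le_exp.2 (by linarith)
          _ = 1 + e := Real.exp_log (by linarith)
  · -- with the barrier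
    have hlt := not_le.1 hcase
    have hhL0 : 0 < |y - x| * L := by positivity
    have hU16 : 16 * L ≤ min (1 / |y - x|) (1 / δ) := by
      refine le_min ?_ hδ16
      rw [le_div_iff₀ hh0]
      linarith
    obtain ⟨j, hjJ, hzj, hjU, hjl⟩ := exists_j hz144 hL1.le hyy hzy hJ hU16
    have hcos := cos_high hCc hCt hC hT hz144 hyy hh0 hh1 hδ hzj hjl
    have hv := VB_le hCm hM hz144 hL1.le hyy hδ.le hjJ.le hJ hzj
    have hv0 := VB_nonneg δ z (yf X) j (Jf X)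
    rw [← hL] at hv
    set v := VB δ z (yf X) j (Jf X) with hvdef
    have hlzj : L ≤ Real.log (be (yf X) j) := Real.log_le_log (by linarith) hzj
    have hu1 : 1 ≤ Real.log (be (yf X) j) / L := by
      rw [le_div_iff₀ hL0]; linarith
    have hu2 : Real.log (be (yf X) j) / L ≤ Real.log X := by
      refine (div_le_self (by linarith) hL1.le).trans ?_
      exact hjU.trans ((min_le_right _ _).trans hδX)
    have hu3 : Real.log (be (yf X) j) / L ≤ 1 / (|y - x| * L) := by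
      rw [← div_div]
      exact div_le_div_of_nonneg_right (hjU.trans (min_le_left _ _)) hL0.le
    have hζ1 : 2 * α ^ 2 + ε1 ≤ 2 := by linarith
    refine fin j hjJ.le (A * Real.exp ((2 * α ^ 2 + ε1) * v)) (by positivity) ?_ ?_ ?_
    · intro t hg
      refine hg.2 j hjJ hzj ?_
      calc δ * Real.log (be (yf X) j) ≤ δ * (1 / δ) :=
            mul_le_mul_of_nonneg_left (hjU.trans (min_le_right _ _)) hδ.le
        _ = 1 := by field_simp
    · refine le_trans ?_ hX2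
      rw [mul_assoc]
      refine mul_le_mul_of_nonneg_left ?_ (by linarith)
      have h1 : (2 * α ^ 2 + ε1) * v ≤ 2 * Cm + 2 * Real.log (Real.log (be (yf X) j) / L) := by
        have := mul_le_mul_of_nonneg_right hζ1 hv0
        linarith
      refine (Real.exp_le_exp.2 h1).trans ?_
      rw [Real.exp_add]
      refine mul_le_mul_of_nonneg_left ?_ (Real.exp_pos _).le
      have h2 : Real.exp (2 * Real.log (Real.log (be (yf X) j) / L)) = (Real.log (be (yf X) j) / L) ^ 2 := by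
        rw [two_mul, Real.exp_add, Real.exp_log (by linarith), sq]
      rw [h2]
      exact pow_le_pow_left₀ (by linarith) hu2 2
    · rw [hKz, if_pos (by linarith), mul_assoc, ← Real.exp_add]
      have h1 : Real.log (Real.log (be (yf X) j) / L) ≤ Real.log (1 / (|y - x| * L)) :=
        Real.log_le_log (by linarith) hu3
      have h2 : (|y - x| * L) ^ (-(α ^ 2 + ε1)) = Real.exp ((α ^ 2 + ε1) * Real.log (1 / (|y - x| * L))) := by
        rw [Real.rpow_def_of_pos hhL0, one_div, Real.log_inv]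
        congr 1
        ring
      have h3 := two_mul_le' hα2 hcos (by positivity)
      have h4 : (α ^ 2 + ε1) * v ≤ (α ^ 2 + ε1) * Real.log (1 / (|y - x| * L)) + Cm := by
        have h5 := mul_le_mul_of_nonneg_left (hv.trans (add_le_add_left h1 Cm)) hζ0.le
        have h6 := mul_le_mul_of_nonneg_right hαε.le hCm.le
        linarith
      have h7 : A * Real.exp ((2 * α ^ 2 + ε1) * v + (-(α ^ 2 * v) +
          2 * α ^ 2 * (∑ i ∈ Ico 0 j, ∑ p ∈ IB z (yf X) i, Real.cos (|y - x| * Real.log p) * wd δ p) +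
          CN * Real.exp (-(2 * (Rs:ℝ))))) ≤ C * (|y - x| * L) ^ (-(α ^ 2 + ε1)) := by
        rw [h2, hCdef, mul_assoc A, ← Real.exp_add]
        refine mul_le_mul_of_nonneg_left (Real.exp_le_exp.2 ?_) (by linarith)
        linarith
      linarith

end Pool.Agent.N748.GC.TWO
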