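import Pool.Agent.N748.GC.L2
import Pool.Agent.N748.GC.TWO

set_option autoImplicit false

/-!
# GC2/FAR: the two-point function of the weights at arbitrary distances
-/

namespace Pool.Agent.N748.GC.FAR

open Finset Filter MeasureTheory MonoidAlgebra Topology Complex Pool.Agent.N748.GC
open Pool.Agent.N748.GC.TWO

/-- the mean square of the product of the two shifted weights -/
lemma nn_far {c CN : ℝ} (hN : ∀ (z J Rs : ℕ) (y : ℝ), 144 ≤ z → 1 ≤ y → 1 ≤ Rs →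
      (∀ i < J, ∑ p ∈ IB z y i, 1 / (p:ℝ) ≤ c) → ∀ δ : ℝ, 0 ≤ δ → ∀ a b : ℕ → ℝ,
      (∀ i, 0 ≤ a i ∧ a i ≤ 2) → (∀ i, 0 ≤ b i ∧ b i ≤ 2) → ∀ h : ℝ,
      nn δ (BP a z y 0 J Rs * sf h (BP b z y 0 J Rs)) ≤
        Real.exp ((∑ i ∈ range J, ∑ p ∈ IB z y i,
          (a i ^ 2 + b i ^ 2 + 2 * a i * b i * Real.cos (h * Real.log p)) * wd δ p) +
          CN * Real.exp (-(2 * (Rs:ℝ)))))
    {z J Rs : ℕ} {yy : ℝ} (hz : 144 ≤ z) (hyy : 1 ≤ yy) (hR : 1 ≤ Rs)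
    (hc : ∀ i < J, ∑ p ∈ IB z yy i, 1 / (p:ℝ) ≤ c) {δ : ℝ} (hδ : 0 ≤ δ) {α : ℝ} (hα0 : 0 ≤ α) (hα2 : α ≤ 2)
    (x y : ℝ) (hne : ∀ n ∈ (BP (fun _ => α) z yy 0 J Rs).coeff.support, n ≠ 0) :
    nn δ (sf x (BP (fun _ => α) z yy 0 J Rs) * sf y (BP (fun _ => α) z yy 0 J Rs)) ≤
      Real.exp (α ^ 2 * VB δ z yy 0 J) ^ 2 * (KX α z yy J δ (x - y) *
        Real.exp (CN * Real.exp (-(2 * (Rs:ℝ))))) := by
  rw [nn_shift δ x y _ hne]
  refine (hN z J Rs yy hz hyy hR hc δ hδ (fun _ => α) (fun _ => α) (fun _ => ⟨hα0, hα2⟩)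
    (fun _ => ⟨hα0, hα2⟩) (y - x)).trans (le_of_eq ?_)
  unfold KX
  rw [← Real.exp_nat_mul, ← Real.exp_add, ← Real.exp_add]
  congr 1
  have hcos : ∀ p : ℕ, Real.cos ((y - x) * Real.log p) = Real.cos ((x - y) * Real.log p) := by
    intro p
    rw [← Real.cos_neg]
    congr 1
    ring
  have h1 : ∑ i ∈ range J, ∑ p ∈ IB z yy i,
      (α ^ 2 + α ^ 2 + 2 * α * α * Real.cos ((y - x) * Real.log p)) * wd δ p =
      2 * α ^ 2 * VB δ z yy 0 J +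
        2 * α ^ 2 * (∑ i ∈ range J, ∑ p ∈ IB z yy i, Real.cos ((x - y) * Real.log p) * wd δ p) := by
    unfold VB
    rw [← range_eq_Ico, mul_sum, mul_sum, ← sum_add_distrib]
    refine sum_congr rfl fun i _ => ?_
    rw [mul_sum, mul_sum, ← sum_add_distrib]
    refine sum_congr rfl fun p _ => ?_
    rw [hcos]
    ring
  rw [h1]
  push_cast
  ring

theorem main (hN : S_NNB) (hLEN : S_LEN) : S_FAR := by
  have hEQ : S_EQ := EQ.main MV.main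
  intro α hα0 hα2 c hc e he
  obtain ⟨CN, hCN, hN⟩ := hN c hc
  have hle : 0 < Real.log (1 + e) := Real.log_pos (by linarith)
  obtain ⟨R0, hR0⟩ := ev_R (CN := CN) hle
  refine ⟨0, R0, ?_⟩
  intro z _ Rs hRs yf Jf hSB lam δ0 hlam K _ _ F hF hF0 η hη
  have hz1000 : (1000:ℝ) ≤ z := by exact_mod_cast hSB.zz
  have hz144 : 144 ≤ z := le_trans (by norm_num) hSB.zz
  have hR1 := hSB.R1
  have hexp : Real.exp (CN * Real.exp (-(2 * (Rs:ℝ)))) ≤ 1 + e := by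
    calc _ ≤ Real.exp (Real.log (1 + e)) := Real.exp_le_exp.2 (hR0 Rs hRs)
      _ = 1 + e := Real.exp_log (by linarith)
  filter_upwards [hEQ (Sm z) (fun p hp => (mem_filter.1 hp).2) K F hF η hη, hSB.ev, ev_Xl, ev_len,
    eventually_ge_atTop (3:ℝ)] with X hX hev h1 h2 hX3 δ hδl hδu k x y
  obtain ⟨hzy, hJ, hblk, hlen⟩ := hev
  have hlX : 0 < Real.log X := Real.log_pos (by linarith)
  have hδ : 0 < δ := lt_of_lt_of_le (by positivity) hδl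
  have hyy : 1 ≤ yf X := by linarith
  have hX0 : 0 < X := by linarith
  have hNN : 0 ≤ Real.exp (Real.log (yf X) * (90 * ((Rs:ℝ) + 1))) := (Real.exp_pos _).le
  have hNM : Real.exp (Real.log (yf X) * (90 * ((Rs:ℝ) + 1))) * Real.exp (Real.log (yf X) * (90 * ((Rs:ℝ) + 1))) ≤
      X ^ ((1:ℝ) / 8) := by
    rw [← Real.exp_add]
    refine le_trans (le_of_eq ?_) (hlen.trans h2)
    congr 1
    ring
  set B := BP (fun _ => α) z (yf X) 0 (Jf X) Rs with hB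
  have hBl := (hLEN z (Jf X) Rs (yf X) hz144 hyy hR1 (fun i hi => (hblk i hi).1)).1
    (fun _ => α) (fun _ => ⟨hα0.le, hα2.le⟩) 0 (Nat.zero_le _)
  rw [← hB] at hBl
  have hB0 : ∀ n ∈ B.coeff.support, n ≠ 0 := fun n hn => (hBl.1 n hn).1
  set D := sf x B * sf y B with hD
  obtain ⟨hD1, hD2⟩ := len_mul hNN hNM hBl hBl x y
  rw [← hD] at hD1 hD2
  have hXl : 0 ≤ Xl X := by unfold Xl; positivity
  have h4 := (abs_le.1 (hX (Xl X) hXl h1 k δ hδ.le D hD1 hD2)).2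
  set E := Real.exp (α ^ 2 * VB δ z (yf X) 0 (Jf X)) with hE
  have hE1 : 1 ≤ E := Real.one_le_exp (mul_nonneg (sq_nonneg _) (VB_nonneg _ _ _ _ _))
  have hE0 : 0 < E := by linarith
  have hE2 : 1 ≤ E ^ 2 := one_le_pow₀ hE1
  have hnn := nn_far hN hz144 hyy hR1 (fun i hi => (hblk i hi).2) hδ.le hα0.le hα2.le x y
    (by rw [← hB]; exact hB0)
  rw [← hB, ← hD, ← hE] at hnn
  have hKX : 0 ≤ KX α z (yf X) (Jf X) δ (x - y) := (Real.exp_pos _).le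
  set kx := KX α z (yf X) (Jf X) δ (x - y) with hkx
  have hn0 : 0 ≤ nn δ D := MV.nn_nonneg δ D
  have hn1 : nn δ D / E ^ 2 ≤ (1 + e) * kx := by
    rw [div_le_iff₀ (by positivity)]
    calc nn δ D ≤ E ^ 2 * (kx * Real.exp (CN * Real.exp (-(2 * (Rs:ℝ))))) := hnn
      _ ≤ E ^ 2 * (kx * (1 + e)) := by gcongr
      _ = _ := by ring
  -- the integral
  have hint : (∫ t in Xl X..X, F (k, pt (Sm z) t) *
      (WB α z Rs yf Jf X δ (t + x) * WB α z Rs yf Jf X δ (t + y))) =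
      (∫ t in Xl X..X, F (k, pt (Sm z) t) * ‖ec (1 / 2 + δ + t * I) D‖ ^ 2) / E ^ 2 := by
    rw [← intervalIntegral.integral_div]
    refine intervalIntegral.integral_congr fun t _ => ?_
    have e1 : ∀ u : ℝ, (1 / 2 + (δ:ℂ) + (t:ℂ) * I + (u:ℂ) * I) = 1 / 2 + (δ:ℂ) + ((t + u : ℝ) : ℂ) * I := by
      intro u; push_cast; ring
    have e2 : ec (1 / 2 + δ + t * I) D =
        ec (1 / 2 + δ + ((t + x : ℝ) : ℂ) * I) B * ec (1 / 2 + δ + ((t + y : ℝ) : ℂ) * I) B := by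
      rw [hD, map_mul, MV.ec_sf _ _ hB0, MV.ec_sf _ _ hB0, e1, e1]
    simp only [WB]
    rw [e2, norm_mul, ← hB, ← hE]
    ring
  rw [hint]
  have hI0 : 0 ≤ ∫ w, F (k, w) ∂(HP (Sm z)) := integral_nonneg fun w => hF0 _
  set IF : ℝ := ∫ w, F (k, w) ∂(HP (Sm z)) with hIF
  set JJ := ∫ t in Xl X..X, F (k, pt (Sm z) t) * ‖ec (1 / 2 + δ + t * I) D‖ ^ 2 with hJJ
  have hXp : X ^ ((9:ℝ) / 10) ≤ X := by
    conv_rhs => rw [← Real.rpow_one X]
    exact Real.rpow_le_rpow_of_exponent_le (by linarith) (by norm_num)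
  have h7 : JJ ≤ X * (IF + η) * nn δ D + η * X := by
    have ha : 0 ≤ Xl X * IF * nn δ D := by positivity
    have hb : η * X ^ ((9:ℝ) / 10) ≤ η * X := mul_le_mul_of_nonneg_left hXp hη.le
    linarith
  calc JJ / E ^ 2 ≤ (X * (IF + η) * nn δ D + η * X) / E ^ 2 := by gcongr
    _ = X * (IF + η) * (nn δ D / E ^ 2) + η * X / E ^ 2 := by ring
    _ ≤ X * (IF + η) * ((1 + e) * kx) + η * X := by
      refine add_le_add (mul_le_mul_of_nonneg_left hn1 (by positivity)) ?_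
      exact div_le_self (by positivity) hE2
    _ = X * ((IF + η) * ((1 + e) * kx) + η) := by ring

end Pool.Agent.N748.GC.FAR
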