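import Pool.Agent.N748.GC.RZ

set_option autoImplicit false

/-!
# Existence of the limiting masses (GC/LAM)
-/

namespace Pool.Agent.N748.GC.LAM

open Finset Filter MeasureTheory MonoidAlgebra Topology Complex
open Pool.Agent.N748.GC.RZ

/-! ### continuity -/

theorem pt_add (P : Finset ℕ) (t u : ℝ) : pt P t + pt P u = pt P (t + u) := by
  ext p
  simp only [pt, Pi.add_apply]
  rw [← AddCircle.coe_add]
  congr 1
  ring

theorem pt_cont (P : Finset ℕ) : Continuous (pt P) := by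
  unfold pt
  refine continuous_pi fun p => ?_
  exact (AddCircle.continuous_mk' (1:ℝ)).comp (by fun_prop)

theorem mz_cont (α : ℝ) (z : ℕ) : Continuous (mz α z) :=
  (M0_cont α (Sm z) (Sm_prime z)).comp (pt_cont _)

theorem Zn_cont {α δ : ℝ} (hα : 0 < α) (hδ : δ ≤ 1 / 16) : Continuous (Zn α δ) := by
  unfold Zn
  refine continuous_const.mul ?_
  refine Continuous.rpow_const ?_ (fun _ => Or.inr (by positivity))
  refine Continuous.norm ?_
  rw [continuous_iff_continuousAt]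
  intro u
  have hne : (1 / 2 + (δ:ℂ) + u * I) ≠ 1 := by
    intro h
    have h1 := congrArg Complex.re h
    simp at h1
    linarith
  have h2 : ContinuousAt riemannZeta (1 / 2 + (δ:ℂ) + u * I) :=
    (differentiableAt_riemannZeta hne).continuousAt
  exact ContinuousAt.comp (f := fun u : ℝ => (1 / 2 + (δ:ℂ) + u * I)) h2 (by fun_prop)

/-! ### the truncated masses -/

/-- the truncated mass as a function on the torus of the primes below `z` -/
noncomputable def Psi (α : ℝ) (f : ℝ → ℝ) (z : ℕ) (y : UnitAddTorus (Sm z)) : ℝ :=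
  ∫ x in (0:ℝ)..1, f x * M0 α (Sm z) (y + pt (Sm z) x)

theorem Psi_integrand_cont (α : ℝ) {f : ℝ → ℝ} (hf : Continuous f) (z : ℕ) :
    Continuous (Function.uncurry fun (y : UnitAddTorus (Sm z)) (x : ℝ) =>
      f x * M0 α (Sm z) (y + pt (Sm z) x)) := by
  have h := M0_cont α (Sm z) (Sm_prime z)
  have h2 := pt_cont (Sm z)
  unfold Function.uncurry
  fun_prop

theorem Psi_cont (α : ℝ) {f : ℝ → ℝ} (hf : Continuous f) (z : ℕ) :
    Continuous (Psi α f z) :=
  intervalIntegral.continuous_parametric_intervalIntegral_of_continuous'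
    (Psi_integrand_cont α hf z) 0 1

/-- along the flow -/
theorem Psi_pt (α : ℝ) (f : ℝ → ℝ) (z : ℕ) (t : ℝ) :
    Psi α f z (pt (Sm z) t) = ∫ x in (0:ℝ)..1, f x * mz α z (t + x) := by
  unfold Psi mz
  simp_rw [pt_add]

theorem Psi_rz (h3 : S_RZ) {α : ℝ} (hα : 0 < α) (f : ℝ → ℝ) (z : ℕ) (w : Om) :
    ∫ x in (0:ℝ)..1, f x * rz α z w x = Psi α f z (fun p : Sm z => w p) := by
  unfold Psi
  refine intervalIntegral.integral_congr fun x _ => ?_
  simp only [h3 α hα z w x]

/-- the truncated mass only depends on the values in `[0,1]` -/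
theorem Psi_congr (α : ℝ) {f g : ℝ → ℝ} (hfg : ∀ x ∈ Set.Icc (0:ℝ) 1, f x = g x) (z : ℕ)
    (y : UnitAddTorus (Sm z)) : Psi α f z y = Psi α g z y := by
  unfold Psi
  refine intervalIntegral.integral_congr fun x hx => ?_
  rw [Set.uIcc_of_le zero_le_one] at hx
  simp only [hfg x hx]

/-- the restriction between two tori -/
def rst {z N : ℕ} (h : z ≤ N) (x : UnitAddTorus (Sm N)) : UnitAddTorus (Sm z) :=
  fun p => x ⟨p, mem_Sm.2 ⟨(mem_Sm.1 p.2).1.trans_le h, (mem_Sm.1 p.2).2⟩⟩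

theorem rst_cont {z N : ℕ} (h : z ≤ N) : Continuous (rst h) := by
  unfold rst; fun_prop

theorem rst_pt {z N : ℕ} (h : z ≤ N) (t : ℝ) : rst h (pt (Sm N) t) = pt (Sm z) t := rfl

/-- comparison of two random Euler products along the flow -/
theorem flow_diff {α : ℝ} (hα : 0 < α) {δ : ℝ} (hδ : δ ≤ 1 / 16) (z z' : ℕ) {f : ℝ → ℝ}
    (hf : Continuous f) {A : ℝ} (hA : 0 < A) (t : ℝ) :
    |(∫ x in (0:ℝ)..1, f x * mz α z (t + x)) - ∫ x in (0:ℝ)..1, f x * mz α z' (t + x)| ≤
      A * |∫ x in (0:ℝ)..1, (f x / A) * (Zn α δ (t + x) - mz α z (t + x))| +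
      A * |∫ x in (0:ℝ)..1, (f x / A) * (Zn α δ (t + x) - mz α z' (t + x))| := by
  have hZ := Zn_cont hα hδ
  have hm := mz_cont α z
  have hm' := mz_cont α z'
  have e : ∀ z : ℕ, A * (∫ x in (0:ℝ)..1, (f x / A) * (Zn α δ (t + x) - mz α z (t + x))) =
      (∫ x in (0:ℝ)..1, f x * Zn α δ (t + x)) - ∫ x in (0:ℝ)..1, f x * mz α z (t + x) := by
    intro z
    have hm := mz_cont α z
    rw [← intervalIntegral.integral_sub, ← intervalIntegral.integral_const_mul]
    · refine intervalIntegral.integral_congr fun x _ => ?_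
      field_simp
    · exact Continuous.intervalIntegrable (by fun_prop) _ _
    · exact Continuous.intervalIntegrable (by fun_prop) _ _
  have a : ∀ y : ℝ, A * |y| = |A * y| := fun y => by rw [abs_mul, abs_of_pos hA]
  rw [a, a, e z, e z']
  rw [abs_sub_comm ((∫ x in (0:ℝ)..1, f x * Zn α δ (t + x))) (∫ x in (0:ℝ)..1, f x * mz α z (t + x))]
  refine le_trans (le_of_eq ?_) (abs_add_le _ _)
  congr 1
  ring

/-- the Cauchy property -/
theorem cauchy_est (h1 : S_CORE) (h2 : S_ERG) {α : ℝ} (hα : 0 < α) (hα1 : α < 1) {ε : ℝ}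
    (hε : 0 < ε) : ∃ z0 : ℕ, ∀ z ≥ z0, ∀ z' ≥ z0, ∀ f : ℝ → ℝ, Continuous f → ∀ A : ℝ, 0 < A →
      (∀ x, |f x| ≤ A) →
      ∫ w, |Psi α f z (fun p : Sm z => w p) - Psi α f z' (fun p : Sm z' => w p)| ∂PO ≤
        2 * A * ε := by
  obtain ⟨z0, hz0⟩ := h1 α hα hα1 ε hε
  refine ⟨z0, fun z hz z' hz' f hf A hA hfA => ?_⟩
  obtain ⟨lam, d0, hlam, hd0, hd1, hX⟩ := hz0 z hz
  obtain ⟨lam', d0', hlam', hd0', hd1', hX'⟩ := hz0 z' hz'
  set N := max z z' with hN
  set Φ : UnitAddTorus (Sm N) → ℝ := fun x =>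
    |Psi α f z (rst (le_max_left z z') x) - Psi α f z' (rst (le_max_right z z') x)| with hΦ
  have hΦc : Continuous Φ :=
    (((Psi_cont α hf z).comp (rst_cont _)).sub ((Psi_cont α hf z').comp (rst_cont _))).abs
  have e1 : ∫ w, |Psi α f z (fun p : Sm z => w p) - Psi α f z' (fun p : Sm z' => w p)| ∂PO =
      ∫ x, Φ x ∂(HP (Sm N)) := by
    rw [← int_restr (Sm N) Φ hΦc]
    rfl
  rw [e1]
  refine le_of_forall_pos_le_add fun η hη => ?_
  obtain ⟨H0, hH0, hH⟩ := h2 (Sm N) (Sm_prime N) Φ hΦc η hη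
  have hlog : Tendsto (fun X : ℝ => max lam lam' / Real.log X) atTop (𝓝 0) :=
    Tendsto.div_atTop tendsto_const_nhds Real.tendsto_log_atTop
  have hev : ∀ᶠ X : ℝ in atTop, max lam lam' / Real.log X ≤ min d0 d0' :=
    (hlog.eventually (gt_mem_nhds (lt_min hd0 hd0'))).mono fun X hX => le_of_lt hX
  obtain ⟨X, hXa, hXb, hXc, hXd, hXe⟩ :=
    (hX.and (hX'.and (hev.and ((eventually_ge_atTop H0).and (eventually_gt_atTop 1))))).exists
  have hX0 : 0 < X := by linarith
  have hlogX : 0 < Real.log X := Real.log_pos hXe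
  set δ : ℝ := max lam lam' / Real.log X with hδ
  have hδ16 : δ ≤ 1 / 16 := le_trans (hXc.trans (min_le_left _ _)) hd1
  have b1 := hXa δ (by rw [hδ]; gcongr; exact le_max_left _ _) (hXc.trans (min_le_left _ _))
    (fun x => f x / A) (by fun_prop) (fun x => by
      rw [abs_div, abs_of_pos hA, div_le_one hA]; exact hfA x)
  have b2 := hXb δ (by rw [hδ]; gcongr; exact le_max_right _ _) (hXc.trans (min_le_right _ _))
    (fun x => f x / A) (by fun_prop) (fun x => by
      rw [abs_div, abs_of_pos hA, div_le_one hA]; exact hfA x)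
  have hZ := Zn_cont hα hδ16
  have hm := mz_cont α z
  have hm' := mz_cont α z'
  have c1 : Continuous fun t : ℝ =>
      |∫ x in (0:ℝ)..1, (f x / A) * (Zn α δ (t + x) - mz α z (t + x))| := by
    refine Continuous.abs ?_
    refine intervalIntegral.continuous_parametric_intervalIntegral_of_continuous' ?_ 0 1
    unfold Function.uncurry
    fun_prop
  have c2 : Continuous fun t : ℝ =>
      |∫ x in (0:ℝ)..1, (f x / A) * (Zn α δ (t + x) - mz α z' (t + x))| := by
    refine Continuous.abs ?_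
    refine intervalIntegral.continuous_parametric_intervalIntegral_of_continuous' ?_ 0 1
    unfold Function.uncurry
    fun_prop
  have b3 : ∫ t in (0:ℝ)..X, Φ (pt (Sm N) t) ≤ 2 * A * ε * X := by
    calc ∫ t in (0:ℝ)..X, Φ (pt (Sm N) t)
        ≤ ∫ t in (0:ℝ)..X,
          (A * |∫ x in (0:ℝ)..1, (f x / A) * (Zn α δ (t + x) - mz α z (t + x))| +
           A * |∫ x in (0:ℝ)..1, (f x / A) * (Zn α δ (t + x) - mz α z' (t + x))|) := by
          refine intervalIntegral.integral_mono_on hX0.le ?_ ?_ ?_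
          · exact (hΦc.comp (pt_cont _)).intervalIntegrable _ _
          · exact Continuous.intervalIntegrable (by fun_prop) _ _
          · intro t _
            have e := flow_diff hα hδ16 z z' hf hA t
            rw [← Psi_pt, ← Psi_pt] at e
            exact e
      _ = A * (∫ t in (0:ℝ)..X, |∫ x in (0:ℝ)..1, (f x / A) * (Zn α δ (t + x) - mz α z (t + x))|) +
          A * (∫ t in (0:ℝ)..X, |∫ x in (0:ℝ)..1, (f x / A) * (Zn α δ (t + x) - mz α z' (t + x))|) := by
          rw [intervalIntegral.integral_add, intervalIntegral.integral_const_mul,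
            intervalIntegral.integral_const_mul]
          · exact (c1.const_mul A).intervalIntegrable _ _
          · exact (c2.const_mul A).intervalIntegrable _ _
      _ ≤ A * (ε * X) + A * (ε * X) := by gcongr
      _ = 2 * A * ε * X := by ring
  have b4 := hH X hXd 0
  rw [zero_add] at b4
  have b5 : (∫ t in (0:ℝ)..X, Φ (pt (Sm N) t)) / X ≤ 2 * A * ε := by
    rw [div_le_iff₀ hX0]; exact b3
  have b6 := (abs_le.1 b4).1
  linarith

/-! ### the mean -/

theorem bdd_cont {P : Finset ℕ} {F : UnitAddTorus P → ℝ} (hF : Continuous F) :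
    ∃ B : ℝ, 0 < B ∧ ∀ x, |F x| ≤ B := by
  obtain ⟨B, hB⟩ := isCompact_univ.exists_bound_of_continuousOn hF.continuousOn
  exact ⟨max B 1, lt_of_lt_of_le one_pos (le_max_right _ _), fun x =>
    (hB x (Set.mem_univ _)).trans (le_max_left _ _)⟩

theorem Psi_mean (α : ℝ) {f : ℝ → ℝ} (hf : Continuous f) {A : ℝ} (hfA : ∀ x, |f x| ≤ A)
    (z : ℕ) : ∫ y, Psi α f z y ∂(HP (Sm z)) = ∫ x in (0:ℝ)..1, f x := by
  obtain ⟨B, hB, hMB⟩ := bdd_cont (M0_cont α (Sm z) (Sm_prime z))
  have hA : 0 ≤ A := (abs_nonneg _).trans (hfA 0)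
  unfold Psi
  have : IsFiniteMeasure (volume.restrict (Set.uIoc (0:ℝ) 1)) := by
    rw [Set.uIoc_of_le zero_le_one]; infer_instance
  have hint : Integrable (Function.uncurry fun (x : ℝ) (y : UnitAddTorus (Sm z)) =>
      f x * M0 α (Sm z) (y + pt (Sm z) x)) ((volume.restrict (Set.uIoc (0:ℝ) 1)).prod (HP (Sm z))) := by
    have hM := M0_cont α (Sm z) (Sm_prime z)
    have h2 := pt_cont (Sm z)
    have hc : Continuous (Function.uncurry fun (x : ℝ) (y : UnitAddTorus (Sm z)) =>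
      f x * M0 α (Sm z) (y + pt (Sm z) x)) := by
      unfold Function.uncurry
      fun_prop
    refine Integrable.of_bound hc.aestronglyMeasurable (A * B) (Eventually.of_forall ?_)
    rintro ⟨x, y⟩
    simp only [Function.uncurry, Real.norm_eq_abs, abs_mul]
    exact mul_le_mul (hfA x) (hMB _) (abs_nonneg _) hA
  rw [← intervalIntegral_integral_swap hint]
  refine intervalIntegral.integral_congr fun x _ => ?_
  rw [integral_const_mul, int_trans (Sm z) (M0 α (Sm z)) (pt (Sm z) x),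
    M0_int α (Sm z) (Sm_prime z), mul_one]

/-! ### the limit -/

theorem Psi_integrable (α : ℝ) {f : ℝ → ℝ} (hf : Continuous f) (z : ℕ) :
    Integrable (fun w : Om => Psi α f z (fun p : Sm z => w p)) PO := by
  obtain ⟨B, hB, hMB⟩ := bdd_cont (Psi_cont α hf z)
  refine Integrable.of_bound ?_ B (Eventually.of_forall fun w => ?_)
  · exact ((Psi_cont α hf z).measurable.comp (restr_mp (Sm z)).measurable).aestronglyMeasurable
  · exact hMB _

theorem exists_lim (h1 : S_CORE) (h2 : S_ERG) {α : ℝ} (hα : 0 < α) (hα1 : α < 1) {f : ℝ → ℝ}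
    (hf : Continuous f) {A : ℝ} (hA : 0 < A) (hfA : ∀ x, |f x| ≤ A) :
    ∃ L : Om → ℝ, Measurable L ∧ Integrable L PO ∧ ∫ w, L w ∂PO = ∫ x in (0:ℝ)..1, f x ∧
      Tendsto (fun z : ℕ => ∫ w, |Psi α f z (fun p : Sm z => w p) - L w| ∂PO) atTop (𝓝 0) := by
  set u : ℕ → (Om →₁[PO] ℝ) := fun z => (Psi_integrable α hf z).toL1 _ with hu
  have hdist : ∀ z z', dist (u z) (u z') =
      ∫ w, |Psi α f z (fun p : Sm z => w p) - Psi α f z' (fun p : Sm z' => w p)| ∂PO := by
    intro z z'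
    rw [L1.dist_eq_integral_dist]
    refine integral_congr_ae ?_
    filter_upwards [(Psi_integrable α hf z).coeFn_toL1, (Psi_integrable α hf z').coeFn_toL1]
      with w hw hw'
    simp only [hu]
    rw [hw, hw', Real.dist_eq]
  have hcau : CauchySeq u := by
    rw [Metric.cauchySeq_iff]
    intro ε hε
    obtain ⟨z0, hz0⟩ := cauchy_est h1 h2 hα hα1 (ε := ε / (4 * A)) (by positivity)
    refine ⟨z0, fun m hm n hn => ?_⟩
    rw [hdist]
    refine lt_of_le_of_lt (hz0 m hm n hn f hf A hA hfA) ?_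
    rw [show 2 * A * (ε / (4 * A)) = ε / 2 by field_simp; ring]
    linarith
  obtain ⟨U, hU⟩ := cauchySeq_tendsto_of_complete hcau
  have hdU : ∀ z, dist (u z) U = ∫ w, |Psi α f z (fun p : Sm z => w p) - U w| ∂PO := by
    intro z
    rw [L1.dist_eq_integral_dist]
    refine integral_congr_ae ?_
    filter_upwards [(Psi_integrable α hf z).coeFn_toL1] with w hw
    simp only [hu]
    rw [hw, Real.dist_eq]
  have hlim : Tendsto (fun z : ℕ => ∫ w, |Psi α f z (fun p : Sm z => w p) - U w| ∂PO) atTop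
      (𝓝 0) := by
    simp_rw [← hdU]
    exact tendsto_iff_dist_tendsto_zero.1 hU
  have hUi : Integrable (U : Om → ℝ) PO := L1.integrable_coeFn U
  refine ⟨U, (Lp.stronglyMeasurable U).measurable, hUi, ?_, hlim⟩
  have hmean : ∀ z : ℕ, ∫ w, Psi α f z (fun p : Sm z => w p) ∂PO = ∫ x in (0:ℝ)..1, f x :=
    fun z => by rw [int_restr (Sm z) _ (Psi_cont α hf z), Psi_mean α hf hfA]
  have h0 : |(∫ x in (0:ℝ)..1, f x) - ∫ w, U w ∂PO| ≤ 0 := by
    refine ge_of_tendsto' hlim fun z => ?_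
    rw [← hmean z, ← integral_sub (Psi_integrable α hf z) hUi]
    exact abs_integral_le_integral_abs
  have h4 := abs_eq_zero.1 (le_antisymm h0 (abs_nonneg _))
  linarith

/-- truncation to the values in `[0,1]` -/
def ft (f : ℝ → ℝ) (x : ℝ) : ℝ := f (max 0 (min 1 x))

theorem ft_cont {f : ℝ → ℝ} (hf : Continuous f) : Continuous (ft f) := by
  unfold ft; fun_prop

theorem ft_eq (f : ℝ → ℝ) : ∀ x ∈ Set.Icc (0:ℝ) 1, f x = ft f x := by
  intro x hx
  unfold ft
  rw [min_eq_right hx.2, max_eq_right hx.1]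

theorem ft_bdd {f : ℝ → ℝ} (hf : Continuous f) : ∃ A : ℝ, 1 ≤ A ∧ ∀ x, |ft f x| ≤ A := by
  obtain ⟨B, hB⟩ := (isCompact_Icc (a := (0:ℝ)) (b := 1)).exists_bound_of_continuousOn
    hf.continuousOn
  refine ⟨max B 1, le_max_right _ _, fun x => (hB _ ?_).trans (le_max_left _ _)⟩
  exact ⟨le_max_left _ _, max_le zero_le_one (min_le_left _ _)⟩

theorem exists_lim' (h1 : S_CORE) (h2 : S_ERG) {α : ℝ} (hα : 0 < α) (hα1 : α < 1) (f : ℝ → ℝ)
    (hf : Continuous f) :
    ∃ L : Om → ℝ, Measurable L ∧ Integrable L PO ∧ ∫ w, L w ∂PO = ∫ x in (0:ℝ)..1, f x ∧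
      Tendsto (fun z : ℕ => ∫ w, |Psi α f z (fun p : Sm z => w p) - L w| ∂PO) atTop (𝓝 0) := by
  obtain ⟨A, hA, hfA⟩ := ft_bdd hf
  obtain ⟨L, hL1, hL2, hL3, hL4⟩ := exists_lim h1 h2 hα hα1 (ft_cont hf) (by linarith) hfA
  refine ⟨L, hL1, hL2, ?_, ?_⟩
  · rw [hL3]
    refine intervalIntegral.integral_congr fun x hx => ?_
    rw [Set.uIcc_of_le zero_le_one] at hx
    exact (ft_eq f x hx).symm
  · simp_rw [Psi_congr α (ft_eq f)]
    exact hL4

open Classical in
/-- (LAM) existence of the masses -/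
theorem main (h1 : S_CORE) (h2 : S_ERG) (h3 : S_RZ) : S_LAM := by
  intro α hα hα1
  refine ⟨fun f => if hf : Continuous f then (exists_lim' h1 h2 hα hα1 f hf).choose else 0, ?_⟩
  intro f hf
  simp only [hf, dite_true]
  obtain ⟨a, b, c, d⟩ := (exists_lim' h1 h2 hα hα1 f hf).choose_spec
  refine ⟨a, b, c, ?_⟩
  simp_rw [Psi_rz h3 hα f]
  exact d

end Pool.Agent.N748.GC.LAM
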