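import Pool.Agent.N748.GC.L1
import Pool.Agent.N748.GC.MV

set_option autoImplicit false

/-!
# Lengths and sizes of the polynomials
-/

namespace Pool.Agent.N748.GC.LEN

open Finset Filter MeasureTheory MonoidAlgebra Topology Complex Pool.Agent.N748.GC
  Pool.Agent.N748.GC.MV

/-! ### general facts -/

/-- length and size at most `N` -/
def Q (P : Finset ℕ) (N : ℝ) (f : PC) : Prop := Cop P N f ∧ lc1 f ≤ N

lemma Cop_mono {P : Finset ℕ} {N M : ℝ} (h : N ≤ M) {f : PC} (hf : Cop P N f) : Cop P M f :=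
  fun n hn => ⟨(hf n hn).1, (hf n hn).2.1.trans h, (hf n hn).2.2⟩

lemma Cop_add {P : Finset ℕ} {N : ℝ} {f g : PC} (hf : Cop P N f) (hg : Cop P N g) :
    Cop P N (f + g) := by
  classical
  intro n hn
  rw [MonoidAlgebra.coeff_add] at hn
  rcases mem_union.1 (Finsupp.support_add hn) with h | h
  · exact hf n h
  · exact hg n h

lemma Cop_zero {P : Finset ℕ} {N : ℝ} : Cop P N 0 := by
  intro n hn
  simp at hn

lemma Cop_sum {P : Finset ℕ} {N : ℝ} {ι : Type*} (s : Finset ι) {f : ι → PC}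
    (hf : ∀ i ∈ s, Cop P N (f i)) : Cop P N (∑ i ∈ s, f i) := by
  classical
  induction s using Finset.induction_on with
  | empty => rw [sum_empty]; exact Cop_zero
  | insert a s ha ih =>
    rw [sum_insert ha]
    exact Cop_add (hf a (mem_insert_self _ _)) (ih fun i hi => hf i (mem_insert_of_mem hi))

lemma Cop_smul {P : Finset ℕ} {N : ℝ} {f : PC} (c : ℂ) (hf : Cop P N f) : Cop P N (c • f) := by
  intro n hn
  rw [MonoidAlgebra.coeff_smul] at hn
  exact hf n (Finsupp.support_smul hn)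

lemma lc1_smul (c : ℂ) (f : PC) : lc1 (c • f) ≤ ‖c‖ * lc1 f := by
  have h1 : (c • f).coeff.support ⊆ f.coeff.support := by
    rw [MonoidAlgebra.coeff_smul]; exact Finsupp.support_smul
  rw [lc1_eq_of_subset _ h1]
  unfold lc1
  rw [mul_sum]
  refine sum_le_sum fun n _ => ?_
  rw [MonoidAlgebra.coeff_smul]
  simp

lemma Cop_one {P : Finset ℕ} (hP : ∀ p ∈ P, p.Prime) {N : ℝ} (hN : 1 ≤ N) : Cop P N 1 := by
  intro n hn
  have h1 : n = 1 := by
    rw [MonoidAlgebra.one_def, MonoidAlgebra.coeff_single] at hn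
    exact mem_singleton.1 (Finsupp.support_single_subset hn)
  subst h1
  refine ⟨one_ne_zero, by simpa using hN, fun p hp hd => ?_⟩
  exact (hP p hp).one_lt.ne' (Nat.dvd_one.1 hd)

lemma lc1_one : lc1 (1 : PC) = 1 := by
  rw [MonoidAlgebra.one_def, lc1_single]; simp

lemma Q_mul {P : Finset ℕ} (hP : ∀ p ∈ P, p.Prime) {N M : ℝ} (hN : 0 ≤ N)
    {f g : PC} (hf : Q P N f) (hg : Q P M g) : Q P (N * M) (f * g) :=
  ⟨Cop_mul hP hN hf.1 hg.1,
    (lc1_mul f g).trans (mul_le_mul hf.2 hg.2 (lc1_nonneg g) hN)⟩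

lemma Q_one {P : Finset ℕ} (hP : ∀ p ∈ P, p.Prime) : Q P 1 1 :=
  ⟨Cop_one hP le_rfl, lc1_one.le⟩

lemma Q_pow {P : Finset ℕ} (hP : ∀ p ∈ P, p.Prime) {N : ℝ} (hN : 0 ≤ N)
    {f : PC} (hf : Q P N f) (k : ℕ) : Q P (N ^ k) (f ^ k) := by
  induction k with
  | zero => simpa using Q_one hP
  | succ k ih =>
    rw [pow_succ, pow_succ]
    exact Q_mul hP (by positivity) ih hf

lemma Q_prod {P : Finset ℕ} (hP : ∀ p ∈ P, p.Prime) {ι : Type*} (s : Finset ι) {N : ι → ℝ}
    {f : ι → PC} (hN : ∀ i ∈ s, 0 ≤ N i) (hf : ∀ i ∈ s, Q P (N i) (f i)) :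
    Q P (∏ i ∈ s, N i) (∏ i ∈ s, f i) := by
  classical
  induction s using Finset.induction_on with
  | empty => simpa using Q_one hP
  | insert a s ha ih =>
    rw [prod_insert ha, prod_insert ha]
    exact Q_mul hP (hN a (mem_insert_self _ _)) (hf a (mem_insert_self _ _))
      (ih (fun i hi => hN i (mem_insert_of_mem hi)) fun i hi => hf i (mem_insert_of_mem hi))

lemma Q_mono {P : Finset ℕ} {N M : ℝ} (h : N ≤ M) {f : PC} (hf : Q P N f) : Q P M f :=
  ⟨Cop_mono h hf.1, hf.2.trans h⟩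

lemma Sm_prime {z : ℕ} : ∀ p ∈ Sm z, p.Prime := fun p hp => (mem_filter.1 hp).2

/-! ### one block -/

lemma be_pos (y : ℝ) (i : ℕ) : 0 < be y i := Real.exp_pos _

lemma Q_xc (z : ℕ) (y : ℝ) (i : ℕ) : Q (Sm z) (be y i) (xc (IB z y i)) := by
  have hsupp : ∀ p ∈ IB z y i, p.Prime ∧ z ≤ p ∧ (p : ℝ) ≤ be y i := by
    intro p hp
    unfold IB at hp
    rw [mem_filter, mem_filter, mem_Icc] at hp
    exact ⟨hp.1.2.1, hp.2, (Nat.le_floor_iff (be_pos y i).le).1 hp.1.1.2⟩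
  constructor
  · unfold xc
    refine Cop_sum _ fun p hp => ?_
    intro n hn
    have h1 : n = p := by
      rw [MonoidAlgebra.coeff_single] at hn
      exact mem_singleton.1 (Finsupp.support_single_subset hn)
    subst h1
    obtain ⟨h2, h3, h4⟩ := hsupp n hp
    refine ⟨h2.ne_zero, h4, fun q hq hd => ?_⟩
    have h5 := (Nat.prime_dvd_prime_iff_eq (Sm_prime q hq) h2).1 hd
    unfold Sm at hq
    rw [mem_filter, mem_range] at hq
    omega
  · unfold xc
    refine (lc1_sum _ _).trans ?_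
    have h1 : ∀ p ∈ IB z y i, lc1 (single p (1 : ℂ)) = 1 := fun p _ => by
      rw [lc1_single]; simp
    rw [sum_congr rfl h1, sum_const, nsmul_eq_mul, mul_one]
    have h2 : (IB z y i).card ≤ ⌊be y i⌋₊ := by
      refine (card_le_card (t := Icc 1 ⌊be y i⌋₊) ?_).trans (by simp)
      unfold IB
      exact (filter_subset _ _).trans (filter_subset _ _)
    exact (Nat.cast_le.2 h2).trans (Nat.floor_le (be_pos y i).le)

lemma exp_two_le : Real.exp 2 ≤ 8 := by
  have h := Real.exp_one_lt_d9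
  have h2 : Real.exp 2 = Real.exp 1 * Real.exp 1 := by rw [← Real.exp_add]; norm_num
  rw [h2]
  nlinarith [Real.exp_pos 1]

lemma sum_exp_le (K : ℕ) {a : ℝ} (h0 : 0 ≤ a) (h2 : a ≤ 2) :
    ∑ k ∈ range (K + 1), a ^ k / (k.factorial : ℝ) ≤ 8 := by
  have h := Real.sum_le_exp_of_nonneg h0 (K + 1)
  exact h.trans ((Real.exp_le_exp.2 h2).trans exp_two_le)

lemma Q_NKc {z : ℕ} {b : ℝ} (hb : 1 ≤ b) {x : PC} (hx : Q (Sm z) b x) (K : ℕ) {a : ℝ}
    (h0 : 0 ≤ a) (h2 : a ≤ 2) : Q (Sm z) (8 * b ^ K) (NKc K a x) := by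
  have hbK : ∀ k ∈ range (K + 1), b ^ k ≤ b ^ K := fun k hk =>
    pow_le_pow_right₀ hb (by have := mem_range.1 hk; omega)
  have hbK0 : 0 ≤ b ^ K := by positivity
  constructor
  · unfold NKc
    refine Cop_sum _ fun k hk => Cop_smul _ ?_
    refine Cop_mono ?_ (Q_pow Sm_prime (by linarith) hx k).1
    have := hbK k hk
    linarith
  · unfold NKc
    refine (lc1_sum _ _).trans ?_
    calc ∑ k ∈ range (K + 1), lc1 (((a ^ k / (k.factorial : ℝ) : ℝ) : ℂ) • x ^ k)
        ≤ ∑ k ∈ range (K + 1), a ^ k / (k.factorial : ℝ) * b ^ K := by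
          refine sum_le_sum fun k hk => ?_
          refine (lc1_smul _ _).trans ?_
          rw [Complex.norm_real, Real.norm_of_nonneg (by positivity)]
          exact mul_le_mul_of_nonneg_left
            ((Q_pow Sm_prime (by linarith) hx k).2.trans (hbK k hk)) (by positivity)
      _ = (∑ k ∈ range (K + 1), a ^ k / (k.factorial : ℝ)) * b ^ K := by rw [sum_mul]
      _ ≤ 8 * b ^ K := mul_le_mul_of_nonneg_right (sum_exp_le K h0 h2) hbK0

lemma be_pow (y : ℝ) (i m : ℕ) : be y i ^ m = Real.exp (Real.log y * ((1 / 4) ^ i * m)) := by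
  unfold be
  rw [← Real.exp_nat_mul]
  congr 1; ring

/-- the factor of the block `i` -/
lemma Q_block {z Rs : ℕ} {y : ℝ} {i : ℕ} (hR : 1 ≤ Rs) (hb : 10 ≤ be y i) {a : ℝ}
    (h0 : 0 ≤ a) (h2 : a ≤ 2) :
    Q (Sm z) (Real.exp (Real.log y * ((1 / 4) ^ i * (45 * ((Rs : ℝ) + i)))))
      (NKc (20 * RB Rs i) a (xc (IB z y i))) := by
  have hb1 : 1 ≤ be y i := by linarith
  refine Q_mono ?_ (Q_NKc hb1 (Q_xc z y i) (20 * RB Rs i) h0 h2)
  have e : Real.exp (Real.log y * ((1 / 4) ^ i * (45 * ((Rs : ℝ) + i)))) = be y i ^ (45 * (Rs + i)) := by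
    rw [be_pow]; push_cast; ring_nf
  rw [e, show 45 * (Rs + i) = 5 * (Rs + i) + 20 * RB Rs i by unfold RB; ring, pow_add]
  refine mul_le_mul_of_nonneg_right ?_ (by positivity)
  calc (8 : ℝ) ≤ be y i ^ 1 := by rw [pow_one]; linarith
    _ ≤ be y i ^ (5 * (Rs + i)) := pow_le_pow_right₀ hb1 (by omega)

lemma geo (R : ℝ) (n : ℕ) :
    ∑ i ∈ range n, ((1 / 4 : ℝ) ^ i * (R + i)) =
      (4 / 3 * R + 4 / 9) - (1 / 4) ^ n * (4 / 3 * (R + n) + 4 / 9) := by
  induction n with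
  | zero => simp
  | succ n ih => rw [sum_range_succ, ih]; push_cast; ring

lemma geo_le {R : ℝ} (hR : 0 ≤ R) (j J : ℕ) :
    ∑ i ∈ Ico j J, ((1 / 4 : ℝ) ^ i * (45 * (R + i))) ≤ 90 * (R + 1) := by
  calc ∑ i ∈ Ico j J, ((1 / 4 : ℝ) ^ i * (45 * (R + i)))
      ≤ ∑ i ∈ range J, ((1 / 4 : ℝ) ^ i * (45 * (R + i))) := by
        refine sum_le_sum_of_subset_of_nonneg ?_ fun i _ _ => by positivity
        intro i hi
        rw [mem_Ico] at hi
        exact mem_range.2 hi.2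
    _ = 45 * ∑ i ∈ range J, ((1 / 4 : ℝ) ^ i * (R + i)) := by
        rw [mul_sum]; exact sum_congr rfl fun i _ => by ring
    _ ≤ 90 * (R + 1) := by
        rw [geo]
        have : 0 ≤ (1 / 4 : ℝ) ^ J * (4 / 3 * (R + J) + 4 / 9) := by positivity
        linarith

lemma main : S_LEN := by
  intro z J Rs y hz hy hR hb
  have hly : 0 ≤ Real.log y := Real.log_nonneg hy
  refine ⟨fun a ha j hj => ?_, fun i hi => ?_⟩
  · have h := Q_prod (P := Sm z) Sm_prime (Ico j J)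
      (N := fun i => Real.exp (Real.log y * ((1 / 4) ^ i * (45 * ((Rs : ℝ) + i)))))
      (f := fun i => NKc (20 * RB Rs i) (a i) (xc (IB z y i)))
      (fun i _ => (Real.exp_pos _).le)
      (fun i hi => Q_block hR (hb i (mem_Ico.1 hi).2) (ha i).1 (ha i).2)
    have h2 := Q_mono (M := Real.exp (Real.log y * (90 * ((Rs:ℝ) + 1)))) (by
      rw [← Real.exp_sum, ← mul_sum, Real.exp_le_exp]
      exact mul_le_mul_of_nonneg_left (geo_le (Nat.cast_nonneg _) j J) hly) h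
    exact h2
  · have hbi := hb i hi
    have h := Q_pow (P := Sm z) Sm_prime (by linarith) (Q_xc z y i) (RB Rs i)
    have hRB : (1 : ℝ) ≤ RB Rs i := by
      have : 1 ≤ RB Rs i := by unfold RB; omega
      exact_mod_cast this
    have hle : be y i ^ RB Rs i ≤ Real.exp (Real.log y * (90 * ((Rs:ℝ) + 1))) := by
      rw [be_pow, Real.exp_le_exp]
      refine mul_le_mul_of_nonneg_left ?_ hly
      have h1 := geo_le (R := (Rs : ℝ)) (Nat.cast_nonneg _) i (i + 1)
      rw [Nat.Ico_succ_singleton, sum_singleton] at h1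
      refine le_trans ?_ h1
      refine mul_le_mul_of_nonneg_left ?_ (by positivity)
      unfold RB
      push_cast
      have : (0 : ℝ) ≤ Rs := Nat.cast_nonneg _
      have : (0 : ℝ) ≤ i := Nat.cast_nonneg _
      linarith
    have hQ := Q_mono hle h
    unfold QB
    refine ⟨Cop_smul _ hQ.1, (lc1_smul _ _).trans ?_⟩
    rw [Complex.norm_real, Real.norm_of_nonneg (by positivity)]
    have h1 : (1 / (RB Rs i : ℝ)) ^ (RB Rs i) ≤ 1 :=
      pow_le_one₀ (by positivity) (by rw [div_le_one (by linarith)]; exact hRB)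
    calc (1 / (RB Rs i : ℝ)) ^ (RB Rs i) * lc1 (xc (IB z y i) ^ RB Rs i)
        ≤ 1 * lc1 (xc (IB z y i) ^ RB Rs i) := mul_le_mul_of_nonneg_right h1 (lc1_nonneg _)
      _ ≤ _ := by rw [one_mul]; exact hQ.2

end Pool.Agent.N748.GC.LEN
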