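import Pool.Agent.N748.GC.Stm

set_option autoImplicit false

/-!
# GC/MOM : moments of the random Euler product (helper50)
-/

namespace Pool.Agent.N748.GC.MOM

open Finset Filter MeasureTheory Topology Complex

lemma exp_rem (x : ℝ) : |Real.exp x - (1 + x + x ^ 2 / 2)| ≤ |x| ^ 3 * Real.exp |x| := by
  have h := Complex.norm_exp_sub_sum_le_norm_mul_exp (x : ℂ) 3
  rw [Complex.norm_real, Real.norm_eq_abs] at h
  have e1 : Complex.exp (x : ℂ) - ∑ m ∈ range 3, (x : ℂ) ^ m / (m.factorial : ℂ) =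
      ((Real.exp x - (1 + x + x ^ 2 / 2) : ℝ) : ℂ) := by
    rw [Finset.sum_range_succ, Finset.sum_range_succ, Finset.sum_range_one]
    push_cast
    simp [Nat.factorial]
  rw [e1, Complex.norm_real, Real.norm_eq_abs] at h
  exact h

/-- the constant of the pointwise estimate -/
noncomputable def C1 (a : ℝ) : ℝ := 8 * a / 3 + 16 * a ^ 2 + (6 * a) ^ 3 * Real.exp (6 * a)

lemma pt_est (a : ℝ) (ha : 0 < a) (w : ℂ) (r : ℝ) (hw : ‖w‖ = r) (hr : r ≤ 3 / 4) :
    |Real.exp (-(2 * a) * Real.log ‖1 - w‖) -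
      (1 + 2 * a * w.re + (a + a ^ 2) * (w ^ 2).re + a ^ 2 * r ^ 2)| ≤ C1 a * r ^ 3 := by
  have hr0 : 0 ≤ r := hw ▸ norm_nonneg _
  have hr1 : r ≤ 1 := by linarith
  have hlog := Complex.norm_log_sub_logTaylor_le 2 (z := -w) (by rw [norm_neg, hw]; linarith)
  have e1 : Complex.logTaylor (2 + 1) (-w) = -w - w ^ 2 / 2 := by
    rw [Complex.logTaylor_succ, Complex.logTaylor_succ, Complex.logTaylor_succ, Complex.logTaylor_zero]
    simp
    ring
  rw [e1, norm_neg, hw] at hlog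
  set D : ℂ := Complex.log (1 + -w) - (-w - w ^ 2 / 2) with hD
  have hDn : ‖D‖ ≤ 4 * r ^ 3 / 3 := by
    refine hlog.trans ?_
    have h1 : (1 - r)⁻¹ ≤ 4 := by
      rw [inv_le_comm₀ (by linarith) (by norm_num)]
      linarith
    have h2 : r ^ (2 + 1) * (1 - r)⁻¹ ≤ r ^ 3 * 4 := mul_le_mul_of_nonneg_left h1 (by positivity)
    push_cast
    norm_num at h2 ⊢
    linarith
  set L : ℝ := -(2 * a) * Real.log ‖1 - w‖ with hL
  set u := w.re with hu
  set v := (w ^ 2).re with hv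
  set d := D.re with hd
  have hLe : L = 2 * a * u + a * v - 2 * a * d := by
    have h1 : Real.log ‖1 - w‖ = (Complex.log (1 + -w)).re := by
      rw [Complex.log_re, ← sub_eq_add_neg]
    have h2 : Complex.log (1 + -w) = D - w - w ^ 2 / 2 := by rw [hD]; ring
    have h3 : (w ^ 2 / 2 : ℂ).re = (w ^ 2).re / 2 := by
      rw [show (w ^ 2 / 2 : ℂ) = w ^ 2 / ((2 : ℝ) : ℂ) by push_cast; rfl, Complex.div_ofReal_re]
    rw [hL, h1, h2, Complex.sub_re, Complex.sub_re, h3]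
    ring
  have hub : |u| ≤ r := hw ▸ Complex.abs_re_le_norm w
  have hvb : |v| ≤ r ^ 2 := by
    have := Complex.abs_re_le_norm (w ^ 2)
    rwa [norm_pow, hw] at this
  have hdb : |d| ≤ 4 * r ^ 3 / 3 := (Complex.abs_re_le_norm D).trans hDn
  have hu2 : u ^ 2 = (r ^ 2 + v) / 2 := by
    have h1 : r ^ 2 = w.re ^ 2 + w.im ^ 2 := by
      rw [← hw, Complex.sq_norm, Complex.normSq_apply]; ring
    have h2 : v = w.re ^ 2 - w.im ^ 2 := by
      rw [hv, pow_two, Complex.mul_re]; ring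
    rw [h1, h2, hu]; ring
  have hr3 : r ^ 3 ≤ r ^ 2 := by nlinarith [sq_nonneg r]
  have hr2 : r ^ 2 ≤ r := by nlinarith
  have hr3' : 0 ≤ r ^ 3 := by positivity
  have hm1 : |a * v - 2 * a * d| ≤ 4 * a * r ^ 2 := by
    have h1 : |a * v - 2 * a * d| ≤ |a * v| + |2 * a * d| := abs_sub _ _
    rw [abs_mul, abs_mul, abs_of_pos ha, abs_of_pos (by positivity : 0 < 2 * a)] at h1
    nlinarith
  have hm2 : |4 * a * u + a * v - 2 * a * d| ≤ 8 * a * r := by
    have h1 : 4 * a * u + a * v - 2 * a * d = 4 * a * u + (a * v - 2 * a * d) := by ring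
    rw [h1]
    refine (abs_add_le _ _).trans ?_
    rw [abs_mul, abs_of_pos (by positivity : 0 < 4 * a)]
    nlinarith
  have hLb : |L| ≤ 6 * a * r := by
    have h1 : L = 2 * a * u + (a * v - 2 * a * d) := by rw [hLe]; ring
    rw [h1]
    refine (abs_add_le _ _).trans ?_
    rw [abs_mul, abs_of_pos (by positivity : 0 < 2 * a)]
    nlinarith
  have hQ := exp_rem L
  have hQ2 : |L| ^ 3 * Real.exp |L| ≤ (6 * a) ^ 3 * Real.exp (6 * a) * r ^ 3 := by
    have h1 : |L| ^ 3 ≤ (6 * a * r) ^ 3 := pow_le_pow_left₀ (abs_nonneg _) hLb 3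
    have h2 : Real.exp |L| ≤ Real.exp (6 * a) := Real.exp_le_exp.2 (hLb.trans (by nlinarith))
    calc |L| ^ 3 * Real.exp |L| ≤ (6 * a * r) ^ 3 * Real.exp (6 * a) :=
          mul_le_mul h1 h2 (Real.exp_pos _).le (by positivity)
      _ = _ := by ring
  have hprod : |(a * v - 2 * a * d) * (4 * a * u + a * v - 2 * a * d) / 2| ≤ 16 * a ^ 2 * r ^ 3 := by
    rw [abs_div, abs_mul, abs_of_pos (by norm_num : (0:ℝ) < 2)]
    have : |a * v - 2 * a * d| * |4 * a * u + a * v - 2 * a * d| ≤ (4 * a * r ^ 2) * (8 * a * r) :=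
      mul_le_mul hm1 hm2 (abs_nonneg _) (by positivity)
    nlinarith
  have key : Real.exp L - (1 + 2 * a * u + (a + a ^ 2) * v + a ^ 2 * r ^ 2) =
      (Real.exp L - (1 + L + L ^ 2 / 2)) +
        (a * v - 2 * a * d) * (4 * a * u + a * v - 2 * a * d) / 2 + (-(2 * a * d)) := by
    have h1 : a ^ 2 * r ^ 2 + a ^ 2 * v = 2 * a ^ 2 * u ^ 2 := by rw [hu2]; ring
    have h2 : (a * v - 2 * a * d) * (4 * a * u + a * v - 2 * a * d) / 2 =
        L ^ 2 / 2 - 2 * a ^ 2 * u ^ 2 := by rw [hLe]; ring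
    rw [h2, ← h1, hLe]; ring
  rw [key]
  have h3 : |-(2 * a * d)| ≤ 8 * a / 3 * r ^ 3 := by
    rw [abs_neg, abs_mul, abs_of_pos (by positivity : 0 < 2 * a)]
    nlinarith
  have h4 := abs_add_three (Real.exp L - (1 + L + L ^ 2 / 2))
    ((a * v - 2 * a * d) * (4 * a * u + a * v - 2 * a * d) / 2) (-(2 * a * d))
  unfold C1
  nlinarith

lemma C1_pos (a : ℝ) (ha : 0 < a) : 0 < C1 a := by unfold C1; positivity

/-- `p^(-1/2)` -/
noncomputable def rp (p : ℕ) : ℝ := (p:ℝ) ^ (-(1 / 2 : ℝ))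

lemma rp_pos {p : ℕ} (hp : p.Prime) : 0 < rp p := by
  have : (0:ℝ) < p := by exact_mod_cast hp.pos
  unfold rp; positivity

lemma rp_sq {p : ℕ} (hp : p.Prime) : rp p ^ 2 = 1 / (p:ℝ) := by
  have : (0:ℝ) < p := by exact_mod_cast hp.pos
  unfold rp
  rw [← Real.rpow_natCast, ← Real.rpow_mul this.le]
  norm_num
  rw [Real.rpow_neg_one]

lemma rp_cube {p : ℕ} (hp : p.Prime) : rp p ^ 3 = (p:ℝ) ^ (-(3 / 2) : ℝ) := by
  have : (0:ℝ) < p := by exact_mod_cast hp.pos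
  unfold rp
  rw [← Real.rpow_natCast, ← Real.rpow_mul this.le]
  norm_num

lemma rp_le {p : ℕ} (hp : p.Prime) : rp p ≤ 3 / 4 := by
  have h1 := rp_sq hp
  have h2 : 1 / (p:ℝ) ≤ 1 / 2 := by
    apply one_div_le_one_div_of_le (by norm_num)
    exact_mod_cast hp.two_le
  refine le_of_sq_le_sq ?_ (by norm_num)
  nlinarith

/-- the variable -/
noncomputable def wv (p : ℕ) (y : UnitAddCircle) : ℂ := (fourier 1 y : ℂ) * ((rp p : ℝ) : ℂ)

lemma wv_norm {p : ℕ} (hp : p.Prime) (y : UnitAddCircle) : ‖wv p y‖ = rp p := by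
  unfold wv
  rw [norm_mul, norm_real, Real.norm_of_nonneg (rp_pos hp).le, fourier_apply, Circle.norm_coe, one_mul]

lemma wv_sq (p : ℕ) (y : UnitAddCircle) : wv p y ^ 2 = (fourier 2 y : ℂ) * ((rp p ^ 2 : ℝ) : ℂ) := by
  unfold wv
  have : (fourier 2 y : ℂ) = fourier 1 y * fourier 1 y := by
    rw [← fourier_add]; norm_num
  rw [this]; push_cast; ring

lemma lw_eq (a : ℝ) (p : ℕ) (y : UnitAddCircle) : lw a p y = -(2 * a) * Real.log ‖1 - wv p y‖ := rfl

lemma ne_wv {p : ℕ} (hp : p.Prime) (y : UnitAddCircle) : 1 - wv p y ≠ 0 := by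
  intro h
  have h1 : wv p y = 1 := (sub_eq_zero.1 h).symm
  have h2 := wv_norm hp y
  rw [h1, norm_one] at h2
  have := rp_le hp
  linarith

lemma wv_cont (p : ℕ) : Continuous (wv p) := by
  unfold wv
  exact (map_continuous (fourier 1)).mul continuous_const

lemma lw_cont (a : ℝ) {p : ℕ} (hp : p.Prime) : Continuous (lw a p) := by
  have h : lw a p = fun y => -(2 * a) * Real.log ‖1 - wv p y‖ := rfl
  rw [h]
  refine continuous_const.mul (Continuous.log ?_ fun y => norm_ne_zero_iff.2 (ne_wv hp y))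
  exact (continuous_const.sub (wv_cont p)).norm

lemma cint {E : Type*} [NormedAddCommGroup E] {f : UnitAddCircle → E} (hf : Continuous f) :
    Integrable f (AddCircle.haarAddCircle (T := 1)) :=
  hf.integrable_of_hasCompactSupport (HasCompactSupport.of_compactSpace _)

lemma int_fourier (n : ℤ) (hn : n ≠ 0) :
    ∫ y, fourier n y ∂(AddCircle.haarAddCircle (T := (1:ℝ))) = 0 :=
  integral_eq_zero_of_add_right_eq_neg (μ := AddCircle.haarAddCircle)
    (fourier_add_half_inv_index hn (by norm_num))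

lemma int_re (n : ℤ) (hn : n ≠ 0) (c : ℝ) :
    ∫ y, ((fourier n y : ℂ) * (c : ℂ)).re ∂(AddCircle.haarAddCircle (T := (1:ℝ))) = 0 := by
  have hc : Continuous fun y : UnitAddCircle => (fourier n y : ℂ) * (c : ℂ) :=
    (map_continuous (fourier n)).mul continuous_const
  have h := Complex.reCLM.integral_comp_comm (cint hc)
  simp only [Complex.reCLM_apply] at h
  rw [h, integral_mul_const, int_fourier n hn, zero_mul, Complex.zero_re]

/-- the local factor -/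
noncomputable def ee (a : ℝ) (p : ℕ) : ℝ := ∫ y, Real.exp (lw a p y) ∂(AddCircle.haarAddCircle (T := (1:ℝ)))

lemma ee_est (a : ℝ) (ha : 0 < a) {p : ℕ} (hp : p.Prime) :
    |ee a p - (1 + a ^ 2 * rp p ^ 2)| ≤ C1 a * rp p ^ 3 := by
  have h1 : Integrable (fun y => Real.exp (lw a p y)) (AddCircle.haarAddCircle (T := (1:ℝ))) :=
    cint (Real.continuous_exp.comp (lw_cont a hp))
  have hg : Continuous fun y : UnitAddCircle =>
      (1 + 2 * a * (wv p y).re + (a + a ^ 2) * (wv p y ^ 2).re + a ^ 2 * rp p ^ 2) := by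
    have := wv_cont p
    fun_prop
  have h2 : ∫ y, (1 + 2 * a * (wv p y).re + (a + a ^ 2) * (wv p y ^ 2).re + a ^ 2 * rp p ^ 2)
      ∂(AddCircle.haarAddCircle (T := (1:ℝ))) = 1 + a ^ 2 * rp p ^ 2 := by
    have e1 : (fun y : UnitAddCircle =>
        (1 + 2 * a * (wv p y).re + (a + a ^ 2) * (wv p y ^ 2).re + a ^ 2 * rp p ^ 2)) =
        fun y => (1 + a ^ 2 * rp p ^ 2) + (2 * a * ((fourier 1 y : ℂ) * ((rp p : ℝ) : ℂ)).re +
          (a + a ^ 2) * ((fourier 2 y : ℂ) * ((rp p ^ 2 : ℝ) : ℂ)).re) := by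
      funext y
      rw [wv_sq]
      unfold wv
      ring
    have c1 : Continuous fun y : UnitAddCircle => 2 * a * ((fourier 1 y : ℂ) * ((rp p : ℝ) : ℂ)).re := by
      have := map_continuous (fourier (T := 1) 1)
      fun_prop
    have c2 : Continuous fun y : UnitAddCircle =>
        (a + a ^ 2) * ((fourier 2 y : ℂ) * ((rp p ^ 2 : ℝ) : ℂ)).re := by
      have := map_continuous (fourier (T := 1) 2)
      fun_prop
    have c12 : Integrable (fun y : UnitAddCircle => 2 * a * ((fourier 1 y : ℂ) * ((rp p : ℝ) : ℂ)).re +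
        (a + a ^ 2) * ((fourier 2 y : ℂ) * ((rp p ^ 2 : ℝ) : ℂ)).re)
        (AddCircle.haarAddCircle (T := (1:ℝ))) := cint (c1.add c2)
    rw [e1, integral_add (integrable_const _) c12, integral_add (cint c1) (cint c2),
      integral_const_mul, integral_const_mul, int_re 1 (by norm_num), int_re 2 (by norm_num)]
    simp
  rw [← h2]
  unfold ee
  rw [← integral_sub h1 (cint hg), ← Real.norm_eq_abs]
  refine (norm_integral_le_of_norm_le_const (C := C1 a * rp p ^ 3)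
    (Eventually.of_forall fun y => ?_)).trans ?_
  · rw [Real.norm_eq_abs, lw_eq]
    exact pt_est a ha (wv p y) (rp p) (wv_norm hp y) (rp_le hp)
  · simp

lemma ee_low (a : ℝ) (ha : 0 < a) {p : ℕ} (hp : p.Prime) : Real.exp (-(2 * a)) ≤ ee a p := by
  have h1 : Integrable (fun y => Real.exp (lw a p y)) (AddCircle.haarAddCircle (T := (1:ℝ))) :=
    cint (Real.continuous_exp.comp (lw_cont a hp))
  have h2 : ∫ _y : UnitAddCircle, Real.exp (-(2 * a)) ∂(AddCircle.haarAddCircle (T := (1:ℝ))) =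
      Real.exp (-(2 * a)) := by simp
  rw [← h2]
  refine integral_mono (integrable_const _) h1 fun y => ?_
  refine Real.exp_le_exp.2 ?_
  rw [lw_eq]
  have h3 : Real.log ‖1 - wv p y‖ ≤ 1 := by
    have h4 : ‖1 - wv p y‖ ≤ 2 := by
      refine (norm_sub_le _ _).trans ?_
      rw [norm_one, wv_norm hp]
      linarith [rp_le hp]
    have h5 := Real.log_le_sub_one_of_pos (norm_pos_iff.2 (ne_wv hp y))
    linarith
  nlinarith

lemma one_add_ge {x : ℝ} (hx : -(1 / 2) ≤ x) : Real.exp (x - 2 * x ^ 2) ≤ 1 + x := by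
  have h0 : 0 < 1 + x := by linarith
  rw [← Real.le_log_iff_exp_le h0]
  refine le_trans ?_ (Real.one_sub_inv_le_log_of_pos h0)
  have h1 : 1 - (1 + x)⁻¹ - (x - 2 * x ^ 2) = x ^ 2 * (1 + 2 * x) / (1 + x) := by
    field_simp
    ring
  have h2 : 0 ≤ x ^ 2 * (1 + 2 * x) / (1 + x) :=
    div_nonneg (mul_nonneg (sq_nonneg _) (by linarith)) h0.le
  linarith

/-- the constant of the lower bound -/
noncomputable def C2 (a : ℝ) : ℝ := C1 a + 2 * (a ^ 2 + C1 a) ^ 2 + 2 * C1 a * (a ^ 2 + 2 * a)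

lemma C2_pos (a : ℝ) (ha : 0 < a) : 0 < C2 a := by
  have := C1_pos a ha
  unfold C2; positivity

lemma ee_up (a : ℝ) (ha : 0 < a) {p : ℕ} (hp : p.Prime) :
    ee a p ≤ Real.exp (a ^ 2 * rp p ^ 2 + C1 a * rp p ^ 3) := by
  have h1 := ee_est a ha hp
  rw [abs_le] at h1
  have h2 := Real.add_one_le_exp (a ^ 2 * rp p ^ 2 + C1 a * rp p ^ 3)
  linarith [h1.2]

lemma ee_down (a : ℝ) (ha : 0 < a) {p : ℕ} (hp : p.Prime) :
    Real.exp (a ^ 2 * rp p ^ 2 - C2 a * rp p ^ 3) ≤ ee a p := by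
  have h1 := ee_est a ha hp
  rw [abs_le] at h1
  have hr := rp_pos hp
  have hr1 := rp_le hp
  have hC := C1_pos a ha
  set r := rp p with hrdef
  have hr3 : 0 < r ^ 3 := by positivity
  have hr2 : 0 < r ^ 2 := by positivity
  have hr32 : r ^ 3 ≤ r ^ 2 := by nlinarith
  have hr43 : r ^ 4 ≤ r ^ 3 := by nlinarith
  by_cases hc : C1 a * r ^ 3 ≤ 1 / 2
  · set x := a ^ 2 * r ^ 2 - C1 a * r ^ 3 with hx
    have hx1 : -(1 / 2) ≤ x := by
      have : 0 ≤ a ^ 2 * r ^ 2 := by positivity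
      rw [hx]; linarith
    have h3 := one_add_ge hx1
    have h4 : x ^ 2 ≤ (a ^ 2 + C1 a) ^ 2 * r ^ 3 := by
      have hxa : |x| ≤ (a ^ 2 + C1 a) * r ^ 2 := by
        rw [hx, abs_le]
        constructor
        · nlinarith [mul_pos hC hr3, mul_pos hC hr2, mul_nonneg (sq_nonneg a) hr2.le]
        · nlinarith [mul_pos hC hr3, mul_pos hC hr2]
      calc x ^ 2 = |x| ^ 2 := (sq_abs x).symm
        _ ≤ ((a ^ 2 + C1 a) * r ^ 2) ^ 2 := pow_le_pow_left₀ (abs_nonneg _) hxa 2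
        _ = (a ^ 2 + C1 a) ^ 2 * r ^ 4 := by ring
        _ ≤ _ := mul_le_mul_of_nonneg_left hr43 (by positivity)
    have h5 : a ^ 2 * r ^ 2 - C2 a * r ^ 3 ≤ x - 2 * x ^ 2 := by
      have h6 : C2 a * r ^ 3 = C1 a * r ^ 3 + 2 * ((a ^ 2 + C1 a) ^ 2 * r ^ 3) +
          2 * C1 a * (a ^ 2 + 2 * a) * r ^ 3 := by unfold C2; ring
      have h7 : 0 ≤ 2 * C1 a * (a ^ 2 + 2 * a) * r ^ 3 := by positivity
      rw [h6, hx]
      rw [hx] at h4
      linarith
    refine (Real.exp_le_exp.2 h5).trans (h3.trans ?_)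
    rw [hx]; linarith [h1.1]
  · push Not at hc
    refine le_trans (Real.exp_le_exp.2 ?_) (ee_low a ha hp)
    have h6 : 2 * C1 a * (a ^ 2 + 2 * a) * r ^ 3 ≤ C2 a * r ^ 3 := by
      have : C2 a * r ^ 3 = C1 a * r ^ 3 + 2 * ((a ^ 2 + C1 a) ^ 2 * r ^ 3) +
          2 * C1 a * (a ^ 2 + 2 * a) * r ^ 3 := by unfold C2; ring
      rw [this]
      have h8 : 0 ≤ C1 a * r ^ 3 := by positivity
      have h9 : 0 ≤ 2 * ((a ^ 2 + C1 a) ^ 2 * r ^ 3) := by positivity
      linarith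
    have h7 : a ^ 2 + 2 * a ≤ 2 * C1 a * (a ^ 2 + 2 * a) * r ^ 3 := by
      have : 0 < a ^ 2 + 2 * a := by positivity
      nlinarith
    have h8 : a ^ 2 * r ^ 2 ≤ a ^ 2 := by
      have : r ^ 2 ≤ 1 := by nlinarith
      nlinarith [sq_nonneg a]
    linarith

/-- the sum of the `1/p` -/
noncomputable def S1 (z : ℕ) : ℝ := ∑ p : Sm z, rp p ^ 2

/-- the sum of the `p^(-3/2)` -/
noncomputable def S2 (z : ℕ) : ℝ := ∑ p : Sm z, rp p ^ 3

lemma Sm_prime {z : ℕ} (p : Sm z) : (p : ℕ).Prime := (Finset.mem_filter.1 p.2).2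

lemma E0_up (a : ℝ) (ha : 0 < a) (z : ℕ) : E0 a (Sm z) ≤ Real.exp (a ^ 2 * S1 z + C1 a * S2 z) := by
  have h : E0 a (Sm z) = ∏ p : Sm z, ee a p := rfl
  rw [h]
  refine (Finset.prod_le_prod (fun p _ => ((Real.exp_pos _).le.trans (ee_low a ha (Sm_prime p))))
    fun p _ => ee_up a ha (Sm_prime p)).trans ?_
  rw [← Real.exp_sum, Finset.sum_add_distrib, ← Finset.mul_sum, ← Finset.mul_sum]
  rfl

lemma E0_down (a : ℝ) (ha : 0 < a) (z : ℕ) : Real.exp (a ^ 2 * S1 z - C2 a * S2 z) ≤ E0 a (Sm z) := by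
  have h : E0 a (Sm z) = ∏ p : Sm z, ee a p := rfl
  rw [h]
  refine le_trans ?_ (Finset.prod_le_prod (fun p _ => (Real.exp_pos _).le)
    fun p _ => ee_down a ha (Sm_prime p))
  rw [← Real.exp_sum, Finset.sum_sub_distrib, ← Finset.mul_sum, ← Finset.mul_sum]
  rfl

lemma S2_le : ∃ K : ℝ, 0 ≤ K ∧ ∀ z : ℕ, S2 z ≤ K := by
  have hs : Summable fun n : ℕ => (n : ℝ) ^ (-(3 / 2) : ℝ) :=
    Real.summable_nat_rpow.2 (by norm_num)
  refine ⟨∑' n : ℕ, (n : ℝ) ^ (-(3 / 2) : ℝ), tsum_nonneg fun n => by positivity, fun z => ?_⟩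
  have h1 : S2 z = ∑ p ∈ Sm z, ((p : ℕ) : ℝ) ^ (-(3 / 2) : ℝ) := by
    unfold S2
    rw [← Finset.sum_coe_sort (Sm z) (fun p : ℕ => (p : ℝ) ^ (-(3 / 2) : ℝ))]
    exact Finset.sum_congr rfl fun p _ => rp_cube (Sm_prime p)
  rw [h1]
  exact hs.sum_le_tsum _ fun n _ => by positivity

lemma S1_le (h : S_MER) : ∃ K : ℝ, 0 ≤ K ∧ ∀ z : ℕ, 3 ≤ z → S1 z ≤ Real.log (Real.log z) + K := by
  obtain ⟨C, hC, hM⟩ := h
  have hl2 : 0 < Real.log 2 := Real.log_pos (by norm_num)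
  refine ⟨C / Real.log 2 + |Real.log (Real.log 2)|, by positivity, fun z hz => ?_⟩
  have h1 : S1 z = ∑ p ∈ (Icc 2 ⌊((z - 1 : ℕ) : ℝ)⌋₊).filter Nat.Prime, 1 / (p:ℝ) := by
    have hset : (Icc 2 ⌊((z - 1 : ℕ) : ℝ)⌋₊).filter Nat.Prime = Sm z := by
      rw [Nat.floor_natCast]
      ext p
      simp only [Sm, Finset.mem_filter, Finset.mem_Icc, Finset.mem_range]
      constructor
      · rintro ⟨⟨h1, h2⟩, h3⟩
        exact ⟨by omega, h3⟩
      · rintro ⟨h1, h3⟩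
        exact ⟨⟨h3.two_le, by omega⟩, h3⟩
    rw [hset]
    unfold S1
    rw [← Finset.sum_coe_sort (Sm z) (fun p : ℕ => 1 / (p : ℝ))]
    exact Finset.sum_congr rfl fun p _ => rp_sq (Sm_prime p)
  have hz1 : ((2 : ℕ) : ℝ) ≤ ((z - 1 : ℕ) : ℝ) := by exact_mod_cast (by omega : 2 ≤ z - 1)
  have h2 := hM 2 ((z - 1 : ℕ) : ℝ) le_rfl hz1
  rw [← h1, abs_le] at h2
  have h2' := h2.2
  push_cast at h2' hz1
  have hpos : 0 < Real.log ((z - 1 : ℕ) : ℝ) := Real.log_pos (by linarith)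
  rw [Real.log_div hpos.ne' hl2.ne'] at h2'
  have h3 : Real.log (Real.log ((z - 1 : ℕ) : ℝ)) ≤ Real.log (Real.log z) := by
    refine Real.log_le_log hpos (Real.log_le_log (by linarith) ?_)
    exact_mod_cast Nat.sub_le z 1
  have h4 := neg_abs_le (Real.log (Real.log 2))
  linarith

lemma lw_smul (s a : ℝ) (p : ℕ) (y : UnitAddCircle) : s * lw a p y = lw (s * a) p y := by
  unfold lw; ring

theorem main (h : S_MER) : S_MOM := by
  intro a ha _ s hs _
  obtain ⟨K1, hK1, hS1⟩ := S1_le h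
  obtain ⟨K2, hK2, hS2⟩ := S2_le
  have hs0 : 0 < s := by linarith
  have hsa : 0 < s * a := by positivity
  refine ⟨Real.exp (a ^ 2 * s * (s - 1) * K1 + (C1 (s * a) + s * C2 a) * K2), Real.exp_pos _,
    fun z hz => ?_⟩
  have hE : 0 < E0 a (Sm z) := (Real.exp_pos _).trans_le (E0_down a ha z)
  have e1 : ∀ x : UnitAddTorus (Sm z), M0 a (Sm z) x ^ s =
      (∏ p : Sm z, Real.exp (lw (s * a) p (x p))) / E0 a (Sm z) ^ s := by
    intro x
    unfold M0
    rw [Real.div_rpow (Real.exp_pos _).le hE.le, ← Real.exp_mul, ← Real.exp_sum, Finset.sum_mul]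
    congr 2
    exact Finset.sum_congr rfl fun p _ => by rw [← lw_smul]; ring
  have e2 : ∫ x, M0 a (Sm z) x ^ s ∂(HP (Sm z)) = E0 (s * a) (Sm z) / E0 a (Sm z) ^ s := by
    simp_rw [e1]
    rw [integral_div]
    congr 1
    unfold HP
    rw [integral_fintype_prod_eq_prod (fun (p : Sm z) (y : UnitAddCircle) => Real.exp (lw (s * a) p y))]
    rfl
  rw [e2, div_le_iff₀ (by positivity)]
  have hlz : 0 < Real.log z := Real.log_pos (by exact_mod_cast (by omega : 1 < z))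
  have h1 := E0_up (s * a) hsa z
  have h2 : Real.exp (s * (a ^ 2 * S1 z - C2 a * S2 z)) ≤ E0 a (Sm z) ^ s := by
    have := Real.rpow_le_rpow (Real.exp_pos _).le (E0_down a ha z) hs0.le
    rwa [← Real.exp_mul, mul_comm _ s] at this
  refine h1.trans ?_
  have h3 : Real.log z ^ (a ^ 2 * s * (s - 1)) = Real.exp (Real.log (Real.log z) * (a ^ 2 * s * (s - 1))) :=
    Real.rpow_def_of_pos hlz _
  refine le_trans ?_ (mul_le_mul_of_nonneg_left h2 (by positivity))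
  rw [h3, ← Real.exp_add, ← Real.exp_add]
  refine Real.exp_le_exp.2 ?_
  have h4 := hS1 z hz
  have h5 := hS2 z
  have h6 : 0 ≤ a ^ 2 * s * (s - 1) := mul_nonneg (by positivity) (by linarith)
  have h7 : a ^ 2 * s * (s - 1) * S1 z ≤ a ^ 2 * s * (s - 1) * (Real.log (Real.log z) + K1) :=
    mul_le_mul_of_nonneg_left h4 h6
  have h8 : (C1 (s * a) + s * C2 a) * S2 z ≤ (C1 (s * a) + s * C2 a) * K2 :=
    mul_le_mul_of_nonneg_left h5 (by
      have := C1_pos (s * a) hsa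
      have := C2_pos a ha
      positivity)
  nlinarith

end Pool.Agent.N748.GC.MOM
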