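import Pool.Agent.N748.GC.Stm

set_option autoImplicit false

/-!
# The weighted norm square of complex Dirichlet polynomials
-/

namespace Pool.Agent.N748.GC.NN

open Finset MonoidAlgebra

lemma wd_nonneg (δ : ℝ) (n : ℕ) : 0 ≤ wd δ n := by
  unfold wd
  positivity

lemma wd_mul (δ : ℝ) (m n : ℕ) : wd δ (m * n) = wd δ m * wd δ n := by
  unfold wd
  rw [Nat.cast_mul, Real.mul_rpow (Nat.cast_nonneg m) (Nat.cast_nonneg n), one_div, one_div, one_div,
    mul_inv]
  ring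

/-- the norm square is the sum over any larger finite set -/
lemma nn_eq (δ : ℝ) (f : PC) {s : Finset ℕ} (hs : f.coeff.support ⊆ s) :
    nn δ f = ∑ n ∈ s, ‖f.coeff n‖ ^ 2 * wd δ n := by
  unfold nn
  refine sum_subset hs fun n _ hn => ?_
  rw [Finsupp.notMem_support_iff.mp hn, norm_zero]
  ring

lemma nn_nonneg (δ : ℝ) (f : PC) : 0 ≤ nn δ f :=
  sum_nonneg fun n _ => mul_nonneg (sq_nonneg _) (wd_nonneg δ n)

lemma nn_mono (δ : ℝ) {f g : PC} (h : ∀ n, ‖f.coeff n‖ ≤ ‖g.coeff n‖) : nn δ f ≤ nn δ g := by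
  classical
  rw [nn_eq δ f (subset_union_left (s₂ := g.coeff.support)),
    nn_eq δ g (subset_union_right (s₁ := f.coeff.support))]
  refine sum_le_sum fun n _ => mul_le_mul_of_nonneg_right ?_ (wd_nonneg δ n)
  exact pow_le_pow_left₀ (norm_nonneg _) (h n) 2

lemma nn_add_of_disjoint (δ : ℝ) {f g : PC} (h : Disjoint f.coeff.support g.coeff.support) :
    nn δ (f + g) = nn δ f + nn δ g := by
  classical
  have h1 : (f + g).coeff.support ⊆ f.coeff.support ∪ g.coeff.support := by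
    rw [coeff_add]
    exact Finsupp.support_add
  rw [nn_eq δ (f + g) h1, nn_eq δ f (subset_union_left (s₂ := g.coeff.support)),
    nn_eq δ g (subset_union_right (s₁ := f.coeff.support)), ← sum_add_distrib]
  refine sum_congr rfl fun n _ => ?_
  rw [coeff_add, Finsupp.add_apply]
  by_cases hn : n ∈ f.coeff.support
  · have h2 : g.coeff n = 0 := Finsupp.notMem_support_iff.mp (disjoint_left.1 h hn)
    rw [h2, add_zero, norm_zero]
    ring
  · have h2 : f.coeff n = 0 := Finsupp.notMem_support_iff.mp hn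
    rw [h2, zero_add, norm_zero]
    ring

lemma nn_smul (δ : ℝ) (c : ℂ) (f : PC) : nn δ (c • f) = ‖c‖ ^ 2 * nn δ f := by
  have h1 : (c • f).coeff.support ⊆ f.coeff.support := by
    rw [coeff_smul]
    exact Finsupp.support_smul
  rw [nn_eq δ (c • f) h1, nn_eq δ f (subset_refl _), mul_sum]
  refine sum_congr rfl fun n _ => ?_
  rw [coeff_smul, Finsupp.smul_apply, norm_smul, mul_pow, mul_assoc]

lemma nn_zero (δ : ℝ) : nn δ (0 : PC) = 0 := by
  rw [nn_eq δ (0 : PC) (s := ∅) (by simp)]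
  simp

lemma nn_single (δ : ℝ) (n : ℕ) (c : ℂ) : nn δ (single n c) = ‖c‖ ^ 2 * wd δ n := by
  have h1 : (single n c : PC).coeff.support ⊆ {n} := by
    rw [coeff_single]
    exact Finsupp.support_single_subset
  rw [nn_eq δ _ h1, sum_singleton, coeff_single, Finsupp.single_eq_same]

/-- Minkowski's inequality -/
lemma sqrt_nn_add (δ : ℝ) (f g : PC) :
    Real.sqrt (nn δ (f + g)) ≤ Real.sqrt (nn δ f) + Real.sqrt (nn δ g) := by
  classical
  set s := f.coeff.support ∪ g.coeff.support with hs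
  have h1 : (f + g).coeff.support ⊆ s := by
    rw [coeff_add]
    exact Finsupp.support_add
  have e1 := nn_eq δ (f + g) h1
  have e2 := nn_eq δ f (subset_union_left (s₂ := g.coeff.support))
  have e3 := nn_eq δ g (subset_union_right (s₁ := f.coeff.support))
  rw [← hs] at e2 e3
  have hcs := sum_mul_sq_le_sq_mul_sq s (fun n => ‖f.coeff n‖ * Real.sqrt (wd δ n))
    (fun n => ‖g.coeff n‖ * Real.sqrt (wd δ n))
  have e4 : ∑ n ∈ s, (‖f.coeff n‖ * Real.sqrt (wd δ n)) ^ 2 = nn δ f := by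
    rw [e2]
    refine sum_congr rfl fun n _ => ?_
    rw [mul_pow, Real.sq_sqrt (wd_nonneg δ n)]
  have e5 : ∑ n ∈ s, (‖g.coeff n‖ * Real.sqrt (wd δ n)) ^ 2 = nn δ g := by
    rw [e3]
    refine sum_congr rfl fun n _ => ?_
    rw [mul_pow, Real.sq_sqrt (wd_nonneg δ n)]
  rw [e4, e5] at hcs
  have e6 : ∑ n ∈ s, ‖f.coeff n‖ * Real.sqrt (wd δ n) * (‖g.coeff n‖ * Real.sqrt (wd δ n)) =
      ∑ n ∈ s, ‖f.coeff n‖ * ‖g.coeff n‖ * wd δ n := by
    refine sum_congr rfl fun n _ => ?_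
    have := Real.mul_self_sqrt (wd_nonneg δ n)
    calc _ = ‖f.coeff n‖ * ‖g.coeff n‖ * (Real.sqrt (wd δ n) * Real.sqrt (wd δ n)) := by ring
      _ = _ := by rw [this]
  rw [e6] at hcs
  have h2 : ∑ n ∈ s, ‖f.coeff n‖ * ‖g.coeff n‖ * wd δ n ≤ Real.sqrt (nn δ f) * Real.sqrt (nn δ g) := by
    rw [← Real.sqrt_mul (nn_nonneg δ f)]
    exact Real.le_sqrt_of_sq_le hcs
  have h3 : nn δ (f + g) ≤ nn δ f + 2 * (∑ n ∈ s, ‖f.coeff n‖ * ‖g.coeff n‖ * wd δ n) + nn δ g := by
    rw [e1, e2, e3, mul_sum, ← sum_add_distrib, ← sum_add_distrib]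
    refine sum_le_sum fun n _ => ?_
    have h4 : ‖(f + g).coeff n‖ ^ 2 ≤ (‖f.coeff n‖ + ‖g.coeff n‖) ^ 2 := by
      refine pow_le_pow_left₀ (norm_nonneg _) ?_ 2
      rw [coeff_add, Finsupp.add_apply]
      exact norm_add_le _ _
    have h5 := mul_le_mul_of_nonneg_right h4 (wd_nonneg δ n)
    linarith [h5]
  refine Real.sqrt_le_iff.2 ⟨by positivity, ?_⟩
  have h6 := Real.sq_sqrt (nn_nonneg δ f)
  have h7 := Real.sq_sqrt (nn_nonneg δ g)
  nlinarith [h2, h3, h6, h7]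

/-- the finite version of Minkowski's inequality -/
lemma sqrt_nn_sum {ι : Type*} (δ : ℝ) (s : Finset ι) (f : ι → PC) :
    Real.sqrt (nn δ (∑ i ∈ s, f i)) ≤ ∑ i ∈ s, Real.sqrt (nn δ (f i)) := by
  classical
  induction s using Finset.induction_on with
  | empty => simp [nn_zero]
  | insert i s hi ih =>
    rw [sum_insert hi, sum_insert hi]
    exact (sqrt_nn_add δ _ _).trans (by linarith)

lemma Mo_coprime {I J : Finset ℕ} (hIJ : Disjoint I J) {a b : ℕ} (ha : Mo I a) (hb : Mo J b) :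
    a.Coprime b := by
  refine Nat.Coprime.symm (Nat.coprime_of_dvd fun p hp h1 h2 => ?_)
  exact disjoint_left.1 hIJ (ha.2 p hp h2) (hb.2 p hp h1)

lemma Mo_unique {I J : Finset ℕ} (hIJ : Disjoint I J) {a b c d : ℕ} (ha : Mo I a) (hb : Mo J b)
    (hc : Mo I c) (hd : Mo J d) (h : a * b = c * d) : a = c ∧ b = d := by
  have h1 : a ∣ c := (Mo_coprime hIJ ha hd).dvd_of_dvd_mul_right (h ▸ dvd_mul_right a b)
  have h2 : c ∣ a := (Mo_coprime hIJ hc hb).dvd_of_dvd_mul_right (h ▸ dvd_mul_right c d)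
  have h3 := Nat.dvd_antisymm h1 h2
  refine ⟨h3, ?_⟩
  subst h3
  exact Nat.eq_of_mul_eq_mul_left (Nat.pos_of_ne_zero ha.1) h

/-- the norm square is multiplicative on coprime polynomials -/
theorem main : S_NN := by
  classical
  intro δ I J hIJ f g hf hg
  set S := f.coeff.support with hS
  set R := g.coeff.support with hR
  have hinj : Set.InjOn (fun x : ℕ × ℕ => x.1 * x.2) (S ×ˢ R : Finset (ℕ × ℕ)) := by
    intro x hx y hy hxy
    have hx' := mem_product.1 (mem_coe.1 hx)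
    have hy' := mem_product.1 (mem_coe.1 hy)
    obtain ⟨h1, h2⟩ := Mo_unique hIJ (hf _ hx'.1) (hg _ hx'.2) (hf _ hy'.1) (hg _ hy'.2) hxy
    exact Prod.ext h1 h2
  have hsub : (f * g).coeff.support ⊆ (S ×ˢ R).image (fun x : ℕ × ℕ => x.1 * x.2) := by
    intro n hn
    have h1 := support_coeff_mul_subset f g hn
    obtain ⟨a, ha, b, hb, hab⟩ := Finset.mem_mul.1 h1
    exact mem_image.2 ⟨(a, b), mem_product.2 ⟨ha, hb⟩, hab⟩
  rw [nn_eq δ (f * g) hsub, sum_image hinj, sum_product]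
  unfold nn
  rw [sum_mul_sum]
  refine sum_congr rfl fun a ha => sum_congr rfl fun b hb => ?_
  have hu : UniqueMul S R a b := by
    intro a' b' ha' hb' h
    exact Mo_unique hIJ (hf _ ha') (hg _ hb') (hf _ ha) (hg _ hb) h
  have hco : (f * g).coeff (a * b) = f.coeff a * g.coeff b := coeff_mul_mul_of_uniqueMul hu
  show ‖(f * g).coeff (a * b)‖ ^ 2 * wd δ (a * b) = _
  rw [hco, wd_mul, norm_mul]
  ring

end Pool.Agent.N748.GC.NN
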