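import Pool.Agent.N748.GC.L1
import Pool.Agent.N748.GC.NN
import Pool.Agent.N748.GC.BLK

set_option autoImplicit false

/-!
# The mean squares of products over the blocks at two points
-/

namespace Pool.Agent.N748.GC.NNB

open Finset MonoidAlgebra

lemma IB_prime {z : ℕ} {y : ℝ} {i p : ℕ} (hp : p ∈ IB z y i) : p.Prime := by
  unfold IB at hp
  exact (mem_filter.1 (mem_filter.1 hp).1).2.1

lemma be_pos (y : ℝ) (i : ℕ) : 0 < be y i := Real.exp_pos _

lemma IB_le {z : ℕ} {y : ℝ} {i p : ℕ} (hp : p ∈ IB z y i) : (p:ℝ) ≤ be y i := by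
  unfold IB at hp
  have h := (mem_Icc.1 (mem_filter.1 (mem_filter.1 hp).1).1).2
  exact (Nat.le_floor_iff (be_pos y i).le).1 h

lemma IB_lt {z : ℕ} {y : ℝ} {i p : ℕ} (hp : p ∈ IB z y i) : be y (i + 1) < (p:ℝ) := by
  unfold IB at hp
  exact (mem_filter.1 (mem_filter.1 hp).1).2.2.2

lemma be_anti {y : ℝ} (hy : 1 ≤ y) {i j : ℕ} (hij : i ≤ j) : be y j ≤ be y i := by
  unfold be
  refine Real.exp_le_exp.2 (mul_le_mul_of_nonneg_left ?_ (Real.log_nonneg hy))
  exact pow_le_pow_of_le_one (by norm_num) (by norm_num) hij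

lemma IB_disj (z : ℕ) {y : ℝ} (hy : 1 ≤ y) {i j : ℕ} (hij : i < j) :
    Disjoint (IB z y i) (IB z y j) := by
  rw [disjoint_left]
  intro p h1 h2
  have h3 := IB_lt h1
  have h4 := IB_le h2
  have h5 := be_anti hy (Nat.succ_le_of_lt hij)
  exact absurd (h3.trans_le (h4.trans h5)) (lt_irrefl _)

/-- the norm square of a product over disjoint sets of primes -/
lemma nn_prod (δ : ℝ) (I : ℕ → Finset ℕ) (F : ℕ → PC) (hI : ∀ i j, i < j → Disjoint (I i) (I j))
    (hF : ∀ i, BLK.Su (Mo (I i)) (F i)) (J : ℕ) :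
    BLK.Su (Mo ((range J).biUnion I)) (∏ i ∈ range J, F i) ∧
      nn δ (∏ i ∈ range J, F i) = ∏ i ∈ range J, nn δ (F i) := by
  induction J with
  | zero =>
    refine ⟨?_, ?_⟩
    · rw [range_zero, prod_empty, one_def]
      exact BLK.Su.single ⟨one_ne_zero, fun p hp hd => absurd (Nat.dvd_one.1 hd) hp.one_lt.ne'⟩ _
    · rw [range_zero, prod_empty, prod_empty]
      exact BLK.nn_one δ
  | succ J ih =>
    obtain ⟨h1, h2⟩ := ih
    rw [prod_range_succ, prod_range_succ]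
    refine ⟨?_, ?_⟩
    · refine h1.mul (hF J) fun a b ha hb => BLK.Mo.mul ⟨ha.1, fun p hp hd => ?_⟩
        ⟨hb.1, fun p hp hd => ?_⟩
      · obtain ⟨i, hi, hpi⟩ := mem_biUnion.1 (ha.2 p hp hd)
        exact mem_biUnion.2 ⟨i, mem_range.2 ((mem_range.1 hi).trans (Nat.lt_succ_self J)), hpi⟩
      · exact mem_biUnion.2 ⟨J, mem_range.2 (Nat.lt_succ_self J), hb.2 p hp hd⟩
    · rw [NN.main δ ((range J).biUnion I) (I J) ?_ _ _
        (fun n hn => h1 n (Finsupp.mem_support_iff.1 hn))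
        (fun n hn => hF J n (Finsupp.mem_support_iff.1 hn)), h2]
      rw [disjoint_biUnion_left]
      intro i hi
      exact hI i J (mem_range.1 hi)

lemma Su_NKc {I : Finset ℕ} (K : ℕ) (a : ℝ) {x : PC} (hx : BLK.Su (Mo I) x) :
    BLK.Su (Mo I) (NKc K a x) := by
  unfold NKc
  exact BLK.Su.sum fun k _ => (BLK.Su_Mo_pow hx k).smul _

lemma Su_xc {I : Finset ℕ} (hI : ∀ p ∈ I, p.Prime) : BLK.Su (Mo I) (xc I) := by
  unfold xc
  exact BLK.Su_Mo_sum hI (fun _ => 1)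

lemma Su_sf_xc {I : Finset ℕ} (hI : ∀ p ∈ I, p.Prime) (h : ℝ) : BLK.Su (Mo I) (sf h (xc I)) := by
  rw [BLK.sf_xc]
  exact BLK.Su_Mo_sum hI (fun p => (p:ℂ) ^ (-(h * Complex.I)))

/-- the product over the blocks at two points -/
lemma BP_mul (a b : ℕ → ℝ) (z : ℕ) (y h : ℝ) (J Rs : ℕ) :
    BP a z y 0 J Rs * sf h (BP b z y 0 J Rs) =
      ∏ i ∈ range J, (NKc (20 * RB Rs i) (a i) (xc (IB z y i)) *
        sf h (NKc (20 * RB Rs i) (b i) (xc (IB z y i)))) := by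
  unfold BP
  rw [map_prod, ← prod_mul_distrib, range_eq_Ico]

lemma sum_exp_le (Rs J : ℕ) :
    ∑ i ∈ range J, Real.exp (-(RB Rs i : ℝ)) ≤ 2 * Real.exp (-(2 * (Rs:ℝ))) := by
  have hr : Real.exp (-2) ≤ 1 / 2 := by
    rw [Real.exp_neg, one_div]
    refine inv_anti₀ (by norm_num) ?_
    have := Real.add_one_le_exp (2:ℝ)
    linarith
  have h1 : ∀ i ∈ range J, Real.exp (-(RB Rs i : ℝ)) ≤ Real.exp (-(2 * (Rs:ℝ))) * (1 / 2) ^ i := by
    intro i _
    have e1 : -(RB Rs i : ℝ) = -(2 * (Rs:ℝ)) + (i:ℝ) * (-2) := by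
      unfold RB
      push_cast
      ring
    rw [e1, Real.exp_add, Real.exp_nat_mul]
    exact mul_le_mul_of_nonneg_left (pow_le_pow_left₀ (Real.exp_pos _).le hr i) (Real.exp_pos _).le
  refine (sum_le_sum h1).trans ?_
  rw [← mul_sum, mul_comm]
  refine mul_le_mul_of_nonneg_right ?_ (Real.exp_pos _).le
  have h2 : ∀ J : ℕ, ∑ i ∈ range J, ((1:ℝ) / 2) ^ i = 2 - 2 * (1 / 2) ^ J := by
    intro J
    induction J with
    | zero => simp
    | succ J ih => rw [sum_range_succ, ih, pow_succ]; ring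
  rw [h2 J]
  have : (0:ℝ) ≤ (1 / 2) ^ J := by positivity
  linarith

theorem main : S_NNB := by
  intro c hc
  obtain ⟨C, hC, hblk⟩ := BLK.main c hc
  refine ⟨4 * C, by positivity, ?_⟩
  intro z J Rs y _ hy hRs hsum δ hδ a b ha hb h
  have hsu : ∀ i, BLK.Su (Mo (IB z y i)) (NKc (20 * RB Rs i) (a i) (xc (IB z y i)) *
      sf h (NKc (20 * RB Rs i) (b i) (xc (IB z y i)))) := by
    intro i
    have hp : ∀ p ∈ IB z y i, p.Prime := fun p hp => IB_prime hp
    rw [BLK.sf_NKc]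
    exact (Su_NKc _ _ (Su_xc hp)).mul (Su_NKc _ _ (Su_sf_xc hp h)) fun m n hm hn => BLK.Mo.mul hm hn
  rw [BP_mul, (nn_prod δ (IB z y) _ (fun i j hij => IB_disj z hy hij) hsu J).2]
  set S : ℕ → ℝ := fun i => ∑ p ∈ IB z y i,
    (a i ^ 2 + b i ^ 2 + 2 * a i * b i * Real.cos (h * Real.log p)) * wd δ p with hS
  have hstep : ∀ i ∈ range J, nn δ (NKc (20 * RB Rs i) (a i) (xc (IB z y i)) *
      sf h (NKc (20 * RB Rs i) (b i) (xc (IB z y i)))) ≤
      Real.exp (S i + 2 * C * Real.exp (-(RB Rs i : ℝ))) := by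
    intro i hi
    have hR : 1 ≤ RB Rs i := by unfold RB; omega
    have h1 := hblk (IB z y i) (RB Rs i) δ h (a i) (b i) (fun p hp => IB_prime hp)
      (hsum i (mem_range.1 hi)) hR hδ (ha i).1 (ha i).2 (hb i).1 (hb i).2
    refine h1.trans ?_
    rw [Real.exp_add]
    refine mul_le_mul_of_nonneg_left ?_ (Real.exp_pos _).le
    have h2 : 1 + C * Real.exp (-(RB Rs i : ℝ)) ≤ Real.exp (C * Real.exp (-(RB Rs i : ℝ))) := by
      have := Real.add_one_le_exp (C * Real.exp (-(RB Rs i : ℝ)))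
      linarith
    have h3 : 0 ≤ 1 + C * Real.exp (-(RB Rs i : ℝ)) := by positivity
    calc (1 + C * Real.exp (-(RB Rs i : ℝ))) ^ 2 ≤ Real.exp (C * Real.exp (-(RB Rs i : ℝ))) ^ 2 :=
          pow_le_pow_left₀ h3 h2 2
      _ = Real.exp (2 * C * Real.exp (-(RB Rs i : ℝ))) := by
          rw [← Real.exp_nat_mul]
          congr 1
          push_cast
          ring
  refine (prod_le_prod (fun i _ => NN.nn_nonneg δ _) hstep).trans ?_
  rw [← Real.exp_sum, Real.exp_le_exp, sum_add_distrib]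
  refine add_le_add le_rfl ?_
  rw [← mul_sum]
  have h4 := mul_le_mul_of_nonneg_left (sum_exp_le Rs J) (by positivity : 0 ≤ 2 * C)
  linarith

end Pool.Agent.N748.GC.NNB
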