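import Pool.Agent.N748.GC.L1
import Pool.Agent.N748.GC.NN
import Pool.Agent.N748.GC.BLK

set_option autoImplicit false

/-!
# GC/NNL: the lower bound for the mean square of the products over the blocks (helper702)
-/

namespace Pool.Agent.N748.GC.NNL

open Finset MonoidAlgebra Complex

/-- generating polynomial of the elementary symmetric functions of the weights -/
noncomputable def Q (δ : ℝ) (I : Finset ℕ) : Polynomial ℝ :=
  ∏ p ∈ I, (1 + Polynomial.C (wd δ p) * Polynomial.X)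

lemma Q_insert (δ : ℝ) {I : Finset ℕ} {q : ℕ} (hq : q ∉ I) :
    Q δ (insert q I) = Q δ I + Polynomial.C (wd δ q) * (Polynomial.X * Q δ I) := by
  classical
  unfold Q
  rw [prod_insert hq]
  ring

lemma Q_coeff_zero (δ : ℝ) (I : Finset ℕ) : (Q δ I).coeff 0 = 1 := by
  rw [Polynomial.coeff_zero_eq_eval_zero, Q, Polynomial.eval_prod]
  simp

lemma Q_coeff_succ (δ : ℝ) {I : Finset ℕ} {q : ℕ} (hq : q ∉ I) (k : ℕ) :
    (Q δ (insert q I)).coeff (k + 1) = (Q δ I).coeff (k + 1) + wd δ q * (Q δ I).coeff k := by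
  rw [Q_insert δ hq, Polynomial.coeff_add, Polynomial.coeff_C_mul, Polynomial.coeff_X_mul]

lemma Q_nonneg (δ : ℝ) (I : Finset ℕ) : ∀ k, 0 ≤ (Q δ I).coeff k := by
  classical
  induction I using Finset.induction_on with
  | empty =>
    intro k
    simp only [Q, prod_empty, Polynomial.coeff_one]
    split_ifs <;> norm_num
  | insert q I hq ih =>
    intro k
    rcases k with _ | k
    · rw [Q_coeff_zero]; norm_num
    · rw [Q_coeff_succ δ hq]
      exact add_nonneg (ih _) (mul_nonneg (BLK.wd_nonneg δ q) (ih k))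

/-- Bernoulli: `(v+w)^(k+1) ≥ v^(k+1) + (k+1) w v^k` -/
lemma bern {v w : ℝ} (hv : 0 ≤ v) (hw : 0 ≤ w) (k : ℕ) :
    v ^ (k + 1) + (k + 1) * w * v ^ k ≤ (v + w) ^ (k + 1) := by
  induction k with
  | zero => simp
  | succ k ih =>
    have h1 : (v + w) ^ (k + 1 + 1) = (v + w) ^ (k + 1) * (v + w) := pow_succ _ _
    have h2 : (v ^ (k + 1) + (k + 1) * w * v ^ k) * (v + w) ≤ (v + w) ^ (k + 1) * (v + w) :=
      mul_le_mul_of_nonneg_right ih (by positivity)
    rw [h1]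
    refine le_trans ?_ h2
    have h3 : 0 ≤ (k + 1) * w * v ^ k * w := by positivity
    push_cast
    have e1 : v ^ (k + 1 + 1) = v ^ k * v * v := by rw [pow_succ, pow_succ]
    have e2 : v ^ (k + 1) = v ^ k * v := pow_succ _ _
    rw [e1, e2]
    nlinarith [h3]

lemma Q_coeff_le (δ : ℝ) (I : Finset ℕ) : ∀ k,
    (Q δ I).coeff k ≤ (∑ p ∈ I, wd δ p) ^ k / (k.factorial : ℝ) := by
  classical
  induction I using Finset.induction_on with
  | empty =>
    intro k
    rcases k with _ | k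
    · rw [Q_coeff_zero]; simp
    · simp [Q, Polynomial.coeff_one]
  | insert q I hq ih =>
    intro k
    rcases k with _ | k
    · rw [Q_coeff_zero]; simp
    · rw [Q_coeff_succ δ hq, sum_insert hq, add_comm (wd δ q)]
      set v : ℝ := ∑ p ∈ I, wd δ p with hv
      have hv0 : 0 ≤ v := Finset.sum_nonneg fun p _ => BLK.wd_nonneg δ p
      have hw0 := BLK.wd_nonneg δ q
      set w : ℝ := wd δ q with hw
      have h1 := ih (k + 1)
      have h2 := mul_le_mul_of_nonneg_left (ih k) hw0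
      have h3 := bern hv0 hw0 k
      have hk : (0:ℝ) < k.factorial := by exact_mod_cast Nat.factorial_pos k
      have hk1 : ((k + 1).factorial : ℝ) = (k + 1) * k.factorial := by
        rw [Nat.factorial_succ]; push_cast; ring
      calc (Q δ I).coeff (k + 1) + w * (Q δ I).coeff k
          ≤ v ^ (k + 1) / ((k + 1).factorial : ℝ) + w * (v ^ k / (k.factorial : ℝ)) := add_le_add h1 h2
        _ = (v ^ (k + 1) + (k + 1) * w * v ^ k) / ((k + 1).factorial : ℝ) := by
            rw [hk1]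
            field_simp
        _ ≤ _ := div_le_div_of_nonneg_right h3 (by positivity)

lemma xc_insert {I : Finset ℕ} {q : ℕ} (hq : q ∉ I) : xc (insert q I) = single q 1 + xc I := by
  classical
  unfold xc
  rw [sum_insert hq]

/-- lower bound for the moments of the sum over a block -/
lemma lower (δ : ℝ) (I : Finset ℕ) : (∀ p ∈ I, p.Prime) → ∀ k : ℕ,
    (k.factorial : ℝ) ^ 2 * (Q δ I).coeff k ≤ nn δ ((xc I) ^ k) := by
  classical
  induction I using Finset.induction_on with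
  | empty =>
    intro _ k
    rcases k with _ | k
    · rw [Q_coeff_zero, pow_zero, BLK.nn_one]; simp
    · have : (Q δ ∅).coeff (k + 1) = 0 := by simp [Q, Polynomial.coeff_one]
      rw [this, mul_zero]
      exact BLK.nn_nonneg _ _
  | insert q I hq ih =>
    intro hI k
    have hI' : ∀ p ∈ I, p.Prime := fun p hp => hI p (Finset.mem_insert_of_mem hp)
    have hqp : q.Prime := hI q (Finset.mem_insert_self _ _)
    have : Fact q.Prime := ⟨hqp⟩
    rcases k with _ | k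
    · rw [Q_coeff_zero, pow_zero, BLK.nn_one]; simp
    rw [xc_insert hq, Q_coeff_succ δ hq]
    set y : PC := xc I with hy
    have hyM : BLK.Su (Mo I) y := BLK.Su_Mo_sum hI' fun _ => 1
    have e1 : (single q (1:ℂ) + y) ^ (k + 1) = ∑ j ∈ range (k + 1 + 1),
        (((k + 1).choose j : ℕ) : ℂ) • (single (q ^ j) (1 : ℂ) * y ^ (k + 1 - j)) := by
      rw [add_pow]
      refine Finset.sum_congr rfl fun j _ => ?_
      rw [single_pow, one_pow, mul_comm _ (((k + 1).choose j : ℕ) : PC), ← nsmul_eq_mul,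
        Nat.cast_smul_eq_nsmul]
    rw [e1, BLK.nn_sum δ (fun n => padicValNat q n)]
    · rw [sum_range_succ', sum_range_succ']
      have h0 : 0 ≤ ∑ j ∈ range k, nn δ ((((k + 1).choose (j + 1 + 1) : ℕ) : ℂ) •
          (single (q ^ (j + 1 + 1)) (1 : ℂ) * y ^ (k + 1 - (j + 1 + 1)))) :=
        Finset.sum_nonneg fun j _ => BLK.nn_nonneg _ _
      have h1 : nn δ ((((k + 1).choose (0 + 1) : ℕ) : ℂ) •
          (single (q ^ (0 + 1)) (1 : ℂ) * y ^ (k + 1 - (0 + 1)))) = ((k:ℝ) + 1) ^ 2 * (wd δ q * nn δ (y ^ k)) := by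
        rw [BLK.nn_smul, BLK.nn_single_mul δ (pow_ne_zero _ hqp.ne_zero), zero_add, Nat.choose_one_right,
          Complex.norm_natCast, pow_one, norm_one, Nat.add_sub_cancel]
        push_cast
        ring
      have h2 : nn δ ((((k + 1).choose 0 : ℕ) : ℂ) •
          (single (q ^ 0) (1 : ℂ) * y ^ (k + 1 - 0))) = nn δ (y ^ (k + 1)) := by
        rw [BLK.nn_smul, BLK.nn_single_mul δ (pow_ne_zero _ hqp.ne_zero)]
        simp [BLK.wd_one]
      rw [h1, h2]
      have h3 := ih hI' (k + 1)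
      have h4 := ih hI' k
      have h5 : ((k + 1).factorial : ℝ) = (k + 1) * k.factorial := by
        rw [Nat.factorial_succ]; push_cast; ring
      have h6 : ((k + 1).factorial : ℝ) ^ 2 * (wd δ q * (Q δ I).coeff k) ≤
          ((k:ℝ) + 1) ^ 2 * (wd δ q * nn δ (y ^ k)) := by
        rw [h5]
        have h7 := mul_le_mul_of_nonneg_left h4 (mul_nonneg (sq_nonneg ((k:ℝ) + 1)) (BLK.wd_nonneg δ q))
        nlinarith [h7]
      rw [mul_add]
      linarith
    · intro j _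
      refine BLK.Su.smul ?_ _
      refine (BLK.Su.single (A := fun n => n = q ^ j) rfl _).mul (BLK.Su_Mo_pow hyM (k + 1 - j)) ?_
      rintro a b rfl hb
      have hb1 : ¬ q ∣ b := fun hd => hq (hb.2 q hqp hd)
      rw [padicValNat.mul (pow_ne_zero _ hqp.ne_zero) hb.1, padicValNat.prime_pow,
        padicValNat.eq_zero_of_not_dvd hb1, add_zero]

lemma wd_le (δ : ℝ) (hδ : 0 ≤ δ) {p : ℕ} (hp : p.Prime) : wd δ p ≤ 1 / (p:ℝ) := by
  unfold wd
  have hp1 : (1 : ℝ) ≤ p := by exact_mod_cast hp.one_lt.le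
  refine mul_le_of_le_one_left (by positivity) ?_
  exact Real.rpow_le_one_of_one_le_of_nonpos hp1 (by linarith)

/-- the mean square of the truncated exponential -/
lemma nn_NKc (δ : ℝ) (I : Finset ℕ) (hI : ∀ p ∈ I, p.Prime) (K : ℕ) (a : ℝ) :
    nn δ (NKc K a (xc I)) = ∑ k ∈ range (K + 1), (a ^ k / (k.factorial : ℝ)) ^ 2 * nn δ ((xc I) ^ k) := by
  unfold NKc
  rw [BLK.nn_sum δ (fun n => ArithmeticFunction.cardFactors n)]
  · refine Finset.sum_congr rfl fun k _ => ?_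
    rw [BLK.nn_smul, Complex.norm_real, Real.norm_eq_abs, sq_abs]
  · intro k _
    refine BLK.Su.smul ?_ _
    exact (BLK.Su_Om_pow (BLK.Su_Om_sum hI fun _ => 1) k).mono fun n hn => hn.2

lemma Q_natDegree (δ : ℝ) (I : Finset ℕ) : (Q δ I).natDegree ≤ I.card := by
  unfold Q
  refine (Polynomial.natDegree_prod_le _ _).trans ?_
  rw [card_eq_sum_ones]
  refine sum_le_sum fun p _ => ?_
  refine (Polynomial.natDegree_add_le _ _).trans ?_
  rw [Polynomial.natDegree_one]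
  refine max_le (Nat.zero_le _) ?_
  exact (Polynomial.natDegree_C_mul_le _ _).trans Polynomial.natDegree_X_le

lemma Q_eval (δ : ℝ) (I : Finset ℕ) (s : ℝ) : (Q δ I).eval s = ∏ p ∈ I, (1 + wd δ p * s) := by
  unfold Q
  rw [Polynomial.eval_prod]
  simp

lemma one_add_ge {t : ℝ} (ht : 0 ≤ t) : Real.exp (t - t ^ 2) ≤ 1 + t := by
  have h1 : (0:ℝ) < 1 + t := by linarith
  have h2 := Real.one_sub_inv_le_log_of_pos h1
  have h3 : t - t ^ 2 ≤ 1 - (1 + t)⁻¹ := by
    have h4 : 1 - (1 + t)⁻¹ = t / (1 + t) := by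
      field_simp
      ring
    rw [h4, le_div_iff₀ h1]
    nlinarith [pow_nonneg ht 3]
  calc Real.exp (t - t ^ 2) ≤ Real.exp (Real.log (1 + t)) := Real.exp_le_exp.2 (h3.trans h2)
    _ = 1 + t := Real.exp_log h1

/-- one block -/
lemma block (c : ℝ) (_hc : 0 ≤ c) (I : Finset ℕ) (hI : ∀ p ∈ I, p.Prime) (hIc : ∑ p ∈ I, 1 / (p:ℝ) ≤ c)
    (δ a : ℝ) (hδ : 0 ≤ δ) (ha : 0 ≤ a) (ha1 : a ≤ 1) (K : ℕ) :
    (1 - (∑ p ∈ I, 1 / (p:ℝ) ^ 2 + Real.exp (c * Real.exp 1) * Real.exp (-(K:ℝ)))) *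
      Real.exp (a ^ 2 * ∑ p ∈ I, wd δ p) ≤ nn δ (NKc K a (xc I)) := by
  classical
  set v : ℝ := ∑ p ∈ I, wd δ p with hv
  have hv0 : 0 ≤ v := Finset.sum_nonneg fun p _ => BLK.wd_nonneg δ p
  have hvc : v ≤ c := (Finset.sum_le_sum fun p hp => wd_le δ hδ (hI p hp)).trans hIc
  have ha2 : a ^ 2 ≤ 1 := by nlinarith
  have ha20 : 0 ≤ a ^ 2 := sq_nonneg a
  -- the truncated sum
  have h1 : ∑ k ∈ range (K + 1), (Q δ I).coeff k * (a ^ 2) ^ k ≤ nn δ (NKc K a (xc I)) := by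
    rw [nn_NKc δ I hI K a]
    refine Finset.sum_le_sum fun k _ => ?_
    have h2 := lower δ I hI k
    have hk : (0:ℝ) < k.factorial := by exact_mod_cast Nat.factorial_pos k
    have h3 := mul_le_mul_of_nonneg_left h2 (sq_nonneg (a ^ k / (k.factorial : ℝ)))
    refine le_trans (le_of_eq ?_) h3
    rw [div_pow, ← pow_mul, ← pow_mul, mul_comm k 2]
    field_simp
  -- the tail
  have h2 : (Q δ I).eval (a ^ 2) ≤ ∑ k ∈ range (K + 1), (Q δ I).coeff k * (a ^ 2) ^ k +
      Real.exp (c * Real.exp 1) * Real.exp (-(K:ℝ)) := by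
    have hdeg : (Q δ I).natDegree < K + 1 + I.card := by
      have := Q_natDegree δ I
      omega
    rw [Polynomial.eval_eq_sum_range' hdeg, sum_range_add]
    refine add_le_add le_rfl ?_
    have h3 : ∀ i ∈ range I.card, (Q δ I).coeff (K + 1 + i) * (a ^ 2) ^ (K + 1 + i) ≤
        Real.exp (-(K:ℝ)) * ((c * Real.exp 1) ^ (K + 1 + i) / ((K + 1 + i).factorial : ℝ)) := by
      intro i _
      set m := K + 1 + i with hm
      have hm0 : (0:ℝ) < m.factorial := by exact_mod_cast Nat.factorial_pos m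
      have h4 : (Q δ I).coeff m ≤ c ^ m / (m.factorial : ℝ) :=
        (Q_coeff_le δ I m).trans (div_le_div_of_nonneg_right (pow_le_pow_left₀ hv0 hvc m) hm0.le)
      have h5 : (Q δ I).coeff m * (a ^ 2) ^ m ≤ c ^ m / (m.factorial : ℝ) := by
        calc (Q δ I).coeff m * (a ^ 2) ^ m ≤ (Q δ I).coeff m * 1 :=
              mul_le_mul_of_nonneg_left (pow_le_one₀ ha20 ha2) (Q_nonneg δ I m)
          _ ≤ _ := by rw [mul_one]; exact h4
      refine h5.trans ?_
      have h6 : c ^ m / (m.factorial : ℝ) = Real.exp (-(m : ℝ)) *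
          ((c * Real.exp 1) ^ m / (m.factorial : ℝ)) := by
        rw [mul_pow c, ← Real.exp_nat_mul, mul_one, Real.exp_neg]
        field_simp
      rw [h6]
      have h7 : Real.exp (-(m : ℝ)) ≤ Real.exp (-(K : ℝ)) := by
        refine Real.exp_le_exp.2 ?_
        have : (K : ℝ) ≤ m := by
          have : K ≤ m := by omega
          exact_mod_cast this
        linarith
      exact mul_le_mul_of_nonneg_right h7 (by positivity)
    refine (Finset.sum_le_sum h3).trans ?_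
    rw [← Finset.mul_sum, mul_comm (Real.exp (c * Real.exp 1))]
    refine mul_le_mul_of_nonneg_left ?_ (Real.exp_pos _).le
    have h8 := Real.sum_le_exp_of_nonneg (x := c * Real.exp 1) (by positivity) (K + 1 + I.card)
    rw [sum_range_add] at h8
    have h9 : 0 ≤ ∑ i ∈ range (K + 1), (c * Real.exp 1) ^ i / (i.factorial : ℝ) :=
      Finset.sum_nonneg fun i _ => by positivity
    linarith
  -- the Euler product
  have h3 : Real.exp (a ^ 2 * v) * (1 - ∑ p ∈ I, 1 / (p:ℝ) ^ 2) ≤ (Q δ I).eval (a ^ 2) := by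
    rw [Q_eval]
    have h4 : ∏ p ∈ I, Real.exp (wd δ p * a ^ 2 - (wd δ p * a ^ 2) ^ 2) ≤ ∏ p ∈ I, (1 + wd δ p * a ^ 2) :=
      Finset.prod_le_prod (fun p _ => (Real.exp_pos _).le) fun p _ =>
        one_add_ge (mul_nonneg (BLK.wd_nonneg δ p) ha20)
    refine le_trans ?_ h4
    rw [← Real.exp_sum, Finset.sum_sub_distrib, ← Finset.sum_mul, ← hv]
    have h5 : Real.exp (v * a ^ 2 - ∑ p ∈ I, (wd δ p * a ^ 2) ^ 2) =
        Real.exp (a ^ 2 * v) * Real.exp (-∑ p ∈ I, (wd δ p * a ^ 2) ^ 2) := by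
      rw [← Real.exp_add]
      congr 1
      ring
    rw [h5]
    refine mul_le_mul_of_nonneg_left ?_ (Real.exp_pos _).le
    have h6 : ∑ p ∈ I, (wd δ p * a ^ 2) ^ 2 ≤ ∑ p ∈ I, 1 / (p:ℝ) ^ 2 := by
      refine Finset.sum_le_sum fun p hp => ?_
      have h7 : wd δ p * a ^ 2 ≤ 1 / (p:ℝ) := by
        calc wd δ p * a ^ 2 ≤ wd δ p * 1 := mul_le_mul_of_nonneg_left ha2 (BLK.wd_nonneg δ p)
          _ ≤ _ := by rw [mul_one]; exact wd_le δ hδ (hI p hp)
      calc (wd δ p * a ^ 2) ^ 2 ≤ (1 / (p:ℝ)) ^ 2 :=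
            pow_le_pow_left₀ (mul_nonneg (BLK.wd_nonneg δ p) ha20) h7 2
        _ = _ := by rw [div_pow, one_pow]
    have h8 := Real.add_one_le_exp (-∑ p ∈ I, (wd δ p * a ^ 2) ^ 2)
    linarith
  have h4 : 1 ≤ Real.exp (a ^ 2 * v) := Real.one_le_exp (by positivity)
  have h5 : 0 ≤ Real.exp (c * Real.exp 1) * Real.exp (-(K:ℝ)) := by positivity
  nlinarith [mul_nonneg (sub_nonneg.2 h4) h5]

/-! ### the blocks -/

lemma be_anti {y : ℝ} (hy : 1 ≤ y) {i j : ℕ} (h : i ≤ j) : be y j ≤ be y i := by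
  unfold be
  refine Real.exp_le_exp.2 (mul_le_mul_of_nonneg_left ?_ (Real.log_nonneg hy))
  exact pow_le_pow_of_le_one (by norm_num) (by norm_num) h

lemma IB_prime {z : ℕ} {y : ℝ} {i p : ℕ} (h : p ∈ IB z y i) : p.Prime := by
  unfold IB at h
  simp only [mem_filter, mem_Icc] at h
  exact h.1.2.1

lemma IB_z {z : ℕ} {y : ℝ} {i p : ℕ} (h : p ∈ IB z y i) : z ≤ p := by
  unfold IB at h
  simp only [mem_filter, mem_Icc] at h
  exact h.2

lemma IB_lt {z : ℕ} {y : ℝ} {i p : ℕ} (h : p ∈ IB z y i) : be y (i + 1) < p := by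
  unfold IB at h
  simp only [mem_filter, mem_Icc] at h
  exact h.1.2.2.2

lemma IB_le {z : ℕ} {y : ℝ} {i p : ℕ} (h : p ∈ IB z y i) : (p:ℝ) ≤ be y i := by
  unfold IB at h
  simp only [mem_filter, mem_Icc] at h
  exact (Nat.le_floor_iff (Real.exp_pos _).le).1 h.1.1.2

lemma IB_disj (z : ℕ) {y : ℝ} (hy : 1 ≤ y) {i j : ℕ} (h : i < j) : Disjoint (IB z y i) (IB z y j) := by
  rw [Finset.disjoint_left]
  intro p hp hq
  have h1 := IB_lt hp
  have h2 := IB_le hq
  have h3 := be_anti hy (Nat.succ_le_of_lt h)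
  have h4 : be y j ≤ be y (i + 1) := h3
  linarith

lemma IB_disj' (z : ℕ) {y : ℝ} (hy : 1 ≤ y) {i j : ℕ} (h : i ≠ j) : Disjoint (IB z y i) (IB z y j) := by
  rcases lt_or_gt_of_ne h with h | h
  · exact IB_disj z hy h
  · exact (IB_disj z hy h).symm

lemma NKc_Mo {I : Finset ℕ} (hI : ∀ p ∈ I, p.Prime) (K : ℕ) (a : ℝ) : BLK.Su (Mo I) (NKc K a (xc I)) := by
  unfold NKc
  exact BLK.Su.sum fun k _ => BLK.Su.smul (BLK.Su_Mo_pow (BLK.Su_Mo_sum hI fun _ => 1) k) _

lemma Mo_mono {I J : Finset ℕ} (h : I ⊆ J) {n : ℕ} (hn : Mo I n) : Mo J n :=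
  ⟨hn.1, fun p hp hd => h (hn.2 p hp hd)⟩

lemma BP_succ (a : ℕ → ℝ) (z : ℕ) (y : ℝ) (J Rs : ℕ) :
    BP a z y 0 (J + 1) Rs = BP a z y 0 J Rs * NKc (20 * RB Rs J) (a J) (xc (IB z y J)) := by
  unfold BP
  rw [Finset.prod_Ico_succ_top (Nat.zero_le J)]

lemma BP_Mo (a : ℕ → ℝ) (z : ℕ) (y : ℝ) (J Rs : ℕ) :
    BLK.Su (Mo ((range J).biUnion (IB z y))) (BP a z y 0 J Rs) := by
  classical
  induction J with
  | zero =>
    unfold BP
    rw [Finset.Ico_self, Finset.prod_empty, one_def]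
    exact BLK.Su.single ⟨one_ne_zero, fun p hp hd => absurd (Nat.dvd_one.1 hd) hp.one_lt.ne'⟩ _
  | succ J ih =>
    rw [BP_succ]
    refine ih.mul (NKc_Mo (fun p hp => IB_prime hp) _ _) fun m n hm hn => ?_
    refine BLK.Mo.mul (Mo_mono ?_ hm) (Mo_mono ?_ hn)
    · exact Finset.biUnion_subset_biUnion_of_subset_left _ (Finset.range_subset_range.2 (Nat.le_succ J))
    · exact Finset.subset_biUnion_of_mem (IB z y) (Finset.self_mem_range_succ J)

lemma nn_BP_succ (a : ℕ → ℝ) (z : ℕ) {y : ℝ} (hy : 1 ≤ y) (J Rs : ℕ) (δ : ℝ) :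
    nn δ (BP a z y 0 (J + 1) Rs) =
      nn δ (BP a z y 0 J Rs) * nn δ (NKc (20 * RB Rs J) (a J) (xc (IB z y J))) := by
  classical
  rw [BP_succ]
  refine NN.main δ ((range J).biUnion (IB z y)) (IB z y J) ?_ _ _ ?_ ?_
  · rw [Finset.disjoint_biUnion_left]
    intro i hi
    exact IB_disj z hy (mem_range.1 hi)
  · intro n hn
    exact BP_Mo a z y J Rs n (Finsupp.mem_support_iff.1 hn)
  · intro n hn
    exact NKc_Mo (fun p hp => IB_prime hp) _ _ n (Finsupp.mem_support_iff.1 hn)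

lemma sum_sq_le (z : ℕ) (hz : 1 ≤ z) {y : ℝ} (hy : 1 ≤ y) (J : ℕ) :
    ∑ i ∈ range J, ∑ p ∈ IB z y i, 1 / (p:ℝ) ^ 2 ≤ 2 / (z:ℝ) := by
  classical
  rw [← Finset.sum_biUnion (s := range J) (t := IB z y) (f := fun p : ℕ => 1 / (p:ℝ) ^ 2)]
  · set U := (range J).biUnion (IB z y) with hU
    obtain ⟨N, hN⟩ : ∃ N : ℕ, ∀ p ∈ U, p < N := by
      refine ⟨U.sup id + 1, fun p hp => Nat.lt_succ_of_le ?_⟩
      exact Finset.le_sup (f := id) hp
    have hsub : U ⊆ Ioo (z - 1) N := by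
      intro p hp
      rw [mem_Ioo]
      refine ⟨?_, hN p hp⟩
      obtain ⟨i, _, hi⟩ := mem_biUnion.1 hp
      have := IB_z hi
      omega
    have h1 : ∑ p ∈ U, 1 / (p:ℝ) ^ 2 ≤ ∑ p ∈ Ioo (z - 1) N, 1 / (p:ℝ) ^ 2 :=
      Finset.sum_le_sum_of_subset_of_nonneg hsub fun p _ _ => by positivity
    have h2 := sum_Ioo_inv_sq_le (α := ℝ) (z - 1) N
    have h3 : (((z - 1 : ℕ) : ℝ) + 1) = z := by
      have : (z - 1) + 1 = z := Nat.sub_add_cancel hz
      exact_mod_cast this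
    rw [h3] at h2
    refine h1.trans (le_trans (le_of_eq ?_) h2)
    exact Finset.sum_congr rfl fun p _ => by rw [one_div]
  · intro i _ j _ hij
    exact IB_disj' z hy hij

lemma sum_exp_le (Rs J : ℕ) :
    ∑ i ∈ range J, Real.exp (-((20 * RB Rs i : ℕ) : ℝ)) ≤ 2 * Real.exp (-(Rs:ℝ)) := by
  have h1 : ∀ i ∈ range J, Real.exp (-((20 * RB Rs i : ℕ) : ℝ)) ≤ Real.exp (-(Rs:ℝ)) * (1 / 2) ^ i := by
    intro i _
    have h2 : Real.exp (-1) ≤ 1 / 2 := by
      have h3 : (2:ℝ) ≤ Real.exp 1 := by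
        have := Real.add_one_le_exp (1:ℝ)
        linarith
      rw [Real.exp_neg, ← one_div]
      exact one_div_le_one_div_of_le (by norm_num) h3
    have h4 : Real.exp (-(i:ℝ)) ≤ (1 / 2) ^ i := by
      have h5 : Real.exp (-(i:ℝ)) = Real.exp (-1) ^ i := by
        rw [← Real.exp_nat_mul]
        congr 1
        ring
      rw [h5]
      exact pow_le_pow_left₀ (Real.exp_pos _).le h2 i
    calc Real.exp (-((20 * RB Rs i : ℕ) : ℝ)) ≤ Real.exp (-(Rs:ℝ) + -(i:ℝ)) := by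
          refine Real.exp_le_exp.2 ?_
          unfold RB
          push_cast
          have h5 : (0:ℝ) ≤ Rs := Nat.cast_nonneg _
          have h6 : (0:ℝ) ≤ i := Nat.cast_nonneg _
          linarith
      _ = Real.exp (-(Rs:ℝ)) * Real.exp (-(i:ℝ)) := Real.exp_add _ _
      _ ≤ _ := mul_le_mul_of_nonneg_left h4 (Real.exp_pos _).le
  refine (Finset.sum_le_sum h1).trans ?_
  rw [← Finset.mul_sum, mul_comm (2:ℝ)]
  refine mul_le_mul_of_nonneg_left ?_ (Real.exp_pos _).le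
  rw [geom_sum_eq (by norm_num)]
  have : (0:ℝ) ≤ (1 / 2) ^ J := by positivity
  have h2 : ((1 / 2 : ℝ) ^ J - 1) / (1 / 2 - 1) = 2 - 2 * (1 / 2) ^ J := by
    ring
  rw [h2]
  linarith

theorem main : S_NNL := by
  classical
  intro c hc e he
  set E := Real.exp (c * Real.exp 1) with hE
  have hE0 : 0 < E := Real.exp_pos _
  obtain ⟨z0, hz0⟩ := exists_nat_gt (4 / e)
  obtain ⟨R0, hR0⟩ := exists_nat_gt (4 * E / e)
  refine ⟨z0 + 1, R0, ?_⟩
  intro z J Rs y hz hR hy hJ δ hδ a ha ha1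
  -- the errors
  set s : ℕ → ℝ := fun i => ∑ p ∈ IB z y i, 1 / (p:ℝ) ^ 2 + E * Real.exp (-((20 * RB Rs i : ℕ) : ℝ)) with hs
  have hs0 : ∀ i, 0 ≤ s i := fun i => by
    have h1 : 0 ≤ ∑ p ∈ IB z y i, 1 / (p:ℝ) ^ 2 := Finset.sum_nonneg fun p _ => by positivity
    have h2 : 0 ≤ E * Real.exp (-((20 * RB Rs i : ℕ) : ℝ)) := by positivity
    exact add_nonneg h1 h2
  have hsum : ∑ i ∈ range J, s i ≤ e := by
    rw [hs]
    simp only
    rw [Finset.sum_add_distrib, ← Finset.mul_sum]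
    have hz1 : 1 ≤ z := by omega
    have h1 := sum_sq_le z hz1 hy J
    have h2 := mul_le_mul_of_nonneg_left (sum_exp_le Rs J) hE0.le
    have hzr : 4 / e < z := by
      refine hz0.trans_le ?_
      have : z0 ≤ z := by omega
      exact_mod_cast this
    have hz00 : (0:ℝ) < z := by exact_mod_cast hz1
    have h3 : 2 / (z:ℝ) ≤ e / 2 := by
      rw [div_lt_iff₀ he] at hzr
      rw [div_le_iff₀ hz00]
      nlinarith
    have h4 : E * (2 * Real.exp (-(Rs:ℝ))) ≤ e / 2 := by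
      have h5 : (Rs:ℝ) + 1 ≤ Real.exp Rs := Real.add_one_le_exp _
      have h6 : 4 * E / e < Rs := by
        refine hR0.trans_le ?_
        exact_mod_cast hR
      rw [div_lt_iff₀ he] at h6
      rw [Real.exp_neg]
      have h7 : 0 < Real.exp (Rs:ℝ) := Real.exp_pos _
      have h8 : E * (2 * (Real.exp (Rs:ℝ))⁻¹) = 2 * E / Real.exp (Rs:ℝ) := by
        field_simp
      rw [h8, div_le_iff₀ h7]
      nlinarith
    linarith
  have key : ∀ j ≤ J, (1 - ∑ i ∈ range j, s i) * Real.exp (a ^ 2 * VB δ z y 0 j) ≤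
      nn δ (BP (fun _ => a) z y 0 j Rs) := by
    intro j
    induction j with
    | zero =>
      intro _
      unfold VB BP
      rw [Finset.Ico_self, Finset.prod_empty, BLK.nn_one]
      simp
    | succ j ih =>
      intro hj
      have h1 := ih (by omega)
      have h2 := block c hc (IB z y j) (fun p hp => IB_prime hp) (hJ j (by omega)) δ a hδ ha ha1
        (20 * RB Rs j)
      rw [nn_BP_succ (fun _ => a) z hy j Rs δ]
      have hV : VB δ z y 0 (j + 1) = VB δ z y 0 j + ∑ p ∈ IB z y j, wd δ p := by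
        unfold VB
        rw [Finset.sum_Ico_succ_top (Nat.zero_le j)]
      rw [hV, mul_add, Real.exp_add, Finset.sum_range_succ]
      have h2' : (1 - s j) * Real.exp (a ^ 2 * ∑ p ∈ IB z y j, wd δ p) ≤
          nn δ (NKc (20 * RB Rs j) a (xc (IB z y j))) := h2
      set S := ∑ i ∈ range j, s i with hS
      have hS0 : 0 ≤ S := Finset.sum_nonneg fun i _ => hs0 i
      have hE1 := Real.exp_pos (a ^ 2 * VB δ z y 0 j)
      have hE2 := Real.exp_pos (a ^ 2 * ∑ p ∈ IB z y j, wd δ p)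
      set A := Real.exp (a ^ 2 * VB δ z y 0 j) with hA
      set B := Real.exp (a ^ 2 * ∑ p ∈ IB z y j, wd δ p) with hB
      have hn1 := BLK.nn_nonneg δ (BP (fun _ => a) z y 0 j Rs)
      have hn2 := BLK.nn_nonneg δ (NKc (20 * RB Rs j) a (xc (IB z y j)))
      by_cases hle : 1 - (S + s j) ≤ 0
      · refine le_trans ?_ (mul_nonneg hn1 hn2)
        exact mul_nonpos_of_nonpos_of_nonneg hle (by positivity)
      · push Not at hle
        have hsj := hs0 j
        have h3 : 0 ≤ 1 - S := by linarith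
        have h4 : 0 ≤ 1 - s j := by linarith
        calc (1 - (S + s j)) * (A * B) ≤ ((1 - S) * (1 - s j)) * (A * B) := by
              refine mul_le_mul_of_nonneg_right ?_ (by positivity)
              nlinarith [mul_nonneg hS0 hsj]
          _ = ((1 - S) * A) * ((1 - s j) * B) := by ring
          _ ≤ _ := mul_le_mul h1 h2' (by positivity) hn1
  refine le_trans ?_ (key J le_rfl)
  refine mul_le_mul_of_nonneg_right ?_ (Real.exp_pos _).le
  linarith

end Pool.Agent.N748.GC.NNL
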