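import Pool.Agent.N748.GC.L1
import Pool.Agent.N748.GC.EQ
import Pool.Agent.N748.GC.MV

set_option autoImplicit false

/-!
# Project GC, part ONE: the first moment of the weight (helper591)
-/

namespace Pool.Agent.N748.GC.ONE

open Finset Filter MeasureTheory MonoidAlgebra Topology Complex

lemma NKc_zero (K : ℕ) (x : PC) : NKc K 0 x = 1 := by
  unfold NKc
  rw [Finset.sum_range_succ', Finset.sum_eq_zero]
  · simp
  · intro i _
    simp

lemma BP_zero (z : ℕ) (y : ℝ) (j J Rs : ℕ) : BP (fun _ => 0) z y j J Rs = 1 := by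
  unfold BP
  exact Finset.prod_eq_one fun i _ => NKc_zero _ _

lemma Xl_small (ε : ℝ) (hε : 0 < ε) : ∀ᶠ X : ℝ in atTop, 0 ≤ Xl X ∧ Xl X ≤ ε * X := by
  have h1 : Tendsto (fun X : ℝ => 4 * X ^ (-((1:ℝ) / 5))) atTop (𝓝 (4 * 0)) :=
    (tendsto_rpow_neg_atTop (by norm_num)).const_mul 4
  rw [mul_zero] at h1
  filter_upwards [h1.eventually_le_const hε, eventually_ge_atTop (1:ℝ)] with X hX hX1
  have hX0 : 0 < X := by linarith
  refine ⟨Real.rpow_nonneg (by linarith) _, ?_⟩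
  unfold Xl
  have h2 : (2 * (X + 1)) ^ ((4:ℝ) / 5) ≤ (4 * X) ^ ((4:ℝ) / 5) :=
    Real.rpow_le_rpow (by linarith) (by linarith) (by norm_num)
  have h3 : (4 * X) ^ ((4:ℝ) / 5) = 4 ^ ((4:ℝ) / 5) * X ^ ((4:ℝ) / 5) :=
    Real.mul_rpow (by norm_num) hX0.le
  have h4 : (4:ℝ) ^ ((4:ℝ) / 5) ≤ 4 ^ (1:ℝ) :=
    Real.rpow_le_rpow_of_exponent_le (by norm_num) (by norm_num)
  rw [Real.rpow_one] at h4
  have h5 : X ^ ((4:ℝ) / 5) = X ^ (-((1:ℝ) / 5)) * X := by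
    rw [← Real.rpow_add_one hX0.ne']
    norm_num
  calc (2 * (X + 1)) ^ ((4:ℝ) / 5) ≤ 4 ^ ((4:ℝ) / 5) * X ^ ((4:ℝ) / 5) := h2.trans h3.le
    _ ≤ 4 * X ^ ((4:ℝ) / 5) := mul_le_mul_of_nonneg_right h4 (Real.rpow_nonneg hX0.le _)
    _ = 4 * X ^ (-((1:ℝ) / 5)) * X := by rw [h5]; ring
    _ ≤ ε * X := mul_le_mul_of_nonneg_right hX hX0.le

/-- the lengths are admissible -/
lemma len_ok {y X R : ℝ} (hy : 1 ≤ y) (hR : 0 ≤ R) (hX : 3 ≤ X)
    (h : Real.exp (Real.log y * (180 * (R + 1))) ≤ (2 * (X + 1)) ^ ((1:ℝ) / 50)) :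
    Real.exp (Real.log y * (90 * (R + 1))) ≤ X ^ ((1:ℝ) / 8) := by
  have hl : 0 ≤ Real.log y := Real.log_nonneg hy
  have h1 : Real.exp (Real.log y * (90 * (R + 1))) ≤ Real.exp (Real.log y * (180 * (R + 1))) := by
    apply Real.exp_le_exp.2
    exact mul_le_mul_of_nonneg_left (by linarith) hl
  have h2 : (2 * (X + 1)) ^ ((1:ℝ) / 50) ≤ (X ^ (2:ℝ)) ^ ((1:ℝ) / 50) := by
    refine Real.rpow_le_rpow (by linarith) ?_ (by norm_num)
    rw [Real.rpow_two]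
    nlinarith
  have h3 : (X ^ (2:ℝ)) ^ ((1:ℝ) / 50) ≤ X ^ ((1:ℝ) / 8) := by
    rw [← Real.rpow_mul (by linarith)]
    exact Real.rpow_le_rpow_of_exponent_le (by linarith) (by norm_num)
  exact h1.trans (h.trans (h2.trans h3))

lemma Sm_prime (z : ℕ) : ∀ p ∈ Sm z, p.Prime := by
  intro p hp
  unfold Sm at hp
  exact (Finset.mem_filter.1 hp).2

/-- the upper bound for the mean square of the weight polynomial -/
lemma nn_upper {c C : ℝ} {z J Rs : ℕ} {y δ α : ℝ}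
    (hC : ∀ (z J Rs : ℕ) (y : ℝ), 144 ≤ z → 1 ≤ y → 1 ≤ Rs →
      (∀ i < J, ∑ p ∈ IB z y i, 1 / (p:ℝ) ≤ c) → ∀ δ : ℝ, 0 ≤ δ → ∀ a b : ℕ → ℝ,
      (∀ i, 0 ≤ a i ∧ a i ≤ 2) → (∀ i, 0 ≤ b i ∧ b i ≤ 2) → ∀ h : ℝ,
      nn δ (BP a z y 0 J Rs * sf h (BP b z y 0 J Rs)) ≤
        Real.exp ((∑ i ∈ range J, ∑ p ∈ IB z y i,
          (a i ^ 2 + b i ^ 2 + 2 * a i * b i * Real.cos (h * Real.log p)) * wd δ p) +
          C * Real.exp (-(2 * (Rs:ℝ)))))
    (hz : 144 ≤ z) (hy : 1 ≤ y) (hRs : 1 ≤ Rs) (hc : ∀ i < J, ∑ p ∈ IB z y i, 1 / (p:ℝ) ≤ c)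
    (hδ : 0 ≤ δ) (hα0 : 0 ≤ α) (hα1 : α ≤ 2) :
    nn δ (BP (fun _ => α) z y 0 J Rs) ≤
      Real.exp (α ^ 2 * VB δ z y 0 J) * Real.exp (C * Real.exp (-(2 * (Rs:ℝ)))) := by
  have h := hC z J Rs y hz hy hRs hc δ hδ (fun _ => α) (fun _ => 0) (fun _ => ⟨hα0, hα1⟩)
    (fun _ => ⟨le_rfl, by norm_num⟩) 0
  rw [BP_zero, map_one, mul_one] at h
  refine h.trans (le_of_eq ?_)
  rw [← Real.exp_add]
  congr 2
  unfold VB
  rw [Finset.mul_sum, ← Finset.range_eq_Ico]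
  refine Finset.sum_congr rfl fun i _ => ?_
  rw [Finset.mul_sum]
  refine Finset.sum_congr rfl fun p _ => ?_
  ring

lemma VB_nonneg (δ : ℝ) (z : ℕ) (y : ℝ) (j J : ℕ) : 0 ≤ VB δ z y j J :=
  Finset.sum_nonneg fun _ _ => Finset.sum_nonneg fun _ _ => MV.wd_nonneg _ _

lemma int_F {K : Type} [TopologicalSpace K] {z : ℕ} {F : K × UnitAddTorus (Sm z) → ℝ}
    (hF0 : ∀ q, 0 ≤ F q) {M : ℝ} (hM : ∀ q, F q ≤ M) (k : K) :
    0 ≤ ∫ y, F (k, y) ∂(HP (Sm z)) ∧ ∫ y, F (k, y) ∂(HP (Sm z)) ≤ M := by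
  refine ⟨integral_nonneg fun y => hF0 _, ?_⟩
  have h1 : ‖∫ y, F (k, y) ∂(HP (Sm z))‖ ≤ M * (HP (Sm z)).real Set.univ := by
    refine norm_integral_le_of_norm_le_const (Eventually.of_forall fun y => ?_)
    rw [Real.norm_of_nonneg (hF0 _)]
    exact hM _
  rw [probReal_univ, mul_one] at h1
  exact (le_abs_self _).trans h1

theorem main (h1 : S_NNB) (h2 : S_NNL) (h3 : S_LEN) : S_ONE := by
  intro α hα0 hα1 c hc e he
  obtain ⟨C, hC0, hC⟩ := h1 c hc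
  obtain ⟨z1, R1, hL⟩ := h2 c hc (e / 2) (by positivity)
  have hlim : Tendsto (fun R : ℕ => Real.exp (C * Real.exp (-(2 * (R:ℝ))))) atTop (𝓝 1) := by
    have h4 : Tendsto (fun R : ℕ => Real.exp (-(2 * (R:ℝ)))) atTop (𝓝 0) :=
      Real.tendsto_exp_neg_atTop_nhds_zero.comp
        (tendsto_natCast_atTop_atTop.const_mul_atTop (by norm_num))
    have h5 : Tendsto (fun R : ℕ => C * Real.exp (-(2 * (R:ℝ)))) atTop (𝓝 0) := by
      simpa using h4.const_mul C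
    have h6 := (Real.continuous_exp.tendsto 0).comp h5
    rw [Real.exp_zero] at h6
    exact h6
  obtain ⟨R2, hR2⟩ := eventually_atTop.1
    (hlim.eventually_le_const (by linarith : (1:ℝ) < 1 + e / 2))
  refine ⟨max z1 144, max R1 (max R2 1),
    fun z hz Rs hRs yf Jf hSB lam δ0 hlam K _ _ F hF hF0 η hη => ?_⟩
  have hz1 : z1 ≤ z := (le_max_left _ _).trans hz
  have hz2 : 144 ≤ z := (le_max_right _ _).trans hz
  have hRs1 : R1 ≤ Rs := (le_max_left _ _).trans hRs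
  have hRs2 : R2 ≤ Rs := ((le_max_left _ _).trans (le_max_right _ _)).trans hRs
  have hRs3 : 1 ≤ Rs := ((le_max_right _ _).trans (le_max_right _ _)).trans hRs
  obtain ⟨M0, hM0⟩ := isCompact_univ.exists_bound_of_continuousOn hF.continuousOn
  set M := max M0 1 with hMdef
  have hM1 : 1 ≤ M := le_max_right _ _
  have hM : ∀ q, F q ≤ M := fun q =>
    ((le_abs_self _).trans (hM0 q (Set.mem_univ q))).trans (le_max_left _ _)
  set ε' := η / (2 * (2 + e / 2)) with hε'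
  have hε'0 : 0 < ε' := by positivity
  have hEQ := EQ.main MV.main (Sm z) (Sm_prime z) K F hF ε' hε'0
  filter_upwards [hEQ, hSB.ev, Xl_small (η / (2 * (M * (1 + e / 2)))) (by positivity),
    Xl_small 1 one_pos, eventually_ge_atTop (3:ℝ)]
    with X hX hev hXl hXl1 hX3 δ hδ1 hδ2 k x hx0 hx1
  obtain ⟨hev1, hev2, hev3, hev4⟩ := hev
  have hX0 : 0 < X := by linarith
  have hlogX : 0 < Real.log X := Real.log_pos (by linarith)
  have hδ : 0 ≤ δ := le_trans (by positivity) hδ1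
  have hy1 : 1 ≤ yf X := by
    have : (1:ℝ) ≤ z := by exact_mod_cast (by omega : 1 ≤ z)
    linarith
  set B := BP (fun _ => α) z (yf X) 0 (Jf X) Rs with hB
  have hlen := len_ok hy1 (Nat.cast_nonneg Rs) hX3 hev4
  obtain ⟨hcop, hlc⟩ := (h3 z (Jf X) Rs (yf X) hz2 hy1 hRs3 (fun i hi => (hev3 i hi).1)).1
    (fun _ => α) (fun _ => ⟨hα0.le, by linarith⟩) 0 (Nat.zero_le _)
  rw [← hB] at hcop hlc
  have hB0 : ∀ n ∈ B.coeff.support, n ≠ 0 := fun n hn => (hcop n hn).1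
  have hcop' : Cop (Sm z) (X ^ ((1:ℝ) / 8)) (sf x B) := by
    have h7 := MV.Cop_sf x hcop
    intro n hn
    obtain ⟨a1, a2, a3⟩ := h7 n hn
    exact ⟨a1, a2.trans hlen, a3⟩
  have hlc' : lc1 (sf x B) ≤ X ^ ((1:ℝ) / 8) := by
    rw [MV.lc1_sf x hB0]
    exact hlc.trans hlen
  have hmain := hX (Xl X) hXl1.1 (by linarith [hXl1.2]) k δ hδ (sf x B) hcop' hlc'
  rw [MV.nn_sf] at hmain
  set E := Real.exp (α ^ 2 * VB δ z (yf X) 0 (Jf X)) with hE
  have hE1 : 1 ≤ E := by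
    rw [hE]
    exact Real.one_le_exp (mul_nonneg (sq_nonneg _) (VB_nonneg _ _ _ _ _))
  have hE0 : 0 < E := by linarith
  have hup := nn_upper hC hz2 hy1 hRs3 (fun i hi => (hev3 i hi).2) hδ hα0.le
    (by linarith : α ≤ 2)
  have hlow := hL z (Jf X) Rs (yf X) hz1 hRs1 hy1 (fun i hi => (hev3 i hi).2) δ hδ α hα0.le hα1.le
  rw [← hB, ← hE] at hup hlow
  set n := nn δ B with hn
  have hn0 : 0 ≤ n := MV.nn_nonneg δ B
  have hnup : n ≤ E * (1 + e / 2) :=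
    hup.trans (mul_le_mul_of_nonneg_left (hR2 Rs hRs2) hE0.le)
  -- the integral
  have hint : (∫ t in Xl X..X, F (k, pt (Sm z) t) * WB α z Rs yf Jf X δ (t + x)) =
      (∫ t in Xl X..X, F (k, pt (Sm z) t) * ‖ec (1 / 2 + δ + t * I) (sf x B)‖ ^ 2) / E := by
    rw [← intervalIntegral.integral_div]
    refine intervalIntegral.integral_congr fun t _ => ?_
    unfold WB
    rw [MV.ec_sf _ _ hB0, ← hB, ← hE, mul_div_assoc]
    congr 4
    push_cast
    ring_nf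
  rw [hint]
  set J := ∫ t in Xl X..X, F (k, pt (Sm z) t) * ‖ec (1 / 2 + δ + t * I) (sf x B)‖ ^ 2 with hJ
  obtain ⟨hI0, hIM⟩ := int_F hF0 hM k
  set If := ∫ y, F (k, y) ∂(HP (Sm z)) with hIf
  have hr1 : 1 - e / 2 ≤ n / E := by
    rw [le_div_iff₀ hE0]
    exact hlow
  have hr2 : n / E ≤ 1 + e / 2 := by
    rw [div_le_iff₀ hE0]
    linarith
  have hr0 : 0 ≤ n / E := div_nonneg hn0 hE0.le
  have hXp : X ^ ((9:ℝ) / 10) ≤ X := by
    conv_rhs => rw [← Real.rpow_one X]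
    exact Real.rpow_le_rpow_of_exponent_le (by linarith) (by norm_num)
  -- step 1
  have s1 : |J / E - (X - Xl X) * If * (n / E)| ≤ X * (η / 2) := by
    have e1 : J / E - (X - Xl X) * If * (n / E) = (J - (X - Xl X) * If * n) / E := by
      field_simp
    rw [e1, abs_div, abs_of_pos hE0, div_le_iff₀ hE0]
    refine hmain.trans ?_
    have e2 : X * n + X ^ ((9:ℝ) / 10) ≤ X * E * (2 + e / 2) := by
      have : X * n ≤ X * (E * (1 + e / 2)) := mul_le_mul_of_nonneg_left hnup hX0.le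
      have : X * 1 ≤ X * E := mul_le_mul_of_nonneg_left hE1 hX0.le
      nlinarith
    calc ε' * (X * n + X ^ ((9:ℝ) / 10)) ≤ ε' * (X * E * (2 + e / 2)) :=
          mul_le_mul_of_nonneg_left e2 hε'0.le
      _ = X * (η / 2) * E := by
          rw [hε']
          field_simp
  -- step 2
  have s2 : |(X - Xl X) * If * (n / E) - X * If| ≤ X * (e / 2 * If) + X * (η / 2) := by
    have e1 : (X - Xl X) * If * (n / E) - X * If = X * If * (n / E - 1) - Xl X * If * (n / E) := by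
      ring
    rw [e1]
    refine (abs_sub _ _).trans (add_le_add ?_ ?_)
    · rw [abs_mul, abs_of_nonneg (mul_nonneg hX0.le hI0)]
      have : |n / E - 1| ≤ e / 2 := abs_le.2 ⟨by linarith, by linarith⟩
      calc X * If * |n / E - 1| ≤ X * If * (e / 2) :=
            mul_le_mul_of_nonneg_left this (mul_nonneg hX0.le hI0)
        _ = _ := by ring
    · rw [abs_of_nonneg (mul_nonneg (mul_nonneg hXl.1 hI0) hr0)]
      calc Xl X * If * (n / E) ≤ Xl X * M * (1 + e / 2) := by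
            refine mul_le_mul (mul_le_mul_of_nonneg_left hIM hXl.1) hr2 hr0 ?_
            exact mul_nonneg hXl.1 (by linarith)
        _ = Xl X * (M * (1 + e / 2)) := by ring
        _ ≤ η / (2 * (M * (1 + e / 2))) * X * (M * (1 + e / 2)) :=
            mul_le_mul_of_nonneg_right hXl.2 (by positivity)
        _ = X * (η / 2) := by
            field_simp
  have s3 : J / E - X * If = (J / E - (X - Xl X) * If * (n / E)) +
      ((X - Xl X) * If * (n / E) - X * If) := by ring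
  rw [s3]
  refine (abs_add_le _ _).trans ((add_le_add s1 s2).trans ?_)
  have : 0 ≤ X * (e / 2 * If) := by positivity
  nlinarith

end Pool.Agent.N748.GC.ONE
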