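import Mathlib
import Pool.Agent.N748.GC.Stm

set_option autoImplicit false

/-!
Project GC: the primes beyond `exp (1 / (4 δ))` (helper99, subtask GC/TAIL).
-/

namespace Pool.Agent.N748.GC.TAIL

open Finset

/-- the primes between `z` and `z²` -/
theorem block {C : ℝ} (hC : 0 < C)
    (h : ∀ (z : ℕ) (x : ℝ), 2 ≤ z → (z:ℝ) ≤ x →
      |∑ p ∈ (Icc z ⌊x⌋₊).filter Nat.Prime, 1 / (p:ℝ) - Real.log (Real.log x / Real.log z)| ≤
        C / Real.log z) (z : ℕ) (δ : ℝ) (hz : 2 ≤ z) (hδ : 0 < δ) :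
    ∑ p ∈ (Icc z (z ^ 2)).filter Nat.Prime, wd δ p ≤
      (Real.log 2 + C / Real.log 2) * Real.exp (-(2 * (δ * Real.log z))) := by
  have hz' : (2 : ℝ) ≤ z := by exact_mod_cast hz
  have hlz : Real.log 2 ≤ Real.log z := Real.log_le_log (by norm_num) hz'
  have hl2 : 0 < Real.log 2 := Real.log_pos (by norm_num)
  have hl : 0 < Real.log z := by linarith
  have h1 := h z ((z : ℝ) ^ 2) hz (by nlinarith)
  have e1 : ⌊(z : ℝ) ^ 2⌋₊ = z ^ 2 := by
    have : ((z : ℝ) ^ 2) = ((z ^ 2 : ℕ) : ℝ) := by push_cast; rfl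
    rw [this, Nat.floor_natCast]
  have e2 : Real.log ((z : ℝ) ^ 2) / Real.log z = 2 := by
    rw [Real.log_pow]
    field_simp
    norm_num
  rw [e1, e2] at h1
  have h2 : ∑ p ∈ (Icc z (z ^ 2)).filter Nat.Prime, 1 / (p:ℝ) ≤ Real.log 2 + C / Real.log 2 := by
    have h3 := (abs_le.1 h1).2
    have h4 : C / Real.log z ≤ C / Real.log 2 := div_le_div_of_nonneg_left hC.le hl2 hlz
    linarith
  have e3 : Real.exp (-(2 * (δ * Real.log z))) = (z : ℝ) ^ (-(2 * δ)) := by
    rw [Real.rpow_def_of_pos (by linarith)]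
    congr 1
    ring
  rw [e3]
  calc ∑ p ∈ (Icc z (z ^ 2)).filter Nat.Prime, wd δ p
      ≤ ∑ p ∈ (Icc z (z ^ 2)).filter Nat.Prime, (z : ℝ) ^ (-(2 * δ)) * (1 / (p : ℝ)) := by
        refine sum_le_sum fun p hp => ?_
        rw [mem_filter, mem_Icc] at hp
        unfold wd
        have h5 : (z : ℝ) ≤ p := by exact_mod_cast hp.1.1
        refine mul_le_mul_of_nonneg_right ?_ (by positivity)
        exact Real.rpow_le_rpow_of_nonpos (by linarith) h5 (by linarith)
    _ = (z : ℝ) ^ (-(2 * δ)) * ∑ p ∈ (Icc z (z ^ 2)).filter Nat.Prime, 1 / (p : ℝ) := by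
        rw [mul_sum]
    _ ≤ (z : ℝ) ^ (-(2 * δ)) * (Real.log 2 + C / Real.log 2) :=
        mul_le_mul_of_nonneg_left h2 (by positivity)
    _ = _ := by ring

theorem ind {C : ℝ} (hC : 0 < C)
    (h : ∀ (z : ℕ) (x : ℝ), 2 ≤ z → (z:ℝ) ≤ x →
      |∑ p ∈ (Icc z ⌊x⌋₊).filter Nat.Prime, 1 / (p:ℝ) - Real.log (Real.log x / Real.log z)| ≤
        C / Real.log z) (Y : ℕ) (δ : ℝ) (hδ : 0 < δ) :
    ∀ (n z : ℕ), Y + 1 - z = n → 2 ≤ z → 1 / 4 ≤ δ * Real.log z →
    ∑ p ∈ (Icc z Y).filter Nat.Prime, wd δ p ≤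
      4 * (Real.log 2 + C / Real.log 2) * Real.exp (-(δ * Real.log z)) := by
  have hl2 : 0 < Real.log 2 := Real.log_pos (by norm_num)
  have hA : 0 < Real.log 2 + C / Real.log 2 := by positivity
  have hwd : ∀ p : ℕ, 0 ≤ wd δ p := fun p => by unfold wd; positivity
  intro n
  induction n using Nat.strong_induction_on with
  | _ n ih =>
    intro z hn hz hd
    by_cases hzY : z ≤ Y
    · have hzz : z < z ^ 2 := by nlinarith
      have hlog : Real.log ((z ^ 2 : ℕ) : ℝ) = 2 * Real.log z := by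
        push_cast
        rw [Real.log_pow]; norm_num
      have h1 := ih (Y + 1 - z ^ 2) (by omega) (z ^ 2) rfl (by nlinarith)
        (by rw [hlog]; nlinarith)
      rw [hlog] at h1
      have h2 := block hC h z δ hz hδ
      have h3 : ∑ p ∈ (Icc z Y).filter Nat.Prime, wd δ p ≤
          ∑ p ∈ (Icc z (z ^ 2)).filter Nat.Prime, wd δ p +
          ∑ p ∈ (Icc (z ^ 2) Y).filter Nat.Prime, wd δ p := by
        have hsub : (Icc z Y).filter Nat.Prime ⊆
            (Icc z (z ^ 2)).filter Nat.Prime ∪ (Icc (z ^ 2) Y).filter Nat.Prime := by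
          intro p hp
          simp only [mem_union, mem_filter, mem_Icc] at hp ⊢
          rcases le_total p (z ^ 2) with h5 | h5
          · left; exact ⟨⟨hp.1.1, h5⟩, hp.2⟩
          · right; exact ⟨⟨h5, hp.1.2⟩, hp.2⟩
        refine (sum_le_sum_of_subset_of_nonneg hsub fun p _ _ => hwd p).trans ?_
        have h6 := sum_union_inter (s₁ := (Icc z (z ^ 2)).filter Nat.Prime)
          (s₂ := (Icc (z ^ 2) Y).filter Nat.Prime) (f := wd δ)
        have h7 : 0 ≤ ∑ p ∈ (Icc z (z ^ 2)).filter Nat.Prime ∩ (Icc (z ^ 2) Y).filter Nat.Prime,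
            wd δ p := sum_nonneg fun p _ => hwd p
        linarith
      set t := δ * Real.log z with ht
      have e1 : Real.exp (-(2 * t)) = Real.exp (-t) * Real.exp (-t) := by
        rw [← Real.exp_add]; congr 1; ring
      have e2 : Real.exp (-(δ * (2 * Real.log z))) = Real.exp (-t) * Real.exp (-t) := by
        rw [← Real.exp_add]; congr 1; rw [ht]; ring
      have e3 : Real.exp (-t) ≤ 4 / 5 := by
        have h8 : (5 / 4 : ℝ) ≤ Real.exp t := by
          have := Real.add_one_le_exp t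
          linarith
        rw [Real.exp_neg]
        have := inv_anti₀ (by norm_num : (0 : ℝ) < 5 / 4) h8
        norm_num at this ⊢
        exact this
      have e4 : 0 < Real.exp (-t) := Real.exp_pos _
      rw [e1] at h2
      rw [e2] at h1
      have h9 : Real.exp (-t) * Real.exp (-t) ≤ 4 / 5 * Real.exp (-t) :=
        mul_le_mul_of_nonneg_right e3 e4.le
      calc _ ≤ _ := h3
        _ ≤ (Real.log 2 + C / Real.log 2) * (Real.exp (-t) * Real.exp (-t)) +
            4 * (Real.log 2 + C / Real.log 2) * (Real.exp (-t) * Real.exp (-t)) := add_le_add h2 h1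
        _ = 5 * (Real.log 2 + C / Real.log 2) * (Real.exp (-t) * Real.exp (-t)) := by ring
        _ ≤ 5 * (Real.log 2 + C / Real.log 2) * (4 / 5 * Real.exp (-t)) :=
            mul_le_mul_of_nonneg_left h9 (by positivity)
        _ = 4 * (Real.log 2 + C / Real.log 2) * Real.exp (-t) := by ring
    · rw [Icc_eq_empty (by omega), filter_empty, sum_empty]
      positivity

/-- the primes beyond `exp (1 / (4 δ))` -/
theorem main (h : S_MER) : S_TAIL := by
  obtain ⟨C, hC, h⟩ := h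
  have hl2 : 0 < Real.log 2 := Real.log_pos (by norm_num)
  refine ⟨4 * (Real.log 2 + C / Real.log 2), by positivity, ?_⟩
  intro z δ y hz hδ hd
  refine (ind hC h ⌊y⌋₊ δ hδ _ z rfl hz hd).trans ?_
  have h1 : Real.exp (-(δ * Real.log z)) ≤ 1 := Real.exp_le_one_iff.2 (by linarith)
  have h2 : 0 < 4 * (Real.log 2 + C / Real.log 2) := by positivity
  nlinarith

end Pool.Agent.N748.GC.TAIL
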