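import Pool.Agent.N748.GC.Stm

set_option autoImplicit false

/-!
# GC/WIN: the moments in almost all windows
-/

namespace Pool.Agent.N748.GC.WIN

open Finset Filter MeasureTheory Topology Complex
open Pool.Agent.N748.GC

/-! ### the density -/

theorem prime_of_Sm {z p : ℕ} (h : p ∈ Sm z) : p.Prime := (mem_filter.1 h).2

theorem lw_cont (α : ℝ) {p : ℕ} (hp : p.Prime) : Continuous (lw α p) := by
  have h1 : ∀ y : UnitAddCircle,
      ‖1 - (fourier 1 y : ℂ) * (((p:ℝ) ^ (-(1 / 2 : ℝ)) : ℝ) : ℂ)‖ ≠ 0 := by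
    intro y
    have hlt : (p:ℝ) ^ (-(1 / 2 : ℝ)) < 1 :=
      Real.rpow_lt_one_of_one_lt_of_neg (by exact_mod_cast hp.one_lt) (by norm_num)
    have hpos : 0 < (p:ℝ) ^ (-(1 / 2 : ℝ)) :=
      Real.rpow_pos_of_pos (by exact_mod_cast hp.pos) _
    have h2 : ‖(fourier 1 y : ℂ) * (((p:ℝ) ^ (-(1 / 2 : ℝ)) : ℝ) : ℂ)‖ < 1 := by
      rw [norm_mul, Complex.norm_real, Real.norm_of_nonneg hpos.le]
      have : ‖(fourier 1 y : ℂ)‖ = 1 := by rw [fourier_apply]; exact Circle.norm_coe _
      rw [this, one_mul]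
      exact hlt
    intro h3
    have h4 : (1 : ℂ) = (fourier 1 y : ℂ) * (((p:ℝ) ^ (-(1 / 2 : ℝ)) : ℝ) : ℂ) :=
      sub_eq_zero.1 (norm_eq_zero.1 h3)
    rw [← h4, norm_one] at h2
    exact lt_irrefl _ h2
  unfold lw
  refine Continuous.mul continuous_const (Continuous.log ?_ h1)
  exact (continuous_const.sub ((fourier 1).continuous.mul continuous_const)).norm

theorem E0_pos (α : ℝ) (z : ℕ) : 0 < E0 α (Sm z) := by
  refine prod_pos fun p _ => ?_
  have hc : Continuous fun y => Real.exp (lw α p y) :=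
    Real.continuous_exp.comp (lw_cont α (prime_of_Sm p.2))
  refine Continuous.integral_pos_of_hasCompactSupport_nonneg_nonzero hc ?_ ?_ (x := 0) ?_
  · exact HasCompactSupport.of_compactSpace _
  · exact fun y => (Real.exp_pos _).le
  · exact (Real.exp_pos _).ne'

theorem M0_cont (α : ℝ) (z : ℕ) : Continuous (M0 α (Sm z)) := by
  unfold M0
  refine Continuous.div_const (Real.continuous_exp.comp ?_) _
  exact continuous_finsetSum _ fun p _ => (lw_cont α (prime_of_Sm p.2)).comp (continuous_apply p)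

theorem M0_int (α : ℝ) (z : ℕ) : ∫ x, M0 α (Sm z) x ∂(HP (Sm z)) = 1 := by
  have h1 : ∫ x, Real.exp (∑ p : Sm z, lw α p (x p)) ∂(HP (Sm z)) = E0 α (Sm z) := by
    simp_rw [Real.exp_sum]
    unfold HP E0
    exact integral_fintype_prod_eq_prod (fun (p : Sm z) (y : UnitAddCircle) => Real.exp (lw α p y))
  unfold M0
  rw [integral_div, h1, div_self (E0_pos α z).ne']

theorem pt_cont (P : Finset ℕ) : Continuous (pt P) := by
  unfold pt
  refine continuous_pi fun p => ?_
  refine (AddCircle.continuous_mk' 1).comp ?_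
  fun_prop

theorem mz_cont (α : ℝ) (z : ℕ) : Continuous (mz α z) := by
  unfold mz
  exact (M0_cont α z).comp (pt_cont _)

theorem Zn_cont {α δ : ℝ} (hα : 0 < α) (hδ : 0 < δ) (hδ1 : δ ≤ 1 / 16) : Continuous (Zn α δ) := by
  unfold Zn
  refine continuous_const.mul ?_
  refine Continuous.rpow_const ?_ fun x => Or.inr (by positivity)
  refine Continuous.norm ?_
  rw [continuous_iff_continuousAt]
  intro u
  have h1 : (1 / 2 + (δ : ℂ) + (u : ℂ) * I) ≠ 1 := by
    intro h
    have := congrArg Complex.re h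
    simp at this
    linarith
  have h2 : ContinuousAt riemannZeta (1 / 2 + (δ : ℂ) + (u : ℂ) * I) :=
    (differentiableAt_riemannZeta h1).continuousAt
  refine ContinuousAt.comp (f := fun u : ℝ => (1 / 2 + (δ : ℂ) + (u : ℂ) * I)) h2 ?_
  fun_prop

/-! ### windows -/

/-- a partial unit window as a weight -/
theorem window {g : ℝ → ℝ} (hg : Continuous g) {c : ℝ} (hc0 : 0 ≤ c) (hc1 : c ≤ 1) (s : ℝ) :
    ∫ x in (0:ℝ)..1, (if x ≤ c then (1:ℝ) else 0) * g (s + x) = ∫ u in s..(s + c), g u := by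
  have hm : Measurable fun x : ℝ => if x ≤ c then (1:ℝ) else 0 :=
    Measurable.ite measurableSet_Iic measurable_const measurable_const
  have hint : ∀ a b : ℝ, IntervalIntegrable (fun x => (if x ≤ c then (1:ℝ) else 0) * g (s + x))
      volume a b := by
    intro a b
    have h1 : IntervalIntegrable (fun x => g (s + x)) volume a b :=
      (hg.comp (continuous_const.add continuous_id)).intervalIntegrable a b
    rw [intervalIntegrable_iff] at h1 ⊢
    refine Integrable.bdd_mul h1 hm.aestronglyMeasurable (c := 1) ?_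
    refine Eventually.of_forall fun x => ?_
    split_ifs <;> simp
  rw [← intervalIntegral.integral_add_adjacent_intervals (hint 0 c) (hint c 1)]
  have e1 : ∫ x in (0:ℝ)..c, (if x ≤ c then (1:ℝ) else 0) * g (s + x) =
      ∫ x in (0:ℝ)..c, g (s + x) := by
    refine intervalIntegral.integral_congr_ae ?_
    refine Eventually.of_forall fun x hx => ?_
    rw [Set.uIoc_of_le hc0] at hx
    rw [if_pos hx.2, one_mul]
  have e2 : ∫ x in c..1, (if x ≤ c then (1:ℝ) else 0) * g (s + x) = ∫ x in c..1, (0:ℝ) := by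
    refine intervalIntegral.integral_congr_ae ?_
    refine Eventually.of_forall fun x hx => ?_
    rw [Set.uIoc_of_le hc1] at hx
    rw [if_neg (not_le.2 hx.1), zero_mul]
  rw [e1, e2, intervalIntegral.integral_zero, add_zero]
  have := intervalIntegral.integral_comp_add_left (a := 0) (b := c) g s
  rw [add_zero] at this
  exact this

/-- decomposition into unit windows -/
theorem decomp {g : ℝ → ℝ} (hg : Continuous g) (t : ℝ) {H : ℝ} (hH : 0 < H) :
    ∫ u in t..(t + H), g u =
      ∑ k ∈ range ⌈H⌉₊, ∫ u in (t + k)..(t + k + min 1 (H - k)), g u := by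
  have h1 := intervalIntegral.sum_integral_adjacent_intervals (f := g) (μ := volume)
    (a := fun k : ℕ => t + min (k : ℝ) H) (n := ⌈H⌉₊) (fun k _ => hg.intervalIntegrable _ _)
  have h2 : t + min (((⌈H⌉₊ : ℕ)) : ℝ) H = t + H := by rw [min_eq_right (Nat.le_ceil H)]
  have h3 : t + min (((0 : ℕ)) : ℝ) H = t := by
    rw [Nat.cast_zero, min_eq_left hH.le, add_zero]
  simp only [h2, h3] at h1
  rw [← h1]
  refine sum_congr rfl fun k hk => ?_
  have hk1 : (k : ℝ) < H := Nat.lt_ceil.1 (mem_range.1 hk)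
  have e1 : t + min (k : ℝ) H = t + k := by rw [min_eq_left hk1.le]
  have e2 : t + min (((k + 1 : ℕ)) : ℝ) H = t + k + min 1 (H - k) := by
    push_cast
    have : min ((k : ℝ) + 1) H = k + min 1 (H - k) := by
      rw [← min_add_add_left]
      congr 1
      ring
    rw [this, add_assoc]
  rw [e1, e2]

theorem prim_cont {g : ℝ → ℝ} (hg : Continuous g) (c : ℝ) :
    Continuous fun s : ℝ => ∫ u in s..(s + c), g u := by
  have h1 : ∀ s : ℝ, ∫ u in s..(s + c), g u =
      (∫ u in (0:ℝ)..(s + c), g u) - ∫ u in (0:ℝ)..s, g u := by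
    intro s
    rw [← intervalIntegral.integral_interval_sub_left (hg.intervalIntegrable _ _)
      (hg.intervalIntegrable _ _)]
  simp_rw [h1]
  have h2 : Continuous fun s : ℝ => ∫ u in (0:ℝ)..s, g u :=
    intervalIntegral.continuous_primitive (fun a b => hg.intervalIntegrable a b) 0
  exact (h2.comp (continuous_id.add continuous_const)).sub h2

/-- the mean over a long window from the unit windows -/
theorem mean_bound {g : ℝ → ℝ} (hg : Continuous g) {T H E : ℝ} (hT : 1 ≤ T) (hH : 1 ≤ H)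
    (hHT : H ≤ T)
    (hE : ∀ c : ℝ, 0 ≤ c → c ≤ 1 →
      ∫ s in (0:ℝ)..(2 * T + 2), |∫ u in s..(s + c), g u| ≤ E) (hE0 : 0 ≤ E) :
    ∫ t in (0:ℝ)..T, |(1 / H) * ∫ u in t..(t + H), g u| ≤ 2 * E := by
  have hH0 : 0 < H := by linarith
  have hT0 : 0 ≤ T := by linarith
  have hn : ((⌈H⌉₊ : ℕ) : ℝ) ≤ 2 * H := by
    have := (Nat.ceil_lt_add_one hH0.le).le
    linarith
  have hcontk : ∀ k : ℕ, Continuous fun t : ℝ => |∫ u in (t + k)..(t + k + min 1 (H - k)), g u| :=
    fun k => ((prim_cont hg (min 1 (H - k))).comp (continuous_id.add continuous_const)).abs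
  have h1 : ∀ t : ℝ, |(1 / H) * ∫ u in t..(t + H), g u| ≤
      (1 / H) * ∑ k ∈ range ⌈H⌉₊, |∫ u in (t + k)..(t + k + min 1 (H - k)), g u| := by
    intro t
    rw [abs_mul, abs_of_pos (by positivity : (0:ℝ) < 1 / H), decomp hg t hH0]
    exact mul_le_mul_of_nonneg_left (abs_sum_le_sum_abs _ _) (by positivity)
  have h2 : ∫ t in (0:ℝ)..T, |(1 / H) * ∫ u in t..(t + H), g u| ≤
      ∫ t in (0:ℝ)..T, (1 / H) * ∑ k ∈ range ⌈H⌉₊, |∫ u in (t + k)..(t + k + min 1 (H - k)), g u| := by
    refine intervalIntegral.integral_mono_on hT0 ?_ ?_ fun t _ => h1 t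
    · exact ((continuous_const.mul (prim_cont hg H)).abs).intervalIntegrable _ _
    · exact (continuous_const.mul (continuous_finsetSum _ fun k _ => hcontk k)).intervalIntegrable _ _
  refine h2.trans ?_
  rw [intervalIntegral.integral_const_mul, intervalIntegral.integral_finsetSum
    fun k _ => (hcontk k).intervalIntegrable _ _]
  have h3 : ∀ k ∈ range ⌈H⌉₊,
      ∫ t in (0:ℝ)..T, |∫ u in (t + k)..(t + k + min 1 (H - k)), g u| ≤ E := by
    intro k hk
    have hk1 : (k : ℝ) < H := Nat.lt_ceil.1 (mem_range.1 hk)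
    have hc0 : 0 ≤ min 1 (H - k) := le_min zero_le_one (by linarith)
    have hc1 : min 1 (H - k) ≤ 1 := min_le_left _ _
    refine le_trans ?_ (hE _ hc0 hc1)
    have h4 := intervalIntegral.integral_comp_add_right (a := 0) (b := T)
      (fun s : ℝ => |∫ u in s..(s + min 1 (H - k)), g u|) (k : ℝ)
    rw [zero_add] at h4
    rw [h4]
    have hcs : Continuous fun s : ℝ => |∫ u in s..(s + min 1 (H - k)), g u| :=
      (prim_cont hg _).abs
    have hk0 : (0:ℝ) ≤ k := Nat.cast_nonneg k
    refine intervalIntegral.integral_mono_interval (c := 0) (d := 2 * T + 2) hk0 (by linarith)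
      (by linarith) (Eventually.of_forall fun s => abs_nonneg _) (hcs.intervalIntegrable _ _)
  calc (1 / H) * ∑ k ∈ range ⌈H⌉₊,
        ∫ t in (0:ℝ)..T, |∫ u in (t + k)..(t + k + min 1 (H - k)), g u|
      ≤ (1 / H) * ∑ k ∈ range ⌈H⌉₊, E :=
        mul_le_mul_of_nonneg_left (sum_le_sum h3) (by positivity)
    _ = (1 / H) * ((⌈H⌉₊ : ℕ) * E) := by rw [sum_const, card_range, nsmul_eq_mul]
    _ ≤ (1 / H) * ((2 * H) * E) :=
        mul_le_mul_of_nonneg_left (mul_le_mul_of_nonneg_right hn hE0) (by positivity)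
    _ = 2 * E := by field_simp

theorem main (hcore : S_CORE) (herg : S_ERG) : S_WIN := by
  intro α hα hα1 δ hδ H hH hHT
  rw [Metric.tendsto_nhds]
  intro ε hε
  have hε' : 0 < ε / 10 := by positivity
  obtain ⟨z, hz⟩ := hcore α hα hα1 (ε / 10) hε'
  obtain ⟨lam, δ0, hlam, hδ0, hδ01, hev⟩ := hz z le_rfl
  obtain ⟨H0, hH0, hH1⟩ := herg (Sm z) (fun p hp => prime_of_Sm hp) (M0 α (Sm z)) (M0_cont α z)
    (ε / 10) hε'
  have hev' : ∀ᶠ T : ℝ in atTop, ∀ δ : ℝ, lam / Real.log (2 * T + 2) ≤ δ → δ ≤ δ0 →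
      ∀ f : ℝ → ℝ, Measurable f → (∀ x, |f x| ≤ 1) →
      ∫ t in (0:ℝ)..(2 * T + 2), |∫ x in (0:ℝ)..1, f x * (Zn α δ (t + x) - mz α z (t + x))| ≤
        ε / 10 * (2 * T + 2) := by
    have ht : Tendsto (fun T : ℝ => 2 * T + 2) atTop atTop :=
      tendsto_atTop_add_const_right _ _ (Tendsto.const_mul_atTop (by norm_num) tendsto_id)
    exact ht.eventually hev
  filter_upwards [hev', hδ.tL.eventually_ge_atTop lam, hδ.t0.eventually_le_const hδ0,
    hH.eventually_ge_atTop H0, hH.eventually_ge_atTop 1, hHT, eventually_ge_atTop (3:ℝ)]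
    with T h1 h2 h3 h4 h5 h6 h7
  have hT0 : 0 < T := by linarith
  have hlogT : 0 < Real.log T := Real.log_pos (by linarith)
  have hd1 : lam / Real.log (2 * T + 2) ≤ δ T := by
    have ha : lam / Real.log (2 * T + 2) ≤ lam / Real.log T := by
      refine div_le_div_of_nonneg_left (by linarith) hlogT ?_
      exact Real.log_le_log hT0 (by linarith)
    have hb : lam / Real.log T ≤ δ T := by rw [div_le_iff₀ hlogT]; exact h2
    exact ha.trans hb
  have hdpos : 0 < δ T := by
    have : 0 < δ T * Real.log T := by linarith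
    exact (pos_iff_pos_of_mul_pos this).2 hlogT
  have hZ : Continuous (Zn α (δ T)) := Zn_cont hα hdpos (h3.trans hδ01)
  have hM : Continuous (mz α z) := mz_cont α z
  set g : ℝ → ℝ := fun u => Zn α (δ T) u - mz α z u with hg
  have hgc : Continuous g := hZ.sub hM
  have hE : ∀ c : ℝ, 0 ≤ c → c ≤ 1 →
      ∫ s in (0:ℝ)..(2 * T + 2), |∫ u in s..(s + c), g u| ≤ ε / 10 * (2 * T + 2) := by
    intro c hc0 hc1
    have h8 := h1 (δ T) hd1 h3 (fun x => if x ≤ c then (1:ℝ) else 0)
      (Measurable.ite measurableSet_Iic measurable_const measurable_const)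
      (fun x => by split_ifs <;> simp)
    refine le_trans (le_of_eq ?_) h8
    refine intervalIntegral.integral_congr fun s _ => ?_
    show |∫ u in s..(s + c), g u| = _
    rw [← window hgc hc0 hc1 s]
  have hmain := mean_bound hgc (by linarith : (1:ℝ) ≤ T) h5 h6 hE (by positivity)
  have hmz : ∀ t : ℝ, |(1 / H T) * (∫ u in t..(t + H T), mz α z u) - 1| ≤ ε / 10 := by
    intro t
    have := hH1 (H T) h4 t
    rw [M0_int] at this
    rw [one_div, ← div_eq_inv_mul]
    exact this
  have hpt : ∀ t : ℝ, |(1 / H T) * (∫ u in t..(t + H T), Zn α (δ T) u) - 1| ≤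
      |(1 / H T) * ∫ u in t..(t + H T), g u| + ε / 10 := by
    intro t
    have e1 : ∫ u in t..(t + H T), g u = (∫ u in t..(t + H T), Zn α (δ T) u) -
        ∫ u in t..(t + H T), mz α z u :=
      intervalIntegral.integral_sub (hZ.intervalIntegrable _ _) (hM.intervalIntegrable _ _)
    have e2 : (1 / H T) * (∫ u in t..(t + H T), Zn α (δ T) u) - 1 =
        (1 / H T) * (∫ u in t..(t + H T), g u) +
        ((1 / H T) * (∫ u in t..(t + H T), mz α z u) - 1) := by
      rw [e1]; ring
    rw [e2]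
    exact (abs_add_le _ _).trans (add_le_add le_rfl (hmz t))
  have hfin : ∫ t in (0:ℝ)..T, |(1 / H T) * (∫ u in t..(t + H T), Zn α (δ T) u) - 1| ≤
      2 * (ε / 10 * (2 * T + 2)) + ε / 10 * T := by
    have h9 : ∫ t in (0:ℝ)..T, |(1 / H T) * (∫ u in t..(t + H T), Zn α (δ T) u) - 1| ≤
        ∫ t in (0:ℝ)..T, (|(1 / H T) * ∫ u in t..(t + H T), g u| + ε / 10) := by
      refine intervalIntegral.integral_mono_on hT0.le ?_ ?_ fun t _ => hpt t
      · exact (((continuous_const.mul (prim_cont hZ _)).sub continuous_const).abs).intervalIntegrable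
          _ _
      · exact (((continuous_const.mul (prim_cont hgc _)).abs).add
          continuous_const).intervalIntegrable _ _
    refine h9.trans ?_
    have hi1 : IntervalIntegrable (fun t : ℝ => |(1 / H T) * ∫ u in t..(t + H T), g u|) volume 0 T :=
      ((continuous_const.mul (prim_cont hgc (H T))).abs).intervalIntegrable _ _
    have hi2 : IntervalIntegrable (fun _ : ℝ => ε / 10) volume 0 T :=
      continuous_const.intervalIntegrable _ _
    rw [intervalIntegral.integral_add hi1 hi2, intervalIntegral.integral_const, smul_eq_mul,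
      sub_zero]
    linarith
  have hnn : 0 ≤ ∫ t in (0:ℝ)..T, |(1 / H T) * (∫ u in t..(t + H T), Zn α (δ T) u) - 1| :=
    intervalIntegral.integral_nonneg hT0.le fun t _ => abs_nonneg _
  rw [Real.dist_eq, sub_zero, abs_of_nonneg (mul_nonneg (by positivity) hnn), one_div,
    inv_mul_lt_iff₀ hT0]
  nlinarith

end Pool.Agent.N748.GC.WIN
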