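import Pool.Agent.N748.GC.Cor2
import Pool.Agent.N748.GC.LAM
import Pool.Agent.N748.GC.NC
import Pool.Agent.N748.GC.DISL
import Pool.Agent.N748.GC.WIN
import Pool.Agent.N748.GC.ONE
import Pool.Agent.N748.GC.BADA
import Pool.Agent.N748.GC.BADB
import Pool.Agent.N748.GC.TWO
import Pool.Agent.N748.GC.NNB
import Pool.Agent.N748.GC.NNL
import Pool.Agent.N748.GC.NNQ
import Pool.Agent.N748.GC.LEN
import Pool.Agent.N748.GC.COS
import Pool.Agent.N748.GC.TAIL
import Pool.Agent.N748.GC.MOM
import Pool.Agent.N748.GC.ED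

set_option autoImplicit false

/-! Local moments near the critical line: the parts together. -/

namespace Pool.Agent.N748.GC

open Finset Filter MeasureTheory Topology Complex

theorem coreF : S_CORE :=
  core (ONE.main NNB.main NNL.main LEN.main) (BADA.main NNQ.main LEN.main) (BADB.main NNB.main LEN.main COS.mer)
    (TWO.main NNB.main LEN.main COS.cos COS.mer (TAIL.main COS.mer)) ASM.main (ED.cut (MOM.main COS.mer))
    (ED.ed' (MOM.main COS.mer))

/-- the almost sure limits agree with the `L¹` limits -/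
theorem lim_unique {X : ℕ → Om → ℝ} {Y L : Om → ℝ} (hX : ∀ z, Integrable (X z) PO) (hL : Integrable L PO)
    (h1 : Tendsto (fun z => ∫ w, |X z w - L w| ∂PO) atTop (𝓝 0))
    (h2 : ∀ᵐ w ∂PO, Tendsto (fun z => X z w) atTop (𝓝 (Y w))) : Y =ᵐ[PO] L := by
  have m1 : TendstoInMeasure PO X atTop L := by
    refine tendstoInMeasure_of_tendsto_eLpNorm (p := 1) one_ne_zero (fun z => (hX z).aestronglyMeasurable)
      hL.aestronglyMeasurable ?_
    have e1 : ∀ z, eLpNorm (X z - L) 1 PO = ENNReal.ofReal (∫ w, |X z w - L w| ∂PO) := by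
      intro z
      rw [eLpNorm_one_eq_lintegral_enorm, ← ofReal_integral_norm_eq_lintegral_enorm ((hX z).sub hL)]
      rfl
    simp_rw [e1]
    have := (ENNReal.continuous_ofReal.tendsto 0).comp h1
    rw [ENNReal.ofReal_zero] at this
    exact this
  have m2 : TendstoInMeasure PO X atTop Y :=
    tendstoInMeasure_of_tendsto_ae (fun z => (hX z).aestronglyMeasurable) h2
  exact tendstoInMeasure_ae_unique m2 m1

end Pool.Agent.N748.GC
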