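import Pool.Agent.N748.GC.L2
import Pool.Agent.N748.GC.TAIL
import Pool.Agent.N748.GC.TWO

set_option autoImplicit false

/-!
# GC2/KAP: the correlations are close to `1` on average
-/

namespace Pool.Agent.N748.GC.KAP

open Finset Filter MeasureTheory MonoidAlgebra Topology Complex Pool.Agent.N748.GC

lemma wd_exp (δ : ℝ) {p : ℕ} (hp : 1 ≤ p) : wd δ p = Real.exp (-((1 + 2 * δ) * Real.log p)) := by
  have h0 : (0:ℝ) < p := by exact_mod_cast hp
  unfold wd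
  rw [Real.rpow_def_of_pos h0, one_div, ← Real.exp_log (inv_pos.2 h0), Real.log_inv, ← Real.exp_add]
  congr 1
  ring

lemma pw (δ h : ℝ) {p : ℕ} (hp : 1 ≤ p) : (p:ℂ) ^ (-(1 + 2 * δ + h * I : ℂ)) =
    (wd δ p : ℂ) * Complex.exp (((-(h * Real.log p) : ℝ) : ℂ) * I) := by
  have h0 : (p:ℂ) ≠ 0 := by exact_mod_cast (by omega : p ≠ 0)
  rw [Complex.cpow_def_of_ne_zero h0, ← Complex.natCast_log, wd_exp δ hp, Complex.ofReal_exp,
    ← Complex.exp_add]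
  congr 1
  push_cast
  ring

lemma pw_re (δ h : ℝ) {p : ℕ} (hp : 1 ≤ p) :
    ((p:ℂ) ^ (-(1 + 2 * δ + h * I : ℂ))).re = Real.cos (h * Real.log p) * wd δ p := by
  rw [pw δ h hp, Complex.re_ofReal_mul, Complex.exp_ofReal_mul_I_re, Real.cos_neg]
  ring

lemma wd_pos (δ : ℝ) {p : ℕ} (hp : 1 ≤ p) : 0 < wd δ p := by
  rw [wd_exp δ hp]; exact Real.exp_pos _

lemma pw_norm (δ h : ℝ) {p : ℕ} (hp : 1 ≤ p) :
    ‖(p:ℂ) ^ (-(1 + 2 * δ + h * I : ℂ))‖ = wd δ p := by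
  rw [pw δ h hp, norm_mul, Complex.norm_exp_ofReal_mul_I, mul_one, Complex.norm_real,
    Real.norm_of_nonneg (wd_pos δ hp).le]

lemma factor {w : ℂ} (hw : ‖w‖ < 1) : Real.exp (w.re - ‖w‖ ^ 2 / 2) ≤ ‖(1 - w)⁻¹‖ := by
  have h1 : 0 < ‖1 - w‖ := by
    rw [norm_pos_iff, sub_ne_zero]
    rintro rfl
    rw [norm_one] at hw
    exact lt_irrefl _ hw
  have h2 : ‖1 - w‖ ^ 2 ≤ Real.exp (-w.re + ‖w‖ ^ 2 / 2) ^ 2 := by
    rw [← Real.exp_nat_mul]
    have e1 : ‖1 - w‖ ^ 2 = 1 + (-(2 * w.re) + ‖w‖ ^ 2) := by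
      rw [← Complex.normSq_eq_norm_sq, ← Complex.normSq_eq_norm_sq, Complex.normSq_apply,
        Complex.normSq_apply]
      simp only [sub_re, sub_im, one_re, one_im]
      ring
    have e2 := Real.add_one_le_exp (-(2 * w.re) + ‖w‖ ^ 2)
    have e3 : ((2:ℕ):ℝ) * (-w.re + ‖w‖ ^ 2 / 2) = -(2 * w.re) + ‖w‖ ^ 2 := by push_cast; ring
    rw [e1, e3]
    linarith
  have h3 : ‖1 - w‖ ≤ Real.exp (-w.re + ‖w‖ ^ 2 / 2) :=
    le_of_sq_le_sq h2 (Real.exp_pos _).le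
  rw [norm_inv]
  have h4 := inv_anti₀ h1 h3
  rw [← Real.exp_neg] at h4
  refine le_trans (le_of_eq ?_) h4
  congr 1
  ring

/-- the lower bound for the zeta function without the primes below `z` -/
lemma lower {A : ℝ} (hA : 0 < A)
    (hind : ∀ (Y z : ℕ) (δ : ℝ), 0 < δ → 2 ≤ z → 1 / 4 ≤ δ * Real.log z →
      ∑ p ∈ (Icc z Y).filter Nat.Prime, wd δ p ≤ A * Real.exp (-(δ * Real.log z)))
    {z : ℕ} (hz : 2 ≤ z) {δ y : ℝ} (hδ : 0 < δ) (hzy : (z:ℝ) ≤ y) {lam : ℝ} (hlam : 1 ≤ lam)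
    (hAl : A * Real.exp (-lam) ≤ 1 / z) (hy : lam ≤ δ * Real.log y) (h : ℝ) :
    Real.exp ((∑ p ∈ (Icc z ⌊y⌋₊).filter Nat.Prime, Real.cos (h * Real.log p) * wd δ p) - 2 / z) ≤
      ‖riemannZeta (1 + 2 * δ + h * I) *
        ∏ p ∈ Sm z, (1 - (p:ℂ) ^ (-(1 + 2 * δ + h * I : ℂ)))‖ := by
  set s : ℂ := 1 + 2 * δ + h * I with hs
  have hsre : 1 < s.re := by
    rw [hs]
    simp only [add_re, one_re, mul_re, ofReal_re, ofReal_im, I_re, I_im, re_ofNat, im_ofNat]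
    linarith
  have hz0 : (0:ℝ) < z := by exact_mod_cast (by omega : 0 < z)
  have hlim : Tendsto (fun n : ℕ => ‖(∏ p ∈ Nat.primesBelow n, (1 - (p : ℂ) ^ (-s))⁻¹) *
      ∏ p ∈ Sm z, (1 - (p:ℂ) ^ (-s))‖) atTop
      (𝓝 ‖riemannZeta s * ∏ p ∈ Sm z, (1 - (p:ℂ) ^ (-s))‖) :=
    ((riemannZeta_eulerProduct hsre).mul_const _).norm
  refine ge_of_tendsto hlim ?_
  filter_upwards [eventually_ge_atTop (⌊y⌋₊ + 1)] with n hn
  have hzf : z ≤ ⌊y⌋₊ := Nat.le_floor hzy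
  have hlt : ∀ p : ℕ, p.Prime → ‖(p:ℂ) ^ (-s)‖ < 1 := by
    intro p hp
    rw [hs, pw_norm δ h hp.one_lt.le, wd_exp δ hp.one_lt.le, Real.exp_lt_one_iff]
    have : 0 < Real.log p := Real.log_pos (by exact_mod_cast hp.one_lt)
    nlinarith
  have hne : ∀ p : ℕ, p.Prime → (1 - (p:ℂ) ^ (-s)) ≠ 0 := by
    intro p hp h0
    have h1 := hlt p hp
    rw [← sub_eq_zero.1 h0, norm_one] at h1
    exact lt_irrefl _ h1
  have hsplit : (∏ p ∈ Nat.primesBelow n, (1 - (p : ℂ) ^ (-s))⁻¹) *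
      ∏ p ∈ Sm z, (1 - (p:ℂ) ^ (-s)) = ∏ p ∈ (Ico z n).filter Nat.Prime, (1 - (p : ℂ) ^ (-s))⁻¹ := by
    have h1 : Nat.primesBelow n = Sm z ∪ (Ico z n).filter Nat.Prime := by
      ext p
      simp only [Nat.mem_primesBelow, Sm, mem_union, mem_filter, mem_range, mem_Ico]
      constructor
      · rintro ⟨h1, h2⟩
        rcases lt_or_ge p z with h3 | h3
        · exact Or.inl ⟨h3, h2⟩
        · exact Or.inr ⟨⟨h3, h1⟩, h2⟩
      · rintro (⟨h1, h2⟩ | ⟨⟨h1, h3⟩, h2⟩)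
        · exact ⟨by omega, h2⟩
        · exact ⟨h3, h2⟩
    have h2 : Disjoint (Sm z) ((Ico z n).filter Nat.Prime) := by
      rw [Finset.disjoint_left]
      intro p hp hp'
      simp only [Sm, mem_filter, mem_range, mem_Ico] at hp hp'
      omega
    rw [h1, prod_union h2, mul_right_comm, ← prod_mul_distrib]
    have h3 : ∏ p ∈ Sm z, (1 - (p : ℂ) ^ (-s))⁻¹ * (1 - (p:ℂ) ^ (-s)) = 1 := by
      refine prod_eq_one fun p hp => inv_mul_cancel₀ (hne p ?_)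
      simp only [Sm, mem_filter] at hp
      exact hp.2
    rw [h3, one_mul]
  rw [hsplit, norm_prod]
  have h4 : Real.exp (∑ p ∈ (Ico z n).filter Nat.Prime,
      (Real.cos (h * Real.log p) * wd δ p - wd δ p ^ 2 / 2)) ≤
      ∏ p ∈ (Ico z n).filter Nat.Prime, ‖(1 - (p : ℂ) ^ (-s))⁻¹‖ := by
    rw [Real.exp_sum]
    refine prod_le_prod (fun p _ => (Real.exp_pos _).le) fun p hp => ?_
    have hpp : p.Prime := (mem_filter.1 hp).2
    have h5 := factor (hlt p hpp)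
    rw [hs, pw_re δ h hpp.one_lt.le, pw_norm δ h hpp.one_lt.le, ← hs] at h5
    exact h5
  refine le_trans (Real.exp_le_exp.2 ?_) h4
  rw [sum_sub_distrib]
  have h5 : (Ico z n).filter Nat.Prime = (Icc z ⌊y⌋₊).filter Nat.Prime ∪
      (Ico (⌊y⌋₊ + 1) n).filter Nat.Prime := by
    ext p
    simp only [mem_union, mem_filter, mem_Ico, mem_Icc]
    constructor
    · rintro ⟨⟨h1, h2⟩, h3⟩
      rcases le_or_gt p ⌊y⌋₊ with h4 | h4
      · exact Or.inl ⟨⟨h1, h4⟩, h3⟩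
      · exact Or.inr ⟨⟨h4, h2⟩, h3⟩
    · rintro (⟨⟨h1, h2⟩, h3⟩ | ⟨⟨h1, h2⟩, h3⟩)
      · exact ⟨⟨h1, by omega⟩, h3⟩
      · exact ⟨⟨by omega, h2⟩, h3⟩
  have h6 : Disjoint ((Icc z ⌊y⌋₊).filter Nat.Prime) ((Ico (⌊y⌋₊ + 1) n).filter Nat.Prime) := by
    rw [Finset.disjoint_left]
    intro p hp hp'
    simp only [mem_filter, mem_Ico, mem_Icc] at hp hp'
    omega
  have h7 : ∑ p ∈ (Ico z n).filter Nat.Prime, (wd δ p ^ 2 / 2 : ℝ) ≤ 1 / (z:ℝ) := by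
    have e1 : ∑ p ∈ (Ico z n).filter Nat.Prime, (wd δ p ^ 2 / 2 : ℝ) ≤
        ∑ p ∈ Ioo (z - 1) n, (((p:ℝ) ^ 2)⁻¹ / 2 : ℝ) := by
      calc _ ≤ ∑ p ∈ (Ico z n).filter Nat.Prime, ((p:ℝ) ^ 2)⁻¹ / 2 := by
            refine sum_le_sum fun p hp => ?_
            simp only [mem_filter, mem_Ico] at hp
            have hp1 : 1 ≤ p := by omega
            have hp0 : (0:ℝ) < p := by exact_mod_cast hp1
            have e2 := TWO.wd_le hδ.le hp1
            have e3 : wd δ p ^ 2 ≤ (1 / (p:ℝ)) ^ 2 :=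
              pow_le_pow_left₀ (wd_pos δ hp1).le e2 2
            have e4 : (1 / (p:ℝ)) ^ 2 = ((p:ℝ) ^ 2)⁻¹ := by
              rw [one_div, inv_pow]
            rw [e4] at e3
            linarith
        _ ≤ _ := by
            refine sum_le_sum_of_subset_of_nonneg ?_ fun p _ _ => by positivity
            intro p hp
            simp only [mem_filter, mem_Ico] at hp
            rw [mem_Ioo]
            omega
    have e2 := sum_Ioo_inv_sq_le (α := ℝ) (z - 1) n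
    have e3 : (((z - 1 : ℕ) : ℝ) + 1) = z := by
      have : (z - 1) + 1 = z := Nat.sub_add_cancel (by omega)
      exact_mod_cast this
    rw [e3] at e2
    refine e1.trans ?_
    rw [← sum_div, div_le_iff₀ (by norm_num)]
    refine e2.trans (le_of_eq ?_)
    ring
  have h8 : -(1 / (z:ℝ)) ≤ ∑ p ∈ (Ico (⌊y⌋₊ + 1) n).filter Nat.Prime,
      Real.cos (h * Real.log p) * wd δ p := by
    have hy0 : 0 < y := by linarith
    have e0 : y ≤ ((⌊y⌋₊ + 1 : ℕ) : ℝ) := by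
      push_cast
      exact (Nat.lt_floor_add_one y).le
    have e1 : lam ≤ δ * Real.log ((⌊y⌋₊ + 1 : ℕ) : ℝ) :=
      hy.trans (mul_le_mul_of_nonneg_left (Real.log_le_log hy0 e0) hδ.le)
    have e2 := hind (n - 1) (⌊y⌋₊ + 1) δ hδ (by omega) (by linarith)
    have e3 : A * Real.exp (-(δ * Real.log ((⌊y⌋₊ + 1 : ℕ) : ℝ))) ≤ 1 / z := by
      refine le_trans (mul_le_mul_of_nonneg_left (Real.exp_le_exp.2 ?_) hA.le) hAl
      linarith
    have e4 : Ico (⌊y⌋₊ + 1) n = Icc (⌊y⌋₊ + 1) (n - 1) := by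
      ext p
      simp only [mem_Ico, mem_Icc]
      omega
    rw [e4]
    have e5 : -∑ p ∈ (Icc (⌊y⌋₊ + 1) (n - 1)).filter Nat.Prime, wd δ p ≤
        ∑ p ∈ (Icc (⌊y⌋₊ + 1) (n - 1)).filter Nat.Prime, Real.cos (h * Real.log p) * wd δ p := by
      rw [← sum_neg_distrib]
      refine sum_le_sum fun p hp => ?_
      simp only [mem_filter, mem_Icc] at hp
      have f1 := Real.neg_one_le_cos (h * Real.log p)
      have f2 := wd_pos δ (p := p) (by omega)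
      nlinarith
    linarith
  have h10 : ∑ p ∈ (Ico z n).filter Nat.Prime, Real.cos (h * Real.log p) * wd δ p =
      ∑ p ∈ (Icc z ⌊y⌋₊).filter Nat.Prime, Real.cos (h * Real.log p) * wd δ p +
      ∑ p ∈ (Ico (⌊y⌋₊ + 1) n).filter Nat.Prime, Real.cos (h * Real.log p) * wd δ p := by
    rw [h5, sum_union h6]
  rw [h10]
  have h9 : (2:ℝ) / z = 1 / z + 1 / z := by ring
  rw [h9]
  linarith

lemma cont_rhs (z : ℕ) {δ : ℝ} (hδ : 0 < δ) {q : ℝ} (hq : 0 ≤ q) :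
    Continuous fun h : ℝ => max (‖riemannZeta (1 + 2 * δ + h * I) *
      ∏ p ∈ Sm z, (1 - (p:ℂ) ^ (-(1 + 2 * δ + h * I : ℂ)))‖ ^ q - 1) 0 := by
  have h1 : Continuous fun h : ℝ => riemannZeta (1 + 2 * δ + h * I) := by
    rw [continuous_iff_continuousAt]
    intro h
    have hne : (1 + 2 * δ + h * I : ℂ) ≠ 1 := by
      intro h0
      have := congrArg Complex.re h0
      simp only [add_re, one_re, mul_re, ofReal_re, ofReal_im, I_re, I_im, re_ofNat, im_ofNat] at this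
      linarith
    have h2 : ContinuousAt riemannZeta (1 + 2 * δ + h * I : ℂ) :=
      (differentiableAt_riemannZeta hne).continuousAt
    have h3 : ContinuousAt (fun h : ℝ => (1 + 2 * δ + h * I : ℂ)) h := by fun_prop
    exact ContinuousAt.comp (f := fun h : ℝ => (1 + 2 * δ + h * I : ℂ)) h2 h3
  have h2 : Continuous fun h : ℝ => ∏ p ∈ Sm z, (1 - (p:ℂ) ^ (-(1 + 2 * δ + h * I : ℂ))) := by
    refine continuous_finsetProd _ fun p hp => ?_
    have hp1 : 1 ≤ p := ((mem_filter.1 hp).2).one_lt.le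
    simp only [pw δ _ hp1]
    fun_prop
  exact ((((h1.mul h2).norm).rpow_const fun _ => Or.inr hq).sub continuous_const).max
    continuous_const

lemma cont_lhs (α : ℝ) (z : ℕ) (y : ℝ) (J : ℕ) (δ : ℝ) :
    Continuous fun h : ℝ => max (KX α z y J δ h - 1) 0 := by
  unfold KX
  fun_prop

theorem main (hZ : S_ZML) (hM : S_MER) : S_KAP := by
  obtain ⟨C', hC', hZ⟩ := hZ
  obtain ⟨C, hC, hM⟩ := hM
  intro α hα0 hα2
  refine ⟨2 * C' + 32, by positivity, 144, ?_⟩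
  intro z hz
  obtain ⟨H0, hH0, hZ⟩ := hZ z (by omega)
  have hl2 : 0 < Real.log 2 := Real.log_pos (by norm_num)
  set A : ℝ := 4 * (Real.log 2 + C / Real.log 2) with hA
  have hA0 : 0 < A := by positivity
  have hind : ∀ (Y z : ℕ) (δ : ℝ), 0 < δ → 2 ≤ z → 1 / 4 ≤ δ * Real.log z →
      ∑ p ∈ (Icc z Y).filter Nat.Prime, wd δ p ≤ A * Real.exp (-(δ * Real.log z)) :=
    fun Y z δ hδ hz hd => TAIL.ind hC hM Y δ hδ _ z rfl hz hd
  have hzR : (144:ℝ) ≤ z := by exact_mod_cast hz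
  have hz0 : (0:ℝ) < z := by linarith
  refine ⟨H0, max 1 (Real.log (A * z)), hH0, le_max_left _ _, ?_⟩
  intro H hH δ hδ hδ1 y J hzy hJ hlam
  have hAl : A * Real.exp (-(max 1 (Real.log (A * z)))) ≤ 1 / z := by
    have h1 : Real.exp (-(max 1 (Real.log (A * z)))) ≤ (A * z)⁻¹ := by
      rw [← Real.exp_log (inv_pos.2 (mul_pos hA0 hz0)), Real.log_inv]
      exact Real.exp_le_exp.2 (neg_le_neg (le_max_right _ _))
    refine (mul_le_mul_of_nonneg_left h1 hA0.le).trans (le_of_eq ?_)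
    rw [mul_inv, ← mul_assoc, mul_inv_cancel₀ hA0.ne', one_mul, one_div]
  have hy1 : 1 ≤ y := by linarith
  set q : ℝ := 2 * α ^ 2 with hq
  have hq0 : 0 ≤ q := by positivity
  have hq8 : q ≤ 8 := by nlinarith
  set E : ℝ := Real.exp (16 / z) with hE
  have hE1 : 1 ≤ E := Real.one_le_exp (by positivity)
  have hE2 : E ≤ 1 + 32 / z := by
    have h1 := Real.one_sub_le_exp_neg (16 / (z:ℝ))
    have h2 : (16:ℝ) / z ≤ 1 / 2 := by
      rw [div_le_iff₀ hz0]; linarith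
    rw [Real.exp_neg] at h1
    have h3 : 0 < 1 - 16 / (z:ℝ) := by linarith
    have h4 : E ≤ (1 - 16 / (z:ℝ))⁻¹ := by
      have := inv_anti₀ h3 h1
      rwa [inv_inv] at this
    refine h4.trans ?_
    rw [inv_le_iff_one_le_mul₀ h3]
    have h5 : (32:ℝ) / z = 2 * (16 / z) := by ring
    rw [h5]
    have h6 : 0 ≤ (16:ℝ) / z := by positivity
    nlinarith
  have hE3 : E ≤ 2 := by
    have h2 : (32:ℝ) / z ≤ 1 := by
      rw [div_le_iff₀ hz0]; linarith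
    linarith
  have hpt : ∀ h : ℝ, max (KX α z y J δ h - 1) 0 ≤
      E * max (‖riemannZeta (1 + 2 * δ + h * I) *
        ∏ p ∈ Sm z, (1 - (p:ℂ) ^ (-(1 + 2 * δ + h * I : ℂ)))‖ ^ q - 1) 0 + (E - 1) := by
    intro h
    have h1 := lower hA0 hind (by omega) hδ hzy (le_max_left 1 (Real.log (A * z))) hAl hlam h
    set X : ℝ := ‖riemannZeta (1 + 2 * δ + h * I) *
        ∏ p ∈ Sm z, (1 - (p:ℂ) ^ (-(1 + 2 * δ + h * I : ℂ)))‖ with hX
    set S : ℝ := ∑ p ∈ (Icc z ⌊y⌋₊).filter Nat.Prime, Real.cos (h * Real.log p) * wd δ p with hS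
    have h2 : KX α z y J δ h = Real.exp (q * S) := by
      unfold KX
      rw [← hq]
      congr 2
      have := TWO.sum_low hz hy1 (fun p => Real.cos (h * Real.log p) * wd δ p) (Nat.zero_le J) hJ
      rw [TWO.be_zero hy1] at this
      rw [hS, ← this, Finset.range_eq_Ico]
    have h3 : KX α z y J δ h ≤ E * X ^ q := by
      have h4 : Real.exp (S - 2 / z) ^ q ≤ X ^ q :=
        Real.rpow_le_rpow (Real.exp_pos _).le h1 hq0
      rw [← Real.exp_mul] at h4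
      have h5 : Real.exp (q * S) ≤ E * Real.exp ((S - 2 / z) * q) := by
        rw [hE, ← Real.exp_add]
        apply Real.exp_le_exp.2
        have h6 : (16:ℝ) / z = 2 / z * 8 := by ring
        have h7 : (2:ℝ) / z * q ≤ 2 / z * 8 := mul_le_mul_of_nonneg_left hq8 (by positivity)
        rw [h6]
        nlinarith
      rw [h2]
      exact h5.trans (mul_le_mul_of_nonneg_left h4 (by linarith))
    have h4 : X ^ q - 1 ≤ max (X ^ q - 1) 0 := le_max_left _ _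
    have h5 : 0 ≤ max (X ^ q - 1) 0 := le_max_right _ _
    apply max_le
    · have h6 : E * (X ^ q - 1) ≤ E * max (X ^ q - 1) 0 :=
        mul_le_mul_of_nonneg_left h4 (by linarith)
      nlinarith
    · have h6 : 0 ≤ E * max (X ^ q - 1) 0 := mul_nonneg (by linarith) h5
      linarith
  have hH1 : (1:ℝ) ≤ H := hH0.trans hH
  have hint1 := (cont_lhs α z y J δ).intervalIntegrable (μ := volume) 1 H
  have hc2 := cont_rhs z hδ hq0
  have hc4 : Continuous fun h : ℝ => E * max (‖riemannZeta (1 + 2 * δ + h * I) *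
        ∏ p ∈ Sm z, (1 - (p:ℂ) ^ (-(1 + 2 * δ + h * I : ℂ)))‖ ^ q - 1) 0 :=
    continuous_const.mul hc2
  have hc3 : Continuous fun h : ℝ => E * max (‖riemannZeta (1 + 2 * δ + h * I) *
        ∏ p ∈ Sm z, (1 - (p:ℂ) ^ (-(1 + 2 * δ + h * I : ℂ)))‖ ^ q - 1) 0 + (E - 1) :=
    hc4.add continuous_const
  have hint2 := hc3.intervalIntegrable (μ := volume) 1 H
  have h1 := intervalIntegral.integral_mono_on hH1 hint1 hint2 (fun h _ => hpt h)
  refine h1.trans ?_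
  have h2 : ∫ h in (1:ℝ)..H, (E * max (‖riemannZeta (1 + 2 * δ + h * I) *
        ∏ p ∈ Sm z, (1 - (p:ℂ) ^ (-(1 + 2 * δ + h * I : ℂ)))‖ ^ q - 1) 0 + (E - 1)) =
      E * (∫ h in (1:ℝ)..H, max (‖riemannZeta (1 + 2 * δ + h * I) *
        ∏ p ∈ Sm z, (1 - (p:ℂ) ^ (-(1 + 2 * δ + h * I : ℂ)))‖ ^ q - 1) 0) + (H - 1) * (E - 1) := by
    rw [intervalIntegral.integral_add (hc4.intervalIntegrable _ _)
      (continuous_const.intervalIntegrable _ _), intervalIntegral.integral_const_mul,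
      intervalIntegral.integral_const, smul_eq_mul]
  rw [h2]
  have h3 := hZ H hH δ hδ hδ1 q hq0 hq8
  have hr1 : (z:ℝ) ^ (-(1 / 2 : ℝ)) ≤ (z:ℝ) ^ (-(1 / 4 : ℝ)) :=
    Real.rpow_le_rpow_of_exponent_le (by linarith) (by norm_num)
  have hr2 : 1 / (z:ℝ) ≤ (z:ℝ) ^ (-(1 / 4 : ℝ)) := by
    rw [one_div, ← Real.rpow_neg_one]
    exact Real.rpow_le_rpow_of_exponent_le (by linarith) (by norm_num)
  have hr0 : 0 < (z:ℝ) ^ (-(1 / 4 : ℝ)) := Real.rpow_pos_of_pos hz0 _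
  have h4 : E * (∫ h in (1:ℝ)..H, max (‖riemannZeta (1 + 2 * δ + h * I) *
        ∏ p ∈ Sm z, (1 - (p:ℂ) ^ (-(1 + 2 * δ + h * I : ℂ)))‖ ^ q - 1) 0) ≤
      2 * C' * (z:ℝ) ^ (-(1 / 4 : ℝ)) * H := by
    calc _ ≤ E * (C' * (z:ℝ) ^ (-(1 / 2 : ℝ)) * H) := mul_le_mul_of_nonneg_left h3 (by linarith)
      _ ≤ 2 * (C' * (z:ℝ) ^ (-(1 / 4 : ℝ)) * H) := by
          refine mul_le_mul hE3 ?_ (by positivity) (by norm_num)
          exact mul_le_mul_of_nonneg_right (mul_le_mul_of_nonneg_left hr1 hC'.le) (by linarith)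
      _ = _ := by ring
  have h5 : (H - 1) * (E - 1) ≤ 32 * (z:ℝ) ^ (-(1 / 4 : ℝ)) * H := by
    have e1 : E - 1 ≤ 32 * (z:ℝ) ^ (-(1 / 4 : ℝ)) := by
      have : (32:ℝ) / z = 32 * (1 / z) := by ring
      rw [this] at hE2
      linarith
    calc (H - 1) * (E - 1) ≤ H * (32 * (z:ℝ) ^ (-(1 / 4 : ℝ))) :=
          mul_le_mul (by linarith) e1 (by linarith) (by linarith)
      _ = _ := by ring
  calc _ ≤ 2 * C' * (z:ℝ) ^ (-(1 / 4 : ℝ)) * H + 32 * (z:ℝ) ^ (-(1 / 4 : ℝ)) * H := add_le_add h4 h5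
    _ = _ := by ring

end Pool.Agent.N748.GC.KAP
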