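import Pool.Agent.N748.GC.L2
import Pool.Agent.N748.GC.TWO

set_option autoImplicit false

/-!
# GC2/NEAR2: the two-point function on the good points at distances up to `1`, for `α < 2`
-/

namespace Pool.Agent.N748.GC.NEAR2

open Finset Filter MeasureTheory MonoidAlgebra Topology Complex Pool.Agent.N748.GC

/-- the mean square of the product, for exponents up to `2` -/
lemma nn_two2 {c CN : ℝ} (hN : ∀ (z J Rs : ℕ) (y : ℝ), 144 ≤ z → 1 ≤ y → 1 ≤ Rs →
      (∀ i < J, ∑ p ∈ IB z y i, 1 / (p:ℝ) ≤ c) → ∀ δ : ℝ, 0 ≤ δ → ∀ a b : ℕ → ℝ,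
      (∀ i, 0 ≤ a i ∧ a i ≤ 2) → (∀ i, 0 ≤ b i ∧ b i ≤ 2) → ∀ h : ℝ,
      nn δ (BP a z y 0 J Rs * sf h (BP b z y 0 J Rs)) ≤
        Real.exp ((∑ i ∈ range J, ∑ p ∈ IB z y i,
          (a i ^ 2 + b i ^ 2 + 2 * a i * b i * Real.cos (h * Real.log p)) * wd δ p) +
          CN * Real.exp (-(2 * (Rs:ℝ)))))
    {z J Rs : ℕ} {yy : ℝ} (hz : 144 ≤ z) (hyy : 1 ≤ yy) (hR : 1 ≤ Rs)
    (hc : ∀ i < J, ∑ p ∈ IB z yy i, 1 / (p:ℝ) ≤ c) {δ : ℝ} (hδ : 0 ≤ δ) {α : ℝ} (hα0 : 0 ≤ α) (hα1 : α ≤ 2)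
    {j : ℕ} (hj : j ≤ J) (x y : ℝ)
    (hne : ∀ n ∈ (BP (fun _ => α) z yy 0 J Rs).coeff.support, n ≠ 0) :
    nn δ (sf x (BP (TWO.ca α j) z yy 0 J Rs) * sf y (BP (fun _ => α) z yy 0 J Rs)) ≤
      Real.exp (2 * α ^ 2 * VB δ z yy 0 j + α ^ 2 * VB δ z yy j J +
        2 * α ^ 2 * (∑ i ∈ Ico 0 j, ∑ p ∈ IB z yy i, Real.cos (|y - x| * Real.log p) * wd δ p) +
        CN * Real.exp (-(2 * (Rs:ℝ)))) := by
  rw [TWO.nn_shift δ x y _ hne]
  refine (hN z J Rs yy hz hyy hR hc δ hδ (TWO.ca α j) (fun _ => α) (fun i => TWO.ca_bd hα0 hα1 j i)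
    (fun _ => ⟨hα0, hα1⟩) (y - x)).trans ?_
  refine Real.exp_le_exp.2 (add_le_add_left (le_of_eq ?_) _)
  have hcos : ∀ p : ℕ, Real.cos ((y - x) * Real.log p) = Real.cos (|y - x| * Real.log p) := by
    intro p
    rcases abs_choice (y - x) with h | h
    · rw [h]
    · rw [h, neg_mul, Real.cos_neg]
  rw [range_eq_Ico, ← sum_Ico_consecutive _ (Nat.zero_le j) hj]
  have h1 : ∑ i ∈ Ico 0 j, ∑ p ∈ IB z yy i,
      (TWO.ca α j i ^ 2 + α ^ 2 + 2 * TWO.ca α j i * α * Real.cos ((y - x) * Real.log p)) * wd δ p =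
      2 * α ^ 2 * VB δ z yy 0 j +
        2 * α ^ 2 * (∑ i ∈ Ico 0 j, ∑ p ∈ IB z yy i, Real.cos (|y - x| * Real.log p) * wd δ p) := by
    unfold VB
    rw [mul_sum, mul_sum, ← sum_add_distrib]
    refine sum_congr rfl fun i hi => ?_
    rw [mul_sum, mul_sum, ← sum_add_distrib]
    refine sum_congr rfl fun p _ => ?_
    have : TWO.ca α j i = α := if_pos (mem_Ico.1 hi).2
    rw [this, hcos]
    ring
  have h2 : ∑ i ∈ Ico j J, ∑ p ∈ IB z yy i,
      (TWO.ca α j i ^ 2 + α ^ 2 + 2 * TWO.ca α j i * α * Real.cos ((y - x) * Real.log p)) * wd δ p =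
      α ^ 2 * VB δ z yy j J := by
    unfold VB
    rw [mul_sum]
    refine sum_congr rfl fun i hi => ?_
    rw [mul_sum]
    refine sum_congr rfl fun p _ => ?_
    have : TWO.ca α j i = 0 := if_neg (not_lt.2 (mem_Ico.1 hi).1)
    rw [this]
    ring
  rw [h1, h2]
  ring

lemma eight_mul_le {α S b : ℝ} (hα1 : α ^ 2 ≤ 4) (hS : S ≤ b) (hb : 0 ≤ b) : 2 * α ^ 2 * S ≤ 8 * b := by
  have h0 : 0 ≤ α ^ 2 := sq_nonneg α
  nlinarith [mul_le_mul_of_nonneg_left hS h0, mul_le_mul_of_nonneg_right hα1 hb]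

theorem main (hN : S_NNB) (hLEN : S_LEN) (hM : S_MER) (hC : S_COS) (hT : S_TAIL) : S_NEAR2 := by
  have hEQ : S_EQ := EQ.main MV.main
  intro α hα0 hα2 ε1 hε1 hε11 c hc A hA
  obtain ⟨CN, hCN, hN⟩ := hN c hc
  obtain ⟨Cc, hCc, hC⟩ := hC
  obtain ⟨Cm, hCm, hM⟩ := hM
  obtain ⟨Ct, hCt, hT⟩ := hT
  have hl16 : 0 < Real.log 16 := Real.log_pos (by norm_num)
  have hl4 : 0 < Real.log 4 := Real.log_pos (by norm_num)
  have hl416 : Real.log 4 ≤ Real.log 16 := Real.log_le_log (by norm_num) (by norm_num)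
  set C : ℝ := A * Real.exp (5 * Cm + 8 * Cc + 8 * Ct + 8 * Real.log 16 + CN) with hCdef
  have hC0 : 0 < C := by positivity
  have hC1' : 1 ≤ C := by
    have h1 : 1 ≤ Real.exp (5 * Cm + 8 * Cc + 8 * Ct + 8 * Real.log 16 + CN) := Real.one_le_exp (by positivity)
    calc (1:ℝ) = 1 * 1 := (one_mul _).symm
      _ ≤ C := mul_le_mul hA h1 zero_le_one (by linarith)
  refine ⟨C, hC0.le, 0, 0, ?_⟩
  intro z _ Rs _ yf Jf hSB
  have hz1000 : (1000:ℝ) ≤ z := by exact_mod_cast hSB.zz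
  have hz144 : 144 ≤ z := le_trans (by norm_num) hSB.zz
  have hR1 := hSB.R1
  have hL1 : 1 < Real.log z := by
    rw [Real.lt_log_iff_exp_lt (by linarith)]
    linarith [Real.exp_one_lt_d9]
  set L : ℝ := Real.log z with hL
  have hL0 : 0 < L := by linarith
  have hα4 : α ^ 2 ≤ 4 := by nlinarith
  have hζ0 : 0 < α ^ 2 + ε1 := by positivity
  have hζ5 : α ^ 2 + ε1 ≤ 5 := by linarith
  have hCNR : CN * Real.exp (-(2 * (Rs:ℝ))) ≤ CN := by
    refine mul_le_of_le_one_right hCN (Real.exp_le_one_iff.2 ?_)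
    have : (0:ℝ) ≤ Rs := Nat.cast_nonneg _
    linarith
  refine ⟨1 / (16 * L), by positivity, ?_⟩
  intro lam δ0 hlam hδ0 K _ _ F hF hF0 η hη
  filter_upwards [TWO.core hEQ z K F hF hF0 η hη, hSB.ev, TWO.ev_log (A * Real.exp Cm) (by positivity),
    eventually_ge_atTop (3:ℝ)] with X hcore hev hX2 hX3 δ hδl hδu k x y hxy hxy1
  obtain ⟨hzy, hJ, hblk, hlen⟩ := hev
  have hlX : 1 < Real.log X := by
    rw [Real.lt_log_iff_exp_lt (by linarith)]
    linarith [Real.exp_one_lt_d9]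
  have hδ : 0 < δ := lt_of_lt_of_le (by positivity) hδl
  have hδX : 1 / δ ≤ Real.log X := by
    rw [div_le_iff₀ hδ]
    rw [div_le_iff₀ (by linarith)] at hδl
    linarith
  have hδ16 : 16 * L ≤ 1 / δ := by
    have h1 : δ ≤ 1 / (16 * L) := hδu.trans hδ0
    rw [le_div_iff₀ (by positivity)] at h1
    rw [le_div_iff₀ hδ]
    linarith
  have hδ1 : δ ≤ 1 := by
    refine (hδu.trans hδ0).trans ?_
    rw [div_le_iff₀ (by positivity)]
    linarith
  have hyy : 1 ≤ yf X := by linarith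
  have hX10 : 1 ≤ X ^ ((1:ℝ) / 10) := Real.one_le_rpow (by linarith) (by norm_num)
  have hNN : 0 ≤ Real.exp (Real.log (yf X) * (90 * ((Rs:ℝ) + 1))) := (Real.exp_pos _).le
  have hNM : Real.exp (Real.log (yf X) * (90 * ((Rs:ℝ) + 1))) * Real.exp (Real.log (yf X) * (90 * ((Rs:ℝ) + 1))) ≤
      (2 * (X + 1)) ^ ((1:ℝ) / 50) := by
    rw [← Real.exp_add]
    refine le_trans (le_of_eq ?_) hlen
    congr 1
    ring
  have hLE := (hLEN z (Jf X) Rs (yf X) hz144 hyy hR1 (fun i hi => (hblk i hi).1)).1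
  have hbα := hLE (fun _ => α) (fun _ => ⟨hα0.le, hα2.le⟩) 0 (Nat.zero_le _)
  have hneα : ∀ n ∈ (BP (fun _ => α) z (yf X) 0 (Jf X) Rs).coeff.support, n ≠ 0 := fun n hn => (hbα.1 n hn).1
  have hca := fun j => hLE (TWO.ca α j) (TWO.ca_bd hα0.le hα2.le j) 0 (Nat.zero_le _)
  have hneca : ∀ j, ∀ n ∈ (BP (TWO.ca α j) z (yf X) 0 (Jf X) Rs).coeff.support, n ≠ 0 :=
    fun j n hn => ((hca j).1 n hn).1
  have hh0 : 0 < |y - x| := abs_pos.2 (sub_ne_zero.2 (Ne.symm hxy))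
  have hh1 : |y - x| ≤ 1 := by rw [abs_sub_comm]; exact hxy1
  rw [abs_sub_comm x y]
  set s : ℝ := max |y - x| δ with hs
  have hs0 : 0 < s := lt_of_lt_of_le hh0 (le_max_left _ _)
  have hs1 : s ≤ 1 := max_le hh1 hδ1
  have hsr : 1 ≤ s ^ (-(α ^ 2 + ε1)) :=
    Real.one_le_rpow_of_pos_of_le_one_of_nonpos hs0 hs1 (by linarith)
  have hρ1 : C ≤ C * s ^ (-(α ^ 2 + ε1)) := le_mul_of_one_le_right hC0.le hsr
  -- the frame
  have fin : ∀ j ≤ Jf X, ∀ B : ℝ, 0 ≤ B → (∀ t : ℝ, Gd α A ε1 z Rs yf Jf X δ (t + x) →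
      ‖ec (1 / 2 + δ + ((t + x : ℝ) : ℂ) * I) (BP (fun _ => α) z (yf X) j (Jf X) Rs)‖ ^ 2 ≤ B) →
      B * Real.exp (-(2 * α ^ 2 * VB δ z (yf X) 0 (Jf X))) ≤ X ^ ((1:ℝ) / 10) →
      B * Real.exp (-(α ^ 2 * VB δ z (yf X) j (Jf X)) +
        2 * α ^ 2 * (∑ i ∈ Ico 0 j, ∑ p ∈ IB z (yf X) i, Real.cos (|y - x| * Real.log p) * wd δ p) +
        CN * Real.exp (-(2 * (Rs:ℝ)))) ≤ C * s ^ (-(α ^ 2 + ε1)) →
      ∫ t in Xl X..X, F (k, pt (Sm z) t) *
      ((WB α z Rs yf Jf X δ (t + x) * gB α A ε1 z Rs yf Jf X δ (t + x)) *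
       (WB α z Rs yf Jf X δ (t + y) * gB α A ε1 z Rs yf Jf X δ (t + y))) ≤
      X * (((∫ w, F (k, w) ∂(HP (Sm z))) + η) * (C * s ^ (-(α ^ 2 + ε1)))) := by
    intro j hj B hB hbar hBX hρ
    have hcl := TWO.len_mul hNN hNM (hca j) hbα x y
    refine hcore δ hδ.le k _ hcl.1 hcl.2 (B * Real.exp (-(2 * α ^ 2 * VB δ z (yf X) 0 (Jf X))))
      (C * s ^ (-(α ^ 2 + ε1))) (by positivity) hBX ?_ (hC1'.trans hρ1) _ ?_ ?_
    · refine le_trans ?_ hρ
      have h1 := nn_two2 hN hz144 hyy hR1 (fun i hi => (hblk i hi).2) hδ.le hα0.le hα2.le hj x y hneα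
      rw [mul_assoc]
      refine mul_le_mul_of_nonneg_left ?_ hB
      refine (mul_le_mul_of_nonneg_left h1 (Real.exp_pos _).le).trans (le_of_eq ?_)
      rw [← Real.exp_add, TWO.VB_add δ z (yf X) hj]
      congr 1
      ring
    · intro t
      exact mul_nonneg (hF0 _) (mul_nonneg (mul_nonneg (TWO.WB_nonneg _ _ _ _ _ _ _ _)
        (TWO.gB_nonneg _ _ _ _ _ _ _ _ _ _))
        (mul_nonneg (TWO.WB_nonneg _ _ _ _ _ _ _ _) (TWO.gB_nonneg _ _ _ _ _ _ _ _ _ _)))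
    · intro t
      exact TWO.pw (hF0 _) hj hneα (hneca j) hB (hbar t)
  by_cases hcase : 1 / 16 ≤ |y - x| * L
  · -- without barrier
    have hBJ : BP (fun _ => α) z (yf X) (Jf X) (Jf X) Rs = 1 := by
      unfold BP; rw [Ico_self, prod_empty]
    have hVJ : VB δ z (yf X) (Jf X) (Jf X) = 0 := by
      unfold VB; rw [Ico_self, sum_empty]
    have hV0 := TWO.VB_nonneg δ z (yf X) 0 (Jf X)
    refine fin (Jf X) le_rfl 1 zero_le_one ?_ ?_ ?_
    · intro t _
      rw [hBJ, map_one, norm_one, one_pow]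
    · refine le_trans ?_ hX10
      rw [one_mul]
      refine Real.exp_le_one_iff.2 ?_
      have : 0 ≤ 2 * α ^ 2 * VB δ z (yf X) 0 (Jf X) := by positivity
      linarith
    · rw [hVJ, mul_zero, neg_zero, zero_add, one_mul,
        TWO.sum_low hz144 hyy (fun p => Real.cos (|y - x| * Real.log p) * wd δ p) (Nat.zero_le _) hJ,
        TWO.be_zero hyy]
      obtain ⟨hC1, hC2⟩ := hC z δ (yf X) |y - x| (by omega) hδ.le hzy hh0 hh1
      rw [← hL] at hC1 hC2
      have h3 : ∑ p ∈ (Icc z ⌊yf X⌋₊).filter Nat.Prime, Real.cos (|y - x| * Real.log p) * wd δ p ≤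
          Cc + Real.log 16 := by
        rcases le_total 1 (|y - x| * L) with h1 | h1
        · have := (hC1 h1).trans (div_le_self hCc.le h1)
          linarith
        · have h3 := hC2 h1
          have h4 : Real.log (1 / (|y - x| * L)) ≤ Real.log 16 := by
            refine Real.log_le_log (by positivity) ?_
            rw [div_le_iff₀ (by positivity)]
            linarith
          linarith
      have h5 := eight_mul_le hα4 h3 (by positivity)
      refine le_trans ?_ hρ1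
      rw [hCdef]
      refine le_trans (Real.exp_le_exp.2 ?_) (le_mul_of_one_le_left (Real.exp_pos _).le hA)
      linarith
  · -- with the barrier
    have hlt := not_le.1 hcase
    have hU16 : 16 * L ≤ min (1 / |y - x|) (1 / δ) := by
      refine le_min ?_ hδ16
      rw [le_div_iff₀ hh0]
      linarith
    obtain ⟨j, hjJ, hzj, hjU, hjl⟩ := TWO.exists_j hz144 hL1.le hyy hzy hJ hU16
    have hcos := TWO.cos_high hCc hCt hC hT hz144 hyy hh0 hh1 hδ hzj hjl
    have hv := TWO.VB_le hCm hM hz144 hL1.le hyy hδ.le hjJ.le hJ hzj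
    have hv0 := TWO.VB_nonneg δ z (yf X) j (Jf X)
    have hVa := TWO.VB_add δ z (yf X) hjJ.le
    have hVa0 := TWO.VB_nonneg δ z (yf X) 0 j
    rw [← hL] at hv
    set v := VB δ z (yf X) j (Jf X) with hvdef
    have hlzj : L ≤ Real.log (be (yf X) j) := Real.log_le_log (by linarith) hzj
    have hu1 : 1 ≤ Real.log (be (yf X) j) / L := by
      rw [le_div_iff₀ hL0]; linarith
    have hu2 : Real.log (be (yf X) j) / L ≤ Real.log X := by
      refine (div_le_self (by linarith) hL1.le).trans ?_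
      exact hjU.trans ((min_le_right _ _).trans hδX)
    have hus : Real.log (be (yf X) j) / L ≤ 1 / s := by
      refine (div_le_self (by linarith) hL1.le).trans ?_
      rw [le_div_iff₀ hs0, hs]
      rcases le_total |y - x| δ with hd | hd
      · rw [max_eq_right hd]
        have := hjU.trans (min_le_right _ _)
        rwa [le_div_iff₀ hδ] at this
      · rw [max_eq_left hd]
        have := hjU.trans (min_le_left _ _)
        rwa [le_div_iff₀ hh0] at this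
    have hvs : v ≤ Real.log (1 / s) + Cm :=
      hv.trans (add_le_add_left (Real.log_le_log (by linarith) hus) Cm)
    refine fin j hjJ.le (A * Real.exp ((2 * α ^ 2 + ε1) * v)) (by positivity) ?_ ?_ ?_
    · intro t hg
      refine hg.2 j hjJ hzj ?_
      calc δ * Real.log (be (yf X) j) ≤ δ * (1 / δ) :=
            mul_le_mul_of_nonneg_left (hjU.trans (min_le_right _ _)) hδ.le
        _ = 1 := by field_simp
    · refine le_trans ?_ hX2
      rw [mul_assoc A (Real.exp ((2 * α ^ 2 + ε1) * v)), mul_assoc A (Real.exp Cm), ← Real.exp_add]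
      refine mul_le_mul_of_nonneg_left ?_ (by linarith)
      have h1 : (2 * α ^ 2 + ε1) * v + -(2 * α ^ 2 * VB δ z (yf X) 0 (Jf X)) ≤
          Cm + Real.log (Real.log (be (yf X) j) / L) := by
        rw [hVa]
        have h2 : 0 ≤ 2 * α ^ 2 * VB δ z (yf X) 0 j := by positivity
        have h3 : ε1 * v ≤ v := mul_le_of_le_one_left hv0 hε11
        nlinarith
      refine (Real.exp_le_exp.2 h1).trans ?_
      rw [Real.exp_add, Real.exp_log (by linarith)]
      refine mul_le_mul_of_nonneg_left ?_ (Real.exp_pos _).le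
      nlinarith
    · rw [mul_assoc, ← Real.exp_add]
      have h2 : s ^ (-(α ^ 2 + ε1)) = Real.exp ((α ^ 2 + ε1) * Real.log (1 / s)) := by
        rw [Real.rpow_def_of_pos hs0, one_div, Real.log_inv]
        congr 1
        ring
      have h3 := eight_mul_le hα4 hcos (by positivity)
      have h4 : (α ^ 2 + ε1) * v ≤ (α ^ 2 + ε1) * Real.log (1 / s) + 5 * Cm := by
        have h5 := mul_le_mul_of_nonneg_left hvs hζ0.le
        have h6 := mul_le_mul_of_nonneg_right hζ5 hCm.le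
        linarith
      rw [h2, hCdef, mul_assoc A, ← Real.exp_add]
      refine mul_le_mul_of_nonneg_left (Real.exp_le_exp.2 ?_) (by linarith)
      linarith

end Pool.Agent.N748.GC.NEAR2
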