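import Pool.Agent.N748.GC.L2
import Pool.Agent.N748.GC.NNL

set_option autoImplicit false

/-!
# GC2/NNL2: the lower bound for the mean square of the products over the blocks, exponents up to `2`
(helper702, adapted by helper558)
-/

namespace Pool.Agent.N748.GC.NNL2

open Finset MonoidAlgebra Complex Pool.Agent.N748.GC.NNL

/-- one block -/
lemma block (c : ℝ) (_hc : 0 ≤ c) (I : Finset ℕ) (hI : ∀ p ∈ I, p.Prime) (hIc : ∑ p ∈ I, 1 / (p:ℝ) ≤ c)
    (δ a : ℝ) (hδ : 0 ≤ δ) (ha : 0 ≤ a) (ha1 : a ≤ 2) (K : ℕ) :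
    (1 - (16 * ∑ p ∈ I, 1 / (p:ℝ) ^ 2 + Real.exp (4 * c * Real.exp 1) * Real.exp (-(K:ℝ)))) *
      Real.exp (a ^ 2 * ∑ p ∈ I, wd δ p) ≤ nn δ (NKc K a (xc I)) := by
  classical
  set v : ℝ := ∑ p ∈ I, wd δ p with hv
  have hv0 : 0 ≤ v := Finset.sum_nonneg fun p _ => BLK.wd_nonneg δ p
  have hvc : v ≤ c := (Finset.sum_le_sum fun p hp => wd_le δ hδ (hI p hp)).trans hIc
  have ha2 : a ^ 2 ≤ 4 := by nlinarith
  have ha20 : 0 ≤ a ^ 2 := sq_nonneg a
  -- the truncated sum
  have h1 : ∑ k ∈ range (K + 1), (Q δ I).coeff k * (a ^ 2) ^ k ≤ nn δ (NKc K a (xc I)) := by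
    rw [nn_NKc δ I hI K a]
    refine Finset.sum_le_sum fun k _ => ?_
    have h2 := lower δ I hI k
    have hk : (0:ℝ) < k.factorial := by exact_mod_cast Nat.factorial_pos k
    have h3 := mul_le_mul_of_nonneg_left h2 (sq_nonneg (a ^ k / (k.factorial : ℝ)))
    refine le_trans (le_of_eq ?_) h3
    rw [div_pow, ← pow_mul, ← pow_mul, mul_comm k 2]
    field_simp
  -- the tail
  have h2 : (Q δ I).eval (a ^ 2) ≤ ∑ k ∈ range (K + 1), (Q δ I).coeff k * (a ^ 2) ^ k +
      Real.exp (4 * c * Real.exp 1) * Real.exp (-(K:ℝ)) := by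
    have hdeg : (Q δ I).natDegree < K + 1 + I.card := by
      have := Q_natDegree δ I
      omega
    rw [Polynomial.eval_eq_sum_range' hdeg, sum_range_add]
    refine add_le_add le_rfl ?_
    have h3 : ∀ i ∈ range I.card, (Q δ I).coeff (K + 1 + i) * (a ^ 2) ^ (K + 1 + i) ≤
        Real.exp (-(K:ℝ)) * ((4 * c * Real.exp 1) ^ (K + 1 + i) / ((K + 1 + i).factorial : ℝ)) := by
      intro i _
      set m := K + 1 + i with hm
      have hm0 : (0:ℝ) < m.factorial := by exact_mod_cast Nat.factorial_pos m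
      have h4 : (Q δ I).coeff m ≤ c ^ m / (m.factorial : ℝ) :=
        (Q_coeff_le δ I m).trans (div_le_div_of_nonneg_right (pow_le_pow_left₀ hv0 hvc m) hm0.le)
      have h5 : (Q δ I).coeff m * (a ^ 2) ^ m ≤ (4 * c) ^ m / (m.factorial : ℝ) := by
        calc (Q δ I).coeff m * (a ^ 2) ^ m ≤ c ^ m / (m.factorial : ℝ) * 4 ^ m :=
              mul_le_mul h4 (pow_le_pow_left₀ ha20 ha2 m) (by positivity) (by positivity)
          _ = _ := by rw [mul_pow]; ring
      refine h5.trans ?_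
      have h6 : (4 * c) ^ m / (m.factorial : ℝ) = Real.exp (-(m : ℝ)) *
          ((4 * c * Real.exp 1) ^ m / (m.factorial : ℝ)) := by
        rw [mul_pow (4 * c), ← Real.exp_nat_mul, mul_one, Real.exp_neg]
        field_simp
      rw [h6]
      have h7 : Real.exp (-(m : ℝ)) ≤ Real.exp (-(K : ℝ)) := by
        refine Real.exp_le_exp.2 ?_
        have : (K : ℝ) ≤ m := by
          have : K ≤ m := by omega
          exact_mod_cast this
        linarith
      exact mul_le_mul_of_nonneg_right h7 (by positivity)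
    refine (Finset.sum_le_sum h3).trans ?_
    rw [← Finset.mul_sum, mul_comm (Real.exp (4 * c * Real.exp 1))]
    refine mul_le_mul_of_nonneg_left ?_ (Real.exp_pos _).le
    have h8 := Real.sum_le_exp_of_nonneg (x := 4 * c * Real.exp 1) (by positivity) (K + 1 + I.card)
    rw [sum_range_add] at h8
    have h9 : 0 ≤ ∑ i ∈ range (K + 1), (4 * c * Real.exp 1) ^ i / (i.factorial : ℝ) :=
      Finset.sum_nonneg fun i _ => by positivity
    linarith
  -- the Euler product
  have h3 : Real.exp (a ^ 2 * v) * (1 - 16 * ∑ p ∈ I, 1 / (p:ℝ) ^ 2) ≤ (Q δ I).eval (a ^ 2) := by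
    rw [Q_eval]
    have h4 : ∏ p ∈ I, Real.exp (wd δ p * a ^ 2 - (wd δ p * a ^ 2) ^ 2) ≤ ∏ p ∈ I, (1 + wd δ p * a ^ 2) :=
      Finset.prod_le_prod (fun p _ => (Real.exp_pos _).le) fun p _ =>
        one_add_ge (mul_nonneg (BLK.wd_nonneg δ p) ha20)
    refine le_trans ?_ h4
    rw [← Real.exp_sum, Finset.sum_sub_distrib, ← Finset.sum_mul, ← hv]
    have h5 : Real.exp (v * a ^ 2 - ∑ p ∈ I, (wd δ p * a ^ 2) ^ 2) =
        Real.exp (a ^ 2 * v) * Real.exp (-∑ p ∈ I, (wd δ p * a ^ 2) ^ 2) := by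
      rw [← Real.exp_add]
      congr 1
      ring
    rw [h5]
    refine mul_le_mul_of_nonneg_left ?_ (Real.exp_pos _).le
    have h6 : ∑ p ∈ I, (wd δ p * a ^ 2) ^ 2 ≤ 16 * ∑ p ∈ I, 1 / (p:ℝ) ^ 2 := by
      rw [Finset.mul_sum]
      refine Finset.sum_le_sum fun p hp => ?_
      have h7 : wd δ p * a ^ 2 ≤ 1 / (p:ℝ) * 4 :=
        mul_le_mul (wd_le δ hδ (hI p hp)) ha2 ha20 (by positivity)
      calc (wd δ p * a ^ 2) ^ 2 ≤ (1 / (p:ℝ) * 4) ^ 2 :=
            pow_le_pow_left₀ (mul_nonneg (BLK.wd_nonneg δ p) ha20) h7 2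
        _ = _ := by rw [mul_pow, div_pow, one_pow]; ring
    have h8 := Real.add_one_le_exp (-∑ p ∈ I, (wd δ p * a ^ 2) ^ 2)
    linarith
  have h4 : 1 ≤ Real.exp (a ^ 2 * v) := Real.one_le_exp (by positivity)
  have h5 : 0 ≤ Real.exp (4 * c * Real.exp 1) * Real.exp (-(K:ℝ)) := by positivity
  nlinarith [mul_nonneg (sub_nonneg.2 h4) h5]

theorem main : S_NNL2 := by
  classical
  intro c hc e he
  set E := Real.exp (4 * c * Real.exp 1) with hE
  have hE0 : 0 < E := Real.exp_pos _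
  obtain ⟨z0, hz0⟩ := exists_nat_gt (64 / e)
  obtain ⟨R0, hR0⟩ := exists_nat_gt (4 * E / e)
  refine ⟨z0 + 1, R0, ?_⟩
  intro z J Rs y hz hR hy hJ δ hδ a ha ha1
  -- the errors
  set s : ℕ → ℝ := fun i => 16 * ∑ p ∈ IB z y i, 1 / (p:ℝ) ^ 2 + E * Real.exp (-((20 * RB Rs i : ℕ) : ℝ)) with hs
  have hs0 : ∀ i, 0 ≤ s i := fun i => by
    have h1 : 0 ≤ ∑ p ∈ IB z y i, 1 / (p:ℝ) ^ 2 := Finset.sum_nonneg fun p _ => by positivity
    have h2 : 0 ≤ E * Real.exp (-((20 * RB Rs i : ℕ) : ℝ)) := by positivity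
    exact add_nonneg (by positivity) h2
  have hsum : ∑ i ∈ range J, s i ≤ e := by
    rw [hs]
    simp only
    rw [Finset.sum_add_distrib, ← Finset.mul_sum, ← Finset.mul_sum]
    have hz1 : 1 ≤ z := by omega
    have h1 := sum_sq_le z hz1 hy J
    have h2 := mul_le_mul_of_nonneg_left (sum_exp_le Rs J) hE0.le
    have hzr : 64 / e < z := by
      refine hz0.trans_le ?_
      have : z0 ≤ z := by omega
      exact_mod_cast this
    have hz00 : (0:ℝ) < z := by exact_mod_cast hz1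
    have h3 : 16 * (2 / (z:ℝ)) ≤ e / 2 := by
      rw [div_lt_iff₀ he] at hzr
      rw [← mul_div_assoc, div_le_iff₀ hz00]
      nlinarith
    have h4 : E * (2 * Real.exp (-(Rs:ℝ))) ≤ e / 2 := by
      have h5 : (Rs:ℝ) + 1 ≤ Real.exp Rs := Real.add_one_le_exp _
      have h6 : 4 * E / e < Rs := by
        refine hR0.trans_le ?_
        exact_mod_cast hR
      rw [div_lt_iff₀ he] at h6
      rw [Real.exp_neg]
      have h7 : 0 < Real.exp (Rs:ℝ) := Real.exp_pos _
      have h8 : E * (2 * (Real.exp (Rs:ℝ))⁻¹) = 2 * E / Real.exp (Rs:ℝ) := by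
        field_simp
      rw [h8, div_le_iff₀ h7]
      nlinarith
    linarith
  have key : ∀ j ≤ J, (1 - ∑ i ∈ range j, s i) * Real.exp (a ^ 2 * VB δ z y 0 j) ≤
      nn δ (BP (fun _ => a) z y 0 j Rs) := by
    intro j
    induction j with
    | zero =>
      intro _
      unfold VB BP
      rw [Finset.Ico_self, Finset.prod_empty, BLK.nn_one]
      simp
    | succ j ih =>
      intro hj
      have h1 := ih (by omega)
      have h2 := block c hc (IB z y j) (fun p hp => IB_prime hp) (hJ j (by omega)) δ a hδ ha ha1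
        (20 * RB Rs j)
      rw [nn_BP_succ (fun _ => a) z hy j Rs δ]
      have hV : VB δ z y 0 (j + 1) = VB δ z y 0 j + ∑ p ∈ IB z y j, wd δ p := by
        unfold VB
        rw [Finset.sum_Ico_succ_top (Nat.zero_le j)]
      rw [hV, mul_add, Real.exp_add, Finset.sum_range_succ]
      have h2' : (1 - s j) * Real.exp (a ^ 2 * ∑ p ∈ IB z y j, wd δ p) ≤
          nn δ (NKc (20 * RB Rs j) a (xc (IB z y j))) := h2
      set S := ∑ i ∈ range j, s i with hS
      have hS0 : 0 ≤ S := Finset.sum_nonneg fun i _ => hs0 i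
      have hE1 := Real.exp_pos (a ^ 2 * VB δ z y 0 j)
      have hE2 := Real.exp_pos (a ^ 2 * ∑ p ∈ IB z y j, wd δ p)
      set A := Real.exp (a ^ 2 * VB δ z y 0 j) with hA
      set B := Real.exp (a ^ 2 * ∑ p ∈ IB z y j, wd δ p) with hB
      have hn1 := BLK.nn_nonneg δ (BP (fun _ => a) z y 0 j Rs)
      have hn2 := BLK.nn_nonneg δ (NKc (20 * RB Rs j) a (xc (IB z y j)))
      by_cases hle : 1 - (S + s j) ≤ 0
      · refine le_trans ?_ (mul_nonneg hn1 hn2)
        exact mul_nonpos_of_nonpos_of_nonneg hle (by positivity)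
      · push Not at hle
        have hsj := hs0 j
        have h3 : 0 ≤ 1 - S := by linarith
        have h4 : 0 ≤ 1 - s j := by linarith
        calc (1 - (S + s j)) * (A * B) ≤ ((1 - S) * (1 - s j)) * (A * B) := by
              refine mul_le_mul_of_nonneg_right ?_ (by positivity)
              nlinarith [mul_nonneg hS0 hsj]
          _ = ((1 - S) * A) * ((1 - s j) * B) := by ring
          _ ≤ _ := mul_le_mul h1 h2' (by positivity) hn1
  refine le_trans ?_ (key J le_rfl)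
  refine mul_le_mul_of_nonneg_right ?_ (Real.exp_pos _).le
  linarith

end Pool.Agent.N748.GC.NNL2
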