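import Pool.Agent.N748.GC.L2
import Pool.Agent.N748.GC.WIN

set_option autoImplicit false

/-!
# GC2/WIN2: from windows of length `δ^(-θ)` to longer windows
-/

namespace Pool.Agent.N748.GC.WIN2

open Finset Filter MeasureTheory Topology Complex
open Pool.Agent.N748.GC Pool.Agent.N748.GC.WIN

theorem Zn_nonneg' (α δ u : ℝ) (h : 0 ≤ (2 * δ) ^ (α ^ 2) / aa α) : 0 ≤ Zn α δ u := by
  unfold Zn
  positivity

/-- comparison with the short windows at one point -/
theorem pt_bound {Z : ℝ → ℝ} (hZ : Continuous Z) (h0 : ∀ u, 0 ≤ Z u) {H H0 : ℝ} (hH0 : 0 < H0)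
    (h01 : H0 ≤ H) (t : ℝ) :
    |(1 / H) * (∫ u in t..(t + H), Z u) - 1| ≤
      (H0 / H) * (∑ k ∈ range (⌊H / H0⌋₊ + 1),
        |(1 / H0) * (∫ u in (t + k * H0)..(t + k * H0 + H0), Z u) - 1| + 2) := by
  have hH : 0 < H := by linarith
  set n : ℕ := ⌊H / H0⌋₊ with hn
  have hn1 : (n:ℝ) * H0 ≤ H := by
    have := Nat.floor_le (div_nonneg hH.le hH0.le)
    rw [← hn, le_div_iff₀ hH0] at this
    exact this
  have hn2 : H ≤ (n + 1) * H0 := by
    have := (Nat.lt_floor_add_one (H / H0)).le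
    rw [← hn, div_le_iff₀ hH0] at this
    exact this
  have hi : ∀ a b : ℝ, IntervalIntegrable Z volume a b := fun a b => hZ.intervalIntegrable a b
  have h1 := intervalIntegral.sum_integral_adjacent_intervals (f := Z) (μ := volume)
    (a := fun k : ℕ => t + k * H0) (n := n) (fun k _ => hi _ _)
  have h2 : t + ((0 : ℕ) : ℝ) * H0 = t := by simp
  simp only [h2] at h1
  have h3 : ∀ k : ℕ, t + ((k + 1 : ℕ) : ℝ) * H0 = t + k * H0 + H0 := by intro k; push_cast; ring
  simp only [h3] at h1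
  have h4 : ∫ u in t..(t + H), Z u = (∑ k ∈ range n, ∫ u in (t + k * H0)..(t + k * H0 + H0), Z u) +
      ∫ u in (t + n * H0)..(t + H), Z u := by
    rw [h1, intervalIntegral.integral_add_adjacent_intervals (hi _ _) (hi _ _)]
  set A : ℕ → ℝ := fun k => (1 / H0) * (∫ u in (t + k * H0)..(t + k * H0 + H0), Z u) - 1 with hA
  have hAk : ∀ k : ℕ, ∫ u in (t + k * H0)..(t + k * H0 + H0), Z u = H0 * A k + H0 := by
    intro k
    simp only [hA]
    field_simp
    ring
  have h5 : 0 ≤ ∫ u in (t + n * H0)..(t + H), Z u :=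
    intervalIntegral.integral_nonneg (by linarith) fun u _ => h0 u
  have h6 : ∫ u in (t + n * H0)..(t + H), Z u ≤ H0 * A n + H0 := by
    rw [← hAk n]
    refine intervalIntegral.integral_mono_interval le_rfl (by linarith) (by linarith)
      (Eventually.of_forall fun u => h0 u) (hi _ _)
  have h7 : (∫ u in t..(t + H), Z u) - H = H0 * (∑ k ∈ range n, A k) +
      ((∫ u in (t + n * H0)..(t + H), Z u) - (H - n * H0)) := by
    rw [h4, sum_congr rfl fun k _ => hAk k, sum_add_distrib, ← mul_sum, sum_const, card_range,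
      nsmul_eq_mul]
    ring
  have h8 : |(∫ u in (t + n * H0)..(t + H), Z u) - (H - n * H0)| ≤ H0 * |A n| + 2 * H0 := by
    have ha : H0 * A n ≤ H0 * |A n| := mul_le_mul_of_nonneg_left (le_abs_self _) hH0.le
    have hb : 0 ≤ H0 * |A n| := mul_nonneg hH0.le (abs_nonneg _)
    rw [abs_le]
    constructor <;> nlinarith
  have h9 : |H0 * (∑ k ∈ range n, A k)| ≤ H0 * ∑ k ∈ range n, |A k| := by
    rw [abs_mul, abs_of_pos hH0]
    exact mul_le_mul_of_nonneg_left (abs_sum_le_sum_abs _ _) hH0.le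
  have h10 : (1 / H) * (∫ u in t..(t + H), Z u) - 1 = (1 / H) * ((∫ u in t..(t + H), Z u) - H) := by
    field_simp
  rw [h10, abs_mul, abs_of_pos (by positivity : (0:ℝ) < 1 / H), h7, sum_range_succ]
  have h11 : |H0 * (∑ k ∈ range n, A k) +
      ((∫ u in (t + n * H0)..(t + H), Z u) - (H - n * H0))| ≤
      H0 * (∑ k ∈ range n, |A k| + |A n| + 2) := by
    refine (abs_add_le _ _).trans ?_
    linarith
  calc _ ≤ (1 / H) * (H0 * (∑ k ∈ range n, |A k| + |A n| + 2)) :=
        mul_le_mul_of_nonneg_left h11 (by positivity)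
    _ = _ := by ring

/-- the mean over a long window from the short windows -/
theorem mean_bound2 {Z : ℝ → ℝ} (hZ : Continuous Z) (h0 : ∀ u, 0 ≤ Z u) {T H H0 E : ℝ} (hH0 : 0 < H0)
    (h01 : H0 ≤ H) (hHT : H ≤ T)
    (hE : ∫ s in (0:ℝ)..(2 * T), |(1 / H0) * (∫ u in s..(s + H0), Z u) - 1| ≤ E) :
    ∫ t in (0:ℝ)..T, |(1 / H) * (∫ u in t..(t + H), Z u) - 1| ≤ 2 * E + 2 * (H0 / H) * T := by
  have hH : 0 < H := by linarith
  have hT : 0 < T := by linarith
  set n : ℕ := ⌊H / H0⌋₊ with hn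
  have hn1 : (n:ℝ) * H0 ≤ H := by
    have := Nat.floor_le (div_nonneg hH.le hH0.le)
    rw [← hn, le_div_iff₀ hH0] at this
    exact this
  set D : ℝ → ℝ := fun s => |(1 / H0) * (∫ u in s..(s + H0), Z u) - 1| with hD
  have hDc : Continuous D := ((continuous_const.mul (prim_cont hZ H0)).sub continuous_const).abs
  have hD0 : ∀ s, 0 ≤ D s := fun s => abs_nonneg _
  have hE0 : 0 ≤ E := (intervalIntegral.integral_nonneg (by linarith) fun s _ => hD0 s).trans hE
  have hDk : ∀ k : ℕ, Continuous fun t : ℝ => D (t + k * H0) := fun k =>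
    hDc.comp (continuous_id.add continuous_const)
  have h1 : ∫ t in (0:ℝ)..T, |(1 / H) * (∫ u in t..(t + H), Z u) - 1| ≤
      ∫ t in (0:ℝ)..T, (H0 / H) * (∑ k ∈ range (n + 1), D (t + k * H0) + 2) := by
    refine intervalIntegral.integral_mono_on hT.le ?_ ?_ fun t _ => pt_bound hZ h0 hH0 h01 t
    · exact (((continuous_const.mul (prim_cont hZ H)).sub continuous_const).abs).intervalIntegrable
        _ _
    · exact (continuous_const.mul ((continuous_finsetSum _ fun k _ => hDk k).add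
        continuous_const)).intervalIntegrable _ _
  refine h1.trans ?_
  rw [intervalIntegral.integral_const_mul, intervalIntegral.integral_add
    ((continuous_finsetSum _ fun k _ => hDk k).intervalIntegrable _ _)
    (continuous_const.intervalIntegrable _ _), intervalIntegral.integral_finsetSum
    fun k _ => (hDk k).intervalIntegrable _ _, intervalIntegral.integral_const, smul_eq_mul, sub_zero]
  have h3 : ∀ k ∈ range (n + 1), ∫ t in (0:ℝ)..T, D (t + k * H0) ≤ E := by
    intro k hk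
    have hk1 : (k:ℝ) ≤ n := by exact_mod_cast Nat.lt_succ_iff.1 (mem_range.1 hk)
    have hk2 : (k:ℝ) * H0 ≤ H := (mul_le_mul_of_nonneg_right hk1 hH0.le).trans hn1
    have hk0 : 0 ≤ (k:ℝ) * H0 := by positivity
    have h4 := intervalIntegral.integral_comp_add_right (a := 0) (b := T) D ((k:ℝ) * H0)
    rw [zero_add] at h4
    rw [h4]
    refine le_trans ?_ hE
    exact intervalIntegral.integral_mono_interval (c := 0) (d := 2 * T) hk0 (by linarith)
      (by linarith) (Eventually.of_forall fun s => hD0 s) (hDc.intervalIntegrable _ _)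
  have h5 : ∑ k ∈ range (n + 1), ∫ t in (0:ℝ)..T, D (t + k * H0) ≤ (n + 1) * E := by
    calc _ ≤ ∑ k ∈ range (n + 1), E := sum_le_sum h3
      _ = (n + 1) * E := by rw [sum_const, card_range, nsmul_eq_mul]; push_cast; ring
  have h6 : (H0 / H) * (n + 1) ≤ 2 := by
    rw [div_mul_eq_mul_div, div_le_iff₀ hH]
    nlinarith
  have h7 : 0 ≤ H0 / H := by positivity
  calc (H0 / H) * (∑ k ∈ range (n + 1), (∫ t in (0:ℝ)..T, D (t + k * H0)) + T * 2)
      ≤ (H0 / H) * ((n + 1) * E + T * 2) :=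
        mul_le_mul_of_nonneg_left (add_le_add h5 le_rfl) h7
    _ = ((H0 / H) * (n + 1)) * E + 2 * (H0 / H) * T := by ring
    _ ≤ 2 * E + 2 * (H0 / H) * T := by
      have := mul_le_mul_of_nonneg_right h6 hE0
      linarith

theorem main (h : S_CORE2) : S_WIN2 := by
  intro α hα hα2 θ hθ hθ1 δ hδ H hH hHT
  obtain ⟨θ', hθ'1, hθ'2⟩ : ∃ θ' : ℝ, max 0 (α ^ 2 - 1) < θ' ∧ θ' < θ :=
    exists_between (max_lt hθ hθ1)
  have hθ'0 : 0 < θ' := (le_max_left _ _).trans_lt hθ'1
  have hθ'3 : α ^ 2 - 1 < θ' := (le_max_right _ _).trans_lt hθ'1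
  rw [Metric.tendsto_nhds]
  intro ε hε
  obtain ⟨lam, δ0, hlam, hδ0, hδ01, hev⟩ := h α hα hα2 θ' hθ'0 hθ'3 (ε / 8) (by positivity)
  have hev' : ∀ᶠ T : ℝ in atTop, ∀ δ : ℝ, lam / Real.log (2 * T) ≤ δ → δ ≤ δ0 →
      ∫ t in (0:ℝ)..(2 * T), |δ ^ θ' * (∫ u in t..(t + δ ^ (-θ')), Zn α δ u) - 1| ≤ ε / 8 * (2 * T) :=
    (Tendsto.const_mul_atTop (by norm_num) tendsto_id : Tendsto (fun T : ℝ => 2 * T) atTop atTop).eventually
      hev
  -- the ratio of the lengths tends to zero
  have hpow : Tendsto (fun T => δ T ^ (θ - θ')) atTop (𝓝 0) := by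
    have h1 : Tendsto (fun x : ℝ => x ^ (θ - θ')) (𝓝 0) (𝓝 0) := by
      have := (Real.continuousAt_rpow_const 0 (θ - θ') (Or.inr (by linarith))).tendsto
      rwa [Real.zero_rpow (by linarith)] at this
    exact h1.comp hδ.t0
  have hsmall : ∀ᶠ T : ℝ in atTop, δ T ^ (θ - θ') < ε / 8 := by
    exact hpow.eventually (gt_mem_nhds (by positivity))
  filter_upwards [hev', hδ.tL.eventually_ge_atTop lam, hδ.t0.eventually_le_const hδ0, hH, hHT,
    eventually_ge_atTop (3:ℝ), hsmall] with T h1 h2 h3 h4 h5 h6 h7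
  have hT0 : 0 < T := by linarith
  have hlogT : 0 < Real.log T := Real.log_pos (by linarith)
  have hd1 : lam / Real.log (2 * T) ≤ δ T := by
    have ha : lam / Real.log (2 * T) ≤ lam / Real.log T := by
      refine div_le_div_of_nonneg_left (by linarith) hlogT ?_
      exact Real.log_le_log hT0 (by linarith)
    have hb : lam / Real.log T ≤ δ T := by rw [div_le_iff₀ hlogT]; exact h2
    exact ha.trans hb
  have hdpos : 0 < δ T := by
    have : 0 < δ T * Real.log T := by linarith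
    exact (pos_iff_pos_of_mul_pos this).2 hlogT
  have hZ : Continuous (Zn α (δ T)) := Zn_cont hα hdpos (h3.trans hδ01)
  have haa : 0 ≤ aa α := by
    unfold aa
    refine tprod_nonneg fun p => ?_
    have hp : (1:ℝ) ≤ ((p : ℕ) : ℝ) := by exact_mod_cast p.2.one_lt.le
    have h11 : 1 / ((p : ℕ) : ℝ) ≤ 1 := by
      rw [div_le_one (by linarith)]; exact hp
    refine mul_nonneg (Real.rpow_nonneg (by linarith) _) (tsum_nonneg fun m => ?_)
    positivity
  have hZ0 : ∀ u, 0 ≤ Zn α (δ T) u := fun u => Zn_nonneg' α (δ T) u (by positivity)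
  have hH0 : 0 < δ T ^ (-θ') := Real.rpow_pos_of_pos hdpos _
  have hd1' : δ T ≤ 1 := by linarith
  have h01 : δ T ^ (-θ') ≤ H T := by
    refine le_trans ?_ h4
    exact Real.rpow_le_rpow_of_exponent_ge hdpos hd1' (by linarith)
  have hinv : 1 / δ T ^ (-θ') = δ T ^ θ' := by
    rw [Real.rpow_neg hdpos.le, one_div, inv_inv]
  have hE : ∫ s in (0:ℝ)..(2 * T), |(1 / δ T ^ (-θ')) * (∫ u in s..(s + δ T ^ (-θ')), Zn α (δ T) u) - 1| ≤
      ε / 8 * (2 * T) := by
    rw [hinv]
    exact h1 (δ T) hd1 h3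
  have hmain := mean_bound2 hZ hZ0 hH0 h01 h5 hE
  have hratio : δ T ^ (-θ') / H T ≤ δ T ^ (θ - θ') := by
    rw [div_le_iff₀ (hH0.trans_le h01)]
    calc δ T ^ (-θ') = δ T ^ (θ - θ') * δ T ^ (-θ) := by
          rw [← Real.rpow_add hdpos]; congr 1; ring
      _ ≤ δ T ^ (θ - θ') * H T :=
          mul_le_mul_of_nonneg_left h4 (Real.rpow_nonneg hdpos.le _)
  have hnn : 0 ≤ ∫ t in (0:ℝ)..T, |(1 / H T) * (∫ u in t..(t + H T), Zn α (δ T) u) - 1| :=
    intervalIntegral.integral_nonneg hT0.le fun t _ => abs_nonneg _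
  rw [Real.dist_eq, sub_zero, abs_of_nonneg (mul_nonneg (by positivity) hnn), one_div,
    inv_mul_lt_iff₀ hT0]
  have h8 : δ T ^ (-θ') / H T < ε / 8 := hratio.trans_lt h7
  have h9 : 2 * (δ T ^ (-θ') / H T) * T ≤ ε / 4 * T :=
    mul_le_mul_of_nonneg_right (by linarith) hT0.le
  have h10 : 0 < T * ε := by positivity
  linarith

end Pool.Agent.N748.GC.WIN2
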