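import Pool.Agent.N748.GC.L1

set_option autoImplicit false

/-!
# Local moments near the critical line: windows of length `δ^(-θ)`, statements of the parts (`0 < α < 2`)
-/

namespace Pool.Agent.N748.GC

open Finset Filter MeasureTheory MonoidAlgebra Topology Complex

/-- (NNL2) the lower bound for the mean square, for exponents up to `2` -/
def S_NNL2 : Prop := ∀ c : ℝ, 0 ≤ c → ∀ e : ℝ, 0 < e → ∃ z0 R0 : ℕ, ∀ (z J Rs : ℕ) (y : ℝ), z0 ≤ z → R0 ≤ Rs →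
  1 ≤ y → (∀ i < J, ∑ p ∈ IB z y i, 1 / (p:ℝ) ≤ c) → ∀ δ : ℝ, 0 ≤ δ → ∀ α : ℝ, 0 ≤ α → α ≤ 2 →
  (1 - e) * Real.exp (α ^ 2 * VB δ z y 0 J) ≤ nn δ (BP (fun _ => α) z y 0 J Rs)

/-- (NNQ2) the mean square with the detecting polynomial, for exponents up to `2` -/
def S_NNQ2 : Prop := ∀ c : ℝ, 0 ≤ c → ∃ (C : ℝ) (R0 : ℕ), 0 ≤ C ∧ ∀ (z J Rs : ℕ) (y : ℝ), 144 ≤ z → 1 ≤ y → R0 ≤ Rs →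
  1 ≤ Rs → (∀ i < J, ∑ p ∈ IB z y i, 1 / (p:ℝ) ≤ c) → ∀ δ : ℝ, 0 ≤ δ → ∀ α : ℝ, 0 ≤ α → α ≤ 2 → ∀ i < J,
  nn δ (BP (fun _ => α) z y 0 J Rs * QB z y Rs i) ≤
    C * Real.exp (-(RB Rs i : ℝ)) * Real.exp (α ^ 2 * VB δ z y 0 J)

/-- (ONE2) the first moment, for `α < 2` and all shifts -/
def S_ONE2 : Prop := ∀ α : ℝ, 0 < α → α < 2 → ∀ c : ℝ, 0 ≤ c → ∀ e : ℝ, 0 < e → ∃ z0 R0 : ℕ, ∀ z ≥ z0, ∀ Rs ≥ R0,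
  ∀ (yf : ℝ → ℝ) (Jf : ℝ → ℕ), SB c z Rs yf Jf → ∀ lam δ0 : ℝ, 1 ≤ lam →
  ∀ (K : Type) [TopologicalSpace K] [CompactSpace K] (F : K × UnitAddTorus (Sm z) → ℝ), Continuous F →
    (∀ q, 0 ≤ F q) → ∀ η : ℝ, 0 < η → ∀ᶠ X : ℝ in atTop, ∀ δ : ℝ, lam / Real.log X ≤ δ → δ ≤ δ0 →
    ∀ k : K, ∀ x : ℝ,
    |(∫ t in Xl X..X, F (k, pt (Sm z) t) * WB α z Rs yf Jf X δ (t + x)) - X * ∫ y, F (k, y) ∂(HP (Sm z))| ≤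
      X * (e * (∫ y, F (k, y) ∂(HP (Sm z))) + η)

open Classical in
/-- (BADA2) large sums over blocks carry little mass, for `α < 2` and all shifts -/
def S_BADA2 : Prop := ∀ α : ℝ, 0 < α → α < 2 → ∀ c : ℝ, 0 ≤ c → ∀ e : ℝ, 0 < e → ∃ z0 R0 : ℕ, ∀ z ≥ z0, ∀ Rs ≥ R0,
  ∀ (yf : ℝ → ℝ) (Jf : ℝ → ℕ), SB c z Rs yf Jf → ∀ lam δ0 : ℝ, 1 ≤ lam →
  ∀ (K : Type) [TopologicalSpace K] [CompactSpace K] (F : K × UnitAddTorus (Sm z) → ℝ), Continuous F →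
    (∀ q, 0 ≤ F q) → ∀ η : ℝ, 0 < η → ∀ᶠ X : ℝ in atTop, ∀ δ : ℝ, lam / Real.log X ≤ δ → δ ≤ δ0 →
    ∀ k : K, ∀ x : ℝ,
    ∫ t in Xl X..X, F (k, pt (Sm z) t) *
      (WB α z Rs yf Jf X δ (t + x) * (if Gd1 z Rs yf Jf X δ (t + x) then 0 else 1)) ≤
      X * (e * (∫ y, F (k, y) ∂(HP (Sm z))) + η)

open Classical in
/-- (BADB2) the points beyond the barrier carry little mass, for `α < 2` and all shifts -/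
def S_BADB2 : Prop := ∀ α : ℝ, 0 < α → α < 2 → ∀ ε1 : ℝ, 0 < ε1 → ε1 ≤ 1 → ∀ c : ℝ, 0 ≤ c → ∀ e : ℝ, 0 < e →
  ∃ A : ℝ, 1 ≤ A ∧ ∃ z0 R0 : ℕ, ∀ z ≥ z0, ∀ Rs ≥ R0,
  ∀ (yf : ℝ → ℝ) (Jf : ℝ → ℕ), SB c z Rs yf Jf → ∀ lam δ0 : ℝ, 1 ≤ lam →
  ∀ (K : Type) [TopologicalSpace K] [CompactSpace K] (F : K × UnitAddTorus (Sm z) → ℝ), Continuous F →
    (∀ q, 0 ≤ F q) → ∀ η : ℝ, 0 < η → ∀ᶠ X : ℝ in atTop, ∀ δ : ℝ, lam / Real.log X ≤ δ → δ ≤ δ0 →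
    ∀ k : K, ∀ x : ℝ,
    ∫ t in Xl X..X, F (k, pt (Sm z) t) * (WB α z Rs yf Jf X δ (t + x) *
      (if Gd1 z Rs yf Jf X δ (t + x) ∧ ¬ Gd2 α A ε1 z Rs yf Jf X δ (t + x) then 1 else 0)) ≤
      X * (e * (∫ y, F (k, y) ∂(HP (Sm z))) + η)

/-- (NEAR2) the two-point function on the good points at distances up to `1` -/
def S_NEAR2 : Prop := ∀ α : ℝ, 0 < α → α < 2 → ∀ ε1 : ℝ, 0 < ε1 → ε1 ≤ 1 →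
  ∀ c : ℝ, 0 ≤ c → ∀ A : ℝ, 1 ≤ A → ∃ C : ℝ, 0 ≤ C ∧ ∃ z0 R0 : ℕ, ∀ z ≥ z0, ∀ Rs ≥ R0,
  ∀ (yf : ℝ → ℝ) (Jf : ℝ → ℕ), SB c z Rs yf Jf → ∃ δ1 : ℝ, 0 < δ1 ∧ ∀ lam δ0 : ℝ, 1 ≤ lam → δ0 ≤ δ1 →
  ∀ (K : Type) [TopologicalSpace K] [CompactSpace K] (F : K × UnitAddTorus (Sm z) → ℝ), Continuous F →
    (∀ q, 0 ≤ F q) → ∀ η : ℝ, 0 < η → ∀ᶠ X : ℝ in atTop, ∀ δ : ℝ, lam / Real.log X ≤ δ → δ ≤ δ0 →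
    ∀ k : K, ∀ x y : ℝ, x ≠ y → |x - y| ≤ 1 →
    ∫ t in Xl X..X, F (k, pt (Sm z) t) *
      ((WB α z Rs yf Jf X δ (t + x) * gB α A ε1 z Rs yf Jf X δ (t + x)) *
       (WB α z Rs yf Jf X δ (t + y) * gB α A ε1 z Rs yf Jf X δ (t + y))) ≤
      X * (((∫ w, F (k, w) ∂(HP (Sm z))) + η) * (C * (max |x - y| δ) ^ (-(α ^ 2 + ε1))))

/-- the correlation of the weights at distance `h` -/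
noncomputable def KX (α : ℝ) (z : ℕ) (y : ℝ) (J : ℕ) (δ h : ℝ) : ℝ :=
  Real.exp (2 * α ^ 2 * ∑ i ∈ range J, ∑ p ∈ IB z y i, Real.cos (h * Real.log p) * wd δ p)

/-- (FAR) the two-point function of the weights at arbitrary distances -/
def S_FAR : Prop := ∀ α : ℝ, 0 < α → α < 2 → ∀ c : ℝ, 0 ≤ c → ∀ e : ℝ, 0 < e → ∃ z0 R0 : ℕ, ∀ z ≥ z0, ∀ Rs ≥ R0,
  ∀ (yf : ℝ → ℝ) (Jf : ℝ → ℕ), SB c z Rs yf Jf → ∀ lam δ0 : ℝ, 1 ≤ lam →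
  ∀ (K : Type) [TopologicalSpace K] [CompactSpace K] (F : K × UnitAddTorus (Sm z) → ℝ), Continuous F →
    (∀ q, 0 ≤ F q) → ∀ η : ℝ, 0 < η → ∀ᶠ X : ℝ in atTop, ∀ δ : ℝ, lam / Real.log X ≤ δ → δ ≤ δ0 →
    ∀ k : K, ∀ x y : ℝ,
    ∫ t in Xl X..X, F (k, pt (Sm z) t) * (WB α z Rs yf Jf X δ (t + x) * WB α z Rs yf Jf X δ (t + y)) ≤
      X * (((∫ w, F (k, w) ∂(HP (Sm z))) + η) * ((1 + e) * KX α z (yf X) (Jf X) δ (x - y)) + η)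

/-- (ZPA) partial sums of the zeta series near the line `1` -/
def S_ZPA : Prop := ∃ C : ℝ, 0 < C ∧ ∀ (N : ℕ) (σ h : ℝ), 1 ≤ N → 1 ≤ σ → σ ≤ 2 → 1 ≤ h →
  ‖riemannZeta (σ + h * I) - ∑ n ∈ Icc 1 N, (n:ℂ) ^ (-(σ + h * I : ℂ))‖ ≤ C * (1 / h + h / N)

/-- (MVW) mean values on the line `1` of long polynomials with small coefficients -/
def S_MVW : Prop := ∃ C : ℝ, 0 < C ∧ ∀ (A M H δ : ℝ) (D : PC), 0 ≤ A → 1 ≤ M → 0 ≤ H → 1 / 2 ≤ δ →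
  (∀ n ∈ D.coeff.support, n ≠ 0 ∧ (n:ℝ) ≤ M) → (∀ n, ‖D.coeff n‖ ≤ A * (n:ℝ) ^ ((1:ℝ) / 100)) →
  ∫ h in (0:ℝ)..H, ‖ec (1 / 2 + δ + h * I) D‖ ^ 2 ≤ H * nn δ D + C * A ^ 2 * M ^ ((1:ℝ) / 25)

/-- (ZML) moments of zeta without the small primes on the line `1` -/
def S_ZML : Prop := ∃ C : ℝ, 0 < C ∧ ∀ z : ℕ, 2 ≤ z → ∃ H0 : ℝ, 1 ≤ H0 ∧ ∀ H ≥ H0, ∀ δ : ℝ, 0 < δ → δ ≤ 1 / 16 →
  ∀ q : ℝ, 0 ≤ q → q ≤ 8 →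
  ∫ h in (1:ℝ)..H, max (‖riemannZeta (1 + 2 * δ + h * I) *
    ∏ p ∈ Sm z, (1 - (p:ℂ) ^ (-(1 + 2 * δ + h * I : ℂ)))‖ ^ q - 1) 0 ≤ C * (z:ℝ) ^ (-(1 / 2 : ℝ)) * H

/-- (KAP) the correlations are close to `1` on average -/
def S_KAP : Prop := ∀ α : ℝ, 0 < α → α < 2 → ∃ C : ℝ, 0 < C ∧ ∃ z0 : ℕ, ∀ z ≥ z0, ∃ H0 lam : ℝ, 1 ≤ H0 ∧ 1 ≤ lam ∧
  ∀ H ≥ H0, ∀ δ : ℝ, 0 < δ → δ ≤ 1 / 16 → ∀ (y : ℝ) (J : ℕ), (z:ℝ) ≤ y → be y J < 144 → lam ≤ δ * Real.log y →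
  ∫ h in (1:ℝ)..H, max (KX α z y J δ h - 1) 0 ≤ C * (z:ℝ) ^ (-(1 / 4 : ℝ)) * H

/-- (MOM2) moments of the density, for `α ≤ 2` -/
def S_MOM2 : Prop := ∀ α : ℝ, 0 < α → α ≤ 2 → ∀ s : ℝ, 1 ≤ s → s ≤ 2 → ∃ C : ℝ, 0 < C ∧ ∀ z : ℕ, 3 ≤ z →
  ∫ x, M0 α (Sm z) x ^ s ∂(HP (Sm z)) ≤ C * Real.log z ^ (α ^ 2 * s * (s - 1))

/-- (CUT2) the cut-off is harmless, for `α ≤ 2` -/
def S_CUT2 : Prop := ∀ α : ℝ, 0 < α → α ≤ 2 → ∀ b : ℝ, α ^ 2 < b → ∀ ε : ℝ, 0 < ε → ∃ z0 : ℕ, ∀ z ≥ z0,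
  ∫ x, (M0 α (Sm z) x - Mc α b z x) ∂(HP (Sm z)) ≤ ε

/-- (TS2) weights `W X δ u` with good sets (indicator functions `g X δ u`), equidistributed with respect to the
primes below `z`, with bounds for the two-point functions on the good sets; `κ X δ h` is the correlation -/
structure TS2 (b C ζ e lam δ0 : ℝ) (z : ℕ) (W g κ : ℝ → ℝ → ℝ → ℝ) : Prop where
  W0 : ∀ X δ u, 0 ≤ W X δ u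
  Wc : ∀ X δ, Continuous (W X δ)
  g0 : ∀ X δ u, 0 ≤ g X δ u
  g1 : ∀ X δ u, g X δ u ≤ 1
  gm : ∀ X δ, Measurable (g X δ)
  k0 : ∀ X δ h, 0 ≤ κ X δ h
  kc : ∀ X δ, Continuous (κ X δ)
  ke : ∀ X δ h, κ X δ (-h) = κ X δ h
  kap : ∃ H0 : ℝ, 1 ≤ H0 ∧ ∀ᶠ X : ℝ in atTop, ∀ δ : ℝ, lam / Real.log X ≤ δ → δ ≤ δ0 → ∀ H ≥ H0,
    Real.log z ^ (2 * b) * ∫ h in (1:ℝ)..H, max (κ X δ h - 1) 0 ≤ e * H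
  zero : ∀ (K : Type) [TopologicalSpace K] [CompactSpace K] (F : K × UnitAddTorus (Sm z) → ℝ), Continuous F →
    ∀ η : ℝ, 0 < η → ∀ᶠ X : ℝ in atTop, ∀ k : K,
    |(∫ t in Xl X..X, F (k, pt (Sm z) t)) - X * ∫ y, F (k, y) ∂(HP (Sm z))| ≤ X * η
  one : ∀ (K : Type) [TopologicalSpace K] [CompactSpace K] (F : K × UnitAddTorus (Sm z) → ℝ), Continuous F →
    (∀ q, 0 ≤ F q) → ∀ η : ℝ, 0 < η → ∀ᶠ X : ℝ in atTop, ∀ δ : ℝ, lam / Real.log X ≤ δ → δ ≤ δ0 →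
    ∀ k : K, ∀ x : ℝ,
    |(∫ t in Xl X..X, F (k, pt (Sm z) t) * W X δ (t + x)) - X * ∫ y, F (k, y) ∂(HP (Sm z))| ≤
      X * (e * (∫ y, F (k, y) ∂(HP (Sm z))) + η)
  bad : ∀ (K : Type) [TopologicalSpace K] [CompactSpace K] (F : K × UnitAddTorus (Sm z) → ℝ), Continuous F →
    (∀ q, 0 ≤ F q) → ∀ η : ℝ, 0 < η → ∀ᶠ X : ℝ in atTop, ∀ δ : ℝ, lam / Real.log X ≤ δ → δ ≤ δ0 →
    ∀ k : K, ∀ x : ℝ,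
    ∫ t in Xl X..X, F (k, pt (Sm z) t) * (W X δ (t + x) * (1 - g X δ (t + x))) ≤
      X * (e * (∫ y, F (k, y) ∂(HP (Sm z))) + η)
  near : ∀ (K : Type) [TopologicalSpace K] [CompactSpace K] (F : K × UnitAddTorus (Sm z) → ℝ), Continuous F →
    (∀ q, 0 ≤ F q) → ∀ η : ℝ, 0 < η → ∀ᶠ X : ℝ in atTop, ∀ δ : ℝ, lam / Real.log X ≤ δ → δ ≤ δ0 →
    ∀ k : K, ∀ x y : ℝ, x ≠ y → |x - y| ≤ 1 →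
    ∫ t in Xl X..X, F (k, pt (Sm z) t) * ((W X δ (t + x) * g X δ (t + x)) * (W X δ (t + y) * g X δ (t + y))) ≤
      X * (((∫ w, F (k, w) ∂(HP (Sm z))) + η) * (C * (max |x - y| δ) ^ (-ζ)))
  far : ∀ (K : Type) [TopologicalSpace K] [CompactSpace K] (F : K × UnitAddTorus (Sm z) → ℝ), Continuous F →
    (∀ q, 0 ≤ F q) → ∀ η : ℝ, 0 < η → ∀ᶠ X : ℝ in atTop, ∀ δ : ℝ, lam / Real.log X ≤ δ → δ ≤ δ0 →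
    ∀ k : K, ∀ x y : ℝ,
    ∫ t in Xl X..X, F (k, pt (Sm z) t) * ((W X δ (t + x) * g X δ (t + x)) * (W X δ (t + y) * g X δ (t + y))) ≤
      X * (((∫ w, F (k, w) ∂(HP (Sm z))) + η) * ((1 + e) * κ X δ (x - y)) + η)

/-- (ASM2) from the bounds for the weights to the windows of length `δ^(-θ)` -/
def S_ASM2 : Prop := ∃ C0 : ℝ, 0 < C0 ∧ ∀ (α b C ζ e lam δ0 θ : ℝ) (z : ℕ) (W g κ : ℝ → ℝ → ℝ → ℝ), 0 < α → 0 < b →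
  3 ≤ z → 0 ≤ C → 1 < ζ → ζ - 1 < θ → 0 < e → e ≤ 1 → 1 ≤ lam → 0 < δ0 → δ0 ≤ 1 → TS2 b C ζ e lam δ0 z W g κ →
  ∀ ε : ℝ, 0 < ε → ∃ δ1 : ℝ, 0 < δ1 ∧ δ1 ≤ δ0 ∧ ∀ᶠ X : ℝ in atTop, ∀ δ : ℝ, lam / Real.log X ≤ δ → δ ≤ δ1 →
  ∫ t in Xl X..X, |δ ^ θ * ∫ u in (0:ℝ)..(δ ^ (-θ)), mz α z (t + u) * (W X δ (t + u) - 1)| ≤
    X * (C0 * (Real.sqrt e + ∫ x, (M0 α (Sm z) x - Mc α b z x) ∂(HP (Sm z))) + ε)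

/-- (CORE2) windows of length `δ^(-θ)` -/
def S_CORE2 : Prop := ∀ α : ℝ, 0 < α → α < 2 → ∀ θ : ℝ, 0 < θ → α ^ 2 - 1 < θ → ∀ ε : ℝ, 0 < ε → ∃ lam δ0 : ℝ,
  1 ≤ lam ∧ 0 < δ0 ∧ δ0 ≤ 1 / 16 ∧ ∀ᶠ X : ℝ in atTop, ∀ δ : ℝ, lam / Real.log X ≤ δ → δ ≤ δ0 →
  ∫ t in (0:ℝ)..X, |δ ^ θ * (∫ u in t..(t + δ ^ (-θ)), Zn α δ u) - 1| ≤ ε * X

/-- (WIN2) moments in almost all windows of length at least `δ^(-θ)` -/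
def S_WIN2 : Prop := ∀ α : ℝ, 0 < α → α < 2 → ∀ θ : ℝ, 0 < θ → α ^ 2 - 1 < θ → ∀ δ : ℝ → ℝ, Pd δ → ∀ H : ℝ → ℝ,
  (∀ᶠ T in atTop, δ T ^ (-θ) ≤ H T) → (∀ᶠ T in atTop, H T ≤ T) →
  Tendsto (fun T : ℝ => (1 / T) * ∫ t in (0:ℝ)..T, |(1 / H T) * (∫ u in t..(t + H T), Zn α (δ T) u) - 1|)
    atTop (𝓝 0)

/-- (DEG) short windows above the critical exponent: the normalised local moments tend to zero in measure -/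
def S_DEG : Prop := ∀ α : ℝ, 1 < α → α < 2 → ∀ θ : ℝ, 0 ≤ θ → θ < α ^ 2 - 1 → ∀ δ : ℝ → ℝ, Pd δ → ∀ H : ℝ → ℝ,
  (∀ᶠ T in atTop, 0 < H T) → (∀ᶠ T in atTop, H T ≤ δ T ^ (-θ)) → ∀ η : ℝ, 0 < η →
  Tendsto (fun T : ℝ => (1 / T) * (volume {t : ℝ | 0 ≤ t ∧ t ≤ T ∧
    η ≤ (1 / H T) * ∫ u in t..(t + H T), Zn α (δ T) u}).toReal) atTop (𝓝 0)

/-- (BDD) windows of bounded length for `α < 1`: the local moments stay away from the mean value -/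
def S_BDD : Prop := ∀ α : ℝ, 0 < α → α < 1 → ∀ δ : ℝ → ℝ, Pd δ → ∀ h0 : ℝ, 0 < h0 → ∃ c : ℝ, 0 < c ∧
  ∀ᶠ T : ℝ in atTop, ∀ H : ℝ, 0 < H → H ≤ h0 →
  c ≤ (1 / T) * ∫ t in (0:ℝ)..T, |(1 / H) * (∫ u in t..(t + H), Zn α (δ T) u) - 1|

end Pool.Agent.N748.GC
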