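import Pool.Agent.N748.GC.MV
import Pool.Agent.N748.GC.NN
import Pool.Agent.N748.GC.L2
import Pool.Agent.H353R2.Z2

set_option autoImplicit false

/-!
# Moments of zeta without the small primes on the line `1` (helper402, part of GC2)
-/

namespace Pool.Agent.N748.GC.ZML

open Finset Complex MeasureTheory Filter Topology MonoidAlgebra
open scoped ArithmeticFunction.Moebius

/-! ### the sieve identity -/

/-- the product of the primes below `z` -/
def W (z : ℕ) : ℕ := ∏ p ∈ Sm z, p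

lemma Sm_prime {z p : ℕ} (hp : p ∈ Sm z) : p.Prime := (mem_filter.1 hp).2

lemma W_sqf (z : ℕ) : Squarefree (W z) := by
  unfold W
  refine Finset.squarefree_prod_of_pairwise_isCoprime ?_ ?_
  · intro p hp q hq hpq
    exact Nat.coprime_iff_isRelPrime.1 ((Nat.coprime_primes (Sm_prime hp) (Sm_prime hq)).2 hpq)
  · intro p hp
    exact (Sm_prime hp).squarefree

lemma W_ne (z : ℕ) : W z ≠ 0 := (W_sqf z).ne_zero

lemma W_pf (z : ℕ) : (W z).primeFactors = Sm z := by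
  unfold W
  exact Nat.primeFactors_prod fun p hp => Sm_prime hp

/-- prime to the primes below `z` -/
def Rough (z n : ℕ) : Prop := ∀ p ∈ Sm z, ¬ p ∣ n

instance (z n : ℕ) : Decidable (Rough z n) := by unfold Rough; infer_instance

lemma sieve {z n : ℕ} :
    ∑ d ∈ (W z).divisors.filter (fun d => d ∣ n), ((μ d : ℤ) : ℂ) = if Rough z n then 1 else 0 := by
  have h1 : (W z).divisors.filter (fun d => d ∣ n) = (Nat.gcd (W z) n).divisors := by
    ext d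
    simp only [mem_filter, Nat.mem_divisors, Nat.dvd_gcd_iff]
    constructor
    · rintro ⟨⟨h, _⟩, h2⟩
      exact ⟨⟨h, h2⟩, Nat.gcd_ne_zero_left (W_ne z)⟩
    · rintro ⟨⟨h, h2⟩, _⟩
      exact ⟨⟨h, W_ne z⟩, h2⟩
  rw [h1]
  have h2 : ∑ d ∈ (Nat.gcd (W z) n).divisors, (μ d : ℤ) = if Nat.gcd (W z) n = 1 then 1 else 0 := by
    have h := congrArg (fun f : ArithmeticFunction ℤ => f (Nat.gcd (W z) n))
      ArithmeticFunction.moebius_mul_coe_zeta
    simp only [ArithmeticFunction.coe_mul_zeta_apply, ArithmeticFunction.one_apply] at h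
    exact h
  have h3 : Nat.gcd (W z) n = 1 ↔ Rough z n := by
    have : Nat.gcd (W z) n = 1 ↔ Nat.Coprime (W z) n := Iff.rfl
    rw [this]
    unfold W Rough
    rw [Nat.coprime_prod_left_iff]
    constructor
    · intro h p hp
      exact (Nat.Prime.coprime_iff_not_dvd (Sm_prime hp)).1 (h p hp)
    · intro h p hp
      exact (Nat.Prime.coprime_iff_not_dvd (Sm_prime hp)).2 (h p hp)
  rw [← Int.cast_sum, h2]
  simp only [h3]
  split_ifs <;> simp

/-- the Euler product over the small primes -/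
lemma euler (z : ℕ) (s : ℂ) : ∏ p ∈ Sm z, (1 - (p:ℂ) ^ (-s)) =
    ∑ d ∈ (W z).divisors, ((μ d : ℤ) : ℂ) * (d:ℂ) ^ (-s) := by
  set f : ArithmeticFunction ℂ := ⟨fun n => if n = 0 then 0 else (n:ℂ) ^ (-s), by simp⟩ with hf
  have hfa : ∀ n : ℕ, n ≠ 0 → f n = (n:ℂ) ^ (-s) := fun n hn => by
    show (if n = 0 then 0 else (n:ℂ) ^ (-s)) = _
    rw [if_neg hn]
  have hm : f.IsMultiplicative := by
    rw [ArithmeticFunction.IsMultiplicative.iff_ne_zero]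
    refine ⟨by rw [hfa 1 one_ne_zero]; simp, fun {m n} hm hn _ => ?_⟩
    rw [hfa _ (Nat.mul_ne_zero hm hn), hfa m hm, hfa n hn, Nat.cast_mul,
      Complex.natCast_mul_natCast_cpow]
  have h := ArithmeticFunction.IsMultiplicative.prodPrimeFactors_one_sub_of_squarefree f hm (W_sqf z)
  rw [W_pf] at h
  calc ∏ p ∈ Sm z, (1 - (p:ℂ) ^ (-s)) = ∏ p ∈ Sm z, (1 - f p) :=
        prod_congr rfl fun p hp => by rw [hfa p (Sm_prime hp).ne_zero]
    _ = _ := h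
    _ = _ := sum_congr rfl fun d hd => by
        rw [hfa d (Nat.pos_of_mem_divisors hd).ne']

/-- the polynomial -/
noncomputable def PZ (z N : ℕ) : PC := ∑ n ∈ (Icc 1 N).filter (fun n => Rough z n), single n (1:ℂ)

lemma PZ_coeff (z N n : ℕ) : (PZ z N).coeff n = if (1 ≤ n ∧ n ≤ N) ∧ Rough z n then 1 else 0 := by
  classical
  unfold PZ
  rw [MonoidAlgebra.coeff_sum, Finsupp.finsetSum_apply]
  simp only [coeff_single, Finsupp.single_apply]
  rw [Finset.sum_ite_eq']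
  simp only [mem_filter, mem_Icc]

lemma PZ_eval (z N : ℕ) (s : ℂ) : ec s (PZ z N) =
    ∑ n ∈ (Icc 1 N).filter (fun n => Rough z n), (n:ℂ) ^ (-s) := by
  unfold PZ
  rw [map_sum]
  refine sum_congr rfl fun n _ => ?_
  rw [MV.ec_single, one_mul]

lemma PZ_sieve (z N : ℕ) (s : ℂ) : ec s (PZ z N) =
    ∑ d ∈ (W z).divisors, ((μ d : ℤ) : ℂ) * ((d:ℂ) ^ (-s) * ∑ m ∈ Icc 1 (N / d), (m:ℂ) ^ (-s)) := by
  rw [PZ_eval, sum_filter]
  calc ∑ n ∈ Icc 1 N, (if Rough z n then (n:ℂ) ^ (-s) else 0)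
      = ∑ n ∈ Icc 1 N, ∑ d ∈ (W z).divisors, (if d ∣ n then ((μ d : ℤ) : ℂ) * (n:ℂ) ^ (-s) else 0) := by
        refine sum_congr rfl fun n hn => ?_
        have h := sieve (z := z) (n := n)
        rw [← sum_filter, ← sum_mul, h]
        split_ifs <;> simp
    _ = ∑ d ∈ (W z).divisors, ∑ n ∈ Icc 1 N, (if d ∣ n then ((μ d : ℤ) : ℂ) * (n:ℂ) ^ (-s) else 0) :=
        sum_comm
    _ = _ := by
        refine sum_congr rfl fun d hd => ?_
        have hd0 : 0 < d := Nat.pos_of_mem_divisors hd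
        rw [mul_sum, mul_sum, ← sum_filter]
        refine sum_nbij' (fun n => n / d) (fun m => d * m) ?_ ?_ ?_ ?_ ?_
        · intro n hn
          rw [mem_filter, mem_Icc] at hn
          rw [mem_Icc]
          obtain ⟨m, rfl⟩ := hn.2
          rw [Nat.mul_div_cancel_left _ hd0]
          refine ⟨?_, ?_⟩
          · rcases Nat.eq_zero_or_pos m with h | h
            · rw [h] at hn; simp at hn
            · exact h
          · rw [Nat.le_div_iff_mul_le hd0, mul_comm]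
            exact hn.1.2
        · intro m hm
          rw [mem_Icc] at hm
          rw [mem_filter, mem_Icc]
          refine ⟨⟨Nat.mul_pos hd0 hm.1, ?_⟩, dvd_mul_right _ _⟩
          have := hm.2
          rw [Nat.le_div_iff_mul_le hd0, mul_comm] at this
          exact this
        · intro n hn
          rw [mem_filter] at hn
          exact Nat.mul_div_cancel' hn.2
        · intro m _
          exact Nat.mul_div_cancel_left _ hd0
        · intro n hn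
          rw [mem_filter] at hn
          obtain ⟨m, rfl⟩ := hn.2
          rw [Nat.mul_div_cancel_left _ hd0, Nat.cast_mul, Complex.natCast_mul_natCast_cpow]

/-- the error of the truncation -/
lemma trunc {C : ℝ} (hC : 0 < C) (h1 : ∀ (N : ℕ) (σ h : ℝ), 1 ≤ N → 1 ≤ σ → σ ≤ 2 → 1 ≤ h →
    ‖riemannZeta (σ + h * I) - ∑ n ∈ Icc 1 N, (n:ℂ) ^ (-(σ + h * I : ℂ))‖ ≤ C * (1 / h + h / N))
    {z N : ℕ} {σ h : ℝ} (hσ1 : 1 ≤ σ) (hσ2 : σ ≤ 2) (hh : 1 ≤ h) (hN : W z ≤ N) (hN2 : h ^ 2 ≤ N) :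
    ‖riemannZeta (σ + h * I) * ∏ p ∈ Sm z, (1 - (p:ℂ) ^ (-(σ + h * I : ℂ))) - ec (σ + h * I) (PZ z N)‖ ≤
      3 * C * (W z).divisors.card / h := by
  have hh0 : 0 < h := by linarith
  have hN0 : 0 < N := lt_of_lt_of_le (Nat.pos_of_ne_zero (W_ne z)) hN
  rw [euler, PZ_sieve, mul_sum, ← sum_sub_distrib]
  refine (norm_sum_le _ _).trans ?_
  have h2 : ∀ d ∈ (W z).divisors, ‖riemannZeta (σ + h * I) * (((μ d : ℤ) : ℂ) * (d:ℂ) ^ (-(σ + h * I : ℂ))) -
      ((μ d : ℤ) : ℂ) * ((d:ℂ) ^ (-(σ + h * I : ℂ)) * ∑ m ∈ Icc 1 (N / d), (m:ℂ) ^ (-(σ + h * I : ℂ)))‖ ≤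
      3 * C / h := by
    intro d hd
    have hd0 : 0 < d := Nat.pos_of_mem_divisors hd
    have hdW : d ≤ N := (Nat.le_of_dvd (Nat.pos_of_ne_zero (W_ne z)) (Nat.dvd_of_mem_divisors hd)).trans hN
    have hNd : 1 ≤ N / d := by rw [Nat.le_div_iff_mul_le hd0]; omega
    have e1 : riemannZeta (σ + h * I) * (((μ d : ℤ) : ℂ) * (d:ℂ) ^ (-(σ + h * I : ℂ))) -
      ((μ d : ℤ) : ℂ) * ((d:ℂ) ^ (-(σ + h * I : ℂ)) * ∑ m ∈ Icc 1 (N / d), (m:ℂ) ^ (-(σ + h * I : ℂ))) =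
      ((μ d : ℤ) : ℂ) * (d:ℂ) ^ (-(σ + h * I : ℂ)) *
        (riemannZeta (σ + h * I) - ∑ m ∈ Icc 1 (N / d), (m:ℂ) ^ (-(σ + h * I : ℂ))) := by ring
    rw [e1, norm_mul, norm_mul]
    have e2 : ‖((μ d : ℤ) : ℂ)‖ ≤ 1 := by
      rw [Complex.norm_intCast]
      exact_mod_cast ArithmeticFunction.abs_moebius_le_one
    have hdr : (1:ℝ) ≤ d := by exact_mod_cast hd0
    have e3 : ‖(d:ℂ) ^ (-(σ + h * I : ℂ))‖ ≤ 1 / d := by
      rw [Complex.norm_natCast_cpow_of_pos hd0]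
      have : (-(σ + h * I : ℂ)).re = -σ := by simp
      rw [this, one_div, ← Real.rpow_neg_one]
      exact Real.rpow_le_rpow_of_exponent_le hdr (by linarith)
    have e4 := h1 (N / d) σ h hNd hσ1 hσ2 hh
    have e5 : (N:ℝ) / (2 * d) ≤ ((N / d : ℕ) : ℝ) := by
      rw [div_le_iff₀ (by positivity)]
      have g1 : N < (N / d + 1) * d := by
        have := Nat.div_add_mod N d
        have := Nat.mod_lt N hd0
        nlinarith
      have g2 : (N / d + 1) * d ≤ (N / d) * (2 * d) := by nlinarith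
      have g3 : N ≤ (N / d) * (2 * d) := by omega
      exact_mod_cast g3
    have hNdr : (0:ℝ) < ((N / d : ℕ) : ℝ) := by exact_mod_cast hNd
    have hNr : (0:ℝ) < N := by exact_mod_cast hN0
    have e6 : 1 / (d:ℝ) * (1 / h + h / ((N / d : ℕ) : ℝ)) ≤ 3 / h := by
      have f1 : h / ((N / d : ℕ) : ℝ) ≤ h / ((N:ℝ) / (2 * d)) := by
        apply div_le_div_of_nonneg_left hh0.le (by positivity) e5
      have f2 : 1 / (d:ℝ) * (h / ((N:ℝ) / (2 * d))) = 2 * (h / N) := by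
        field_simp
      have f3 : h / N ≤ 1 / h := by
        rw [div_le_div_iff₀ hNr hh0]
        nlinarith
      have f4 : 1 / (d:ℝ) * (1 / h) ≤ 1 / h := by
        have : 1 / (d:ℝ) ≤ 1 := by rw [div_le_one (by positivity)]; exact hdr
        have : 0 ≤ 1 / h := by positivity
        nlinarith
      calc 1 / (d:ℝ) * (1 / h + h / ((N / d : ℕ) : ℝ)) = 1 / (d:ℝ) * (1 / h) +
            1 / (d:ℝ) * (h / ((N / d : ℕ) : ℝ)) := by ring
        _ ≤ 1 / h + 1 / (d:ℝ) * (h / ((N:ℝ) / (2 * d))) := by gcongr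
        _ ≤ 1 / h + 2 * (1 / h) := by rw [f2]; gcongr
        _ = 3 / h := by ring
    calc ‖((μ d : ℤ) : ℂ)‖ * ‖(d:ℂ) ^ (-(σ + h * I : ℂ))‖ *
          ‖riemannZeta (σ + h * I) - ∑ m ∈ Icc 1 (N / d), (m:ℂ) ^ (-(σ + h * I : ℂ))‖
        ≤ 1 * (1 / d) * (C * (1 / h + h / ((N / d : ℕ) : ℝ))) := by gcongr
      _ = C * (1 / (d:ℝ) * (1 / h + h / ((N / d : ℕ) : ℝ))) := by ring
      _ ≤ C * (3 / h) := by gcongr
      _ = _ := by ring
  calc _ ≤ ∑ d ∈ (W z).divisors, 3 * C / h := sum_le_sum h2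
    _ = _ := by rw [sum_const, nsmul_eq_mul]; ring

/-! ### coefficients of powers -/

/-- supported on integers between `1` and `M` -/
def Sp (M : ℝ) (f : PC) : Prop := ∀ n ∈ f.coeff.support, n ≠ 0 ∧ (n:ℝ) ≤ M

lemma Sp_mul {M M' : ℝ} {f g : PC} (hM : 0 ≤ M) (hf : Sp M f) (hg : Sp M' g) : Sp (M * M') (f * g) := by
  classical
  intro n hn
  have h1 := support_coeff_mul_subset f g hn
  rw [Finset.mem_mul] at h1
  obtain ⟨a, ha, b, hb, rfl⟩ := h1
  refine ⟨Nat.mul_ne_zero (hf a ha).1 (hg b hb).1, ?_⟩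
  push_cast
  exact mul_le_mul (hf a ha).2 (hg b hb).2 (Nat.cast_nonneg _) hM

lemma Sp_one : Sp 1 (1 : PC) := by
  intro n hn
  rw [MonoidAlgebra.one_def, coeff_single] at hn
  have := Finsupp.support_single_subset hn
  rw [mem_singleton] at this
  rw [this]
  simp

lemma Sp_pow {M : ℝ} {f : PC} (hM : 0 ≤ M) (hf : Sp M f) (k : ℕ) : Sp (M ^ k) (f ^ k) := by
  induction k with
  | zero => simpa using Sp_one
  | succ k ih =>
    rw [pow_succ, pow_succ]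
    exact Sp_mul (by positivity) ih hf

/-- multiplication with a polynomial with coefficients at most `1` -/
lemma cf_mul {K ε : ℝ} (hd : ∀ n : ℕ, n ≠ 0 → (n.divisors.card : ℝ) ≤ K * (n : ℝ) ^ ε)
    {f g : PC} {B e : ℝ} (hB : 0 ≤ B) (he : 0 ≤ e) (hf : ∀ n : ℕ, n ≠ 0 → ‖f.coeff n‖ ≤ B * (n:ℝ) ^ e)
    (hg : ∀ n : ℕ, ‖g.coeff n‖ ≤ 1) : ∀ n : ℕ, n ≠ 0 → ‖(f * g).coeff n‖ ≤ (B * K) * (n:ℝ) ^ (e + ε) := by
  intro n hn
  have hn1 : (1:ℝ) ≤ n := by exact_mod_cast Nat.one_le_iff_ne_zero.2 hn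
  rw [coeff_mul_antidiag f g n n.divisorsAntidiagonal (by
    intro p
    rw [Nat.mem_divisorsAntidiagonal]
    exact ⟨fun h => h.1, fun h => ⟨h, hn⟩⟩)]
  refine (norm_sum_le _ _).trans ?_
  have h1 : ∀ p ∈ n.divisorsAntidiagonal, ‖f.coeff p.1 * g.coeff p.2‖ ≤ B * (n:ℝ) ^ e := by
    intro p hp
    rw [Nat.mem_divisorsAntidiagonal] at hp
    have hp1 : p.1 ≠ 0 := by
      intro h
      rw [h, zero_mul] at hp
      exact hp.2 hp.1.symm
    have hp2 : p.1 ≤ n := Nat.le_of_dvd (Nat.pos_of_ne_zero hn) ⟨p.2, hp.1.symm⟩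
    rw [norm_mul]
    calc ‖f.coeff p.1‖ * ‖g.coeff p.2‖ ≤ (B * (p.1:ℝ) ^ e) * 1 := by
          apply mul_le_mul (hf _ hp1) (hg _) (norm_nonneg _) (by positivity)
      _ ≤ _ := by
          rw [mul_one]
          gcongr
  calc _ ≤ ∑ p ∈ n.divisorsAntidiagonal, B * (n:ℝ) ^ e := sum_le_sum h1
    _ = (n.divisors.card : ℝ) * (B * (n:ℝ) ^ e) := by
        rw [sum_const, nsmul_eq_mul, ← Nat.map_div_right_divisors, card_map]
    _ ≤ (K * (n : ℝ) ^ ε) * (B * (n:ℝ) ^ e) := by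
        gcongr
        exact hd n hn
    _ = _ := by rw [Real.rpow_add (by linarith)]; ring

lemma cf_pow {K ε : ℝ} (hK : 0 ≤ K) (hε : 0 ≤ ε) (hd : ∀ n : ℕ, n ≠ 0 → (n.divisors.card : ℝ) ≤ K * (n : ℝ) ^ ε)
    {g : PC} (hg : ∀ n : ℕ, ‖g.coeff n‖ ≤ 1) (k : ℕ) : ∀ n : ℕ, n ≠ 0 → ‖(g ^ k).coeff n‖ ≤
      K ^ k * (n:ℝ) ^ (k * ε) := by
  induction k with
  | zero =>
    intro n hn
    rw [pow_zero, pow_zero, MonoidAlgebra.one_def, coeff_single, Finsupp.single_apply]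
    split_ifs <;> simp
  | succ k ih =>
    intro n hn
    have := cf_mul hd (by positivity) (by positivity) ih hg n hn
    rw [pow_succ g, pow_succ K]
    refine this.trans (le_of_eq ?_)
    congr 2
    push_cast
    ring

/-! ### the mean values -/

lemma wd_le {δ : ℝ} (hδ : 1 / 2 ≤ δ) {n : ℕ} (hn : n ≠ 0) : wd δ n ≤ 1 / (n:ℝ) ^ 2 := by
  have hn1 : (1:ℝ) ≤ n := by exact_mod_cast Nat.one_le_iff_ne_zero.2 hn
  have hn0 : (0:ℝ) < n := by linarith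
  unfold wd
  have h1 : (n:ℝ) ^ (-(2 * δ)) ≤ 1 / (n:ℝ) := by
    rw [one_div, ← Real.rpow_neg_one]
    exact Real.rpow_le_rpow_of_exponent_le hn1 (by linarith)
  calc (n:ℝ) ^ (-(2 * δ)) * (1 / (n:ℝ)) ≤ 1 / (n:ℝ) * (1 / (n:ℝ)) := by gcongr
    _ = _ := by rw [sq]; field_simp

lemma PZ_le (z N n : ℕ) : ‖(PZ z N).coeff n‖ ≤ 1 := by
  rw [PZ_coeff]
  split_ifs <;> simp

lemma PZ_Sp (z N : ℕ) : Sp N (PZ z N) := by
  intro n hn
  rw [Finsupp.mem_support_iff, PZ_coeff] at hn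
  have h : (1 ≤ n ∧ n ≤ N) ∧ Rough z n := by
    by_contra h
    rw [if_neg h] at hn
    exact hn rfl
  exact ⟨by omega, by exact_mod_cast h.1.2⟩

lemma Rough_ge {z n : ℕ} (h0 : n ≠ 0) (h1 : n ≠ 1) (h : Rough z n) : z ≤ n := by
  by_contra hz
  push Not at hz
  have hp := Nat.minFac_prime h1
  have h2 : n.minFac ≤ n := Nat.minFac_le (Nat.pos_of_ne_zero h0)
  refine h n.minFac ?_ (Nat.minFac_dvd n)
  unfold Sm
  rw [mem_filter, mem_range]
  exact ⟨by omega, hp⟩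

lemma Rough_one (z : ℕ) : Rough z 1 := by
  intro p hp h
  exact (Sm_prime hp).one_lt.ne' (Nat.dvd_one.1 h)

/-- the polynomial without its constant term -/
lemma D_coeff {z N : ℕ} (hN : 1 ≤ N) (n : ℕ) :
    (PZ z N - 1).coeff n = if (n ≠ 1 ∧ 1 ≤ n ∧ n ≤ N) ∧ Rough z n then 1 else 0 := by
  rw [MonoidAlgebra.coeff_sub, Finsupp.sub_apply, PZ_coeff, MonoidAlgebra.one_def, coeff_single,
    Finsupp.single_apply]
  by_cases h1 : n = 1
  · subst h1
    have := Rough_one z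
    simp [hN, this]
  · rw [if_neg (Ne.symm h1), sub_zero]
    by_cases h2 : (1 ≤ n ∧ n ≤ N) ∧ Rough z n
    · rw [if_pos h2, if_pos ⟨⟨h1, h2.1⟩, h2.2⟩]
    · rw [if_neg h2, if_neg]
      rintro ⟨⟨_, h3⟩, h4⟩
      exact h2 ⟨h3, h4⟩

lemma D_nn {z N : ℕ} (hz : 2 ≤ z) (hN : 1 ≤ N) {δ : ℝ} (hδ : 1 / 2 ≤ δ) : nn δ (PZ z N - 1) ≤ 2 / z := by
  have hsub : (PZ z N - 1).coeff.support ⊆ Ioo (z - 1) (N + 1) := by
    intro n hn
    rw [Finsupp.mem_support_iff, D_coeff hN] at hn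
    have h : (n ≠ 1 ∧ 1 ≤ n ∧ n ≤ N) ∧ Rough z n := by
      by_contra h
      rw [if_neg h] at hn
      exact hn rfl
    have := Rough_ge (by omega) h.1.1 h.2
    rw [mem_Ioo]
    omega
  rw [NN.nn_eq δ _ hsub]
  calc ∑ n ∈ Ioo (z - 1) (N + 1), ‖(PZ z N - 1).coeff n‖ ^ 2 * wd δ n
      ≤ ∑ n ∈ Ioo (z - 1) (N + 1), ((n:ℝ) ^ 2)⁻¹ := by
        refine sum_le_sum fun n hn => ?_
        rw [mem_Ioo] at hn
        have h1 : ‖(PZ z N - 1).coeff n‖ ≤ 1 := by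
          rw [D_coeff hN]
          split_ifs <;> simp
        have h2 : ‖(PZ z N - 1).coeff n‖ ^ 2 ≤ 1 := pow_le_one₀ (norm_nonneg _) h1
        have h3 := wd_le hδ (n := n) (by omega)
        have h4 := NN.wd_nonneg δ n
        rw [← one_div]
        nlinarith
    _ ≤ 2 / (((z - 1 : ℕ) : ℝ) + 1) := sum_Ioo_inv_sq_le (α := ℝ) (z - 1) (N + 1)
    _ = 2 / z := by
        rw [Nat.cast_sub (by omega)]
        push_cast
        congr 1
        ring

/-- the constant -/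
noncomputable def ZC : ℝ := ∑' n : ℕ, 1 / (n:ℝ) ^ (3 / 2 : ℝ)

lemma ZC_nonneg : 0 ≤ ZC := tsum_nonneg fun n => by positivity

lemma P_nn {f : PC} {A : ℝ} (h0 : f.coeff 0 = 0)
    (hf : ∀ n : ℕ, n ≠ 0 → ‖f.coeff n‖ ≤ A * (n:ℝ) ^ ((1:ℝ) / 100)) {δ : ℝ} (hδ : 1 / 2 ≤ δ) :
    nn δ f ≤ A ^ 2 * ZC := by
  have hs : Summable fun n : ℕ => 1 / (n:ℝ) ^ (3 / 2 : ℝ) :=
    Real.summable_one_div_nat_rpow.2 (by norm_num)
  unfold nn
  calc ∑ n ∈ f.coeff.support, ‖f.coeff n‖ ^ 2 * wd δ n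
      ≤ ∑ n ∈ f.coeff.support, A ^ 2 * (1 / (n:ℝ) ^ (3 / 2 : ℝ)) := by
        refine sum_le_sum fun n hn => ?_
        have hn0 : n ≠ 0 := by
          intro h
          rw [Finsupp.mem_support_iff, h] at hn
          exact hn h0
        have hn1 : (1:ℝ) ≤ n := by exact_mod_cast Nat.one_le_iff_ne_zero.2 hn0
        have hn2 : (0:ℝ) < n := by linarith
        have h1 : ‖f.coeff n‖ ^ 2 ≤ (A * (n:ℝ) ^ ((1:ℝ) / 100)) ^ 2 := by
          have := hf n hn0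
          gcongr
        have h2 := wd_le hδ hn0
        calc ‖f.coeff n‖ ^ 2 * wd δ n ≤ (A * (n:ℝ) ^ ((1:ℝ) / 100)) ^ 2 * (1 / (n:ℝ) ^ 2) := by
              apply mul_le_mul h1 h2 (NN.wd_nonneg δ n) (by positivity)
          _ = A ^ 2 * ((n:ℝ) ^ ((1:ℝ) / 50) * (1 / (n:ℝ) ^ 2)) := by
              rw [mul_pow, ← Real.rpow_natCast ((n:ℝ) ^ ((1:ℝ) / 100)), ← Real.rpow_mul hn2.le]
              norm_num
              ring
          _ ≤ A ^ 2 * (1 / (n:ℝ) ^ (3 / 2 : ℝ)) := by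
              gcongr
              have e1 : 1 / (n:ℝ) ^ 2 = (n:ℝ) ^ (-2 : ℝ) := by
                rw [Real.rpow_neg hn2.le, ← one_div]
                norm_num
              have e2 : 1 / (n:ℝ) ^ (3 / 2 : ℝ) = (n:ℝ) ^ (-(3 / 2) : ℝ) := by
                rw [Real.rpow_neg hn2.le]
                exact one_div _
              rw [e1, e2, ← Real.rpow_add hn2]
              apply Real.rpow_le_rpow_of_exponent_le hn1
              norm_num
    _ = A ^ 2 * ∑ n ∈ f.coeff.support, (1 / (n:ℝ) ^ (3 / 2 : ℝ)) := by rw [mul_sum]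
    _ ≤ A ^ 2 * ZC := by
        gcongr
        exact hs.sum_le_tsum _ (fun n _ => by positivity)

lemma ec_cont {D : PC} (hD : ∀ n ∈ D.coeff.support, n ≠ 0) (s : ℂ) :
    Continuous fun u : ℝ => ec (s + u * I) D := by
  simp only [MV.ec_apply]
  refine continuous_finsetSum _ fun n hn => ?_
  have hn0 : (n:ℂ) ≠ 0 := by exact_mod_cast hD n hn
  exact continuous_const.mul (Continuous.const_cpow (by fun_prop) (Or.inl hn0))

/-! ### elementary inequalities -/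

lemma elem {x q : ℝ} (hx : 0 ≤ x) (hq0 : 0 ≤ q) (hq8 : q ≤ 8) :
    max (x ^ q - 1) 0 ≤ 8 * (|x - 1| * x ^ 7) := by
  rcases le_total x 1 with h | h
  · have h1 : x ^ q ≤ 1 := Real.rpow_le_one hx h hq0
    rw [max_eq_right (by linarith)]
    positivity
  · have h1 : x ^ q ≤ x ^ (8:ℕ) := by
      rw [← Real.rpow_natCast]
      exact Real.rpow_le_rpow_of_exponent_le h (by exact_mod_cast hq8)
    rw [abs_of_nonneg (by linarith)]
    apply max_le
    · have e : x ^ 8 - 1 = (x - 1) * (x ^ 7 + x ^ 6 + x ^ 5 + x ^ 4 + x ^ 3 + x ^ 2 + x + 1) := by ring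
      have p6 : x ^ 6 ≤ x ^ 7 := pow_le_pow_right₀ h (by norm_num)
      have p5 : x ^ 5 ≤ x ^ 7 := pow_le_pow_right₀ h (by norm_num)
      have p4 : x ^ 4 ≤ x ^ 7 := pow_le_pow_right₀ h (by norm_num)
      have p3 : x ^ 3 ≤ x ^ 7 := pow_le_pow_right₀ h (by norm_num)
      have p2 : x ^ 2 ≤ x ^ 7 := pow_le_pow_right₀ h (by norm_num)
      have p1 : x ≤ x ^ 7 := by
        calc x = x ^ 1 := (pow_one x).symm
          _ ≤ _ := pow_le_pow_right₀ h (by norm_num)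
      have p0 : 1 ≤ x ^ 7 := one_le_pow₀ h
      have hx1 : 0 ≤ x - 1 := by linarith
      have : x ^ 7 + x ^ 6 + x ^ 5 + x ^ 4 + x ^ 3 + x ^ 2 + x + 1 ≤ 8 * x ^ 7 := by linarith
      nlinarith [mul_le_mul_of_nonneg_left this hx1]
    · have hx1 : 0 ≤ x - 1 := by linarith
      positivity

lemma ptw {x y E D l q : ℝ} (hx : 0 ≤ x) (hy : 0 ≤ y) (hE : 0 ≤ E) (hxy : |y - x| ≤ E) (hD : |x - 1| ≤ D)
    (hl : 0 < l) (hq0 : 0 ≤ q) (hq8 : q ≤ 8) :
    max (y ^ q - 1) 0 ≤ 8 * l * D ^ 2 + 8 * l * E ^ 2 + 2 ^ 15 / l * x ^ 14 + 2 ^ 15 / l * E ^ 14 := by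
  refine (elem hy hq0 hq8).trans ?_
  have h1 : |y - 1| ≤ D + E := by
    calc |y - 1| = |(y - x) + (x - 1)| := by ring_nf
      _ ≤ |y - x| + |x - 1| := abs_add_le _ _
      _ ≤ D + E := by linarith
  have h2 : |y - 1| ^ 2 ≤ 2 * D ^ 2 + 2 * E ^ 2 := by
    have h3 : |y - 1| ^ 2 ≤ (D + E) ^ 2 := by
      have := abs_nonneg (y - 1)
      gcongr
    nlinarith [sq_nonneg (D - E)]
  have h4 : y ≤ x + E := by
    have := (abs_le.1 hxy).2
    linarith
  have h5 : y ^ 14 ≤ 2 ^ 13 * (x ^ 14 + E ^ 14) := by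
    calc y ^ 14 ≤ (x + E) ^ 14 := by gcongr
      _ ≤ 2 ^ (14 - 1) * (x ^ 14 + E ^ 14) := add_pow_le hx hE 14
      _ = _ := by norm_num
  have h6 : 8 * (|y - 1| * y ^ 7) ≤ 4 * l * |y - 1| ^ 2 + 4 / l * y ^ 14 := by
    have : 0 ≤ 4 * l * (|y - 1| - y ^ 7 / l) ^ 2 := by positivity
    have e : 4 * l * (|y - 1| - y ^ 7 / l) ^ 2 = 4 * l * |y - 1| ^ 2 + 4 / l * y ^ 14 - 8 * (|y - 1| * y ^ 7) := by
      field_simp
      ring
    linarith
  calc 8 * (|y - 1| * y ^ 7) ≤ 4 * l * |y - 1| ^ 2 + 4 / l * y ^ 14 := h6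
    _ ≤ 4 * l * (2 * D ^ 2 + 2 * E ^ 2) + 4 / l * (2 ^ 13 * (x ^ 14 + E ^ 14)) := by gcongr
    _ = _ := by ring

/-- **GC2/ZML.** -/
theorem main (h1 : S_ZPA) (h2 : S_MVW) : S_ZML := by
  obtain ⟨C1, hC1, H1⟩ := h1
  obtain ⟨C2, hC2, H2⟩ := h2
  obtain ⟨K, hK, hKd⟩ := H353.divisor_bound_real (1 / 700) (by norm_num)
  set A := K ^ 7 with hA
  have hA0 : 0 ≤ A := by positivity
  set B := A ^ 2 * ZC + C2 * A ^ 2 with hB
  have hZC := ZC_nonneg
  have hB0 : 0 ≤ B := by positivity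
  refine ⟨24 + 1 + 2 ^ 15 * (B + 1), by positivity, fun z hz => ?_⟩
  set c := 3 * C1 * (W z).divisors.card with hc
  have hc0 : 0 ≤ c := by positivity
  have hz0 : (0:ℝ) < z := by
    have : 0 < z := by omega
    exact_mod_cast this
  refine ⟨2 + (W z : ℝ) + (C2 * z) ^ 2 + 8 * z * c ^ 2 + c ^ 14, ?_, ?_⟩
  · have : 0 ≤ (W z : ℝ) + (C2 * z) ^ 2 + 8 * z * c ^ 2 + c ^ 14 := by positivity
    linarith
  intro H hH δ hδ hδ2 q hq0 hq8
  have hW0 : 0 ≤ (W z : ℝ) := Nat.cast_nonneg _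
  have t1 : 0 ≤ (C2 * z) ^ 2 := by positivity
  have t2 : 0 ≤ 8 * z * c ^ 2 := by positivity
  have t3 : 0 ≤ c ^ 14 := by positivity
  have hH2 : 2 ≤ H := by linarith
  have hH0 : 0 < H := by linarith
  have hHW : (W z : ℝ) ≤ H := by linarith
  have hHC : (C2 * z) ^ 2 ≤ H := by linarith
  have hHc : 8 * z * c ^ 2 ≤ H := by linarith
  have hHc14 : c ^ 14 ≤ H := by linarith
  set N := ⌈H ^ 2⌉₊ with hN
  have hNH : H ^ 2 ≤ N := Nat.le_ceil _
  have hNH2 : (N:ℝ) ≤ H ^ 3 := by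
    have h3 := (Nat.ceil_lt_add_one (show (0 : ℝ) ≤ H ^ 2 by positivity)).le
    nlinarith [mul_le_mul_of_nonneg_right hH2 (sq_nonneg H)]
  have hNW : W z ≤ N := by
    have : (W z : ℝ) ≤ N := by nlinarith
    exact_mod_cast this
  have hN1 : 1 ≤ N := (Nat.pos_of_ne_zero (W_ne z)).trans_le hNW
  have hN1r : (1:ℝ) ≤ N := by exact_mod_cast hN1
  set σ : ℝ := 1 + 2 * δ with hσ
  have hσ1 : 1 ≤ σ := by rw [hσ]; linarith
  have hσ2 : σ ≤ 2 := by rw [hσ]; linarith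
  have hδ' : (1:ℝ) / 2 ≤ 1 / 2 + 2 * δ := by linarith
  set L := (z:ℝ) ^ (1 / 2 : ℝ) with hL
  have hL0 : 0 < L := Real.rpow_pos_of_pos hz0 _
  have hL2 : L * L = z := by
    rw [hL, ← Real.rpow_add hz0]; norm_num
  have hLinv : (z:ℝ) ^ (-(1 / 2 : ℝ)) = 1 / L := by
    rw [Real.rpow_neg hz0.le]
    exact (one_div _).symm
  -- mean square of `P - 1`
  set x : ℝ → ℝ := fun h => ‖ec (σ + h * I) (PZ z N)‖ with hx
  set D : ℝ → ℝ := fun h => ‖ec (σ + h * I) (PZ z N - 1)‖ with hD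
  have hcast : ∀ h : ℝ, (1 / 2 + ((1 / 2 + 2 * δ : ℝ) : ℂ) + h * I : ℂ) = σ + h * I := by
    intro h
    rw [hσ]
    push_cast
    ring
  have hxc : Continuous x := (ec_cont (fun n hn => (PZ_Sp z N n hn).1) (σ:ℂ)).norm
  have hDs : ∀ n ∈ (PZ z N - 1).coeff.support, n ≠ 0 ∧ (n:ℝ) ≤ N := by
    intro n hn
    rw [Finsupp.mem_support_iff, D_coeff hN1] at hn
    have h : (n ≠ 1 ∧ 1 ≤ n ∧ n ≤ N) ∧ Rough z n := by
      by_contra h
      rw [if_neg h] at hn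
      exact hn rfl
    exact ⟨by omega, by exact_mod_cast h.1.2.2⟩
  have hDc : Continuous D := (ec_cont (fun n hn => (hDs n hn).1) (σ:ℂ)).norm
  have hD1 : ∀ h, |x h - 1| ≤ D h := by
    intro h
    have e : ec (σ + h * I) (PZ z N - 1) = ec (σ + h * I) (PZ z N) - 1 := by
      rw [map_sub, map_one]
    simp only [hx, hD, e]
    have := abs_norm_sub_norm_le (ec (σ + h * I) (PZ z N)) 1
    rwa [norm_one] at this
  have hMS1 : ∫ h in (0:ℝ)..H, D h ^ 2 ≤ 3 * H / z := by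
    have h3 := H2 1 N H (1 / 2 + 2 * δ) (PZ z N - 1) zero_le_one hN1r hH0.le hδ' hDs (by
      intro n
      rcases Nat.eq_zero_or_pos n with h0 | h0
      · rw [h0, D_coeff hN1, if_neg (by omega)]
        simp
      · have : (1:ℝ) ≤ (n:ℝ) ^ ((1:ℝ) / 100) :=
          Real.one_le_rpow (by exact_mod_cast h0) (by norm_num)
        rw [one_mul]
        refine le_trans ?_ this
        rw [D_coeff hN1]
        split_ifs <;> simp)
    simp only [hcast] at h3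
    have h4 := D_nn hz hN1 hδ'
    have h5 : C2 * 1 ^ 2 * (N:ℝ) ^ ((1:ℝ) / 25) ≤ H / z := by
      have h6 : (N:ℝ) ^ ((1:ℝ) / 25) ≤ H ^ ((1:ℝ) / 2) := by
        calc (N:ℝ) ^ ((1:ℝ) / 25) ≤ (H ^ 3) ^ ((1:ℝ) / 25) := by gcongr
          _ = H ^ ((3:ℝ) / 25) := by
              rw [← Real.rpow_natCast H 3, ← Real.rpow_mul hH0.le]; norm_num
          _ ≤ _ := Real.rpow_le_rpow_of_exponent_le (by linarith) (by norm_num)
      have h7 : C2 * z ≤ H ^ ((1:ℝ) / 2) := by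
        rw [← Real.sqrt_eq_rpow]
        exact Real.le_sqrt_of_sq_le hHC
      have h8 : H ^ ((1:ℝ) / 2) * H ^ ((1:ℝ) / 2) = H := by
        rw [← Real.rpow_add hH0]; norm_num
      rw [le_div_iff₀ hz0]
      have h9 : 0 < H ^ ((1:ℝ) / 2) := Real.rpow_pos_of_pos hH0 _
      calc C2 * 1 ^ 2 * (N:ℝ) ^ ((1:ℝ) / 25) * z = (C2 * z) * (N:ℝ) ^ ((1:ℝ) / 25) := by ring
        _ ≤ H ^ ((1:ℝ) / 2) * H ^ ((1:ℝ) / 2) := by gcongr
        _ = H := h8
    calc ∫ h in (0:ℝ)..H, D h ^ 2 ≤ H * nn (1 / 2 + 2 * δ) (PZ z N - 1) + C2 * 1 ^ 2 * (N:ℝ) ^ ((1:ℝ) / 25) := h3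
      _ ≤ H * (2 / z) + H / z := by gcongr
      _ = _ := by ring
  have hMS2 : ∫ h in (0:ℝ)..H, x h ^ 14 ≤ B * H := by
    have hSp7 := Sp_pow (Nat.cast_nonneg N) (PZ_Sp z N) 7
    have h00 : ((PZ z N) ^ 7).coeff 0 = 0 := by
      by_contra h
      exact (hSp7 0 (Finsupp.mem_support_iff.2 h)).1 rfl
    have hcf : ∀ n : ℕ, n ≠ 0 → ‖((PZ z N) ^ 7).coeff n‖ ≤ A * (n:ℝ) ^ ((1:ℝ) / 100) := by
      intro n hn
      have := cf_pow hK.le (by norm_num) hKd (PZ_le z N) 7 n hn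
      refine this.trans (le_of_eq ?_)
      rw [hA]
      norm_num
    have h3 := H2 A ((N:ℝ) ^ 7) H (1 / 2 + 2 * δ) ((PZ z N) ^ 7) hA0 (one_le_pow₀ hN1r) hH0.le hδ' hSp7 (by
      intro n
      rcases eq_or_ne n 0 with h0 | h0
      · rw [h0, h00, norm_zero]; positivity
      · exact hcf n h0)
    simp only [hcast] at h3
    have h4 := P_nn h00 hcf hδ'
    have h5 : ((N:ℝ) ^ 7) ^ ((1:ℝ) / 25) ≤ H := by
      calc ((N:ℝ) ^ 7) ^ ((1:ℝ) / 25) ≤ ((H ^ 3) ^ 7) ^ ((1:ℝ) / 25) := by gcongr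
        _ = H ^ ((21:ℝ) / 25) := by
            rw [← pow_mul, ← Real.rpow_natCast H, ← Real.rpow_mul hH0.le]; norm_num
        _ ≤ H ^ (1:ℝ) := Real.rpow_le_rpow_of_exponent_le (by linarith) (by norm_num)
        _ = H := Real.rpow_one H
    have h6 : ∀ h : ℝ, ‖ec (σ + h * I) ((PZ z N) ^ 7)‖ ^ 2 = x h ^ 14 := by
      intro h
      simp only [hx]
      rw [map_pow, norm_pow, ← pow_mul]
    simp only [h6] at h3
    calc ∫ h in (0:ℝ)..H, x h ^ 14 ≤ H * nn (1 / 2 + 2 * δ) ((PZ z N) ^ 7) +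
          C2 * A ^ 2 * ((N:ℝ) ^ 7) ^ ((1:ℝ) / 25) := h3
      _ ≤ H * (A ^ 2 * ZC) + C2 * A ^ 2 * H := by gcongr
      _ = _ := by rw [hB]; ring
  -- the pointwise bound
  set y : ℝ → ℝ := fun h => ‖riemannZeta (1 + 2 * δ + h * I) *
    ∏ p ∈ Sm z, (1 - (p:ℂ) ^ (-(1 + 2 * δ + h * I : ℂ)))‖ with hy
  have hcast2 : ∀ h : ℝ, (1 + 2 * δ + h * I : ℂ) = σ + h * I := by
    intro h
    rw [hσ]
    push_cast
    ring
  have hxy : ∀ h : ℝ, 1 ≤ h → h ≤ H → |y h - x h| ≤ c / h := by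
    intro h hh1 hhH
    simp only [hy, hx, hcast2]
    refine (abs_norm_sub_norm_le _ _).trans ?_
    refine trunc hC1 H1 hσ1 hσ2 hh1 hNW ?_
    nlinarith
  have hyc : Continuous y := by
    have e1 : Continuous fun h : ℝ => riemannZeta (1 + 2 * δ + h * I) := by
      rw [continuous_iff_continuousAt]
      intro h
      have hne : (1 + 2 * δ + h * I : ℂ) ≠ 1 := by
        intro he
        have := congrArg Complex.re he
        simp at this
        linarith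
      exact ContinuousAt.comp (f := fun h : ℝ => (1 + 2 * δ + h * I : ℂ))
        (differentiableAt_riemannZeta hne).continuousAt (by fun_prop)
    have e2 : Continuous fun h : ℝ => ∏ p ∈ Sm z, (1 - (p:ℂ) ^ (-(1 + 2 * δ + h * I : ℂ))) := by
      refine continuous_finsetProd _ fun p hp => ?_
      have hp0 : (p:ℂ) ≠ 0 := by exact_mod_cast (Sm_prime hp).ne_zero
      exact continuous_const.sub (Continuous.const_cpow (by fun_prop) (Or.inl hp0))
    exact (e1.mul e2).norm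
  have hH1 : (1:ℝ) ≤ H := by linarith
  have hinv : ∫ h in (1:ℝ)..H, (h ^ 2)⁻¹ ≤ 1 := by
    have h0 : (0:ℝ) ∉ Set.uIcc 1 H := by
      rw [Set.uIcc_of_le hH1]
      intro h
      linarith [h.1]
    have e : ∫ h in (1:ℝ)..H, h ^ (-2 : ℤ) = (H ^ ((-2 : ℤ) + 1) - 1 ^ ((-2 : ℤ) + 1)) / (((-2 : ℤ) : ℝ) + 1) :=
      integral_zpow (Or.inr ⟨by norm_num, h0⟩)
    have e2 : ∫ h in (1:ℝ)..H, (h ^ 2)⁻¹ = ∫ h in (1:ℝ)..H, h ^ (-2 : ℤ) := by
      refine intervalIntegral.integral_congr fun h _ => ?_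
      simp only [zpow_neg]
      norm_cast
    have e3 : H ^ ((-2 : ℤ) + 1) = H⁻¹ := by
      rw [show ((-2 : ℤ) + 1) = -1 by norm_num, zpow_neg_one]
    have e4 : (((-2 : ℤ) : ℝ) + 1) = -1 := by norm_num
    rw [e2, e, e3, e4, one_zpow]
    have : (0:ℝ) ≤ H⁻¹ := by positivity
    linarith
  have hinvc : ContinuousOn (fun h : ℝ => (h ^ 2)⁻¹) (Set.uIcc 1 H) := by
    rw [Set.uIcc_of_le hH1]
    apply ContinuousOn.inv₀ (by fun_prop)
    intro h hh
    have : 0 < h := by linarith [hh.1]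
    positivity
  have hmono : ∫ h in (1:ℝ)..H, max (y h ^ q - 1) 0 ≤ ∫ h in (1:ℝ)..H,
      (8 * L * D h ^ 2 + 2 ^ 15 / L * x h ^ 14 + (8 * L * c ^ 2 + 2 ^ 15 / L * c ^ 14) * (h ^ 2)⁻¹) := by
    apply intervalIntegral.integral_mono_on hH1
    · apply Continuous.intervalIntegrable
      have : Continuous fun h => y h ^ q := hyc.rpow_const fun h => Or.inr hq0
      exact (this.sub continuous_const).max continuous_const
    · apply IntervalIntegrable.add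
      · apply Continuous.intervalIntegrable
        fun_prop
      · exact (hinvc.intervalIntegrable).const_mul _
    · intro h hh
      have hh0 : 0 < h := by linarith [hh.1]
      have g1 := ptw (norm_nonneg _ : 0 ≤ x h) (norm_nonneg _ : 0 ≤ y h) (by positivity : 0 ≤ c / h)
        (hxy h hh.1 hh.2) (hD1 h) hL0 hq0 hq8
      refine g1.trans ?_
      have g2 : (c / h) ^ 2 = c ^ 2 * (h ^ 2)⁻¹ := by rw [div_pow, div_eq_mul_inv]
      have g3 : (c / h) ^ 14 ≤ c ^ 14 * (h ^ 2)⁻¹ := by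
        rw [div_pow, div_eq_mul_inv]
        have : h ^ 2 ≤ h ^ 14 := pow_le_pow_right₀ hh.1 (by norm_num)
        gcongr
      rw [g2]
      have g4 : 2 ^ 15 / L * (c / h) ^ 14 ≤ 2 ^ 15 / L * (c ^ 14 * (h ^ 2)⁻¹) := by gcongr
      linarith
  refine hmono.trans ?_
  have iD : IntervalIntegrable (fun h => 8 * L * D h ^ 2) volume 1 H := by
    apply Continuous.intervalIntegrable
    fun_prop
  have ix : IntervalIntegrable (fun h => 2 ^ 15 / L * x h ^ 14) volume 1 H := by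
    apply Continuous.intervalIntegrable
    fun_prop
  have ii : IntervalIntegrable (fun h : ℝ => (8 * L * c ^ 2 + 2 ^ 15 / L * c ^ 14) * (h ^ 2)⁻¹) volume 1 H :=
    (hinvc.intervalIntegrable).const_mul _
  rw [intervalIntegral.integral_add (iD.add ix) ii, intervalIntegral.integral_add iD ix,
    intervalIntegral.integral_const_mul, intervalIntegral.integral_const_mul,
    intervalIntegral.integral_const_mul]
  have hsub : ∀ f : ℝ → ℝ, Continuous f → (∀ h, 0 ≤ f h) → ∫ h in (1:ℝ)..H, f h ≤ ∫ h in (0:ℝ)..H, f h := by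
    intro f hf hf0
    rw [← intervalIntegral.integral_add_adjacent_intervals (hf.intervalIntegrable 0 1)
      (hf.intervalIntegrable 1 H)]
    have : 0 ≤ ∫ h in (0:ℝ)..1, f h := intervalIntegral.integral_nonneg zero_le_one fun h _ => hf0 h
    linarith
  have j1 : ∫ h in (1:ℝ)..H, D h ^ 2 ≤ 3 * H / z :=
    (hsub _ (hDc.pow 2) (fun h => sq_nonneg (D h))).trans hMS1
  have j2 : ∫ h in (1:ℝ)..H, x h ^ 14 ≤ B * H :=
    (hsub _ (hxc.pow 14) (fun h => pow_nonneg (norm_nonneg _ : 0 ≤ x h) 14)).trans hMS2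
  rw [hLinv]
  calc 8 * L * (∫ h in (1:ℝ)..H, D h ^ 2) + 2 ^ 15 / L * (∫ h in (1:ℝ)..H, x h ^ 14) +
        (8 * L * c ^ 2 + 2 ^ 15 / L * c ^ 14) * ∫ h in (1:ℝ)..H, (h ^ 2)⁻¹
      ≤ 8 * L * (3 * H / z) + 2 ^ 15 / L * (B * H) + (8 * L * c ^ 2 + 2 ^ 15 / L * c ^ 14) * 1 := by
        gcongr
    _ = 1 / L * (24 * H + 2 ^ 15 * (B * H) + (8 * (L * L) * c ^ 2 + 2 ^ 15 * c ^ 14)) := by
        rw [← hL2]
        field_simp
        ring
    _ ≤ 1 / L * (24 * H + 2 ^ 15 * (B * H) + (H + 2 ^ 15 * H)) := by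
        rw [hL2]
        gcongr
    _ = _ := by ring

end Pool.Agent.N748.GC.ZML
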