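import Pool.Agent.N748.GC.L2
import Pool.Agent.H307R2.LU

set_option autoImplicit false

/-!
Partial sums of the zeta series near the line `1` (helper498 for the project GC2 of helper748).
-/

namespace Pool.Agent.N748.GC.ZPA

open Finset Filter MeasureTheory Topology Complex
open Pool.Agent.N748.GC

theorem main : S_ZPA := by
  refine ⟨3, by norm_num, fun N σ h hN h1 h2 hh => ?_⟩
  have hs : 0 < (σ + h * I : ℂ).re := by simp; linarith
  have hs1 : (σ + h * I : ℂ) ≠ 1 := by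
    intro h0
    have := congrArg Complex.im h0
    simp at this
    linarith
  have hN0 : (0:ℝ) < N := by exact_mod_cast hN
  have hN1 : (1:ℝ) ≤ N := by exact_mod_cast hN
  rw [Pool.Agent.H307R2.zeta_eq hN hs hs1]
  have e : ∑ n ∈ Icc 1 N, (n : ℂ) ^ (-(σ + h * I : ℂ)) + (N : ℂ) ^ (1 - (σ + h * I : ℂ)) / ((σ + h * I : ℂ) - 1) +
      (σ + h * I : ℂ) * Pool.Agent.H307R2.TM N Pool.Agent.H307R2.Ez (σ + h * I : ℂ) -
      ∑ n ∈ Icc 1 N, (n : ℂ) ^ (-(σ + h * I : ℂ)) =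
      (N : ℂ) ^ (1 - (σ + h * I : ℂ)) / ((σ + h * I : ℂ) - 1) +
      (σ + h * I : ℂ) * Pool.Agent.H307R2.TM N Pool.Agent.H307R2.Ez (σ + h * I : ℂ) := by
    ring
  rw [e]
  have a1 : ‖(N : ℂ) ^ (1 - (σ + h * I : ℂ))‖ ≤ 1 := by
    rw [Complex.norm_natCast_cpow_of_pos (by omega)]
    apply Real.rpow_le_one_of_one_le_of_nonpos hN1
    simp
    exact h1
  have a2 : h ≤ ‖(σ + h * I : ℂ) - 1‖ := by
    have := Complex.abs_im_le_norm ((σ + h * I : ℂ) - 1)
    simp at this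
    exact (le_abs_self h).trans this
  have a3 : ‖(σ + h * I : ℂ)‖ ≤ 3 * h := by
    refine (norm_add_le _ _).trans ?_
    rw [norm_mul, Complex.norm_I, mul_one, Complex.norm_real, Complex.norm_real, Real.norm_eq_abs, Real.norm_eq_abs,
      abs_of_pos (by linarith : (0:ℝ) < σ), abs_of_pos (by linarith : (0:ℝ) < h)]
    linarith
  have a4 : ‖Pool.Agent.H307R2.TM N Pool.Agent.H307R2.Ez (σ + h * I : ℂ)‖ ≤ 1 / (N:ℝ) := by
    refine (Pool.Agent.H307R2.TM_norm_le hN Pool.Agent.H307R2.Ez_norm_le hs).trans ?_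
    have hre : (σ + h * I : ℂ).re = σ := by simp
    rw [hre, one_mul]
    have b1 : (N:ℝ) ^ (-σ) ≤ 1 / (N:ℝ) := by
      rw [one_div, ← Real.rpow_neg_one]
      exact Real.rpow_le_rpow_of_exponent_le hN1 (by linarith)
    have b2 : 0 ≤ (N:ℝ) ^ (-σ) := Real.rpow_nonneg hN0.le _
    exact (div_le_self b2 h1).trans b1
  have hh0 : 0 < h := by linarith
  calc ‖(N : ℂ) ^ (1 - (σ + h * I : ℂ)) / ((σ + h * I : ℂ) - 1) +
      (σ + h * I : ℂ) * Pool.Agent.H307R2.TM N Pool.Agent.H307R2.Ez (σ + h * I : ℂ)‖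
      ≤ ‖(N : ℂ) ^ (1 - (σ + h * I : ℂ))‖ / ‖(σ + h * I : ℂ) - 1‖ +
        ‖(σ + h * I : ℂ)‖ * ‖Pool.Agent.H307R2.TM N Pool.Agent.H307R2.Ez (σ + h * I : ℂ)‖ := by
        refine (norm_add_le _ _).trans ?_
        rw [norm_div, norm_mul]
    _ ≤ 1 / h + (3 * h) * (1 / (N:ℝ)) := by
        gcongr
    _ ≤ 3 * (1 / h + h / N) := by
        have : 0 ≤ 1 / h := by positivity
        have h3 : (3 * h) * (1 / (N:ℝ)) = 3 * (h / N) := by ring
        rw [h3]
        linarith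

end Pool.Agent.N748.GC.ZPA
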