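import Pool.Agent.N748.GC.Fin
import Pool.Agent.N748.GC.Cor4
import Pool.Agent.N748.GC.ONE2
import Pool.Agent.N748.GC.BADA2
import Pool.Agent.N748.GC.BADB2
import Pool.Agent.N748.GC.NEAR2
import Pool.Agent.N748.GC.FAR
import Pool.Agent.N748.GC.ZPA
import Pool.Agent.N748.GC.MVW
import Pool.Agent.N748.GC.ZML
import Pool.Agent.N748.GC.KAP
import Pool.Agent.N748.GC.MOM2
import Pool.Agent.N748.GC.CUT2
import Pool.Agent.N748.GC.ASM2
import Pool.Agent.N748.GC.WIN2
import Pool.Agent.N748.GC.NNL2
import Pool.Agent.N748.GC.NNQ2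

set_option autoImplicit false

/-! Windows of length `δ^(-θ)`: the parts together. -/

namespace Pool.Agent.N748.GC

theorem core2F : S_CORE2 :=
  core2 (ONE2.main NNB.main NNL2.main LEN.main) (BADA2.main NNQ2.main LEN.main)
    (BADB2.main NNB.main LEN.main COS.mer) (NEAR2.main NNB.main LEN.main COS.mer COS.cos (TAIL.main COS.mer))
    (FAR.main NNB.main LEN.main) (KAP.main (ZML.main ZPA.main MVW.main) COS.mer) (CUT2.main (MOM2.main COS.mer)) ASM2.main

theorem win2F : S_WIN2 := WIN2.main core2F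

end Pool.Agent.N748.GC
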