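import Mathlib

set_option autoImplicit false

/-!
# Local moments near the critical line and multiplicative chaos: definitions (over Mathlib only)

`α` is half of the exponent `β`.
-/

namespace Pool.Agent.N748.GC

open Finset Filter MeasureTheory MonoidAlgebra Topology Complex

/-! ### complex Dirichlet polynomials -/

/-- complex Dirichlet polynomials -/
abbrev PC := MonoidAlgebra ℂ ℕ

/-- the weight `n^(-1-2δ)` -/
noncomputable def wd (δ : ℝ) (n : ℕ) : ℝ := (n:ℝ) ^ (-(2 * δ)) * (1 / (n:ℝ))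

/-- the weighted norm square -/
noncomputable def nn (δ : ℝ) (f : PC) : ℝ := ∑ n ∈ f.coeff.support, ‖f.coeff n‖ ^ 2 * wd δ n

/-- the sum of the absolute values of the coefficients -/
noncomputable def lc1 (f : PC) : ℝ := ∑ n ∈ f.coeff.support, ‖f.coeff n‖

/-- the monomials -/
noncomputable def hsc (s : ℂ) : ℕ →* ℂ where
  toFun n := (n:ℂ) ^ (-s)
  map_one' := by simp
  map_mul' m n := by
    rw [Nat.cast_mul, Complex.natCast_mul_natCast_cpow]

/-- the value at `s` -/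
noncomputable def ec (s : ℂ) : PC →ₐ[ℂ] ℂ := MonoidAlgebra.lift ℂ ℂ ℕ (hsc s)

/-- the monomials of the shift by `h` -/
noncomputable def hsf (h : ℝ) : ℕ →* PC where
  toFun n := single n ((n:ℂ) ^ (-(h * I)))
  map_one' := by simp [MonoidAlgebra.one_def]
  map_mul' m n := by
    rw [single_mul_single, Nat.cast_mul, Complex.natCast_mul_natCast_cpow]

/-- the shift by `h` -/
noncomputable def sf (h : ℝ) : PC →ₐ[ℂ] PC := MonoidAlgebra.lift ℂ PC ℕ (hsf h)

/-- the sum over the primes of `I` -/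
noncomputable def xc (I : Finset ℕ) : PC := ∑ p ∈ I, single p 1

/-- the truncated exponential of `a z` -/
noncomputable def NKc (K : ℕ) (a : ℝ) (z : PC) : PC :=
  ∑ k ∈ range (K + 1), ((a ^ k / (k.factorial : ℝ) : ℝ) : ℂ) • z ^ k

/-- composed of primes of `I` -/
def Mo (I : Finset ℕ) (n : ℕ) : Prop := n ≠ 0 ∧ ∀ p : ℕ, p.Prime → p ∣ n → p ∈ I

/-- supported on integers between `1` and `N` prime to the elements of `P` -/
def Cop (P : Finset ℕ) (N : ℝ) (D : PC) : Prop :=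
  ∀ n ∈ D.coeff.support, n ≠ 0 ∧ (n:ℝ) ≤ N ∧ ∀ p ∈ P, ¬ p ∣ n

/-- the character `(k/h)^(it)` -/
noncomputable def chr (h k : ℕ) (t : ℝ) : ℂ := Complex.exp (((Real.log k - Real.log h : ℝ) : ℂ) * Complex.I * t)

/-! ### the torus of the small primes -/

/-- the primes below `z` -/
def Sm (z : ℕ) : Finset ℕ := (range z).filter Nat.Prime

/-- the uniform measure on the torus -/
noncomputable def HP (P : Finset ℕ) : Measure (UnitAddTorus P) :=
  Measure.pi fun _ : P => (AddCircle.haarAddCircle (T := (1:ℝ)))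

instance HP_prob (P : Finset ℕ) : IsProbabilityMeasure (HP P) := by
  unfold HP; infer_instance

/-- the point of the torus: the phases of `p^(-it)` -/
noncomputable def pt (P : Finset ℕ) (t : ℝ) : UnitAddTorus P := fun p =>
  ((-(t * Real.log (p : ℕ) / (2 * Real.pi)) : ℝ) : UnitAddCircle)

/-- `-2α log |1 - e(y) p^(-1/2)|` -/
noncomputable def lw (α : ℝ) (p : ℕ) (y : UnitAddCircle) : ℝ :=
  -(2 * α) * Real.log ‖1 - (fourier 1 y : ℂ) * (((p:ℝ) ^ (-(1 / 2 : ℝ)) : ℝ) : ℂ)‖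

/-- the normalising constant -/
noncomputable def E0 (α : ℝ) (P : Finset ℕ) : ℝ :=
  ∏ p : P, ∫ y, Real.exp (lw α p y) ∂(AddCircle.haarAddCircle (T := (1:ℝ)))

/-- the normalised `2α`-th power of the absolute value of the random Euler product at `1/2` -/
noncomputable def M0 (α : ℝ) (P : Finset ℕ) (x : UnitAddTorus P) : ℝ :=
  Real.exp (∑ p : P, lw α p (x p)) / E0 α P

/-- the cut-off: `1` up to `B`, `0` from `2B` on -/
noncomputable def ct (B v : ℝ) : ℝ := max 0 (min 1 (2 - v / B))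

/-- the density with the cut-off at `(log z)^b` -/
noncomputable def Mc (α b : ℝ) (z : ℕ) (x : UnitAddTorus (Sm z)) : ℝ :=
  M0 α (Sm z) x * ct (Real.log z ^ b) (M0 α (Sm z) x)

/-- the density at the point `u` of the line: `|∏_{p<z} (1 - p^(-1/2-iu))|^(-2α)` normalised -/
noncomputable def mz (α : ℝ) (z : ℕ) (u : ℝ) : ℝ := M0 α (Sm z) (pt (Sm z) u)

/-- the kernel: `C (|h| L)^(-ζ)` for `|h| L ≤ 1`, `C` for `1 < |h| L ≤ L^κ` and `e` beyond, `L = log z` -/
noncomputable def Kz (C ζ κ e : ℝ) (z : ℕ) (h : ℝ) : ℝ :=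
  if |h| * Real.log z ≤ 1 then C * (|h| * Real.log z) ^ (-ζ)
  else if |h| * Real.log z ≤ Real.log z ^ κ then C else e

/-- the quadratic functional -/
noncomputable def QK (α b : ℝ) (z : ℕ) (K : ℝ → ℝ) (x : UnitAddTorus (Sm z)) : ℝ :=
  ∫ u in (0:ℝ)..1, ∫ v in (0:ℝ)..1, Mc α b z (x + pt (Sm z) u) * Mc α b z (x + pt (Sm z) v) * K (u - v)

/-! ### the normalised moment weight -/

/-- `lc α m = α (α+1) ... (α+m-1) / m!`, the coefficient of `x^m` in `(1-x)^(-α)` -/
noncomputable def lc (α : ℝ) (m : ℕ) : ℝ := ∏ i ∈ range m, (α + i) / ((i : ℝ) + 1)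

/-- the arithmetic factor `a(α) = ∏_p (1-1/p)^{α²} Σ_m lc(α,m)² p^{-m}` -/
noncomputable def aa (κ : ℝ) : ℝ :=
  ∏' p : Nat.Primes, ((1 - 1 / (p : ℝ)) ^ (κ ^ 2) * ∑' m : ℕ, lc κ m ^ 2 * (1 / (p : ℝ)) ^ m)

/-- `|ζ(1/2+δ+iu)|^(2α)` divided by its asymptotic mean value `a(α) (2δ)^(-α²)` -/
noncomputable def Zn (α δ u : ℝ) : ℝ :=
  (2 * δ) ^ (α ^ 2) / aa α * ‖riemannZeta (1 / 2 + δ + u * I)‖ ^ (2 * α)

/-- admissible distances to the critical line -/
structure Pd (δ : ℝ → ℝ) : Prop where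
  t0 : Tendsto δ atTop (𝓝 0)
  tL : Tendsto (fun T : ℝ => δ T * Real.log T) atTop atTop

/-! ### the random model on the infinite torus -/

/-- sequences of phases, indexed by the integers (only the prime ones are used) -/
abbrev Om := ℕ → UnitAddCircle

/-- the law of independent uniform phases -/
noncomputable def PO : Measure Om := Measure.infinitePi fun _ : ℕ => (AddCircle.haarAddCircle (T := (1:ℝ)))

/-- the random Euler product over the primes below `z` at the point `1/2 + i u` -/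
noncomputable def EO (z : ℕ) (w : Om) (u : ℝ) : ℂ :=
  ∏ p ∈ Sm z, (1 - (fourier 1 (w p) : ℂ) * ((p:ℕ):ℂ) ^ (-(1 / 2 + u * I)))⁻¹

/-- the normalised `2α`-th power -/
noncomputable def rz (α : ℝ) (z : ℕ) (w : Om) (u : ℝ) : ℝ :=
  ‖EO z w u‖ ^ (2 * α) / ∫ w', ‖EO z w' 0‖ ^ (2 * α) ∂PO

end Pool.Agent.N748.GC
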