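import Pool.Agent.N748.GC.Stm

set_option autoImplicit false

/-!
# Local moments near the critical line and multiplicative chaos: the blocks of primes
-/

namespace Pool.Agent.N748.GC

open Finset Filter MeasureTheory MonoidAlgebra Topology Complex

/-- end points of the blocks: `log (be y i) = 4^(-i) log y` -/
noncomputable def be (y : ℝ) (i : ℕ) : ℝ := Real.exp (Real.log y * (1 / 4) ^ i)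

/-- the blocks: the primes `p ≥ max z 144` with `be y (i+1) < p ≤ be y i` -/
noncomputable def IB (z : ℕ) (y : ℝ) (i : ℕ) : Finset ℕ :=
  ((Icc 1 ⌊be y i⌋₊).filter fun p : ℕ => p.Prime ∧ 144 ≤ p ∧ be y (i + 1) < (p:ℝ)).filter fun p => z ≤ p

/-- the degrees -/
def RB (Rs i : ℕ) : ℕ := 2 * (Rs + i)

/-- products of truncated exponentials over the blocks `i` with `j ≤ i < J` -/
noncomputable def BP (a : ℕ → ℝ) (z : ℕ) (y : ℝ) (j J Rs : ℕ) : PC :=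
  ∏ i ∈ Ico j J, NKc (20 * RB Rs i) (a i) (xc (IB z y i))

/-- the variance of the blocks `i` with `j ≤ i < J` -/
noncomputable def VB (δ : ℝ) (z : ℕ) (y : ℝ) (j J : ℕ) : ℝ := ∑ i ∈ Ico j J, ∑ p ∈ IB z y i, wd δ p

/-- the polynomial which detects large values of the sum over a block -/
noncomputable def QB (z : ℕ) (y : ℝ) (Rs i : ℕ) : PC :=
  (((1 / (RB Rs i : ℝ)) ^ (RB Rs i) : ℝ) : ℂ) • (xc (IB z y i)) ^ (RB Rs i)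

/-- admissible parameters: the blocks cover the primes from `z` to `yf X`, and all polynomials are short -/
structure SB (c : ℝ) (z Rs : ℕ) (yf : ℝ → ℝ) (Jf : ℝ → ℕ) : Prop where
  zz : 1000 ≤ z
  R1 : 1 ≤ Rs
  ev : ∀ᶠ X : ℝ in atTop, (z:ℝ) ≤ yf X ∧ be (yf X) (Jf X) < 144 ∧
    (∀ i < Jf X, 10 ≤ be (yf X) i ∧ ∑ p ∈ IB z (yf X) i, 1 / (p:ℝ) ≤ c) ∧
    Real.exp (Real.log (yf X) * (180 * ((Rs:ℝ) + 1))) ≤ (2 * (X + 1)) ^ ((1:ℝ) / 50)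

/-- the weight -/
noncomputable def WB (α : ℝ) (z Rs : ℕ) (yf : ℝ → ℝ) (Jf : ℝ → ℕ) (X δ u : ℝ) : ℝ :=
  ‖ec (1 / 2 + δ + u * I) (BP (fun _ => α) z (yf X) 0 (Jf X) Rs)‖ ^ 2 / Real.exp (α ^ 2 * VB δ z (yf X) 0 (Jf X))

/-- the sums over the blocks are not too large -/
def Gd1 (z Rs : ℕ) (yf : ℝ → ℝ) (Jf : ℝ → ℕ) (X δ u : ℝ) : Prop :=
  ∀ i < Jf X, ‖ec (1 / 2 + δ + u * I) (xc (IB z (yf X) i))‖ ≤ RB Rs i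

/-- the barrier -/
def Gd2 (α A ε1 : ℝ) (z Rs : ℕ) (yf : ℝ → ℝ) (Jf : ℝ → ℕ) (X δ u : ℝ) : Prop :=
  ∀ j < Jf X, (z:ℝ) ≤ be (yf X) j → δ * Real.log (be (yf X) j) ≤ 1 →
    ‖ec (1 / 2 + δ + u * I) (BP (fun _ => α) z (yf X) j (Jf X) Rs)‖ ^ 2 ≤
      A * Real.exp ((2 * α ^ 2 + ε1) * VB δ z (yf X) j (Jf X))

/-- the good points -/
def Gd (α A ε1 : ℝ) (z Rs : ℕ) (yf : ℝ → ℝ) (Jf : ℝ → ℕ) (X δ u : ℝ) : Prop :=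
  Gd1 z Rs yf Jf X δ u ∧ Gd2 α A ε1 z Rs yf Jf X δ u

open Classical in
/-- their indicator function -/
noncomputable def gB (α A ε1 : ℝ) (z Rs : ℕ) (yf : ℝ → ℝ) (Jf : ℝ → ℕ) (X δ u : ℝ) : ℝ :=
  if Gd α A ε1 z Rs yf Jf X δ u then 1 else 0

/-- (ONE) the first moment -/
def S_ONE : Prop := ∀ α : ℝ, 0 < α → α < 1 → ∀ c : ℝ, 0 ≤ c → ∀ e : ℝ, 0 < e → ∃ z0 R0 : ℕ, ∀ z ≥ z0, ∀ Rs ≥ R0,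
  ∀ (yf : ℝ → ℝ) (Jf : ℝ → ℕ), SB c z Rs yf Jf → ∀ lam δ0 : ℝ, 1 ≤ lam →
  ∀ (K : Type) [TopologicalSpace K] [CompactSpace K] (F : K × UnitAddTorus (Sm z) → ℝ), Continuous F →
    (∀ q, 0 ≤ F q) → ∀ η : ℝ, 0 < η → ∀ᶠ X : ℝ in atTop, ∀ δ : ℝ, lam / Real.log X ≤ δ → δ ≤ δ0 →
    ∀ k : K, ∀ x : ℝ, 0 ≤ x → x ≤ 1 →
    |(∫ t in Xl X..X, F (k, pt (Sm z) t) * WB α z Rs yf Jf X δ (t + x)) - X * ∫ y, F (k, y) ∂(HP (Sm z))| ≤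
      X * (e * (∫ y, F (k, y) ∂(HP (Sm z))) + η)

open Classical in
/-- (BADA) large sums over blocks carry little mass -/
def S_BADA : Prop := ∀ α : ℝ, 0 < α → α < 1 → ∀ c : ℝ, 0 ≤ c → ∀ e : ℝ, 0 < e → ∃ z0 R0 : ℕ, ∀ z ≥ z0, ∀ Rs ≥ R0,
  ∀ (yf : ℝ → ℝ) (Jf : ℝ → ℕ), SB c z Rs yf Jf → ∀ lam δ0 : ℝ, 1 ≤ lam →
  ∀ (K : Type) [TopologicalSpace K] [CompactSpace K] (F : K × UnitAddTorus (Sm z) → ℝ), Continuous F →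
    (∀ q, 0 ≤ F q) → ∀ η : ℝ, 0 < η → ∀ᶠ X : ℝ in atTop, ∀ δ : ℝ, lam / Real.log X ≤ δ → δ ≤ δ0 →
    ∀ k : K, ∀ x : ℝ, 0 ≤ x → x ≤ 1 →
    ∫ t in Xl X..X, F (k, pt (Sm z) t) *
      (WB α z Rs yf Jf X δ (t + x) * (if Gd1 z Rs yf Jf X δ (t + x) then 0 else 1)) ≤
      X * (e * (∫ y, F (k, y) ∂(HP (Sm z))) + η)

open Classical in
/-- (BADB) the points beyond the barrier carry little mass -/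
def S_BADB : Prop := ∀ α : ℝ, 0 < α → α < 1 → ∀ ε1 : ℝ, 0 < ε1 → ε1 ≤ 1 → ∀ c : ℝ, 0 ≤ c → ∀ e : ℝ, 0 < e →
  ∃ A : ℝ, 1 ≤ A ∧ ∃ z0 R0 : ℕ, ∀ z ≥ z0, ∀ Rs ≥ R0,
  ∀ (yf : ℝ → ℝ) (Jf : ℝ → ℕ), SB c z Rs yf Jf → ∀ lam δ0 : ℝ, 1 ≤ lam →
  ∀ (K : Type) [TopologicalSpace K] [CompactSpace K] (F : K × UnitAddTorus (Sm z) → ℝ), Continuous F →
    (∀ q, 0 ≤ F q) → ∀ η : ℝ, 0 < η → ∀ᶠ X : ℝ in atTop, ∀ δ : ℝ, lam / Real.log X ≤ δ → δ ≤ δ0 →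
    ∀ k : K, ∀ x : ℝ, 0 ≤ x → x ≤ 1 →
    ∫ t in Xl X..X, F (k, pt (Sm z) t) * (WB α z Rs yf Jf X δ (t + x) *
      (if Gd1 z Rs yf Jf X δ (t + x) ∧ ¬ Gd2 α A ε1 z Rs yf Jf X δ (t + x) then 1 else 0)) ≤
      X * (e * (∫ y, F (k, y) ∂(HP (Sm z))) + η)

/-- (TWO) the two-point function on the good points -/
def S_TWO : Prop := ∀ α : ℝ, 0 < α → α < 1 → ∀ ε1 : ℝ, 0 < ε1 → α ^ 2 + ε1 < 1 → ∀ κ : ℝ, 0 < κ → κ < 1 →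
  ∀ c : ℝ, 0 ≤ c → ∀ A : ℝ, 1 ≤ A → ∃ C : ℝ, 0 ≤ C ∧ ∀ e : ℝ, 0 < e → ∃ z0 R0 : ℕ, ∀ z ≥ z0, ∀ Rs ≥ R0,
  ∀ (yf : ℝ → ℝ) (Jf : ℝ → ℕ), SB c z Rs yf Jf → ∃ δ1 : ℝ, 0 < δ1 ∧ ∀ lam δ0 : ℝ, 1 ≤ lam → δ0 ≤ δ1 →
  ∀ (K : Type) [TopologicalSpace K] [CompactSpace K] (F : K × UnitAddTorus (Sm z) → ℝ), Continuous F →
    (∀ q, 0 ≤ F q) → ∀ η : ℝ, 0 < η → ∀ᶠ X : ℝ in atTop, ∀ δ : ℝ, lam / Real.log X ≤ δ → δ ≤ δ0 →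
    ∀ k : K, ∀ x y : ℝ, 0 ≤ x → x ≤ 1 → 0 ≤ y → y ≤ 1 → x ≠ y →
    ∫ t in Xl X..X, F (k, pt (Sm z) t) *
      ((WB α z Rs yf Jf X δ (t + x) * gB α A ε1 z Rs yf Jf X δ (t + x)) *
       (WB α z Rs yf Jf X δ (t + y) * gB α A ε1 z Rs yf Jf X δ (t + y))) ≤
      X * (((∫ w, F (k, w) ∂(HP (Sm z))) + η) * (1 + Kz C (α ^ 2 + ε1) κ e z (x - y)))

/-- (NNB) the mean squares of products over the blocks at two points -/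
def S_NNB : Prop := ∀ c : ℝ, 0 ≤ c → ∃ C : ℝ, 0 ≤ C ∧ ∀ (z J Rs : ℕ) (y : ℝ), 144 ≤ z → 1 ≤ y → 1 ≤ Rs →
  (∀ i < J, ∑ p ∈ IB z y i, 1 / (p:ℝ) ≤ c) → ∀ δ : ℝ, 0 ≤ δ → ∀ a b : ℕ → ℝ,
  (∀ i, 0 ≤ a i ∧ a i ≤ 2) → (∀ i, 0 ≤ b i ∧ b i ≤ 2) → ∀ h : ℝ,
  nn δ (BP a z y 0 J Rs * sf h (BP b z y 0 J Rs)) ≤
    Real.exp ((∑ i ∈ range J, ∑ p ∈ IB z y i, (a i ^ 2 + b i ^ 2 + 2 * a i * b i * Real.cos (h * Real.log p)) * wd δ p) +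
      C * Real.exp (-(2 * (Rs:ℝ))))

/-- (NNL) the lower bound for the mean square -/
def S_NNL : Prop := ∀ c : ℝ, 0 ≤ c → ∀ e : ℝ, 0 < e → ∃ z0 R0 : ℕ, ∀ (z J Rs : ℕ) (y : ℝ), z0 ≤ z → R0 ≤ Rs →
  1 ≤ y → (∀ i < J, ∑ p ∈ IB z y i, 1 / (p:ℝ) ≤ c) → ∀ δ : ℝ, 0 ≤ δ → ∀ α : ℝ, 0 ≤ α → α ≤ 1 →
  (1 - e) * Real.exp (α ^ 2 * VB δ z y 0 J) ≤ nn δ (BP (fun _ => α) z y 0 J Rs)

/-- (NNQ) the mean square with the detecting polynomial -/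
def S_NNQ : Prop := ∀ c : ℝ, 0 ≤ c → ∃ (C : ℝ) (R0 : ℕ), 0 ≤ C ∧ ∀ (z J Rs : ℕ) (y : ℝ), 144 ≤ z → 1 ≤ y → R0 ≤ Rs →
  1 ≤ Rs → (∀ i < J, ∑ p ∈ IB z y i, 1 / (p:ℝ) ≤ c) → ∀ δ : ℝ, 0 ≤ δ → ∀ α : ℝ, 0 ≤ α → α ≤ 1 → ∀ i < J,
  nn δ (BP (fun _ => α) z y 0 J Rs * QB z y Rs i) ≤
    C * Real.exp (-(RB Rs i : ℝ)) * Real.exp (α ^ 2 * VB δ z y 0 J)

/-- (LEN) lengths and sizes -/
def S_LEN : Prop := ∀ (z J Rs : ℕ) (y : ℝ), 144 ≤ z → 1 ≤ y → 1 ≤ Rs → (∀ i < J, 10 ≤ be y i) →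
  (∀ a : ℕ → ℝ, (∀ i, 0 ≤ a i ∧ a i ≤ 2) → ∀ j ≤ J,
    Cop (Sm z) (Real.exp (Real.log y * (90 * ((Rs:ℝ) + 1)))) (BP a z y j J Rs) ∧
    lc1 (BP a z y j J Rs) ≤ Real.exp (Real.log y * (90 * ((Rs:ℝ) + 1)))) ∧
  ∀ i < J, Cop (Sm z) (Real.exp (Real.log y * (90 * ((Rs:ℝ) + 1)))) (QB z y Rs i) ∧
    lc1 (QB z y Rs i) ≤ Real.exp (Real.log y * (90 * ((Rs:ℝ) + 1)))

end Pool.Agent.N748.GC
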