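import Pool.Agent.N748.GC.Stm

set_option autoImplicit false

/-!
# Random measures: statements
-/

namespace Pool.Agent.N748.GC

open Finset Filter MeasureTheory Topology Complex

open Classical in
/-- the measure on the unit interval with density `g` (zero if it is not finite) -/
noncomputable def fm (g : ℝ → ℝ) : FiniteMeasure unitInterval :=
  if h : IsFiniteMeasure ((volume : Measure unitInterval).withDensity fun x => ENNReal.ofReal (g x)) then ⟨_, h⟩
  else 0

/-- (AS) the random measures of the model converge almost surely in the weak topology -/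
def S_AS : Prop := ∀ α : ℝ, 0 < α → ∃ M : Om → FiniteMeasure unitInterval,
  ∀ᵐ w ∂PO, Tendsto (fun z : ℕ => fm (rz α z w)) atTop (𝓝 (M w))

/-- (RM) convergence in distribution of the random measures in the weak topology -/
def S_RM : Prop := ∀ α : ℝ, 0 < α → α < 1 → ∀ M : Om → FiniteMeasure unitInterval,
  (∀ᵐ w ∂PO, Tendsto (fun z : ℕ => fm (rz α z w)) atTop (𝓝 (M w))) →
  ∀ δ : ℝ → ℝ, Pd δ → ∀ G : BoundedContinuousFunction (FiniteMeasure unitInterval) ℝ,
  Integrable (fun w => G (M w)) PO ∧
  Tendsto (fun T : ℝ => (1 / T) * ∫ t in (0:ℝ)..T, G (fm fun x => Zn α (δ T) (t + x))) atTop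
    (𝓝 (∫ w, G (M w) ∂PO))

end Pool.Agent.N748.GC
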