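import Pool.Agent.N748.GC.Stm
import Pool.Agent.N748.MM.Cfx
import Pool.Agent.N748.MM.Dn

set_option autoImplicit false

/-! Links between the light definitions and the library. -/

namespace Pool.Agent.N748.GC

open Finset Filter MeasureTheory MonoidAlgebra Topology Complex
open Pool.Agent.Y755 Pool.Agent.W184.NZ

lemma wd_eq (δ : ℝ) (n : ℕ) : wd δ n = wδ δ n := rfl

lemma Sm_eq (z : ℕ) : Sm z = S0 z := rfl

lemma pt_eq (P : Finset ℕ) (t : ℝ) : pt P t = Pool.Agent.N748.MM.pt P t := rfl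

lemma lw_eq (α : ℝ) (p : ℕ) (y : UnitAddCircle) : lw α p y = Pool.Agent.N748.MM.lw α p y := rfl

/-- the inclusion of the real polynomials -/
noncomputable def cx : P1 →ₐ[ℝ] PC := MonoidAlgebra.lift ℝ PC ℕ (MonoidAlgebra.of ℂ ℕ)

lemma cx_single (n : ℕ) (c : ℝ) : cx (single n c) = single n (c:ℂ) := by
  unfold cx
  rw [MonoidAlgebra.lift_single, MonoidAlgebra.of_apply]
  ext m
  simp [MonoidAlgebra.coeff_smul, MonoidAlgebra.coeff_single, Finsupp.single_apply]

lemma cx_coeff (f : P1) (n : ℕ) : (cx f).coeff n = (f.coeff n : ℂ) := by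
  rw [P1_sum f, map_sum]
  simp_rw [cx_single]
  simp only [MonoidAlgebra.coeff_sum, Finsupp.coe_finset_sum, Finset.sum_apply, MonoidAlgebra.coeff_single]
  push_cast
  refine sum_congr rfl fun m _ => ?_
  rw [Finsupp.single_apply, Finsupp.single_apply]
  split_ifs <;> simp

lemma cx_supp (f : P1) : (cx f).coeff.support = f.coeff.support := by
  ext n
  rw [Finsupp.mem_support_iff, Finsupp.mem_support_iff, cx_coeff]
  simp

lemma nn_cx (δ : ℝ) (f : P1) : nn δ (cx f) = ip δ f f := by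
  unfold nn
  rw [cx_supp, ip_eq δ f f (Finset.Subset.refl _)]
  refine sum_congr rfl fun n _ => ?_
  rw [cx_coeff, Complex.norm_real, Real.norm_eq_abs, sq_abs, wd_eq]
  ring

lemma lc1_cx (f : P1) : lc1 (cx f) = l1' f := by
  unfold lc1 l1'
  rw [cx_supp]
  refine sum_congr rfl fun n _ => ?_
  rw [cx_coeff, Complex.norm_real, Real.norm_eq_abs]

lemma ec_single (s : ℂ) (n : ℕ) (c : ℂ) : ec s (single n c) = c * (n:ℂ) ^ (-s) := by
  unfold ec
  rw [MonoidAlgebra.lift_single]
  rfl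

lemma ec_cx (s : ℂ) (f : P1) : ec s (cx f) = es s f := by
  rw [P1_sum f, map_sum, map_sum, map_sum]
  refine sum_congr rfl fun n _ => ?_
  rw [cx_single, ec_single, es_single]

lemma cx_x1 (I : Finset ℕ) : cx (x1 I) = xc I := by
  unfold x1 xc
  rw [map_sum]
  refine sum_congr rfl fun p _ => ?_
  rw [cx_single]; simp

lemma cx_NK (K : ℕ) (a : ℝ) (f : P1) : cx (NK K a f) = NKc K a (cx f) := by
  unfold NK NKc
  rw [map_sum]
  refine sum_congr rfl fun k _ => ?_
  rw [map_smul, map_pow]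
  rfl

end Pool.Agent.N748.GC
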