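import Pool.Agent.N748.GC.L2
import Pool.Agent.N748.GC.NNQ

set_option autoImplicit false

/-!
# GC2/NNQ2: the mean square with the detecting polynomial, exponents up to `2` (helper558)
-/

namespace Pool.Agent.N748.GC.NNQ2

open Finset MonoidAlgebra Complex
open Pool.Agent.N748.GC.NNQ (be_anti mem_IB IB_disj nn_prod Su_xc Su_NKc NKc_zero wd_le)

/-- The block with the detecting polynomial. -/
lemma blockQ {c δ : ℝ} (hc : 1 ≤ c) (hδ : 0 ≤ δ) {I : Finset ℕ} (hI : ∀ p ∈ I, p.Prime)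
    (hIc : ∑ p ∈ I, 1 / (p : ℝ) ≤ c) {R : ℕ} (hR : 2 * c * Real.exp 1 ≤ R) {a : ℝ} (ha : 0 ≤ a)
    (ha1 : a ≤ 2) (K : ℕ) :
    nn δ (NKc K a (xc I) * ((((1 / (R : ℝ)) ^ R : ℝ) : ℂ) • (xc I) ^ R)) ≤
      (Real.exp (32 * c) + 1) ^ 2 * Real.exp (-(R : ℝ)) := by
  have hR0 : (0 : ℝ) < R := lt_of_lt_of_le (by positivity) hR
  set x : PC := xc I with hx
  set r : ℝ := (1 / (R : ℝ)) ^ R with hr
  have hr0 : 0 < r := by positivity
  have e1 : NKc K a x * ((r : ℂ) • x ^ R) =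
      ∑ k ∈ range (K + 1), (((a ^ k / (k.factorial : ℝ)) * r : ℝ) : ℂ) • x ^ (k + R) := by
    unfold NKc
    rw [Finset.sum_mul]
    refine Finset.sum_congr rfl fun k _ => ?_
    rw [smul_mul_smul_comm, pow_add]
    push_cast
    rfl
  have hnn : ∀ m : ℕ, nn δ (x ^ m) ≤ m.factorial * c ^ m := by
    intro m
    have h4 := BLK.KL δ (fun _ => (1 : ℂ)) I hI m
    have h5 : ∑ p ∈ I, ‖(1 : ℂ)‖ ^ 2 * wd δ p ≤ c := by
      refine le_trans (Finset.sum_le_sum fun p hp => ?_) hIc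
      rw [norm_one, one_pow, one_mul]
      exact wd_le hδ (hI p hp)
    have h50 : 0 ≤ ∑ p ∈ I, ‖(1 : ℂ)‖ ^ 2 * wd δ p :=
      Finset.sum_nonneg fun p _ => mul_nonneg (sq_nonneg _) (BLK.wd_nonneg δ p)
    refine le_trans h4 ?_
    exact mul_le_mul_of_nonneg_left (pow_le_pow_left₀ h50 h5 m) (by positivity)
  set S : ℝ := Real.sqrt ((2 * c) ^ R * R.factorial) with hS
  have hS2 : S ^ 2 = (2 * c) ^ R * R.factorial := Real.sq_sqrt (by positivity)
  have hS0 : 0 ≤ S := Real.sqrt_nonneg _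
  have hterm : ∀ k ∈ range (K + 1),
      Real.sqrt (nn δ ((((a ^ k / (k.factorial : ℝ)) * r : ℝ) : ℂ) • x ^ (k + R))) ≤
        r * S * (((32 * c) ^ k / (k.factorial : ℝ) + (1 / 4) ^ k) / 2) := by
    intro k _
    have hk0 : (0 : ℝ) < (k.factorial : ℝ) := by exact_mod_cast Nat.factorial_pos k
    rw [Real.sqrt_le_left (by positivity), BLK.nn_smul, Complex.norm_real, Real.norm_eq_abs, sq_abs]
    have hfac : ((k + R).factorial : ℝ) ≤ 2 ^ (k + R) * k.factorial * R.factorial := by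
      have h1 := Nat.add_choose_mul_factorial_mul_factorial k R
      have h2 : (k + R).choose R ≤ 2 ^ (k + R) := Nat.choose_le_two_pow _ _
      have h3 : (k + R).factorial ≤ 2 ^ (k + R) * k.factorial * R.factorial := by
        rw [← h1]
        exact Nat.mul_le_mul_right _ (Nat.mul_le_mul_right _ h2)
      exact_mod_cast h3
    set A : ℝ := (32 * c) ^ k / (k.factorial : ℝ) with hA
    set B : ℝ := (1 / 4 : ℝ) ^ k with hB
    have hAB : A * B ≤ ((A + B) / 2) ^ 2 := by nlinarith [sq_nonneg (A - B)]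
    have hABe : A * B = 4 ^ k * ((2 * c) ^ k / (k.factorial : ℝ)) := by
      rw [hA, hB, ← mul_div_assoc, ← mul_pow, div_mul_eq_mul_div, ← mul_pow]
      congr 2
      ring
    have ha2 : (a ^ k) ^ 2 ≤ 4 ^ k := by
      rw [← pow_mul, mul_comm k 2, pow_mul]
      exact pow_le_pow_left₀ (sq_nonneg a) (by nlinarith) k
    calc (a ^ k / (k.factorial : ℝ) * r) ^ 2 * nn δ (x ^ (k + R))
        = (a ^ k) ^ 2 * ((r / k.factorial) ^ 2 * nn δ (x ^ (k + R))) := by
          field_simp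
      _ ≤ 4 ^ k * ((r / k.factorial) ^ 2 * ((k + R).factorial * c ^ (k + R))) := by
          refine mul_le_mul ha2 ?_ ?_ (by positivity)
          · exact mul_le_mul_of_nonneg_left (hnn _) (by positivity)
          · exact mul_nonneg (by positivity) (BLK.nn_nonneg _ _)
      _ ≤ 4 ^ k * ((r / k.factorial) ^ 2 * (2 ^ (k + R) * k.factorial * R.factorial * c ^ (k + R))) := by
          gcongr
      _ = r ^ 2 * ((2 * c) ^ R * R.factorial) * (4 ^ k * ((2 * c) ^ k / (k.factorial : ℝ))) := by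
          rw [mul_pow, mul_pow, pow_add, pow_add]
          field_simp
      _ = r ^ 2 * S ^ 2 * (A * B) := by rw [hS2, hABe]
      _ ≤ r ^ 2 * S ^ 2 * ((A + B) / 2) ^ 2 := mul_le_mul_of_nonneg_left hAB (by positivity)
      _ = _ := by ring
  have hsum : Real.sqrt (nn δ (NKc K a x * ((r : ℂ) • x ^ R))) ≤ r * S * (Real.exp (32 * c) + 1) := by
    rw [e1]
    refine (NN.sqrt_nn_sum δ _ _).trans ((Finset.sum_le_sum hterm).trans ?_)
    rw [← Finset.mul_sum]
    refine mul_le_mul_of_nonneg_left ?_ (by positivity)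
    rw [← Finset.sum_div, Finset.sum_add_distrib]
    have h1 := Real.sum_le_exp_of_nonneg (x := 32 * c) (by positivity) (K + 1)
    have h2 : ∑ k ∈ range (K + 1), (1 / 4 : ℝ) ^ k ≤ 2 := by
      have h3 : Summable fun k : ℕ => (1 / 4 : ℝ) ^ k :=
        summable_geometric_of_lt_one (by norm_num) (by norm_num)
      refine (h3.sum_le_tsum _ fun k _ => by positivity).trans ?_
      rw [tsum_geometric_of_lt_one (by norm_num) (by norm_num)]
      norm_num
    have h3 := Real.exp_pos (32 * c)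
    linarith
  have hsq : nn δ (NKc K a x * ((r : ℂ) • x ^ R)) ≤ (r * S * (Real.exp (32 * c) + 1)) ^ 2 := by
    have h1 := Real.sq_sqrt (BLK.nn_nonneg δ (NKc K a x * ((r : ℂ) • x ^ R)))
    rw [← h1]
    exact pow_le_pow_left₀ (Real.sqrt_nonneg _) hsum 2
  refine hsq.trans ?_
  have hfin : r ^ 2 * ((2 * c) ^ R * R.factorial) ≤ Real.exp (-(R : ℝ)) := by
    have h1 : (R.factorial : ℝ) ≤ (R : ℝ) ^ R := by exact_mod_cast Nat.factorial_le_pow R
    have h2 : 2 * c / R ≤ Real.exp (-1) := by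
      rw [div_le_iff₀ hR0, Real.exp_neg, inv_mul_eq_div, le_div_iff₀ (Real.exp_pos 1)]
      exact hR
    calc r ^ 2 * ((2 * c) ^ R * R.factorial) ≤ r ^ 2 * ((2 * c) ^ R * (R : ℝ) ^ R) := by gcongr
      _ = (2 * c / R) ^ R := by
          rw [hr, ← pow_mul, mul_comm R 2, pow_mul, ← mul_pow, ← mul_pow]
          congr 1
          field_simp
      _ ≤ Real.exp (-1) ^ R := pow_le_pow_left₀ (by positivity) h2 R
      _ = Real.exp (-(R : ℝ)) := by
          rw [← Real.exp_nat_mul]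
          congr 1
          ring
  calc (r * S * (Real.exp (32 * c) + 1)) ^ 2 = (Real.exp (32 * c) + 1) ^ 2 * (r ^ 2 * S ^ 2) := by ring
    _ ≤ _ := by
        rw [hS2]
        exact mul_le_mul_of_nonneg_left hfin (by positivity)

theorem main : S_NNQ2 := by
  classical
  intro c hc
  obtain ⟨C, hC, hblk⟩ := BLK.main c hc
  set c' : ℝ := max c 1 with hc'
  have hc1 : 1 ≤ c' := le_max_right _ _
  refine ⟨Real.exp (2 * C) * (Real.exp (32 * c') + 1) ^ 2, ⌈c' * Real.exp 1⌉₊, by positivity, ?_⟩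
  intro z J Rs y _ hy hR0 hRs hIc δ hδ α hα hα1 i hi
  have hprime : ∀ k, ∀ p ∈ IB z y k, p.Prime := fun k p hp => (mem_IB hp).1
  set f : ℕ → PC := fun k => NKc (20 * RB Rs k) α (xc (IB z y k)) with hf
  set g : ℕ → PC := fun k => if k = i then f k * QB z y Rs k else f k with hg
  have hfSu : ∀ k, BLK.Su (Mo (IB z y k)) (f k) := fun k => Su_NKc (hprime k) _ _
  have hgSu : ∀ k, BLK.Su (Mo (IB z y k)) (g k) := by
    intro k
    rw [hg]
    simp only
    split_ifs with h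
    · refine (hfSu k).mul (((BLK.Su_Mo_pow (Su_xc (hprime k)) _).smul _)) fun a b ha hb => ?_
      exact BLK.Mo.mul ha hb
    · exact hfSu k
  have hiJ : i ∈ Ico 0 J := mem_Ico.2 ⟨Nat.zero_le _, hi⟩
  have e1 : BP (fun _ => α) z y 0 J Rs * QB z y Rs i = ∏ k ∈ Ico 0 J, g k := by
    have h1 : BP (fun _ => α) z y 0 J Rs = ∏ k ∈ Ico 0 J, f k := rfl
    rw [h1, ← Finset.prod_erase_mul _ _ hiJ, ← Finset.prod_erase_mul (Ico 0 J) g hiJ, mul_assoc]
    congr 1
    · refine Finset.prod_congr rfl fun k hk => ?_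
      rw [hg]
      simp only
      rw [if_neg (Finset.ne_of_mem_erase hk)]
    · rw [hg]
      simp
  rw [e1, (nn_prod δ (IB z y) (fun k l hkl => IB_disj hy z hkl) g hgSu (Ico 0 J)).1,
    ← Finset.prod_erase_mul _ _ hiJ]
  have hRBi : 2 * c' * Real.exp 1 ≤ (RB Rs i : ℝ) := by
    have h1 : c' * Real.exp 1 ≤ Rs := (Nat.le_ceil _).trans (by exact_mod_cast hR0)
    unfold RB
    push_cast
    have : (0 : ℝ) ≤ i := Nat.cast_nonneg i
    linarith
  have hgi : nn δ (g i) ≤ (Real.exp (32 * c') + 1) ^ 2 * Real.exp (-(RB Rs i : ℝ)) := by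
    have h1 : g i = NKc (20 * RB Rs i) α (xc (IB z y i)) *
        ((((1 / (RB Rs i : ℝ)) ^ (RB Rs i) : ℝ) : ℂ) • (xc (IB z y i)) ^ (RB Rs i)) := by
      show (if i = i then f i * QB z y Rs i else f i) = _
      rw [if_pos rfl]
      rfl
    rw [h1]
    exact blockQ hc1 hδ (hprime i) ((hIc i hi).trans (le_max_left _ _)) hRBi hα hα1 _
  set v : ℕ → ℝ := fun k => ∑ p ∈ IB z y k, wd δ p with hv
  have hv0 : ∀ k, 0 ≤ v k := fun k => Finset.sum_nonneg fun p _ => BLK.wd_nonneg δ p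
  have hgk : ∀ k ∈ (Ico 0 J).erase i, nn δ (g k) ≤
      Real.exp (α ^ 2 * v k + 2 * (C * Real.exp (-(RB Rs k : ℝ)))) := by
    intro k hk
    have hki : k ≠ i := Finset.ne_of_mem_erase hk
    have hkJ : k < J := (mem_Ico.1 (Finset.mem_of_mem_erase hk)).2
    have h1 : g k = NKc (20 * RB Rs k) α (xc (IB z y k)) *
        sf 0 (NKc (20 * RB Rs k) 0 (xc (IB z y k))) := by
      rw [NKc_zero, map_one, mul_one, hg]
      simp only
      rw [if_neg hki]
    rw [h1]
    have hRk : 1 ≤ RB Rs k := by unfold RB; omega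
    refine (hblk (IB z y k) (RB Rs k) δ 0 α 0 (hprime k) (hIc k hkJ) hRk hδ hα (by linarith) le_rfl
      (by norm_num)).trans ?_
    have h2 : ∑ p ∈ IB z y k, (α ^ 2 + 0 ^ 2 + 2 * α * 0 * Real.cos (0 * Real.log p)) * wd δ p =
        α ^ 2 * v k := by
      rw [hv, Finset.mul_sum]
      refine Finset.sum_congr rfl fun p _ => ?_
      ring
    rw [h2, Real.exp_add]
    refine mul_le_mul_of_nonneg_left ?_ (Real.exp_pos _).le
    have h3 : 1 + C * Real.exp (-(RB Rs k : ℝ)) ≤ Real.exp (C * Real.exp (-(RB Rs k : ℝ))) := by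
      rw [add_comm]
      exact Real.add_one_le_exp _
    calc (1 + C * Real.exp (-(RB Rs k : ℝ))) ^ 2 ≤ Real.exp (C * Real.exp (-(RB Rs k : ℝ))) ^ 2 :=
          pow_le_pow_left₀ (by positivity) h3 2
      _ = _ := by rw [← Real.exp_nat_mul]; norm_num
  have hprod : ∏ k ∈ (Ico 0 J).erase i, nn δ (g k) ≤
      Real.exp (α ^ 2 * VB δ z y 0 J + 2 * C) := by
    refine (Finset.prod_le_prod (fun k _ => BLK.nn_nonneg δ (g k)) hgk).trans ?_
    rw [← Real.exp_sum]
    apply Real.exp_le_exp.2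
    have h1 : ∑ k ∈ (Ico 0 J).erase i, (α ^ 2 * v k + 2 * (C * Real.exp (-(RB Rs k : ℝ)))) ≤
        ∑ k ∈ Ico 0 J, (α ^ 2 * v k + 2 * (C * Real.exp (-(RB Rs k : ℝ)))) :=
      Finset.sum_le_sum_of_subset_of_nonneg (Finset.erase_subset _ _) fun k _ _ => by
        have := hv0 k
        positivity
    refine h1.trans ?_
    rw [Finset.sum_add_distrib, ← Finset.mul_sum, ← Finset.mul_sum, ← Finset.mul_sum]
    have h2 : ∑ k ∈ Ico 0 J, Real.exp (-(RB Rs k : ℝ)) ≤ 1 := by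
      have h3 : ∀ k ∈ Ico 0 J, Real.exp (-(RB Rs k : ℝ)) ≤ (1 / 2 : ℝ) ^ (k + 1) := by
        intro k _
        have h4 : Real.exp (-(RB Rs k : ℝ)) ≤ Real.exp (-1) ^ (k + 1) := by
          rw [← Real.exp_nat_mul]
          apply Real.exp_le_exp.2
          unfold RB
          push_cast
          have h5 : (1 : ℝ) ≤ Rs := by exact_mod_cast hRs
          have h6 : (0 : ℝ) ≤ k := Nat.cast_nonneg k
          linarith
        have h7 : Real.exp (-1) ≤ 1 / 2 := by
          rw [Real.exp_neg, one_div]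
          apply inv_anti₀ (by norm_num)
          linarith [Real.exp_one_gt_d9]
        exact h4.trans (pow_le_pow_left₀ (Real.exp_pos _).le h7 _)
      refine (Finset.sum_le_sum h3).trans ?_
      have h8 : Summable fun k : ℕ => (1 / 2 : ℝ) ^ (k + 1) :=
        (summable_nat_add_iff 1).2 (summable_geometric_of_lt_one (by norm_num) (by norm_num))
      refine (h8.sum_le_tsum _ fun k _ => by positivity).trans ?_
      have h9 : ∑' k : ℕ, (1 / 2 : ℝ) ^ (k + 1) = 1 := by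
        simp_rw [pow_succ]
        rw [tsum_mul_right, tsum_geometric_of_lt_one (by norm_num) (by norm_num)]
        norm_num
      rw [h9]
    have h3 : C * ∑ k ∈ Ico 0 J, Real.exp (-(RB Rs k : ℝ)) ≤ C := mul_le_of_le_one_right hC h2
    have h4 : VB δ z y 0 J = ∑ k ∈ Ico 0 J, v k := rfl
    rw [h4]
    linarith
  calc (∏ k ∈ (Ico 0 J).erase i, nn δ (g k)) * nn δ (g i)
      ≤ Real.exp (α ^ 2 * VB δ z y 0 J + 2 * C) *
        ((Real.exp (32 * c') + 1) ^ 2 * Real.exp (-(RB Rs i : ℝ))) :=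
        mul_le_mul hprod hgi (BLK.nn_nonneg _ _) (Real.exp_pos _).le
    _ = _ := by rw [Real.exp_add]; ring

end Pool.Agent.N748.GC.NNQ2
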