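import Pool.Agent.N748.GC.L3
import Pool.Agent.N748.GC.LAM
import Pool.Agent.N748.GC.DISL

set_option autoImplicit false

/-!
# (RM): convergence in distribution of the random measures in the weak topology
-/

namespace Pool.Agent.N748.GC.RM

open Finset Filter MeasureTheory Topology Complex Pool.Agent.N748.GC

/-! ### the measures with continuous densities -/

/-- the extension of a function on the unit interval to the line -/
noncomputable def ex (φ : C(unitInterval, ℝ)) (x : ℝ) : ℝ := φ (Set.projIcc 0 1 zero_le_one x)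

lemma ex_cont (φ : C(unitInterval, ℝ)) : Continuous (ex φ) := by
  unfold ex
  exact φ.continuous.comp continuous_projIcc

lemma ex_coe (φ : C(unitInterval, ℝ)) (x : unitInterval) : ex φ (x : ℝ) = φ x := by
  unfold ex
  rw [Set.projIcc_val]

lemma fm_fin {g : ℝ → ℝ} (hg : Continuous g) :
    IsFiniteMeasure ((volume : Measure unitInterval).withDensity fun x => ENNReal.ofReal (g x)) := by
  refine isFiniteMeasure_withDensity_ofReal (f := fun x : unitInterval => g x) ?_
  have hc : Continuous fun x : unitInterval => g x := hg.comp continuous_subtype_val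
  exact (hc.integrable_of_hasCompactSupport (HasCompactSupport.of_compactSpace _)).2

lemma fm_coe {g : ℝ → ℝ} (hg : Continuous g) :
    ((fm g : FiniteMeasure unitInterval) : Measure unitInterval) =
      (volume : Measure unitInterval).withDensity fun x => ENNReal.ofReal (g x) := by
  have e : fm g = ⟨_, fm_fin hg⟩ := dif_pos (fm_fin hg)
  rw [e]
  rfl

lemma fm_int {g : ℝ → ℝ} (hg : Continuous g) (h0 : ∀ x, 0 ≤ g x) (φ : C(unitInterval, ℝ)) :
    ∫ x, φ x ∂((fm g : FiniteMeasure unitInterval) : Measure unitInterval) =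
      ∫ x in (0:ℝ)..1, ex φ x * g x := by
  rw [fm_coe hg]
  have hc : Continuous fun x : unitInterval => g x := hg.comp continuous_subtype_val
  rw [integral_withDensity_eq_integral_toReal_smul (hc.measurable.ennreal_ofReal)
    (Eventually.of_forall fun x => ENNReal.ofReal_lt_top)]
  rw [intervalIntegral.integral_of_le zero_le_one, ← integral_Icc_eq_integral_Ioc]
  have e := integral_subtype_comap (μ := (volume : Measure ℝ)) (s := Set.Icc (0:ℝ) 1) measurableSet_Icc
    (fun x : ℝ => ex φ x * g x)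
  rw [← e]
  refine integral_congr_ae (Eventually.of_forall fun x => ?_)
  simp only
  rw [ENNReal.toReal_ofReal (h0 _), smul_eq_mul, mul_comm]
  congr 1
  exact (ex_coe φ x).symm

lemma fm_cont {X : Type*} [TopologicalSpace X] [FirstCountableTopology X] {h : X → ℝ → ℝ}
    (hc : Continuous (Function.uncurry h)) (h0 : ∀ x u, 0 ≤ h x u) :
    Continuous fun x => fm (h x) := by
  rw [FiniteMeasure.continuous_iff_forall_continuousMap_continuous_integral]
  intro φ
  have hx : ∀ x, Continuous (h x) := fun x => hc.comp (Continuous.prodMk continuous_const continuous_id)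
  simp_rw [fun x => fm_int (hx x) (h0 x) φ]
  refine intervalIntegral.continuous_parametric_intervalIntegral_of_continuous' ?_ _ _
  have h1 := ex_cont φ
  exact (h1.comp continuous_snd).mul hc

/-! ### positivity -/

lemma aa_nonneg (κ : ℝ) : 0 ≤ aa κ := by
  unfold aa
  set f : Nat.Primes → ℝ := fun p => ((1 - 1 / (p : ℝ)) ^ (κ ^ 2) * ∑' m : ℕ, lc κ m ^ 2 * (1 / (p : ℝ)) ^ m)
    with hf
  have h0 : ∀ p, 0 ≤ f p := by
    intro p
    have hp : (1:ℝ) ≤ (p : ℝ) := by exact_mod_cast p.2.one_le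
    have h1 : 1 / (p:ℝ) ≤ 1 := by
      rw [div_le_one (by linarith)]; exact hp
    refine mul_nonneg (Real.rpow_nonneg (by linarith) _) (tsum_nonneg fun m => ?_)
    positivity
  by_cases hm : Multipliable f
  · exact ge_of_tendsto' hm.hasProd fun s => Finset.prod_nonneg fun p _ => h0 p
  · rw [tprod_eq_one_of_not_multipliable hm]
    exact zero_le_one

lemma Zn_nonneg (α δ u : ℝ) (hδ : 0 < δ) : 0 ≤ Zn α δ u := by
  unfold Zn
  refine mul_nonneg (div_nonneg (Real.rpow_nonneg (by linarith) _) (aa_nonneg α)) ?_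
  exact Real.rpow_nonneg (norm_nonneg _) _

lemma rz_nonneg (h3 : S_RZ) {α : ℝ} (hα : 0 < α) (z : ℕ) (w : Om) (u : ℝ) : 0 ≤ rz α z w u := by
  rw [h3 α hα]
  exact (RZ.M0_pos α (Sm z) (RZ.Sm_prime z) _).le

lemma rz_cont (h3 : S_RZ) {α : ℝ} (hα : 0 < α) (z : ℕ) : Continuous (Function.uncurry (rz α z)) := by
  have e : Function.uncurry (rz α z) = fun q : Om × ℝ => M0 α (Sm z) ((fun p : Sm z => q.1 p) + pt (Sm z) q.2) := by
    funext q
    exact h3 α hα z q.1 q.2
  rw [e]
  have h1 := RZ.M0_cont α (Sm z) (RZ.Sm_prime z)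
  have h2 := LAM.pt_cont (Sm z)
  refine h1.comp ?_
  refine Continuous.add ?_ (h2.comp continuous_snd)
  fun_prop

lemma rz_cont1 (h3 : S_RZ) {α : ℝ} (hα : 0 < α) (z : ℕ) (w : Om) : Continuous (rz α z w) := by
  have e : rz α z w = fun u : ℝ => M0 α (Sm z) ((fun p : Sm z => w p) + pt (Sm z) u) := by
    funext u
    exact h3 α hα z w u
  rw [e]
  exact (RZ.M0_cont α (Sm z) (RZ.Sm_prime z)).comp (continuous_const.add (LAM.pt_cont (Sm z)))

/-! ### identification of the integrals -/

/-- uniqueness of the limit (copied from `Fin.lean`) -/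
theorem lim_unique {X : ℕ → Om → ℝ} {Y L : Om → ℝ} (hX : ∀ z, Integrable (X z) PO) (hL : Integrable L PO)
    (h1 : Tendsto (fun z => ∫ w, |X z w - L w| ∂PO) atTop (𝓝 0))
    (h2 : ∀ᵐ w ∂PO, Tendsto (fun z => X z w) atTop (𝓝 (Y w))) : Y =ᵐ[PO] L := by
  have m1 : TendstoInMeasure PO X atTop L := by
    refine tendstoInMeasure_of_tendsto_eLpNorm (p := 1) one_ne_zero (fun z => (hX z).aestronglyMeasurable)
      hL.aestronglyMeasurable ?_
    have e1 : ∀ z, eLpNorm (X z - L) 1 PO = ENNReal.ofReal (∫ w, |X z w - L w| ∂PO) := by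
      intro z
      rw [eLpNorm_one_eq_lintegral_enorm, ← ofReal_integral_norm_eq_lintegral_enorm ((hX z).sub hL)]
      rfl
    simp_rw [e1]
    have := (ENNReal.continuous_ofReal.tendsto 0).comp h1
    rw [ENNReal.ofReal_zero] at this
    exact this
  have m2 : TendstoInMeasure PO X atTop Y :=
    tendstoInMeasure_of_tendsto_ae (fun z => (hX z).aestronglyMeasurable) h2
  exact tendstoInMeasure_ae_unique m2 m1

lemma int_tendsto {ι : Type*} {l : Filter ι} {μs : ι → FiniteMeasure unitInterval} {μ : FiniteMeasure unitInterval}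
    (h : Tendsto μs l (𝓝 μ)) (φ : C(unitInterval, ℝ)) :
    Tendsto (fun i => ∫ x, φ x ∂(μs i : Measure unitInterval)) l (𝓝 (∫ x, φ x ∂(μ : Measure unitInterval))) :=
  ((FiniteMeasure.continuous_integral_continuousMap φ).tendsto μ).comp h

lemma ident (h3 : S_RZ) {α : ℝ} (hα : 0 < α) {Λ : (ℝ → ℝ) → Om → ℝ} (hΛ : Lim1 α Λ)
    {M : Om → FiniteMeasure unitInterval} (hM : ∀ᵐ w ∂PO, Tendsto (fun z : ℕ => fm (rz α z w)) atTop (𝓝 (M w)))
    (φ : C(unitInterval, ℝ)) :
    ∀ᵐ w ∂PO, ∫ x, φ x ∂(M w : Measure unitInterval) = Λ (ex φ) w := by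
  have hc : ∀ z w, Continuous (rz α z w) := fun z w => rz_cont1 h3 hα z w
  refine lim_unique (X := fun z w => ∫ x in (0:ℝ)..1, ex φ x * rz α z w x) ?_ (hΛ _ (ex_cont φ)).2.1
    (hΛ _ (ex_cont φ)).2.2.2 ?_
  · intro z
    have e : (fun w => ∫ x in (0:ℝ)..1, ex φ x * rz α z w x) = fun w => LAM.Psi α (ex φ) z (fun p : Sm z => w p) := by
      funext w
      exact LAM.Psi_rz h3 hα (ex φ) z w
    show Integrable (fun w => ∫ x in (0:ℝ)..1, ex φ x * rz α z w x) PO
    rw [e]
    exact LAM.Psi_integrable α (ex_cont φ) z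
  · filter_upwards [hM] with w hw
    have h := int_tendsto hw φ
    refine h.congr fun z => ?_
    exact fm_int (hc z w) (rz_nonneg h3 hα z w) φ

/-! ### approximation on the compact sets of measures -/

/-- integrals of functions as functions on a set of measures -/
noncomputable def ev (K : Set (FiniteMeasure unitInterval)) (φ : C(unitInterval, ℝ)) : C(K, ℝ) :=
  ⟨fun μ => ∫ x, φ x ∂((μ : FiniteMeasure unitInterval) : Measure unitInterval),
    (FiniteMeasure.continuous_integral_continuousMap φ).comp continuous_subtype_val⟩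

/-- continuous functions of finitely many integrals -/
def Rep (K : Set (FiniteMeasure unitInterval)) (a : C(K, ℝ)) : Prop :=
  ∃ (n : ℕ) (φ : Fin n → C(unitInterval, ℝ)) (g : (Fin n → ℝ) → ℝ), Continuous g ∧
    ∀ μ : K, a μ = g (fun j => ∫ x, φ j x ∂((μ : FiniteMeasure unitInterval) : Measure unitInterval))

lemma rep_adj (K : Set (FiniteMeasure unitInterval)) (a : C(K, ℝ))
    (ha : a ∈ Algebra.adjoin ℝ (Set.range (ev K))) : Rep K a := by
  induction ha using Algebra.adjoin_induction with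
  | mem x hx =>
    obtain ⟨φ, rfl⟩ := hx
    exact ⟨1, fun _ => φ, fun y => y 0, continuous_apply 0, fun μ => rfl⟩
  | algebraMap r => exact ⟨0, fun j => j.elim0, fun _ => r, continuous_const, fun μ => rfl⟩
  | add x y _ _ hx hy =>
    obtain ⟨n1, φ1, g1, c1, e1⟩ := hx
    obtain ⟨n2, φ2, g2, c2, e2⟩ := hy
    refine ⟨n1 + n2, Fin.append φ1 φ2, fun y => g1 (fun i => y (Fin.castAdd n2 i)) + g2 (fun i => y (Fin.natAdd n1 i)),
      by fun_prop, fun μ => ?_⟩
    rw [ContinuousMap.add_apply, e1, e2]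
    simp only [Fin.append_left, Fin.append_right]
  | mul x y _ _ hx hy =>
    obtain ⟨n1, φ1, g1, c1, e1⟩ := hx
    obtain ⟨n2, φ2, g2, c2, e2⟩ := hy
    refine ⟨n1 + n2, Fin.append φ1 φ2, fun y => g1 (fun i => y (Fin.castAdd n2 i)) * g2 (fun i => y (Fin.natAdd n1 i)),
      by fun_prop, fun μ => ?_⟩
    rw [ContinuousMap.mul_apply, e1, e2]
    simp only [Fin.append_left, Fin.append_right]

lemma sep (K : Set (FiniteMeasure unitInterval)) : (Algebra.adjoin ℝ (Set.range (ev K))).SeparatesPoints := by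
  intro μ ν hne
  by_contra hcon
  apply hne
  refine Subtype.ext (Subtype.ext ?_)
  show ((μ : FiniteMeasure unitInterval) : Measure unitInterval) =
    ((ν : FiniteMeasure unitInterval) : Measure unitInterval)
  refine ext_of_forall_integral_eq_of_IsFiniteMeasure fun f => ?_
  by_contra hf
  refine hcon ⟨_, ⟨ev K f.toContinuousMap, Algebra.subset_adjoin ⟨_, rfl⟩, rfl⟩, ?_⟩
  exact hf

/-- clamping -/
lemma clamp_le {B a b : ℝ} (ha : |a| ≤ B) : |a - max (-B) (min B b)| ≤ |a - b| := by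
  have h := abs_le.1 ha
  rcases le_total B b with h1 | h1
  · rw [min_eq_left h1, max_eq_right (by linarith), abs_of_nonpos (by linarith), abs_of_nonpos (by linarith)]
    linarith
  · rw [min_eq_right h1]
    rcases le_total (-B) b with h2 | h2
    · rw [max_eq_right h2]
    · rw [max_eq_left h2, abs_of_nonneg (by linarith), abs_of_nonneg (by linarith)]
      linarith

lemma mass_eq (μ : FiniteMeasure unitInterval) :
    (μ.mass : ℝ) = ∫ x, (1 : C(unitInterval, ℝ)) x ∂(μ : Measure unitInterval) := by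
  simp only [ContinuousMap.one_apply, integral_const, smul_eq_mul, mul_one]
  rw [Measure.real, ← FiniteMeasure.ennreal_mass, ENNReal.coe_toReal]

lemma approx (G : BoundedContinuousFunction (FiniteMeasure unitInterval) ℝ) {B : ℝ} (hB0 : 0 < B)
    (hB : ∀ μ, |G μ| ≤ B) {R : ℝ} (hR : 0 < R) {ε : ℝ} (hε : 0 < ε) :
    ∃ (n : ℕ) (φ : Fin n → C(unitInterval, ℝ)) (g : BoundedContinuousFunction (Fin n → ℝ) ℝ),
      (∀ y, |g y| ≤ B) ∧ ∀ μ : FiniteMeasure unitInterval,
        |G μ - g (fun j => ∫ x, φ j x ∂(μ : Measure unitInterval))| ≤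
          ε + 2 * B / R * ∫ x, (1 : C(unitInterval, ℝ)) x ∂(μ : Measure unitInterval) := by
  set K : Set (FiniteMeasure unitInterval) := {μ | μ.mass ≤ R.toNNReal} with hK
  have hKc : IsCompact K := isCompact_setOfPred_finiteMeasure_le_of_compactSpace unitInterval _
  have : CompactSpace K := isCompact_iff_compactSpace.1 hKc
  obtain ⟨⟨a, ha⟩, haε⟩ := ContinuousMap.exists_mem_subalgebra_near_continuousMap_of_separatesPoints
    (Algebra.adjoin ℝ (Set.range (ev K))) (sep K) (G.toContinuousMap.restrict K) ε hε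
  obtain ⟨n, φ, g, hg, hag⟩ := rep_adj K a ha
  have hgb : ∀ y, ‖max (-B) (min B (g y))‖ ≤ B := by
    intro y
    rw [Real.norm_eq_abs, abs_le]
    exact ⟨le_max_left _ _, max_le (by linarith) (min_le_left _ _)⟩
  refine ⟨n, φ, BoundedContinuousFunction.ofNormedAddCommGroup (fun y => max (-B) (min B (g y))) (by fun_prop) B hgb,
    hgb, fun μ => ?_⟩
  have hm0 : 0 ≤ (μ.mass : ℝ) := NNReal.coe_nonneg _
  rw [← mass_eq]
  have e : ∀ y, (BoundedContinuousFunction.ofNormedAddCommGroup (fun y => max (-B) (min B (g y)))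
    (by fun_prop) B hgb) y = max (-B) (min B (g y)) := fun y => rfl
  rw [e]
  by_cases hμ : μ ∈ K
  · refine (clamp_le (hB μ)).trans ?_
    have h1 := (ContinuousMap.norm_lt_iff _ hε).1 haε ⟨μ, hμ⟩
    have h2 : (a - G.toContinuousMap.restrict K) ⟨μ, hμ⟩ = a ⟨μ, hμ⟩ - G μ := rfl
    change ‖(a - G.toContinuousMap.restrict K) ⟨μ, hμ⟩‖ < ε at h1
    rw [h2, hag, Real.norm_eq_abs, abs_sub_comm] at h1
    have h3 : 0 ≤ 2 * B / R * (μ.mass : ℝ) := by positivity
    linarith
  · have h1 : R < (μ.mass : ℝ) := by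
      rw [hK] at hμ
      simp only [Set.mem_ofPred_eq, not_le] at hμ
      exact (Real.toNNReal_lt_iff_lt_coe hR.le).1 hμ
    have h2 := abs_sub (G μ) (max (-B) (min B (g (fun j => ∫ x, φ j x ∂(μ : Measure unitInterval)))))
    have h3 := hB μ
    have h4 := hgb (fun j => ∫ x, φ j x ∂(μ : Measure unitInterval))
    rw [Real.norm_eq_abs] at h4
    have h5 : 2 * B ≤ 2 * B / R * (μ.mass : ℝ) := by
      rw [div_mul_eq_mul_div, le_div_iff₀ hR]
      exact mul_le_mul_of_nonneg_left h1.le (by linarith)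
    linarith

/-! ### averages -/

lemma avg_le {T : ℝ} (hT : 0 < T) {a b m : ℝ → ℝ} (ha : Continuous a) (hb : Continuous b) (hm : Continuous m)
    {ε c : ℝ} (h : ∀ t, |a t - b t| ≤ ε + c * m t) :
    |(1 / T) * (∫ t in (0:ℝ)..T, a t) - (1 / T) * ∫ t in (0:ℝ)..T, b t| ≤
      ε + c * ((1 / T) * ∫ t in (0:ℝ)..T, m t) := by
  have ia := ha.intervalIntegrable (μ := volume) 0 T
  have ib := hb.intervalIntegrable (μ := volume) 0 T
  have im := hm.intervalIntegrable (μ := volume) 0 T
  rw [← mul_sub, abs_mul, abs_of_pos (by positivity), ← intervalIntegral.integral_sub ia ib]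
  have s1 : |∫ t in (0:ℝ)..T, (a t - b t)| ≤ ∫ t in (0:ℝ)..T, (ε + c * m t) := by
    refine (intervalIntegral.abs_integral_le_integral_abs hT.le).trans ?_
    refine intervalIntegral.integral_mono_on hT.le ?_ ?_ ?_
    · exact (ha.sub hb).abs.intervalIntegrable _ _
    · exact (continuous_const.add (continuous_const.mul hm)).intervalIntegrable _ _
    · intro t _
      exact h t
  have s2 : ∫ t in (0:ℝ)..T, (ε + c * m t) = T * ε + c * ∫ t in (0:ℝ)..T, m t := by
    rw [intervalIntegral.integral_add (f := fun _ => ε) (g := fun t => c * m t)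
      (continuous_const.intervalIntegrable _ _) ((continuous_const.mul hm).intervalIntegrable _ _),
      intervalIntegral.integral_const, intervalIntegral.integral_const_mul, sub_zero, smul_eq_mul]
  rw [s2] at s1
  calc 1 / T * |∫ t in (0:ℝ)..T, (a t - b t)| ≤ 1 / T * (T * ε + c * ∫ t in (0:ℝ)..T, m t) :=
        mul_le_mul_of_nonneg_left s1 (by positivity)
    _ = ε + c * ((1 / T) * ∫ t in (0:ℝ)..T, m t) := by field_simp

lemma ex_one (x : ℝ) : ex 1 x = 1 := rfl

/-- (RM) -/
theorem main (h1 : S_CORE) (h2 : S_ERG) (h3 : S_RZ) : S_RM := by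
  intro α ha0 ha1 M hM δ hδ G
  obtain ⟨Λ, hΛ⟩ := LAM.main h1 h2 h3 α ha0 ha1
  obtain ⟨B, hB0, hB⟩ : ∃ B : ℝ, 0 < B ∧ ∀ μ, |G μ| ≤ B :=
    ⟨‖G‖ + 1, by positivity, fun μ => (G.norm_coe_le_norm μ).trans (by linarith)⟩
  have hmeas : AEStronglyMeasurable (fun w => G (M w)) PO := by
    refine aestronglyMeasurable_of_tendsto_ae atTop (f := fun z w => G (fm (rz α z w))) ?_ ?_
    · intro z
      exact (G.continuous.comp (fm_cont (rz_cont h3 ha0 z) (rz_nonneg h3 ha0 z))).aestronglyMeasurable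
    · filter_upwards [hM] with w hw
      exact (G.continuous.tendsto _).comp hw
  have hint : Integrable (fun w => G (M w)) PO :=
    Integrable.of_bound hmeas B (Eventually.of_forall fun w => hB _)
  refine ⟨hint, ?_⟩
  rw [Metric.tendsto_nhds]
  intro η hη
  set R : ℝ := 16 * B / η with hR
  have hR0 : 0 < R := by positivity
  have hRη : 2 * B / R = η / 8 := by
    rw [hR]; field_simp; norm_num
  obtain ⟨n, φ, g, hgB, hg⟩ := approx G hB0 hB hR0 (ε := η / 8) (by positivity)
  rw [hRη] at hg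
  -- the random side
  have hid : ∀ᵐ w ∂PO, ∀ j, ∫ x, φ j x ∂(M w : Measure unitInterval) = Λ (ex (φ j)) w := by
    rw [ae_all_iff]
    intro j
    exact ident h3 ha0 hΛ hM (φ j)
  have hid1 := ident h3 ha0 hΛ hM 1
  have hmW : Measurable fun w : Om => (fun j => Λ (ex (φ j)) w) :=
    measurable_pi_lambda _ fun j => (hΛ _ (ex_cont _)).1
  have iW : Integrable (fun w => g (fun j => Λ (ex (φ j)) w)) PO :=
    Integrable.of_bound (g.continuous.measurable.comp hmW).aestronglyMeasurable B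
      (Eventually.of_forall fun w => hgB _)
  have hΛ1 := hΛ (ex 1) (ex_cont 1)
  have m1 : ∫ w, Λ (ex 1) w ∂PO = 1 := by
    rw [hΛ1.2.2.1]
    simp [ex_one]
  have hrand : |(∫ w, G (M w) ∂PO) - ∫ w, g (fun j => Λ (ex (φ j)) w) ∂PO| ≤ η / 4 := by
    rw [← integral_sub hint iW]
    refine (abs_integral_le_integral_abs).trans ?_
    have s1 : ∫ w, |G (M w) - g (fun j => Λ (ex (φ j)) w)| ∂PO ≤ ∫ w, (η / 8 + η / 8 * Λ (ex 1) w) ∂PO := by
      refine integral_mono_ae (hint.sub iW).abs ((integrable_const _).add (hΛ1.2.1.const_mul _)) ?_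
      filter_upwards [hid, hid1] with w hw hw1
      have h := hg (M w)
      simp_rw [hw] at h
      rw [hw1] at h
      exact h
    rw [integral_add (integrable_const _) (hΛ1.2.1.const_mul _), integral_const_mul, m1] at s1
    simp only [integral_const, smul_eq_mul, probReal_univ, one_mul, mul_one] at s1
    linarith
  -- the middle
  have hdis := DIS.main h1 h2 h3 α ha0 ha1 Λ hΛ δ hδ n (fun j => ex (φ j)) (fun j => ex_cont _) g
  rw [Metric.tendsto_nhds] at hdis
  have hd := hdis (η / 8) (by positivity)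
  -- the masses
  have hw := (DISL.wass h1 h2 h3 α ha0 ha1 Λ hΛ δ hδ (n := 1) (fun _ => ex 1) (fun _ => ex_cont _)
    (fun y => y 0) 1 (LipschitzWith.eval 0)).2
  rw [m1] at hw
  have hmass := hw.eventually (Iio_mem_nhds (show (1:ℝ) < 2 by norm_num))
  have e1 : ∀ᶠ T : ℝ in atTop, δ T ≤ 1 / 16 := hδ.t0.eventually (Iic_mem_nhds (by norm_num))
  have e2 : ∀ᶠ T : ℝ in atTop, 1 ≤ δ T * Real.log T := hδ.tL.eventually_ge_atTop 1
  filter_upwards [hd, hmass, e1, e2, eventually_gt_atTop (1:ℝ)] with T c1 c4 c2 c3 c5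
  have hT0 : (0:ℝ) < T := by linarith
  have hlog : 0 < Real.log T := Real.log_pos c5
  have hδpos : 0 < δ T := by
    by_contra hcon
    push Not at hcon
    nlinarith
  have hZ := DIS.Zn_cont α (δ T) ha0 hδpos c2
  have hZt : ∀ t : ℝ, Continuous fun x : ℝ => Zn α (δ T) (t + x) := fun t => hZ.comp (continuous_const.add continuous_id)
  have hν : Continuous fun t : ℝ => fm fun x => Zn α (δ T) (t + x) := by
    refine fm_cont (h := fun t x => Zn α (δ T) (t + x)) ?_ (fun t x => Zn_nonneg _ _ _ hδpos)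
    have e : (Function.uncurry fun t x => Zn α (δ T) (t + x)) = Zn α (δ T) ∘ fun q : ℝ × ℝ => q.1 + q.2 := rfl
    rw [e]
    exact Continuous.comp hZ (continuous_fst.add continuous_snd)
  have hV : Continuous fun t : ℝ => (fun j => ∫ x in (0:ℝ)..1, ex (φ j) x * Zn α (δ T) (t + x)) :=
    continuous_pi fun j => DIS.win_cont (ex_cont _) hZ
  have hm : Continuous fun t : ℝ => ∫ x in (0:ℝ)..1, ex 1 x * Zn α (δ T) (t + x) := DIS.win_cont (ex_cont _) hZ
  have ca : Continuous fun t : ℝ => G (fm fun x => Zn α (δ T) (t + x)) := G.continuous.comp hν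
  have cb : Continuous fun t : ℝ => g (fun j => ∫ x in (0:ℝ)..1, ex (φ j) x * Zn α (δ T) (t + x)) :=
    g.continuous.comp hV
  have hpt : ∀ t : ℝ, |G (fm fun x => Zn α (δ T) (t + x)) -
      g (fun j => ∫ x in (0:ℝ)..1, ex (φ j) x * Zn α (δ T) (t + x))| ≤
      η / 8 + η / 8 * ∫ x in (0:ℝ)..1, ex 1 x * Zn α (δ T) (t + x) := by
    intro t
    have hn : ∀ x, 0 ≤ Zn α (δ T) (t + x) := fun x => Zn_nonneg _ _ _ hδpos
    have h := hg (fm fun x => Zn α (δ T) (t + x))
    have e1 := fm_int (hZt t) hn 1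
    have e2 : (fun j => ∫ x, φ j x ∂((fm fun x => Zn α (δ T) (t + x) : FiniteMeasure unitInterval) :
        Measure unitInterval)) = fun j => ∫ x in (0:ℝ)..1, ex (φ j) x * Zn α (δ T) (t + x) := by
      funext j
      exact fm_int (hZt t) hn (φ j)
    rw [e1, e2] at h
    exact h
  have hT1 := avg_le hT0 ca cb hm hpt
  rw [Real.dist_eq] at c1
  rw [Real.dist_eq]
  have c4' : 1 / T * ∫ t in (0:ℝ)..T, ∫ x in (0:ℝ)..1, ex 1 x * Zn α (δ T) (t + x) < 2 := c4
  have t1 := abs_le.mp hT1
  have t2 := abs_lt.mp c1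
  have t3 := abs_le.mp hrand
  have t4 : η / 8 * (1 / T * ∫ t in (0:ℝ)..T, ∫ x in (0:ℝ)..1, ex 1 x * Zn α (δ T) (t + x)) ≤ η / 8 * 2 :=
    mul_le_mul_of_nonneg_left c4'.le (by positivity)
  rw [abs_lt]
  constructor <;> linarith [t1.1, t1.2, t2.1, t2.2, t3.1, t3.2]

end Pool.Agent.N748.GC.RM
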