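import Pool.Agent.N748.GC.Lk

set_option autoImplicit false

/-! Products over the blocks at two points. -/

namespace Pool.Agent.N748.GC

open Finset Filter MeasureTheory MonoidAlgebra Topology Complex
open Pool.Agent.Y755 Pool.Agent.W184.NZ

lemma Mo_iff {I : Finset ℕ} {n : ℕ} : Mo I n ↔ n ∈ M1 I := Iff.rfl

/-- polynomials composed of the primes of `I` -/
def SC (I : Finset ℕ) : Subalgebra ℂ PC where
  carrier := {f | ∀ x ∈ f.coeff.support, x ∈ M1 I}
  mul_mem' {f g} hf hg := by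
    classical
    intro x hx
    have := support_coeff_mul_subset f g hx
    rw [Finset.mem_mul] at this
    obtain ⟨y, hy, z, hz, rfl⟩ := this
    exact (M1 I).mul_mem (hf y hy) (hg z hz)
  add_mem' {f g} hf hg := by
    classical
    intro x hx
    rw [coeff_add] at hx
    have := Finsupp.support_add hx
    rw [Finset.mem_union] at this
    exact this.elim (hf x) (hg x)
  algebraMap_mem' r := by
    intro x hx
    rw [Algebra.algebraMap_eq_smul_one, MonoidAlgebra.one_def, MonoidAlgebra.smul_single,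
      coeff_single] at hx
    have := Finsupp.support_single_subset hx
    rw [Finset.mem_singleton] at this
    rw [this]; exact (M1 I).one_mem

lemma mem_SC {I : Finset ℕ} {f : PC} : f ∈ SC I ↔ ∀ x ∈ f.coeff.support, x ∈ M1 I := Iff.rfl

lemma single_SC {I : Finset ℕ} {x : ℕ} (hx : x ∈ M1 I) (c : ℂ) : (single x c : PC) ∈ SC I := by
  intro y hy
  rw [coeff_single] at hy
  have := Finsupp.support_single_subset hy
  rw [Finset.mem_singleton] at this
  rw [this]; exact hx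

lemma SC_mono {I J : Finset ℕ} (h : I ⊆ J) {f : PC} (hf : f ∈ SC I) : f ∈ SC J :=
  fun x hx => M1_mono h (hf x hx)

lemma cx_SC {I : Finset ℕ} {f : P1} (hf : f ∈ SA1 (M1 I)) : cx f ∈ SC I := by
  intro x hx
  rw [cx_supp] at hx
  exact hf x hx

lemma sf_single (h : ℝ) (n : ℕ) (c : ℂ) : sf h (single n c) = single n (c * (n:ℂ) ^ (-(h * I))) := by
  unfold sf
  rw [MonoidAlgebra.lift_single]
  show c • (single n ((n:ℂ) ^ (-(h * I))) : PC) = _
  rw [MonoidAlgebra.smul_single, smul_eq_mul]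

lemma PC_sum (f : PC) : f = ∑ n ∈ f.coeff.support, single n (f.coeff n) := by
  apply MonoidAlgebra.ext
  ext n
  simp only [MonoidAlgebra.coeff_sum, Finsupp.coe_finset_sum, Finset.sum_apply, MonoidAlgebra.coeff_single]
  simp_rw [Finsupp.single_apply]
  rw [sum_ite_eq']
  split_ifs with h
  · rfl
  · exact Finsupp.notMem_support_iff.mp h

lemma sf_coeff (h : ℝ) (f : PC) (n : ℕ) : (sf h f).coeff n = f.coeff n * (n:ℂ) ^ (-(h * I)) := by
  conv_lhs => rw [PC_sum f, map_sum]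
  simp_rw [sf_single]
  simp only [MonoidAlgebra.coeff_sum, Finsupp.coe_finset_sum, Finset.sum_apply, MonoidAlgebra.coeff_single]
  simp_rw [Finsupp.single_apply]
  rw [sum_ite_eq']
  split_ifs with h
  · rfl
  · rw [Finsupp.notMem_support_iff.mp h, zero_mul]

lemma sf_supp (h : ℝ) (f : PC) : (sf h f).coeff.support ⊆ f.coeff.support := by
  intro n hn
  rw [Finsupp.mem_support_iff, sf_coeff] at hn
  rw [Finsupp.mem_support_iff]
  exact left_ne_zero_of_mul hn

lemma sf_SC {I : Finset ℕ} {f : PC} (hf : f ∈ SC I) (h : ℝ) : sf h f ∈ SC I :=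
  fun x hx => hf x (sf_supp h f hx)

lemma nn_nonneg (δ : ℝ) (f : PC) : 0 ≤ nn δ f :=
  sum_nonneg fun n _ => mul_nonneg (sq_nonneg _) (wδ_nonneg δ n)

lemma nn_one (δ : ℝ) : nn δ 1 = 1 := by
  have : (1 : PC) = cx 1 := (map_one cx).symm
  rw [this, nn_cx, ip_one]

lemma norm_cpow_I {n : ℕ} (hn : n ≠ 0) (h : ℝ) : ‖(n:ℂ) ^ (-(h * I))‖ = 1 := by
  rw [Complex.norm_natCast_cpow_of_pos (Nat.pos_of_ne_zero hn)]
  simp

/-- disjoint blocks -/
lemma nn_prod (hN : S_NN) (δ : ℝ) (I : ℕ → Finset ℕ) (hd : ∀ i j, i < j → Disjoint (I i) (I j)) (f : ℕ → PC)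
    (hf : ∀ i, f i ∈ SC (I i)) (J : ℕ) : nn δ (∏ i ∈ range J, f i) = ∏ i ∈ range J, nn δ (f i) := by
  induction J with
  | zero => simp [nn_one]
  | succ J ih =>
    rw [prod_range_succ, prod_range_succ, ← ih]
    refine hN δ ((range J).biUnion I) (I J) ?_ _ _ ?_ (hf J)
    · rw [disjoint_biUnion_left]
      intro i hi
      exact hd i J (mem_range.mp hi)
    · have : ∏ i ∈ range J, f i ∈ SC ((range J).biUnion I) :=
        Subalgebra.prod_mem _ fun i hi => SC_mono (subset_biUnion_of_mem I hi) (hf i)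
      exact this

/-- products of truncated exponentials with variable exponents -/
noncomputable def Bp (a : ℕ → ℝ) (z : ℕ) (y : ℝ) (J Rs : ℕ) : P1 :=
  ∏ i ∈ range J, NK (20 * RR Rs i) (a i) (x1 (IZ z y i))

lemma Bp_Bz (α : ℝ) (z : ℕ) (y : ℝ) (J Rs : ℕ) : Bp (fun _ => α) z y J Rs = Bz α z y J Rs ∅ := by
  unfold Bp Bz BS
  refine prod_congr rfl fun i _ => ?_
  unfold bs
  rw [if_neg (notMem_empty i)]

/-- the bound for the mean squares at two points -/
theorem two_nn (hN : S_NN) (hB : S_BLK) {c : ℝ} (hc : 0 ≤ c) : ∃ C : ℝ, 0 ≤ C ∧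
    ∀ (z J Rs N K : ℕ) (y : ℝ), Sy c z y J Rs N K → ∀ δ : ℝ, 0 ≤ δ → ∀ a b : ℕ → ℝ,
    (∀ i, 0 ≤ a i ∧ a i ≤ 2) → (∀ i, 0 ≤ b i ∧ b i ≤ 2) → ∀ h : ℝ,
    nn δ (cx (Bp a z y J Rs) * sf h (cx (Bp b z y J Rs))) ≤
      Real.exp ((∑ i ∈ range J, ∑ p ∈ IZ z y i, (a i ^ 2 + b i ^ 2 + 2 * a i * b i * Real.cos (h * Real.log p)) * wd δ p) +
        C * Real.exp (-(2 * (Rs:ℝ)))) := by
  obtain ⟨C, hC, hbl⟩ := hB c hc
  refine ⟨4 * C, by positivity, fun z J Rs N K y hS δ hδ a b ha hb h => ?_⟩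
  have e1 : cx (Bp a z y J Rs) * sf h (cx (Bp b z y J Rs)) =
      ∏ i ∈ range J, (NKc (20 * RR Rs i) (a i) (xc (IZ z y i)) * sf h (NKc (20 * RR Rs i) (b i) (xc (IZ z y i)))) := by
    unfold Bp
    rw [map_prod, map_prod, map_prod, ← prod_mul_distrib]
    refine prod_congr rfl fun i _ => ?_
    rw [cx_NK, cx_NK, cx_x1]
  have hmem : ∀ (i : ℕ) (a : ℝ), NKc (20 * RR Rs i) a (xc (IZ z y i)) ∈ SC (IZ z y i) := by
    intro i a
    rw [← cx_x1, ← cx_NK]
    exact cx_SC (NK_mem1 (x1_mem (IZ_prime i)) _ _)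
  rw [e1, nn_prod hN δ (IZ z y) hS.rg.dj _ fun i => Subalgebra.mul_mem _ (hmem i _) (sf_SC (hmem i _) h)]
  have h1 : ∀ i ∈ range J, nn δ (NKc (20 * RR Rs i) (a i) (xc (IZ z y i)) *
      sf h (NKc (20 * RR Rs i) (b i) (xc (IZ z y i)))) ≤
      Real.exp ((∑ p ∈ IZ z y i, (a i ^ 2 + b i ^ 2 + 2 * a i * b i * Real.cos (h * Real.log p)) * wd δ p) +
        2 * C * Real.exp (-(RR Rs i : ℝ))) := by
    intro i hi
    have hR : 1 ≤ RR Rs i := by have := hS.R1; unfold RR; omega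
    refine (hbl (IZ z y i) (RR Rs i) δ h (a i) (b i) (IZ_prime i) (hS.rg.v i (mem_range.mp hi)) hR hδ (ha i).1 (ha i).2
      (hb i).1 (hb i).2).trans ?_
    rw [Real.exp_add]
    refine mul_le_mul_of_nonneg_left ?_ (Real.exp_pos _).le
    have h2 := Real.add_one_le_exp (C * Real.exp (-(RR Rs i : ℝ)))
    have h3 : 0 ≤ C * Real.exp (-(RR Rs i : ℝ)) := by positivity
    calc (1 + C * Real.exp (-(RR Rs i : ℝ))) ^ 2 ≤ (Real.exp (C * Real.exp (-(RR Rs i : ℝ)))) ^ 2 := by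
          refine pow_le_pow_left₀ (by linarith) (by linarith) 2
      _ = _ := by rw [← Real.exp_nat_mul]; congr 1; push_cast; ring
  refine (prod_le_prod (fun i _ => nn_nonneg _ _) h1).trans ?_
  rw [← Real.exp_sum, sum_add_distrib, ← mul_sum]
  refine Real.exp_le_exp.mpr (add_le_add le_rfl ?_)
  have h4 := sum_exp_two J Rs
  nlinarith

end Pool.Agent.N748.GC
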