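import Pool.Agent.N748.GC.L1
import Pool.Agent.N748.GC.Tw
import Pool.Agent.N748.GC.Cfa
import Pool.Agent.N748.GC.MV
import Pool.Agent.N748.GC.EQ
import Pool.Agent.N748.GC.QC

set_option autoImplicit false

/-! The weights of the comparison polynomials satisfy the assumptions of the assembly. -/

namespace Pool.Agent.N748.GC

open Finset Filter MeasureTheory MonoidAlgebra Topology Complex
open Pool.Agent.Y755 Pool.Agent.W184.NZ
open Pool.Agent.Y753.NL (Cf)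

lemma be_eq (y : ℝ) (i : ℕ) : be y i = bb y i := rfl

lemma IB_eq (z : ℕ) (y : ℝ) (i : ℕ) : IB z y i = IZ z y i := rfl

lemma BP_eq (a : ℕ → ℝ) (z : ℕ) (y : ℝ) (J Rs : ℕ) : BP a z y 0 J Rs = cx (Bp a z y J Rs) := by
  unfold BP Bp
  rw [map_prod, ← range_eq_Ico]
  refine prod_congr rfl fun i _ => ?_
  rw [cx_NK, cx_x1, IB_eq]
  rfl

lemma wd_rp {δ : ℝ} {p : ℕ} (hp : p.Prime) : wd δ p = rp δ p ^ 2 := by
  have := wδ_pow δ hp 1
  rw [pow_one, pow_one] at this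
  exact this

lemma VB_eq (δ : ℝ) (z : ℕ) (y : ℝ) (J : ℕ) : VB δ z y 0 J = Vd δ z y J := by
  unfold VB Vd vd
  rw [← range_eq_Ico]
  refine sum_congr rfl fun i _ => sum_congr rfl fun p hp => wd_rp (IZ_prime i p hp)

/-- admissible parameters from the library -/
lemma SB_of {c : ℝ} {z Rs : ℕ} {yf : ℝ → ℝ} {Jf : ℝ → ℕ} (h1 : 1000 ≤ z) (h2 : 1 ≤ Rs)
    (h : ∀ᶠ T : ℝ in atTop, (∃ N K : ℕ, Sy c z (yf T) (Jf T) Rs N K) ∧
      Real.exp (Real.log (yf T) * (180 * ((Rs:ℝ) + 1))) ≤ T ^ ((1:ℝ) / 50)) :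
    SB c z Rs (fun X => yf (2 * (X + 1))) (fun X => Jf (2 * (X + 1))) where
  zz := h1
  R1 := h2
  ev := by
    have ht : Tendsto (fun X : ℝ => 2 * (X + 1)) atTop atTop :=
      (tendsto_atTop_add_const_right _ _ tendsto_id).const_mul_atTop (by norm_num)
    filter_upwards [ht.eventually h] with X hX
    obtain ⟨⟨N, K, hS⟩, hX2⟩ := hX
    exact ⟨hS.zy, hS.J1, fun i hi => ⟨hS.rg.b10 i hi, hS.rg.v i hi⟩, hX2⟩

lemma BP_ne (a : ℕ → ℝ) (z : ℕ) (y : ℝ) (j J Rs : ℕ) : ∀ n ∈ (BP a z y j J Rs).coeff.support, n ≠ 0 := by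
  have : BP a z y j J Rs ∈ SC ((Ico j J).biUnion (IZ z y)) := by
    unfold BP
    refine Subalgebra.prod_mem _ fun i hi => ?_
    rw [IB_eq, ← cx_x1]
    have h2 : NKc (20 * RB Rs i) (a i) (cx (x1 (IZ z y i))) = cx (NK (20 * RB Rs i) (a i) (x1 (IZ z y i))) :=
      (cx_NK _ _ _).symm
    rw [h2]
    exact SC_mono (subset_biUnion_of_mem (IZ z y) hi) (cx_SC (NK_mem1 (x1_mem (IZ_prime i)) _ _))
  intro n hn
  exact (this n hn).1

lemma ec_cont {D : PC} (hD : ∀ n ∈ D.coeff.support, n ≠ 0) (s : ℂ) : Continuous fun u : ℝ => ec (s + u * I) D := by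
  have : (fun u : ℝ => ec (s + u * I) D) = fun u : ℝ => ∑ n ∈ D.coeff.support, D.coeff n * (n:ℂ) ^ (-(s + u * I)) := by
    funext u
    exact MV.ec_apply _ _
  rw [this]
  refine continuous_finsetSum _ fun n hn => continuous_const.mul ?_
  have h0 : (n:ℂ) ≠ 0 := by exact_mod_cast hD n hn
  exact Continuous.const_cpow (by fun_prop) (Or.inl h0)

lemma WB_cont (α : ℝ) (z Rs : ℕ) (yf : ℝ → ℝ) (Jf : ℝ → ℕ) (X δ : ℝ) : Continuous (WB α z Rs yf Jf X δ) := by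
  unfold WB
  exact ((ec_cont (BP_ne _ _ _ _ _ _) (1 / 2 + δ)).norm.pow 2).div_const _

lemma WB_nonneg (α : ℝ) (z Rs : ℕ) (yf : ℝ → ℝ) (Jf : ℝ → ℕ) (X δ u : ℝ) : 0 ≤ WB α z Rs yf Jf X δ u := by
  unfold WB
  positivity

lemma xc_ne (z : ℕ) (y : ℝ) (i : ℕ) : ∀ n ∈ (xc (IB z y i)).coeff.support, n ≠ 0 := by
  have : xc (IB z y i) ∈ SC (IZ z y i) := by
    rw [IB_eq, ← cx_x1]
    exact cx_SC (x1_mem (IZ_prime i))
  intro n hn
  exact (this n hn).1

lemma Gd_meas (α A ε1 : ℝ) (z Rs : ℕ) (yf : ℝ → ℝ) (Jf : ℝ → ℕ) (X δ : ℝ) :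
    MeasurableSet {u : ℝ | Gd α A ε1 z Rs yf Jf X δ u} := by
  have e1 : {u : ℝ | Gd α A ε1 z Rs yf Jf X δ u} =
      (⋂ i ∈ Finset.range (Jf X), {u : ℝ | ‖ec (1 / 2 + δ + u * I) (xc (IB z (yf X) i))‖ ≤ RB Rs i}) ∩
      (⋂ j ∈ Finset.range (Jf X), {u : ℝ | (z:ℝ) ≤ be (yf X) j → δ * Real.log (be (yf X) j) ≤ 1 →
        ‖ec (1 / 2 + δ + u * I) (BP (fun _ => α) z (yf X) j (Jf X) Rs)‖ ^ 2 ≤
          A * Real.exp ((2 * α ^ 2 + ε1) * VB δ z (yf X) j (Jf X))}) := by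
    ext u
    simp only [Set.mem_setOf_eq, Set.mem_inter_iff, Set.mem_iInter, Finset.mem_range]
    rfl
  rw [e1]
  refine MeasurableSet.inter (Finset.measurableSet_biInter _ fun i _ => ?_) (Finset.measurableSet_biInter _ fun j _ => ?_)
  · exact (isClosed_le (ec_cont (xc_ne _ _ _) (1 / 2 + δ)).norm continuous_const).measurableSet
  · by_cases h1 : (z:ℝ) ≤ be (yf X) j
    · by_cases h2 : δ * Real.log (be (yf X) j) ≤ 1
      · simp only [h1, h2, forall_true_left]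
        exact (isClosed_le ((ec_cont (BP_ne _ _ _ _ _ _) (1 / 2 + δ)).norm.pow 2) continuous_const).measurableSet
      · simp only [h1, h2, forall_true_left, false_implies, Set.setOf_true, MeasurableSet.univ]
    · simp only [h1, false_implies, Set.setOf_true, MeasurableSet.univ]

lemma gB_meas (α A ε1 : ℝ) (z Rs : ℕ) (yf : ℝ → ℝ) (Jf : ℝ → ℕ) (X δ : ℝ) :
    Measurable (gB α A ε1 z Rs yf Jf X δ) := by
  unfold gB
  exact Measurable.ite (Gd_meas _ _ _ _ _ _ _ _ _) measurable_const measurable_const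

lemma Xl_small {η : ℝ} (hη : 0 < η) : ∀ᶠ X : ℝ in atTop, 0 ≤ Xl X ∧ Xl X ≤ η * X ∧ 1 ≤ X := by
  have h1 := (Pool.Agent.Y755.rpow_ev (p := 4 / 5) (q := 1) (by norm_num) (4 / η))
  filter_upwards [h1, eventually_ge_atTop 1] with X h2 h3
  have hX0 : 0 < X := by linarith
  refine ⟨by unfold Xl; positivity, ?_, h3⟩
  unfold Xl
  have h4 : (2 * (X + 1)) ^ ((4:ℝ) / 5) ≤ (4 * X) ^ ((4:ℝ) / 5) :=
    Real.rpow_le_rpow (by positivity) (by linarith) (by norm_num)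
  have h5 : (4 * X) ^ ((4:ℝ) / 5) ≤ 4 * X ^ ((4:ℝ) / 5) := by
    rw [Real.mul_rpow (by norm_num) hX0.le]
    have h6 : (4:ℝ) ^ ((4:ℝ)/5) ≤ 4 := by
      have := Real.rpow_le_rpow_of_exponent_le (show (1:ℝ) ≤ 4 by norm_num) (show (4:ℝ)/5 ≤ 1 by norm_num)
      rwa [Real.rpow_one] at this
    exact mul_le_mul_of_nonneg_right h6 (by positivity)
  rw [Real.rpow_one] at h2
  have h7 := mul_le_mul_of_nonneg_left h2 hη.le
  have e7 : η * (4 / η * X ^ ((4:ℝ) / 5)) = 4 * X ^ ((4:ℝ) / 5) := by field_simp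
  linarith

lemma Cop_one (P : Finset ℕ) (hP : ∀ p ∈ P, p.Prime) {N : ℝ} (hN : 1 ≤ N) : Cop P N 1 := by
  intro n hn
  rw [MonoidAlgebra.one_def, MonoidAlgebra.coeff_single] at hn
  have := Finsupp.support_single_subset hn
  rw [Finset.mem_singleton] at this
  subst this
  exact ⟨one_ne_zero, by simpa using hN, fun p hp h => (hP p hp).one_lt.ne' (Nat.dvd_one.mp h)⟩

lemma lc1_one' : lc1 (1 : PC) = 1 := by
  have : (1 : PC) = cx 1 := (map_one cx).symm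
  rw [this, lc1_cx, l1'_one]

/-- equidistribution of the small phases -/
lemma ts_zero (z : ℕ) (K : Type) [TopologicalSpace K] [CompactSpace K] (F : K × UnitAddTorus (Sm z) → ℝ)
    (hF : Continuous F) (η : ℝ) (hη : 0 < η) : ∀ᶠ X : ℝ in atTop, ∀ k : K,
    |(∫ t in Xl X..X, F (k, pt (Sm z) t)) - X * ∫ y, F (k, y) ∂(HP (Sm z))| ≤ X * η := by
  obtain ⟨B, hB0, hB⟩ : ∃ B : ℝ, 0 < B ∧ ∀ q, |F q| ≤ B := by
    obtain ⟨B, hB⟩ := isCompact_univ.exists_bound_of_continuousOn (f := F) hF.continuousOn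
    exact ⟨|B| + 1, by positivity, fun q => ((hB q (Set.mem_univ _)).trans (le_abs_self _)).trans (by linarith)⟩
  have hE := EQ.main MV.main (Sm z) (QC.Sm_prime z) K F hF (η / 4) (by positivity)
  filter_upwards [hE, Xl_small (η := η / (2 * B)) (by positivity), Xl_small (η := 1) one_pos] with X h1 h2 h3 k
  obtain ⟨h21, h22, hX1⟩ := h2
  have hX0 : 0 < X := by linarith
  have h4 := h1 (Xl X) h21 (by linarith [h3.2.1]) k 0 le_rfl 1
    (Cop_one _ (QC.Sm_prime z) (Real.one_le_rpow hX1 (by norm_num)))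
    (by rw [lc1_one']; exact Real.one_le_rpow hX1 (by norm_num))
  simp only [map_one, norm_one, one_pow, mul_one, nn_one] at h4
  have h5 : X ^ ((9:ℝ) / 10) ≤ X := by
    have := Real.rpow_le_rpow_of_exponent_le hX1 (show (9:ℝ)/10 ≤ 1 by norm_num)
    rwa [Real.rpow_one] at this
  have h6 : |∫ y, F (k, y) ∂(HP (Sm z))| ≤ B := by
    have := norm_integral_le_of_norm_le_const (μ := HP (Sm z)) (f := fun y => F (k, y)) (C := B)
      (Eventually.of_forall fun y => by rw [Real.norm_eq_abs]; exact hB _)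
    simpa using this
  set P := ∫ t in Xl X..X, F (k, pt (Sm z) t) with hP
  set Q := ∫ y, F (k, y) ∂(HP (Sm z)) with hQ
  have h7 : |Xl X * Q| ≤ X * (η / 2) := by
    rw [abs_mul, abs_of_nonneg h21]
    calc Xl X * |Q| ≤ (η / (2 * B) * X) * B := mul_le_mul h22 h6 (abs_nonneg _) (by positivity)
      _ = X * (η / 2) := by field_simp
  have e1 : P - X * Q = (P - (X - Xl X) * Q) - Xl X * Q := by ring
  rw [e1]
  refine (abs_sub _ _).trans ?_
  have h8 : η / 4 * (X + X ^ ((9:ℝ) / 10)) ≤ X * (η / 2) := by nlinarith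
  linarith

end Pool.Agent.N748.GC
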