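import Pool.Agent.N748.GC.Ts

set_option autoImplicit false

/-! The assumptions of the assembly. -/

namespace Pool.Agent.N748.GC

open Finset Filter MeasureTheory MonoidAlgebra Topology Complex
open Pool.Agent.Y755 Pool.Agent.W184.NZ

lemma one_sub_gB (α A ε1 : ℝ) (z Rs : ℕ) (yf : ℝ → ℝ) (Jf : ℝ → ℕ) (X δ u : ℝ) [Decidable (Gd1 z Rs yf Jf X δ u)]
    [Decidable (Gd1 z Rs yf Jf X δ u ∧ ¬ Gd2 α A ε1 z Rs yf Jf X δ u)] :
    1 - gB α A ε1 z Rs yf Jf X δ u = (if Gd1 z Rs yf Jf X δ u then (0:ℝ) else 1) +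
      (if Gd1 z Rs yf Jf X δ u ∧ ¬ Gd2 α A ε1 z Rs yf Jf X δ u then 1 else 0) := by
  unfold gB Gd
  by_cases h1 : Gd1 z Rs yf Jf X δ u <;> by_cases h2 : Gd2 α A ε1 z Rs yf Jf X δ u <;> simp [h1, h2]

lemma Gd1_meas (z Rs : ℕ) (yf : ℝ → ℝ) (Jf : ℝ → ℕ) (X δ : ℝ) :
    MeasurableSet {u : ℝ | Gd1 z Rs yf Jf X δ u} := by
  have e1 : {u : ℝ | Gd1 z Rs yf Jf X δ u} =
      (⋂ i ∈ Finset.range (Jf X), {u : ℝ | ‖ec (1 / 2 + δ + u * I) (xc (IB z (yf X) i))‖ ≤ RB Rs i}) := by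
    ext u
    simp only [Set.mem_setOf_eq, Set.mem_iInter, Finset.mem_range]
    rfl
  rw [e1]
  exact Finset.measurableSet_biInter _ fun i _ =>
    (isClosed_le (ec_cont (xc_ne _ _ _) (1 / 2 + δ)).norm continuous_const).measurableSet

lemma Gd1_eq (α A ε1 : ℝ) (z Rs : ℕ) (yf : ℝ → ℝ) (Jf : ℝ → ℕ) (X δ : ℝ) :
    {u : ℝ | Gd1 z Rs yf Jf X δ u ∧ ¬ Gd2 α A ε1 z Rs yf Jf X δ u} =
      {u : ℝ | Gd1 z Rs yf Jf X δ u} \ {u : ℝ | Gd α A ε1 z Rs yf Jf X δ u} := by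
  ext u
  simp only [Set.mem_setOf_eq, Set.mem_sdiff]
  unfold Gd
  tauto

theorem ts_ex (hONE : S_ONE) (hA : S_BADA) (hB : S_BADB) (hT : S_TWO) {α : ℝ} (h0 : 0 < α) (h1 : α < 1)
    {ε1 : ℝ} (hε : 0 < ε1) (hε1 : α ^ 2 + ε1 < 1) {κ : ℝ} (hκ : 0 < κ) (hκ1 : κ < 1) {c : ℝ} (hc : 0 ≤ c)
    {e : ℝ} (he : 0 < e) : ∃ A C : ℝ, 0 ≤ C ∧ ∃ z0 R0 : ℕ, ∀ z ≥ z0, ∀ Rs ≥ R0, ∀ (yf : ℝ → ℝ) (Jf : ℝ → ℕ),
    SB c z Rs yf Jf → ∃ δ1 : ℝ, 0 < δ1 ∧ ∀ lam δ0 : ℝ, 1 ≤ lam → δ0 ≤ δ1 →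
      TS C (α ^ 2 + ε1) κ e lam δ0 z (WB α z Rs yf Jf) (gB α A ε1 z Rs yf Jf) := by
  classical
  obtain ⟨A, hA1, zB, RB', hBB⟩ := hB α h0 h1 ε1 hε (by nlinarith [sq_nonneg α]) c hc (e / 2) (by linarith)
  obtain ⟨C, hC, hTT⟩ := hT α h0 h1 ε1 hε hε1 κ hκ hκ1 c hc A hA1
  obtain ⟨zT, RT, hTT⟩ := hTT e he
  obtain ⟨zA, RA, hAA⟩ := hA α h0 h1 c hc (e / 2) (by linarith)
  obtain ⟨zO, RO, hOO⟩ := hONE α h0 h1 c hc e he
  refine ⟨A, C, hC, zB + zT + zA + zO, RB' + RT + RA + RO, fun z hz Rs hRs yf Jf hS => ?_⟩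
  obtain ⟨δ1, hδ1, hTT⟩ := hTT z (by omega) Rs (by omega) yf Jf hS
  refine ⟨δ1, hδ1, fun lam δ0 hlam hδ0 => ?_⟩
  refine { W0 := WB_nonneg _ _ _ _ _, Wc := WB_cont _ _ _ _ _, g0 := ?_, g1 := ?_, gm := gB_meas _ _ _ _ _ _ _,
           zero := ts_zero z, one := hOO z (by omega) Rs (by omega) yf Jf hS lam δ0 hlam, bad := ?_,
           two := hTT lam δ0 hlam hδ0 }
  · intro X δ u; unfold gB; split_ifs <;> norm_num
  · intro X δ u; unfold gB; split_ifs <;> norm_num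
  · intro K _ _ F hF hF0 η hη
    filter_upwards [hAA z (by omega) Rs (by omega) yf Jf hS lam δ0 hlam K F hF hF0 (η / 2) (by linarith),
      hBB z (by omega) Rs (by omega) yf Jf hS lam δ0 hlam K F hF hF0 (η / 2) (by linarith)] with X g1 g2 δ d1 d2 k x x0 x1
    have g3 := g1 δ d1 d2 k x x0 x1
    have g4 := g2 δ d1 d2 k x x0 x1
    have hFk : Continuous fun t : ℝ => F (k, pt (Sm z) t) := hF.comp (Continuous.prodMk continuous_const (QC.pt_cont _))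
    have hWx : Continuous fun t : ℝ => WB α z Rs yf Jf X δ (t + x) := (WB_cont _ _ _ _ _ _ _).comp (by fun_prop)
    have hc1 : Continuous fun t : ℝ => F (k, pt (Sm z) t) * WB α z Rs yf Jf X δ (t + x) := hFk.mul hWx
    have hm1 : Measurable fun t : ℝ => (if Gd1 z Rs yf Jf X δ (t + x) then (0:ℝ) else 1) :=
      Measurable.ite ((Gd1_meas z Rs yf Jf X δ).preimage (measurable_add_const x)) measurable_const measurable_const
    have hm2 : Measurable fun t : ℝ =>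
        (if Gd1 z Rs yf Jf X δ (t + x) ∧ ¬ Gd2 α A ε1 z Rs yf Jf X δ (t + x) then (1:ℝ) else 0) := by
      refine Measurable.ite ?_ measurable_const measurable_const
      have hms : MeasurableSet {u : ℝ | Gd1 z Rs yf Jf X δ u ∧ ¬ Gd2 α A ε1 z Rs yf Jf X δ u} := by
        rw [Gd1_eq]
        exact (Gd1_meas z Rs yf Jf X δ).diff (Gd_meas _ _ _ _ _ _ _ _ _)
      exact hms.preimage (measurable_add_const x)
    have hi : ∀ m : ℝ → ℝ, Measurable m → (∀ t, |m t| ≤ 1) →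
        IntervalIntegrable (fun t => F (k, pt (Sm z) t) * (WB α z Rs yf Jf X δ (t + x) * m t)) volume (Xl X) X := by
      intro m hm hm1
      rw [intervalIntegrable_iff]
      have h2 := intervalIntegrable_iff.mp (hc1.intervalIntegrable (μ := volume) (Xl X) X)
      have h3 := h2.mul_bdd (c := 1) hm.aestronglyMeasurable
        (Eventually.of_forall fun t => by rw [Real.norm_eq_abs]; exact hm1 t)
      refine h3.congr (Eventually.of_forall fun t => ?_)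
      show F (k, pt (Sm z) t) * WB α z Rs yf Jf X δ (t + x) * m t = F (k, pt (Sm z) t) * (WB α z Rs yf Jf X δ (t + x) * m t)
      ring
    have hi1 := hi _ hm1 fun t => by split_ifs <;> norm_num
    have hi2 := hi _ hm2 fun t => by split_ifs <;> norm_num
    have e1 : (∫ t in Xl X..X, F (k, pt (Sm z) t) * (WB α z Rs yf Jf X δ (t + x) *
        (1 - gB α A ε1 z Rs yf Jf X δ (t + x)))) =
        (∫ t in Xl X..X, F (k, pt (Sm z) t) * (WB α z Rs yf Jf X δ (t + x) *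
          (if Gd1 z Rs yf Jf X δ (t + x) then (0:ℝ) else 1))) +
        ∫ t in Xl X..X, F (k, pt (Sm z) t) * (WB α z Rs yf Jf X δ (t + x) *
          (if Gd1 z Rs yf Jf X δ (t + x) ∧ ¬ Gd2 α A ε1 z Rs yf Jf X δ (t + x) then (1:ℝ) else 0)) := by
      rw [← intervalIntegral.integral_add hi1 hi2]
      refine intervalIntegral.integral_congr fun t _ => ?_
      show F (k, pt (Sm z) t) * (WB α z Rs yf Jf X δ (t + x) * (1 - gB α A ε1 z Rs yf Jf X δ (t + x))) = _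
      rw [one_sub_gB]; ring
    rw [e1]
    have e2 : X * (e * (∫ y, F (k, y) ∂(HP (Sm z))) + η) = X * (e / 2 * (∫ y, F (k, y) ∂(HP (Sm z))) + η / 2) +
        X * (e / 2 * (∫ y, F (k, y) ∂(HP (Sm z))) + η / 2) := by ring
    rw [e2]
    exact add_le_add g3 g4

end Pool.Agent.N748.GC
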