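import Pool.Agent.N748.GC.Ts2
import Pool.Agent.N748.GC.L2

set_option autoImplicit false

/-! The assumptions of the assembly for the windows of length `δ^(-θ)`. -/

namespace Pool.Agent.N748.GC

open Finset Filter MeasureTheory MonoidAlgebra Topology Complex
open Pool.Agent.Y755 Pool.Agent.W184.NZ

lemma wd_nonneg' (δ : ℝ) (n : ℕ) : 0 ≤ wd δ n := by
  unfold wd
  positivity

lemma KX_cont (α : ℝ) (z : ℕ) (y : ℝ) (J : ℕ) (δ : ℝ) : Continuous (KX α z y J δ) := by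
  unfold KX
  refine Real.continuous_exp.comp (continuous_const.mul (continuous_finsetSum _ fun i _ =>
    continuous_finsetSum _ fun p _ => ?_))
  fun_prop

lemma KX_even (α : ℝ) (z : ℕ) (y : ℝ) (J : ℕ) (δ h : ℝ) : KX α z y J δ (-h) = KX α z y J δ h := by
  unfold KX
  simp only [neg_mul, Real.cos_neg]

/-- powers of the logarithm are small against powers -/
lemma logpow_small {b s e C : ℝ} (hs : 0 < s) (he : 0 < e) (hC : 0 < C) : ∃ z0 : ℕ, ∀ z ≥ z0,
    Real.log z ^ b * (C * (z:ℝ) ^ (-s)) ≤ e := by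
  have h1 := (isLittleO_log_rpow_rpow_atTop b hs).bound (c := e / C) (by positivity)
  obtain ⟨x0, hx0⟩ := eventually_atTop.mp h1
  refine ⟨max ⌈x0⌉₊ 3, fun z hz => ?_⟩
  have hz1 : x0 ≤ (z:ℝ) := (Nat.le_ceil x0).trans (by exact_mod_cast (le_max_left _ _).trans hz)
  have hz3 : (3:ℝ) ≤ z := by exact_mod_cast (le_max_right _ _).trans hz
  have hz0 : (0:ℝ) < z := by linarith
  have hlog : 0 < Real.log z := Real.log_pos (by linarith)
  have h2 := hx0 z hz1
  rw [Real.norm_of_nonneg (Real.rpow_nonneg hlog.le _), Real.norm_of_nonneg (Real.rpow_nonneg hz0.le _)] at h2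
  have h3 : (z:ℝ) ^ s * (z:ℝ) ^ (-s) = 1 := by rw [← Real.rpow_add hz0]; simp
  have h4 : 0 < (z:ℝ) ^ (-s) := Real.rpow_pos_of_pos hz0 _
  calc Real.log z ^ b * (C * (z:ℝ) ^ (-s)) ≤ (e / C * (z:ℝ) ^ s) * (C * (z:ℝ) ^ (-s)) :=
        mul_le_mul_of_nonneg_right h2 (by positivity)
    _ = e * ((z:ℝ) ^ s * (z:ℝ) ^ (-s)) := by field_simp
    _ = e := by rw [h3, mul_one]

theorem ts2_ex (hONE : S_ONE2) (hA : S_BADA2) (hB : S_BADB2) (hN : S_NEAR2) (hF : S_FAR) (hK : S_KAP) {α : ℝ}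
    (h0 : 0 < α) (h1 : α < 2) {ε1 : ℝ} (hε : 0 < ε1) (hε1 : ε1 ≤ 1) {ζ : ℝ} (hζ : α ^ 2 + ε1 ≤ ζ) {c : ℝ} (hc : 0 ≤ c)
    {e : ℝ} (he : 0 < e) (b : ℝ) : ∃ A C : ℝ, 0 ≤ C ∧ ∃ z0 R0 : ℕ, ∀ z ≥ z0, ∀ Rs ≥ R0, ∀ (yf : ℝ → ℝ) (Jf : ℝ → ℕ),
    SB c z Rs yf Jf → ∃ δ1 lamk : ℝ, 0 < δ1 ∧ ∀ lam δ0 : ℝ, 1 ≤ lam → δ0 ≤ δ1 → δ0 ≤ 1 / 16 →
      (∀ᶠ X : ℝ in atTop, ∀ δ : ℝ, lam / Real.log X ≤ δ → lamk ≤ δ * Real.log (yf X)) →
      TS2 b C ζ e lam δ0 z (WB α z Rs yf Jf) (gB α A ε1 z Rs yf Jf) (fun X δ => KX α z (yf X) (Jf X) δ) := by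
  classical
  obtain ⟨A, hA1, zB, RB', hBB⟩ := hB α h0 h1 ε1 hε hε1 c hc (e / 2) (by linarith)
  obtain ⟨C, hC, zT, RT, hTT⟩ := hN α h0 h1 ε1 hε hε1 c hc A hA1
  obtain ⟨zA, RA, hAA⟩ := hA α h0 h1 c hc (e / 2) (by linarith)
  obtain ⟨zO, RO, hOO⟩ := hONE α h0 h1 c hc e he
  obtain ⟨zF, RF, hFF⟩ := hF α h0 h1 c hc e he
  obtain ⟨CK, hCK, zK, hKK⟩ := hK α h0 h1
  obtain ⟨zL, hzL⟩ := logpow_small (b := 2 * b) (s := 1 / 4) (e := e) (C := CK) (by norm_num) he hCK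
  refine ⟨A, C, hC, zB + zT + zA + zO + zF + zK + zL, RB' + RT + RA + RO + RF, fun z hz Rs hRs yf Jf hS => ?_⟩
  obtain ⟨δ1, hδ1, hTT⟩ := hTT z (by omega) Rs (by omega) yf Jf hS
  obtain ⟨H0, lamk, hH0, hlamk, hKK⟩ := hKK z (by omega)
  have hzL' := hzL z (by omega)
  have hlogz : 0 < Real.log z := Real.log_pos (by have := hS.zz; exact_mod_cast (by omega : 1 < z))
  refine ⟨δ1, lamk, hδ1, fun lam δ0 hlam hδ0 hδ0' hy => ?_⟩
  refine { W0 := WB_nonneg _ _ _ _ _, Wc := WB_cont _ _ _ _ _, g0 := ?_, g1 := ?_, gm := gB_meas _ _ _ _ _ _ _,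
           k0 := fun X δ h => (Real.exp_pos _).le, kc := fun X δ => KX_cont _ _ _ _ _,
           ke := fun X δ h => KX_even _ _ _ _ _ _, kap := ?_,
           zero := ts_zero z, one := hOO z (by omega) Rs (by omega) yf Jf hS lam δ0 hlam, bad := ?_,
           near := ?_, far := ?_ }
  · intro X δ u; unfold gB; split_ifs <;> norm_num
  · intro X δ u; unfold gB; split_ifs <;> norm_num
  · refine ⟨H0, hH0, ?_⟩
    filter_upwards [hy, hS.ev, eventually_gt_atTop 1] with X g1 g2 hX1 δ d1 d2 H hH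
    have hL0 : 0 < Real.log X := Real.log_pos hX1
    have hδ : 0 < δ := lt_of_lt_of_le (div_pos (by linarith) hL0) d1
    have h3 := hKK H hH δ hδ (d2.trans hδ0') (yf X) (Jf X) g2.1 g2.2.1 (g1 δ d1)
    have hH0' : 0 < H := by linarith
    calc Real.log z ^ (2 * b) * ∫ h in (1:ℝ)..H, max (KX α z (yf X) (Jf X) δ h - 1) 0 ≤
          Real.log z ^ (2 * b) * (CK * (z:ℝ) ^ (-(1 / 4 : ℝ)) * H) :=
          mul_le_mul_of_nonneg_left h3 (Real.rpow_nonneg hlogz.le _)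
      _ = (Real.log z ^ (2 * b) * (CK * (z:ℝ) ^ (-(1 / 4 : ℝ)))) * H := by ring
      _ ≤ e * H := mul_le_mul_of_nonneg_right hzL' hH0'.le
  · intro K _ _ F hF hF0 η hη
    filter_upwards [hAA z (by omega) Rs (by omega) yf Jf hS lam δ0 hlam K F hF hF0 (η / 2) (by linarith),
      hBB z (by omega) Rs (by omega) yf Jf hS lam δ0 hlam K F hF hF0 (η / 2) (by linarith)] with X g1 g2 δ d1 d2 k x
    have g3 := g1 δ d1 d2 k x
    have g4 := g2 δ d1 d2 k x
    have hFk : Continuous fun t : ℝ => F (k, pt (Sm z) t) := hF.comp (Continuous.prodMk continuous_const (QC.pt_cont _))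
    have hWx : Continuous fun t : ℝ => WB α z Rs yf Jf X δ (t + x) := (WB_cont _ _ _ _ _ _ _).comp (by fun_prop)
    have hc1 : Continuous fun t : ℝ => F (k, pt (Sm z) t) * WB α z Rs yf Jf X δ (t + x) := hFk.mul hWx
    have hm1 : Measurable fun t : ℝ => (if Gd1 z Rs yf Jf X δ (t + x) then (0:ℝ) else 1) :=
      Measurable.ite ((Gd1_meas z Rs yf Jf X δ).preimage (measurable_add_const x)) measurable_const measurable_const
    have hm2 : Measurable fun t : ℝ =>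
        (if Gd1 z Rs yf Jf X δ (t + x) ∧ ¬ Gd2 α A ε1 z Rs yf Jf X δ (t + x) then (1:ℝ) else 0) := by
      refine Measurable.ite ?_ measurable_const measurable_const
      have hms : MeasurableSet {u : ℝ | Gd1 z Rs yf Jf X δ u ∧ ¬ Gd2 α A ε1 z Rs yf Jf X δ u} := by
        rw [Gd1_eq]
        exact (Gd1_meas z Rs yf Jf X δ).diff (Gd_meas _ _ _ _ _ _ _ _ _)
      exact hms.preimage (measurable_add_const x)
    have hi : ∀ m : ℝ → ℝ, Measurable m → (∀ t, |m t| ≤ 1) →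
        IntervalIntegrable (fun t => F (k, pt (Sm z) t) * (WB α z Rs yf Jf X δ (t + x) * m t)) volume (Xl X) X := by
      intro m hm hm1
      rw [intervalIntegrable_iff]
      have h2 := intervalIntegrable_iff.mp (hc1.intervalIntegrable (μ := volume) (Xl X) X)
      have h3 := h2.mul_bdd (c := 1) hm.aestronglyMeasurable
        (Eventually.of_forall fun t => by rw [Real.norm_eq_abs]; exact hm1 t)
      refine h3.congr (Eventually.of_forall fun t => ?_)
      show F (k, pt (Sm z) t) * WB α z Rs yf Jf X δ (t + x) * m t = F (k, pt (Sm z) t) * (WB α z Rs yf Jf X δ (t + x) * m t)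
      ring
    have hi1 := hi _ hm1 fun t => by split_ifs <;> norm_num
    have hi2 := hi _ hm2 fun t => by split_ifs <;> norm_num
    have e1 : (∫ t in Xl X..X, F (k, pt (Sm z) t) * (WB α z Rs yf Jf X δ (t + x) *
        (1 - gB α A ε1 z Rs yf Jf X δ (t + x)))) =
        (∫ t in Xl X..X, F (k, pt (Sm z) t) * (WB α z Rs yf Jf X δ (t + x) *
          (if Gd1 z Rs yf Jf X δ (t + x) then (0:ℝ) else 1))) +
        ∫ t in Xl X..X, F (k, pt (Sm z) t) * (WB α z Rs yf Jf X δ (t + x) *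
          (if Gd1 z Rs yf Jf X δ (t + x) ∧ ¬ Gd2 α A ε1 z Rs yf Jf X δ (t + x) then (1:ℝ) else 0)) := by
      rw [← intervalIntegral.integral_add hi1 hi2]
      refine intervalIntegral.integral_congr fun t _ => ?_
      show F (k, pt (Sm z) t) * (WB α z Rs yf Jf X δ (t + x) * (1 - gB α A ε1 z Rs yf Jf X δ (t + x))) = _
      rw [one_sub_gB]; ring
    rw [e1]
    have e2 : X * (e * (∫ y, F (k, y) ∂(HP (Sm z))) + η) = X * (e / 2 * (∫ y, F (k, y) ∂(HP (Sm z))) + η / 2) +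
        X * (e / 2 * (∫ y, F (k, y) ∂(HP (Sm z))) + η / 2) := by ring
    rw [e2]
    exact add_le_add g3 g4
  · intro K _ _ F hF hF0 η hη
    filter_upwards [hTT lam δ0 hlam hδ0 K F hF hF0 η hη, eventually_gt_atTop 1] with X g1 hX1 δ d1 d2 k x y hxy hxy1
    refine (g1 δ d1 d2 k x y hxy hxy1).trans ?_
    have hL0 : 0 < Real.log X := Real.log_pos hX1
    have hδ : 0 < δ := lt_of_lt_of_le (div_pos (by linarith) hL0) d1
    have hint : 0 ≤ ∫ w, F (k, w) ∂(HP (Sm z)) := integral_nonneg fun w => hF0 _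
    refine mul_le_mul_of_nonneg_left ?_ (by linarith)
    refine mul_le_mul_of_nonneg_left ?_ (by linarith)
    refine mul_le_mul_of_nonneg_left ?_ hC
    exact Real.rpow_le_rpow_of_exponent_ge (lt_max_of_lt_right hδ) (max_le hxy1 (by linarith)) (by linarith)
  · intro K _ _ F hF hF0 η hη
    filter_upwards [hFF z (by omega) Rs (by omega) yf Jf hS lam δ0 hlam K F hF hF0 η hη, Xl_small (η := 1) one_pos]
      with X g1 hXs δ d1 d2 k x y
    refine le_trans ?_ (g1 δ d1 d2 k x y)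
    have hXl : Xl X ≤ X := by linarith [hXs.2.1]
    have hFk : Continuous fun t : ℝ => F (k, pt (Sm z) t) := hF.comp (Continuous.prodMk continuous_const (QC.pt_cont _))
    have hWx : Continuous fun t : ℝ => WB α z Rs yf Jf X δ (t + x) := (WB_cont _ _ _ _ _ _ _).comp (by fun_prop)
    have hWy : Continuous fun t : ℝ => WB α z Rs yf Jf X δ (t + y) := (WB_cont _ _ _ _ _ _ _).comp (by fun_prop)
    have hc1 : Continuous fun t : ℝ => F (k, pt (Sm z) t) * (WB α z Rs yf Jf X δ (t + x) * WB α z Rs yf Jf X δ (t + y)) :=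
      hFk.mul (hWx.mul hWy)
    have hg0 : ∀ t, 0 ≤ gB α A ε1 z Rs yf Jf X δ t := fun t => by unfold gB; split_ifs <;> norm_num
    have hg1 : ∀ t, gB α A ε1 z Rs yf Jf X δ t ≤ 1 := fun t => by unfold gB; split_ifs <;> norm_num
    refine intervalIntegral.integral_mono_on_of_le_Ioo hXl ?_ (hc1.intervalIntegrable _ _) fun t _ => ?_
    · rw [intervalIntegrable_iff]
      have h2 := intervalIntegrable_iff.mp (hc1.intervalIntegrable (μ := volume) (Xl X) X)
      have hm : Measurable fun t : ℝ => gB α A ε1 z Rs yf Jf X δ (t + x) * gB α A ε1 z Rs yf Jf X δ (t + y) :=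
        ((gB_meas _ _ _ _ _ _ _ _ _).comp (measurable_add_const x)).mul
          ((gB_meas _ _ _ _ _ _ _ _ _).comp (measurable_add_const y))
      have h3 := h2.mul_bdd (c := 1) hm.aestronglyMeasurable
        (Eventually.of_forall fun t => by
          rw [Real.norm_of_nonneg (mul_nonneg (hg0 _) (hg0 _))]
          exact mul_le_one₀ (hg1 _) (hg0 _) (hg1 _))
      refine h3.congr (Eventually.of_forall fun t => ?_)
      show F (k, pt (Sm z) t) * (WB α z Rs yf Jf X δ (t + x) * WB α z Rs yf Jf X δ (t + y)) *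
        (gB α A ε1 z Rs yf Jf X δ (t + x) * gB α A ε1 z Rs yf Jf X δ (t + y)) = _
      ring
    · refine mul_le_mul_of_nonneg_left ?_ (hF0 _)
      exact mul_le_mul (mul_le_of_le_one_right (WB_nonneg _ _ _ _ _ _ _ _) (hg1 _))
        (mul_le_of_le_one_right (WB_nonneg _ _ _ _ _ _ _ _) (hg1 _))
        (mul_nonneg (WB_nonneg _ _ _ _ _ _ _ _) (hg0 _)) (WB_nonneg _ _ _ _ _ _ _ _)

end Pool.Agent.N748.GC
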